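import Mathlib

set_option autoImplicit false

namespace Pool.Agent.H3.AG

open Finset

abbrev L1 : Type := lp (fun _ : ℕ => ℝ) 1

noncomputable def ell (i : ℕ) (z : L1) : ℝ := (∑ j ∈ ({0, 1} : Finset ℕ).erase i, z j) / 2

noncomputable def G (i : ℕ) (z : L1) : ℝ := |z i| + |ell i z|

noncomputable def NN (z : L1) : ℝ := max (3 / 4 * ‖z‖) (⨆ i, G i z)

lemma sum_le (z : L1) (s : Finset ℕ) : ∑ j ∈ s, |z j| ≤ ‖z‖ := by
  simpa using lp.sum_rpow_le_norm_rpow (p := 1) (by simp) z s

lemma G_le (i : ℕ) (z : L1) : G i z ≤ |z i| / 2 + ‖z‖ / 2 := by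
  have h1 := sum_le z (insert i (({0, 1} : Finset ℕ).erase i))
  rw [sum_insert (notMem_erase _ _)] at h1
  have h2 := abs_sum_le_sum_abs (fun j => z j) (({0, 1} : Finset ℕ).erase i)
  unfold G ell
  rw [abs_div, abs_two]
  linarith

lemma abs_le_norm (z : L1) (i : ℕ) : |z i| ≤ ‖z‖ := by simpa using sum_le z {i}

lemma G_le_norm (i : ℕ) (z : L1) : G i z ≤ ‖z‖ := by
  linarith [G_le i z, abs_le_norm z i]

lemma G_le_NN (i : ℕ) (z : L1) : G i z ≤ NN z :=
  (le_ciSup ⟨‖z‖, by rintro _ ⟨j, rfl⟩; exact G_le_norm j z⟩ i).trans (le_max_right _ _)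

lemma norm_le_NN (z : L1) : 3 / 4 * ‖z‖ ≤ NN z := le_max_left _ _

lemma NN_le {z : L1} {c : ℝ} (h1 : 3 / 4 * ‖z‖ ≤ c) (h2 : ∀ i, G i z ≤ c) : NN z ≤ c :=
  max_le h1 (ciSup_le h2)

lemma NN_le_norm (z : L1) : NN z ≤ ‖z‖ :=
  NN_le (by linarith [norm_nonneg z]) (fun i => G_le_norm i z)

lemma NN_add (x y : L1) : NN (x + y) ≤ NN x + NN y := by
  refine NN_le (by linarith [norm_add_le x y, norm_le_NN x, norm_le_NN y]) fun i => ?_
  have e : ell i (x + y) = ell i x + ell i y := by
    simp only [ell, lp.coeFn_add, Pi.add_apply, sum_add_distrib]; ring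
  have h1 := G_le_NN i x
  have h2 := G_le_NN i y
  unfold G at *
  rw [e, lp.coeFn_add, Pi.add_apply]
  linarith [abs_add_le (x i) (y i), abs_add_le (ell i x) (ell i y)]

lemma NN_smul (c : ℝ) (x : L1) : NN (c • x) = |c| * NN x := by
  have e : ∀ i, G i (c • x) = |c| * G i x := by
    intro i
    have : ell i (c • x) = c * ell i x := by
      simp only [ell, lp.coeFn_smul, Pi.smul_apply, smul_eq_mul, ← mul_sum]; ring
    simp only [G, this, lp.coeFn_smul, Pi.smul_apply, smul_eq_mul, abs_mul]
    ring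
  unfold NN
  simp only [e]
  rw [← Real.mul_iSup_of_nonneg (abs_nonneg c), mul_max_of_nonneg _ _ (abs_nonneg c), norm_smul,
    Real.norm_eq_abs]
  congr 1
  ring

def XX : Type := L1

noncomputable instance : AddCommGroup XX := inferInstanceAs (AddCommGroup L1)
noncomputable instance : Module ℝ XX := inferInstanceAs (Module ℝ L1)

noncomputable def toX : L1 ≃ₗ[ℝ] XX := LinearEquiv.refl ℝ L1

noncomputable instance : Norm XX := ⟨fun x => NN (toX.symm x)⟩

lemma normX (x : XX) : ‖x‖ = NN (toX.symm x) := rfl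

lemma coreX : NormedSpace.Core ℝ XX where
  norm_nonneg x := by
    rw [normX]; linarith [norm_le_NN (toX.symm x), norm_nonneg (toX.symm x)]
  norm_smul c x := by rw [normX, normX, map_smul, NN_smul, Real.norm_eq_abs]
  norm_triangle x y := by rw [normX, normX, normX, map_add]; exact NN_add _ _
  norm_eq_zero_iff x := by
    rw [normX]
    constructor
    · intro h
      have := norm_le_NN (toX.symm x)
      have h2 : toX.symm x = 0 := norm_le_zero_iff.mp (by linarith)
      simpa using h2
    · rintro rfl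
      rw [map_zero]
      exact le_antisymm (by simpa using NN_le_norm 0) (by simpa using norm_le_NN 0)

noncomputable instance : NormedAddCommGroup XX := NormedAddCommGroup.ofCore coreX
noncomputable instance : NormedSpace ℝ XX := NormedSpace.ofCore coreX

lemma normX' (x : L1) : ‖toX x‖ = NN x := rfl

noncomputable def toXL : L1 ≃L[ℝ] XX :=
  toX.toContinuousLinearEquivOfBounds 1 2
    (fun x => by rw [normX', one_mul]; exact NN_le_norm x)
    (fun x => by rw [normX]; linarith [norm_le_NN (toX.symm x), norm_nonneg (toX.symm x)])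

lemma toXL_apply (x : L1) : toXL x = toX x := rfl

instance : CompleteSpace XX :=
  (completeSpace_congr (e := toXL.toLinearEquiv.toEquiv) toXL.isUniformEmbedding).mp inferInstance

/-- removing the coordinates in `A` -/
noncomputable def cut (A : Finset ℕ) (z : L1) : L1 := z - ∑ n ∈ A, lp.single 1 n (z n)

lemma cut_apply (A : Finset ℕ) (z : L1) (j : ℕ) : cut A z j = if j ∈ A then 0 else z j := by
  simp only [cut, lp.coeFn_sub, lp.coeFn_sum, Pi.sub_apply, Finset.sum_apply, lp.single_apply,
    Pi.single_apply, sum_ite_eq]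
  split_ifs <;> simp

lemma norm_cut (A : Finset ℕ) (z : L1) : ‖cut A z‖ = ‖z‖ - ∑ n ∈ A, |z n| := by
  simpa [cut] using lp.norm_compl_sum_single (p := 1) (by simp) z A

lemma main (z : L1) (A B : Finset ℕ) (hA : ∀ n ∈ A, ∀ k ∉ A, |z k| ≤ |z n|)
    (hB : B.card ≤ A.card) : NN (cut A z) ≤ NN (cut B z) := by
  have hcard : (B \ A).card ≤ (A \ B).card := card_sdiff_le_card_sdiff_iff.mpr hB
  set a := ∑ n ∈ A \ B, |z n| with ha
  set b := ∑ n ∈ B \ A, |z n| with hb
  set Y := ‖z‖ - ∑ n ∈ A ∪ B, |z n| with hY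
  have hu : ‖cut A z‖ = Y + b := by
    rw [norm_cut, hY, hb, ← union_sdiff_self_eq_union, sum_union disjoint_sdiff]; ring
  have hv : ‖cut B z‖ = Y + a := by
    rw [norm_cut, hY, ha, union_comm, ← union_sdiff_self_eq_union, sum_union disjoint_sdiff]; ring
  rcases (A \ B).eq_empty_or_nonempty with h0 | hne
  · have h1 : B \ A = ∅ := by rw [h0] at hcard; simpa using hcard
    have : A = B := subset_antisymm (sdiff_eq_empty_iff_subset.mp h0)
      (sdiff_eq_empty_iff_subset.mp h1)
    rw [this]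
  obtain ⟨k, hk, hmin⟩ := exists_min_image (A \ B) (fun n => |z n|) hne
  have hkA : k ∈ A := (mem_sdiff.mp hk).1
  have hkB : k ∉ B := (mem_sdiff.mp hk).2
  have h1 : ((A \ B).card : ℝ) * |z k| ≤ a := by
    simpa using card_nsmul_le_sum (A \ B) (fun n => |z n|) _ hmin
  have h2 : b ≤ ((B \ A).card : ℝ) * |z k| := by
    simpa using sum_le_card_nsmul (B \ A) (fun n => |z n|) _
      (fun n hn => hA k hkA n (mem_sdiff.mp hn).2)
  have h3 : ((B \ A).card : ℝ) ≤ (A \ B).card := by exact_mod_cast hcard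
  have hba : b ≤ a := by nlinarith [abs_nonneg (z k)]
  have hY0 : 0 ≤ Y := by linarith [sum_le z (A ∪ B)]
  have hN := norm_le_NN (cut B z)
  refine NN_le (by linarith) fun i => ?_
  have hG := G_le i (cut A z)
  have hi : |cut A z i| ≤ |z k| := by
    rw [cut_apply]
    split_ifs with h
    · simp
    · exact hA k hkA i h
  rcases le_or_gt 2 (A \ B).card with hc | hc
  · have : (2 : ℝ) ≤ (A \ B).card := by exact_mod_cast hc
    nlinarith [abs_nonneg (z k)]
  have hc1 : (A \ B).card = 1 := by have := hne.card_pos; omega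
  rw [hc1, Nat.cast_one, one_mul] at h1
  by_cases hiD : i ∈ B \ A
  · have hiB := (mem_sdiff.mp hiD).1
    have hiA := (mem_sdiff.mp hiD).2
    have hC : ∀ j, j ∈ A → j ∉ B → j = k := fun j h h' =>
      card_le_one.mp hc1.le j (mem_sdiff.mpr ⟨h, h'⟩) k hk
    have hD : ∀ j, j ∈ B → j ∉ A → j = i := fun j h h' =>
      card_le_one.mp (hcard.trans hc1.le) j (mem_sdiff.mpr ⟨h, h'⟩) i hiD
    have e : ell i (cut A z) = ell k (cut B z) := by
      unfold ell
      congr 1
      rw [← filter_ne', ← filter_ne', sum_filter, sum_filter]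
      refine sum_congr rfl fun j _ => ?_
      rw [cut_apply, cut_apply]
      by_cases hjA : j ∈ A <;> by_cases hjB : j ∈ B
      · simp [hjA, hjB]
      · simp [hjA, hC j hjA hjB, hkA]
      · simp [hjB, hD j hjB hjA, hiB]
      · have a1 : j ≠ i := fun h => hjB (h ▸ hiB)
        have a2 : j ≠ k := fun h => hjA (h ▸ hkA)
        simp [hjA, hjB, a1, a2]
    refine le_trans ?_ (G_le_NN k (cut B z))
    unfold G
    rw [e, cut_apply B z k, if_neg hkB]
    linarith
  · have : |cut A z i| ≤ Y := by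
      rw [cut_apply]
      split_ifs with h
      · simpa using hY0
      · have h' : i ∉ A ∪ B := by
          simp only [mem_sdiff, not_and, not_not] at hiD
          simp only [mem_union, not_or]
          exact ⟨h, fun hb => h (hiD hb)⟩
        have := sum_le z (insert i (A ∪ B))
        rw [sum_insert h'] at this
        linarith
    linarith

end Pool.Agent.H3.AG
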