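import Mathlib

set_option autoImplicit false

open Polynomial QuadraticAlgebra

namespace Pool.Agent.H3.AdPure

noncomputable def q : ℂ[X] := X ^ 3 + 1

abbrev A := QuadraticAlgebra ℂ[X] q 0

noncomputable def D (f : A) : A :=
  ⟨2 * q * derivative f.im + derivative q * f.im, 2 * derivative f.re⟩

@[simp] lemma D_re (f : A) : (D f).re = 2 * q * derivative f.im + derivative q * f.im := rfl
@[simp] lemma D_im (f : A) : (D f).im = 2 * derivative f.re := rfl

lemma D_add (f g : A) : D (f + g) = D f + D g := by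
  ext1 <;> simp <;> ring

lemma D_smul (c : ℂ) (f : A) : D (c • f) = c • D f := by
  ext1 <;> simp [smul_eq_C_mul] <;> ring

lemma D_mul (f g : A) : D (f * g) = f * D g + g * D f := by
  ext1 <;> simp <;> ring

lemma D_one : D 1 = 0 := by
  ext1 <;> simp

lemma D_sub (f g : A) : D (f - g) = D f - D g := by
  ext1 <;> simp <;> ring

noncomputable def br (f g : A) : A := f * D g - g * D f

def F (n : ℕ) : Submodule ℂ A where
  carrier := {f | (∀ i, n ≤ 2 * i → f.re.coeff i = 0) ∧ (∀ i, n ≤ 2 * i + 3 → f.im.coeff i = 0)}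
  add_mem' := by
    rintro f g ⟨h1, h2⟩ ⟨h3, h4⟩
    exact ⟨fun i hi => by simp [h1 i hi, h3 i hi], fun i hi => by simp [h2 i hi, h4 i hi]⟩
  zero_mem' := ⟨fun i _ => by simp, fun i _ => by simp⟩
  smul_mem' := by
    rintro c f ⟨h1, h2⟩
    exact ⟨fun i hi => by simp [h1 i hi], fun i hi => by simp [h2 i hi]⟩

lemma mem_F {n : ℕ} {f : A} : f ∈ F n ↔
    (∀ i, n ≤ 2 * i → f.re.coeff i = 0) ∧ (∀ i, n ≤ 2 * i + 3 → f.im.coeff i = 0) := Iff.rfl

lemma q_monic : q.Monic := by unfold q; monicity!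
lemma q_deg : q.natDegree = 3 := by unfold q; compute_degree!

lemma coeff_cond (u : ℂ[X]) (n c : ℕ) (hu : u ≠ 0) :
    (∀ i, n ≤ 2 * i + c → u.coeff i = 0) ↔ 2 * u.natDegree + c < n := by
  constructor
  · intro h
    by_contra hc
    exact hu (leadingCoeff_eq_zero.1 (h _ (by omega)))
  · intro h i hi
    exact coeff_eq_zero_of_natDegree_lt (by omega)

lemma norm_eq (f : A) : QuadraticAlgebra.norm f = f.re * f.re - q * (f.im * f.im) := by
  rw [norm_def]; ring

lemma mem_F_iff (n : ℕ) (f : A) : f ∈ F n ↔ (QuadraticAlgebra.norm f).degree < n := by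
  rw [norm_eq, mem_F]
  have hq : q ≠ 0 := q_monic.ne_zero
  by_cases hu : f.re = 0 <;> by_cases hv : f.im = 0
  · simp [hu, hv]
  · have h2 : q * (f.im * f.im) ≠ 0 := by simp [hq, hv]
    have h3 : (q * (f.im * f.im)).natDegree = 2 * f.im.natDegree + 3 := by
      rw [natDegree_mul hq (by simp [hv]), natDegree_mul hv hv, q_deg]; ring
    rw [coeff_cond _ n 3 hv, hu]
    simp only [coeff_zero, implies_true, true_and, mul_zero, zero_sub, degree_neg]
    rw [degree_eq_natDegree h2, h3]; norm_cast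
  · have h2 : f.re * f.re ≠ 0 := by simp [hu]
    have h3 : (f.re * f.re).natDegree = 2 * f.re.natDegree + 0 := by
      rw [natDegree_mul hu hu]; ring
    have := coeff_cond _ n 0 hu
    simp only [add_zero] at this h3
    rw [this, hv]
    simp only [coeff_zero, implies_true, and_true, mul_zero, sub_zero]
    rw [degree_eq_natDegree h2, h3]; norm_cast
  · have h2 : q * (f.im * f.im) ≠ 0 := by simp [hq, hv]
    have h3 : (q * (f.im * f.im)).natDegree = 2 * f.im.natDegree + 3 := by
      rw [natDegree_mul hq (by simp [hv]), natDegree_mul hv hv, q_deg]; ring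
    have h4 : f.re * f.re ≠ 0 := by simp [hu]
    have h5 : (f.re * f.re).natDegree = 2 * f.re.natDegree := by
      rw [natDegree_mul hu hu]; ring
    have := coeff_cond _ n 0 hu
    simp only [add_zero] at this
    rw [this, coeff_cond _ n 3 hv]
    have e2 := degree_eq_natDegree h2
    have e4 := degree_eq_natDegree h4
    rw [h3] at e2; rw [h5] at e4
    rcases lt_or_gt_of_ne (show 2 * f.re.natDegree ≠ 2 * f.im.natDegree + 3 by omega) with h | h
    · rw [degree_sub_eq_right_of_degree_lt (by rw [e2, e4]; exact_mod_cast h), e2]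
      norm_cast; omega
    · rw [degree_sub_eq_left_of_degree_lt (by rw [e2, e4]; exact_mod_cast h), e4]
      norm_cast; omega

noncomputable def W (f : A) : ℕ := (QuadraticAlgebra.norm f).natDegree

lemma norm_ne {f : A} (hf : f ≠ 0) : QuadraticAlgebra.norm f ≠ 0 := by
  intro h
  have : f ∈ F 0 := (mem_F_iff 0 f).2 (by rw [h]; simp)
  apply hf
  ext1
  · ext i; exact this.1 i (by omega)
  · ext i; exact this.2 i (by omega)

lemma mul_ne {f g : A} (hf : f ≠ 0) (hg : g ≠ 0) : f * g ≠ 0 := by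
  intro h
  have := mul_ne_zero (norm_ne hf) (norm_ne hg)
  rw [← map_mul, h, QuadraticAlgebra.norm_zero] at this
  exact this rfl

lemma W_mul {f g : A} (hf : f ≠ 0) (hg : g ≠ 0) : W (f * g) = W f + W g := by
  unfold W; rw [map_mul, natDegree_mul (norm_ne hf) (norm_ne hg)]

lemma mem_F_W {f : A} (hf : f ≠ 0) (n : ℕ) : f ∈ F n ↔ W f < n := by
  rw [mem_F_iff, degree_eq_natDegree (norm_ne hf)]; unfold W; norm_cast

lemma mem_F_succ (f : A) : f ∈ F (W f + 1) := by
  by_cases hf : f = 0
  · rw [hf]; exact Submodule.zero_mem _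
  · exact (mem_F_W hf _).2 (by omega)

lemma F_mono {m n : ℕ} (h : m ≤ n) : F m ≤ F n := fun _ hf =>
  ⟨fun i hi => hf.1 i (by omega), fun i hi => hf.2 i (by omega)⟩

lemma mul_mem_F {f g : A} {n : ℕ} (hg : g ∈ F n) : f * g ∈ F (W f + n) := by
  by_cases hf : f = 0
  · rw [hf, zero_mul]; exact Submodule.zero_mem _
  by_cases hg0 : g = 0
  · rw [hg0, mul_zero]; exact Submodule.zero_mem _
  rw [mem_F_W (mul_ne hf hg0), W_mul hf hg0]
  have := (mem_F_W hg0 n).1 hg
  omega

noncomputable def x : A := ⟨X, 0⟩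
noncomputable def y : A := ⟨0, 1⟩

lemma x_ne : x ≠ 0 := fun h => X_ne_zero (congrArg QuadraticAlgebra.re h)
lemma y_ne : y ≠ 0 := fun h => one_ne_zero (congrArg QuadraticAlgebra.im h)
lemma W_x : W x = 2 := by
  unfold W; rw [norm_eq]; simp [x]
lemma W_y : W y = 3 := by
  unfold W; rw [norm_eq]; simp [y, q_deg]

lemma coeff_XD (u : ℂ[X]) (i : ℕ) : (X * derivative u).coeff i = i * u.coeff i := by
  cases i with
  | zero => simp
  | succ j => rw [coeff_X_mul, coeff_derivative]; push_cast; ring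

lemma key {f : A} {n : ℕ} (hf : f ∈ F (n + 1)) : x * D f - (n : ℂ) • (y * f) ∈ F (n + 3) := by
  constructor
  · intro i hi
    have e : (x * D f - (n : ℂ) • (y * f)).re =
        X ^ 3 * (C 2 * (X * derivative f.im) + C (3 - (n : ℂ)) * f.im)
          + (C 2 * (X * derivative f.im) - C (n : ℂ) * f.im) := by
      have hq : derivative q = 3 * X ^ 2 := by
        simp only [q, derivative_add, derivative_one, derivative_X_pow, add_zero]; rfl
      have hq2 : q = X ^ 3 + 1 := rfl
      simp only [x, y, re_sub, re_smul, re_mul, D_re, D_im, smul_eq_C_mul, map_sub, map_ofNat]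
      rw [hq]
      linear_combination (X * 2 * derivative f.im - C (n : ℂ) * f.im) * hq2
    rw [e, coeff_add, coeff_X_pow_mul', coeff_sub, coeff_C_mul, coeff_C_mul, coeff_XD,
      hf.2 i (by omega)]
    split_ifs with h3
    · rw [coeff_add, coeff_C_mul, coeff_C_mul, coeff_XD]
      rcases eq_or_ne n (2 * (i - 3) + 3) with h | h
      · have : (n : ℂ) = 2 * ((i - 3 : ℕ) : ℂ) + 3 := by exact_mod_cast h
        rw [this]; ring
      · rw [hf.2 (i - 3) (by omega)]; ring
    · ring
  · intro i hi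
    have e : (x * D f - (n : ℂ) • (y * f)).im =
        C 2 * (X * derivative f.re) - C (n : ℂ) * f.re := by
      simp [x, y, smul_eq_C_mul, map_ofNat]; ring
    rw [e, coeff_sub, coeff_C_mul, coeff_C_mul, coeff_XD]
    rcases eq_or_ne n (2 * i) with h | h
    · have : (n : ℂ) = 2 * (i : ℂ) := by exact_mod_cast h
      rw [this]; ring
    · rw [hf.1 i (by omega)]; ring

lemma br_W {f g : A} (hf : f ≠ 0) (hg : g ≠ 0) (h : W f ≠ W g) :
    br f g ≠ 0 ∧ W (br f g) = W f + W g + 1 := by
  have e : x * br f g = (f * (x * D g - (W g : ℂ) • (y * g)) - g * (x * D f - (W f : ℂ) • (y * f)))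
      + ((W g : ℂ) - (W f : ℂ)) • (y * (f * g)) := by
    simp only [br, Algebra.smul_def, map_sub]; ring
  have h1 : f * (x * D g - (W g : ℂ) • (y * g)) - g * (x * D f - (W f : ℂ) • (y * f))
      ∈ F (W f + W g + 3) := by
    apply Submodule.sub_mem
    · exact mul_mem_F (key (mem_F_succ g))
    · have := mul_mem_F (f := g) (key (mem_F_succ f))
      rwa [show W g + (W f + 3) = W f + W g + 3 by ring] at this
  have hc : ((W g : ℂ) - (W f : ℂ)) ≠ 0 := sub_ne_zero.2 (by exact_mod_cast h.symm)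
  have h0 : y * (f * g) ≠ 0 := mul_ne y_ne (mul_ne hf hg)
  have hW : W (y * (f * g)) = W f + W g + 3 := by
    rw [W_mul y_ne (mul_ne hf hg), W_mul hf hg, W_y]; ring
  have h2 : x * br f g ∉ F (W f + W g + 3) := by
    rw [e]
    intro hm
    have h3 := Submodule.sub_mem _ hm h1
    rw [add_sub_cancel_left, Submodule.smul_mem_iff _ hc, mem_F_W h0] at h3
    omega
  have h3 : x * br f g ∈ F (W f + W g + 4) := by
    rw [e]
    exact Submodule.add_mem _ (F_mono (by omega) h1)
      (Submodule.smul_mem _ _ ((mem_F_W h0 _).2 (by omega)))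
  have hb : br f g ≠ 0 := by
    intro hb; rw [hb, mul_zero] at h2; exact h2 (Submodule.zero_mem _)
  rw [mem_F_W (mul_ne x_ne hb), W_mul x_ne hb, W_x] at h2 h3
  exact ⟨hb, by omega⟩

lemma reduce {f g : A} {n : ℕ} (hf : f ∈ F (n + 1)) (hf' : f ∉ F n) (hg : g ∈ F (n + 1)) :
    ∃ c : ℂ, g - c • f ∈ F n := by
  rw [mem_F, not_and_or] at hf'
  push Not at hf'
  rcases hf' with ⟨i, hi, h⟩ | ⟨i, hi, h⟩
  · have hn : n = 2 * i := by
      by_contra hne; exact h (hf.1 i (by omega))
    refine ⟨g.re.coeff i / f.re.coeff i, fun j hj => ?_, fun j hj => ?_⟩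
    · rcases eq_or_ne j i with rfl | hne
      · simp; field_simp; ring
      · simp [hf.1 j (by omega), hg.1 j (by omega)]
    · simp [hf.2 j (by omega), hg.2 j (by omega)]
  · have hn : n = 2 * i + 3 := by
      by_contra hne; exact h (hf.2 i (by omega))
    refine ⟨g.im.coeff i / f.im.coeff i, fun j hj => ?_, fun j hj => ?_⟩
    · simp [hf.1 j (by omega), hg.1 j (by omega)]
    · rcases eq_or_ne j i with rfl | hne
      · simp; field_simp; ring
      · simp [hf.2 j (by omega), hg.2 j (by omega)]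

lemma br_gt {a v : A} (h : br a v ≠ 0) : W a < W (br a v) := by
  have ha : a ≠ 0 := by
    rintro rfl; apply h; ext1 <;> simp [br]
  have hv : v ≠ 0 := by
    rintro rfl; apply h; ext1 <;> simp [br]
  by_cases hW : W a = W v
  · obtain ⟨c, hc⟩ := reduce (mem_F_succ a) (by rw [mem_F_W ha]; omega) (hW ▸ mem_F_succ v)
    have e : br a (v - c • a) = br a v := by
      simp only [br, D_sub, D_smul]; simp only [Algebra.smul_def]; ring
    have hv' : v - c • a ≠ 0 := by
      intro h0; rw [← e, h0] at h; apply h; ext1 <;> simp [br]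
    have := (mem_F_W hv' _).1 hc
    rw [← e, (br_W ha hv' (by omega)).2]; omega
  · rw [(br_W ha hv hW).2]; omega

lemma pure (a : A) (V : Submodule ℂ A) (hV : V.FG) (hinv : ∀ v ∈ V, br a v ∈ V) :
    ∀ v ∈ V, br a v = 0 := by
  intro v hv
  by_contra h
  have ha : a ≠ 0 := by
    rintro rfl; apply h; ext1 <;> simp [br]
  obtain ⟨s, hs⟩ := hV
  have hN : V ≤ F (s.sup W + 1) := by
    rw [← hs, Submodule.span_le]
    intro f hf
    exact F_mono (Nat.succ_le_succ (Finset.le_sup (f := W) hf)) (mem_F_succ f)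
  have hk : ∀ k : ℕ, ∃ z ∈ V, z ≠ 0 ∧ W a < W z ∧ k ≤ W z := by
    intro k
    induction k with
    | zero => exact ⟨_, hinv v hv, h, br_gt h, by omega⟩
    | succ k ih =>
      obtain ⟨z, hz, hz0, h1, h2⟩ := ih
      have := br_W ha hz0 (by omega)
      exact ⟨_, hinv z hz, this.1, by omega, by omega⟩
  obtain ⟨z, hz, hz0, -, h2⟩ := hk (s.sup W + 1)
  have := (mem_F_W hz0 _).1 (hN hz)
  omega

lemma tD (t h : ℂ[X]) (ht : derivative t = 1) (k : ℕ) :
    t * derivative (t ^ k * h) = t ^ k * ((k : ℂ[X]) * h + t * derivative h) := by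
  cases k with
  | zero => simp
  | succ j => rw [derivative_mul, derivative_pow_succ, ht]; simp; ring

lemma poly_unit (p : ℂ[X]) (hp : p ≠ 0) (h1 : p ∣ q * (2 * derivative p))
    (h2 : p ∣ 2 * q * derivative (2 * derivative p) + derivative q * (2 * derivative p)) :
    IsUnit p := by
  by_contra hu
  obtain ⟨α, hα⟩ := IsAlgClosed.exists_root p (fun h => hu (isUnit_iff_degree_eq_zero.2 h))
  obtain ⟨r, hr, hr'⟩ := exists_eq_pow_rootMultiplicity_mul_and_not_dvd p hp α
  obtain ⟨k, hk⟩ := Nat.exists_eq_succ_of_ne_zero ((rootMultiplicity_pos hp).2 hα).ne'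
  rw [hk] at hr
  set t : ℂ[X] := X - C α with ht
  have ht0 : t ≠ 0 := X_sub_C_ne_zero α
  have htd : derivative t = 1 := by simp [ht]
  have hte : t.eval α = 0 := by simp [ht]
  have hr0 : r.eval α ≠ 0 := fun h => hr' (dvd_iff_isRoot.2 h)
  set h : ℂ[X] := ((k + 1 : ℕ) : ℂ[X]) * r + t * derivative r with hh
  have hd : derivative p = t ^ k * h := by
    apply mul_left_cancel₀ ht0
    rw [hr, tD t r htd]; simp only [Nat.succ_eq_add_one, hh]; ring
  have hhe : h.eval α ≠ 0 := by
    rw [hh]
    simp only [eval_add, eval_mul, hte, zero_mul, add_zero, eval_natCast]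
    exact mul_ne_zero (by exact_mod_cast Nat.succ_ne_zero k) hr0
  have hdv : ∀ z : ℂ[X], p ∣ t ^ k * z → z.eval α = 0 := by
    intro z hz
    have : t ^ k * t ∣ t ^ k * z := Dvd.dvd.trans ⟨r, by rw [hr, pow_succ]⟩ hz
    exact dvd_iff_isRoot.1 ((mul_dvd_mul_iff_left (pow_ne_zero k ht0)).1 this)
  have hq : q.eval α = 0 := by
    have := hdv (q * (2 * h)) (by rw [hd] at h1; convert h1 using 1; ring)
    simpa [hhe] using this
  obtain ⟨s, hs⟩ := dvd_iff_isRoot.2 hq
  rw [← ht] at hs
  have hq' : (derivative q).eval α = s.eval α := by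
    rw [hs]; simp [htd, hte]
  have hs0 : s.eval α ≠ 0 := by
    rw [← hq']
    have hα0 : α ≠ 0 := by
      rintro rfl; simp [q] at hq
    simp [q, hα0]; norm_num
  have e := tD t h htd k
  have := hdv (4 * s * ((k : ℂ[X]) * h + t * derivative h) + derivative q * (2 * h)) (by
    convert h2 using 1
    rw [derivative_mul, hd]
    have e2 : derivative (2 : ℂ[X]) = 0 := by simp
    rw [e2]
    nth_rewrite 2 [hs]
    linear_combination (-4 * s) * e)
  simp only [eval_add, eval_mul, hte, hq', eval_natCast, eval_ofNat] at this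
  have h5 : (4 * (k : ℂ) + 2) * (s.eval α * h.eval α) = 0 := by linear_combination this
  have h6 : (4 * (k : ℂ) + 2) ≠ 0 := by exact_mod_cast (show 4 * k + 2 ≠ 0 by omega)
  exact mul_ne_zero h6 (mul_ne_zero hs0 hhe) h5

lemma D_simple (J : Ideal A) (hJ : J ≠ ⊥) (hD : ∀ u ∈ J, D u ∈ J) : J = ⊤ := by
  obtain ⟨f, hf, hf0⟩ := Submodule.exists_mem_ne_zero_of_ne_bot hJ
  let P : Ideal ℂ[X] := J.comap (algebraMap ℂ[X] A)
  have hP : ∀ z : ℂ[X], z ∈ P ↔ (⟨z, 0⟩ : A) ∈ J := fun z => Iff.rfl
  obtain ⟨p, hp⟩ := (IsPrincipalIdealRing.principal P).principal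
  have hp' : ∀ z : ℂ[X], (⟨z, 0⟩ : A) ∈ J ↔ p ∣ z := fun z => by
    rw [← hP, hp]; exact Ideal.mem_span_singleton
  have hn : QuadraticAlgebra.norm f ∈ P := by
    show algebraMap ℂ[X] A _ ∈ J
    rw [algebraMap_norm_eq_mul_star]; exact J.mul_mem_right _ hf
  have hp0 : p ≠ 0 := by
    rintro rfl
    exact norm_ne hf0 (zero_dvd_iff.1 ((hp' _).1 ((hP _).1 hn)))
  have h0 := hD _ ((hp' p).2 dvd_rfl)
  have h1 := J.mul_mem_left y h0
  have h2 := hD _ h0
  have hu := poly_unit p hp0 ((hp' _).1 (by convert h1 using 1; ext1 <;> simp [y]))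
    ((hp' _).1 (by convert h2 using 1; ext1 <;> simp))
  rw [Ideal.eq_top_iff_one]
  exact (hp' 1).2 hu.dvd

lemma simple (I : Submodule ℂ A) (hI : ∀ f, ∀ g ∈ I, br f g ∈ I) : I = ⊥ ∨ I = ⊤ := by
  by_cases h0 : I = ⊥
  · exact Or.inl h0
  right
  obtain ⟨g, hg, hg0⟩ := Submodule.exists_mem_ne_zero_of_ne_bot h0
  have s1 : ∀ g ∈ I, ∀ h, g * g * D h ∈ I := by
    intro g hg h
    have := I.neg_mem (hI (h * g) g hg)
    convert this using 1
    simp only [br, D_mul]; ring
  have s2 : ∀ g ∈ I, ∀ g' ∈ I, ∀ h, g * g' * D h ∈ I := by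
    intro g hg g' hg' h
    have := I.smul_mem (1 / 2 : ℂ)
      (I.sub_mem (I.sub_mem (s1 _ (I.add_mem hg hg') h) (s1 _ hg h)) (s1 _ hg' h))
    convert this using 1
    rw [show (g + g') * (g + g') * D h - g * g * D h - g' * g' * D h
      = (2 : ℂ) • (g * g' * D h) by rw [two_smul]; ring, smul_smul]
    norm_num
  have s3 : ∀ k h, g * (g * g * D k) * D h ∈ I := fun k h => s2 _ hg _ (s1 _ hg k) h
  let J : Ideal A :=
    { carrier := {u | ∀ h, u * h ∈ I}
      add_mem' := fun {a b} ha hb h => by rw [add_mul]; exact I.add_mem (ha h) (hb h)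
      zero_mem' := fun h => by rw [zero_mul]; exact I.zero_mem
      smul_mem' := fun c a ha h => by
        rw [smul_eq_mul, mul_comm c a, mul_assoc]; exact ha _ }
  have hDx : D x ≠ 0 := by
    intro h
    have := congrArg QuadraticAlgebra.im h
    simp [x] at this
  have hu : g * (g * g * D x) * D x ∈ J := by
    intro h
    have := I.sub_mem (s3 x (x * h)) (I.smul_mem (1 / 2 : ℂ) (s3 (x * x) h))
    convert this using 1
    rw [show g * (g * g * D (x * x)) * D h = (2 : ℂ) • (g * (g * g * (x * D x)) * D h) by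
      rw [two_smul, D_mul]; ring, smul_smul, D_mul]
    norm_num; ring
  have hJ := D_simple J (by
      intro h
      rw [h] at hu
      exact mul_ne (mul_ne hg0 (mul_ne (mul_ne hg0 hg0) hDx)) hDx hu) (by
      intro u hu h
      have := I.sub_mem (hI 1 _ (hu h)) (hu (D h))
      convert this using 1
      simp only [br, D_mul, D_one]; ring)
  rw [eq_top_iff]
  intro f _
  have : (1 : A) ∈ J := by rw [hJ]; trivial
  simpa using this f

def L : Type := A

noncomputable instance : AddCommGroup L := inferInstanceAs (AddCommGroup A)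
noncomputable instance : Module ℂ L := inferInstanceAs (Module ℂ A)

noncomputable instance : LieRing L where
  bracket := fun f g : A => br f g
  add_lie := fun f g h : A => show br (f + g) h = br f h + br g h by
    simp only [br, D_add]; ring
  lie_add := fun f g h : A => show br f (g + h) = br f g + br f h by
    simp only [br, D_add]; ring
  lie_self := fun f : A => show br f f = 0 by simp only [br]; ring
  leibniz_lie := fun f g h : A => show br f (br g h) = br (br f g) h + br g (br f h) by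
    simp only [br, D_sub, D_mul]; ring

noncomputable instance : LieAlgebra ℂ L where
  lie_smul := fun (c : ℂ) (f g : A) => show br f (c • g) = c • br f g by
    simp only [br, D_smul]; simp only [Algebra.smul_def]; ring

theorem isSimple : LieAlgebra.IsSimple ℂ L where
  eq_bot_or_eq_top := fun I => by
    rcases simple (I.toSubmodule : Submodule ℂ L) (fun f g hg => I.lie_mem (x := f) hg) with h | h
    · left; exact (LieSubmodule.toSubmodule_eq_bot I).1 h
    · right; exact (LieSubmodule.toSubmodule_eq_top I).1 h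
  non_abelian := fun h => (br_W x_ne y_ne (by rw [W_x, W_y]; omega)).1 (h.trivial x y)

end Pool.Agent.H3.AdPure
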