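import Mathlib

set_option autoImplicit false
open Real

namespace Pool.Agent.H3.Aloha

noncomputable def q (w : ℕ) (p : ℝ) : ℝ := (w : ℝ) * p * (1 - p) ^ (w - 1)

lemma q_nonneg (w : ℕ) {p : ℝ} (h0 : 0 ≤ p) (h1 : p ≤ 1/2) : 0 ≤ q w p := by
  unfold q
  have : 0 ≤ 1 - p := by linarith
  positivity

lemma q_le (w : ℕ) {p : ℝ} (h0 : 0 ≤ p) (h1 : p ≤ 1/2) : q w p ≤ w * p := by
  unfold q
  have : (1 - p) ^ (w - 1) ≤ 1 := pow_le_one₀ (by linarith) (by linarith)
  have h : 0 ≤ (w : ℝ) * p := by positivity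
  nlinarith

lemma q_upper (w : ℕ) {p : ℝ} (h0 : 0 ≤ p) (h1 : p ≤ 1/2) :
    q w p ≤ 2 * (w * p) * exp (-(w * p)) := by
  unfold q
  have h : 0 ≤ (w : ℝ) * p := by positivity
  rcases Nat.eq_zero_or_pos w with rfl | hw
  · simp
  have hp : 0 ≤ 1 - p := by linarith
  have e1 : (1 - p) ^ w = (1 - p) ^ (w - 1) * (1 - p) := by
    rw [← pow_succ]; congr 1; omega
  have e2 : (1 - p) ^ w ≤ exp (-(w * p)) := by
    have : 1 - p ≤ exp (-p) := by linarith [add_one_le_exp (-p)]
    calc (1 - p) ^ w ≤ exp (-p) ^ w := pow_le_pow_left₀ hp this w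
      _ = _ := by rw [← exp_nat_mul]; ring_nf
  have e3 : (1 - p) ^ (w - 1) ≤ 2 * exp (-(w * p)) := by
    have : 0 ≤ (1 - p) ^ (w - 1) := by positivity
    nlinarith
  nlinarith

lemma q_lower (w : ℕ) {p : ℝ} (h0 : 0 ≤ p) (h1 : p ≤ 1/2) :
    (w * p) * exp (-(2 * (w * p))) ≤ q w p := by
  unfold q
  have h : 0 ≤ (w : ℝ) * p := by positivity
  have hp : 0 ≤ 1 - p := by linarith
  have e0 : exp (-(2 * p)) ≤ 1 - p := by
    rw [exp_neg, inv_le_iff_one_le_mul₀ (exp_pos _)]
    have := add_one_le_exp (2 * p)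
    nlinarith
  have e1 : (1 - p) ^ w ≤ (1 - p) ^ (w - 1) :=
    pow_le_pow_of_le_one hp (by linarith) (by omega)
  have e2 : exp (-(2 * (w * p))) ≤ (1 - p) ^ w := by
    calc exp (-(2 * (w * p))) = exp (-(2 * p)) ^ w := by rw [← exp_nat_mul]; ring_nf
      _ ≤ _ := pow_le_pow_left₀ (exp_pos _).le e0 w
  exact mul_le_mul_of_nonneg_left (e2.trans e1) h

lemma xexp_le (x : ℝ) : 2 * x * exp (-x) ≤ 1 := by
  have h1 := add_one_le_exp (x - 1)
  have h2 : exp (x - 1) * exp (-x) = exp (-1) := by rw [← exp_add]; ring_nf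
  have h3 : exp (-1) ≤ 1/2 := by
    rw [exp_neg, inv_le_comm₀ (exp_pos _) (by norm_num)]
    have := add_one_le_exp (1:ℝ); linarith
  have h4 := exp_pos (-x)
  nlinarith

lemma q_le_one (w : ℕ) {p : ℝ} (h0 : 0 ≤ p) (h1 : p ≤ 1/2) : q w p ≤ 1 :=
  (q_upper w h0 h1).trans (xexp_le _)

lemma bern (w : ℕ) {p : ℝ} (h0 : 0 ≤ p) (h1 : p ≤ 1/2) : 1 - w * p ≤ (1 - p) ^ (w - 1) := by
  have e1 : (1 - p) ^ w ≤ (1 - p) ^ (w - 1) :=
    pow_le_pow_of_le_one (by linarith) (by linarith) (by omega)
  have := one_add_mul_le_pow (a := -p) (by linarith) w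
  have e : (1 + -p) = 1 - p := by ring
  rw [e] at this
  linarith

/-- arrival factor -/
noncomputable def u (lam s : ℝ) : ℝ := exp (lam * (exp (10 / s) - 1))

lemma u_le {lam s : ℝ} (hl : 0 ≤ lam) (hs : 640 ≤ s) : u lam s ≤ exp (20 * lam / s) := by
  unfold u
  apply exp_le_exp.2
  have hs0 : 0 < s := by linarith
  have ht : 10 / s ≤ 1 := by rw [div_le_one hs0]; linarith
  have ht0 : 0 ≤ 10 / s := by positivity
  have := Real.abs_exp_sub_one_le (x := 10 / s) (by rw [abs_of_nonneg ht0]; exact ht)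
  rw [abs_of_nonneg ht0] at this
  have h2 := le_trans (le_abs_self _) this
  calc lam * (exp (10 / s) - 1) ≤ lam * (2 * (10 / s)) := mul_le_mul_of_nonneg_left h2 hl
    _ = _ := by ring

lemma exp_small {x : ℝ} (h : x ≤ 1/2) : exp x ≤ 2 := by
  have h1 := add_one_le_exp (-x)
  have h2 : exp x * exp (-x) = 1 := by rw [← exp_add]; simp
  have h3 := exp_pos x
  nlinarith

lemma u_le_two {lam s : ℝ} (hl : 0 ≤ lam) (hl1 : lam ≤ 1/100) (hs : 640 ≤ s) : u lam s ≤ 2 := by
  refine (u_le hl hs).trans (exp_small ?_)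
  rw [div_le_iff₀ (by linarith)]; nlinarith

lemma u_pos (lam s : ℝ) : 0 < u lam s := exp_pos _

lemma Dbound {lam s w : ℝ} (hl : 0 ≤ lam) (hl1 : lam ≤ 1/100) (hs : 640 ≤ s) (hw : 0 ≤ w) :
    exp (10 * w / (s + 1)) * u lam (s + 1) ≤ exp (10 * w / s) + 1 := by
  have hs0 : 0 < s := by linarith
  have h1 : exp (10 * w / (s + 1)) * u lam (s + 1) ≤ exp (10 * w / (s+1) + 20 * lam / (s+1)) := by
    rw [exp_add]
    exact mul_le_mul_of_nonneg_left (u_le hl (by linarith)) (exp_pos _).le
  refine h1.trans ?_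
  by_cases h : 2 * lam * s ≤ w
  · have : 10 * w / (s+1) + 20 * lam / (s+1) ≤ 10 * w / s := by
      rw [← add_div, div_le_div_iff₀ (by linarith) hs0]; nlinarith
    linarith [exp_le_exp.2 this]
  · push Not at h
    have : 10 * w / (s+1) + 20 * lam / (s+1) ≤ 1/2 := by
      rw [← add_div, div_le_iff₀ (by linarith)]; nlinarith
    have h2 := exp_small this
    have h3 : 1 ≤ exp (10 * w / s) := one_le_exp (by positivity)
    linarith

noncomputable def H (k s : ℝ) (w : ℕ) : ℝ := k * w + s / (w + 1) + exp (10 * w / s)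

noncomputable def dl (s : ℝ) (w : ℕ) : ℝ := if w = 0 then s / 2 else 0

/-- upper bound for the mean of `H` after arrivals -/
noncomputable def Hb (lam k s : ℝ) (w : ℕ) : ℝ :=
  k * w + 1 + s / (w + 1) - (1 - exp (-lam)) * dl s w + exp (10 * w / s) * u lam s

lemma Hb_le {lam k s : ℝ} (hl : 0 ≤ lam) (hs : 0 ≤ s) (w : ℕ) :
    Hb lam k s w ≤ k * w + 1 + s / (w + 1) + exp (10 * w / s) * u lam s := by
  unfold Hb
  have h1 : exp (-lam) ≤ 1 := exp_le_one_iff.2 (by linarith)
  have h2 : 0 ≤ dl s w := by unfold dl; split_ifs <;> positivity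
  nlinarith

lemma stepB {lam k s p : ℝ} (hl : 0 ≤ lam) (hl1 : lam ≤ 1/100) (hk : 0 ≤ k) (hs : 640 ≤ s)
    (hp1 : 4 / s ≤ p) (hp2 : p ≤ 5 / s) (w : ℕ) :
    q w p * (Hb lam k (4 * s) (w - 1) + 712) + (1 - q w p) * (Hb lam k (s + 1) w + 712) + 1 ≤
      H k s w + 24 + (if (w : ℝ) < 356 * s then 712 else 0) := by
  have hs0 : 0 < s := by linarith
  have hp0 : 0 ≤ p := le_trans (by positivity) hp1
  have hph : p ≤ 1/2 := hp2.trans (by rw [div_le_iff₀ hs0]; linarith)
  have hq0 := q_nonneg w hp0 hph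
  have hq1 := q_le_one w hp0 hph
  have hw0 : (0:ℝ) ≤ w := Nat.cast_nonneg w
  have hD := Dbound hl hl1 hs hw0
  have hf : Hb lam k (s + 1) w ≤ k * w + 1 + (s / (w + 1) + 1) + (exp (10 * w / s) + 1) := by
    refine (Hb_le hl (by linarith) w).trans ?_
    have : (s + 1) / (w + 1) ≤ s / (w + 1) + 1 := by
      rw [add_div]; gcongr; rw [div_le_one (by linarith)]; linarith
    linarith
  set E := exp (10 * w / s) with hE
  set R := exp (10 * w / (4 * s)) with hR
  have hR1 : 1 ≤ R := one_le_exp (by positivity)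
  have hER : E = R ^ 4 := by
    rw [hE, hR, ← exp_nat_mul]; congr 1; push_cast; field_simp
  rcases Nat.eq_zero_or_pos w with rfl | hw
  · have : q 0 p = 0 := by simp [q]
    rw [this, if_pos (by simp; positivity)]
    unfold H
    simp only [Nat.cast_zero] at *
    linarith
  have hw1 : (1:ℝ) ≤ w := by exact_mod_cast hw
  have hc : ((w - 1 : ℕ) : ℝ) = w - 1 := by rw [Nat.cast_sub hw]; simp
  have hg : Hb lam k (4 * s) (w - 1) ≤ k * w + 1 + 4 * s / w + 2 * R := by
    refine (Hb_le hl (by linarith) _).trans ?_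
    rw [hc]
    have h1 : exp (10 * (w - 1) / (4 * s)) ≤ R := by
      apply exp_le_exp.2; gcongr; linarith
    have h2 := u_le_two hl hl1 (s := 4 * s) (by linarith)
    have h3 : exp (10 * (w - 1) / (4 * s)) * u lam (4 * s) ≤ R * 2 :=
      mul_le_mul h1 h2 (u_pos _ _).le (by linarith)
    have h4 : (w:ℝ) - 1 + 1 = w := by ring
    rw [h4]; nlinarith
  have hq5 : q w p * (4 * s / w) ≤ 20 := by
    have h1 : q w p ≤ w * (5 / s) := (q_le w hp0 hph).trans (by gcongr)
    calc q w p * (4 * s / w) ≤ w * (5 / s) * (4 * s / w) := by gcongr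
      _ = 20 := by field_simp; ring
  have hsw : 0 ≤ s / (w + 1) := by positivity
  have hgain : (if (w : ℝ) < 356 * s then (0:ℝ) else 712) ≤ q w p * (E + 1 - 2 * R) := by
    split_ifs with h
    · apply mul_nonneg hq0
      rw [hER]; nlinarith [sq_nonneg (R - 1), sq_nonneg (R^2 - 1), sq_nonneg (R^2 - R)]
    · push Not at h
      have hy : 356 ≤ w / s := by rw [le_div_iff₀ hs0]; linarith
      have hR2 : 2 ≤ R := by
        have := add_one_le_exp (10 * w / (4 * s))
        have e : 10 * (w:ℝ) / (4 * s) = (5/2) * (w / s) := by field_simp; ring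
        rw [← hR, e] at this; linarith
      have hE2 : E / 2 ≤ E + 1 - 2 * R := by
        rw [hER]
        have : 8 ≤ R ^ 3 := by
          have := pow_le_pow_left₀ (by norm_num : (0:ℝ) ≤ 2) hR2 3
          linarith
        nlinarith
      have hl := q_lower w hp0 hph
      have h1 : exp (-(10 * w / s)) ≤ exp (-(2 * (w * p))) := by
        apply exp_le_exp.2
        have : (w:ℝ) * p ≤ w * (5 / s) := by gcongr
        have e : 10 * (w:ℝ) / s = 2 * (w * (5 / s)) := by field_simp; ring
        rw [e]; linarith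
      have h2 : 4 * (w / s) ≤ w * p := by
        have : (w:ℝ) * (4 / s) ≤ w * p := by gcongr
        have e : 4 * ((w:ℝ) / s) = w * (4 / s) := by ring
        linarith
      have h3 : exp (-(10 * w / s)) * E = 1 := by rw [hE, ← exp_add]; simp
      have hE0 : 0 < E := exp_pos _
      have h4 : 4 * (w / s) * exp (-(10 * w / s)) ≤ q w p :=
        le_trans (mul_le_mul h2 h1 (exp_pos _).le (by positivity)) hl
      calc (712:ℝ) ≤ 2 * (w / s) := by linarith
        _ = 4 * (w / s) * exp (-(10 * w / s)) * (E / 2) := by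
            linear_combination (-2 * (w / s)) * h3
        _ ≤ q w p * (E / 2) := by gcongr
        _ ≤ _ := by gcongr
  have a1 := mul_le_mul_of_nonneg_left hg hq0
  have a2 := mul_le_mul_of_nonneg_left hf (sub_nonneg.2 hq1)
  have a3 := mul_nonneg hq0 hsw
  unfold H
  rw [← hE]
  split_ifs at hgain ⊢ <;> nlinarith

lemma stepA {lam k s s' : ℝ} (hl : 0 < lam) (hl1 : lam ≤ 1/100) (hk : 712 * exp 455680 ≤ k)
    (hs : 640 ≤ s) (hs0' : 640 ≤ s') (hs1 : s / 4 ≤ s') (hs2 : s' ≤ s / 4 + 640) (w : ℕ) :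
    q w (320 / s) * (Hb lam k s' (w - 1) + 24 + 712) +
      (1 - q w (320 / s)) * (Hb lam k (s + 1) w + 24 +
        (if (w : ℝ) < 356 * (s + 1) then 712 else 0)) + 1 ≤
      H k s w + 712 + (if (w : ℝ) ≤ s ∧ s ≤ 204800 + 100 / (1 - exp (-lam)) then 400 else 0) := by
  have hs0 : 0 < s := by linarith
  set p := 320 / s with hp
  have hp0 : 0 ≤ p := by positivity
  have hph : p ≤ 1/2 := by rw [hp, div_le_iff₀ hs0]; linarith
  have hq0 := q_nonneg w hp0 hph
  have hq1 := q_le_one w hp0 hph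
  have hw0 : (0:ℝ) ≤ w := Nat.cast_nonneg w
  have hk0 : 0 ≤ k := le_trans (by positivity) hk
  have hD := Dbound hl.le hl1 hs hw0
  have ha : 0 < 1 - exp (-lam) := by
    have : exp (-lam) < 1 := exp_lt_one_iff.2 (by linarith)
    linarith
  have hsd : (s + 1) / (w + 1) ≤ s / (w + 1) + 1 := by
    rw [add_div]; gcongr; rw [div_le_one (by linarith)]; linarith
  have hf : Hb lam k (s + 1) w ≤ k * w + 1 + (s / (w + 1) + 1) + (exp (10 * w / s) + 1) := by
    refine (Hb_le hl.le (by linarith) w).trans ?_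
    linarith
  set E := exp (10 * w / s) with hE
  rcases Nat.eq_zero_or_pos w with rfl | hw
  · have : q 0 p = 0 := by simp [q]
    rw [this, if_pos (by simp; positivity)]
    unfold H
    split_ifs with h
    · simp only [Nat.cast_zero] at *
      linarith
    · have h1 : 204800 + 100 / (1 - exp (-lam)) < s := by
        by_contra h2
        exact h ⟨by simp; positivity, not_lt.1 h2⟩
      have h2 : 100 < (1 - exp (-lam)) * s := by
        have : 100 / (1 - exp (-lam)) < s := by linarith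
        rw [div_lt_iff₀ ha] at this; linarith
      unfold Hb dl
      simp only [Nat.cast_zero, if_true] at *
      nlinarith
  have hw1 : (1:ℝ) ≤ w := by exact_mod_cast hw
  have hc : ((w - 1 : ℕ) : ℝ) = w - 1 := by rw [Nat.cast_sub hw]; simp
  set z := (w:ℝ) * p with hz
  have hz0 : 0 ≤ z := by positivity
  have hzs : z = 320 * (w / s) := by rw [hz, hp]; ring
  have hg : Hb lam k s' (w - 1) ≤ k * w - k + 1 + s' / w + 2 * exp (z / 2) := by
    refine (Hb_le hl.le (by linarith) _).trans ?_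
    rw [hc]
    have h1 : exp (10 * (w - 1) / s') ≤ exp (z / 2) := by
      apply exp_le_exp.2
      calc 10 * ((w:ℝ) - 1) / s' ≤ 10 * w / (s / 4) := by gcongr; linarith
        _ = 40 * (w / s) := by field_simp; ring
        _ ≤ z / 2 := by rw [hzs]; have : 0 ≤ (w:ℝ) / s := by positivity
                        linarith
    have h2 := u_le_two hl.le hl1 hs0'
    have h3 : exp (10 * (w - 1) / s') * u lam s' ≤ exp (z / 2) * 2 :=
      mul_le_mul h1 h2 (u_pos _ _).le (exp_pos _).le
    have h4 : (w:ℝ) - 1 + 1 = w := by ring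
    rw [h4]; nlinarith
  have hqu := q_upper w hp0 hph
  rw [← hz] at hqu
  have hB2 : q w p * (2 * exp (z / 2)) ≤ 4 := by
    have h1 := xexp_le (z / 2)
    have h2 : exp (-z) * exp (z / 2) = exp (-(z / 2)) := by rw [← exp_add]; ring_nf
    calc q w p * (2 * exp (z / 2)) ≤ 2 * z * exp (-z) * (2 * exp (z / 2)) := by gcongr
      _ = 4 * (2 * (z / 2) * (exp (-z) * exp (z / 2))) := by ring
      _ ≤ 4 := by rw [h2]; linarith
  set t := (1 - p) ^ (w - 1) with ht
  have ht0 : 0 ≤ t := by have : 0 ≤ 1 - p := by linarith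
                         positivity
  have ht1 : t ≤ 1 := pow_le_one₀ (by linarith) (by linarith)
  have hqt : q w p * (s / w) = 320 * t := by
    unfold q; rw [← ht, hp]; field_simp
  have hh1 : q w p * (s' / w) - q w p * (s / (w + 1)) ≤ 204800 / s - 80 * t := by
    have h1 : s' / w ≤ (s / w) / 4 + 640 / w := by
      rw [div_right_comm, ← add_div]; gcongr
    have h2 : (s / w) / 2 ≤ s / (w + 1) := by
      rw [div_div]; gcongr; linarith
    have h3 : q w p * (640 / w) ≤ 204800 / s := by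
      calc q w p * (640 / w) ≤ w * p * (640 / w) := by gcongr; exact q_le w hp0 hph
        _ = _ := by rw [hp]; field_simp; ring
    have a1 := mul_le_mul_of_nonneg_left h1 hq0
    have a2 := mul_le_mul_of_nonneg_left h2 hq0
    nlinarith
  have h320 : 204800 / s ≤ 320 := by rw [div_le_iff₀ hs0]; linarith
  have hE1 : 1 ≤ E := one_le_exp (by positivity)
  have a1 := mul_le_mul_of_nonneg_left hg hq0
  have a2 := mul_le_mul_of_nonneg_left hf (sub_nonneg.2 hq1)
  have a3 := mul_nonneg hq0 hk0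
  have a4 := mul_nonneg hq0 (by linarith : 0 ≤ E + 2)
  -- master bound
  have master : ∀ g : ℝ, q w p * (Hb lam k s' (w - 1) + 24 + 712) +
      (1 - q w p) * (Hb lam k (s + 1) w + 24 + g) + 1 ≤
      H k s w + 712 + (32 + 204800 / s - 80 * t - q w p * k - (1 - q w p) * (712 - g)) := by
    intro g
    unfold H
    rw [← hE]
    nlinarith
  refine (master _).trans ?_
  have hg0 : 0 ≤ (1 - q w p) * (712 - (if (w : ℝ) < 356 * (s + 1) then 712 else 0)) := by
    apply mul_nonneg (by linarith); split_ifs <;> norm_num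
  have hb0 : (0:ℝ) ≤ (if (w : ℝ) ≤ s ∧ s ≤ 204800 + 100 / (1 - exp (-lam)) then 400 else 0) := by
    split_ifs <;> norm_num
  by_cases hz1 : z ≤ 1/2
  · have hws : (w:ℝ) ≤ s := by
      rw [hzs] at hz1
      have : (w:ℝ) / s ≤ 1 := by linarith
      rwa [div_le_one hs0] at this
    split_ifs with h1 h2 h2 <;> simp only [h1, if_true, if_false] at hg0
    · nlinarith
    · have h3 : 204800 < s := by
        by_contra h4
        exact h2 ⟨hws, by have : 0 < 100 / (1 - exp (-lam)) := by positivity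
                          linarith⟩
      have h4 : 204800 / s ≤ 1 := by rw [div_le_one hs0]; linarith
      have h5 := bern w hp0 hph
      rw [← ht, ← hz] at h5
      nlinarith
    · nlinarith
    · have h3 : 204800 < s := by
        by_contra h4
        exact h2 ⟨hws, by have : 0 < 100 / (1 - exp (-lam)) := by positivity
                          linarith⟩
      have h4 : 204800 / s ≤ 1 := by rw [div_le_one hs0]; linarith
      have h5 := bern w hp0 hph
      rw [← ht, ← hz] at h5
      nlinarith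
  push Not at hz1
  by_cases hy : (w:ℝ) ≤ 712 * s
  · have h1 := q_lower w hp0 hph
    rw [← hz] at h1
    have h2 : z ≤ 227840 := by
      rw [hzs]
      have : (w:ℝ) / s ≤ 712 := by rw [div_le_iff₀ hs0]; linarith
      linarith
    have h3 : exp (-455680) ≤ exp (-(2 * z)) := exp_le_exp.2 (by linarith)
    have h4 : 1/2 * exp (-455680) ≤ q w p :=
      le_trans (mul_le_mul hz1.le h3 (exp_pos _).le hz0) h1
    have h5 : exp (-455680) * exp 455680 = 1 := by rw [← exp_add]; simp
    have h6 : 356 ≤ q w p * k := by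
      calc (356:ℝ) = (1/2 * exp (-455680)) * (712 * exp 455680) := by
            linear_combination (-356) * h5
        _ ≤ _ := mul_le_mul h4 hk (by positivity) hq0
    linarith
  · push Not at hy
    have h1 : ¬ ((w:ℝ) < 356 * (s + 1)) := by push Not; linarith
    rw [if_neg h1] at hg0 ⊢
    have h2 : 8 ≤ z := by
      rw [hzs]
      have : 712 ≤ (w:ℝ) / s := by rw [le_div_iff₀ hs0]; linarith
      linarith
    have h3 : q w p ≤ 1/2 := by
      refine hqu.trans ?_
      have h4 := quadratic_le_exp_of_nonneg hz0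
      have h5 : exp z * exp (-z) = 1 := by rw [← exp_add]; simp
      have h6 := exp_pos (-z)
      have h7 : 4 * z ≤ exp z := by nlinarith
      nlinarith
    nlinarith

end Pool.Agent.H3.Aloha
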