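import Mathlib

set_option autoImplicit false
open scoped ENNReal Topology
open Filter

namespace Pool.Agent.H3.Foster

theorem foster_kernel {X : Type*} [DecidableEq X] (P : X → X → ℝ≥0∞) (hP : ∀ x, ∑' y, P x y = 1)
    (V : X → ℝ≥0∞) (F : Finset X) (b : ℝ≥0∞) (hb : b ≠ ⊤)
    (hd : ∀ x, ∑' y, P x y * V y + 1 ≤ V x + if x ∈ F then b else 0) (x0 : X) (hV : V x0 ≠ ⊤) :
    ∃ ν : X → ℝ≥0∞, ∑' x, ν x = 1 ∧ ∀ y, ν y = ∑' x, ν x * P x y := by
  classical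
  let μ : ℕ → X → ℝ≥0∞ := fun n => Nat.rec (fun y => if y = x0 then 1 else 0)
    (fun _ m y => ∑' x, m x * P x y) n
  have hμ0 : ∀ y, μ 0 y = if y = x0 then 1 else 0 := fun _ => rfl
  have hμs : ∀ n y, μ (n+1) y = ∑' x, μ n x * P x y := fun _ _ => rfl
  have hPle : ∀ x y, P x y ≤ 1 := fun x y => (hP x) ▸ ENNReal.le_tsum y
  have hmass : ∀ n, ∑' y, μ n y = 1 := by
    intro n
    induction n with
    | zero => simp [hμ0]
    | succ n ih =>
      simp_rw [hμs]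
      rw [ENNReal.tsum_comm]
      simp_rw [ENNReal.tsum_mul_left, hP, mul_one, ih]
  have hμle : ∀ n y, μ n y ≤ 1 := fun n y => (hmass n) ▸ ENNReal.le_tsum y
  have hstep : ∀ n, ∑' y, μ (n+1) y * V y + 1 ≤ ∑' x, μ n x * V x + b * ∑ x ∈ F, μ n x := by
    intro n
    have e1 : ∑' y, μ (n+1) y * V y = ∑' x, μ n x * ∑' y, P x y * V y := by
      simp_rw [hμs, ← ENNReal.tsum_mul_right, ← ENNReal.tsum_mul_left]
      rw [ENNReal.tsum_comm]
      simp_rw [mul_assoc]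
    have e2 : ∑' x, μ n x * (if x ∈ F then b else 0) = b * ∑ x ∈ F, μ n x := by
      rw [tsum_eq_sum (s := F) (fun x hx => by simp [hx]), Finset.mul_sum]
      exact Finset.sum_congr rfl (fun x hx => by simp [hx, mul_comm])
    calc ∑' y, μ (n+1) y * V y + 1 = ∑' x, μ n x * (∑' y, P x y * V y + 1) := by
          simp_rw [mul_add, ENNReal.tsum_add, mul_one, hmass, e1]
      _ ≤ ∑' x, μ n x * (V x + if x ∈ F then b else 0) :=
          ENNReal.tsum_le_tsum (fun x => mul_le_mul_right (hd x) _)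
      _ = _ := by simp_rw [mul_add, ENNReal.tsum_add, e2]
  let S : ℕ → X → ℝ≥0∞ := fun N x => ∑ n ∈ Finset.range N, μ n x
  have hcum : ∀ N : ℕ, ∑' y, μ N y * V y + N ≤ V x0 + b * ∑ x ∈ F, S N x := by
    intro N
    induction N with
    | zero =>
      have : ∑' y, μ 0 y * V y = V x0 := by
        rw [tsum_eq_single x0 (fun y hy => by simp [hμ0, hy])]; simp [hμ0]
      simp [this]
    | succ N ih =>
      have e : ∑ x ∈ F, S (N+1) x = ∑ x ∈ F, S N x + ∑ x ∈ F, μ N x := by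
        rw [← Finset.sum_add_distrib]
        exact Finset.sum_congr rfl (fun x _ => Finset.sum_range_succ _ _)
      calc ∑' y, μ (N+1) y * V y + ((N+1 : ℕ) : ℝ≥0∞) = (∑' y, μ (N+1) y * V y + 1) + N := by
            push_cast; ring
        _ ≤ (∑' x, μ N x * V x + b * ∑ x ∈ F, μ N x) + N := add_le_add_left (hstep N) _
        _ = (∑' x, μ N x * V x + N) + b * ∑ x ∈ F, μ N x := by ring
        _ ≤ (V x0 + b * ∑ x ∈ F, S N x) + b * ∑ x ∈ F, μ N x := by gcongr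
        _ = _ := by rw [e]; ring
  let m : ℕ → X → ℝ≥0∞ := fun N x => ((N+1 : ℕ) : ℝ≥0∞)⁻¹ * S (N+1) x
  let U : Ultrafilter ℕ := hyperfilter ℕ
  have hU : (U : Filter ℕ) ≤ atTop := by
    rw [← Nat.cofinite_eq_atTop]; exact hyperfilter_le_cofinite
  have hlim : ∀ x, ∃ a, Tendsto (fun N => m N x) U (𝓝 a) := by
    intro x
    obtain ⟨a, -, ha⟩ := isCompact_univ.ultrafilter_le_nhds (U.map (fun N => m N x)) (by simp)
    exact ⟨a, ha⟩
  choose ν hν using hlim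
  have hinv : Tendsto (fun N : ℕ => ((N+1 : ℕ) : ℝ≥0∞)⁻¹) U (𝓝 0) := by
    have := ENNReal.tendsto_inv_nat_nhds_zero.comp (tendsto_add_atTop_nat 1)
    exact this.mono_left hU
  have hne : ∀ N : ℕ, ((N+1 : ℕ) : ℝ≥0∞) ≠ 0 := fun N => by simp
  have hnt : ∀ N : ℕ, ((N+1 : ℕ) : ℝ≥0∞) ≠ ⊤ := fun N => ENNReal.natCast_ne_top _
  have hSm : ∀ N, ∑' x, S N x = N := by
    intro N
    show ∑' x, ∑ n ∈ Finset.range N, μ n x = N
    rw [Summable.tsum_finsetSum (fun _ _ => ENNReal.summable)]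
    simp [hmass]
  have h2 : ∑' x, ν x ≤ 1 := by
    rw [ENNReal.tsum_eq_iSup_sum]
    refine iSup_le (fun T => ?_)
    refine le_of_tendsto' (tendsto_finset_sum T (fun x _ => hν x)) (fun N => ?_)
    calc ∑ x ∈ T, m N x ≤ ∑' x, m N x := ENNReal.sum_le_tsum T
      _ = 1 := by
        show ∑' x, ((N+1 : ℕ) : ℝ≥0∞)⁻¹ * S (N+1) x = 1
        rw [ENNReal.tsum_mul_left, hSm, ENNReal.inv_mul_cancel (hne N) (hnt N)]
  have h1 : 1 ≤ b * ∑ x ∈ F, ν x := by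
    have t1 : Tendsto (fun N : ℕ => ((N+1 : ℕ) : ℝ≥0∞)⁻¹ * V x0 + b * ∑ x ∈ F, m N x) U
        (𝓝 (0 * V x0 + b * ∑ x ∈ F, ν x)) :=
      (ENNReal.Tendsto.mul_const hinv (Or.inr hV)).add
        (ENNReal.Tendsto.const_mul (tendsto_finset_sum F (fun x _ => hν x)) (Or.inr hb))
    rw [zero_mul, zero_add] at t1
    refine ge_of_tendsto' t1 (fun N => ?_)
    have := le_trans le_add_self (hcum (N+1))
    calc (1 : ℝ≥0∞) = ((N+1 : ℕ) : ℝ≥0∞)⁻¹ * ((N+1 : ℕ) : ℝ≥0∞) :=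
          (ENNReal.inv_mul_cancel (hne N) (hnt N)).symm
      _ ≤ ((N+1 : ℕ) : ℝ≥0∞)⁻¹ * (V x0 + b * ∑ x ∈ F, S (N+1) x) := by gcongr
      _ = _ := by
        show _ = _ + b * ∑ x ∈ F, ((N+1 : ℕ) : ℝ≥0∞)⁻¹ * S (N+1) x
        rw [← Finset.mul_sum]; ring
  have h3 : ∀ y, ∑' x, ν x * P x y ≤ ν y := by
    intro y
    rw [ENNReal.tsum_eq_iSup_sum]
    refine iSup_le (fun T => ?_)
    have t1 : Tendsto (fun N => ∑ x ∈ T, m N x * P x y) U (𝓝 (∑ x ∈ T, ν x * P x y)) :=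
      tendsto_finset_sum T (fun x _ => ENNReal.Tendsto.mul_const (hν x)
        (Or.inr (ne_top_of_le_ne_top ENNReal.one_ne_top (hPle x y))))
    have t2 : Tendsto (fun N : ℕ => m N y + ((N+1 : ℕ) : ℝ≥0∞)⁻¹) U (𝓝 (ν y + 0)) :=
      (hν y).add hinv
    rw [add_zero] at t2
    refine le_of_tendsto_of_tendsto' t1 t2 (fun N => ?_)
    have e : ∑' x, S (N+1) x * P x y = ∑ n ∈ Finset.range (N+1), μ (n+1) y := by
      show ∑' x, (∑ n ∈ Finset.range (N+1), μ n x) * P x y = _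
      simp_rw [Finset.sum_mul]
      rw [Summable.tsum_finsetSum (fun _ _ => ENNReal.summable)]
    have e' : ∑ n ∈ Finset.range (N+1), μ (n+1) y ≤ S (N+1) y + 1 := by
      calc ∑ n ∈ Finset.range (N+1), μ (n+1) y ≤ ∑ n ∈ Finset.range (N+1), μ (n+1) y + μ 0 y :=
            le_self_add
        _ = ∑ n ∈ Finset.range (N+2), μ n y := (Finset.sum_range_succ' (fun n => μ n y) (N+1)).symm
        _ = S (N+1) y + μ (N+1) y := Finset.sum_range_succ _ _
        _ ≤ _ := add_le_add_right (hμle (N+1) y) _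
    calc ∑ x ∈ T, m N x * P x y ≤ ∑' x, m N x * P x y := ENNReal.sum_le_tsum T
      _ = ((N+1 : ℕ) : ℝ≥0∞)⁻¹ * ∑' x, S (N+1) x * P x y := by
          rw [← ENNReal.tsum_mul_left]
          exact tsum_congr (fun x => mul_assoc _ _ _)
      _ ≤ ((N+1 : ℕ) : ℝ≥0∞)⁻¹ * (S (N+1) y + 1) := by rw [e]; gcongr
      _ = _ := by rw [mul_add, mul_one]
  have hZt : ∑' x, ν x ≠ ⊤ := ne_top_of_le_ne_top ENNReal.one_ne_top h2
  have hZ0 : ∑' x, ν x ≠ 0 := by
    intro h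
    have : ∑ x ∈ F, ν x = 0 := le_antisymm (h ▸ ENNReal.sum_le_tsum F) (zero_le)
    rw [this] at h1; simp at h1
  have hm : ∑' y, ∑' x, ν x * P x y = ∑' x, ν x := by
    rw [ENNReal.tsum_comm]
    simp_rw [ENNReal.tsum_mul_left, hP, mul_one]
  have h4 : ∀ y, ν y = ∑' x, ν x * P x y := by
    intro y
    by_contra hne'
    have hlt : ∑' x, ν x * P x y < ν y := lt_of_le_of_ne (h3 y) (Ne.symm hne')
    have := ENNReal.tsum_lt_tsum (f := fun y => ∑' x, ν x * P x y) (g := ν) (hm ▸ hZt) h3 hlt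
    rw [hm] at this
    exact lt_irrefl _ this
  refine ⟨fun x => (∑' x, ν x)⁻¹ * ν x, ?_, fun y => ?_⟩
  · rw [ENNReal.tsum_mul_left, ENNReal.inv_mul_cancel hZ0 hZt]
  · simp_rw [mul_assoc]
    rw [ENNReal.tsum_mul_left, ← h4 y]

theorem foster {X I : Type*} [DecidableEq X] (r : X → I → ℝ≥0∞) (T : X → I → X)
    (hr : ∀ x, ∑' i, r x i = 1)
    (V : X → ℝ≥0∞) (F : Finset X) (b : ℝ≥0∞) (hb : b ≠ ⊤)
    (hd : ∀ x, ∑' i, r x i * V (T x i) + 1 ≤ V x + if x ∈ F then b else 0) (x0 : X)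
    (hV : V x0 ≠ ⊤) :
    ∃ ν : X → ℝ≥0∞, ∑' x, ν x = 1 ∧
      ∀ y, ν y = ∑' x, ν x * ∑' i, if T x i = y then r x i else 0 := by
  have key : ∀ (W : X → ℝ≥0∞) x, ∑' y, (∑' i, if T x i = y then r x i else 0) * W y =
      ∑' i, r x i * W (T x i) := by
    intro W x
    simp_rw [← ENNReal.tsum_mul_right]
    rw [ENNReal.tsum_comm]
    refine tsum_congr (fun i => ?_)
    rw [tsum_eq_single (T x i) (fun y hy => by simp [Ne.symm hy])]
    simp
  refine foster_kernel (fun x y => ∑' i, if T x i = y then r x i else 0) (fun x => ?_) V F b hb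
    (fun x => by rw [key]; exact hd x) x0 hV
  have := key (fun _ => 1) x
  simpa [hr] using this

end Pool.Agent.H3.Foster
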