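import Pool.Agent.H3.AlohaA
import Pool.Agent.H3.Foster

set_option autoImplicit false
open Real
open scoped ENNReal

namespace Pool.Agent.H3.Aloha

noncomputable def pois (lam : ℝ) (n : ℕ) : ℝ := exp (-lam) * lam ^ n / (n.factorial : ℝ)

lemma pois_nonneg {lam : ℝ} (hl : 0 ≤ lam) (n : ℕ) : 0 ≤ pois lam n := by
  unfold pois; positivity

lemma pois_gf (lam x : ℝ) : HasSum (fun n => pois lam n * x ^ n) (exp (lam * (x - 1))) := by
  have h := (NormedSpace.expSeries_div_hasSum_exp (lam * x)).mul_left (exp (-lam))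
  rw [← Real.exp_eq_exp_ℝ, ← exp_add] at h
  have e : -lam + lam * x = lam * (x - 1) := by ring
  rw [e] at h
  have e2 : (fun n => pois lam n * x ^ n) =
      fun n : ℕ => exp (-lam) * ((lam * x) ^ n / (n.factorial : ℝ)) := by
    funext n; unfold pois; rw [mul_pow]; ring
  rw [e2]; exact h

lemma pois_one (lam : ℝ) : HasSum (pois lam) 1 := by
  simpa using pois_gf lam 1

lemma tsum_ofReal_le {f g : ℕ → ℝ} {L : ℝ} (h0 : ∀ n, 0 ≤ f n) (h : ∀ n, f n ≤ g n)
    (hg : HasSum g L) : ∑' n, ENNReal.ofReal (f n) ≤ ENNReal.ofReal L := by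
  rw [← hg.tsum_eq, ENNReal.ofReal_tsum_of_nonneg (fun n => (h0 n).trans (h n)) hg.summable]
  exact ENNReal.tsum_le_tsum (fun n => ENNReal.ofReal_le_ofReal (h n))

lemma H_nonneg {k s : ℝ} (hk : 0 ≤ k) (hs : 0 ≤ s) (w : ℕ) : 0 ≤ H k s w := by
  unfold H; positivity

lemma H_major {k s : ℝ} (hk : 0 ≤ k) (hs : 0 ≤ s) (w n : ℕ) :
    H k s (w + n) ≤ (k * w - k + s / (w + 1) - dl s w) * 1 ^ n + k * 2 ^ n + dl s w * 0 ^ n +
      exp (10 * w / s) * exp (10 / s) ^ n := by
  unfold H
  have h1 : ((w + n : ℕ) : ℝ) = w + n := by push_cast; ring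
  have h2 : exp (10 * (w + n) / s) = exp (10 * w / s) * exp (10 / s) ^ n := by
    rw [← exp_nat_mul, ← exp_add]; congr 1; ring
  have h3 : (n : ℝ) + 1 ≤ 2 ^ n := by exact_mod_cast Nat.lt_two_pow_self
  have h4 : s / (w + n + 1) ≤ s / (w + 1) - dl s w + dl s w * 0 ^ n := by
    rcases Nat.eq_zero_or_pos n with rfl | hn
    · simp
    have hn1 : (1:ℝ) ≤ n := by exact_mod_cast hn
    rw [zero_pow hn.ne', mul_zero, add_zero]
    unfold dl
    split_ifs with hw
    · subst hw
      have : s / ((0:ℕ) + n + 1) ≤ s / 2 := by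
        apply div_le_div_of_nonneg_left hs (by norm_num); simp; linarith
      simp only [Nat.cast_zero, zero_add, div_one] at *
      linarith
    · rw [sub_zero]; gcongr; linarith
  rw [h1, h2, one_pow]
  nlinarith

lemma arrive {lam k s c a : ℝ} (hl : 0 ≤ lam) (hl1 : lam ≤ 1/100) (hk : 0 ≤ k)
    (hkl : 2 * lam * k ≤ 1) (hs : 0 ≤ s) (ha : 0 ≤ a) (w : ℕ) (v : ℕ → ℝ) (hv0 : ∀ n, 0 ≤ v n)
    (hv : ∀ n, v n ≤ H k s (w + n) + c) :
    ∑' n, ENNReal.ofReal (a * pois lam n) * ENNReal.ofReal (v n) ≤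
      ENNReal.ofReal (a * (Hb lam k s w + c)) := by
  have hS := ((((((pois_gf lam 1).mul_left (k * w - k + s / (w + 1) - dl s w + c)).add
    ((pois_gf lam 2).mul_left k)).add ((pois_gf lam 0).mul_left (dl s w))).add
    ((pois_gf lam (exp (10 / s))).mul_left (exp (10 * w / s))))).mul_left a
  have e : ∀ n, ENNReal.ofReal (a * pois lam n) * ENNReal.ofReal (v n) =
      ENNReal.ofReal (a * pois lam n * v n) := fun n =>
    (ENNReal.ofReal_mul (mul_nonneg ha (pois_nonneg hl n))).symm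
  simp_rw [e]
  refine (tsum_ofReal_le (fun n => mul_nonneg (mul_nonneg ha (pois_nonneg hl n)) (hv0 n))
    (fun n => ?_) hS).trans (ENNReal.ofReal_le_ofReal ?_)
  · have h1 := (hv n).trans (add_le_add_left (H_major hk hs w n) c)
    have h2 := mul_le_mul_of_nonneg_left h1 (mul_nonneg ha (pois_nonneg hl n))
    refine h2.trans (le_of_eq ?_)
    simp only [one_pow]; ring
  · apply mul_le_mul_of_nonneg_left _ ha
    unfold Hb u
    have h1 : exp (lam * (2 - 1)) ≤ 1 + 2 * lam := by
      have := Real.abs_exp_sub_one_le (x := lam) (by rw [abs_of_nonneg hl]; linarith)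
      rw [abs_of_nonneg hl] at this
      have h2 := le_trans (le_abs_self _) this
      norm_num; linarith
    have h2 : lam * (0 - 1) = -lam := by ring
    rw [h2]
    simp only [sub_self, mul_zero, exp_zero]
    have h3 := mul_le_mul_of_nonneg_left h1 hk
    generalize rexp (lam * (2 - 1)) = Y at *
    generalize rexp (10 * ↑w / s) * rexp (lam * (rexp (10 / s) - 1)) = X at *
    generalize rexp (-lam) = Z at *
    generalize s / (w + 1) = U at *
    nlinarith

abbrev St := ℕ × Bool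

def nxt : St → Bool → St
  | (j, false), true => ((j + 640) / 4, true)
  | (j, false), false => (j + 1, true)
  | (j, true), true => (4 * j + 1920, false)
  | (j, true), false => (j + 1, false)

noncomputable def enc : St → ℝ
  | (j, false) => 320 / ((j : ℝ) + 640)
  | (j, true) => 640 / (128 * ((j : ℝ) + 640) + 1)

lemma enc_mem (σ : St) : 0 ≤ enc σ ∧ enc σ ≤ 1/2 := by
  obtain ⟨j, b⟩ := σ
  have : (0:ℝ) ≤ j := Nat.cast_nonneg j
  cases b
  · refine ⟨by unfold enc; positivity, ?_⟩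
    unfold enc; rw [div_le_iff₀ (by positivity)]; linarith
  · refine ⟨by unfold enc; positivity, ?_⟩
    unfold enc; rw [div_le_iff₀ (by positivity)]; linarith

lemma enc_inj : Function.Injective enc := by
  rintro ⟨i, a⟩ ⟨j, b⟩ h
  have hi : (0:ℝ) ≤ i := Nat.cast_nonneg i
  have hj : (0:ℝ) ≤ j := Nat.cast_nonneg j
  cases a <;> cases b <;> simp only [enc] at h <;>
    rw [div_eq_div_iff (by positivity) (by positivity)] at h
  · have : (i:ℝ) = j := by linarith
    simpa using this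
  · exfalso
    have : (128 * (j + 640) + 1 : ℝ) = 2 * (i + 640) := by linarith
    have h2 : 128 * (j + 640) + 1 = 2 * (i + 640) := by exact_mod_cast this
    omega
  · exfalso
    have : (128 * (i + 640) + 1 : ℝ) = 2 * (j + 640) := by linarith
    have h2 : 128 * (i + 640) + 1 = 2 * (j + 640) := by exact_mod_cast this
    omega
  · have : (i:ℝ) = j := by linarith
    simpa using this

noncomputable def V (k : ℝ) : ℕ × St → ℝ
  | (w, (j, false)) => H k (j + 640) w + 712
  | (w, (j, true)) => H k (j + 640) w + 24 + (if (w : ℝ) < 356 * (j + 640) then 712 else 0)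

lemma V_nonneg {k : ℝ} (hk : 0 ≤ k) (x : ℕ × St) : 0 ≤ V k x := by
  obtain ⟨w, j, b⟩ := x
  have := H_nonneg hk (s := j + 640) (by positivity) w
  cases b
  · simp only [V]; linarith
  · simp only [V]; split_ifs <;> linarith

noncomputable def r (lam : ℝ) (x : ℕ × St) (i : Bool × ℕ) : ℝ≥0∞ :=
  ENNReal.ofReal ((if i.1 then q x.1 (enc x.2) else 1 - q x.1 (enc x.2)) * pois lam i.2)

def T (x : ℕ × St) (i : Bool × ℕ) : ℕ × St :=
  (if i.1 then x.1 - 1 + i.2 else x.1 + i.2, nxt x.2 i.1)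

lemma r_sum {lam : ℝ} (hl : 0 ≤ lam) (x : ℕ × St) : ∑' i, r lam x i = 1 := by
  have h0 := q_nonneg x.1 (enc_mem x.2).1 (enc_mem x.2).2
  have h1 := q_le_one x.1 (enc_mem x.2).1 (enc_mem x.2).2
  have key : ∀ a : ℝ, 0 ≤ a → ∑' n, ENNReal.ofReal (a * pois lam n) = ENNReal.ofReal a := by
    intro a ha
    rw [← ENNReal.ofReal_tsum_of_nonneg (fun n => mul_nonneg ha (pois_nonneg hl n))
      ((pois_one lam).mul_left a).summable, ((pois_one lam).mul_left a).tsum_eq, mul_one]
  rw [ENNReal.tsum_prod', tsum_bool]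
  simp only [r, if_true, Bool.false_eq_true, if_false]
  rw [key _ h0, key _ (by linarith), ← ENNReal.ofReal_add (by linarith) h0]
  simp

lemma Vb_le {k : ℝ} (j w n : ℕ) : V k (w + n, (j, true)) ≤ H k (j + 640) (w + n) +
    (24 + if (w : ℝ) < 356 * (j + 640) then 712 else 0) := by
  simp only [V]
  have : (0:ℝ) ≤ n := Nat.cast_nonneg n
  split_ifs with h1 h2 h2
  · linarith
  · exfalso; push_cast at h1; linarith
  · linarith
  · linarith

lemma drift {lam k : ℝ} (hl : 0 < lam) (hl1 : lam ≤ 1/100) (hk : 712 * exp 455680 ≤ k)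
    (hkl : 2 * lam * k ≤ 1) (N : ℕ) (hN : 204800 + 100 / (1 - exp (-lam)) ≤ N) (x : ℕ × St) :
    ∑' i, r lam x i * ENNReal.ofReal (V k (T x i)) + 1 ≤ ENNReal.ofReal (V k x) +
      if x ∈ (Finset.range (N + 1)) ×ˢ ((Finset.range (N + 1)) ×ˢ (Finset.univ : Finset Bool))
        then 400 else 0 := by
  have hk0 : 0 ≤ k := le_trans (by positivity) hk
  have h0 := q_nonneg x.1 (enc_mem x.2).1 (enc_mem x.2).2
  have h1 := q_le_one x.1 (enc_mem x.2).1 (enc_mem x.2).2
  obtain ⟨w, j, b⟩ := x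
  have hj : (0:ℝ) ≤ j := Nat.cast_nonneg j
  rw [ENNReal.tsum_prod', tsum_bool]
  have fin : ∀ (A B C D : ℝ) (E : ℝ≥0∞), 0 ≤ C → 0 ≤ D → B + A + 1 ≤ C + D → ENNReal.ofReal D ≤ E →
      ∀ X Y : ℝ≥0∞, X ≤ ENNReal.ofReal A → Y ≤ ENNReal.ofReal B → 0 ≤ A → 0 ≤ B →
      X + Y + 1 ≤ ENNReal.ofReal C + E := by
    intro A B C D E hC hD h hE X Y hX hY hA hB
    calc X + Y + 1 ≤ ENNReal.ofReal A + ENNReal.ofReal B + ENNReal.ofReal 1 := by
          rw [ENNReal.ofReal_one]; gcongr
      _ = ENNReal.ofReal (A + B + 1) := by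
          rw [ENNReal.ofReal_add (by linarith) (by norm_num), ENNReal.ofReal_add hA hB]
      _ ≤ ENNReal.ofReal (C + D) := ENNReal.ofReal_le_ofReal (by linarith)
      _ ≤ _ := by rw [ENNReal.ofReal_add hC hD]; gcongr
  have Hb0 : ∀ (s : ℝ) (w : ℕ), 0 ≤ s → 0 ≤ Hb lam k s w := by
    intro s w hs
    unfold Hb dl
    have a1 := exp_pos (-lam)
    have a2 : 0 ≤ exp (10 * w / s) * u lam s := mul_nonneg (exp_pos _).le (u_pos _ _).le
    have a3 : 0 ≤ k * w := by positivity
    have a4 : 0 ≤ s / (w + 1) := by positivity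
    split_ifs with h
    · subst h
      simp only [Nat.cast_zero, zero_add, div_one] at *
      nlinarith
    · linarith
  cases b
  · have hA := arrive (a := q w (enc (j, false))) (s := (((j + 640) / 4 : ℕ) : ℝ) + 640)
      (c := 24 + 712) hl.le hl1 hk0 hkl (by positivity) h0 (w - 1)
      (fun n => V k (w - 1 + n, ((j + 640) / 4, true))) (fun n => V_nonneg hk0 _)
      (fun n => (Vb_le _ _ _).trans (by split_ifs <;> linarith))
    have hB := arrive (a := 1 - q w (enc (j, false))) (s := ((j + 1 : ℕ) : ℝ) + 640)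
      hl.le hl1 hk0 hkl (by positivity) (by linarith) w
      (fun n => V k (w + n, (j + 1, true))) (fun n => V_nonneg hk0 _)
      (fun n => Vb_le _ _ _)
    have e1 : ((j + 1 : ℕ) : ℝ) + 640 = (j + 640) + 1 := by push_cast; ring
    rw [e1] at hB
    have hd1 : (((j + 640) / 4 : ℕ) : ℝ) ≤ ((j:ℝ) + 640) / 4 := by
      have := Nat.cast_div_le (α := ℝ) (m := j + 640) (n := 4)
      push_cast at this ⊢; exact this
    have hd2 : ((j:ℝ) + 640) / 4 ≤ (((j + 640) / 4 : ℕ) : ℝ) + 640 := by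
      have : j + 640 ≤ 4 * ((j + 640) / 4) + 2560 := by omega
      have h2 : ((j + 640 : ℕ) : ℝ) ≤ ((4 * ((j + 640) / 4) + 2560 : ℕ) : ℝ) := by exact_mod_cast this
      rw [Nat.cast_add, Nat.cast_add, Nat.cast_mul] at h2
      simp only [Nat.cast_ofNat] at h2
      linarith
    have hs := stepA (s := j + 640) (s' := (((j + 640) / 4 : ℕ) : ℝ) + 640) hl hl1 hk (by linarith)
      (by have : (0:ℝ) ≤ (((j + 640) / 4 : ℕ) : ℝ) := Nat.cast_nonneg _
          linarith) hd2 (by linarith) w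
    refine fin _ _ _ (if (w : ℝ) ≤ j + 640 ∧ (j:ℝ) + 640 ≤ 204800 + 100 / (1 - exp (-lam))
      then 400 else 0) _ (V_nonneg hk0 _) (by split_ifs <;> norm_num) ?_ ?_ _ _ hB hA ?_ ?_
    · simp only [V, enc]
      linarith
    · split_ifs with h2 h3 h3
      · simp
      · exfalso
        apply h3
        have a1 : (w:ℝ) ≤ N := by linarith [h2.1, h2.2]
        have a2 : (j:ℝ) ≤ N := by linarith [h2.1, h2.2]
        have a3 : w ≤ N := by exact_mod_cast a1
        have a4 : j ≤ N := by exact_mod_cast a2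
        simp; omega
      · simp
      · simp
    · apply mul_nonneg (by linarith)
      have := Hb0 (j + 640 + 1) w (by positivity)
      split_ifs <;> linarith
    · apply mul_nonneg h0
      have := Hb0 ((((j + 640) / 4 : ℕ) : ℝ) + 640) (w - 1) (by positivity)
      linarith
  · have hA := arrive (a := q w (enc (j, true))) (s := ((4 * j + 1920 : ℕ) : ℝ) + 640)
      (c := 712) hl.le hl1 hk0 hkl (by positivity) h0 (w - 1)
      (fun n => V k (w - 1 + n, (4 * j + 1920, false))) (fun n => V_nonneg hk0 _)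
      (fun n => le_rfl)
    have hB := arrive (a := 1 - q w (enc (j, true))) (s := ((j + 1 : ℕ) : ℝ) + 640) (c := 712)
      hl.le hl1 hk0 hkl (by positivity) (by linarith) w
      (fun n => V k (w + n, (j + 1, false))) (fun n => V_nonneg hk0 _)
      (fun n => le_rfl)
    have e1 : ((j + 1 : ℕ) : ℝ) + 640 = (j + 640) + 1 := by push_cast; ring
    have e2 : ((4 * j + 1920 : ℕ) : ℝ) + 640 = 4 * (j + 640) := by push_cast; ring
    rw [e1] at hB
    rw [e2] at hA
    have hs := stepB (s := j + 640) (k := k) (p := enc (j, true)) hl.le hl1 hk0 (by linarith)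
      (by unfold enc; rw [div_le_div_iff₀ (by positivity) (by positivity)]; linarith)
      (by unfold enc; rw [div_le_div_iff₀ (by positivity) (by positivity)]; linarith) w
    refine fin _ _ _ 0 _ (V_nonneg hk0 _) le_rfl ?_ (by simp) _ _ hB hA ?_ ?_
    · simp only [V]
      linarith
    · apply mul_nonneg (by linarith)
      have := Hb0 (j + 640 + 1) w (by positivity)
      linarith
    · apply mul_nonneg h0
      have := Hb0 (4 * (j + 640)) (w - 1) (by positivity)
      linarith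

theorem exists_stat : ∃ lam : ℝ, 0 < lam ∧ ∃ ν : ℕ × St → ℝ≥0∞, ∑' x, ν x = 1 ∧
    ∀ y, ν y = ∑' x, ν x * ∑' i, if T x i = y then r lam x i else 0 := by
  set k : ℝ := 712 * exp 455680 with hk
  have hk1 : 712 ≤ k := by
    have : 1 ≤ exp (455680:ℝ) := one_le_exp (by norm_num)
    linarith
  have hl : 0 < 1 / (2 * k) := by positivity
  obtain ⟨N, hN⟩ := exists_nat_ge (204800 + 100 / (1 - exp (-(1 / (2 * k)))))
  refine ⟨1 / (2 * k), hl, Foster.foster (r _) T (r_sum hl.le) (fun x => ENNReal.ofReal (V k x))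
    _ 400 (by norm_num) (drift (k := k) hl ?_ hk.ge ?_ N hN) (0, 0, false) ENNReal.ofReal_ne_top⟩
  · rw [div_le_iff₀ (by positivity)]; linarith
  · have : k ≠ 0 := by positivity
    clear hk
    clear_value k
    apply le_of_eq; field_simp

end Pool.Agent.H3.Aloha
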