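import Mathlib

set_option autoImplicit false

namespace Pool.Agent.H3.EllP

variable {G : Type} [Group G] [Lattice G] [MulLeftMono G] [MulRightMono G]

lemma inf_mul_le {u v w : G} (hu : 1 ≤ u) (hv : 1 ≤ v) (hw : 1 ≤ w) :
    (u * v) ⊓ w ≤ (u ⊓ w) * (v ⊓ w) := by
  rw [mul_inf, inf_mul, inf_mul]
  refine le_inf (le_inf inf_le_left (inf_le_right.trans ?_))
    (le_inf (inf_le_right.trans ?_) (inf_le_right.trans ?_))
  exacts [le_mul_of_one_le_right' hv, le_mul_of_one_le_left' hu, le_mul_of_one_le_left' hw]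
lemma sup_le_mul (u v : G) : u ⊔ v ⊔ 1 ≤ (u ⊔ 1) * (v ⊔ 1) :=
  sup_le (sup_le (le_sup_left.trans (le_mul_of_one_le_right' le_sup_right))
    (le_sup_left.trans (le_mul_of_one_le_left' le_sup_right))) (one_le_mul le_sup_right le_sup_right)

/-- A prime left-invariant total preorder separating `p` from `1`. -/
lemma exists_prime {p : G} (hp : 1 < p) : ∃ R : G → G → Prop, (∀ x y, R x y ∨ R y x) ∧
    (∀ x y z, R x y → R y z → R x z) ∧ (∀ h x y, R (h * x) (h * y) ↔ R x y) ∧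
    (∀ x y, x ≤ y → R x y) ∧ (∀ u v x, R u x → R v x → R (u ⊔ v) x) ∧
    (∀ u v x, R x u → R x v → R x (u ⊓ v)) ∧ ¬ R p 1 := by
  let S : Set (Set G) := {I | (∀ x ∈ I, 1 ≤ x) ∧ (∀ x ∈ I, ∀ y ∈ I, x * y ∈ I) ∧
    (∀ x ∈ I, ∀ y, 1 ≤ y → y ≤ x → y ∈ I) ∧ p ∉ I}
  obtain ⟨I, h1, hI⟩ := zorn_subset_nonempty S (fun c hc hch _ => by
    refine ⟨⋃₀ c, ⟨fun x ⟨A, hA, hx⟩ => (hc hA).1 x hx, ?_,
      fun x ⟨A, hA, hx⟩ y h1 h2 => ⟨A, hA, (hc hA).2.2.1 x hx y h1 h2⟩,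
      fun ⟨A, hA, hx⟩ => (hc hA).2.2.2 hx⟩, fun A hA => Set.subset_sUnion_of_mem hA⟩
    rintro x ⟨A, hA, hx⟩ y ⟨B, hB, hy⟩
    rcases hch.total hA hB with h | h
    · exact ⟨B, hB, (hc hB).2.1 x (h hx) y hy⟩
    · exact ⟨A, hA, (hc hA).2.1 x hx y (h hy)⟩) {1}
    ⟨fun x hx => hx.ge, fun x hx y hy => by simp_all,
      fun x hx y a b => le_antisymm (hx ▸ b) a, hp.ne'⟩
  obtain ⟨i1, i2, i3, i4⟩ := hI.prop
  have key : ∀ b, 1 ≤ b → p ⊓ b ∉ I → ∀ z, 1 ≤ z → z ⊓ b ∈ I → z ∈ I := by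
    intro b hb hpb z hz hzb
    refine hI.le_of_ge (y := {z | 1 ≤ z ∧ z ⊓ b ∈ I}) ⟨fun x hx => hx.1, fun x hx y hy =>
      ⟨one_le_mul hx.1 hy.1, i3 _ (i2 _ hx.2 _ hy.2) _ (le_inf (one_le_mul hx.1 hy.1) hb)
        (inf_mul_le hx.1 hy.1 hb)⟩, fun x hx y a c =>
      ⟨a, i3 _ hx.2 _ (le_inf a hb) (inf_le_inf_right _ c)⟩, fun h => hpb h.2⟩
      (fun x hx => ⟨i1 x hx, i3 _ hx _ (le_inf (i1 x hx) hb) inf_le_left⟩) ⟨hz, hzb⟩
  have one : (1 : G) ∈ I := h1 rfl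
  refine ⟨fun x y => y⁻¹ * x ⊔ 1 ∈ I, fun x y => ?_, fun x y z a b => ?_, fun h x y => ?_,
    fun x y h => ?_, fun u v x a b => ?_, fun u v x a b => ?_, by simpa [hp.le] using i4⟩
  · by_contra hc
    push Not at hc
    have e : (y⁻¹ * x ⊔ 1) ⊓ (x⁻¹ * y ⊔ 1) = 1 := by
      simpa [oneLePart, leOnePart] using oneLePart_inf_leOnePart_eq_one (y⁻¹ * x)
    by_cases h : p ⊓ (x⁻¹ * y ⊔ 1) ∈ I
    · exact hc.2 (key p hp.le (by simpa using i4) _ le_sup_right (inf_comm p _ ▸ h))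
    · exact hc.1 (key _ le_sup_right h _ le_sup_right (by rw [e]; exact one))
  · refine i3 _ (i2 _ b _ a) _ le_sup_right (sup_le ?_ (one_le_mul le_sup_right le_sup_right))
    calc z⁻¹ * x = (z⁻¹ * y) * (y⁻¹ * x) := by group
      _ ≤ _ := mul_le_mul' le_sup_left le_sup_left
  · beta_reduce
    rw [show (h * y)⁻¹ * (h * x) = y⁻¹ * x by group]
  · beta_reduce
    rwa [sup_eq_right.2 (by simpa using h)]
  · exact i3 _ (i2 _ a _ b) _ le_sup_right (by rw [mul_sup]; exact sup_le_mul _ _)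
  · exact i3 _ (i2 _ a _ b) _ le_sup_right (by rw [inv_inf, sup_mul]; exact sup_le_mul _ _)

lemma ivt {α : Type} {Q : α → α → Prop} (tot : ∀ x y, Q x y ∨ Q y x)
    (tr : ∀ x y z, Q x y → Q y z → Q x z) (u : ℕ → α) {p q : ℕ} (h : p < q)
    (k : Q (u q) (u p)) : ∃ t, p ≤ t ∧ t < q ∧ Q (u (t + 1)) (u t) ∧
      (¬ Q (u p) (u q) → ¬ Q (u t) (u (t + 1))) := by
  have ch : ∀ p, (∀ t, p ≤ t → t < q → Q (u t) (u (t + 1))) → ∀ r, p ≤ r → r ≤ q →
      Q (u p) (u r) := by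
    intro p hp r hr
    induction r, hr using Nat.le_induction with
    | base => exact fun _ => (tot _ _).elim id id
    | succ r hr ih => exact fun e => tr _ _ _ (ih (by omega)) (hp r hr (by omega))
  by_cases e : ∀ t, p ≤ t → t < q → Q (u t) (u (t + 1))
  · exact ⟨p, le_rfl, h, tr _ _ _ (ch (p + 1) (fun t a b => e t (by omega) b) q h le_rfl) k,
      fun n => absurd (ch p e q h.le le_rfl) n⟩
  · push Not at e
    obtain ⟨t, a, b, c⟩ := e
    exact ⟨t, a, b, (tot _ _).resolve_left c, fun _ => c⟩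

/-- Discrete Rolle argument in a left-preordered group. -/
lemma rolle {G : Type} [Group G] {R : G → G → Prop} (tot : ∀ x y, R x y ∨ R y x)
    (tr : ∀ x y z, R x y → R y z → R x z) (li : ∀ h x y, R (h * x) (h * y) ↔ R x y)
    (y c : G) (h1 : ∀ k : ℕ, R 1 ((y ^ k)⁻¹ * c * y ^ k))
    (h2 : ∀ k : ℕ, R ((y ^ k)⁻¹ * c * y ^ k) 1 ∨ R ((y ^ (k + 1))⁻¹ * c * y ^ (k + 1)) 1)
    (h3 : ¬ R c 1) (n : ℕ) : (fun z : G => z⁻¹ * y⁻¹ * z * y)^[n] c ≠ 1 := by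
  let s : G → ℕ → G := fun z k => (y ^ k)⁻¹ * z * y ^ k
  let Q : ℕ → G → G → Prop := fun n a b => if Even n then R a b else R b a
  have Qs : ∀ n a b, Q (n + 1) a b ↔ Q n b a := fun n a b => by
    simp only [Q, Nat.even_add_one]; split_ifs <;> simp_all
  have Qt : ∀ n x y, Q n x y ∨ Q n y x := fun n x y => by
    simp only [Q]; split_ifs <;> exact tot _ _
  have Qr : ∀ n x y z, Q n x y → Q n y z → Q n x z := fun n x y z => by
    simp only [Q]; split_ifs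
    exacts [tr _ _ _, fun a b => tr _ _ _ b a]
  have Ql : ∀ n x y, Q n 1 (x⁻¹ * y) ↔ Q n x y := fun n x y => by
    simp only [Q]; split_ifs <;> rw [← li x] <;> simp
  have Ql' : ∀ n x y, Q n (x⁻¹ * y) 1 ↔ Q n y x := fun n x y => by rw [← Qs, Ql, Qs]
  have key : ∀ n, ∃ e, ∃ i : ℕ → ℕ, (∀ j, i j < i (j + 1)) ∧
      (∀ j, Q (j + e) 1 (s ((fun z : G => z⁻¹ * y⁻¹ * z * y)^[n] c) (i j))) ∧
      ¬ Q e (s ((fun z : G => z⁻¹ * y⁻¹ * z * y)^[n] c) (i 0)) 1 := by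
    intro n
    induction n with
    | zero =>
      have : ∀ k, ∃ t, k ≤ t ∧ t ≤ k + 1 ∧ R (s c t) 1 := fun k =>
        (h2 k).elim (fun h => ⟨k, le_rfl, by omega, h⟩) fun h => ⟨k + 1, by omega, le_rfl, h⟩
      choose t t1 t2 t3 using this
      refine ⟨0, fun j => if Even j then 2 * j else t (2 * j), fun j => ?_, fun j => ?_, ?_⟩
      · have := t1 (2 * (j + 1)); have := t2 (2 * j)
        beta_reduce
        split_ifs <;> omega
      · simp only [Q, add_zero]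
        split_ifs
        exacts [h1 _, t3 _]
      · simpa [Q, s] using h3
    | succ n ih =>
      obtain ⟨e, i, a, b, d⟩ := ih
      rw [Function.iterate_succ_apply']
      generalize (fun z : G => z⁻¹ * y⁻¹ * z * y)^[n] c = z at *
      have es : ∀ k, s (z⁻¹ * y⁻¹ * z * y) k = (s z k)⁻¹ * s z (k + 1) := fun k => by
        simp only [s, pow_succ']; group
      choose t t1 t2 t3 t4 using fun j => ivt (Qt (j + e)) (Qr (j + e)) (s z) (a j)
        (Qr _ _ _ _ ((Qs _ _ _).1 (by simpa [add_right_comm] using b (j + 1))) (b j))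
      refine ⟨e + 1, t, fun j => (t2 j).trans_le (t1 _), fun j => ?_, ?_⟩
      · rw [es, Ql, ← add_assoc, Qs]; exact t3 j
      · rw [es, Ql', Qs]
        have := t4 0
        rw [zero_add] at this
        exact this fun k => d (Qr _ _ _ _ k ((Qs _ _ _).1 (by simpa [add_comm] using b 1)))
  intro h
  obtain ⟨e, i, -, -, d⟩ := key n
  rw [h] at d
  exact d (by simpa [s] using Qt e 1 1)

end Pool.Agent.H3.EllP
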