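import Mathlib

set_option autoImplicit false

namespace Pool.Agent.H3.Lat

/-- order automorphisms of the rationals -/
abbrev A := ℚ ≃o ℚ

lemma ap (f g : A) (x : ℚ) : (f * g) x = f (g x) := rfl
lemma inv_ap (f : A) (x : ℚ) : f⁻¹ (f x) = x := f.symm_apply_apply x
lemma ap_inv (f : A) (x : ℚ) : f (f⁻¹ x) = x := f.apply_symm_apply x
lemma inv_eq {f : A} {x y : ℚ} (h : f x = y) : f⁻¹ y = x := by rw [← h, inv_ap]

lemma glue (f g : A) (a : ℚ) (h : f a = g a) :
    ∃ k : A, (∀ x, x ≤ a → k x = f x) ∧ ∀ x, a ≤ x → k x = g x := by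
  classical
  refine ⟨StrictMono.orderIsoOfSurjective (fun x => if x ≤ a then f x else g x) ?_ ?_, ?_, ?_⟩
  · intro x y hxy
    dsimp only
    split_ifs with h1 h2 h2
    · exact f.strictMono hxy
    · exact (f.monotone h1).trans_lt (h ▸ g.strictMono (not_le.1 h2))
    · exact absurd (hxy.le.trans h2) h1
    · exact g.strictMono hxy
  · intro y
    by_cases hy : y ≤ f a
    · exact ⟨f⁻¹ y, by
        have : f⁻¹ y ≤ a := by simpa [inv_ap] using f⁻¹.monotone hy
        simp [this, ap_inv]⟩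
    · exact ⟨g⁻¹ y, by
        have : ¬ g⁻¹ y ≤ a := fun e => hy (by simpa [ap_inv, h] using g.monotone e)
        simp [this, ap_inv]⟩
  · intro x hx; simp [hx]
  · intro x hx
    rcases hx.eq_or_lt with rfl | hx
    · simp [h]
    · simp [not_le.2 hx]

lemma aff {a b c d : ℚ} (h1 : a < b) (h2 : c < d) : ∃ f : A, f a = c ∧ f b = d := by
  have hk : 0 < (d - c) / (b - a) := div_pos (by linarith) (by linarith)
  let f : A := StrictMono.orderIsoOfSurjective (fun x => c + (d - c) / (b - a) * (x - a))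
    (fun x y h => by dsimp only; nlinarith)
    (fun y => ⟨a + (y - c) / ((d - c) / (b - a)), by
      dsimp only; rw [add_sub_cancel_left, mul_div_cancel₀ _ hk.ne']; ring⟩)
  have hf : ∀ x, f x = c + (d - c) / (b - a) * (x - a) := fun _ => rfl
  refine ⟨f, by simp [hf], ?_⟩
  have : b - a ≠ 0 := by linarith
  rw [hf]; field_simp; ring

lemma move0 (p q a c : ℚ) : ∃ g : A, p < a → a < q → p < c → c < q →
    (∀ x, x ≤ p ∨ q ≤ x → g x = x) ∧ g a = c := by
  by_cases h : p < a ∧ a < q ∧ p < c ∧ c < q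
  swap
  · exact ⟨1, fun h1 h2 h3 h4 => absurd ⟨h1, h2, h3, h4⟩ h⟩
  obtain ⟨h1, h2, h3, h4⟩ := h
  obtain ⟨f1, b1, c1⟩ := aff h1 h3
  obtain ⟨f2, b2, c2⟩ := aff h2 h4
  obtain ⟨k1, e1, g1⟩ := glue f2 1 q c2
  obtain ⟨k2, e2, g2⟩ := glue f1 k1 a (by rw [c1, e1 a h2.le, b2])
  obtain ⟨k3, e3, g3⟩ := glue 1 k2 p (by rw [e2 p h1.le, b1]; rfl)
  refine ⟨k3, fun _ _ _ _ => ⟨?_, by rw [g3 a h1.le, e2 a le_rfl, c1]⟩⟩
  rintro x (hx | hx)
  · exact e3 x hx
  · rw [g3 x (by linarith), g2 x (by linarith), g1 x hx]; rfl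

/-- pointwise maximum -/
noncomputable def mx (f g : A) : A :=
  StrictMono.orderIsoOfSurjective (fun x => max (f x) (g x))
    (fun _ _ h => max_lt_max (f.strictMono h) (g.strictMono h))
    (fun y => ⟨min (f⁻¹ y) (g⁻¹ y), by
      dsimp only
      rcases le_total (f⁻¹ y) (g⁻¹ y) with h | h
      · rw [min_eq_left h, ap_inv, max_eq_left (by simpa [ap_inv] using g.monotone h)]
      · rw [min_eq_right h, ap_inv, max_eq_right (by simpa [ap_inv] using f.monotone h)]⟩)

lemma mx_ap (f g : A) (x : ℚ) : mx f g x = max (f x) (g x) := rfl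

lemma mn_ap (f g : A) (x : ℚ) : (mx f⁻¹ g⁻¹)⁻¹ x = min (f x) (g x) := inv_eq (by
  rw [mx_ap]
  rcases le_total (f x) (g x) with h | h
  · rw [min_eq_left h, inv_ap, max_eq_left (by simpa [inv_ap] using g⁻¹.monotone h)]
  · rw [min_eq_right h, inv_ap, max_eq_right (by simpa [inv_ap] using f⁻¹.monotone h)])

/-- reflected inverse -/
def io (f : A) : A := ⟨⟨fun x => -f⁻¹ (-x), fun x => -f (-x), fun x => by simp [ap_inv],
  fun x => by simp [inv_ap]⟩, by intro a b; simp⟩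

lemma io_ap (f : A) (x : ℚ) : io f x = -f⁻¹ (-x) := rfl
lemma io_io (f : A) : io (io f) = f := by
  ext x
  rw [io_ap, inv_eq (f := io f) (x := -f x) (y := -x) (by rw [io_ap, neg_neg, inv_ap]), neg_neg]

/-- codes -/
inductive Tm : Type
  | base : ℚ → ℚ → ℚ → ℚ → Tm
  | one : Tm
  | mul : Tm → Tm → Tm
  | inv : Tm → Tm
  | sup : Tm → Tm → Tm
  | io : Tm → Tm
  deriving Countable

/-- evaluation of codes -/
noncomputable def ev : Tm → A
  | .base p q a c => (move0 p q a c).choose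
  | .one => 1
  | .mul s t => ev s * ev t
  | .inv s => (ev s)⁻¹
  | .sup s t => mx (ev s) (ev t)
  | .io s => io (ev s)

/-- the countable group -/
def H : Subgroup A where
  carrier := Set.range ev
  one_mem' := ⟨.one, rfl⟩
  mul_mem' := by rintro _ _ ⟨s, rfl⟩ ⟨t, rfl⟩; exact ⟨.mul s t, rfl⟩
  inv_mem' := by rintro _ ⟨s, rfl⟩; exact ⟨.inv s, rfl⟩

lemma H.mx {f g : A} (hf : f ∈ H) (hg : g ∈ H) : mx f g ∈ H := by
  obtain ⟨s, rfl⟩ := hf; obtain ⟨t, rfl⟩ := hg; exact ⟨.sup s t, rfl⟩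
lemma H.io {f : A} (hf : f ∈ H) : io f ∈ H := by
  obtain ⟨s, rfl⟩ := hf; exact ⟨.io s, rfl⟩

/-- the group as a type -/
def HH : Type := H

noncomputable instance : Group HH := inferInstanceAs (Group H)
instance : Countable HH := (Set.countable_range ev).to_subtype

/-- underlying automorphism -/
def HH.v (f : HH) : A := (f : H).1

noncomputable instance : Lattice HH where
  le f g := ∀ x, f.v x ≤ g.v x
  le_refl _ _ := le_rfl
  le_trans _ _ _ h k x := (h x).trans (k x)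
  le_antisymm f g h k := Subtype.ext (by ext x; exact le_antisymm (h x) (k x))
  sup f g := ⟨mx f.v g.v, H.mx f.2 g.2⟩
  le_sup_left _ _ _ := le_max_left _ _
  le_sup_right _ _ _ := le_max_right _ _
  sup_le _ _ _ h k x := max_le (h x) (k x)
  inf f g := ⟨(mx f.v⁻¹ g.v⁻¹)⁻¹, H.inv_mem (H.mx (H.inv_mem f.2) (H.inv_mem g.2))⟩
  inf_le_left f g x := (mn_ap f.v g.v x).trans_le (min_le_left _ _)
  inf_le_right f g x := (mn_ap f.v g.v x).trans_le (min_le_right _ _)
  le_inf _ f g h k x := (le_min (h x) (k x)).trans_eq (mn_ap f.v g.v x).symm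

lemma le_def {f g : HH} : f ≤ g ↔ ∀ x, f.v x ≤ g.v x := Iff.rfl
lemma sup_v (f g : HH) (x : ℚ) : (f ⊔ g).v x = max (f.v x) (g.v x) := rfl
lemma inf_v (f g : HH) (x : ℚ) : (f ⊓ g).v x = min (f.v x) (g.v x) := mn_ap f.v g.v x
lemma mul_v (f g : HH) (x : ℚ) : (f * g).v x = f.v (g.v x) := rfl
lemma one_v (x : ℚ) : (1 : HH).v x = x := rfl

instance : MulLeftMono HH := ⟨fun f _ _ h x => f.v.monotone (h x)⟩
instance : MulRightMono HH := ⟨fun f _ _ h x => h (f.v x)⟩

lemma move {p q a c : ℚ} (h1 : p < a) (h2 : a < q) (h3 : p < c) (h4 : c < q) :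
    ∃ g : HH, (∀ x, x ≤ p ∨ q ≤ x → g.v x = x) ∧ g.v a = c :=
  ⟨⟨_, .base p q a c, rfl⟩, (move0 p q a c).choose_spec h1 h2 h3 h4⟩

lemma bump {p q a c : ℚ} (h1 : p < a) (h2 : a < c) (h4 : c < q) :
    ∃ g : HH, 1 ≤ g ∧ (∀ x, x ≤ p ∨ q ≤ x → g.v x = x) ∧ g.v a = c := by
  obtain ⟨g, g1, g2⟩ := move h1 (h2.trans h4) (h1.trans h2) h4
  exact ⟨g ⊔ 1, le_sup_right, fun x hx => by rw [sup_v, g1 x hx, one_v, max_self],
    by rw [sup_v, g2, one_v, max_eq_left h2.le]⟩

/-- the symmetry of the lattice -/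
noncomputable def sy : HH ≃o HH where
  toFun f := ⟨io f.v, H.io f.2⟩
  invFun f := ⟨io f.v, H.io f.2⟩
  left_inv f := Subtype.ext (io_io _)
  right_inv f := Subtype.ext (io_io _)
  map_rel_iff' := by
    have key : ∀ f g : A, (∀ x, f x ≤ g x) → ∀ x, io f x ≤ io g x := by
      intro f g h x
      rw [io_ap, io_ap, neg_le_neg_iff]
      simpa [inv_ap, ap_inv] using g⁻¹.monotone (h (f⁻¹ (-x)))
    intro f g
    refine ⟨fun h => ?_, key _ _⟩
    have := key (io f.v) (io g.v) h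
    rwa [io_io, io_io] at this

lemma sy_v (f : HH) (x : ℚ) : (sy f).v x = -f.v⁻¹ (-x) := rfl

section main
variable {G : Type} [CommGroup G] [Lattice G] [MulLeftMono G] (φ : HH ≃o G)

/-- transported translation -/
noncomputable def T (f h : HH) : HH := φ.symm (φ f * φ h)

lemma T_comm (f h : HH) : T φ f h = T φ h f := by rw [T, T, mul_comm]
lemma T_le (f h k : HH) : T φ f h ≤ T φ f k ↔ h ≤ k := by simp [T]
lemma T_sup (f h k : HH) : T φ f (h ⊔ k) = T φ f h ⊔ T φ f k := by simp [T, mul_sup]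
lemma T_inf (f h k : HH) : T φ f (h ⊓ k) = T φ f h ⊓ T φ f k := by simp [T, mul_inf]
lemma T_surj (f h : HH) : ∃ k, T φ f k = h := ⟨φ.symm ((φ f)⁻¹ * φ h), by simp [T]⟩

variable {φ}
lemma T_one (h1 : φ 1 = 1) (f : HH) : T φ f 1 = f := by simp [T, h1]
lemma T_ge (h1 : φ 1 = 1) {f : HH} (hf : 1 ≤ f) (h : HH) : h ≤ T φ f h := by
  rw [T_comm]; simpa [T_one h1] using (T_le φ h _ _).2 hf

lemma T_dis {f k m : HH} (h : m ⊓ T φ f k = k) : T φ f m = m ⊔ T φ f k := by
  apply φ.injective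
  have h' := congrArg φ h
  simp only [T, map_inf, map_sup, OrderIso.apply_symm_apply] at h' ⊢
  have := inf_mul_sup (φ m) (φ f * φ k)
  rw [h'] at this
  apply mul_left_cancel (a := φ k)
  rw [this, mul_left_comm, mul_left_comm (φ m), mul_comm (φ k)]

variable (φ) in
/-- the ideal of a point of the plane is preserved -/
def Phi (f : HH) (x y : ℚ) : Prop := ∀ h : HH, h.v x ≤ y → (T φ f h).v x ≤ y

lemma loc (h1 : φ 1 = 1) {f k : HH} (hf : 1 ≤ f) {w1 w2 x : ℚ} (a1 : w1 < x) (a2 : x < w2)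
    (h : ∀ t, w1 ≤ t → t ≤ w2 → (T φ f k).v t = k.v t) : Phi φ f x (k.v x) := by
  obtain ⟨m, m1, m2, m3⟩ := bump (p := w1) (a := x) (c := (x + w2) / 2) (q := w2) a1
    (by linarith) (by linarith)
  have kp : k ≤ k * m := le_mul_of_one_le_right' m1
  have key : ∀ n, k ≤ n → n ≤ k * m → (T φ f n).v x = n.v x := by
    intro n n1 n2
    rw [T_dis (k := k), sup_v, h x a1.le a2.le, max_eq_left (n1 x)]
    refine le_antisymm (fun t => ?_) (le_inf n1 (T_ge h1 hf k))
    rw [inf_v]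
    by_cases e : t ≤ w1 ∨ w2 ≤ t
    · exact min_le_of_left_le ((n2 t).trans_eq (by rw [mul_v, m2 t e]))
    · push Not at e
      exact min_le_of_right_le (h t e.1.le e.2.le).le
  intro g hg
  have e1 := key ((g ⊔ k) ⊓ (k * m)) (le_inf le_sup_right kp) inf_le_right
  have lt : k.v x < (k * m).v x := by rw [mul_v, m3]; exact k.v.strictMono (by linarith)
  rw [T_inf, T_sup, inf_v, inf_v, sup_v, sup_v, key _ kp le_rfl, max_eq_right hg,
    min_eq_left lt.le] at e1
  by_contra hc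
  exact absurd e1 (lt_min (lt_max_of_lt_left (not_le.1 hc)) lt).ne'

lemma glb {f : HH} {x1 x y y2 : ℚ} (a : Phi φ f x1 y) (b : Phi φ f x y2) (h1 : x1 < x)
    (h2 : y ≤ y2) : Phi φ f x y := by
  intro g hg
  by_contra hc
  set h := T φ f g with hh
  have c1 : h.v⁻¹ y < x := by simpa [inv_ap] using h.v⁻¹.strictMono (not_le.1 hc)
  obtain ⟨c, c2, c3⟩ := exists_between (max_lt h1 c1)
  obtain ⟨x', c4, c5⟩ := exists_between c3
  have c6 := (le_max_left _ _).trans_lt c2
  have c7 := (le_max_right _ _).trans_lt c2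
  obtain ⟨m, m1, m2⟩ := move (p := x1 - 1) (a := x1) (c := c) (q := x') (by linarith)
    (by linarith) (by linarith) c4
  obtain ⟨n, n1, n2⟩ := move (p := x') (a := x) (c := max x (h.v⁻¹ y2) + 1)
    (q := max x (h.v⁻¹ y2) + 2) c5 (by linarith [le_max_left x (h.v⁻¹ y2)])
    (by linarith [le_max_left x (h.v⁻¹ y2)]) (by linarith)
  obtain ⟨k1, e1⟩ := T_surj φ f (h * m)
  obtain ⟨k2, e2⟩ := T_surj φ f (h * n)
  have le : k1 ⊓ k2 ≤ g := by
    rw [← T_le φ f, T_inf, e1, e2]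
    intro t
    rw [inf_v, mul_v, mul_v]
    rcases le_total t x' with e | e
    · rw [n1 t (Or.inl e)]; exact min_le_right _ _
    · rw [m1 t (Or.inr e)]; exact min_le_left _ _
  have := (le x).trans hg
  rw [inf_v, min_le_iff] at this
  rcases this with e | e
  · have := a k1 ((k1.v.monotone h1.le).trans e)
    rw [e1, mul_v, m2] at this
    exact absurd (by simpa [inv_ap] using h.v⁻¹.monotone this) (not_le.2 c7)
  · have := b k2 (e.trans h2)
    rw [e2, mul_v, n2] at this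
    have : max x (h.v⁻¹ y2) + 1 ≤ h.v⁻¹ y2 := by simpa [inv_ap] using h.v⁻¹.monotone this
    linarith [le_max_right x (h.v⁻¹ y2)]

lemma lub {f : HH} {x y0 y : ℚ} (a : Phi φ f x y0) (h0 : y0 ≤ y)
    (b : ∀ y', y < y' → ∃ x0, x < x0 ∧ Phi φ f x0 y') : Phi φ f x y := by
  intro h hh
  refine le_of_forall_gt_imp_ge_of_dense fun y' hy => ?_
  obtain ⟨x0, h1, h2⟩ := b y' hy
  have c1 : x < h.v⁻¹ y' := by simpa [inv_ap] using h.v⁻¹.strictMono (hh.trans_lt hy)
  obtain ⟨x', c2, c3⟩ := exists_between (lt_min h1 c1)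
  have c4 := c3.trans_le (min_le_left _ _)
  have c5 := c3.trans_le (min_le_right _ _)
  obtain ⟨m, m1, m2⟩ := move (p := min x (h.v⁻¹ y0) - 1) (a := x) (c := min x (h.v⁻¹ y0)) (q := x')
    (by linarith [min_le_left x (h.v⁻¹ y0)]) c2 (by linarith) ((min_le_left _ _).trans_lt c2)
  obtain ⟨n, n1, n2⟩ := move (p := x') (a := x0) (c := h.v⁻¹ y') (q := max x0 (h.v⁻¹ y') + 1) c4
    (by linarith [le_max_left x0 (h.v⁻¹ y')]) c5 (by linarith [le_max_right x0 (h.v⁻¹ y')])
  have le : h ≤ h * m ⊔ h * n := by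
    intro t
    rw [sup_v, mul_v, mul_v]
    rcases le_total t x' with e | e
    · rw [n1 t (Or.inl e)]; exact le_max_right _ _
    · rw [m1 t (Or.inr e)]; exact le_max_left _ _
  refine ((T_le φ f _ _).2 le x).trans ?_
  rw [T_sup, sup_v]
  refine max_le ((a _ ?_).trans (h0.trans hy.le)) (((T φ f (h * n)).v.monotone h1.le).trans (h2 _ ?_))
  · rw [mul_v, m2]; simpa [ap_inv] using h.v.monotone (min_le_right x (h.v⁻¹ y0))
  · rw [mul_v, n2, ap_inv]

lemma diag (h1 : φ 1 = 1) {f : HH} (hf : 1 ≤ f) {u v x : ℚ}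
    (hs : ∀ t, t ≤ u ∨ v ≤ t → f.v t = t) (hx : x < u ∨ v < x) : Phi φ f x x := by
  rcases hx with hx | hx
  · exact loc h1 (k := 1) hf (w1 := x - 1) (w2 := u) (by linarith) hx
      (fun t _ j => by rw [T_one h1, hs t (Or.inl j), one_v])
  · exact loc h1 (k := 1) hf (w1 := v) (w2 := x + 1) hx (by linarith)
      (fun t i _ => by rw [T_one h1, hs t (Or.inr i), one_v])

lemma out (h1 : φ 1 = 1) {f : HH} (hf : 1 ≤ f) {u v x y : ℚ}
    (hs : ∀ t, t ≤ u ∨ v ≤ t → f.v t = t) (hx : x < u ∨ v < x) (hxy : x ≤ y) (hy : v ≤ y) :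
    Phi φ f x y :=
  lub (diag h1 hf hs hx) hxy fun y' h => ⟨y', hxy.trans_lt h, diag h1 hf hs (Or.inr (hy.trans_lt h))⟩

theorem core (h1 : φ 1 = 1) {q F : HH} {z1 z2 : ℚ} (hq : 1 ≤ q)
    (hs : ∀ t, t ≤ z1 ∨ z2 ≤ t → q.v t = t) (hF : z2 < F.v z1)
    (ha : ∀ t, t < z1 → (T φ q F).v t = F.v t) : q ≤ 1 := by
  by_contra hc
  obtain ⟨x0, hx0⟩ : ∃ x0, x0 < q.v x0 := by
    by_contra e
    push Not at e
    exact hc e
  have b1 : z1 < x0 := by by_contra e; exact hx0.ne' (hs _ (Or.inl (not_lt.1 e)))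
  have b2 : x0 < z2 := by by_contra e; exact hx0.ne' (hs _ (Or.inr (not_lt.1 e)))
  have qz : ∀ x, x < z2 → q.v x < z2 := fun x hx => by
    simpa [hs z2 (Or.inr le_rfl)] using q.v.strictMono hx
  obtain ⟨u, u1, u2⟩ := exists_between hx0
  obtain ⟨v, v1, v2⟩ := exists_between u2
  obtain ⟨c', c1, c2⟩ := exists_between v1
  obtain ⟨c, c3, c4⟩ := exists_between c1
  obtain ⟨f, f1, f2, f3⟩ := bump c3 c4 c2
  have fq : f ≤ q := fun t => by
    by_cases e : t ≤ u ∨ v ≤ t
    · rw [f2 t e]; exact hq t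
    · push Not at e
      have : f.v t ≤ v := by simpa [f2 v (Or.inr le_rfl)] using f.v.monotone e.2.le
      exact this.trans (v2.le.trans (q.v.monotone (by linarith [e.1])))
  have lf : ∀ g : HH, 1 ≤ g → g ≤ q → ∀ y, y ≤ z2 → F.v⁻¹ y < z1 ∧ Phi φ g (F.v⁻¹ y) y := by
    intro g g1 g2 y hy
    have e : F.v⁻¹ y < z1 := by simpa [inv_ap] using F.v⁻¹.strictMono (hy.trans_lt hF)
    obtain ⟨w, w1, w2⟩ := exists_between e
    have := loc h1 (k := F) g1 (w1 := F.v⁻¹ y - 1) (w2 := w) (by linarith) w1 (fun t _ j =>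
      le_antisymm (by
        rw [← ha t (j.trans_lt w2), T_comm, T_comm φ q]; exact (T_le φ F _ _).2 g2 t)
        (T_ge h1 g1 F t))
    rw [ap_inv] at this
    exact ⟨e, this⟩
  have fin : T φ q f ≤ T φ q 1 := by
    rw [T_one h1]
    intro x
    by_cases e1 : x ≤ z1 ∨ z2 ≤ x
    · have := diag h1 f1 f2 (x := x) (e1.imp (fun e => by linarith)
        (fun e => by linarith [qz x0 b2])) q (hs x e1).le
      rwa [T_comm, hs x e1]
    push Not at e1
    have y1 := qz x e1.2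
    rcases lt_or_ge x u with e2 | e2
    · obtain ⟨i, j⟩ := lf f f1 fq (q.v x) y1.le
      rw [T_comm]
      exact glb j (out h1 f1 f2 (Or.inl e2) e1.2.le (by linarith [qz x0 b2])) (i.trans e1.1) y1.le
        q le_rfl
    · have y2 : v < q.v x := v2.trans (q.v.strictMono (u1.trans_le e2))
      obtain ⟨i, j⟩ := lf q hq le_rfl (q.v x) y1.le
      have P := glb j (diag h1 hq hs (x := z2 + 1) (Or.inr (by linarith))) (by linarith)
        (by linarith)
      obtain ⟨n, n1, n2⟩ := move (p := v) (a := z2 + 1) (c := q.v x) (q := z2 + 2) (by linarith)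
        (by linarith) y2 (by linarith)
      have le : f ≤ 1 ⊔ f * n := by
        intro t
        rw [sup_v, mul_v, one_v]
        rcases le_total t v with e | e
        · rw [n1 t (Or.inl e)]; exact le_max_right _ _
        · rw [f2 t (Or.inr e)]; exact le_max_left _ _
      refine ((T_le φ q _ _).2 le x).trans ?_
      rw [T_sup, sup_v, T_one h1]
      refine max_le le_rfl (((T φ q (f * n)).v.monotone (by linarith)).trans (P _ ?_))
      rw [mul_v, n2, f2 _ (Or.inr y2.le)]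
  have := (T_le φ q _ _).1 fin c
  rw [f3, one_v] at this
  linarith

theorem no_iso (ψ : HH ≃o G) : False := by
  let φ : HH ≃o G := ψ.trans (OrderIso.mulLeft (ψ 1)⁻¹)
  have h1 : φ 1 = 1 := by simp [φ]
  obtain ⟨F, F1, -, F3⟩ := bump (p := -2) (a := -1) (c := 2) (q := 3) (by norm_num) (by norm_num)
    (by norm_num)
  obtain ⟨q, q1, q2, q3⟩ := bump (p := 0) (a := 1 / 3) (c := 2 / 3) (q := 1) (by norm_num)
    (by norm_num) (by norm_num)
  by_cases hb : ∀ t, 1 < F.v t → (T φ q F).v t = F.v t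
  · have s1 : sy 1 = 1 := Subtype.ext (by ext x; exact neg_neg x)
    have ss : ∀ f, sy (sy f) = f := sy.left_inv
    have := core (φ := sy.trans φ) (q := sy q) (F := sy F) (z1 := -1) (z2 := 1)
      (by simp [s1, h1]) (s1 ▸ sy.monotone q1)
      (fun t ht => by
        rw [sy_v, inv_eq (q2 (-t) (ht.symm.imp (fun e => by linarith) (fun e => by linarith))),
          neg_neg])
      (by
        rw [sy_v, neg_neg, lt_neg]
        simpa [inv_eq F3] using F.v⁻¹.strictMono (show (1 : ℚ) < 2 by norm_num))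
      (fun t ht => by
        have e : T (sy.trans φ) (sy q) (sy F) = sy (T φ q F) := by
          simp only [T, OrderIso.trans_apply, ss]; rfl
        rw [e, sy_v, sy_v, inv_eq (x := F.v⁻¹ (-t))]
        rw [hb _ (by rw [ap_inv]; linarith), ap_inv])
    have := sy.monotone this (1 / 3)
    rw [ss, s1, q3, one_v] at this
    norm_num at this
  · push Not at hb
    obtain ⟨t, t1, t2⟩ := hb
    have t3 : F.v t < (T φ q F).v t := lt_of_le_of_ne (T_ge h1 q1 F t) t2.symm
    have t4 : ¬ (t < 0 ∨ 1 < t) := fun e =>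
      absurd (out h1 q1 q2 e (F1 t) t1.le F le_rfl) (not_le.2 t3)
    push Not at t4
    obtain ⟨m, m1, m2, m3⟩ := bump (p := -1) (a := t) (c := 2) (q := 3) (by linarith)
      (by linarith) (by norm_num)
    obtain ⟨a, ha⟩ := T_surj φ F (T φ q F ⊓ (F * m))
    have a1 : 1 ≤ a := by
      rw [← T_le φ F, T_one h1, ha]
      exact le_inf (T_ge h1 q1 F) (le_mul_of_one_le_right' m1)
    have a2 : a ≤ q := by rw [← T_le φ F, ha, T_comm φ F]; exact inf_le_left
    have := core h1 (q := a) (F := F) (z1 := -1) (z2 := 1) a1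
      (fun s hs => le_antisymm ((a2 s).trans (q2 s (hs.imp (fun e => by linarith) id)).le) (a1 s))
      (by rw [F3]; norm_num)
      (fun s hs => by
        rw [T_comm, ha, inf_v, mul_v, m2 s (Or.inl hs.le)]
        exact min_eq_right (T_ge h1 q1 F s))
    have := (T_le φ F _ _).2 this t
    rw [T_one h1, ha, inf_v, mul_v, m3] at this
    exact absurd this (not_le.2 (lt_min t3 (F.v.strictMono (by linarith))))

end main

end Pool.Agent.H3.Lat
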