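import Mathlib
import Pool.Agent.H3.EllP
import Pool.Agent.H3.Lat

set_option autoImplicit false

namespace Pool.Agent.H3.Amal

/-- order automorphisms of a chain -/
def Au (Ω : Type) [LinearOrder Ω] : Type := Ω ≃o Ω

section au
variable {Ω : Type} [LinearOrder Ω]

instance : Group (Au Ω) := inferInstanceAs (Group (Ω ≃o Ω))

/-- underlying automorphism -/
def Au.v (f : Au Ω) : Ω ≃o Ω := f

lemma mul_v (f g : Au Ω) (x : Ω) : (f * g).v x = f.v (g.v x) := rfl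
lemma one_v (x : Ω) : (1 : Au Ω).v x = x := rfl
lemma inv_ap (f : Au Ω) (x : Ω) : f⁻¹.v (f.v x) = x := f.v.symm_apply_apply x
lemma ap_inv (f : Au Ω) (x : Ω) : f.v (f⁻¹.v x) = x := f.v.apply_symm_apply x
lemma inv_eq {f : Au Ω} {x y : Ω} (h : f.v x = y) : f⁻¹.v y = x := by rw [← h, inv_ap]
lemma ext' {f g : Au Ω} (h : ∀ x, f.v x = g.v x) : f = g := OrderIso.ext (funext h)

/-- from a strictly monotone surjection -/
noncomputable def mk (f : Ω → Ω) (h : StrictMono f) (k : Function.Surjective f) : Au Ω :=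
  StrictMono.orderIsoOfSurjective f h k

lemma mk_v (f : Ω → Ω) (h : StrictMono f) (k : Function.Surjective f) (x : Ω) :
    (mk f h k).v x = f x := rfl

/-- pointwise maximum -/
noncomputable def mx (f g : Au Ω) : Au Ω :=
  mk (fun x => max (f.v x) (g.v x))
    (fun _ _ h => max_lt_max (f.v.strictMono h) (g.v.strictMono h))
    (fun y => ⟨min (f⁻¹.v y) (g⁻¹.v y), by
      dsimp only
      rcases le_total (f⁻¹.v y) (g⁻¹.v y) with h | h
      · rw [min_eq_left h, ap_inv, max_eq_left (by simpa [ap_inv] using g.v.monotone h)]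
      · rw [min_eq_right h, ap_inv, max_eq_right (by simpa [ap_inv] using f.v.monotone h)]⟩)

lemma mx_ap (f g : Au Ω) (x : Ω) : (mx f g).v x = max (f.v x) (g.v x) := rfl

lemma mn_ap (f g : Au Ω) (x : Ω) : (mx f⁻¹ g⁻¹)⁻¹.v x = min (f.v x) (g.v x) := inv_eq (by
  rw [mx_ap]
  rcases le_total (f.v x) (g.v x) with h | h
  · rw [min_eq_left h, inv_ap, max_eq_left (by simpa [inv_ap] using g⁻¹.v.monotone h)]
  · rw [min_eq_right h, inv_ap, max_eq_right (by simpa [inv_ap] using f⁻¹.v.monotone h)])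

noncomputable instance : Lattice (Au Ω) where
  le f g := ∀ x, f.v x ≤ g.v x
  le_refl _ _ := le_rfl
  le_trans _ _ _ h k x := (h x).trans (k x)
  le_antisymm f g h k := ext' fun x => le_antisymm (h x) (k x)
  sup f g := mx f g
  le_sup_left _ _ _ := le_max_left _ _
  le_sup_right _ _ _ := le_max_right _ _
  sup_le _ _ _ h k x := max_le (h x) (k x)
  inf f g := (mx f⁻¹ g⁻¹)⁻¹
  inf_le_left f g x := (mn_ap f g x).trans_le (min_le_left _ _)
  inf_le_right f g x := (mn_ap f g x).trans_le (min_le_right _ _)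
  le_inf _ f g h k x := (le_min (h x) (k x)).trans_eq (mn_ap f g x).symm

lemma le_def {f g : Au Ω} : f ≤ g ↔ ∀ x, f.v x ≤ g.v x := Iff.rfl
lemma sup_v (f g : Au Ω) (x : Ω) : (f ⊔ g).v x = max (f.v x) (g.v x) := rfl
lemma inf_v (f g : Au Ω) (x : Ω) : (f ⊓ g).v x = min (f.v x) (g.v x) := mn_ap f g x

instance : MulLeftMono (Au Ω) := ⟨fun f _ _ h x => f.v.monotone (h x)⟩
instance : MulRightMono (Au Ω) := ⟨fun f _ _ h x => h (f.v x)⟩

lemma inf_one {f g : Au Ω} (hf : 1 ≤ f) (hg : 1 ≤ g) (h : ∀ x, f.v x = x ∨ g.v x = x) :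
    f ⊓ g = 1 := ext' fun x => by
  rw [inf_v, one_v]
  rcases h x with e | e
  · rw [e]; exact min_eq_left (hg x)
  · rw [e]; exact min_eq_right (hf x)

/-- wreath element -/
noncomputable def w (φ : Au Ω) (ψ : Ω → Au ℚ) : Au (Ω ×ₗ ℚ) :=
  mk (fun x => toLex (φ.v (ofLex x).1, (ψ (ofLex x).1).v (ofLex x).2))
    (fun x y h => by
      rcases Prod.Lex.lt_iff.1 h with h | ⟨h, k⟩
      · exact Prod.Lex.toLex_lt_toLex.2 (Or.inl (φ.v.strictMono h))
      · exact Prod.Lex.toLex_lt_toLex.2 (Or.inr ⟨by dsimp only; rw [h], by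
          dsimp only; rw [h]; exact (ψ _).v.strictMono k⟩))
    (fun y => ⟨toLex (φ⁻¹.v (ofLex y).1, (ψ (φ⁻¹.v (ofLex y).1))⁻¹.v (ofLex y).2), by
      simp [ap_inv]⟩)

lemma w_v (φ : Au Ω) (ψ : Ω → Au ℚ) (t : Ω) (x : ℚ) :
    (w φ ψ).v (toLex (t, x)) = toLex (φ.v t, (ψ t).v x) := rfl

lemma ext2 {f g : Au (Ω ×ₗ ℚ)} (h : ∀ t x, f.v (toLex (t, x)) = g.v (toLex (t, x))) : f = g :=
  ext' fun x => h (ofLex x).1 (ofLex x).2
lemma le2 {f g : Au (Ω ×ₗ ℚ)} (h : ∀ t x, f.v (toLex (t, x)) ≤ g.v (toLex (t, x))) : f ≤ g :=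
  fun x => h (ofLex x).1 (ofLex x).2

open Classical in
/-- acts on the fibres over `S` -/
noncomputable def on (S : Ω → Prop) (g : Au ℚ) : Au (Ω ×ₗ ℚ) := w 1 fun t => if S t then g else 1
/-- acts on the top chain -/
noncomputable def top (φ : Au Ω) : Au (Ω ×ₗ ℚ) := w φ fun _ => 1

lemma on_pos {S : Ω → Prop} (g : Au ℚ) {t : Ω} (h : S t) (x : ℚ) :
    (on S g).v (toLex (t, x)) = toLex (t, g.v x) := by simp [on, w_v, h, one_v]
lemma on_neg {S : Ω → Prop} (g : Au ℚ) {t : Ω} (h : ¬ S t) (x : ℚ) :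
    (on S g).v (toLex (t, x)) = toLex (t, x) := by simp [on, w_v, h, one_v]
lemma top_v (φ : Au Ω) (t : Ω) (x : ℚ) : (top φ).v (toLex (t, x)) = toLex (φ.v t, x) := rfl
lemma fle {t : Ω} {x y : ℚ} (h : x ≤ y) : toLex (t, x) ≤ toLex (t, y) :=
  Prod.Lex.toLex_le_toLex.2 (Or.inr ⟨rfl, h⟩)

lemma on_le {S U : Ω → Prop} {g h : Au ℚ} (a : ∀ t, S t → U t) (b : g ≤ h) (c : 1 ≤ h) :
    on S g ≤ on U h := le2 fun t x => by
  by_cases s : S t
  · rw [on_pos _ s, on_pos _ (a t s)]; exact fle (b x)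
  · rw [on_neg _ s]
    by_cases u : U t
    · rw [on_pos _ u]; exact fle (c x)
    · rw [on_neg _ u]
lemma on_mul (S : Ω → Prop) (g h : Au ℚ) : on S (g * h) = on S g * on S h := ext2 fun t x => by
  by_cases s : S t
  · rw [mul_v, on_pos _ s, on_pos _ s, on_pos _ s, mul_v]
  · rw [mul_v, on_neg _ s, on_neg _ s, on_neg _ s]
/-- as a homomorphism -/
noncomputable def onH (S : Ω → Prop) : Au ℚ →* Au (Ω ×ₗ ℚ) := MonoidHom.mk' (on S) (on_mul S)
lemma on_one (S : Ω → Prop) : on S 1 = 1 := map_one (onH S)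
lemma one_le_on (S : Ω → Prop) {g : Au ℚ} (h : 1 ≤ g) : 1 ≤ on S g :=
  (on_one S).ge.trans (on_le (fun _ a => a) h h)
lemma one_lt_on {S : Ω → Prop} {g : Au ℚ} (h : 1 < g) {t : Ω} (s : S t) : 1 < on S g :=
  lt_of_le_of_ne (one_le_on S h.le) fun e => h.ne (ext' fun x => by
    have := congrArg (fun f : Au (Ω ×ₗ ℚ) => (ofLex (f.v (toLex (t, x)))).2) e
    simpa [on_pos _ s, one_v] using this)
lemma on_inf {S U : Ω → Prop} {g h : Au ℚ} (a : ∀ t, S t → ¬ U t) (b : 1 ≤ g) (c : 1 ≤ h) :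
    on S g ⊓ on U h = 1 := inf_one (one_le_on _ b) (one_le_on _ c) fun x => by
  by_cases s : S (ofLex x).1
  · exact Or.inr (on_neg _ (a _ s) _)
  · exact Or.inl (on_neg _ s _)
lemma on_un {S U V : Ω → Prop} (g : Au ℚ) (a : ∀ t, S t → ¬ U t) (b : ∀ t, V t ↔ S t ∨ U t) :
    on V g = on S g * on U g := ext2 fun t x => by
  rw [mul_v]
  by_cases s : S t
  · rw [on_pos _ ((b t).2 (Or.inl s)), on_neg _ (a t s), on_pos _ s]
  · by_cases u : U t
    · rw [on_pos _ ((b t).2 (Or.inr u)), on_pos _ u, on_neg _ s]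
    · rw [on_neg _ (by rw [b]; tauto), on_neg _ u, on_neg _ s]
lemma on_comm {S U : Ω → Prop} {g h : Au ℚ} (a : g * h = h * g) :
    on S g * on U h = on U h * on S g := ext2 fun t x => by
  rw [mul_v, mul_v]
  by_cases s : S t <;> by_cases u : U t
  · rw [on_pos _ s, on_pos _ u, on_pos _ s, on_pos _ u, ← mul_v, a, mul_v]
  · rw [on_pos _ s, on_neg _ u, on_pos _ s, on_neg _ u]
  · rw [on_neg _ s, on_pos _ u, on_neg _ s]
  · rw [on_neg _ s, on_neg _ u, on_neg _ s]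
lemma top_mul (φ χ : Au Ω) : top (φ * χ) = top φ * top χ := ext2 fun _ _ => rfl
lemma one_le_top {φ : Au Ω} (h : 1 ≤ φ) : 1 ≤ top φ := le2 fun t x => by
  rw [top_v, one_v]
  rcases (h t).eq_or_lt with e | e
  · rw [← e, one_v]
  · exact Prod.Lex.toLex_le_toLex.2 (Or.inl e)
lemma top_inf {φ : Au Ω} {S : Ω → Prop} {g : Au ℚ} (h : 1 ≤ φ) (k : 1 ≤ g)
    (a : ∀ t, S t → φ.v t = t) : top φ ⊓ on S g = 1 :=
  inf_one (one_le_top h) (one_le_on _ k) fun x => by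
    by_cases s : S (ofLex x).1
    · exact Or.inl ((top_v φ (ofLex x).1 (ofLex x).2).trans (by rw [a _ s]; rfl))
    · exact Or.inr (on_neg _ s _)
lemma top_conj (φ : Au Ω) (S : Ω → Prop) (g : Au ℚ) :
    (top φ)⁻¹ * on S g * top φ = on (fun t => S (φ.v t)) g := by
  rw [mul_assoc, inv_mul_eq_iff_eq_mul]
  refine ext2 fun t x => ?_
  rw [mul_v, mul_v, top_v]
  by_cases s : S (φ.v t)
  · rw [on_pos _ s, on_pos (S := fun t => S (φ.v t)) _ s, top_v]
  · rw [on_neg _ s, on_neg (S := fun t => S (φ.v t)) _ s, top_v]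
end au

/-- translation -/
noncomputable def tr (c : ℚ) : Au ℚ :=
  mk (fun x => x + c) (fun _ _ h => by simpa using h) fun y => ⟨y - c, by simp⟩
lemma tr_v (c x : ℚ) : (tr c).v x = x + c := rfl

lemma exb : ∃ τ b h : Au ℚ, 1 < b ∧ (∀ n : ℕ, b ^ n ≤ τ) ∧ b * τ = τ * b ∧ 1 ≤ h ∧ h ≤ τ ∧
    τ ≤ (h * b * h⁻¹ * b) * (h * b * h⁻¹ * b) := by
  obtain ⟨g0, hg⟩ := Lat.move0 0 1 (1 / 8) (7 / 8)
  obtain ⟨g1, g2⟩ := hg (by norm_num) (by norm_num) (by norm_num) (by norm_num)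
  obtain ⟨g, k0, k1, k2, k3⟩ : ∃ g : Au ℚ, 1 ≤ g ∧ g.v 0 = 0 ∧ g.v 1 = 1 ∧ g.v (1 / 8) = 7 / 8 := by
    refine ⟨(show Au ℚ from g0) ⊔ 1, le_sup_right, ?_, ?_, ?_⟩
    · exact (congrArg (max · 0) (g1 0 (by simp))).trans (max_self _)
    · exact (congrArg (max · 1) (g1 1 (by simp))).trans (max_self _)
    · exact (congrArg (max · (1 / 8)) g2).trans (max_eq_left (by norm_num))
  have lo : ∀ f : Au ℚ, f.v 0 = 0 → ∀ x : ℚ, 0 ≤ f.v (Int.fract x) := fun f h x =>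
    h.ge.trans (f.v.monotone (Int.fract_nonneg x))
  have hi : ∀ f : Au ℚ, f.v 1 = 1 → ∀ x : ℚ, f.v (Int.fract x) < 1 := fun f h x =>
    (f.v.strictMono (Int.fract_lt_one x)).trans_eq h
  let b : Au ℚ := mk (fun x => (⌊x⌋ : ℚ) + g.v (Int.fract x)) (fun x y h => by
    dsimp only
    rcases (Int.floor_le_floor h.le).eq_or_lt with e | e
    · have : Int.fract x < Int.fract y := by unfold Int.fract; rw [e]; linarith
      have := g.v.strictMono this
      rw [e]; linarith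
    · have : (⌊x⌋ : ℚ) + 1 ≤ ⌊y⌋ := by exact_mod_cast e
      linarith [lo g k1 y, hi g k2 x]) (fun y => ⟨⌊y⌋ + g⁻¹.v (Int.fract y), by
    have a := lo g⁻¹ (inv_eq k1) y
    have c := hi g⁻¹ (inv_eq k2) y
    dsimp only
    rw [Int.floor_intCast_add, Int.fract_intCast_add, Int.floor_eq_zero_iff.2 ⟨a, c⟩,
      Int.fract_eq_self.2 ⟨a, c⟩, ap_inv]
    simp⟩)
  have bv : ∀ x, b.v x = (⌊x⌋ : ℚ) + g.v (Int.fract x) := fun _ => rfl
  have b1 : 1 ≤ b := fun x => by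
    have := k0 (Int.fract x)
    rw [bv, one_v] at *
    linarith [Int.floor_add_fract x]
  have bi : ∀ n : ℤ, b.v n = n := fun n => by simp [bv, k1]
  have b8 : ∀ n : ℤ, b.v (n + 1 / 8) = n + 7 / 8 := fun n => by
    rw [bv, Int.floor_intCast_add, Int.fract_intCast_add,
      Int.floor_eq_zero_iff.2 ⟨by norm_num, by norm_num⟩,
      Int.fract_eq_self.2 ⟨by norm_num, by norm_num⟩, k3]
    simp
  have hv : ∀ x, (tr (1 / 2))⁻¹.v x = x - 1 / 2 := fun x => inv_eq (by rw [tr_v]; ring)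
  refine ⟨tr 1, b, tr (1 / 2), lt_of_le_of_ne b1 fun e => ?_, fun n x => ?_, ext' fun x => ?_,
    fun x => ?_, fun x => ?_, fun x => ?_⟩
  · have := b8 0
    rw [← e, one_v] at this
    norm_num at this
  · have : ∀ m : ℕ, (b ^ m).v (⌈x⌉ : ℤ) = (⌈x⌉ : ℤ) := fun m => by
      induction m with
      | zero => rfl
      | succ m ih => rw [pow_succ, mul_v, bi, ih]
    have h := (b ^ n).v.monotone (Int.le_ceil x)
    rw [this] at h
    rw [tr_v]; linarith [Int.ceil_lt_add_one x]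
  · rw [mul_v, mul_v, tr_v, tr_v, bv, bv, Int.floor_add_one, Int.fract_add_one]
    push_cast; ring
  · rw [tr_v, one_v]; linarith
  · rw [tr_v, tr_v]; linarith
  · have key : ∀ (n : ℤ) (y : ℚ), n + 1 / 8 ≤ y →
        ((n + 1 : ℤ) : ℚ) + 1 / 8 ≤ (tr (1 / 2) * b * (tr (1 / 2))⁻¹ * b).v y := fun n y h => by
      rw [mul_v, mul_v, mul_v, tr_v, hv]
      have h1 := b.v.monotone h
      have h2 := b.v.monotone (show (n : ℚ) + 1 / 8 ≤ b.v y - 1 / 2 by rw [b8] at h1; linarith)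
      rw [b8] at h2
      push_cast; linarith
    have h := key _ _ (key ⌊x - 1 / 8⌋ x (by linarith [Int.floor_le (x - 1 / 8)]))
    rw [mul_v (_ * b), tr_v]
    push_cast at h
    linarith [Int.lt_floor_add_one (x - 1 / 8)]

section emb
variable {G : Type} [Group G] [Lattice G] [MulLeftMono G] [MulRightMono G]

lemma pow_inf {u v : G} (hu : 1 ≤ u) (hv : 1 ≤ v) (h : u ⊓ v = 1) (n : ℕ) : u ^ n ⊓ v = 1 := by
  induction n with
  | zero => simpa using hv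
  | succ n ih =>
    refine le_antisymm ?_ (le_inf (one_le_pow_of_one_le' hu _) hv)
    simpa [pow_succ, ih, h] using EllP.inf_mul_le (one_le_pow_of_one_le' hu n) hu hv

lemma sup_eq_mul {u v : G} (h : u ⊓ v = 1) : u ⊔ v = u * v := by
  have : u * (u ⊓ v)⁻¹ * v = u ⊔ v := by rw [inv_inf, mul_sup, sup_mul]; simp [sup_comm]
  rw [← this, h]; simp

lemma emb1 {α β : G} (a : 1 < α) (b : 1 < β) (h : α ⊓ β = 1) :
    ∃ f : ℤ × ℤ → G, Function.Injective f ∧ (∀ u v, f (u + v) = f u * f v ∧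
      f (u ⊔ v) = f u ⊔ f v ∧ f (u ⊓ v) = f u ⊓ f v) ∧ f (1, 0) = α ∧ f (0, 1) = β := by
  have c : Commute α β := by
    rw [Commute, SemiconjBy, ← sup_eq_mul h, ← sup_eq_mul (inf_comm α β ▸ h), sup_comm]
  have d : ∀ m n : ℕ, α ^ m ⊓ β ^ n = 1 := fun m n => pow_inf a.le
    (one_le_pow_of_one_le' b.le n) (by rw [inf_comm]; exact pow_inf b.le a.le (inf_comm α β ▸ h) n) m
  let f : ℤ × ℤ → G := fun u => α ^ u.1 * β ^ u.2
  have fa : ∀ u v, f (u + v) = f u * f v := fun u v => by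
    simp only [f, Prod.fst_add, Prod.snd_add, zpow_add]
    rw [mul_assoc, mul_assoc, ← mul_assoc (α ^ v.1), (c.zpow_zpow v.1 u.2).eq, mul_assoc]
  have f0 : f 0 = 1 := by simp [f]
  have fn : ∀ u, f (-u) = (f u)⁻¹ := fun u => eq_inv_of_mul_eq_one_left (by rw [← fa]; simpa)
  have p : ∀ u, f (u ⊔ 0) ⊓ f (-u ⊔ 0) = 1 := by
    rintro ⟨m, n⟩
    have q : ∀ m n : ℕ, 1 ≤ α ^ m * β ^ n := fun m n =>
      one_le_mul (one_le_pow_of_one_le' a.le _) (one_le_pow_of_one_le' b.le _)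
    obtain ⟨m, rfl | rfl⟩ := m.eq_nat_or_neg <;> obtain ⟨n, rfl | rfl⟩ := n.eq_nat_or_neg
    · simpa [f, Prod.sup_def] using q m n
    · simpa [f, Prod.sup_def] using d m n
    · simpa [f, Prod.sup_def, inf_comm] using d m n
    · simpa [f, Prod.sup_def] using q m n
  have s : ∀ u, f (u ⊔ 0) = f u ⊔ 1 := fun u => by
    have e : f (u ⊔ 0) * (f (-u ⊔ 0))⁻¹ = f u := by
      rw [← fn, ← fa]; congr 1
      simpa [posPart, negPart, sub_eq_add_neg] using posPart_sub_negPart u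
    calc f (u ⊔ 0) = (f (u ⊔ 0) ⊔ f (-u ⊔ 0)) * (f (-u ⊔ 0))⁻¹ := by rw [sup_eq_mul (p u)]; simp
      _ = _ := by rw [sup_mul, e]; simp
  have su : ∀ u v, f (u ⊔ v) = f u ⊔ f v := fun u v => by
    have : u ⊔ v = ((u - v) ⊔ 0) + v := by rw [sup_add]; simp
    rw [this, fa, s, sup_mul, ← fa]; simp
  have z : ∀ u, 0 ≤ u → f u = 1 → u = 0 := by
    rintro ⟨m, n⟩ ⟨h1, h2⟩ e
    lift m to ℕ using h1
    lift n to ℕ using h2
    simp only [f, zpow_natCast] at e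
    have q1 := one_le_pow_of_one_le' a.le m
    have q2 := one_le_pow_of_one_le' b.le n
    have r1 : m = 0 := by_contra fun k => (one_lt_pow' a k).not_ge
      ((le_mul_of_one_le_right' q2).trans e.le)
    have r2 : n = 0 := by_contra fun k => (one_lt_pow' b k).not_ge
      ((le_mul_of_one_le_left' q1).trans e.le)
    simp [r1, r2]
  refine ⟨f, fun u v e => ?_, fun u v => ⟨fa u v, su u v, ?_⟩, by simp [f], by simp [f]⟩
  · have k : ∀ u v, f u = f v → u ≤ v := fun u v e => by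
      have := z ((u - v) ⊔ 0) le_sup_right (by rw [s, sub_eq_add_neg, fa, fn, e]; simp)
      simpa using this
    exact le_antisymm (k u v e) (k v u e.symm)
  · have : u ⊓ v = -(-u ⊔ -v) := by simp [neg_sup]
    rw [this, fn, su, fn, fn, inv_sup]; simp

lemma emb2 {a b : G} (hb : 1 < b) (h : ∀ n : ℕ, b ^ n ≤ a) (c : b * a = a * b) :
    ∃ f : ℤ ×ₗ ℤ → G, Function.Injective f ∧ (∀ u v, f (u + v) = f u * f v ∧
      f (u ⊔ v) = f u ⊔ f v ∧ f (u ⊓ v) = f u ⊓ f v) ∧ f (toLex (1, 0)) = a ∧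
      f (toLex (0, 1)) = b := by
  have c' : Commute a b := c.symm
  let f : ℤ ×ₗ ℤ → G := fun u => a ^ (ofLex u).1 * b ^ (ofLex u).2
  have fa : ∀ u v, f (u + v) = f u * f v := fun u v => by
    simp only [f, ofLex_add, Prod.fst_add, Prod.snd_add, zpow_add]
    rw [mul_assoc, mul_assoc, ← mul_assoc (a ^ (ofLex v).1), (c'.zpow_zpow _ _).eq, mul_assoc]
  have ha : 1 ≤ a := by simpa using h 0
  have p : ∀ u, 0 < u → 1 < f u := fun u hu => by
    rcases Prod.Lex.lt_iff.1 hu with k | ⟨k, l⟩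
    · obtain ⟨m, e⟩ := Int.eq_succ_of_zero_lt k
      have q : b ^ (-(ofLex u).2) < a := by
        obtain ⟨n, e | e⟩ := (ofLex u).2.eq_nat_or_neg
        · rw [e, zpow_neg, zpow_natCast]
          exact (inv_le_one'.2 (one_le_pow_of_one_le' hb.le n)).trans_lt
            (hb.trans_le (by simpa using h 1))
        · rw [e, neg_neg, zpow_natCast]
          refine lt_of_lt_of_le ?_ (h (n + 1))
          rw [pow_succ]; exact lt_mul_of_one_lt_right' _ hb
      have r : a ≤ a ^ (ofLex u).1 := by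
        rw [e, zpow_add_one, zpow_natCast]
        exact le_mul_of_one_le_left' (one_le_pow_of_one_le' ha m)
      have := q.trans_le r
      rw [zpow_neg] at this
      exact mul_inv_lt_iff_lt_mul.1 (by simpa [f] using this)
    · obtain ⟨m, e⟩ := Int.eq_succ_of_zero_lt l
      have k' : (ofLex u).1 = 0 := k.symm
      simp only [f, k', e, zpow_zero, one_mul]
      exact_mod_cast one_lt_pow' hb m.succ_ne_zero
  have sm : StrictMono f := fun u v k => by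
    have := p (v - u) (sub_pos.2 k)
    calc f u = 1 * f u := (one_mul _).symm
      _ < f (v - u) * f u := mul_lt_mul_left this _
      _ = f v := by rw [← fa]; simp
  exact ⟨f, sm.injective, fun u v => ⟨fa u v, sm.monotone.map_sup u v, sm.monotone.map_inf u v⟩,
    by simp [f], by simp [f]⟩
end emb

section dyn
variable {D : Type} [Group D] [Lattice D] [MulLeftMono D] [MulRightMono D]

/-- prime left-invariant preorder -/
structure Pr (R : D → D → Prop) : Prop where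
  tot : ∀ x y, R x y ∨ R y x
  tr : ∀ x y z, R x y → R y z → R x z
  inv : ∀ h x y, R (h * x) (h * y) ↔ R x y
  mono : ∀ x y, x ≤ y → R x y
  inf : ∀ u v x, R x u → R x v → R x (u ⊓ v)

variable {R : D → D → Prop} (P : Pr R)
include P

omit [MulLeftMono D] in
lemma Pr.dis {g h x : D} (e : g ⊓ h = 1) (a : ¬ R (g * x) x) : R (h * x) x := by
  have r : g * x ⊓ h * x = x := by rw [← inf_mul, e, one_mul]
  rcases P.tot (g * x) (h * x) with k | k
  · have := P.inf _ _ _ (P.mono _ _ le_rfl) k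
    rw [r] at this; exact absurd this a
  · have := P.inf _ _ _ k (P.mono _ _ le_rfl)
    rwa [r] at this
omit [MulLeftMono D] in
lemma Pr.le {g h x : D} (e : g ≤ h) (a : ¬ R (g * x) x) : ¬ R (h * x) x := fun k =>
  a (P.tr _ _ _ (P.mono _ _ (mul_le_mul_left e x)) k)
omit [MulLeftMono D] [MulRightMono D] in
lemma Pr.mul {g h x : D} (a : R (g * x) x) (b : R (h * x) x) : R (g * h * x) x :=
  P.tr _ _ _ (by rw [mul_assoc, P.inv]; exact b) a
omit [MulLeftMono D] [MulRightMono D] in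
lemma Pr.eqv {g x y : D} (a : R x y) (b : R y x) (c : ¬ R (g * x) x) : ¬ R (g * y) y := fun k =>
  c (P.tr _ _ _ ((P.inv _ _ _).2 a) (P.tr _ _ _ k b))
omit [MulLeftMono D] [MulRightMono D] in
lemma Pr.cj {g x : D} (k : D) (c : ¬ R (g * x) x) : ¬ R (k⁻¹ * g * k * (k⁻¹ * x)) (k⁻¹ * x) := by
  rwa [show k⁻¹ * g * k * (k⁻¹ * x) = k⁻¹ * (g * x) by group, P.inv]

lemma Pr.core {α β c c' α0 y b p : D} (hc : 1 ≤ c) (hc' : 1 ≤ c') (hy : 1 ≤ y) (e1 : α ⊓ β = 1)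
    (e2 : β ⊓ c = 1) (e3 : α ⊓ c' = 1) (e4 : α0 ⊓ y = 1) (l1 : b ≤ β)
    (l2 : y⁻¹ * (y⁻¹ * b * y) * y ≤ b)
    (l3 : ∀ r, ¬ R (y⁻¹ * b * y * r) r → ¬ R (α * r) r) (m1 : ¬ R (α0 * p) p)
    (m2 : ¬ R (b * (c' * c * p)) (c' * c * p)) : False := by
  have r1 := P.cj y m2
  have s1 := P.le l1 (P.le l2 (P.cj y r1))
  have r2 := l3 _ r1
  have yp := P.dis e4 m1
  have dn : ∀ x, R (y⁻¹ * x) x := fun x => P.mono _ _ (mul_le_of_le_one_left' (inv_le_one'.2 hy))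
  have up : ∀ x, R p x → R p (y⁻¹ * x) := fun x h =>
    (P.inv y _ _).1 (by rw [mul_inv_cancel_left]; exact P.tr _ _ _ yp h)
  have ps := up _ (up _ (P.mono p (c' * c * p) (le_mul_of_one_le_left' (one_le_mul hc' hc))))
  have ms := P.tr _ _ _ ((P.inv c _ _).2 ps) (P.dis e2 s1)
  have rm : R (y⁻¹ * (c' * c * p)) (c * p) :=
    (P.inv c' _ _).1 (P.tr _ _ _ (P.dis e3 r2) (by rw [← mul_assoc c']; exact dn _))
  exact s1 (P.dis e1 (P.eqv (P.tr _ _ _ rm ms) (dn _) r2))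

lemma Pr.bump {a g h z r : D} (e : a = h * g) (d : g ⊓ h = 1) (z1 : 1 ≤ z) (z2 : z ≤ a)
    (m : ¬ R (g * r) r) : ¬ R (g * (z⁻¹ * r)) (z⁻¹ * r) := fun k => by
  have w1 : R (z⁻¹ * r) r := P.mono _ _ (mul_le_of_le_one_left' (inv_le_one'.2 z1))
  have w2 : R r (h * (g * (z⁻¹ * r))) := P.mono _ _ (by
    rw [← mul_assoc, ← e, ← mul_assoc]; exact le_mul_of_one_le_left' (le_mul_inv_iff_le.2 z2))
  have w3 := P.tr _ _ _ (P.dis d m) (P.tr _ _ _ w2 ((P.inv h _ _).2 k))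
  exact P.eqv ((P.inv h _ _).1 w3) w1 m k

omit [MulLeftMono D] in
lemma Pr.cov {β b z r : D} (l : β ≤ (z * b * z⁻¹ * b) * (z * b * z⁻¹ * b)) (m : ¬ R (β * r) r) :
    ¬ R (b * r) r ∨ ¬ R (b * (z⁻¹ * r)) (z⁻¹ * r) := by
  by_contra h
  push Not at h
  have k : R (z * b * z⁻¹ * r) r := (P.inv z⁻¹ _ _).1 (by
    rw [show z⁻¹ * (z * b * z⁻¹ * r) = b * (z⁻¹ * r) by group]; exact h.2)
  exact P.le l m (P.mul (P.mul k h.1) (P.mul k h.1))

lemma Pr.toC {a g h α β b z r : D} (e : a = h * g) (d : g ⊓ h = 1) (d' : g ⊓ b = 1)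
    (hh : 1 ≤ h) (z1 : 1 ≤ z) (z2 : z ≤ a) (e' : a = α * β)
    (l : β ≤ (z * b * z⁻¹ * b) * (z * b * z⁻¹ * b)) (m : ¬ R (g * r) r) : ¬ R (α * r) r := by
  intro k
  have ma : ¬ R (a * r) r := P.le (e ▸ le_mul_of_one_le_left' hh) m
  rcases P.cov l (fun k' => ma (e' ▸ P.mul k k')) with q | q
  · exact q (P.dis d' m)
  · exact q (P.dis d' (P.bump e d z1 z2 m))
end dyn

/-- the parity classes -/
def Od : WithBot ℤ → Prop := fun t => ∃ n : ℤ, t = n ∧ Odd n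
/-- the shift -/
noncomputable def sh : Au (WithBot ℤ) := (OrderIso.addRight (1 : ℤ)).withBotCongr
lemma sh_bot : sh.v ⊥ = ⊥ := rfl
lemma sh_coe (n : ℤ) : sh.v (n : ℤ) = ((n + 1 : ℤ) : WithBot ℤ) := rfl
lemma one_le_sh : 1 ≤ sh := fun t => by
  induction t using WithBot.recBotCoe with
  | bot => exact le_rfl
  | coe n => rw [sh_coe, one_v, WithBot.coe_le_coe]; omega
lemma od_coe (n : ℤ) : Od (n : ℤ) ↔ Odd n :=
  ⟨fun ⟨m, e, h⟩ => WithBot.coe_injective e ▸ h, fun h => ⟨n, rfl, h⟩⟩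
lemma od_bot : ¬ Od ⊥ := fun ⟨_, e, _⟩ => WithBot.bot_ne_coe e
lemma od1 (t : WithBot ℤ) (h : Od (sh.v t)) : ¬ Od t := by
  induction t using WithBot.recBotCoe with
  | bot => exact od_bot
  | coe n => rw [sh_coe, od_coe, Int.odd_iff] at h; rw [od_coe, Int.odd_iff]; omega
lemma od2 (t : WithBot ℤ) (h : Od (sh.v (sh.v t))) : Od t := by
  induction t using WithBot.recBotCoe with
  | bot => exact h
  | coe n => rw [sh_coe, sh_coe, od_coe, Int.odd_iff] at h; rw [od_coe, Int.odd_iff]; omega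

lemma exc : ∃ c c' : Au ℚ, 1 ≤ c ∧ 1 ≤ c' ∧ c.v 2 = 2 ∧ c'.v 0 = 0 ∧ (c' * c).v 0 = 2 := by
  obtain ⟨f, f1, f2⟩ := Lat.aff (show (0 : ℚ) < 2 by norm_num) (show (1 : ℚ) < 2 by norm_num)
  obtain ⟨g, g1, g2⟩ := Lat.aff (show (0 : ℚ) < 1 by norm_num) (show (0 : ℚ) < 2 by norm_num)
  refine ⟨(show Au ℚ from f) ⊔ 1, (show Au ℚ from g) ⊔ 1, le_sup_right, le_sup_right,
    (congrArg (max · 2) f2).trans (max_self _), (congrArg (max · 0) g1).trans (max_self _), ?_⟩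
  have : ((show Au ℚ from f) ⊔ 1).v 0 = 1 :=
    (congrArg (max · 0) f1).trans (max_eq_left (by norm_num))
  rw [mul_v, this]
  exact (congrArg (max · 1) g2).trans (max_eq_left (by norm_num))

end Pool.Agent.H3.Amal
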