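import Mathlib
import Pool.Agent.H3.Amal

set_option autoImplicit false

namespace Pool.Agent.H3.Amal

/-- a lattice-ordered group (not necessarily abelian) -/
structure LGrp where
  /-- carrier -/
  X : Type
  [grp : Group X]
  [lat : Lattice X]
  [left : MulLeftMono X]
  [right : MulRightMono X]

attribute [instance] LGrp.grp LGrp.lat LGrp.left LGrp.right

/-- injective group homomorphism preserving joins and meets -/
def IsEmb {G H : LGrp} (f : G.X → H.X) : Prop :=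
  Function.Injective f ∧ ∀ u v, f (u * v) = f u * f v ∧ f (u ⊔ v) = f u ⊔ f v ∧
    f (u ⊓ v) = f u ⊓ f v

/-- amalgamation base for the class of all lattice-ordered groups -/
def AmalBase (A : LGrp) : Prop :=
  ∀ (B C : LGrp) (f : A.X → B.X) (g : A.X → C.X), IsEmb f → IsEmb g →
    ∃ (D : LGrp) (f' : B.X → D.X) (g' : C.X → D.X), IsEmb f' ∧ IsEmb g' ∧ f' ∘ f = g' ∘ g

/-- an additive abelian lattice-ordered group, written multiplicatively, with the same lattice -/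
def ofAdd (M : Type) [AddCommGroup M] [Lattice M] [IsOrderedAddMonoid M] : LGrp where
  X := Multiplicative M
  lat := inferInstanceAs (Lattice M)
  left := ⟨fun a b c h => show a.toAdd + b.toAdd ≤ a.toAdd + c.toAdd from
    add_le_add_right (show b.toAdd ≤ c.toAdd from h) _⟩
  right := ⟨fun a b c h => show b.toAdd + a.toAdd ≤ c.toAdd + a.toAdd from
    add_le_add_left (show b.toAdd ≤ c.toAdd from h) _⟩

/-- bundled form -/
lemma IsEmb.hom {G : Type} [Group G] [Lattice G] [MulLeftMono G] [MulRightMono G] {H : LGrp}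
    {f : G → H.X} (h : IsEmb (G := ⟨G⟩) f) : ∃ F : G →* H.X, ⇑F = f ∧
    (∀ {u v}, u ≤ v → F u ≤ F v) ∧ (∀ {u}, 1 ≤ u → 1 ≤ F u) ∧
    (∀ {u v}, u ⊓ v = 1 → F u ⊓ F v = 1) ∧ ∀ {u}, 1 < u → 1 < F u := by
  let F : G →* H.X := MonoidHom.mk' f fun u v => (h.2 u v).1
  have m : ∀ {u v}, u ≤ v → F u ≤ F v := fun {u v} k =>
    sup_eq_right.1 (((h.2 u v).2.1).symm.trans (congrArg f (sup_eq_right.2 k)))
  have o : ∀ {u}, 1 ≤ u → 1 ≤ F u := fun k => (map_one F).ge.trans (m k)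
  exact ⟨F, rfl, m, o, fun {u v} k => ((h.2 u v).2.2).symm.trans ((congrArg f k).trans (map_one F)),
    fun k => lt_of_le_of_ne (o k.le) fun e => k.ne (h.1 ((map_one F).trans e))⟩

lemma pr {D : Type} [Group D] [Lattice D] [MulLeftMono D] [MulRightMono D] {p : D} (h : 1 < p) :
    ∃ R, Pr R ∧ ¬ R (p * 1) (1 : D) := by
  obtain ⟨R, a, b, c, d, -, e, f⟩ := EllP.exists_prime h
  exact ⟨R, ⟨a, b, c, d, e⟩, by rwa [mul_one]⟩

lemma od_1 : Od (1 : ℤ) := (od_coe 1).2 odd_one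
lemma lt_od {g : Au ℚ} (h : 1 < g) : 1 < on Od g := one_lt_on (S := Od) h od_1

lemma on_pow {Ω : Type} [LinearOrder Ω] {S U : Ω → Prop} {g h : Au ℚ} (a : ∀ t, S t → U t)
    (b : ∀ n : ℕ, g ^ n ≤ h) (n : ℕ) : on S g ^ n ≤ on U h := by
  have : on S (g ^ n) = on S g ^ n := map_pow (onH S) g n
  rw [← this]; exact on_le a (b n) (by simpa using b 0)
lemma on_inv {Ω : Type} [LinearOrder Ω] (S : Ω → Prop) (g : Au ℚ) : on S g⁻¹ = (on S g)⁻¹ :=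
  map_inv (onH S) g

section fin
variable {D : Type} [Group D] [Lattice D] [MulLeftMono D] [MulRightMono D]

omit [MulLeftMono D] in
lemma Pr.jump {R : D → D → Prop} (P : Pr R) {α β x p : D} (l : α ≤ x⁻¹ * β * x)
    (m : ¬ R (α * p) p) : ¬ R (β * (x * p)) (x * p) := fun q =>
  P.le l m ((P.inv x _ _).1 (by rwa [show x * (x⁻¹ * β * x * p) = β * (x * p) by group]))

lemma fin1 {α β c c' α0 y : D} (hc : 1 ≤ c) (hc' : 1 ≤ c') (hy : 1 ≤ y) (e1 : α ⊓ β = 1)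
    (e2 : c ⊓ β = 1) (e3 : c' ⊓ α = 1) (e4 : y ⊓ α0 = 1) (l2 : y⁻¹ * (y⁻¹ * β * y) * y ≤ β)
    (l3 : y⁻¹ * β * y ≤ α) (l4 : α0 ≤ α) (l5 : α ≤ (c' * c)⁻¹ * β * (c' * c)) (h : 1 < α0) :
    False := by
  obtain ⟨R, P, m⟩ := pr h
  exact P.core hc hc' hy e1 (inf_comm c β ▸ e2) (inf_comm c' α ▸ e3) (inf_comm y α0 ▸ e4) le_rfl l2
    (fun r => P.le l3) m (P.jump l5 (P.le l4 m))

lemma fin2 {a b α0 ρ γ δ y α β c c' z : D} (a1 : a = ρ * α0) (a2 : α0 ⊓ ρ = 1) (a3 : α0 ⊓ b = 1)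
    (a4 : 1 ≤ ρ) (b1 : a = δ * γ) (b2 : γ ⊓ δ = 1) (b3 : γ ⊓ b = 1) (b4 : 1 ≤ δ)
    (hy : 1 ≤ y) (e4 : y ⊓ α0 = 1) (l2 : y⁻¹ * (y⁻¹ * b * y) * y ≤ b) (l3 : y⁻¹ * b * y ≤ γ)
    (h : 1 < α0) (c0 : a = α * β) (hc : 1 ≤ c) (hc' : 1 ≤ c') (e1 : α ⊓ β = 1)
    (e2 : c ⊓ β = 1) (e3 : c' ⊓ α = 1) (l1 : b ≤ β) (z1 : 1 ≤ z) (z2 : z ≤ a)
    (cv : β ≤ (z * b * z⁻¹ * b) * (z * b * z⁻¹ * b)) (l5 : α ≤ (c' * c)⁻¹ * β * (c' * c))
    (z3 : (c' * c)⁻¹ * z * (c' * c) ≤ a) : False := by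
  obtain ⟨R, P, m⟩ := pr h
  have main : ∀ p, ¬ R (α0 * p) p → R (b * (c' * c * p)) (c' * c * p) := fun p m =>
    by_contra fun q => P.core hc hc' hy e1 (inf_comm c β ▸ e2) (inf_comm c' α ▸ e3)
      (inf_comm y α0 ▸ e4) l1 l2 (fun r k => P.toC b1 b2 b3 b4 z1 z2 c0 cv (P.le l3 k)) m q
  rcases P.cov cv (P.jump l5 (P.toC a1 a2 a3 a4 z1 z2 c0 cv m)) with q | q
  · exact q (main 1 m)
  · have := main _ (P.bump a1 a2 (by simpa [mul_assoc] using mul_le_mul_left z1 (c' * c)) z3 m)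
    rw [show c' * c * (((c' * c)⁻¹ * z * (c' * c))⁻¹ * 1) = z⁻¹ * (c' * c * 1) by group] at this
    exact q this
end fin

lemma n02 (s : ℚ) (a : s = 0) : ¬ s = 2 := fun b => by rw [a] at b; norm_num at b
lemma nbot (s : WithBot ℤ) (a : s = ⊥) : ¬ Od s := a ▸ od_bot

theorem q1 : ¬ AmalBase (ofAdd (ℤ × ℤ)) := by
  intro H
  obtain ⟨τ, b, -, hb, hn, -⟩ := exb
  have t : 1 < τ := hb.trans_le (by simpa using hn 1)
  obtain ⟨c, c', c1, c2, c3, c4, c5⟩ := exc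
  have d1 : on (fun t => ¬ Od t) τ ⊓ on Od τ = 1 := on_inf (fun _ a => a) t.le t.le
  obtain ⟨f, f1, f2, f3, f4⟩ :=
    emb1 (one_lt_on (S := fun t => ¬ Od t) (t := ⊥) t od_bot) (lt_od t) d1
  obtain ⟨g, g1, g2, g3, g4⟩ := emb1 (one_lt_on (S := fun s : ℚ => s = 0) t rfl)
    (one_lt_on (S := fun s : ℚ => s = 2) t rfl) (on_inf n02 t.le t.le)
  obtain ⟨D, f', g', hf, hg, e⟩ := H ⟨Au (WithBot ℤ ×ₗ ℚ)⟩ ⟨Au (ℚ ×ₗ ℚ)⟩ f g ⟨f1, f2⟩ ⟨g1, g2⟩
  obtain ⟨F, rfl, F1, F2, F3, F4⟩ := IsEmb.hom hf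
  obtain ⟨G, rfl, G1, G2, G3, G4⟩ := IsEmb.hom hg
  have ea : F (on (fun t => ¬ Od t) τ) = G (on (fun s => s = 0) τ) := by
    rw [← f3, ← g3]; exact congrFun e (Multiplicative.ofAdd (1, 0))
  have eb : F (on Od τ) = G (on (fun s => s = 2) τ) := by
    rw [← f4, ← g4]; exact congrFun e (Multiplicative.ofAdd (0, 1))
  refine fin1 (G2 (one_le_top c1)) (G2 (one_le_top c2)) (F2 (one_le_top one_le_sh)) (F3 d1) ?_ ?_
    (F3 (top_inf (S := fun s => s = ⊥) one_le_sh t.le fun _ a => a ▸ sh_bot)) ?_ ?_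
    (F1 (on_le nbot le_rfl t.le)) ?_ (F4 (one_lt_on (S := fun s => s = ⊥) t rfl))
  · rw [eb]; exact G3 (top_inf c1 t.le fun _ a => a ▸ c3)
  · rw [ea]; exact G3 (top_inf c2 t.le fun _ a => a ▸ c4)
  · simp only [← map_mul, ← map_inv]
    exact F1 (by rw [top_conj, top_conj]; exact on_le od2 le_rfl t.le)
  · simp only [← map_mul, ← map_inv]
    exact F1 (by rw [top_conj]; exact on_le od1 le_rfl t.le)
  · rw [ea, eb]
    simp only [← map_mul, ← map_inv]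
    exact G1 (by rw [← top_mul, top_conj]; exact on_le (fun _ a => a ▸ c5) le_rfl t.le)

theorem q2 : ¬ AmalBase (ofAdd (ℤ ×ₗ ℤ)) := by
  intro H
  obtain ⟨τ, b, h, hb, hn, hc, h1, h2, h3⟩ := exb
  have bt : b ≤ τ := by simpa using hn 1
  have t : 1 < τ := hb.trans_le bt
  obtain ⟨c, c', c1, c2, c3, c4, c5⟩ := exc
  obtain ⟨f, f1, f2, f3, f4⟩ := emb2 (a := on (fun _ => True) τ) (lt_od hb)
    (on_pow (fun _ _ => trivial) hn)
    (on_comm hc)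
  obtain ⟨g, g1, g2, g3, g4⟩ := emb2 (a := on (fun s : ℚ => s = 0 ∨ s = 2) τ)
    (one_lt_on (S := fun s : ℚ => s = 2) hb rfl)
    (on_pow (fun _ a => Or.inr a) hn)
    (on_comm hc)
  obtain ⟨D, f', g', hf, hg, e⟩ := H ⟨Au (WithBot ℤ ×ₗ ℚ)⟩ ⟨Au (ℚ ×ₗ ℚ)⟩ f g ⟨f1, f2⟩ ⟨g1, g2⟩
  obtain ⟨F, rfl, F1, F2, F3, F4⟩ := IsEmb.hom hf
  obtain ⟨G, rfl, G1, G2, G3, G4⟩ := IsEmb.hom hg
  have ea : F (on (fun _ => True) τ) = G (on (fun s => s = 0 ∨ s = 2) τ) := by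
    rw [← f3, ← g3]; exact congrFun e (Multiplicative.ofAdd (toLex (1, 0)))
  have eb : F (on Od b) = G (on (fun s => s = 2) b) := by
    rw [← f4, ← g4]; exact congrFun e (Multiplicative.ofAdd (toLex (0, 1)))
  have sp : ∀ S : WithBot ℤ → Prop, F (on (fun _ => True) τ) =
      F (on (fun s => ¬ S s) τ) * F (on S τ) := fun S => by
    rw [← map_mul, ← on_un (V := fun _ => True) τ (fun _ a => a) fun _ => by tauto]
  have ds : ∀ S : WithBot ℤ → Prop, F (on S τ) ⊓ F (on (fun s => ¬ S s) τ) = 1 := fun S =>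
    F3 (on_inf (fun _ a b => b a) t.le t.le)
  have inj : ∀ s : ℚ, (c' * c).v s = 2 → s = 0 ∨ s = 2 := fun s a =>
    Or.inl ((c' * c).v.injective (a.trans c5.symm))
  refine fin2 (b := F (on Od b)) (z := G (on (fun s => s = 2) h)) (sp fun s => s = ⊥) (ds _)
    (F3 (on_inf nbot t.le hb.le)) (F2 (one_le_on _ t.le)) (sp fun s => ¬ Od s) (ds _)
    (F3 (on_inf (fun _ a => a) t.le hb.le)) (F2 (one_le_on _ t.le)) (F2 (one_le_top one_le_sh))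
    (F3 (top_inf (S := fun s => s = ⊥) one_le_sh t.le fun _ a => a ▸ sh_bot)) ?_ ?_
    (F4 (one_lt_on (S := fun s => s = ⊥) t rfl)) ?_ (G2 (one_le_top c1)) (G2 (one_le_top c2))
    (G3 (on_inf n02 t.le t.le)) (G3 (top_inf c1 t.le fun _ a => a ▸ c3))
    (G3 (top_inf c2 t.le fun _ a => a ▸ c4)) ?_ (G2 (one_le_on _ h1)) ?_ ?_ ?_ ?_
  · simp only [← map_mul, ← map_inv]
    exact F1 (by rw [top_conj, top_conj]; exact on_le od2 le_rfl hb.le)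
  · simp only [← map_mul, ← map_inv]
    exact F1 (by rw [top_conj]; exact on_le od1 bt t.le)
  · rw [ea, ← map_mul, ← on_un τ n02 fun _ => Iff.rfl]
  · rw [eb]; exact G1 (on_le (fun _ a => a) bt t.le)
  · rw [ea]; exact G1 (on_le (fun _ a => Or.inr a) h2 t.le)
  · rw [eb]
    simp only [← map_mul, ← map_inv]
    refine G1 ((on_le (fun _ a => a) h3 (t.le.trans h3)).trans_eq ?_)
    simp only [on_mul, on_inv]
  · simp only [← map_mul, ← map_inv]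
    exact G1 (by rw [← top_mul, top_conj]; exact on_le (fun _ a => a ▸ c5) le_rfl t.le)
  · rw [ea]
    simp only [← map_mul, ← map_inv]
    exact G1 (by rw [← top_mul, top_conj]; exact on_le inj h2 t.le)

end Pool.Agent.H3.Amal
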