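import Mathlib

open AddMonoidAlgebra

namespace Pool.Agent.H3.Bo

variable {G : Type} [AddCommGroup G] [LinearOrder G] [IsOrderedAddMonoid G]

def NN (f : AddMonoidAlgebra ℝ G) : Prop := ∀ x, 0 ≤ f.coeff x
def Ge (a : G) (f : AddMonoidAlgebra ℝ G) : Prop := ∀ x, x < a → f.coeff x = 0
def Gt (a : G) (f : AddMonoidAlgebra ℝ G) : Prop := ∀ x, x ≤ a → f.coeff x = 0

lemma cs (u x : G) (t : ℝ) : (single u t : AddMonoidAlgebra ℝ G).coeff x = if u = x then t else 0 := by
  rw [coeff_single, Finsupp.single_apply]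

lemma c1 (x : G) : (1 : AddMonoidAlgebra ℝ G).coeff x = if 0 = x then 1 else 0 := by
  rw [one_def, cs]

lemma ca (f g : AddMonoidAlgebra ℝ G) (x : G) : (f + g).coeff x = f.coeff x + g.coeff x := rfl

lemma NN.add {f g : AddMonoidAlgebra ℝ G} (hf : NN f) (hg : NN g) : NN (f + g) :=
  fun x => add_nonneg (hf x) (hg x)

lemma NN.mul {f g : AddMonoidAlgebra ℝ G} (hf : NN f) (hg : NN g) : NN (f * g) := by
  intro x
  rw [coeff_mul_apply_right]
  exact Finset.sum_nonneg fun z _ => mul_nonneg (hf _) (hg _)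

lemma NN_single (u : G) {t : ℝ} (ht : 0 ≤ t) : NN (single u t) := by
  intro x; rw [cs]; split_ifs; exacts [ht, le_rfl]

lemma NN_one : NN (1 : AddMonoidAlgebra ℝ G) := NN_single 0 zero_le_one

lemma Ge.mul {a b : G} {f g : AddMonoidAlgebra ℝ G} (hf : Ge a f) (hg : Gt b g) :
    Gt (a + b) (f * g) := by
  intro x hx
  rw [coeff_mul_apply_right, Finsupp.sum]
  refine Finset.sum_eq_zero fun z _ => ?_
  by_cases hz : z ≤ b
  · rw [hg z hz, mul_zero]
  · rw [hf _ ?_, zero_mul]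
    rw [← sub_eq_add_neg, sub_lt_iff_lt_add]
    exact hx.trans_lt (add_lt_add_right (not_le.1 hz) a)

lemma coefA {f g : AddMonoidAlgebra ℝ G} {u : G} (hf : Ge 0 f)
    (hg : ∀ z, z ≤ u → z ≠ 0 → g.coeff z = 0) : (f * g).coeff u = f.coeff u * g.coeff 0 := by
  rw [coeff_mul_apply_right, Finsupp.sum, Finset.sum_eq_single 0]
  · simp
  · intro z _ h0
    by_cases hz : z ≤ u
    · rw [hg z hz h0, mul_zero]
    · rw [hf _ ?_, zero_mul]
      rw [← sub_eq_add_neg, sub_neg]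
      exact not_le.1 hz
  · intro h
    rw [Finsupp.notMem_support_iff.1 h, mul_zero]

structure Good (Ψ : AddMonoidAlgebra ℝ G → AddMonoidAlgebra ℝ G) : Prop where
  nn : ∀ f, NN f → f ≠ 0 → NN (Ψ f)
  supp : ∀ f, NN f → f ≠ 0 → ∀ x, (Ψ f).coeff x = 0 ↔ f.coeff x = 0
  mul : ∀ f g, NN f → f ≠ 0 → NN g → g ≠ 0 → Ψ (f * g) = Ψ f * Ψ g

variable {Ψ : AddMonoidAlgebra ℝ G → AddMonoidAlgebra ℝ G}

lemma ne0 {f : AddMonoidAlgebra ℝ G} {x : G} (h : f.coeff x ≠ 0) : f ≠ 0 := by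
  rintro rfl; simp at h

noncomputable def ph (Ψ : AddMonoidAlgebra ℝ G → AddMonoidAlgebra ℝ G) (u : G) (t : ℝ) : ℝ :=
  (Ψ (1 + single u t)).coeff u / (Ψ (1 + single u t)).coeff 0

lemma two (H : Good Ψ) {u : G} (hu : 0 < u) {t : ℝ} (ht : 0 < t) :
    NN (1 + single u t) ∧ (1 + single u t : AddMonoidAlgebra ℝ G) ≠ 0 ∧ 0 < ph Ψ u t ∧
    ∃ a : ℝ, 0 < a ∧ Ψ (1 + single u t) = single 0 a + single u (a * ph Ψ u t) := by
  have h1 : NN (1 + single u t) := NN_one.add (NN_single u ht.le)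
  have e0 : (1 + single u t : AddMonoidAlgebra ℝ G).coeff 0 ≠ 0 := by
    rw [ca, c1, cs, if_pos rfl, if_neg hu.ne']; simp
  have eu : (1 + single u t : AddMonoidAlgebra ℝ G).coeff u ≠ 0 := by
    rw [ca, c1, cs, if_pos rfl, if_neg hu.ne]; simpa using ht.ne'
  have h2 := ne0 e0
  have a0 := lt_of_le_of_ne (H.nn _ h1 h2 0) (Ne.symm (mt (H.supp _ h1 h2 0).1 e0))
  have au := lt_of_le_of_ne (H.nn _ h1 h2 u) (Ne.symm (mt (H.supp _ h1 h2 u).1 eu))
  refine ⟨h1, h2, div_pos au a0, _, a0, ?_⟩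
  ext x
  rw [ca, cs, cs]
  by_cases h0 : 0 = x
  · subst h0; rw [if_pos rfl, if_neg hu.ne', add_zero]
  by_cases hx : u = x
  · subst hx; rw [if_neg h0, if_pos rfl, ph, zero_add]; field_simp
  rw [if_neg h0, if_neg hx, add_zero, H.supp _ h1 h2, ca, c1, cs, if_neg h0, if_neg hx, add_zero]

theorem key (H : Good Ψ) {A : AddMonoidAlgebra ℝ G} (hA : NN A) (h0 : A.coeff 0 = 1) (hg : Ge 0 A)
    {u : G} (hu : 0 < u) (ht : 0 < A.coeff u) :
    (Ψ A).coeff u = ph Ψ u (A.coeff u) * (Ψ A).coeff 0 := by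
  set t := A.coeff u with htd
  set X : AddMonoidAlgebra ℝ G := single u t with hX
  set B := A - 1 - X with hB
  have cB : ∀ x, B.coeff x = A.coeff x - (if 0 = x then 1 else 0) - (if u = x then t else 0) := by
    intro x; rw [← c1, ← cs]; rfl
  have nB : NN B := by
    intro x; rw [cB]
    by_cases h : 0 = x
    · subst h; rw [if_pos rfl, if_neg hu.ne', h0]; simp
    by_cases h' : u = x
    · subst h'; rw [if_neg h, if_pos rfl]; simp [htd]
    · rw [if_neg h, if_neg h']; simpa using hA x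
  have gB : Gt 0 B := by
    intro x hx; rw [cB, if_neg (hx.trans_lt hu).ne']
    rcases hx.eq_or_lt with h | h
    · rw [h, if_pos rfl, h0]; simp
    · rw [hg x h, if_neg h.ne']; simp
  have uB : B.coeff u = 0 := by rw [cB, if_neg hu.ne, if_pos rfl]; simp [htd]
  have nX : NN X := NN_single u ht.le
  have eX : Ge u X := fun x hx => by rw [hX, cs, if_neg hx.ne']
  have eX0 : Ge 0 X := fun x hx => eX x (hx.trans hu)
  have gS : Gt 0 (X + B) := fun x hx => by rw [ca, gB x hx, eX x (hx.trans_lt hu), add_zero]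
  have g1 : Gt u (X * B) := by simpa using eX.mul gB
  have g2 : Gt u (X * (X * (X + B))) := by
    simpa using eX.mul (show Gt 0 (X * (X + B)) by simpa using eX0.mul gS)
  have g3 : Gt u (X * ((X + B) * (X + B))) := by
    simpa using eX.mul (show Gt 0 ((X + B) * (X + B)) by
      simpa using Ge.mul (a := 0) (fun x hx => gS x hx.le) gS)
  set ν := 1 + X * B + X * (X * (X + B)) with hν
  set μ := 1 + B + X * ((X + B) * (X + B)) with hμ
  have nν : NN ν := (NN_one.add (nX.mul nB)).add (nX.mul (nX.mul (nX.add nB)))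
  have nμ : NN μ := (NN_one.add nB).add (nX.mul ((nX.add nB).mul (nX.add nB)))
  have ν0 : ν.coeff 0 ≠ 0 := by
    rw [hν, ca, ca, g1 0 hu.le, g2 0 hu.le, c1]; simp
  have μ0 : μ.coeff 0 ≠ 0 := by
    rw [hμ, ca, ca, gB 0 le_rfl, g3 0 hu.le, c1]; simp
  have νz : ∀ z, z ≤ u → z ≠ 0 → (Ψ ν).coeff z = 0 := by
    intro z hz hz0
    rw [H.supp _ nν (ne0 ν0), hν, ca, ca, g1 z hz, g2 z hz, c1, if_neg hz0.symm]; simp
  have μu : (Ψ μ).coeff u = 0 := by
    rw [H.supp _ nμ (ne0 μ0), hμ, ca, ca, uB, g3 u le_rfl, c1, if_neg hu.ne]; simp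
  have μn : (Ψ μ).coeff (-u) = 0 := by
    have := neg_lt_zero.2 hu
    rw [H.supp _ nμ (ne0 μ0), hμ, ca, ca, gB _ this.le, g3 _ (this.trans hu).le, c1,
      if_neg this.ne']; simp
  have A0 : A ≠ 0 := ne0 (by rw [h0]; simp)
  have gA : Ge 0 (Ψ A) := fun x hx => (H.supp _ hA A0 x).2 (hg x hx)
  obtain ⟨n1, n2, -, a, ha, e⟩ := two H hu ht
  have rel : A * ν = (1 + X) * μ := by
    have : A = 1 + X + B := by rw [hB]; ring
    rw [hν, hμ]; nth_rewrite 1 [this]; ring
  have rel' := congrArg Ψ rel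
  rw [H.mul _ _ hA A0 nν (ne0 ν0), H.mul _ _ n1 n2 nμ (ne0 μ0), e, add_mul] at rel'
  have r1 := congrArg (fun f => f.coeff u) rel'
  have r2 := congrArg (fun f => f.coeff 0) rel'
  simp only [ca, coeff_single_mul_apply, neg_zero, zero_add, neg_add_cancel, add_zero] at r1 r2
  rw [coefA gA νz, μu] at r1
  rw [coefA gA (fun z hz => νz z (hz.trans hu.le)), μn] at r2
  have := mt (H.supp _ nν (ne0 ν0) 0).1 ν0
  apply mul_right_cancel₀ this
  linear_combination r1 - ph Ψ u t * r2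

lemma pair (H : Good Ψ) {v w z : G} (hv : 0 < v) (hw : 0 < w) (hz : 0 < z) {s t : ℝ} (hs : 0 < s)
    (ht : 0 < t) {c : ℝ} (hc : 0 < c) (e : (if w = z then t else 0) + (if v = z then s else 0)
      + (if v + w = z then s * t else 0) = c) :
    ph Ψ z c = (if w = z then ph Ψ w t else 0) + (if v = z then ph Ψ v s else 0)
      + (if v + w = z then ph Ψ v s * ph Ψ w t else 0) := by
  obtain ⟨n1, n2, -, a, ha, e1⟩ := two H hv hs
  obtain ⟨m1, m2, -, b, hb, e2⟩ := two H hw ht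
  have hvw := add_pos hv hw
  have cA : ∀ x, ((1 + single v s) * (1 + single w t) : AddMonoidAlgebra ℝ G).coeff x
      = (if 0 = x then 1 else 0) + (if w = x then t else 0) + (if v = x then s else 0)
      + (if v + w = x then s * t else 0) := by
    intro x
    rw [add_mul, mul_add, mul_add, one_mul, one_mul, mul_one, single_mul_single, ca, ca, ca, c1,
      cs, cs, cs]
    ring
  have cz : ((1 + single v s) * (1 + single w t) : AddMonoidAlgebra ℝ G).coeff z = c := by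
    rw [cA, if_neg hz.ne, zero_add, e]
  have k := key H (n1.mul m1)
    (by rw [cA, if_pos rfl, if_neg hv.ne', if_neg hw.ne', if_neg hvw.ne']; simp)
    (fun x hx => by
      rw [cA, if_neg hx.ne', if_neg (hx.trans hv).ne', if_neg (hx.trans hw).ne',
        if_neg (hx.trans hvw).ne']; simp) hz (by rw [cz]; exact hc)
  rw [cz, H.mul _ _ n1 n2 m1 m2, e1, e2] at k
  simp only [add_mul, mul_add, single_mul_single, ca, cs, zero_add, add_zero, if_neg hz.ne,
    if_neg hv.ne', if_neg hw.ne', if_neg hvw.ne', if_true] at k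
  apply mul_right_cancel₀ (mul_pos ha hb).ne'
  rw [← k]
  split_ifs <;> ring

lemma ph_add (H : Good Ψ) {u : G} (hu : 0 < u) {s t : ℝ} (hs : 0 < s) (ht : 0 < t) :
    ph Ψ u (t + s) = ph Ψ u t + ph Ψ u s := by
  have h : u + u ≠ u := by simpa using hu.ne'
  simpa [h] using pair H hu hu hu hs ht (add_pos ht hs) (by simp [h])

lemma ph_mul (H : Good Ψ) {v w : G} (hv : 0 < v) (hw : 0 < w) :
    ph Ψ (v + w) 1 = ph Ψ v 1 * ph Ψ w 1 := by
  have h1 : v ≠ v + w := by simpa using hw.ne'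
  have h2 : w ≠ v + w := by simpa using hv.ne'
  simpa [h1, h2] using pair H hv hw (add_pos hv hw) one_pos one_pos one_pos (by simp [h1, h2])

/-- a function additive on the positive cone extends to a homomorphism -/
lemma ext_hom {K : Type} [AddCommGroup K] [LinearOrder K] [IsOrderedAddMonoid K] (f : K → ℝ)
    (h : ∀ x y, 0 < x → 0 < y → f (x + y) = f x + f y) : ∃ F : K →+ ℝ, ∀ x, 0 < x → F x = f x := by
  by_cases he : ∃ e : K, 0 < e
  swap
  · exact ⟨0, fun x hx => absurd ⟨x, hx⟩ he⟩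
  obtain ⟨e, he⟩ := he
  have p1 : ∀ x : K, 0 < |x| + e := fun x => add_pos_of_nonneg_of_pos (abs_nonneg x) he
  have p2 : ∀ x : K, 0 < x + (|x| + e) := fun x => by
    rw [← add_assoc]
    exact add_pos_of_nonneg_of_pos (neg_le_iff_add_nonneg'.1 (neg_le_abs x)) he
  have ind : ∀ x n : K, 0 < n → 0 < x + n →
      f (x + (|x| + e)) - f (|x| + e) = f (x + n) - f n := by
    intro x n hn hxn
    have e1 := h _ _ (p2 x) hn
    have e2 := h _ _ hxn (p1 x)
    rw [show x + (|x| + e) + n = x + n + (|x| + e) by abel] at e1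
    linarith
  refine ⟨AddMonoidHom.mk' (fun x => f (x + (|x| + e)) - f (|x| + e)) fun x y => ?_, fun x hx => ?_⟩
  · have e0 : x + y + ((|x| + e) + (|y| + e)) = (x + (|x| + e)) + (y + (|y| + e)) := by abel
    rw [ind (x + y) _ (add_pos (p1 x) (p1 y)) (e0 ▸ add_pos (p2 x) (p2 y)), e0,
      h _ _ (p2 x) (p2 y), h _ _ (p1 x) (p1 y)]
    ring
  · change f (x + (|x| + e)) - f (|x| + e) = f x
    rw [h _ _ hx (p1 x)]; ring

lemma ph_lin (H : Good Ψ) {u : G} (hu : 0 < u) {t : ℝ} (ht : 0 < t) : ph Ψ u t = t * ph Ψ u 1 := by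
  obtain ⟨F, hF⟩ := ext_hom (ph Ψ u) fun x y hx hy => ph_add H hu hy hx
  have mono : Monotone F := by
    refine (monotone_iff_map_nonneg F).2 fun x hx => ?_
    rcases hx.eq_or_lt with rfl | hx
    · simp
    · rw [hF x hx]; exact (two H hu hx).2.2.1.le
  have c : Continuous F := by
    refine F.continuous_of_isBounded_nhds_zero (s := Set.Icc (-1) 1)
      (Icc_mem_nhds (by norm_num) (by norm_num))
      ((Metric.isBounded_Icc (F (-1)) (F 1)).subset ?_)
    rintro _ ⟨x, hx, rfl⟩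
    exact ⟨mono hx.1, mono hx.2⟩
  have := map_real_smul F c t 1
  rw [smul_eq_mul, mul_one, smul_eq_mul, hF t ht, hF 1 one_pos] at this
  exact this

theorem main (H : Good Ψ) : ∃ F : G →+ ℝ, ∀ A, NN A → A.coeff 0 = 1 → Ge 0 A → ∀ x,
    (Ψ A).coeff x = A.coeff x * Real.exp (F x) * (Ψ A).coeff 0 := by
  obtain ⟨F, hF⟩ := ext_hom (fun u : G => Real.log (ph Ψ u 1)) fun x y hx hy => by
    simp only [ph_mul H hx hy]
    exact Real.log_mul (two H hx one_pos).2.2.1.ne' (two H hy one_pos).2.2.1.ne'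
  refine ⟨F, fun A hA h0 hg x => ?_⟩
  have A0 : A ≠ 0 := ne0 (by rw [h0]; simp)
  rcases (hA x).eq_or_lt with h | h
  · rw [(H.supp A hA A0 x).2 h.symm, ← h]; simp
  rcases lt_trichotomy x 0 with hx | rfl | hx
  · exact absurd (hg x hx) h.ne'
  · simp [h0]
  · rw [key H hA h0 hg hx h, ph_lin H hx h, hF x hx, Real.exp_log (two H hx one_pos).2.2.1]

end Pool.Agent.H3.Bo
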