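import Mathlib

open Complex Metric Filter Topology
open scoped ComplexConjugate InnerProductSpace ENNReal

namespace Pool.Agent.H3.Cc

/-- power series with coefficients `a` -/
noncomputable def ps (a : ℕ → ℂ) (z : ℂ) : ℂ := ∑' k, a k * z ^ k

lemma term_le {a : ℕ → ℂ} {C R : ℝ} (hR : 0 < R) (h : ∀ k, ‖a k‖ * R ^ k ≤ C) {z : ℂ} {r : ℝ}
    (hz : ‖z‖ ≤ r) (k : ℕ) : ‖a k * z ^ k‖ ≤ C * (r / R) ^ k := by
  rw [norm_mul, norm_pow, div_pow]
  have h1 : ‖z‖ ^ k ≤ r ^ k := pow_le_pow_left₀ (norm_nonneg _) hz k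
  have h2 : 0 < R ^ k := pow_pos hR k
  have h3 : 0 ≤ r ^ k := le_trans (by positivity) h1
  calc ‖a k‖ * ‖z‖ ^ k ≤ ‖a k‖ * r ^ k := by gcongr
    _ = (‖a k‖ * R ^ k) * (r ^ k / R ^ k) := by field_simp
    _ ≤ C * (r ^ k / R ^ k) := by gcongr; exact h k

lemma ps_summable {a : ℕ → ℂ} {C R : ℝ} (hR : 0 < R) (h : ∀ k, ‖a k‖ * R ^ k ≤ C) {z : ℂ}
    (hz : ‖z‖ < R) : Summable fun k => a k * z ^ k := by
  refine Summable.of_norm_bounded (g := fun k => C * (‖z‖ / R) ^ k) ?_ (term_le hR h le_rfl)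
  exact (summable_geometric_of_lt_one (by positivity) ((div_lt_one hR).2 hz)).mul_left _

lemma ps_norm {a : ℕ → ℂ} {C R : ℝ} (hR : 0 < R) (h : ∀ k, ‖a k‖ * R ^ k ≤ C) {z : ℂ} {r : ℝ}
    (hz : ‖z‖ ≤ r) (hr : r < R) : ‖ps a z‖ ≤ C * (1 - r / R)⁻¹ := by
  have h0 : 0 ≤ r / R := div_nonneg (le_trans (norm_nonneg _) hz) hR.le
  have hs := (hasSum_geometric_of_lt_one h0 ((div_lt_one hR).2 hr)).mul_left C
  exact tsum_of_norm_bounded hs (term_le hR h hz)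

lemma ps_diff {a : ℕ → ℂ} {C R : ℝ} (hR : 0 < R) (h : ∀ k, ‖a k‖ * R ^ k ≤ C) {z : ℂ}
    (hz : ‖z‖ < R) : DifferentiableAt ℂ (ps a) z := by
  obtain ⟨r, hr1, hr2⟩ := exists_between hz
  have h0 : 0 ≤ r / R := div_nonneg (le_trans (norm_nonneg _) hr1.le) hR.le
  have : DifferentiableOn ℂ (ps a) (ball 0 r) := by
    refine differentiableOn_tsum_of_summable_norm (u := fun k => C * (r / R) ^ k)
      ((summable_geometric_of_lt_one h0 ((div_lt_one hR).2 hr2)).mul_left _)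
      (fun k => by fun_prop) isOpen_ball ?_
    intro k w hw
    exact term_le hR h (mem_ball_zero_iff.1 hw).le k
  exact this.differentiableAt (isOpen_ball.mem_nhds (mem_ball_zero_iff.2 hr1))

lemma ps_conj (a : ℕ → ℂ) (z : ℂ) : conj (ps a z) = ps (fun k => conj (a k)) (conj z) := by
  unfold ps
  rw [Complex.conj_tsum]
  simp

lemma ps_zero (a : ℕ → ℂ) : ps a 0 = a 0 := by
  unfold ps
  rw [tsum_eq_single 0]
  · simp
  · intro k hk; simp [hk]

lemma ps_unique (n : ℕ) : ∀ (a : ℕ → ℂ) (C : ℝ), (∀ k, ‖a k‖ * 1 ^ k ≤ C) →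
    (∀ᶠ z in 𝓝[≠] (0 : ℂ), ps a z = 0) → a n = 0 := by
  have base : ∀ (a : ℕ → ℂ) (C : ℝ), (∀ k, ‖a k‖ * 1 ^ k ≤ C) →
      (∀ᶠ z in 𝓝[≠] (0 : ℂ), ps a z = 0) → a 0 = 0 := by
    intro a C h hz
    have hc : ContinuousAt (ps a) 0 := (ps_diff one_pos h (by simp)).continuousAt
    have h1 : Tendsto (ps a) (𝓝[≠] 0) (𝓝 (ps a 0)) := hc.tendsto.mono_left nhdsWithin_le_nhds
    have h2 : Tendsto (ps a) (𝓝[≠] 0) (𝓝 0) :=
      tendsto_const_nhds.congr' (hz.mono fun z h => h.symm)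
    rw [← ps_zero a]
    exact tendsto_nhds_unique h1 h2
  induction n with
  | zero => exact base
  | succ n ih =>
    intro a C h hz
    have h0 := base a C h hz
    refine ih (fun k => a (k + 1)) C (fun k => by simpa using h (k + 1)) ?_
    have hb : ∀ᶠ z in 𝓝[≠] (0 : ℂ), ‖z‖ < 1 :=
      mem_nhdsWithin_of_mem_nhds (Filter.mem_of_superset (ball_mem_nhds (0 : ℂ) one_pos)
        fun z hz => mem_ball_zero_iff.1 hz)
    filter_upwards [hz, hb, self_mem_nhdsWithin] with z h1 h2 h3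
    have hs := ps_summable one_pos h h2
    unfold ps at h1 ⊢
    rw [hs.tsum_eq_zero_add, h0] at h1
    have : ∑' k, a (k + 1) * z ^ (k + 1) = z * ∑' k, a (k + 1) * z ^ k := by
      rw [← tsum_mul_left]; congr 1; funext k; ring
    rw [this] at h1
    simpa [show z ≠ 0 from h3] using h1

noncomputable abbrev H := lp (fun _ : ℕ => ℂ) 2

lemma mem2 {f : ℕ → ℂ} (h : Summable fun k => ‖f k‖ ^ 2) : Memℓp f 2 := by
  rw [memℓp_gen_iff (by norm_num)]
  simpa using h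

lemma sum2 (y : H) : HasSum (fun k => ‖y k‖ ^ 2) (‖y‖ ^ 2) := by
  simpa using lp.hasSum_norm (p := 2) (by norm_num) y

lemma coef_le (y : H) (k : ℕ) : ‖y k‖ * 1 ^ k ≤ ‖y‖ := by
  simpa using lp.norm_apply_le_norm (by norm_num) y k

/-- shift on sequences -/
def shf (f : ℕ → ℂ) : ℕ → ℂ
  | 0 => 0
  | k + 1 => f k

lemma shf_sum (y : H) : HasSum (fun k => ‖shf y k‖ ^ 2) (‖y‖ ^ 2) := by
  rw [← hasSum_nat_add_iff' 1]
  simpa [shf] using sum2 y

noncomputable def ShL : H →ₗ[ℂ] H where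
  toFun y := ⟨shf y, mem2 (shf_sum y).summable⟩
  map_add' y z := by
    ext k
    cases k <;> simp [shf]
  map_smul' c y := by
    ext k
    cases k <;> simp [shf]

lemma ShL_norm (y : H) : ‖ShL y‖ = ‖y‖ := by
  have h := (sum2 (ShL y)).unique (shf_sum y)
  exact (pow_left_inj₀ (norm_nonneg _) (norm_nonneg _) two_ne_zero).1 h

/-- the unilateral shift -/
noncomputable def Sh : H →L[ℂ] H := ShL.mkContinuous 1 fun y => by simp [ShL_norm]

lemma Sh_zero (y : H) : Sh y 0 = 0 := rfl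
lemma Sh_succ (y : H) (k : ℕ) : Sh y (k + 1) = y k := rfl
lemma Sh_norm : ‖Sh‖ ≤ 1 := LinearMap.mkContinuous_norm_le _ zero_le_one _

lemma geo_sum {z : ℂ} (hz : ‖z‖ < 1) :
    HasSum (fun k : ℕ => ‖z ^ k‖ ^ 2) (1 - ‖z‖ ^ 2)⁻¹ := by
  have h := hasSum_geometric_of_lt_one (r := ‖z‖ ^ 2) (by positivity)
    (by nlinarith [norm_nonneg z])
  have e : (fun k : ℕ => ‖z ^ k‖ ^ 2) = fun k => (‖z‖ ^ 2) ^ k := by
    funext k; rw [norm_pow, ← pow_mul, ← pow_mul, mul_comm]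
  rw [e]; exact h

open Classical in
/-- the vector with entries `z ^ k` -/
noncomputable def K (z : ℂ) : H :=
  if h : ‖z‖ < 1 then ⟨fun k => z ^ k, mem2 (geo_sum h).summable⟩ else 0

lemma K_apply {z : ℂ} (hz : ‖z‖ < 1) (k : ℕ) : K z k = z ^ k := by
  unfold K; rw [dif_pos hz]

lemma K_norm {z : ℂ} (hz : ‖z‖ < 1) : ‖K z‖ ^ 2 = (1 - ‖z‖ ^ 2)⁻¹ := by
  refine (sum2 (K z)).unique ?_
  simp only [K_apply hz]
  exact geo_sum hz

lemma inner_K (g : H) {z : ℂ} (hz : ‖z‖ < 1) :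
    ⟪g, K z⟫_ℂ = ps (fun k => conj (g k)) z := by
  rw [lp.inner_eq_tsum]
  unfold ps
  congr 1; funext k
  simp [K_apply hz, mul_comm]

lemma K_inner (y : H) {z : ℂ} (hz : ‖z‖ < 1) : ⟪K (conj z), y⟫_ℂ = ps y z := by
  rw [lp.inner_eq_tsum]
  unfold ps
  congr 1; funext k
  have : ‖conj z‖ < 1 := by simpa using hz
  simp [K_apply this]

lemma ps_cs (y : H) {z : ℂ} (hz : ‖z‖ < 1) : ‖ps y z‖ ^ 2 * (1 - ‖z‖ ^ 2) ≤ ‖y‖ ^ 2 := by
  have hz' : ‖conj z‖ < 1 := by simpa using hz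
  have h1 := norm_inner_le_norm (𝕜 := ℂ) (K (conj z)) y
  rw [K_inner y hz] at h1
  have h2 := K_norm hz'
  rw [RCLike.norm_conj] at h2
  have h3 : 0 < 1 - ‖z‖ ^ 2 := by nlinarith [norm_nonneg z]
  have h4 : ‖ps y z‖ ^ 2 ≤ ‖K (conj z)‖ ^ 2 * ‖y‖ ^ 2 := by
    rw [← mul_pow]; exact pow_le_pow_left₀ (norm_nonneg _) h1 2
  rw [h2] at h4
  calc _ ≤ (1 - ‖z‖ ^ 2)⁻¹ * ‖y‖ ^ 2 * (1 - ‖z‖ ^ 2) := by gcongr
    _ = _ := by field_simp

lemma ps_Sh (y : H) {z : ℂ} (hz : ‖z‖ < 1) : ps (Sh y) z = z * ps y z := by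
  have hs := ps_summable one_pos (coef_le (Sh y)) hz
  unfold ps
  rw [hs.tsum_eq_zero_add, ← tsum_mul_left]
  simp only [Sh_zero, Sh_succ, zero_mul, zero_add]
  congr 1; funext k; ring

/-- the operator `8 + i + shift` -/
noncomputable def A : H →L[ℂ] H := (8 + I : ℂ) • (1 : H →L[ℂ] H) + Sh

lemma A_apply (y : H) : A y = (8 + I : ℂ) • y + Sh y := rfl

lemma ps_A (y : H) {z : ℂ} (hz : ‖z‖ < 1) : ps (A y) z = (8 + I + z) * ps y z := by
  rw [← K_inner _ hz, A_apply, inner_add_right, inner_smul_right, K_inner _ hz, K_inner _ hz,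
    ps_Sh _ hz]
  ring

lemma ps_Apow (y : H) {z : ℂ} (hz : ‖z‖ < 1) (n : ℕ) :
    ps ((A ^ n) y) z = (8 + I + z) ^ n * ps y z := by
  induction n with
  | zero => simp
  | succ n ih =>
    rw [pow_succ', ContinuousLinearMap.mul_apply, ps_A _ hz, ih]; ring

lemma ps_e0 (z : ℂ) : ps (K 0) z = 1 := by
  unfold ps
  rw [tsum_eq_single 0]
  · simp [K_apply]
  · intro k hk; simp [K_apply, hk]

/-- convex-cyclic operators -/
def CC {E : Type*} [NormedAddCommGroup E] [InnerProductSpace ℂ E] (T : E →L[ℂ] E) : Prop :=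
  ∃ x : E, Dense (convexHull ℝ (Set.range fun n : ℕ => (T ^ n) x))

lemma half {s : Set H} (hs : Dense (convexHull ℝ s)) (L : H →L[ℂ] ℂ) (C : ℝ)
    (h : ∀ y ∈ s, -C ≤ (L y).re) (y : H) : (L y).re = 0 := by
  have hc : Convex ℝ {y : H | -C ≤ (L y).re} := by
    intro a ha b hb p q hp hq hpq
    simp only [Set.mem_setOf_eq] at ha hb ⊢
    rw [map_add, ContinuousLinearMap.map_smul_of_tower, ContinuousLinearMap.map_smul_of_tower]
    simp only [add_re, real_smul, re_ofReal_mul]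
    have e : -C = p * -C + q * -C := by rw [← add_mul, hpq, one_mul]
    linarith [mul_le_mul_of_nonneg_left ha hp, mul_le_mul_of_nonneg_left hb hq]
  have hcl : IsClosed {y : H | -C ≤ (L y).re} :=
    isClosed_le continuous_const (by fun_prop)
  have hall : ∀ w : H, -C ≤ (L w).re := by
    intro w
    have := closure_minimal (convexHull_min (fun y hy => h y hy) hc) hcl
    exact this (hs w)
  by_contra hne
  have := hall ((((-(|C| + 1)) / (L y).re : ℝ) : ℂ) • y)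
  rw [map_smul, smul_eq_mul, re_ofReal_mul, div_mul_cancel₀ _ hne] at this
  linarith [le_abs_self C]

end Pool.Agent.H3.Cc
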