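import Pool.Agent.H3.CcA

open Complex Metric Filter Topology
open scoped ComplexConjugate InnerProductSpace ENNReal

namespace Pool.Agent.H3.Cc

noncomputable def T : H →L[ℂ] H := -A

lemma T_norm (y : H) : ‖T y‖ ≤ 10 * ‖y‖ := by
  have h1 : ‖(8 + I : ℂ)‖ ≤ 9 := by
    calc _ ≤ ‖(8 : ℂ)‖ + ‖I‖ := norm_add_le _ _
      _ = 9 := by simp; norm_num
  have h2 : ‖Sh y‖ = ‖y‖ := ShL_norm y
  calc ‖T y‖ = ‖(8 + I : ℂ) • y + Sh y‖ := by
        rw [T, ContinuousLinearMap.neg_apply, norm_neg, A_apply]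
    _ ≤ ‖(8 + I : ℂ)‖ * ‖y‖ + ‖y‖ := by
        refine (norm_add_le _ _).trans ?_
        rw [norm_smul, h2]
    _ ≤ 9 * ‖y‖ + ‖y‖ := by gcongr
    _ = _ := by ring

noncomputable def U (y : H) : H := (5 : ℂ) • y + T y

lemma U_norm (y : H) : ‖U y‖ ≤ 6 * ‖y‖ := by
  have h1 : ‖(-3 - I : ℂ)‖ ≤ 4 := by
    calc _ ≤ ‖(-3 : ℂ)‖ + ‖I‖ := norm_sub_le _ _
      _ = 4 := by simp; norm_num
  have h2 : ‖Sh y‖ = ‖y‖ := ShL_norm y
  have e : U y = (-3 - I : ℂ) • y - Sh y := by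
    rw [U, T, ContinuousLinearMap.neg_apply, A_apply]; module
  calc ‖U y‖ ≤ ‖(-3 - I : ℂ)‖ * ‖y‖ + ‖y‖ := by
        rw [e]
        refine (norm_sub_le _ _).trans ?_
        rw [norm_smul, h2]
    _ ≤ 4 * ‖y‖ + ‖y‖ := by gcongr
    _ ≤ _ := by linarith [norm_nonneg y]

lemma K0_norm : ‖K 0‖ = 1 := by
  have := K_norm (z := 0) (by simp)
  simp only [norm_zero, ne_eq, OfNat.ofNat_ne_zero, not_false_eq_true, zero_pow, sub_zero,
    inv_one] at this
  exact (pow_eq_one_iff_of_nonneg (norm_nonneg _) two_ne_zero).1 this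

lemma growth (g : H) (u : ℝ) (h : ∀ n, (⟪g, (T ^ n) (K 0)⟫_ℂ).re ≤ u) (n : ℕ) :
    |(⟪g, (T ^ n) (K 0)⟫_ℂ).re| ≤ (2 * |u| + ‖g‖) * 6 ^ n := by
  have key : ∀ m n : ℕ, u - (⟪g, (T ^ (n + m)) (K 0)⟫_ℂ).re
      ≤ u * 6 ^ m - (⟪g, (T ^ n) (U^[m] (K 0))⟫_ℂ).re := by
    intro m
    induction m with
    | zero => intro n; simp
    | succ m ih =>
      intro n
      have e : (T ^ n) (U^[m + 1] (K 0))
          = (5 : ℂ) • (T ^ n) (U^[m] (K 0)) + (T ^ (n + 1)) (U^[m] (K 0)) := by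
        rw [Function.iterate_succ_apply', U, map_add, map_smul, pow_succ,
          ContinuousLinearMap.mul_apply]
      have h1 := ih n
      have h2 := ih (n + 1)
      have h3 := h (n + m)
      rw [e, inner_add_right, inner_smul_right, add_re, show n + (m + 1) = n + 1 + m by ring]
      have : ((5 : ℂ) * ⟪g, (T ^ n) (U^[m] (K 0))⟫_ℂ).re
          = 5 * (⟪g, (T ^ n) (U^[m] (K 0))⟫_ℂ).re := by simp
      rw [this, pow_succ]
      linarith
  have hU : ∀ m : ℕ, ‖U^[m] (K 0)‖ ≤ 6 ^ m := by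
    intro m
    induction m with
    | zero => simp [K0_norm]
    | succ m ih =>
      rw [Function.iterate_succ_apply', pow_succ]
      linarith [U_norm (U^[m] (K 0))]
  have h1 := key n 0
  simp only [zero_add, pow_zero, ContinuousLinearMap.one_apply] at h1
  have h2 : |(⟪g, U^[n] (K 0)⟫_ℂ).re| ≤ ‖g‖ * 6 ^ n :=
    (abs_re_le_norm _).trans ((norm_inner_le_norm _ _).trans (by gcongr; exact hU n))
  have h3 := h n
  have h6 : (1 : ℝ) ≤ 6 ^ n := one_le_pow₀ (by norm_num)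
  have h7 : |u| ≤ |u| * 6 ^ n := le_mul_of_one_le_right (abs_nonneg _) h6
  have h8 : u * 6 ^ n ≤ |u| * 6 ^ n := by gcongr; exact le_abs_self u
  have h9 : 0 ≤ ‖g‖ * 6 ^ n := by positivity
  rw [abs_le] at h2 ⊢
  constructor <;> nlinarith [le_abs_self u, neg_abs_le u, abs_nonneg u]

lemma Tpow_norm (n : ℕ) (y : H) : ‖(T ^ n) y‖ ≤ 10 ^ n * ‖y‖ := by
  induction n with
  | zero => simp
  | succ n ih =>
    rw [pow_succ', ContinuousLinearMap.mul_apply, pow_succ]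
    nlinarith [T_norm ((T ^ n) y)]

/-- resolvent identity -/
lemma resolv (g : H) {z w : ℂ} (hz : ‖z‖ < 1 / 10) (hw : ‖w‖ < 1)
    (hzw : w * (1 + z * (8 + I)) = -z) :
    (1 + z * (8 + I)) * ps (fun n => ⟪g, (T ^ n) (K 0)⟫_ℂ) z = ps (fun k => conj (g k)) w := by
  set d : ℂ := 1 + z * (8 + I) with hd
  have e : K w - z • T (K w) = d • K 0 := by
    rw [T, ContinuousLinearMap.neg_apply, A_apply]
    ext k
    cases k with
    | zero =>
      simp [K_apply hw, K_apply, Sh_zero, hd]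
    | succ k =>
      simp only [lp.coeFn_sub, lp.coeFn_smul, lp.coeFn_neg, lp.coeFn_add, Pi.sub_apply,
        Pi.smul_apply, Pi.neg_apply, Pi.add_apply, Sh_succ, K_apply hw, smul_eq_mul]
      rw [K_apply (by simp)]
      simp only [ne_eq, Nat.add_eq_zero_iff, one_ne_zero, and_false, not_false_eq_true, zero_pow,
        mul_zero]
      linear_combination w ^ k * hzw
  set c : ℕ → ℂ := fun n => z ^ n * ⟪g, (T ^ n) (K w)⟫_ℂ with hc
  have hstep : ∀ n, d * (⟪g, (T ^ n) (K 0)⟫_ℂ * z ^ n) = c n - c (n + 1) := by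
    intro n
    have := congrArg (fun y => ⟪g, (T ^ n) y⟫_ℂ) e
    simp only [map_sub, map_smul, inner_sub_right, inner_smul_right] at this
    simp only [hc, pow_succ, ContinuousLinearMap.mul_apply]
    linear_combination (-z ^ n) * this
  have hb : ∀ (y : H) (n : ℕ), ‖⟪g, (T ^ n) y⟫_ℂ‖ * (1 / 10) ^ n ≤ ‖g‖ * ‖y‖ := by
    intro y n
    have h1 := (norm_inner_le_norm (𝕜 := ℂ) g ((T ^ n) y))
    have h2 := Tpow_norm n y
    calc _ ≤ ‖g‖ * (10 ^ n * ‖y‖) * (1 / 10) ^ n := by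
          gcongr; exact h1.trans (by gcongr)
      _ = ‖g‖ * ‖y‖ * (10 * (1 / 10)) ^ n := by rw [mul_pow]; ring
      _ = _ := by norm_num
  have hs1 := ps_summable (by norm_num) (hb (K 0)) hz
  have hs2 : Summable c := by
    have := ps_summable (by norm_num) (hb (K w)) hz
    simpa [hc, mul_comm] using this
  unfold ps
  rw [← tsum_mul_left]
  simp only [hstep]
  rw [hs2.tsum_sub ((summable_nat_add_iff 1).2 hs2), hs2.tsum_eq_zero_add]
  have := inner_K g hw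
  unfold ps at this
  rw [← this]
  simp [hc]

end Pool.Agent.H3.Cc
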