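import Pool.Agent.H3.CcB

open Complex Metric Filter Topology
open scoped ComplexConjugate InnerProductSpace ENNReal

namespace Pool.Agent.H3.Cc

noncomputable def kk (a : ℕ → ℂ) (e : ℝ) (u : ℂ) : ℂ :=
  ps a (-u / (1 + e * I * u)) / (1 + e * I * u)

lemma nsq {e : ℝ} (he : e ^ 2 = 1) (u : ℂ) :
    ‖1 + e * I * u‖ ^ 2 = ‖u‖ ^ 2 + (1 - 2 * e * u.im) := by
  rw [Complex.sq_norm, Complex.sq_norm, normSq_apply, normSq_apply]
  simp
  linear_combination (u.im ^ 2 + u.re ^ 2) * he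

lemma kk_aux {e : ℝ} (he : e ^ 2 = 1) {u : ℂ} (hu : 0 < 1 - 2 * e * u.im) :
    (1 + e * I * u ≠ 0) ∧ ‖-u / (1 + e * I * u)‖ < 1 := by
  have h := nsq he u
  have h0 : 0 < ‖1 + e * I * u‖ := by
    by_contra hn
    have : ‖1 + e * I * u‖ = 0 := le_antisymm (not_lt.1 hn) (norm_nonneg _)
    rw [this] at h; nlinarith [sq_nonneg ‖u‖]
  refine ⟨norm_pos_iff.1 h0, ?_⟩
  rw [norm_div, norm_neg, div_lt_one h0]
  exact lt_of_pow_lt_pow_left₀ 2 h0.le (by linarith)

lemma kk_diff {a : ℕ → ℂ} {M e : ℝ} (hb : ∀ k, ‖a k‖ * 1 ^ k ≤ M) (he : e ^ 2 = 1) {u : ℂ}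
    (hu : 0 < 1 - 2 * e * u.im) : DifferentiableAt ℂ (kk a e) u := by
  obtain ⟨h1, h2⟩ := kk_aux he hu
  have hw : DifferentiableAt ℂ (fun u : ℂ => -u / (1 + e * I * u)) u :=
    DifferentiableAt.div (by fun_prop) (by fun_prop) h1
  exact ((ps_diff one_pos hb h2).comp u hw).div (by fun_prop) h1

lemma kk_bound {a : ℕ → ℂ} {M e : ℝ}
    (hcs : ∀ z : ℂ, ‖z‖ < 1 → ‖ps a z‖ ^ 2 * (1 - ‖z‖ ^ 2) ≤ M ^ 2) (he : e ^ 2 = 1) {u : ℂ}
    (hu : 0 < 1 - 2 * e * u.im) : ‖kk a e u‖ ^ 2 * (1 - 2 * e * u.im) ≤ M ^ 2 := by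
  obtain ⟨h1, h2⟩ := kk_aux he hu
  have h := hcs _ h2
  have h3 := nsq he u
  have h0 : ‖1 + e * I * u‖ ≠ 0 := norm_ne_zero_iff.2 h1
  refine le_of_eq_of_le ?_ h
  rw [kk, norm_div, norm_div, norm_neg, div_pow, div_pow]
  have : 1 - 2 * e * u.im = ‖1 + e * I * u‖ ^ 2 - ‖u‖ ^ 2 := by linarith
  rw [this]
  generalize ‖ps a (-u / (1 + e * I * u))‖ = P
  generalize ‖1 + e * I * u‖ = D at h0
  field_simp

lemma le_of_sq_le_sq' {a b : ℝ} (h : a ^ 2 ≤ b ^ 2) (hb : 0 ≤ b) : a ≤ b :=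
  le_of_pow_le_pow_left₀ two_ne_zero hb h

noncomputable def EE (s : ℕ → ℂ) (u : ℂ) : ℂ := 2 * ps s (u / (1 - 8 * u)) / (1 - 8 * u)

lemma n8 (u : ℂ) : ‖1 - 8 * u‖ ^ 2 = 1 - 16 * u.re + 64 * (u.re ^ 2 + u.im ^ 2) := by
  rw [Complex.sq_norm, normSq_apply]; simp; ring

lemma nu (u : ℂ) : ‖u‖ ^ 2 = u.re ^ 2 + u.im ^ 2 := by
  rw [Complex.sq_norm, normSq_apply]; ring

lemma EE_diff {s : ℕ → ℂ} {C : ℝ} (hs : ∀ k, ‖s k‖ * (1 / 6) ^ k ≤ C) {u : ℂ}
    (hu : u.re < 1 / 14 ∨ 1 / 4 < u.im) : DifferentiableAt ℂ (EE s) u := by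
  have h : (6 * ‖u‖) ^ 2 < ‖1 - 8 * u‖ ^ 2 := by
    rw [mul_pow, nu, n8]
    rcases hu with hu | hu
    · nlinarith [sq_nonneg u.im]
    · nlinarith [sq_nonneg (u.re - 2 / 7)]
  have h1 : 6 * ‖u‖ < ‖1 - 8 * u‖ := lt_of_pow_lt_pow_left₀ 2 (norm_nonneg _) h
  have h0 : 0 < ‖1 - 8 * u‖ := lt_of_le_of_lt (by positivity) h1
  have h2 : (1 - 8 * u) ≠ 0 := norm_pos_iff.1 h0
  have h3 : ‖u / (1 - 8 * u)‖ < 1 / 6 := by
    rw [norm_div, div_lt_iff₀ h0]; linarith
  have hw : DifferentiableAt ℂ (fun u : ℂ => u / (1 - 8 * u)) u :=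
    DifferentiableAt.div (by fun_prop) (by fun_prop) h2
  exact (((ps_diff (by norm_num) hs h3).comp u hw).const_mul 2).div (by fun_prop) h2

lemma EE_bound {s : ℕ → ℂ} {C : ℝ} (hs : ∀ k, ‖s k‖ * (1 / 6) ^ k ≤ C) {u : ℂ}
    (hu : 3 / 8 ≤ u.im) : ‖EE s u‖ ≤ 26 * C := by
  have hC : 0 ≤ C := le_trans (by positivity) (hs 0)
  have h : (13 / 2 * ‖u‖) ^ 2 ≤ ‖1 - 8 * u‖ ^ 2 := by
    rw [mul_pow, nu, n8]
    nlinarith [sq_nonneg (u.re - 32 / 87)]
  have h1 : 13 / 2 * ‖u‖ ≤ ‖1 - 8 * u‖ := le_of_sq_le_sq' h (norm_nonneg _)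
  have h4 : 1 ≤ ‖1 - 8 * u‖ := by
    have := (le_abs_self _).trans (abs_im_le_norm u)
    linarith
  have h3 : ‖u / (1 - 8 * u)‖ ≤ 2 / 13 := by
    rw [norm_div, div_le_iff₀ (by linarith)]; linarith
  have h5 := ps_norm (by norm_num) hs h3 (by norm_num)
  rw [EE, norm_div, norm_mul, div_le_iff₀ (by linarith)]
  norm_num at h5 ⊢
  nlinarith

lemma loc (g : H) {u : ℂ} (hu : ‖u‖ < 1 / 20) :
    kk (fun k => conj (g k)) 1 u + kk g (-1) u
      = EE (fun n => ((⟪g, (T ^ n) (K 0)⟫_ℂ).re : ℂ)) u := by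
  have one : ∀ v : ℂ, ‖v‖ < 1 / 20 → kk (fun k => conj (g k)) 1 v
      = ps (fun n => ⟪g, (T ^ n) (K 0)⟫_ℂ) (v / (1 - 8 * v)) / (1 - 8 * v)
      ∧ ‖v / (1 - 8 * v)‖ < 1 / 10 := by
    intro v hv
    have him : 0 < 1 - 2 * (1 : ℝ) * v.im := by
      linarith [(le_abs_self _).trans (abs_im_le_norm v)]
    obtain ⟨h1, h2⟩ := kk_aux (e := 1) (by norm_num) him
    have h8 : 3 / 5 ≤ ‖1 - 8 * v‖ := by
      have := norm_sub_norm_le (1 : ℂ) (8 * v)
      simp only [norm_one, norm_mul, Complex.norm_ofNat] at this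
      linarith
    have h9 : (1 - 8 * v) ≠ 0 := norm_pos_iff.1 (by linarith)
    have hz : ‖v / (1 - 8 * v)‖ < 1 / 10 := by
      rw [norm_div, div_lt_iff₀ (by linarith)]; linarith
    refine ⟨?_, hz⟩
    simp only [ofReal_one, one_mul] at h1 h2
    have hq : 1 + v / (1 - 8 * v) * (8 + I) = (1 + I * v) / (1 - 8 * v) := by
      rw [eq_div_iff h9, add_mul, mul_right_comm, div_mul_cancel₀ _ h9]; ring
    have hr := resolv g hz h2 (by
      rw [hq, div_mul_div_comm, mul_comm (1 + I * v), mul_div_mul_right _ _ h1, neg_div])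
    simp only [kk, ofReal_one, one_mul]
    rw [← hr, hq]
    generalize 1 + I * v = p at h1
    generalize 1 - 8 * v = q at h9
    field_simp
  obtain ⟨h1, hz⟩ := one u hu
  obtain ⟨h2, -⟩ := one (conj u) (by simpa using hu)
  have h3 := congrArg conj h2
  simp only [kk, map_div₀, ps_conj, map_neg, map_add, map_mul, map_sub, map_one, conj_conj,
    conj_I, conj_ofReal, map_ofNat] at h3
  have h4 : kk g (-1) u
      = ps (fun n => conj ⟪g, (T ^ n) (K 0)⟫_ℂ) (u / (1 - 8 * u)) / (1 - 8 * u) := by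
    rw [← h3]; simp [kk]
  rw [h1, h4, EE, ← add_div]
  congr 1
  have hb : ∀ n : ℕ, ‖⟪g, (T ^ n) (K 0)⟫_ℂ‖ * (1 / 10) ^ n ≤ ‖g‖ * ‖K 0‖ := by
    intro n
    have h1 := (norm_inner_le_norm (𝕜 := ℂ) g ((T ^ n) (K 0)))
    have h2 := Tpow_norm n (K 0)
    calc _ ≤ ‖g‖ * (10 ^ n * ‖K 0‖) * (1 / 10) ^ n := by
          gcongr; exact h1.trans (by gcongr)
      _ = ‖g‖ * ‖K 0‖ * (10 * (1 / 10)) ^ n := by rw [mul_pow]; ring
      _ = _ := by norm_num
  have hs1 := ps_summable (by norm_num) hb hz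
  have hs2 := ps_summable (a := fun n => conj ⟪g, (T ^ n) (K 0)⟫_ℂ) (by norm_num)
    (C := ‖g‖ * ‖K 0‖) (fun n => by rw [RCLike.norm_conj]; exact hb n) hz
  unfold ps
  rw [← hs1.tsum_add hs2, ← tsum_mul_left]
  congr 1; funext n
  rw [← add_mul, add_conj]; push_cast; ring

lemma key (g : H) (u₀ : ℝ) (h : ∀ n, (⟪g, (T ^ n) (K 0)⟫_ℂ).re ≤ u₀) : g = 0 := by
  set b : ℕ → ℂ := fun k => conj (g k) with hbdef
  set s : ℕ → ℂ := fun n => ((⟪g, (T ^ n) (K 0)⟫_ℂ).re : ℂ) with hsdef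
  have hb : ∀ k, ‖b k‖ * 1 ^ k ≤ ‖g‖ := fun k => by simpa [hbdef] using coef_le g k
  have hs : ∀ k, ‖s k‖ * (1 / 6) ^ k ≤ 2 * |u₀| + ‖g‖ := by
    intro k
    have := growth g u₀ h k
    simp only [hsdef, norm_real, Real.norm_eq_abs]
    calc _ ≤ (2 * |u₀| + ‖g‖) * 6 ^ k * (1 / 6) ^ k := by gcongr
      _ = (2 * |u₀| + ‖g‖) * (6 * (1 / 6)) ^ k := by rw [mul_pow]; ring
      _ = _ := by norm_num
  have hcsb : ∀ z : ℂ, ‖z‖ < 1 → ‖ps b z‖ ^ 2 * (1 - ‖z‖ ^ 2) ≤ ‖g‖ ^ 2 := by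
    intro z hz
    have := ps_cs g (z := conj z) (by simpa using hz)
    rw [← RCLike.norm_conj (ps g _), ps_conj] at this
    simpa using this
  set F : ℂ → ℂ := fun u => kk b 1 u + kk g (-1) u - EE s u with hF
  have hFd : ∀ u : ℂ, -(1 / 2) < u.im → u.im < 1 / 2 → (u.re < 1 / 14 ∨ 1 / 4 < u.im) →
      DifferentiableAt ℂ F u := fun u h1 h2 h3 =>
    ((kk_diff hb (by norm_num) (by linarith)).add
      (kk_diff (coef_le g) (by norm_num) (by linarith))).sub (EE_diff hs h3)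
  set L : Set ℂ := {u | u.re < 1 / 14} ∩ ({u | -(1 / 2) < u.im} ∩ {u | u.im < 1 / 2}) with hL
  set B : Set ℂ := {u | 1 / 4 < u.im} ∩ {u | u.im < 1 / 2} with hB
  have hLo : IsOpen L := (isOpen_lt continuous_re continuous_const).inter
    ((isOpen_lt continuous_const continuous_im).inter (isOpen_lt continuous_im continuous_const))
  have hBo : IsOpen B :=
    (isOpen_lt continuous_const continuous_im).inter (isOpen_lt continuous_im continuous_const)
  have hLc : Convex ℝ L := (convex_halfSpace_re_lt _).inter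
    ((convex_halfSpace_im_gt _).inter (convex_halfSpace_im_lt _))
  have hBc : Convex ℝ B := (convex_halfSpace_im_gt _).inter (convex_halfSpace_im_lt _)
  have hFL : Set.EqOn F 0 L := by
    have ha : AnalyticOnNhd ℂ F L := DifferentiableOn.analyticOnNhd
      (fun u hu => (hFd u hu.2.1 hu.2.2 (Or.inl hu.1)).differentiableWithinAt) hLo
    refine ha.eqOn_zero_of_preconnected_of_eventuallyEq_zero hLc.isPreconnected (z₀ := 0)
      (by simp [hL]) ?_
    filter_upwards [ball_mem_nhds (0 : ℂ) (by norm_num : (0 : ℝ) < 1 / 20)] with u hu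
    simp only [hF, Pi.zero_apply, hbdef, hsdef]
    rw [loc g (mem_ball_zero_iff.1 hu), sub_self]
  have hFB : Set.EqOn F 0 B := by
    have ha : AnalyticOnNhd ℂ F B := DifferentiableOn.analyticOnNhd
      (fun u hu => (hFd u (by have := hu.1; simp only [Set.mem_setOf_eq] at this; linarith)
        hu.2 (Or.inr hu.1)).differentiableWithinAt) hBo
    refine ha.eqOn_zero_of_preconnected_of_eventuallyEq_zero hBc.isPreconnected
      (z₀ := (3 / 8 : ℝ) * I) (by simp [hB]; norm_num) ?_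
    have : ((3 / 8 : ℝ) * I : ℂ) ∈ L := by simp [hL]; norm_num
    filter_upwards [hLo.mem_nhds this] with u hu using hFL hu
  classical
  set G : ℂ → ℂ := fun u => if u.im < 3 / 8 then kk b 1 u else EE s u - kk g (-1) u with hG
  have hG1 : ∀ u : ℂ, u.im < 1 / 2 → G u = kk b 1 u := by
    intro u hu
    simp only [hG]
    split_ifs with h1
    · rfl
    · have := hFB (x := u) ⟨by simp only [Set.mem_setOf_eq]; linarith, hu⟩
      simp only [hF, Pi.zero_apply] at this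
      linear_combination -this
  have hG2 : ∀ u : ℂ, 1 / 4 < u.im → G u = EE s u - kk g (-1) u := by
    intro u hu
    simp only [hG]
    split_ifs with h1
    · have := hFB (x := u) ⟨hu, by simp only [Set.mem_setOf_eq]; linarith⟩
      simp only [hF, Pi.zero_apply] at this
      linear_combination this
    · rfl
  have hGd : Differentiable ℂ G := by
    intro u
    by_cases hu : u.im < 1 / 2
    · refine (kk_diff (e := 1) hb (by norm_num) (by linarith)).congr_of_eventuallyEq ?_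
      filter_upwards [(isOpen_lt continuous_im continuous_const).mem_nhds hu] with v hv
        using hG1 v hv
    · have hu' : 1 / 4 < u.im := by linarith
      refine ((EE_diff hs (Or.inr hu')).sub
        (kk_diff (e := -1) (coef_le g) (by norm_num) (by linarith))).congr_of_eventuallyEq ?_
      filter_upwards [(isOpen_lt continuous_const continuous_im).mem_nhds hu'] with v hv
        using hG2 v hv
  have hGb : Bornology.IsBounded (Set.range G) := by
    rw [isBounded_iff_forall_norm_le]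
    refine ⟨26 * (2 * |u₀| + ‖g‖) + 2 * ‖g‖, ?_⟩
    rintro _ ⟨u, rfl⟩
    by_cases hu : u.im < 3 / 8
    · rw [hG1 u (by linarith)]
      have h1 := kk_bound (e := 1) hcsb (by norm_num) (u := u) (by linarith)
      have h2 : ‖kk b 1 u‖ ^ 2 ≤ (2 * ‖g‖) ^ 2 := by nlinarith [sq_nonneg ‖kk b 1 u‖]
      have h3 := le_of_sq_le_sq' h2 (by positivity)
      have : 0 ≤ 26 * (2 * |u₀| + ‖g‖) := by positivity
      linarith
    · rw [hG2 u (by linarith)]
      have h1 := kk_bound (e := -1) (fun z hz => ps_cs g hz) (by norm_num) (u := u) (by linarith)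
      have h2 : ‖kk g (-1) u‖ ^ 2 ≤ ‖g‖ ^ 2 := by nlinarith [sq_nonneg ‖kk g (-1) u‖]
      have h3 := le_of_sq_le_sq' h2 (by positivity)
      have h4 := EE_bound hs (not_lt.1 hu)
      linarith [norm_sub_le (EE s u) (kk g (-1) u), norm_nonneg g]
  have hconst := fun u => hGd.apply_eq_apply_of_bounded hGb u 0
  have hG0 : G 0 = 0 := by
    by_contra hne
    have hp : 0 < ‖G 0‖ ^ 2 := by positivity
    set t : ℝ := ‖g‖ ^ 2 / ‖G 0‖ ^ 2 with ht
    have ht0 : 0 ≤ t := by positivity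
    have him : (-(t : ℂ) * I).im = -t := by simp
    have h1 := kk_bound (e := 1) hcsb (by norm_num) (u := -(t : ℂ) * I) (by rw [him]; linarith)
    rw [← hG1 _ (by rw [him]; linarith), hconst, him] at h1
    have : ‖G 0‖ ^ 2 * t = ‖g‖ ^ 2 := by rw [ht]; field_simp
    nlinarith
  have hz : ∀ᶠ z in 𝓝[≠] (0 : ℂ), ps b z = 0 := by
    refine mem_nhdsWithin_of_mem_nhds ?_
    filter_upwards [ball_mem_nhds (0 : ℂ) (by norm_num : (0 : ℝ) < 1 / 4)] with z hz
    have hz' := mem_ball_zero_iff.1 hz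
    have h8 : 3 / 4 ≤ ‖1 + I * z‖ := by
      have := norm_sub_norm_le (1 : ℂ) (-(I * z))
      simp only [norm_one, norm_mul, norm_neg, norm_I, sub_neg_eq_add] at this
      linarith
    have h9 : (1 + I * z) ≠ 0 := norm_pos_iff.1 (by linarith)
    have hu : ‖-z / (1 + I * z)‖ < 1 / 2 := by
      rw [norm_div, norm_neg, div_lt_iff₀ (by linarith)]; linarith
    have him := lt_of_le_of_lt ((le_abs_self _).trans (abs_im_le_norm _)) hu
    have h1 := hG1 _ him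
    rw [hconst, hG0] at h1
    have e : 1 + ((1 : ℝ) : ℂ) * I * (-z / (1 + I * z)) = 1 / (1 + I * z) := by
      rw [eq_div_iff h9, add_mul, mul_assoc, div_mul_cancel₀ _ h9]; push_cast; ring
    have e2 : -(-z / (1 + I * z)) / (1 / (1 + I * z)) = z := by
      generalize 1 + I * z = p at h9
      field_simp
    rw [kk, e, e2] at h1
    simpa [h9] using h1.symm
  ext k
  have := ps_unique k b _ hb hz
  simpa [hbdef] using this

theorem T_cc : CC T := by
  refine ⟨K 0, ?_⟩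
  by_contra hn
  obtain ⟨y, hy⟩ : ∃ y, y ∉ closure (convexHull ℝ (Set.range fun n : ℕ => (T ^ n) (K 0))) := by
    by_contra h; push Not at h; exact hn h
  obtain ⟨f, u, h1, h2⟩ := RCLike.geometric_hahn_banach_closed_point (𝕜 := ℂ)
    (convex_convexHull ℝ _).closure isClosed_closure hy
  set g : H := (InnerProductSpace.toDual ℂ H).symm f with hg
  have hf : ∀ w, ⟪g, w⟫_ℂ = f w := fun w => InnerProductSpace.toDual_symm_apply
  have h0 : g = 0 := key g u fun n => by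
    rw [hf]
    exact (h1 _ (subset_closure (subset_convexHull ℝ _ ⟨n, rfl⟩))).le
  have h3 := h1 _ (subset_closure (subset_convexHull ℝ _ ⟨0, rfl⟩))
  rw [← hf, h0] at h2 h3
  simp at h2 h3
  linarith

end Pool.Agent.H3.Cc
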