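import Pool.Agent.H3.CcC

open Complex Metric Filter Topology MeasureTheory Set
open scoped ComplexConjugate InnerProductSpace ENNReal

namespace Pool.Agent.H3.Cc

lemma logb (x : H) (hx : ∀ z : ℂ, ‖z‖ < 1 → ps x z ≠ 0) :
    ∃ C D : ℝ, 0 ≤ C ∧ 0 ≤ D ∧ ∀ z : ℂ, ‖z‖ < 1 →
      ‖(ps x z)⁻¹‖ ≤ D * Real.exp (C / (1 - ‖z‖) ^ 2) := by
  have hd : DifferentiableOn ℂ (ps x) (ball 0 1) := fun z hz =>
    (ps_diff one_pos (coef_le x) (mem_ball_zero_iff.1 hz)).differentiableWithinAt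
  have hq : DifferentiableOn ℂ (fun z => deriv (ps x) z / ps x z) (ball 0 1) :=
    (hd.deriv isOpen_ball).div hd fun z hz => hx z (mem_ball_zero_iff.1 hz)
  obtain ⟨L, hL⟩ := hq.isExactOn_ball
  have hh : ∀ z ∈ ball (0 : ℂ) 1, HasDerivAt (fun z => ps x z * exp (-L z)) 0 z := by
    intro z hz
    have h1 := (ps_diff one_pos (coef_le x) (mem_ball_zero_iff.1 hz)).hasDerivAt
    have h2 := h1.mul (hL z hz).neg.cexp
    have h3 := hx z (mem_ball_zero_iff.1 hz)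
    refine h2.congr_deriv ?_
    simp only [Pi.neg_apply]
    field_simp
    ring
  set κ : ℂ := ps x 0 * exp (-L 0) with hκ
  have hκ0 : κ ≠ 0 := mul_ne_zero (hx 0 (by simp)) (exp_ne_zero _)
  have hc : ∀ z ∈ ball (0 : ℂ) 1, ps x z = κ * exp (L z) := by
    intro z hz
    have := isOpen_ball.is_const_of_deriv_eq_zero (convex_ball (0 : ℂ) 1).isPreconnected
      (f := fun z => ps x z * exp (-L z))
      (fun z hz => (hh z hz).differentiableAt.differentiableWithinAt)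
      (fun z hz => (hh z hz).deriv) hz (mem_ball_self one_pos)
    rw [hκ, ← this, mul_assoc, ← exp_add]; simp
  have hκp : 0 < ‖κ‖ := norm_pos_iff.2 hκ0
  refine ⟨4 * (2 * (‖x‖ / ‖κ‖) + 2 + 2 * ‖L 0‖), ‖κ‖⁻¹, by positivity, by positivity, ?_⟩
  intro z hz
  set δ : ℝ := (1 - ‖z‖) / 2 with hδ
  have hδ0 : 0 < δ := by rw [hδ]; linarith
  have hz0 := norm_nonneg z
  have hδ1 : δ ≤ 1 := by rw [hδ]; linarith
  have hsub : ball (0 : ℂ) (1 - δ) ⊆ ball 0 1 := ball_subset_ball (by linarith)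
  have hM : 0 < ‖x‖ / ‖κ‖ / δ + 1 := by positivity
  have hBC := Complex.borelCaratheodory (f := L) (R := 1 - δ) (z := z) hM
    (fun w hw => (hL w (hsub hw)).differentiableAt.differentiableWithinAt) (by
      intro w hw
      have h1 := ps_norm one_pos (coef_le x) (mem_ball_zero_iff.1 hw).le (by linarith)
      rw [hc w (hsub hw), norm_mul, norm_exp] at h1
      have h2 : Real.exp (L w).re ≤ ‖x‖ / ‖κ‖ / δ := by
        rw [div_div, le_div_iff₀ (by positivity)]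
        have e : (1 - (1 - δ) / 1)⁻¹ = δ⁻¹ := by congr 1; ring
        rw [e, ← div_eq_mul_inv, le_div_iff₀ hδ0] at h1
        linarith
      have h3 := Real.add_one_le_exp (L w).re
      show (L w).re ≤ _
      linarith) (by rw [hδ]; linarith) (mem_ball_zero_iff.2 (by rw [hδ]; linarith))
  have e : 1 - δ - ‖z‖ = δ := by rw [hδ]; ring
  rw [e] at hBC
  have hb : ‖L z‖ ≤ 4 * (2 * (‖x‖ / ‖κ‖) + 2 + 2 * ‖L 0‖) / (1 - ‖z‖) ^ 2 := by
    have e2 : (1 - ‖z‖) ^ 2 = 4 * δ ^ 2 := by rw [hδ]; ring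
    rw [e2, mul_div_mul_left _ _ (by norm_num : (4 : ℝ) ≠ 0)]
    refine hBC.trans ?_
    rw [← add_div, div_le_div_iff₀ hδ0 (by positivity)]
    set a := ‖x‖ / ‖κ‖
    have ha : 0 ≤ a := by positivity
    have hl := norm_nonneg (L 0)
    have h1 : 2 * (a / δ + 1) * ‖z‖ ≤ 2 * (a / δ + 1) := by nlinarith
    have h2 : ‖L 0‖ * (1 - δ + ‖z‖) ≤ ‖L 0‖ * 2 := by gcongr; linarith
    have h3 : a / δ * δ = a := by field_simp
    calc _ ≤ (2 * (a / δ + 1) + ‖L 0‖ * 2) * δ ^ 2 := by gcongr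
      _ = (2 * (a / δ * δ) + (2 + 2 * ‖L 0‖) * δ) * δ := by ring
      _ ≤ (2 * a + (2 + 2 * ‖L 0‖) * 1) * δ := by rw [h3]; gcongr
      _ = _ := by ring
  rw [hc z (mem_ball_zero_iff.2 hz), mul_inv, norm_mul, norm_inv, ← exp_neg, norm_exp]
  gcongr
  have := abs_re_le_norm (L z)
  simp only [neg_re]
  linarith [neg_abs_le (L z).re]

noncomputable def rho (t : ℂ) : ℂ := exp (-(t⁻¹) ^ 3)

lemma re_cube (w : ℂ) : (w ^ 3).re = w.re * (w.re ^ 2 - 3 * w.im ^ 2) := by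
  simp [pow_succ]; ring

lemma rho_le {t : ℂ} (h1 : 0 < t.re) (h2 : |t.im| ≤ t.re / 2) : ‖rho t‖ ≤ 1 := by
  rw [rho, norm_exp, Real.exp_le_one_iff, neg_re, re_cube, inv_re, inv_im, neg_nonpos]
  have hn : 0 < normSq t := normSq_pos.2 (by rintro rfl; simp at h1)
  have h3 : t.im ^ 2 ≤ (t.re / 2) ^ 2 := by
    rw [← sq_abs]; exact pow_le_pow_left₀ (abs_nonneg _) h2 2
  refine mul_nonneg (by positivity) ?_
  rw [div_pow, div_pow, ← mul_div_assoc, ← sub_div]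
  exact div_nonneg (by nlinarith) (by positivity)

lemma rho_ray {s : ℝ} (hs : 0 < s) : ‖rho (s * (2 - I))‖ = Real.exp (-(2 / 125 * s⁻¹ ^ 3)) := by
  have e : ((s : ℂ) * (2 - I))⁻¹ = ((s⁻¹ / 5 : ℝ) : ℂ) * (2 + I) := by
    have hs' : (s : ℂ) ≠ 0 := ofReal_ne_zero.2 hs.ne'
    refine inv_eq_of_mul_eq_one_right ?_
    push_cast
    field_simp
    linear_combination (-1 : ℂ) * I_mul_I
  rw [rho, norm_exp, neg_re, e, re_cube]
  simp
  ring

lemma rho_cont {t : ℂ} (ht : t ≠ 0) : DifferentiableAt ℂ rho t :=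
  ((differentiableAt_inv ht).pow 3).neg.cexp

noncomputable def phi (n : ℕ) (t : ℂ) : ℂ := rho t * (8 - t) ^ n

lemma phi_diff (n : ℕ) {t : ℂ} (ht : t ≠ 0) : DifferentiableAt ℂ (phi n) t :=
  (rho_cont ht).mul (by fun_prop)

lemma phi_le (n : ℕ) {t : ℂ} {B : ℝ} (h1 : 0 < t.re) (h2 : |t.im| ≤ t.re / 2) (hB : 0 ≤ B)
    (h3 : (8 - t.re) ^ 2 + (t.re / 2) ^ 2 ≤ B ^ 2) : ‖phi n t‖ ≤ B ^ n := by
  have h4 : t.im ^ 2 ≤ (t.re / 2) ^ 2 := by
    rw [← sq_abs]; exact pow_le_pow_left₀ (abs_nonneg _) h2 2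
  have h5 : ‖8 - t‖ ≤ B := by
    refine le_of_sq_le_sq' ?_ hB
    rw [nu]; simp; linarith
  rw [phi, norm_mul, norm_pow]
  calc _ ≤ 1 * B ^ n := by gcongr; exact rho_le h1 h2
    _ = _ := one_mul _

lemma integ {f : ℝ → ℂ} (hc : ∀ s ∈ Ioc (0 : ℝ) (1 / 5), ContinuousAt f s) (C : ℝ)
    (hb : ∀ s ∈ Ioc (0 : ℝ) (1 / 5), ‖f s‖ ≤ C) : IntegrableOn f (Ioc (0 : ℝ) (1 / 5)) := by
  have h1 : ContinuousOn f (Ioc (0 : ℝ) (1 / 5)) := fun s hs => (hc s hs).continuousWithinAt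
  exact Integrable.of_bound (h1.aestronglyMeasurable measurableSet_Ioc) C
    ((ae_restrict_iff' measurableSet_Ioc).2 (Eventually.of_forall hb))

lemma lower (n : ℕ) : 1 / 10 * Real.exp (-1000) * (39 / 5) ^ n - (77 / 10) ^ n
    ≤ (∫ s in Ioc (0 : ℝ) (1 / 5), phi n (s * (2 - I)) * (2 - I)).re := by
  have hball : ∀ t : ℂ, 0 < t.re → t.re ≤ 2 / 5 → |t.im| ≤ t.re / 2 → t ∈ ball (1 : ℂ) 1 := by
    intro t h1 h2 h3
    have h4 : t.im ^ 2 ≤ (t.re / 2) ^ 2 := by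
      rw [← sq_abs]; exact pow_le_pow_left₀ (abs_nonneg _) h3 2
    rw [mem_ball, dist_eq_norm]
    refine lt_of_pow_lt_pow_left₀ 2 zero_le_one ?_
    rw [nu]; simp; nlinarith
  have hd : DifferentiableOn ℂ (phi n) (ball (1 : ℂ) 1) := fun t ht =>
    (phi_diff n (by rintro rfl; simp at ht)).differentiableWithinAt
  obtain ⟨P, hP⟩ := hd.isExactOn_ball
  set D : ℝ → ℂ := fun s => P (s * (2 - I)) - P (s * 2) with hD
  have hseg : ∀ s B : ℝ, 0 < s → s ≤ 1 / 5 → 0 ≤ B → (8 - 2 * s) ^ 2 + s ^ 2 ≤ B ^ 2 →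
      ‖D s‖ ≤ B ^ n * s := by
    intro s B h1 h2 h3 h4
    set S : Set ℂ := ({t | t.re ≤ 2 * s} ∩ {t | 2 * s ≤ t.re}) ∩
      ({t | -s ≤ t.im} ∩ {t | t.im ≤ s}) with hS
    have hc : Convex ℝ S := ((convex_halfSpace_re_le _).inter (convex_halfSpace_re_ge _)).inter
      ((convex_halfSpace_im_ge _).inter (convex_halfSpace_im_le _))
    have hm : ∀ t ∈ S, t.re = 2 * s ∧ |t.im| ≤ t.re / 2 := by
      intro t ht
      have e : t.re = 2 * s := le_antisymm ht.1.1 ht.1.2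
      refine ⟨e, abs_le.2 ⟨?_, ?_⟩⟩
      · have : -s ≤ t.im := ht.2.1
        linarith
      · have : t.im ≤ s := ht.2.2
        linarith
    have := hc.norm_image_sub_le_of_norm_hasDerivWithin_le (f := P) (f' := phi n) (C := B ^ n)
      (x := s * 2) (y := s * (2 - I))
      (fun t ht => (hP t (hball t (by rw [(hm t ht).1]; linarith) (by rw [(hm t ht).1]; linarith)
        (hm t ht).2)).hasDerivWithinAt)
      (fun t ht => phi_le n (by rw [(hm t ht).1]; linarith) (hm t ht).2 h3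
        (by rw [(hm t ht).1]; linarith))
      (by
        refine ⟨⟨?_, ?_⟩, ?_, ?_⟩ <;> simp <;> linarith)
      (by
        refine ⟨⟨?_, ?_⟩, ?_, ?_⟩ <;> simp <;> linarith)
    have e : (s : ℂ) * (2 - I) - s * 2 = -(s * I) := by ring
    rw [e] at this
    simpa [abs_of_pos h1] using this
  have r1 : ∀ s : ℝ, ((s : ℂ) * (2 - I)).re = 2 * s := by intro s; simp; ring
  have r2 : ∀ s : ℝ, ((s : ℂ) * (2 - I)).im = -s := by intro s; simp
  have r3 : ∀ s : ℝ, ((s : ℂ) * 2).re = 2 * s := by intro s; simp; ring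
  have r4 : ∀ s : ℝ, ((s : ℂ) * 2).im = 0 := by intro s; simp
  have m1 : ∀ s : ℝ, 0 < s → |((s : ℂ) * (2 - I)).im| ≤ ((s : ℂ) * (2 - I)).re / 2 := by
    intro s hs; rw [r1, r2, abs_neg, abs_of_pos hs]; linarith
  have m2 : ∀ s : ℝ, 0 < s → |((s : ℂ) * 2).im| ≤ ((s : ℂ) * 2).re / 2 := by
    intro s hs; rw [r3, r4, abs_zero]; linarith
  have hder : ∀ s : ℝ, 0 < s → s ≤ 1 / 5 →
      HasDerivAt D (phi n (s * (2 - I)) * (2 - I) - phi n (s * 2) * 2) s := by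
    intro s h1 h2
    have a1 := hP _ (hball (s * (2 - I)) (by rw [r1]; linarith) (by rw [r1]; linarith) (m1 s h1))
    have a2 := hP _ (hball (s * 2) (by rw [r3]; linarith) (by rw [r3]; linarith) (m2 s h1))
    have b1 := (a1.comp (s : ℂ) (hasDerivAt_mul_const (2 - I : ℂ))).comp_ofReal
    have b2 := (a2.comp (s : ℂ) (hasDerivAt_mul_const (2 : ℂ))).comp_ofReal
    exact b1.sub b2
  have cont : ∀ (c : ℂ) (s : ℝ), c ≠ 0 → 0 < s →
      ContinuousAt (fun s : ℝ => phi n (s * c) * c) s := by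
    intro c s hc hs
    have := (phi_diff n (t := s * c) (mul_ne_zero (ofReal_ne_zero.2 hs.ne') hc)).continuousAt
    exact (ContinuousAt.comp (f := fun s : ℝ => (s : ℂ) * c) this (by fun_prop)).mul
      continuousAt_const
  have n2 : ‖(2 - I : ℂ)‖ ≤ 3 := by
    calc _ ≤ ‖(2 : ℂ)‖ + ‖I‖ := norm_sub_le _ _
      _ = 3 := by simp; norm_num
  have i1 : IntegrableOn (fun s : ℝ => phi n (s * (2 - I)) * (2 - I)) (Ioc 0 (1 / 5)) := by
    refine integ (fun s hs => cont _ s (by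
      intro h; have := congrArg re h; simp at this) hs.1) (9 ^ n * 3) fun s hs => ?_
    rw [norm_mul]
    gcongr
    exact phi_le n (by rw [r1]; linarith [hs.1]) (m1 s hs.1) (by norm_num)
      (by rw [r1]; nlinarith [hs.1, hs.2])
  have i2 : IntegrableOn (fun s : ℝ => phi n (s * 2) * 2) (Ioc 0 (1 / 5)) := by
    refine integ (fun s hs => cont _ s two_ne_zero hs.1) (9 ^ n * 3) fun s hs => ?_
    rw [norm_mul]
    gcongr
    · exact phi_le n (by rw [r3]; linarith [hs.1]) (m2 s hs.1) (by norm_num)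
        (by rw [r3]; nlinarith [hs.1, hs.2])
    · simp; norm_num
  have h05 : (0 : ℝ) < 1 / 5 := by norm_num
  have ftc := intervalIntegral.integral_eq_sub_of_hasDerivAt_of_tendsto h05
    (fun s hs => hder s hs.1 hs.2.le)
    ((intervalIntegrable_iff_integrableOn_Ioc_of_le h05.le).2 (i1.sub i2)) (fa := 0)
    (fb := D (1 / 5)) (by
      refine squeeze_zero_norm' (a := fun s => 9 ^ n * s) ?_ ?_
      · filter_upwards [Ioo_mem_nhdsGT h05] with s hs
        exact hseg s 9 hs.1 hs.2.le (by norm_num) (by nlinarith [hs.1, hs.2])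
      · have : Continuous fun s : ℝ => (9 : ℝ) ^ n * s := by fun_prop
        simpa using (this.tendsto 0).mono_left nhdsWithin_le_nhds)
    ((hder _ h05 le_rfl).continuousAt.tendsto.mono_left nhdsWithin_le_nhds)
  rw [intervalIntegral.integral_of_le h05.le, integral_sub i1 i2, sub_zero] at ftc
  have hD5 := hseg (1 / 5) (77 / 10) h05 le_rfl (by norm_num) (by norm_num)
  have hre : (∫ s in Ioc (0 : ℝ) (1 / 5), phi n (s * 2) * 2).re
      = ∫ s in Ioc (0 : ℝ) (1 / 5), (phi n (s * 2) * 2).re := (integral_re (𝕜 := ℂ) i2).symm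
  have hval : ∀ s : ℝ, (phi n (s * 2) * 2).re
      = Real.exp (-((s * 2)⁻¹) ^ 3) * (8 - s * 2) ^ n * 2 := by
    intro s
    have : phi n (s * 2) * 2
        = ((Real.exp (-((s * 2)⁻¹) ^ 3) * (8 - s * 2) ^ n * 2 : ℝ) : ℂ) := by
      simp [phi, rho]
    rw [this, ofReal_re]
  have i3 : IntegrableOn (fun s : ℝ => (phi n (s * 2) * 2).re) (Ioc 0 (1 / 5)) := i2.re
  have hsub : Ioc (1 / 20 : ℝ) (1 / 10) ⊆ Ioc 0 (1 / 5) := Ioc_subset_Ioc (by norm_num) (by norm_num)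
  have l1 : ∫ s in Ioc (1 / 20 : ℝ) (1 / 10), (phi n (s * 2) * 2).re
      ≤ ∫ s in Ioc (0 : ℝ) (1 / 5), (phi n (s * 2) * 2).re := by
    refine setIntegral_mono_set i3 ?_ hsub.eventuallyLE
    refine (ae_restrict_iff' measurableSet_Ioc).2 (Eventually.of_forall fun s hs => ?_)
    simp only [Pi.zero_apply, hval]
    have : 0 ≤ 8 - s * 2 := by linarith [hs.2]
    positivity
  have l2 : ∫ s in Ioc (1 / 20 : ℝ) (1 / 10), (Real.exp (-1000) * (39 / 5) ^ n * 2 : ℝ)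
      ≤ ∫ s in Ioc (1 / 20 : ℝ) (1 / 10), (phi n (s * 2) * 2).re := by
    refine setIntegral_mono_on (integrableOn_const (by simp)) (i3.mono_set hsub) measurableSet_Ioc
      fun s hs => ?_
    rw [hval]
    have h1 : (s * 2)⁻¹ ≤ 10 := by
      rw [inv_le_comm₀ (by linarith [hs.1]) (by norm_num)]; linarith [hs.1]
    have h2 : ((s * 2)⁻¹) ^ 3 ≤ 10 ^ 3 :=
      pow_le_pow_left₀ (inv_nonneg.2 (by linarith [hs.1])) h1 3
    gcongr
    · linarith
    · linarith [hs.2]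
  rw [setIntegral_const] at l2
  simp only [Real.volume_real_Ioc, smul_eq_mul] at l2
  have l3 : max (1 / 10 - 1 / 20 : ℝ) 0 = 1 / 20 := by norm_num
  rw [l3] at l2
  have hfin := congrArg re ftc
  rw [sub_re, hre] at hfin
  have l4 := (neg_abs_le _).trans' (neg_le_neg (abs_re_le_norm (D (1 / 5))))
  have l5 : (0 : ℝ) ≤ (77 / 10) ^ n := by positivity
  linarith

end Pool.Agent.H3.Cc
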