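import Pool.Agent.H3.CcD

open Complex Metric Filter Topology MeasureTheory Set
open scoped ComplexConjugate InnerProductSpace ENNReal

namespace Pool.Agent.H3.Cc

noncomputable def zeta (s : ℝ) : ℂ := -I - s * (2 - I)

lemma zeta_le {s : ℝ} (hs : s ∈ Ioc (0 : ℝ) (1 / 5)) : ‖zeta s‖ ≤ 1 - s / 2 := by
  refine le_of_sq_le_sq' ?_ (by linarith [hs.2])
  rw [nu]; simp [zeta]; nlinarith [hs.1, hs.2]

lemma zeta_lt {s : ℝ} (hs : s ∈ Ioc (0 : ℝ) (1 / 5)) : ‖zeta s‖ < 1 := by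
  linarith [zeta_le hs, hs.1]

lemma cube_bd {a e v : ℝ} (ha : 0 ≤ a) (he : 0 < e) (hv : 0 ≤ v) :
    a * v ^ 2 - e * v ^ 3 ≤ a * (a / e) ^ 2 := by
  by_cases h : v ≤ a / e
  · have : v ^ 2 ≤ (a / e) ^ 2 := pow_le_pow_left₀ hv h 2
    have h2 : 0 ≤ e * v ^ 3 := by positivity
    nlinarith
  · have h1 : a < v * e := (div_lt_iff₀ he).1 (not_le.1 h)
    have h2 : 0 ≤ a * (a / e) ^ 2 := by positivity
    nlinarith [sq_nonneg v]

theorem A_not_cc : ¬ CC A := by
  rintro ⟨x, hx⟩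
  by_cases h0 : ∃ z : ℂ, ‖z‖ < 1 ∧ ps x z = 0
  · obtain ⟨z, hz, hz0⟩ := h0
    have := half hx (innerSL ℂ (K (conj z))) 0 (by
      rintro _ ⟨n, rfl⟩
      rw [innerSL_apply_apply, K_inner _ hz, ps_Apow _ hz, hz0]; simp) (K 0)
    rw [innerSL_apply_apply, K_inner _ hz, ps_e0] at this
    simp at this
  push Not at h0
  obtain ⟨C, D, hC, hD, hb⟩ := logb x h0
  set w : ℝ → ℂ := fun s => rho (s * (2 - I)) * (2 - I) * (ps x (zeta s))⁻¹ with hw
  set M : ℝ := 6 * D * Real.exp ((4 * C + 1) * ((4 * C + 1) / (2 / 125)) ^ 2) with hM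
  have n2 : ‖(2 - I : ℂ)‖ ≤ 3 := by
    calc _ ≤ ‖(2 : ℂ)‖ + ‖I‖ := norm_sub_le _ _
      _ = 3 := by simp; norm_num
  have hbd : ∀ (y : H), ∀ s ∈ Ioc (0 : ℝ) (1 / 5),
      ‖w s * ⟪K (conj (zeta s)), y⟫_ℂ‖ ≤ M * ‖y‖ := by
    intro y s hs
    have hs0 := hs.1
    rw [K_inner _ (zeta_lt hs)]
    have h1 := ps_norm one_pos (coef_le y) (zeta_le hs) (by linarith)
    have e1 : (1 - (1 - s / 2) / 1)⁻¹ = 2 * s⁻¹ := by
      rw [show 1 - (1 - s / 2) / 1 = s / 2 by ring, inv_div, div_eq_mul_inv]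
    rw [e1] at h1
    have h2 := hb _ (zeta_lt hs)
    have h3 : C / (1 - ‖zeta s‖) ^ 2 ≤ 4 * C * s⁻¹ ^ 2 := by
      have : C / (1 - ‖zeta s‖) ^ 2 ≤ C / (s / 2) ^ 2 := by
        gcongr; linarith [zeta_le hs]
      refine this.trans (le_of_eq ?_)
      field_simp; ring
    have h4 : ‖(ps x (zeta s))⁻¹‖ ≤ D * Real.exp (4 * C * s⁻¹ ^ 2) := h2.trans (by gcongr)
    have h5 : 1 ≤ s⁻¹ := by
      rw [le_inv_comm₀ one_pos hs0]; linarith [hs.2]
    have h6 : s⁻¹ ≤ Real.exp (s⁻¹ ^ 2) := by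
      nlinarith [Real.add_one_le_exp (s⁻¹ ^ 2)]
    have h7 := cube_bd (a := 4 * C + 1) (e := 2 / 125) (v := s⁻¹) (by positivity) (by norm_num)
      (by positivity)
    simp only [hw, norm_mul, rho_ray hs0]
    calc _ ≤ Real.exp (-(2 / 125 * s⁻¹ ^ 3)) * 3 * (D * Real.exp (4 * C * s⁻¹ ^ 2))
          * (‖y‖ * (2 * Real.exp (s⁻¹ ^ 2))) := by
          gcongr
          exact h1.trans (by gcongr)
      _ = 6 * D * (Real.exp (-(2 / 125 * s⁻¹ ^ 3)) * Real.exp (4 * C * s⁻¹ ^ 2)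
          * Real.exp (s⁻¹ ^ 2)) * ‖y‖ := by ring
      _ ≤ M * ‖y‖ := by
          rw [hM, ← Real.exp_add, ← Real.exp_add]
          gcongr
          linarith
  have hint : ∀ y : H, IntegrableOn (fun s => w s * ⟪K (conj (zeta s)), y⟫_ℂ)
      (Ioc (0 : ℝ) (1 / 5)) := by
    intro y
    have hc : ∀ (y : H), ∀ s ∈ Ioc (0 : ℝ) (1 / 5), ContinuousAt (fun s => ps y (zeta s)) s :=
      fun y s hs => ContinuousAt.comp (f := zeta)
        (ps_diff one_pos (coef_le y) (zeta_lt hs)).continuousAt (by unfold zeta; fun_prop)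
    have := integ (f := fun s => w s * ps y (zeta s)) (fun s hs => by
      have h1 : ((s : ℂ) * (2 - I)) ≠ 0 := mul_ne_zero (ofReal_ne_zero.2 hs.1.ne') (by
        intro h; have := congrArg re h; simp at this)
      have h2 := ContinuousAt.comp (f := fun s : ℝ => (s : ℂ) * (2 - I))
        (rho_cont h1).continuousAt (by fun_prop)
      exact ((h2.mul continuousAt_const).mul ((hc x s hs).inv₀ (h0 _ (zeta_lt hs)))).mul
        (hc y s hs)) (M * ‖y‖) (fun s hs => by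
      have := hbd y s hs
      rwa [K_inner _ (zeta_lt hs)] at this)
    refine this.congr_fun (fun s hs => ?_) measurableSet_Ioc
    simp only [K_inner _ (zeta_lt hs)]
  let L0 : H →ₗ[ℂ] ℂ :=
    { toFun := fun y => ∫ s in Ioc (0 : ℝ) (1 / 5), w s * ⟪K (conj (zeta s)), y⟫_ℂ
      map_add' := fun y z => by
        rw [← integral_add (hint y) (hint z)]
        simp only [inner_add_right, mul_add]
      map_smul' := fun c y => by
        simp only [inner_smul_right, RingHom.id_apply, smul_eq_mul]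
        rw [← integral_const_mul]
        congr 1; funext s; ring }
  let L : H →L[ℂ] ℂ := L0.mkContinuous (M * (1 / 5)) fun y => by
    have := norm_setIntegral_le_of_norm_le_const (μ := volume) (by simp) (hbd y)
    simp only [Real.volume_real_Ioc] at this
    have l3 : max (1 / 5 - 0 : ℝ) 0 = 1 / 5 := by norm_num
    rw [l3] at this
    calc _ ≤ _ := this
      _ = _ := by ring
  have hL : ∀ n : ℕ, L ((A ^ n) x)
      = ∫ s in Ioc (0 : ℝ) (1 / 5), phi n (s * (2 - I)) * (2 - I) := by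
    intro n
    refine setIntegral_congr_fun measurableSet_Ioc fun s hs => ?_
    have h1 := h0 _ (zeta_lt hs)
    simp only [K_inner _ (zeta_lt hs), ps_Apow _ (zeta_lt hs), hw, phi]
    have : 8 + I + zeta s = 8 - s * (2 - I) := by unfold zeta; ring
    rw [this]
    field_simp
  set a : ℝ := 1 / 10 * Real.exp (-1000) with ha
  have ha0 : 0 < a := by positivity
  obtain ⟨N, hN⟩ := pow_unbounded_of_one_lt a⁻¹ (by norm_num : (1 : ℝ) < 78 / 77)
  have hpos : ∀ n, N ≤ n → 0 < a * (39 / 5) ^ n - (77 / 10) ^ n := by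
    intro n hn
    have h1 : (78 / 77 : ℝ) ^ N ≤ (78 / 77) ^ n := pow_le_pow_right₀ (by norm_num) hn
    have h2 : 1 < a * (78 / 77) ^ n := by
      rw [← inv_mul_lt_iff₀ ha0]; linarith
    have h3 : (39 / 5 : ℝ) ^ n = (78 / 77) ^ n * (77 / 10) ^ n := by
      rw [← mul_pow]; norm_num
    have h4 : (0 : ℝ) < (77 / 10) ^ n := by positivity
    rw [h3]; nlinarith
  have := half hx L ((77 / 10) ^ N) (by
    rintro _ ⟨n, rfl⟩
    have h1 := lower n
    rw [← hL, ← ha] at h1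
    show _ ≤ (L ((A ^ n) x)).re
    by_cases hn : N ≤ n
    · have := hpos n hn
      have h4 : (0 : ℝ) < (77 / 10) ^ N := by positivity
      linarith
    · have h2 : (77 / 10 : ℝ) ^ n ≤ (77 / 10) ^ N :=
        pow_le_pow_right₀ (by norm_num) (not_le.1 hn).le
      have h3 : 0 ≤ a * (39 / 5) ^ n := by positivity
      linarith) ((A ^ N) x)
  have h1 := lower N
  rw [← hL, this, ← ha] at h1
  linarith [hpos N le_rfl]

end Pool.Agent.H3.Cc
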