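import Mathlib

set_option autoImplicit false

namespace Pool.Agent.H3.Coh

open Complex Set Metric Filter Topology

/-- very lacunary frequencies -/
noncomputable def mu (n : ℕ) : ℝ := (1 / 2) ^ (n ^ 2)

lemma mu_pos (n : ℕ) : 0 < mu n := by unfold mu; positivity

lemma mu_le (n : ℕ) : mu n ≤ (1 / 2) ^ n := by
  unfold mu
  apply pow_le_pow_of_le_one (by norm_num) (by norm_num)
  nlinarith

lemma mu_sum : Summable mu :=
  Summable.of_nonneg_of_le (fun n => (mu_pos n).le) mu_le summable_geometric_two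

lemma mu_lt {m n : ℕ} (h : m < n) : mu n ≤ (1 / 2) ^ (m + n) * mu m := by
  unfold mu
  rw [← pow_add]
  apply pow_le_pow_of_le_one (by norm_num) (by norm_num)
  obtain ⟨k, rfl⟩ := Nat.exists_eq_add_of_lt h
  nlinarith

lemma mu_succ (n : ℕ) : mu (n + 1) ≤ mu n / 2 := by
  have h : mu (n + 1) ≤ (1 / 2) ^ (n + (n + 1)) * mu n := mu_lt (Nat.lt_succ_self n)
  have h2 : ((1 : ℝ) / 2) ^ (n + (n + 1)) ≤ (1 / 2) ^ 1 :=
    pow_le_pow_of_le_one (by norm_num) (by norm_num) (by omega)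
  have := mu_pos n
  nlinarith

lemma tele_aux {x x' u K : ℝ} (hx : 0 ≤ x) (hx' : 0 ≤ x') (h : x' ≤ x / 2) (hK : 0 ≤ K)
    (h1 : u ≤ K * x) (h2 : u * x ≤ K) : u ≤ 6 * K * (x / (1 + x) - x' / (1 + x')) := by
  have h3 : x' / (1 + x') ≤ (x / 2) / (1 + x / 2) := by
    rw [div_le_div_iff₀ (by positivity) (by positivity)]; nlinarith
  have h4 : x / (1 + x) - (x / 2) / (1 + x / 2) = x / ((1 + x) * (2 + x)) := by
    field_simp; ring
  have h5 : u ≤ 6 * K * (x / ((1 + x) * (2 + x))) := by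
    rw [← mul_div_assoc, le_div_iff₀ (by positivity)]
    by_cases hu : u ≤ 0
    · have : 0 ≤ (1 + x) * (2 + x) := by positivity
      have : 0 ≤ 6 * K * x := by positivity
      nlinarith
    have hu' : 0 < u := not_le.mp hu
    rcases le_total x 1 with hx1 | hx1
    · have : (1 + x) * (2 + x) ≤ 6 := by nlinarith
      nlinarith
    · have : (1 + x) * (2 + x) ≤ 6 * x * x := by nlinarith
      have h6 : u * ((1 + x) * (2 + x)) ≤ u * (6 * x * x) := by gcongr
      nlinarith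
  have h6 : 0 ≤ 6 * K := by positivity
  calc u ≤ 6 * K * (x / ((1 + x) * (2 + x))) := h5
    _ ≤ _ := by rw [← h4]; gcongr

lemma tele {u : ℕ → ℝ} {ρ K : ℝ} (hρ : 0 ≤ ρ) (hK : 0 ≤ K) (h0 : ∀ n, 0 ≤ u n)
    (h1 : ∀ n, u n ≤ K * (mu n * ρ)) (h2 : ∀ n, u n * (mu n * ρ) ≤ K) : ∑' n, u n ≤ 6 * K := by
  apply Real.tsum_le_of_sum_range_le h0
  intro N
  have hx : ∀ n, 0 ≤ mu n * ρ := fun n => mul_nonneg (mu_pos n).le hρ
  have h3 : ∑ n ∈ Finset.range N, u n ≤
      6 * K * (mu 0 * ρ / (1 + mu 0 * ρ) - mu N * ρ / (1 + mu N * ρ)) := by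
    induction N with
    | zero => simp
    | succ N ih =>
      rw [Finset.sum_range_succ]
      have h4 := tele_aux (hx N) (hx (N + 1)) (by have := mu_succ N; nlinarith) hK (h1 N) (h2 N)
      linarith
  have h4 : mu 0 * ρ / (1 + mu 0 * ρ) ≤ 1 := by
    rw [div_le_one (by have := hx 0; positivity)]; linarith
  have h5 : 0 ≤ mu N * ρ / (1 + mu N * ρ) := by have := hx N; positivity
  have h6 : 0 ≤ 6 * K := by positivity
  nlinarith

lemma xexp {x : ℝ} (hx : 0 ≤ x) : x * Real.exp (-x) * x ≤ 2 := by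
  have h := Real.pow_div_factorial_le_exp x hx 2
  rw [Real.exp_neg]
  have hp := Real.exp_pos x
  have h2 : x * (Real.exp x)⁻¹ * x = x ^ 2 / Real.exp x := by field_simp
  rw [h2, div_le_iff₀ hp]
  norm_num [Nat.factorial] at h
  linarith

/-- the test series -/
noncomputable def T (c : ℕ → ℂ) (p : ℂ) : ℂ := ∑' n, c n * (mu n * exp (-(mu n * p)))

lemma norm_term (n : ℕ) (p : ℂ) :
    ‖(mu n : ℂ) * exp (-(mu n * p))‖ = mu n * Real.exp (-(mu n * p.re)) := by
  rw [norm_mul, Complex.norm_exp, Complex.norm_real, Real.norm_of_nonneg (mu_pos n).le]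
  simp

lemma term_le {c : ℕ → ℂ} (hc : ∀ n, ‖c n‖ ≤ 1) (n : ℕ) (p : ℂ) :
    ‖c n * (mu n * exp (-(mu n * p)))‖ ≤ mu n * Real.exp (-(mu n * p.re)) := by
  rw [norm_mul, norm_term]
  exact mul_le_of_le_one_left (by have := mu_pos n; positivity) (hc n)

lemma term_le' {c : ℕ → ℂ} (hc : ∀ n, ‖c n‖ ≤ 1) (n : ℕ) {p : ℂ} (hp : 0 ≤ p.re) :
    ‖c n * (mu n * exp (-(mu n * p)))‖ ≤ mu n := by
  refine (term_le hc n p).trans (mul_le_of_le_one_right (mu_pos n).le ?_)
  rw [Real.exp_le_one_iff]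
  have := mu_pos n
  have : 0 ≤ mu n * p.re := by positivity
  linarith

lemma T_line {c : ℕ → ℂ} (hc : ∀ n, ‖c n‖ ≤ 1) (n : ℕ) {p : ℂ} (hp : p.re = 1 / mu n) :
    ‖T c p - c n * (mu n * exp (-(mu n * p)))‖ ≤ 4 * (1 / 2) ^ n * mu n := by
  classical
  have hn := mu_pos n
  have hp0 : 0 ≤ p.re := by rw [hp]; positivity
  have hs : Summable (fun m => c m * (mu m * exp (-(mu m * p)))) :=
    Summable.of_norm_bounded mu_sum (fun m => term_le' hc m hp0)
  unfold T
  rw [hs.tsum_eq_add_tsum_ite n, add_sub_cancel_left]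
  have h1 : HasSum (fun m : ℕ => (1 / 2 : ℝ) ^ m * (2 * (1 / 2) ^ n * mu n))
      (2 * (2 * (1 / 2) ^ n * mu n)) := hasSum_geometric_two.mul_right _
  refine (tsum_of_norm_bounded h1 (fun m => ?_)).trans (le_of_eq (by ring))
  have hm := mu_pos m
  split_ifs with h
  · rw [norm_zero]; positivity
  refine (term_le hc m p).trans ?_
  rw [hp]
  rcases lt_or_gt_of_ne h with h2 | h2
  · have h3 := mu_lt h2
    have h4 := xexp (x := mu m * (1 / mu n)) (by positivity)
    have h5 : mu m * (1 / mu n) * Real.exp (-(mu m * (1 / mu n))) * (mu m * (1 / mu n)) =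
        mu m * Real.exp (-(mu m * (1 / mu n))) * mu m / (mu n * mu n) := by field_simp
    rw [h5, div_le_iff₀ (by positivity)] at h4
    have h6 : mu m * Real.exp (-(mu m * (1 / mu n))) * mu m ≤
        (1 / 2) ^ m * (2 * (1 / 2) ^ n * mu n) * mu m := by
      refine h4.trans ?_
      rw [pow_add] at h3
      nlinarith
    exact le_of_mul_le_mul_right h6 hm
  · have h3 := mu_lt h2
    have h4 : Real.exp (-(mu m * (1 / mu n))) ≤ 1 := by
      rw [Real.exp_le_one_iff]
      have : 0 ≤ mu m * (1 / mu n) := by positivity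
      linarith
    rw [pow_add] at h3
    have h5 : 0 ≤ (1 / 2 : ℝ) ^ n * (1 / 2) ^ m * mu n := by positivity
    nlinarith

lemma pl {f : ℂ → ℂ} (hd : DifferentiableOn ℂ f {p | 0 < p.re}) {C : ℝ}
    (hC : ∀ p : ℂ, 0 < p.re → ‖f p‖ ≤ C) {Y ε : ℝ} (hY : 0 < Y)
    (hε : ∀ p : ℂ, p.re = Y → ‖f p‖ ≤ ε) {p : ℂ} (hp : Y ≤ p.re) : ‖f p‖ ≤ ε := by
  have hd2 : DifferentiableOn ℂ (fun z => f (z + Y)) {z : ℂ | -Y < z.re} := by
    refine hd.comp (by fun_prop) ?_
    intro z hz
    simp only [mem_setOf_eq, add_re, ofReal_re] at hz ⊢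
    linarith
  have hcl : DiffContOnCl ℂ (fun z => f (z + Y)) {z : ℂ | 0 < z.re} := by
    refine DifferentiableOn.diffContOnCl (hd2.mono ?_)
    rw [Complex.closure_setOf_lt_re]
    intro z hz
    simp only [mem_setOf_eq] at hz ⊢
    linarith
  have h := PhragmenLindelof.right_half_plane_of_bounded_on_real (f := fun z => f (z + Y))
    (C := ε) (z := p - Y) hcl ?_ ?_ ?_ ?_
  · simpa using h
  · refine ⟨0, by norm_num, 0, ?_⟩
    refine Asymptotics.IsBigO.of_bound C ?_
    refine eventually_inf_principal.mpr (Eventually.of_forall fun z hz => ?_)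
    simp only [zero_mul, Real.exp_zero, norm_one, mul_one]
    apply hC
    simp only [mem_setOf_eq, add_re, ofReal_re] at hz ⊢
    linarith
  · refine ⟨C, ?_⟩
    rw [eventually_map]
    filter_upwards [eventually_gt_atTop 0] with x hx
    apply hC
    simp only [add_re, ofReal_re]
    linarith
  · intro x
    apply hε
    simp
  · simp only [sub_re, ofReal_re]; linarith

theorem core {R : Type} [CommRing R] (ev : R →+* (ℂ → ℂ)) (K : Ideal R)
    (hd : ∀ r, DifferentiableOn ℂ (ev r) {p | 0 < p.re})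
    (hb : ∀ r, ∃ C, ∀ p : ℂ, 0 < p.re → ‖ev r p‖ ≤ C)
    (hK : ∀ a ∈ K, ∃ C, ∀ p : ℂ, 0 < p.re → ‖ev a p‖ * p.re ≤ C)
    (hT : ∀ c : ℕ → ℂ, (∀ n, ‖c n‖ ≤ 1) → ∃ a ∈ K, ∀ p : ℂ, 0 < p.re → ev a p = T c p) :
    ¬ K.FG := by
  classical
  intro hfg
  let N : Ideal R :=
    { carrier := {r | ∀ ε > 0, ∃ Y, ∀ p : ℂ, Y ≤ p.re → ‖ev r p‖ ≤ ε}
      zero_mem' := fun ε hε => ⟨0, fun p _ => by simp [hε.le]⟩
      add_mem' := by
        intro a b ha hb ε hε
        obtain ⟨Y1, h1⟩ := ha (ε / 2) (by linarith)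
        obtain ⟨Y2, h2⟩ := hb (ε / 2) (by linarith)
        refine ⟨max Y1 Y2, fun p hp => ?_⟩
        rw [map_add, Pi.add_apply]
        have := norm_add_le (ev a p) (ev b p)
        linarith [h1 p (le_of_max_le_left hp), h2 p (le_of_max_le_right hp)]
      smul_mem' := by
        intro r a ha ε hε
        obtain ⟨C, hC⟩ := hb r
        have hC0 : 0 ≤ C := (norm_nonneg _).trans (hC 1 (by simp))
        obtain ⟨Y, h1⟩ := ha (ε / (C + 1)) (by positivity)
        refine ⟨max Y 1, fun p hp => ?_⟩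
        rw [smul_eq_mul, map_mul, Pi.mul_apply, norm_mul]
        have h2 := h1 p (le_of_max_le_left hp)
        have h3 := hC p (by linarith [le_of_max_le_right hp])
        calc _ ≤ (C + 1) * (ε / (C + 1)) := by gcongr; linarith
          _ = ε := by field_simp }
  have hN : N ≠ ⊤ := by
    rw [Ideal.ne_top_iff_one]
    intro h1
    obtain ⟨Y, hY⟩ := h1 (1 / 2) (by norm_num)
    have := hY Y (by simp)
    norm_num at this
  haveI : Nontrivial (R ⧸ N) := Ideal.Quotient.nontrivial_iff.mpr hN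
  obtain ⟨k, h, hh⟩ := Submodule.fg_iff_exists_fin_generating_family.mp hfg
  let c : Fin (k + 1) → ℕ → ℂ := fun l n => if n % (k + 1) = l then 1 else 0
  have hc : ∀ l n, ‖c l n‖ ≤ 1 := by
    intro l n; simp only [c]; split_ifs <;> simp
  choose t htK ht using fun l => hT (c l) (hc l)
  have hb' : ∀ l, ∃ b : Fin k → R, ∑ i, b i • h i = t l := by
    intro l
    have := htK l
    rw [← hh] at this
    exact (Submodule.mem_span_range_iff_exists_fun R).mp this
  choose b hb' using hb'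
  let v : Fin (k + 1) → (Fin k → R ⧸ N) := fun l i => Ideal.Quotient.mk N (b l i)
  have hdep : ¬ LinearIndependent (R ⧸ N) v := by
    intro hli
    have := hli.fintype_card_le_finrank
    simp at this
  obtain ⟨g, hg, l0, hl0⟩ := Fintype.not_linearIndependent_iff.mp hdep
  choose d hd' using fun l => Ideal.Quotient.mk_surjective (g l)
  have he : ∀ i, ∑ l, d l * b l i ∈ N := by
    intro i
    rw [← Ideal.Quotient.eq_zero_iff_mem, map_sum]
    have := congrFun hg i
    simp only [Finset.sum_apply, Pi.smul_apply, smul_eq_mul, Pi.zero_apply, v] at this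
    simpa [hd'] using this
  have hrel : ∑ l, d l * t l = ∑ i, (∑ l, d l * b l i) * h i := by
    simp only [← hb', smul_eq_mul, Finset.mul_sum, Finset.sum_mul, mul_assoc]
    exact Finset.sum_comm
  have hhK : ∀ i, h i ∈ K := fun i => by
    rw [← hh]; exact Submodule.subset_span ⟨i, rfl⟩
  choose C hC using fun i => hK (h i) (hhK i)
  choose D hD using fun l => hb (d l)
  have hC0 : ∀ i, 0 ≤ C i := fun i => le_trans (by simp) (hC i 1 (by simp))
  have hD0 : ∀ l, 0 ≤ D l := fun l => (norm_nonneg _).trans (hD l 1 (by simp))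
  apply hl0
  rw [← hd', Ideal.Quotient.eq_zero_iff_mem]
  intro ε hε
  set SC := ∑ i, C i with hSC
  set SD := ∑ l, D l with hSD
  have hSC0 : 0 ≤ SC := Finset.sum_nonneg (fun i _ => hC0 i)
  have hSD0 : 0 ≤ SD := Finset.sum_nonneg (fun i _ => hD0 i)
  set η : ℝ := ε / (6 * (SC + 1)) with hη
  have hη0 : 0 < η := by positivity
  choose Y hY using fun i => he i η hη0
  have hlim : Tendsto (fun n : ℕ => ((1 : ℝ) / 2) ^ n) atTop (𝓝 0) :=
    tendsto_pow_atTop_nhds_zero_of_lt_one (by norm_num) (by norm_num)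
  have hev1 : ∀ᶠ n : ℕ in atTop, ((1 : ℝ) / 2) ^ n < ε / (24 * (SD + 1)) :=
    hlim.eventually (gt_mem_nhds (by positivity))
  have hev2 : ∀ᶠ n : ℕ in atTop, ((1 : ℝ) / 2) ^ n < 1 / (∑ i, |Y i| + 1) :=
    hlim.eventually (gt_mem_nhds (by positivity))
  obtain ⟨n0, hn0⟩ := eventually_atTop.mp (hev1.and hev2)
  set n := (k + 1) * n0 + l0 with hn
  obtain ⟨hn1, hn2⟩ := hn0 n (by rw [hn]; nlinarith)
  have hmod : n % (k + 1) = l0 := by
    rw [hn, Nat.mul_add_mod, Nat.mod_eq_of_lt l0.2]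
  have hμ := mu_pos n
  have hYn : ∀ i, Y i ≤ 1 / mu n := by
    intro i
    have h1 : |Y i| ≤ ∑ i, |Y i| :=
      Finset.single_le_sum (f := fun i => |Y i|) (fun _ _ => abs_nonneg _) (Finset.mem_univ i)
    have h2 := (mu_le n).trans hn2.le
    rw [le_div_iff₀ (by positivity)] at h2
    rw [le_div_iff₀ hμ]
    have := le_abs_self (Y i)
    nlinarith
  refine ⟨1 / mu n, fun p hp => ?_⟩
  refine pl (hd _) (hD l0) (by positivity) ?_ hp
  intro q hq
  have hq0 : 0 < q.re := by rw [hq]; positivity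
  set E : ℂ := mu n * exp (-(mu n * q)) with hE
  have hEn : mu n / 3 ≤ ‖E‖ := by
    rw [hE, norm_term, hq, mul_one_div_cancel hμ.ne', Real.exp_neg, div_eq_mul_inv]
    have h1 := Real.exp_one_lt_d9
    gcongr
    linarith
  have h1 : ∑ l, ev (d l) q * T (c l) q = ∑ i, ev (∑ l, d l * b l i) q * ev (h i) q := by
    have e0 : ev (∑ l, d l * t l) q = ev (∑ i, (∑ l, d l * b l i) * h i) q := by rw [hrel]
    rw [map_sum, map_sum, Finset.sum_apply, Finset.sum_apply] at e0
    calc _ = ∑ l, ev (d l * t l) q :=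
          Finset.sum_congr rfl (fun l _ => by rw [map_mul, Pi.mul_apply, ht l q hq0])
      _ = _ := e0
      _ = _ := Finset.sum_congr rfl (fun l _ => by rw [map_mul, Pi.mul_apply])
  have h2 : ‖∑ i, ev (∑ l, d l * b l i) q * ev (h i) q‖ ≤ η * SC * mu n := by
    refine (norm_sum_le _ _).trans ?_
    rw [hSC, Finset.mul_sum, Finset.sum_mul]
    refine Finset.sum_le_sum (fun i _ => ?_)
    rw [norm_mul]
    have h3 := hY i q (by rw [hq]; exact hYn i)
    have h4 := hC i q hq0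
    rw [hq, mul_one_div, div_le_iff₀ hμ] at h4
    calc _ ≤ η * (C i * mu n) := by gcongr
      _ = _ := by ring
  have h3 : ‖∑ l, ev (d l) q * (T (c l) q - c l n * E)‖ ≤ SD * (4 * (1 / 2) ^ n * mu n) := by
    refine (norm_sum_le _ _).trans ?_
    rw [hSD, Finset.sum_mul]
    refine Finset.sum_le_sum (fun l _ => ?_)
    rw [norm_mul]
    have h4 := T_line (hc l) n hq
    have h5 := hD l q hq0
    have h6 := hD0 l
    gcongr
  have h4 : ∑ l, ev (d l) q * (c l n * E) = ev (d l0) q * E := by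
    rw [Finset.sum_eq_single l0]
    · simp [c, hmod]
    · intro l _ hl
      have : ¬ (n % (k + 1) = l) := by
        rw [hmod]; exact fun h => hl (Fin.ext h.symm)
      simp [c, this]
    · simp
  have h5 : ev (d l0) q * E = ∑ i, ev (∑ l, d l * b l i) q * ev (h i) q -
      ∑ l, ev (d l) q * (T (c l) q - c l n * E) := by
    rw [← h1, ← h4, ← Finset.sum_sub_distrib]
    exact Finset.sum_congr rfl (fun l _ => by ring)
  have h6 : ‖ev (d l0) q‖ * ‖E‖ ≤ η * SC * mu n + SD * (4 * (1 / 2) ^ n * mu n) := by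
    rw [← norm_mul, h5]
    exact (norm_sub_le _ _).trans (add_le_add h2 h3)
  have h7 : η * SC ≤ ε / 6 := by
    rw [hη, div_mul_eq_mul_div, div_le_div_iff₀ (by positivity) (by norm_num)]
    nlinarith
  have h8 : SD * (4 * (1 / 2) ^ n) ≤ ε / 6 := by
    rw [lt_div_iff₀ (by positivity)] at hn1
    have : (0 : ℝ) ≤ (1 / 2) ^ n := by positivity
    nlinarith
  have h9 : ‖ev (d l0) q‖ * (mu n / 3) ≤ ε * (mu n / 3) := by
    calc _ ≤ ‖ev (d l0) q‖ * ‖E‖ := by gcongr
      _ ≤ η * SC * mu n + SD * (4 * (1 / 2) ^ n) * mu n := by rw [mul_assoc SD]; exact h6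
      _ ≤ ε / 6 * mu n + ε / 6 * mu n := by gcongr
      _ = _ := by ring
  exact le_of_mul_le_mul_right h9 (by positivity)

end Pool.Agent.H3.Coh
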