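import Pool.Agent.H3.CohA

set_option autoImplicit false

namespace Pool.Agent.H3.Coh

open Complex Set Metric Filter Topology

/-- `f : Ω → ℂ` is holomorphic and bounded. -/
def IsBH (Ω : Set (ℂ × ℂ)) (f : Ω → ℂ) : Prop :=
  (∃ F : ℂ × ℂ → ℂ, DifferentiableOn ℂ F Ω ∧ ∀ z : Ω, f z = F z) ∧ ∃ C : ℝ, ∀ z, ‖f z‖ ≤ C

theorem isBH_mul {Ω : Set (ℂ × ℂ)} {f g : Ω → ℂ} (hf : IsBH Ω f) (hg : IsBH Ω g) :
    IsBH Ω (f * g) := by
  obtain ⟨⟨F, hF, hf⟩, C, hC⟩ := hf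
  obtain ⟨⟨G, hG, hg⟩, D, hD⟩ := hg
  refine ⟨⟨F * G, hF.mul hG, fun z => by simp [hf, hg]⟩, C * D, fun z => ?_⟩
  rw [Pi.mul_apply, norm_mul]
  exact mul_le_mul (hC z) (hD z) (norm_nonneg _) ((norm_nonneg _).trans (hC z))

theorem isBH_one (Ω : Set (ℂ × ℂ)) : IsBH Ω 1 :=
  ⟨⟨fun _ => 1, differentiableOn_const _, fun _ => rfl⟩, 1, fun _ => by simp⟩

theorem isBH_add {Ω : Set (ℂ × ℂ)} {f g : Ω → ℂ} (hf : IsBH Ω f) (hg : IsBH Ω g) :
    IsBH Ω (f + g) := by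
  obtain ⟨⟨F, hF, hf⟩, C, hC⟩ := hf
  obtain ⟨⟨G, hG, hg⟩, D, hD⟩ := hg
  refine ⟨⟨F + G, hF.add hG, fun z => by simp [hf, hg]⟩, C + D, fun z => ?_⟩
  exact (norm_add_le _ _).trans (add_le_add (hC z) (hD z))

theorem isBH_zero (Ω : Set (ℂ × ℂ)) : IsBH Ω 0 :=
  ⟨⟨fun _ => 0, differentiableOn_const _, fun _ => rfl⟩, 0, fun _ => by simp⟩

theorem isBH_neg {Ω : Set (ℂ × ℂ)} {f : Ω → ℂ} (hf : IsBH Ω f) : IsBH Ω (-f) := by
  obtain ⟨⟨F, hF, hf⟩, C, hC⟩ := hf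
  exact ⟨⟨-F, hF.neg, fun z => by simp [hf]⟩, C, fun z => by simpa using hC z⟩

/-- The ring of bounded holomorphic functions on a subset `Ω` of `ℂ²`. -/
def HInf (Ω : Set (ℂ × ℂ)) : Subring (Ω → ℂ) where
  carrier := {f | IsBH Ω f}
  mul_mem' := isBH_mul
  one_mem' := isBH_one Ω
  add_mem' := isBH_add
  zero_mem' := isBH_zero Ω
  neg_mem' := isBH_neg

/-- Some two finitely generated ideals of `R` have an intersection that is not finitely
generated. -/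
def BadPair (R : Type) [CommRing R] : Prop :=
  ∃ I J : Ideal R, I.FG ∧ J.FG ∧ ¬ (I ⊓ J).FG

/-- the open bidisc -/
def bidisc : Set (ℂ × ℂ) := {z | ‖z.1‖ < 1 ∧ ‖z.2‖ < 1}

/-- the open unit ball of ℂ² -/
def ballTwo : Set (ℂ × ℂ) := {z | ‖z.1‖ ^ 2 + ‖z.2‖ ^ 2 < 1}

/-- element of `HInf` from a bounded holomorphic function -/
def mkH {Ω : Set (ℂ × ℂ)} (F : ℂ × ℂ → ℂ) (hF : DifferentiableOn ℂ F Ω) (C : ℝ)
    (hC : ∀ z ∈ Ω, ‖F z‖ ≤ C) : HInf Ω :=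
  ⟨fun z => F z, ⟨F, hF, fun _ => rfl⟩, C, fun z => hC z z.2⟩

theorem reduce {Ω : Set (ℂ × ℂ)} (f g : HInf Ω) (σ : ℂ → ℂ × ℂ)
    (hσ : DifferentiableOn ℂ σ {p | 0 < p.re}) (hσΩ : ∀ p : ℂ, 0 < p.re → σ p ∈ Ω)
    (hzero : ∀ z : Ω, f.1 z = 0 → ∃ p : ℂ, 0 < p.re ∧ σ p = z)
    (hest : ∀ (a b : HInf Ω) (C : ℝ), a * f = b * g → (∀ z, ‖b.1 z‖ ≤ C) →
      ∀ (p : ℂ) (hp : 0 < p.re), ‖a.1 ⟨σ p, hσΩ p hp⟩‖ * p.re ≤ 4 * C)
    (hT : ∀ c : ℕ → ℂ, (∀ n, ‖c n‖ ≤ 1) → ∃ a b : HInf Ω, a * f = b * g ∧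
      ∀ (p : ℂ) (hp : 0 < p.re), a.1 ⟨σ p, hσΩ p hp⟩ = T c p) :
    ¬ (Ideal.span {f} ⊓ Ideal.span {g}).FG := by
  classical
  intro hfg
  let σ' : ℂ → Ω := fun p => if h : 0 < p.re then ⟨σ p, hσΩ p h⟩ else ⟨σ 1, hσΩ 1 (by simp)⟩
  have hσ' : ∀ (p : ℂ) (h : 0 < p.re), σ' p = ⟨σ p, hσΩ p h⟩ := fun p h => dif_pos h
  let ev : HInf Ω →+* (ℂ → ℂ) :=
    { toFun := fun r p => r.1 (σ' p)
      map_one' := rfl
      map_mul' := fun _ _ => rfl
      map_zero' := rfl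
      map_add' := fun _ _ => rfl }
  have hev : ∀ r p, ev r p = r.1 (σ' p) := fun _ _ => rfl
  let L := LinearMap.toSpanSingleton (HInf Ω) (HInf Ω) f
  have hL : ∀ a, L a = a * f := fun a => by simp [L]
  have hinj : Function.Injective L := by
    rw [injective_iff_map_eq_zero]
    intro a ha
    rw [hL] at ha
    apply Subtype.ext
    funext z
    by_cases hz : f.1 z = 0
    · obtain ⟨p, hp, hpz⟩ := hzero z hz
      have h1 := hest a 0 0 (by rw [ha, zero_mul]) (fun z => by simp) p hp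
      have h2 : (⟨σ p, hσΩ p hp⟩ : Ω) = z := Subtype.ext hpz
      rw [h2, mul_zero] at h1
      have h3 : ‖a.1 z‖ ≤ 0 := by
        by_contra h4
        have := mul_pos (not_le.mp h4) hp
        linarith
      simpa using h3
    · have h1 : a.1 z * f.1 z = 0 := congrFun (congrArg Subtype.val ha) z
      simpa using (mul_eq_zero.mp h1).resolve_right hz
  let K : Ideal (HInf Ω) := Submodule.comap L (Ideal.span {g})
  have hKm : ∀ a, a ∈ K ↔ ∃ b, b * g = a * f := by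
    intro a
    simp only [K, Submodule.mem_comap, hL]
    exact Ideal.mem_span_singleton'
  have hKfg : K.FG := by
    apply Submodule.fg_of_fg_map_injective L hinj
    have h1 : Submodule.map L K = Ideal.span {f} ⊓ Ideal.span {g} := by
      simp only [K]
      rw [Submodule.map_comap_eq]
      congr 1
      exact (LinearMap.span_singleton_eq_range (HInf Ω) (HInf Ω) f).symm
    rw [h1]; exact hfg
  refine core ev K ?_ ?_ ?_ ?_ hKfg
  · rintro ⟨r, ⟨F, hF, hr⟩, hb⟩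
    refine (hF.comp hσ (fun p hp => hσΩ p hp)).congr (fun p hp => ?_)
    rw [hev, hσ' p hp]
    exact hr _
  · rintro ⟨r, hF, C, hC⟩
    exact ⟨C, fun p _ => hC _⟩
  · intro a ha
    obtain ⟨b, hb⟩ := (hKm a).mp ha
    obtain ⟨C, hC⟩ := b.2.2
    refine ⟨4 * C, fun p hp => ?_⟩
    rw [hev, hσ' p hp]
    exact hest a b C hb.symm hC p hp
  · intro c hc
    obtain ⟨a, b, hab, ha⟩ := hT c hc
    refine ⟨a, (hKm a).mpr ⟨b, hab.symm⟩, fun p hp => ?_⟩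
    rw [hev, hσ' p hp]
    exact ha p hp

noncomputable def cay (z : ℂ) : ℂ := (1 + z) / (1 - z)
noncomputable def icay (p : ℂ) : ℂ := (p - 1) / (p + 1)

lemma add_one_ne {p : ℂ} (hp : 0 < p.re) : p + 1 ≠ 0 := by
  intro h
  have := congrArg Complex.re h
  simp at this
  linarith

lemma one_sub_ne {z : ℂ} (hz : ‖z‖ < 1) : 1 - z ≠ 0 := by
  intro h
  have : z = 1 := by linear_combination -h
  rw [this] at hz
  simp at hz

lemma icay_lt {p : ℂ} (hp : 0 < p.re) : ‖icay p‖ < 1 := by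
  unfold icay
  rw [norm_div, div_lt_one (norm_pos_iff.mpr (add_one_ne hp))]
  apply lt_of_pow_lt_pow_left₀ 2 (norm_nonneg _)
  rw [Complex.sq_norm, Complex.sq_norm, Complex.normSq_apply, Complex.normSq_apply]
  simp
  linarith

lemma cay_icay {p : ℂ} (hp : 0 < p.re) : cay (icay p) = p := by
  have h := add_one_ne hp
  unfold cay icay
  have h1 : 1 - (p - 1) / (p + 1) = 2 / (p + 1) := by field_simp; ring
  rw [h1]
  field_simp
  ring

lemma icay_cay {z : ℂ} (hz : ‖z‖ < 1) : icay (cay z) = z := by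
  have h := one_sub_ne hz
  unfold cay icay
  have h1 : (1 + z) / (1 - z) + 1 = 2 / (1 - z) := by field_simp; ring
  rw [h1]
  field_simp
  ring

lemma cay_re {z : ℂ} (hz : ‖z‖ < 1) : (cay z).re * ‖1 - z‖ ^ 2 = 1 - ‖z‖ ^ 2 := by
  have h := one_sub_ne hz
  have h2 : Complex.normSq (1 - z) ≠ 0 := by simpa using h
  unfold cay
  rw [Complex.sq_norm, Complex.sq_norm, Complex.div_re]
  field_simp
  rw [Complex.normSq_apply]
  simp
  ring

lemma cay_pos {z : ℂ} (hz : ‖z‖ < 1) : 0 < (cay z).re := by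
  have h1 := cay_re hz
  have h2 : 0 < ‖1 - z‖ ^ 2 := pow_pos (norm_pos_iff.mpr (one_sub_ne hz)) 2
  have h3 : 0 < 1 - ‖z‖ ^ 2 := by have := norm_nonneg z; nlinarith
  by_contra h4
  have := mul_nonpos_of_nonpos_of_nonneg (not_lt.mp h4) h2.le
  linarith

lemma icay_diff : DifferentiableOn ℂ icay {p | 0 < p.re} := by
  unfold icay
  exact DifferentiableOn.div (by fun_prop) (by fun_prop) (fun p hp => add_one_ne hp)

lemma cay_diff : DifferentiableOn ℂ cay {z | ‖z‖ < 1} := by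
  unfold cay
  exact DifferentiableOn.div (by fun_prop) (by fun_prop) (fun p hp => one_sub_ne hp)

lemma T_diff {c : ℕ → ℂ} (hc : ∀ n, ‖c n‖ ≤ 1) : DifferentiableOn ℂ (T c) {p | 0 < p.re} := by
  unfold T
  refine Complex.differentiableOn_tsum_of_summable_norm mu_sum (fun n => by fun_prop)
    (isOpen_lt continuous_const Complex.continuous_re) (fun n p hp => term_le' hc n (le_of_lt hp))

lemma T_le {c : ℕ → ℂ} (hc : ∀ n, ‖c n‖ ≤ 1) {p : ℂ} (hp : 0 < p.re) : ‖T c p‖ ≤ ∑' n, mu n :=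
  tsum_of_norm_bounded mu_sum.hasSum (fun n => term_le' hc n hp.le)

lemma T_le2 {c : ℕ → ℂ} (hc : ∀ n, ‖c n‖ ≤ 1) {p : ℂ} (hp : 0 < p.re) :
    ‖T c p‖ * p.re ≤ 12 := by
  have h0 : ∀ n, 0 ≤ mu n * p.re := fun n => mul_nonneg (mu_pos n).le hp.le
  have h1 : ∀ n, Real.exp (-(mu n * p.re)) ≤ 1 := fun n => by
    rw [Real.exp_le_one_iff]; linarith [h0 n]
  have hs : Summable (fun n => mu n * Real.exp (-(mu n * p.re))) :=
    Summable.of_nonneg_of_le (fun n => by have := mu_pos n; positivity)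
      (fun n => mul_le_of_le_one_right (mu_pos n).le (h1 n)) mu_sum
  have h2 : ‖T c p‖ ≤ ∑' n, mu n * Real.exp (-(mu n * p.re)) :=
    tsum_of_norm_bounded hs.hasSum (fun n => term_le hc n p)
  have h3 := tele (u := fun n => mu n * Real.exp (-(mu n * p.re)) * p.re) (K := 2) hp.le
    (by norm_num) (fun n => by have := mu_pos n; positivity)
    (fun n => by have := h0 n; have := h1 n; have := Real.exp_pos (-(mu n * p.re)); nlinarith)
    (fun n => by have := xexp (h0 n); nlinarith)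
  rw [tsum_mul_right] at h3
  calc _ ≤ (∑' n, mu n * Real.exp (-(mu n * p.re))) * p.re := by gcongr
    _ ≤ 12 := by linarith

theorem ball_case : ∃ f g : HInf {z : ℂ × ℂ | ‖z.1‖ ^ 2 + ‖z.2‖ ^ 2 < 1},
    ¬ (Ideal.span {f} ⊓ Ideal.span {g}).FG := by
  set Ω : Set (ℂ × ℂ) := {z : ℂ × ℂ | ‖z.1‖ ^ 2 + ‖z.2‖ ^ 2 < 1} with hΩ
  have h1 : ∀ z ∈ Ω, ‖z.1‖ < 1 := by
    intro z hz
    have hz' : ‖z.1‖ ^ 2 + ‖z.2‖ ^ 2 < 1 := hz
    have := norm_nonneg z.1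
    nlinarith [sq_nonneg ‖z.2‖]
  have hσΩ : ∀ p : ℂ, 0 < p.re → (icay p, (0 : ℂ)) ∈ Ω := by
    intro p hp
    have := icay_lt hp
    have h0 := norm_nonneg (icay p)
    change ‖icay p‖ ^ 2 + ‖(0 : ℂ)‖ ^ 2 < 1
    rw [norm_zero]; nlinarith
  refine ⟨mkH (fun z => z.2 ^ 2) (by fun_prop) 1 ?_, mkH (fun z => (1 - z.1) ^ 2) (by fun_prop) 4 ?_,
    reduce _ _ (fun p => (icay p, 0)) (icay_diff.prodMk (differentiableOn_const _)) hσΩ ?_ ?_ ?_⟩
  · intro z hz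
    have hz' : ‖z.1‖ ^ 2 + ‖z.2‖ ^ 2 < 1 := hz
    rw [norm_pow]; nlinarith [sq_nonneg ‖z.1‖]
  · intro z hz
    have h2 := norm_sub_le (1 : ℂ) z.1
    have h3 := h1 z hz
    rw [norm_one] at h2
    rw [norm_pow]; nlinarith [norm_nonneg (1 - z.1)]
  · intro z hz
    have h2 : z.1.2 = 0 := by simpa [mkH] using hz
    refine ⟨cay z.1.1, cay_pos (h1 _ z.2), ?_⟩
    rw [icay_cay (h1 _ z.2), ← h2]
  · rintro ⟨a, ⟨F, hF, ha⟩, hb'⟩ b C hab hC p hp
    have hz := icay_lt hp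
    set ζ := icay p with hζ
    have hre := cay_re hz
    rw [hζ, cay_icay hp, ← hζ] at hre
    have h0 := norm_nonneg ζ
    have hpos : 0 < 1 - ‖ζ‖ ^ 2 := by nlinarith
    set r := Real.sqrt (1 - ‖ζ‖ ^ 2) / 2 with hr
    have hr0 : 0 < r := by rw [hr]; have := Real.sqrt_pos.mpr hpos; positivity
    have hr2 : r ^ 2 = (1 - ‖ζ‖ ^ 2) / 4 := by rw [hr, div_pow, Real.sq_sqrt hpos.le]; norm_num
    have hin : ∀ w ∈ closedBall (0 : ℂ) r, (ζ, w) ∈ Ω := by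
      intro w hw
      rw [mem_closedBall, dist_zero_right] at hw
      change ‖ζ‖ ^ 2 + ‖w‖ ^ 2 < 1
      have := pow_le_pow_left₀ (norm_nonneg w) hw 2
      linarith
    have hd : DiffContOnCl ℂ (fun w => F (ζ, w)) (ball 0 r) := by
      apply DifferentiableOn.diffContOnCl
      rw [closure_ball 0 hr0.ne']
      exact hF.comp (by fun_prop) hin
    have hmax := Complex.norm_le_of_forall_mem_frontier_norm_le isBounded_ball hd
      (C := 4 * C / p.re) (z := 0) ?_ (subset_closure (mem_ball_self hr0))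
    · rw [le_div_iff₀ hp] at hmax
      change ‖a ⟨(ζ, 0), _⟩‖ * p.re ≤ 4 * C
      rw [ha]; exact hmax
    · intro w hw
      rw [frontier_ball 0 hr0.ne'] at hw
      have hw1 := hin w (sphere_subset_closedBall hw)
      rw [mem_sphere, dist_zero_right] at hw
      have h3 : a ⟨(ζ, w), hw1⟩ * w ^ 2 = b.1 ⟨(ζ, w), hw1⟩ * (1 - ζ) ^ 2 :=
        congrFun (congrArg Subtype.val hab) ⟨(ζ, w), hw1⟩
      rw [ha] at h3
      have h4 := congrArg (fun x : ℂ => ‖x‖) h3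
      simp only [norm_mul, norm_pow, hw, hr2] at h4
      have h5 := hC ⟨(ζ, w), hw1⟩
      have h6 : 0 < ‖1 - ζ‖ ^ 2 := pow_pos (norm_pos_iff.mpr (one_sub_ne hz)) 2
      rw [le_div_iff₀ hp]
      rw [← hre] at h4
      have h7 : ‖F (ζ, w)‖ * p.re * ‖1 - ζ‖ ^ 2 ≤ 4 * C * ‖1 - ζ‖ ^ 2 := by nlinarith
      exact le_of_mul_le_mul_right h7 h6
  · intro c hc
    have hA : DifferentiableOn ℂ (fun z : ℂ × ℂ => T c (cay z.1)) Ω :=
      (T_diff hc).comp (cay_diff.comp differentiableOn_fst h1) (fun z hz => cay_pos (h1 z hz))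
    have hB1 : DifferentiableOn ℂ (fun z : ℂ × ℂ => ((1 - z.1) ^ 2)⁻¹) Ω :=
      DifferentiableOn.inv (by fun_prop) (fun z hz => pow_ne_zero 2 (one_sub_ne (h1 z hz)))
    have hB2 : DifferentiableOn ℂ (fun z : ℂ × ℂ => z.2 ^ 2) Ω := by fun_prop
    have hB : DifferentiableOn ℂ
        (fun z : ℂ × ℂ => T c (cay z.1) * z.2 ^ 2 / (1 - z.1) ^ 2) Ω :=
      ((hA.mul hB2).mul hB1).congr (fun z _ => by simp [div_eq_mul_inv])
    refine ⟨mkH _ hA _ (fun z hz => T_le hc (cay_pos (h1 z hz))),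
      mkH _ hB 12 ?_, ?_, ?_⟩
    · intro z hz
      have hz' : ‖z.1‖ ^ 2 + ‖z.2‖ ^ 2 < 1 := hz
      have h2 := T_le2 hc (cay_pos (h1 z hz))
      have h3 := cay_re (h1 z hz)
      have h6 : 0 < ‖1 - z.1‖ ^ 2 := pow_pos (norm_pos_iff.mpr (one_sub_ne (h1 z hz))) 2
      rw [norm_div, norm_mul, norm_pow, norm_pow, div_le_iff₀ h6]
      have h7 := norm_nonneg (T c (cay z.1))
      calc _ ≤ ‖T c (cay z.1)‖ * ((cay z.1).re * ‖1 - z.1‖ ^ 2) := by
            rw [h3]; gcongr; linarith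
        _ = ‖T c (cay z.1)‖ * (cay z.1).re * ‖1 - z.1‖ ^ 2 := by ring
        _ ≤ _ := by gcongr
    · apply Subtype.ext
      funext z
      have h2 := one_sub_ne (h1 _ z.2)
      change T c (cay z.1.1) * z.1.2 ^ 2 =
        T c (cay z.1.1) * z.1.2 ^ 2 / (1 - z.1.1) ^ 2 * (1 - z.1.1) ^ 2
      field_simp
    · intro p hp
      change T c (cay (icay p)) = T c p
      rw [cay_icay hp]

end Pool.Agent.H3.Coh
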