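import Pool.Agent.H3.CohB

set_option autoImplicit false

namespace Pool.Agent.H3.Coh

open Complex Set Metric Filter Topology

lemma diff_tsum {U : Set (ℂ × ℂ)} (hU : IsOpen U) {F : ℕ → ℂ × ℂ → ℂ} {u : ℕ → ℝ}
    (hu : Summable u) (hF : ∀ n, DifferentiableOn ℂ (F n) U)
    (hle : ∀ n, ∀ z ∈ U, ‖F n z‖ ≤ u n) : DifferentiableOn ℂ (fun z => ∑' n, F n z) U := by
  intro x hx
  obtain ⟨ε, hε, hb⟩ := Metric.isOpen_iff.mp hU x hx
  have hsub : ∀ y ∈ ball x (ε / 2), ball y (ε / 2) ⊆ U := by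
    intro y hy
    refine (ball_subset_ball' ?_).trans hb
    rw [mem_ball] at hy
    linarith
  have h := hasFDerivAt_tsum_of_isPreconnected (𝕜 := ℂ) (f := F)
    (f' := fun n y => fderiv ℂ (F n) y) (u := fun n => 2 * u n / (ε / 2)) (s := ball x (ε / 2))
    (x₀ := x) (x := x) ((hu.mul_left 2).div_const _) isOpen_ball
    (convex_ball _ _).isPreconnected ?_ ?_ (mem_ball_self (by linarith)) ?_
    (mem_ball_self (by linarith))
  · exact h.differentiableAt.differentiableWithinAt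
  · intro n y hy
    have hy' : y ∈ U := hsub y hy (mem_ball_self (by linarith))
    exact ((hF n).differentiableAt (hU.mem_nhds hy')).hasFDerivAt
  · intro n y hy
    have hy' : y ∈ U := hsub y hy (mem_ball_self (by linarith))
    refine Complex.norm_fderiv_le_div_of_mapsTo_ball ((hF n).mono (hsub y hy)) ?_ (by linarith)
    intro w hw
    rw [mem_closedBall, dist_eq_norm]
    have := norm_sub_le (F n w) (F n y)
    linarith [hle n w (hsub y hy hw), hle n y hy']
  · exact Summable.of_norm_bounded hu (fun n => hle n x hx)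

lemma exp_lip {u v : ℂ} (hu : u.re ≤ 0) (hv : v.re ≤ 0) : ‖exp u - exp v‖ ≤ ‖u - v‖ := by
  have h := (convex_halfSpace_re_le 0).norm_image_sub_le_of_norm_deriv_le (𝕜 := ℂ) (f := exp)
    (C := 1) (fun x _ => Complex.differentiable_exp x) (fun x hx => by
      rw [Complex.deriv_exp, Complex.norm_exp]
      exact Real.exp_le_one_iff.mpr hx) hv hu
  simpa using h

/-- divided difference of the exponential -/
noncomputable def dd (u v : ℂ) : ℂ := exp v * dslope exp 0 (u - v)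

lemma dd_mul (u v : ℂ) : dd u v * (u - v) = exp u - exp v := by
  have h := sub_smul_dslope exp 0 (u - v)
  rw [sub_zero, smul_eq_mul, Complex.exp_zero] at h
  unfold dd
  rw [mul_assoc, mul_comm (dslope exp 0 (u - v)), h, mul_sub, ← Complex.exp_add]
  simp

lemma dd_self (u : ℂ) : dd u u = exp u := by
  unfold dd
  simp [dslope_same]

lemma norm_exp_le {u : ℂ} (hu : u.re ≤ 0) : ‖exp u‖ ≤ 1 := by
  rw [Complex.norm_exp]; exact Real.exp_le_one_iff.mpr hu

lemma dd_le {u v : ℂ} (hu : u.re ≤ 0) (hv : v.re ≤ 0) : ‖dd u v‖ ≤ 1 := by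
  by_cases h : u = v
  · rw [h, dd_self]; exact norm_exp_le hv
  · have h1 := exp_lip hu hv
    rw [← dd_mul, norm_mul] at h1
    have h2 : 0 < ‖u - v‖ := norm_pos_iff.mpr (sub_ne_zero.mpr h)
    by_contra h3
    have := mul_lt_mul_of_pos_right (not_le.mp h3) h2
    linarith

lemma dd_le2 {u v : ℂ} (hu : u.re ≤ 0) (hv : v.re ≤ 0) : ‖dd u v‖ * ‖u - v‖ ≤ 2 := by
  rw [← norm_mul, dd_mul]
  have := norm_sub_le (exp u) (exp v)
  linarith [norm_exp_le hu, norm_exp_le hv]

lemma dslope_diff : Differentiable ℂ (dslope exp 0) := by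
  rw [← differentiableOn_univ]
  exact (Complex.differentiableOn_dslope univ_mem).mpr Complex.differentiable_exp.differentiableOn

/-- two-variable test term -/
noncomputable def tt (c : ℕ → ℂ) (n : ℕ) (p q : ℂ) : ℂ :=
  c n * (mu n * dd (-(mu n / 2 * p)) (-(mu n / 2 * q)) ^ 2)

lemma re_neg (n : ℕ) {p : ℂ} (hp : 0 < p.re) : (-((mu n : ℂ) / 2 * p)).re ≤ 0 := by
  have h : ((mu n : ℂ) / 2) = ((mu n / 2 : ℝ) : ℂ) := by push_cast; ring
  rw [h, neg_re, Complex.re_ofReal_mul]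
  have := mu_pos n
  have : 0 ≤ mu n / 2 * p.re := by positivity
  linarith

lemma tt_le {c : ℕ → ℂ} (hc : ∀ n, ‖c n‖ ≤ 1) (n : ℕ) (p q : ℂ) :
    ‖tt c n p q‖ ≤ mu n * ‖dd (-(mu n / 2 * p)) (-(mu n / 2 * q))‖ ^ 2 := by
  unfold tt
  rw [norm_mul, norm_mul, norm_pow, Complex.norm_real, Real.norm_of_nonneg (mu_pos n).le]
  exact mul_le_of_le_one_left (by have := mu_pos n; positivity) (hc n)

lemma tt_le1 {c : ℕ → ℂ} (hc : ∀ n, ‖c n‖ ≤ 1) (n : ℕ) {p q : ℂ} (hp : 0 < p.re)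
    (hq : 0 < q.re) : ‖tt c n p q‖ ≤ mu n :=
  (tt_le hc n p q).trans (mul_le_of_le_one_right (mu_pos n).le
    (pow_le_one₀ (norm_nonneg _) (dd_le (re_neg n hp) (re_neg n hq))))

lemma tt_sum {c : ℕ → ℂ} (hc : ∀ n, ‖c n‖ ≤ 1) {p q : ℂ} (hp : 0 < p.re) (hq : 0 < q.re) :
    ‖∑' n, tt c n p q‖ * ‖p - q‖ ≤ 96 := by
  have hs : Summable (fun n => ‖tt c n p q‖) :=
    Summable.of_nonneg_of_le (fun _ => norm_nonneg _) (fun n => tt_le1 hc n hp hq) mu_sum
  have h3 := tele (u := fun n => ‖tt c n p q‖ * ‖p - q‖) (ρ := ‖p - q‖) (K := 16)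
    (norm_nonneg _) (by norm_num) (fun n => by positivity)
    (fun n => by
      have h1 := tt_le1 hc n hp hq
      have h2 := mu_pos n
      have h3 := norm_nonneg (p - q)
      have h4 : ‖tt c n p q‖ * ‖p - q‖ ≤ mu n * ‖p - q‖ := by gcongr
      have h5 : 0 ≤ mu n * ‖p - q‖ := by positivity
      linarith)
    (fun n => by
      have h1 := tt_le hc n p q
      have h2 := mu_pos n
      have h3 := dd_le2 (re_neg n hp) (re_neg n hq)
      have h4 : ‖-((mu n : ℂ) / 2 * p) - -((mu n : ℂ) / 2 * q)‖ = mu n / 2 * ‖p - q‖ := by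
        rw [show -((mu n : ℂ) / 2 * p) - -((mu n : ℂ) / 2 * q) = -(mu n / 2) * (p - q) by ring,
          norm_mul, norm_neg, norm_div, Complex.norm_real, Real.norm_of_nonneg h2.le]
        simp
      rw [h4] at h3
      set e := ‖dd (-((mu n : ℂ) / 2 * p)) (-((mu n : ℂ) / 2 * q))‖ with he
      have h5 : 0 ≤ e * (mu n / 2 * ‖p - q‖) := by positivity
      have h6 : (e * (mu n / 2 * ‖p - q‖)) ^ 2 ≤ 2 ^ 2 := pow_le_pow_left₀ h5 h3 2
      calc ‖tt c n p q‖ * ‖p - q‖ * (mu n * ‖p - q‖)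
          ≤ mu n * e ^ 2 * ‖p - q‖ * (mu n * ‖p - q‖) := by gcongr
        _ = 4 * (e * (mu n / 2 * ‖p - q‖)) ^ 2 := by ring
        _ ≤ 16 := by linarith)
  rw [tsum_mul_right] at h3
  calc _ ≤ (∑' n, ‖tt c n p q‖) * ‖p - q‖ := by
        gcongr; exact norm_tsum_le_tsum_norm hs
    _ ≤ 96 := by linarith

lemma tt_diag (c : ℕ → ℂ) (n : ℕ) (p : ℂ) :
    tt c n p p = c n * (mu n * exp (-(mu n * p))) := by
  unfold tt
  rw [dd_self, pow_two, ← Complex.exp_add]
  congr 3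
  ring

lemma cay_sub {z w : ℂ} (hz : ‖z‖ < 1) (hw : ‖w‖ < 1) :
    (cay z - cay w) * ((1 - z) * (1 - w)) = 2 * (z - w) := by
  have h1 := one_sub_ne hz
  have h2 := one_sub_ne hw
  unfold cay
  field_simp
  ring

theorem bidisc_case : ∃ f g : HInf {z : ℂ × ℂ | ‖z.1‖ < 1 ∧ ‖z.2‖ < 1},
    ¬ (Ideal.span {f} ⊓ Ideal.span {g}).FG := by
  set Ω : Set (ℂ × ℂ) := {z : ℂ × ℂ | ‖z.1‖ < 1 ∧ ‖z.2‖ < 1} with hΩ
  have hσΩ : ∀ p : ℂ, 0 < p.re → (icay p, icay p) ∈ Ω := fun p hp => ⟨icay_lt hp, icay_lt hp⟩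
  refine ⟨mkH (fun z => z.1 - z.2) (by fun_prop) 2 ?_,
    mkH (fun z => (1 - z.1) * (1 - z.2)) (by fun_prop) 4 ?_,
    reduce _ _ (fun p => (icay p, icay p)) (icay_diff.prodMk icay_diff) hσΩ ?_ ?_ ?_⟩
  · intro z hz
    have := norm_sub_le z.1 z.2
    linarith [hz.1, hz.2]
  · intro z hz
    have h2 := norm_sub_le (1 : ℂ) z.1
    have h3 := norm_sub_le (1 : ℂ) z.2
    rw [norm_one] at h2 h3
    rw [norm_mul]
    nlinarith [norm_nonneg (1 - z.1), norm_nonneg (1 - z.2), hz.1, hz.2]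
  · intro z hz
    have h2 : z.1.1 = z.1.2 := sub_eq_zero.mp hz
    refine ⟨cay z.1.1, cay_pos z.2.1, ?_⟩
    rw [icay_cay z.2.1]
    exact Prod.ext rfl h2
  · rintro ⟨a, ⟨F, hF, ha⟩, hb'⟩ b C hab hC p hp
    have hz := icay_lt hp
    have hr0 : 0 < p.re / 2 := by linarith
    have hre : ∀ w ∈ closedBall p (p.re / 2), 0 < w.re := by
      intro w hw
      rw [mem_closedBall, dist_eq_norm] at hw
      have h1 := Complex.abs_re_le_norm (w - p)
      have h2 := neg_abs_le (w - p).re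
      rw [sub_re] at h1 h2
      linarith
    have hd : DiffContOnCl ℂ (fun w => F (icay w, icay p)) (ball p (p.re / 2)) := by
      apply DifferentiableOn.diffContOnCl
      rw [closure_ball p hr0.ne']
      exact hF.comp ((icay_diff.mono hre).prodMk (differentiableOn_const _))
        (fun w hw => ⟨icay_lt (hre w hw), hz⟩)
    have hmax := Complex.norm_le_of_forall_mem_frontier_norm_le isBounded_ball hd
      (C := 4 * C / p.re) (z := p) ?_ (subset_closure (mem_ball_self hr0))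
    · rw [le_div_iff₀ hp] at hmax
      change ‖a ⟨(icay p, icay p), _⟩‖ * p.re ≤ 4 * C
      rw [ha]; exact hmax
    · intro w hw
      rw [frontier_ball p hr0.ne'] at hw
      have hw0 := hre w (sphere_subset_closedBall hw)
      have hw1 : (icay w, icay p) ∈ Ω := ⟨icay_lt hw0, hz⟩
      rw [mem_sphere, dist_eq_norm] at hw
      have h3 : a ⟨_, hw1⟩ * (icay w - icay p) = b.1 ⟨_, hw1⟩ * ((1 - icay w) * (1 - icay p)) :=
        congrFun (congrArg Subtype.val hab) ⟨_, hw1⟩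
      rw [ha] at h3
      have h4 := cay_sub hw1.1 hz
      rw [cay_icay hw0, cay_icay hp] at h4
      have h5 : (1 - icay w) * (1 - icay p) ≠ 0 := mul_ne_zero (one_sub_ne hw1.1) (one_sub_ne hz)
      have h6 : F (icay w, icay p) * (w - p) = 2 * b.1 ⟨_, hw1⟩ := by
        apply mul_right_cancel₀ h5
        linear_combination F (icay w, icay p) * h4 + 2 * h3
      have h7 := congrArg (fun x : ℂ => ‖x‖) h6
      simp only [norm_mul, hw, Complex.norm_two] at h7
      have h8 := hC ⟨_, hw1⟩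
      rw [le_div_iff₀ hp]
      linarith
  · intro c hc
    have hc1 : DifferentiableOn ℂ (fun z : ℂ × ℂ => cay z.1) Ω :=
      cay_diff.comp differentiableOn_fst (fun z hz => hz.1)
    have hc2 : DifferentiableOn ℂ (fun z : ℂ × ℂ => cay z.2) Ω :=
      cay_diff.comp differentiableOn_snd (fun z hz => hz.2)
    have hopen : IsOpen Ω :=
      IsOpen.inter (s := {z : ℂ × ℂ | ‖z.1‖ < 1}) (t := {z : ℂ × ℂ | ‖z.2‖ < 1})
        (isOpen_lt (by fun_prop) continuous_const) (isOpen_lt (by fun_prop) continuous_const)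
    have hA : DifferentiableOn ℂ (fun z : ℂ × ℂ => ∑' n, tt c n (cay z.1) (cay z.2)) Ω := by
      refine diff_tsum hopen mu_sum (fun n => ?_)
        (fun n z hz => tt_le1 hc n (cay_pos hz.1) (cay_pos hz.2))
      unfold tt dd
      have h1 : DifferentiableOn ℂ (fun z : ℂ × ℂ => dslope exp 0
          (-((mu n : ℂ) / 2 * cay z.1) - -((mu n : ℂ) / 2 * cay z.2))) Ω :=
        dslope_diff.comp_differentiableOn ((hc1.const_mul _).neg.sub (hc2.const_mul _).neg)
      have h2 : DifferentiableOn ℂ (fun z : ℂ × ℂ => exp (-((mu n : ℂ) / 2 * cay z.2))) Ω :=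
        ((hc2.const_mul _).neg).cexp
      exact (((h2.mul h1).pow 2).const_mul _).const_mul _
    have hB : DifferentiableOn ℂ (fun z : ℂ × ℂ =>
        (1 / 2) * ((∑' n, tt c n (cay z.1) (cay z.2)) * (cay z.1 - cay z.2))) Ω :=
      (hA.mul (hc1.sub hc2)).const_mul _
    refine ⟨mkH _ hA (∑' n, mu n) (fun z hz => tsum_of_norm_bounded mu_sum.hasSum
      (fun n => tt_le1 hc n (cay_pos hz.1) (cay_pos hz.2))), mkH _ hB 48 ?_, ?_, ?_⟩
    · intro z hz
      have := tt_sum hc (cay_pos hz.1) (cay_pos hz.2)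
      rw [norm_mul, norm_mul]
      have h2 : ‖(1 / 2 : ℂ)‖ = 1 / 2 := by simp
      rw [h2]; linarith
    · apply Subtype.ext
      funext z
      have h4 := cay_sub z.2.1 z.2.2
      change (∑' n, tt c n (cay z.1.1) (cay z.1.2)) * (z.1.1 - z.1.2) =
        (1 / 2) * ((∑' n, tt c n (cay z.1.1) (cay z.1.2)) * (cay z.1.1 - cay z.1.2)) *
          ((1 - z.1.1) * (1 - z.1.2))
      linear_combination (-1 / 2) * (∑' n, tt c n (cay z.1.1) (cay z.1.2)) * h4
    · intro p hp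
      change ∑' n, tt c n (cay (icay p)) (cay (icay p)) = T c p
      rw [cay_icay hp]
      exact tsum_congr (fun n => tt_diag c n p)

end Pool.Agent.H3.Coh
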