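import Mathlib

set_option autoImplicit false
open Finset

namespace Pool.Agent.H3.Cube

variable {G : Type*} [Group G]

structure IsFilt (F : ℕ → Subgroup G) : Prop where
  anti : ∀ s t, s ≤ t → F t ≤ F s
  comm : ∀ s t x y, x ∈ F s → y ∈ F t → x * y * x⁻¹ * y⁻¹ ∈ F (s + t)

section
variable {ι : Type} [DecidableEq ι]

def D (a : ι) (k : Finset ι → G) : Finset ι → G := fun S => (k S)⁻¹ * k (insert a S)

inductive P (F : ℕ → Subgroup G) : Finset ι → ℕ → (Finset ι → G) → Prop
  | mk {U : Finset ι} {s : ℕ} {k : Finset ι → G} :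
    (∀ S, k S ∈ F s) → (∀ a ∈ U, P F (U.erase a) (s + 1) (D a k)) → P F U s k

variable {F F' : ℕ → Subgroup G} {U V : Finset ι} {s t : ℕ} {k l : Finset ι → G}

lemma P.val (h : P F U s k) (S : Finset ι) : k S ∈ F s := by cases h with | mk h _ => exact h S

lemma P.der (h : P F U s k) {a : ι} (ha : a ∈ U) : P F (U.erase a) (s + 1) (D a k) := by
  cases h with | mk _ h => exact h a ha

lemma P.mono (hF : IsFilt F) (h : P F U s k) : ∀ {V : Finset ι} {t : ℕ}, V ⊆ U → t ≤ s → P F V t k := by
  induction h with
  | mk h1 _ ih =>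
    intro V t hV ht
    exact P.mk (fun S => hF.anti _ _ ht (h1 S))
      fun a ha => ih a (hV ha) (erase_subset_erase a hV) (by omega)

lemma P.monoF (hF : ∀ t, F t ≤ F' t) (h : P F U s k) : P F' U s k := by
  induction h with
  | mk h1 _ ih => exact P.mk (fun S => hF _ (h1 S)) ih

lemma P.of_val {Z : Subgroup G} (hZ : ∀ t, Z ≤ F t) :
    ∀ (U : Finset ι) (s : ℕ) (k : Finset ι → G), (∀ S, k S ∈ Z) → P F U s k := by
  intro U
  induction U using Finset.strongInduction with
  | H U ih =>
    intro s k hk
    exact P.mk (fun S => hZ s (hk S)) fun a ha => ih _ (erase_ssubset ha) _ _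
      fun S => Z.mul_mem (Z.inv_mem (hk _)) (hk _)

lemma P.const {x : G} (hx : x ∈ F s) : P F U s (fun _ => x) :=
  P.mk (fun _ => hx) fun _ _ => P.of_val (Z := ⊥) (fun _ => bot_le) _ _ _ fun S => by simp [D]

lemma closure (hF : IsFilt F) (U : Finset ι) :
    (∀ s k l, P F U s k → P F U s l → P F U s (k * l)) ∧ (∀ s k, P F U s k → P F U s k⁻¹) ∧
    (∀ s t k l, P F U s k → P F U t l → P F U (s + t) (k * l * k⁻¹ * l⁻¹)) := by
  induction U using Finset.strongInduction with
  | H U ih =>
    have conj : ∀ a ∈ U, ∀ s t x l, P F (U.erase a) s x → P F (U.erase a) t l →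
        P F (U.erase a) s (l * x * l⁻¹) := by
      intro a ha s t x l hx hl
      obtain ⟨h1, -, h3⟩ := ih _ (erase_ssubset ha)
      have := h1 s _ _ ((h3 _ _ _ _ hl hx).mono hF Subset.rfl (by omega)) hx
      rwa [show l * x * l⁻¹ * x⁻¹ * x = l * x * l⁻¹ by group] at this
    refine ⟨fun s k l hk hl => P.mk (fun S => (F s).mul_mem (hk.val S) (hl.val S)) fun a ha => ?_,
      fun s k hk => P.mk (fun S => (F s).inv_mem (hk.val S)) fun a ha => ?_,
      fun s t k l hk hl => P.mk (fun S => hF.comm _ _ _ _ (hk.val S) (hl.val S)) fun a ha => ?_⟩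
    · obtain ⟨h1, h2, -⟩ := ih _ (erase_ssubset ha)
      have := h1 _ _ _ (conj a ha _ _ _ _ (hk.der ha)
        (h2 _ _ (hl.mono hF (erase_subset a U) le_rfl))) (hl.der ha)
      have e : D a (k * l) = l⁻¹ * D a k * l⁻¹⁻¹ * D a l := by
        funext S; simp only [D, Pi.mul_apply, Pi.inv_apply]; group
      rwa [e]
    · obtain ⟨-, h2, -⟩ := ih _ (erase_ssubset ha)
      have := conj a ha _ _ _ _ (h2 _ _ (hk.der ha)) (hk.mono hF (erase_subset a U) le_rfl)
      have e : D a k⁻¹ = k * (D a k)⁻¹ * k⁻¹ := by
        funext S; simp only [D, Pi.mul_apply, Pi.inv_apply]; group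
      rwa [e]
    · obtain ⟨h1, h2, h3⟩ := ih _ (erase_ssubset ha)
      have hk' := hk.mono hF (erase_subset a U) le_rfl
      have hl' := hl.mono hF (erase_subset a U) le_rfl
      have hx := hk.der ha
      have hy := hl.der ha
      have a1 := h3 _ _ _ _ hx (h1 _ _ _ hl' (hy.mono hF Subset.rfl (Nat.le_succ t)))
      have a2 := conj a ha _ _ _ _ (conj a ha _ _ _ _ a1 hk') (h2 _ _ (h3 _ _ _ _ hk' hl'))
      have a3 := conj a ha _ _ _ _ (h3 _ _ _ _ hk' hy) hl'
      have := h1 (s + t + 1) _ _ (a2.mono hF Subset.rfl (by omega)) (a3.mono hF Subset.rfl (by omega))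
      have e : D a (k * l * k⁻¹ * l⁻¹) = (k * l * k⁻¹ * l⁻¹)⁻¹ *
          (k * (D a k * (l * D a l) * (D a k)⁻¹ * (l * D a l)⁻¹) * k⁻¹) * (k * l * k⁻¹ * l⁻¹)⁻¹⁻¹ *
          (l * (k * D a l * k⁻¹ * (D a l)⁻¹) * l⁻¹) := by
        funext S; simp only [D, Pi.mul_apply, Pi.inv_apply]; group
      rwa [e]

lemma P.mul (hF : IsFilt F) (hk : P F U s k) (hl : P F U s l) : P F U s (k * l) :=
  (closure hF U).1 _ _ _ hk hl

lemma P.inv (hF : IsFilt F) (hk : P F U s k) : P F U s k⁻¹ := (closure hF U).2.1 _ _ hk

lemma P.shift (hF : IsFilt F) (hk : P F U s k) {a : ι} (ha : a ∈ U) :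
    P F (U.erase a) s (fun S => k (insert a S)) := by
  have := (hk.mono hF (erase_subset a U) le_rfl).mul hF
    ((hk.der ha).mono hF Subset.rfl (Nat.le_succ s))
  have e : k * D a k = fun S => k (insert a S) := by funext S; simp [D]
  rwa [e] at this

lemma P.complete {H : Subgroup G} (hk : P F U s k) :
    F (s + U.card) ≤ H → (∀ S, S ⊂ U → k S ∈ H) → k U ∈ H := by
  induction hk with
  | @mk U s k h1 _ ih =>
    intro hH hS
    rcases U.eq_empty_or_nonempty with rfl | ⟨a, ha⟩
    · exact hH (by simpa using h1 ∅)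
    · have hc := card_erase_add_one ha
      have := ih a ha (by rwa [show s + 1 + #(U.erase a) = s + #U by omega]) (fun S hS' =>
        H.mul_mem (H.inv_mem (hS _ (hS'.trans (erase_ssubset ha)))) (hS _ (by
          refine ⟨insert_subset ha (hS'.1.trans (erase_subset _ _)), fun h => hS'.2 fun b hb => ?_⟩
          rcases mem_insert.1 (h (mem_of_mem_erase hb)) with rfl | h'
          · simp at hb
          · exact h')))
      have h2 := H.mul_mem (hS _ (erase_ssubset ha)) this
      simpa [D, insert_erase ha] using h2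

def chi (x : G) (T V : Finset ι) : Finset ι → G := fun S => if T ⊆ S ∧ Disjoint V S then x else 1

lemma P.chi (hF : IsFilt F) {x : G} (U : Finset ι) : ∀ (s : ℕ) (T V : Finset ι), Disjoint V U →
    x ∈ F (s + (T ∩ U).card) → P F U s (chi x T V) := by
  induction U using Finset.strongInduction with
  | H U ih =>
    intro s T V hV hx
    refine P.mk (fun S => ?_) fun a ha => ?_
    · unfold Cube.chi
      split_ifs
      · exact hF.anti _ _ (by omega) hx
      · exact one_mem _
    · have haV : a ∉ V := fun h => disjoint_left.1 hV h ha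
      by_cases haT : a ∈ T
      · have e : D a (Cube.chi x T V) = Cube.chi x (T.erase a) (insert a V) := by
          funext S
          simp only [D, Cube.chi, disjoint_insert_right, haV, not_false_eq_true, true_and,
            disjoint_insert_left, subset_insert_iff]
          by_cases haS : a ∈ S
          · have : T.erase a ⊆ S ↔ T ⊆ S := by
              rw [← subset_insert_iff, insert_eq_of_mem haS]
            simp only [this, inv_mul_cancel]
            simp [haS]
          · have : ¬ T ⊆ S := fun h => haS (h haT)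
            simp [haS, this]
        rw [e]
        refine ih _ (erase_ssubset ha) _ _ _ ?_ ?_
        · rw [disjoint_insert_left]
          exact ⟨by simp, hV.mono_right (erase_subset _ _)⟩
        · have h1 : T.erase a ∩ U.erase a = (T ∩ U).erase a := by ext; simp; tauto
          have h2 := card_erase_add_one (mem_inter.2 ⟨haT, ha⟩)
          rw [h1, show s + 1 + #((T ∩ U).erase a) = s + #(T ∩ U) by omega]
          exact hx
      · refine P.of_val (Z := ⊥) (fun _ => bot_le) _ _ _ fun S => ?_
        simp only [D, Cube.chi, disjoint_insert_right, haV, not_false_eq_true, true_and,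
          subset_insert_iff, erase_eq_of_notMem haT, inv_mul_cancel]
        exact one_mem _

lemma taylor [Fintype ι] (hF : IsFilt F) (hF' : IsFilt F') (hle : ∀ t, F' t ≤ F t) {Z : Subgroup G}
    (hZ : ∀ t, Z ≤ F t) (hs : ∀ t, ∀ x ∈ F t, ∃ y ∈ F' t, y⁻¹ * x ∈ Z) (hk : P F univ 0 k) :
    ∃ g : Finset ι → G, P F' univ 0 g ∧ ∀ S, (g S)⁻¹ * k S ∈ Z := by
  have key : ∀ m : ℕ, ∃ g : Finset ι → G, P F' univ 0 g ∧ ∀ S, #S < m → (g S)⁻¹ * k S ∈ Z := by
    intro m
    induction m with
    | zero => exact ⟨fun _ => 1, P.const (one_mem _), fun S h => absurd h (by omega)⟩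
    | succ m ih =>
      have inner : ∀ A : Finset (Finset ι), ∃ g : Finset ι → G, P F' univ 0 g ∧
          ∀ S, (#S < m ∨ (#S = m ∧ S ∈ A)) → (g S)⁻¹ * k S ∈ Z := by
        intro A
        induction A using Finset.induction_on with
        | empty =>
          obtain ⟨g, h1, h2⟩ := ih
          exact ⟨g, h1, fun S hS => h2 S (by simpa using hS)⟩
        | insert T A _ ihA =>
          obtain ⟨g, h1, h2⟩ := ihA
          by_cases hT : #T = m
          · have h3 : P F T 0 (g⁻¹ * k) :=
              (((h1.monoF hle).inv hF).mul hF hk).mono hF (subset_univ T) le_rfl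
            have h4 := h3.complete (H := F #T) (by simp) fun S hS =>
              hZ _ (h2 S (Or.inl (hT ▸ card_lt_card hS)))
            obtain ⟨y, hy, hyz⟩ := hs _ _ h4
            refine ⟨g * chi y T ∅, h1.mul hF' (P.chi hF' _ _ _ _ (by simp) (by simpa using hy)),
              fun S hS => ?_⟩
            by_cases hST : S = T
            · subst hST
              simpa [Cube.chi, mul_assoc] using hyz
            · have : ¬ T ⊆ S := fun h => hST (eq_of_subset_of_card_le h (by omega)).symm
              have h5 := h2 S (by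
                rcases hS with h | ⟨h, h'⟩
                · exact Or.inl h
                · exact Or.inr ⟨h, (mem_insert.1 h').resolve_left hST⟩)
              simpa [Cube.chi, this] using h5
          · refine ⟨g, h1, fun S hS => h2 S ?_⟩
            rcases hS with h | ⟨h, h'⟩
            · exact Or.inl h
            · exact Or.inr ⟨h, (mem_insert.1 h').resolve_left (by rintro rfl; exact hT h)⟩
      obtain ⟨g, h1, h2⟩ := inner univ
      exact ⟨g, h1, fun S hS => h2 S (by simp; omega)⟩
  obtain ⟨g, h1, h2⟩ := key (Fintype.card ι + 1)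
  exact ⟨g, h1, fun S => h2 S (Nat.lt_succ_of_le (card_le_univ S))⟩

lemma P.left (W : Finset (ι ⊕ ι)) : ∀ (s : ℕ) (k : Finset ι → G), P F W.toLeft s k →
    P F W s (fun X => k X.toLeft) := by
  induction W using Finset.strongInduction with
  | H W ih =>
    intro s k hk
    refine P.mk (fun S => hk.val _) fun a ha => ?_
    cases a with
    | inl a =>
      have := ih _ (erase_ssubset ha) (s + 1) (D a k) (by
        have e : (W.erase (Sum.inl a)).toLeft = W.toLeft.erase a := by ext; simp
        rw [e]; exact hk.der (by simpa using ha))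
      have e : D (Sum.inl a) (fun X : Finset (ι ⊕ ι) => k X.toLeft) = fun X => D a k X.toLeft := by
        funext X; simp [D]
      rwa [e]
    | inr a => exact P.of_val (Z := ⊥) (fun _ => bot_le) _ _ _ fun S => by simp [D]

lemma P.right (W : Finset (ι ⊕ ι)) : ∀ (s : ℕ) (k : Finset ι → G), P F W.toRight s k →
    P F W s (fun X => k X.toRight) := by
  induction W using Finset.strongInduction with
  | H W ih =>
    intro s k hk
    refine P.mk (fun S => hk.val _) fun a ha => ?_
    cases a with
    | inr a =>
      have := ih _ (erase_ssubset ha) (s + 1) (D a k) (by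
        have e : (W.erase (Sum.inr a)).toRight = W.toRight.erase a := by ext; simp
        rw [e]; exact hk.der (by simpa using ha))
      have e : D (Sum.inr a) (fun X : Finset (ι ⊕ ι) => k X.toRight) = fun X => D a k X.toRight := by
        funext X; simp [D]
      rwa [e]
    | inl a => exact P.of_val (Z := ⊥) (fun _ => bot_le) _ _ _ fun S => by simp [D]

lemma ins_left (a : ι) (S T : Finset ι) :
    insert (Sum.inl a) (S.disjSum T) = (insert a S).disjSum T := by
  ext x; cases x <;> simp

lemma ins_right (a : ι) (S T : Finset ι) :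
    insert (Sum.inr a) (S.disjSum T) = S.disjSum (insert a T) := by
  ext x; cases x <;> simp

lemma P.sliceL {W : Finset (ι ⊕ ι)} {K : Finset (ι ⊕ ι) → G} (h : P F W s K) (T : Finset ι) :
    P F W.toLeft s (fun S => K (S.disjSum T)) := by
  induction h with
  | @mk W s K h1 _ ih =>
    refine P.mk (fun S => h1 _) fun a ha => ?_
    have := ih (Sum.inl a) (by simpa using ha)
    have e : (W.erase (Sum.inl a)).toLeft = W.toLeft.erase a := by ext; simp
    rw [e] at this
    have e2 : D a (fun S => K (S.disjSum T)) = fun S => D (Sum.inl a) K (S.disjSum T) := by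
      funext S; simp [D, ins_left]
    rwa [e2]

lemma P.sliceR {W : Finset (ι ⊕ ι)} {K : Finset (ι ⊕ ι) → G} (h : P F W s K) (T : Finset ι) :
    P F W.toRight s (fun S => K (T.disjSum S)) := by
  induction h with
  | @mk W s K h1 _ ih =>
    refine P.mk (fun S => h1 _) fun a ha => ?_
    have := ih (Sum.inr a) (by simpa using ha)
    have e : (W.erase (Sum.inr a)).toRight = W.toRight.erase a := by ext; simp
    rw [e] at this
    have e2 : D a (fun S => K (T.disjSum S)) = fun S => D (Sum.inr a) K (T.disjSum S) := by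
      funext S; simp [D, ins_right]
    rwa [e2]

lemma P.diag (hF : IsFilt F) (U : Finset ι) : ∀ (s : ℕ) (K : Finset (ι ⊕ ι) → G),
    P F (U.disjSum U) s K → P F U s (fun S => K (S.disjSum S)) := by
  induction U using Finset.strongInduction with
  | H U ih =>
    intro s K hK
    refine P.mk (fun S => hK.val _) fun a ha => ?_
    have h1 := ih _ (erase_ssubset ha) _ _ ((hK.der (a := Sum.inl a) (by simpa using ha)).mono hF
      (V := (U.erase a).disjSum (U.erase a)) (by intro x; cases x <;> simp) le_rfl)
    have h2 := ih _ (erase_ssubset ha) _ _ (((hK.der (a := Sum.inr a) (by simpa using ha)).shift hF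
      (a := Sum.inl a) (by simpa using ha)).mono hF
      (V := (U.erase a).disjSum (U.erase a)) (by intro x; cases x <;> simp) le_rfl)
    have := h1.mul hF h2
    have e : D a (fun S => K (S.disjSum S)) = (fun S => D (Sum.inl a) K (S.disjSum S)) *
        fun S => D (Sum.inr a) K (insert (Sum.inl a) (S.disjSum S)) := by
      funext S; simp [D, ins_left, ins_right]
    rwa [e]

lemma sep_diag (hF : IsFilt F) (hF' : IsFilt F') (h : ∀ s t, F s ⊓ F t ≤ F' (s + t)) (U : Finset ι) :
    ∀ (s t : ℕ) (n : Finset ι → Finset ι → G), (∀ T, P F U s (fun S => n S T)) →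
      (∀ S, P F U t (n S)) → P F' U (s + t) (fun S => n S S) := by
  induction U using Finset.strongInduction with
  | H U ih =>
    intro s t n h1 h2
    refine P.mk (fun S => h s t ⟨(h1 S).val S, (h2 S).val S⟩) fun a ha => ?_
    have a1 := ih _ (erase_ssubset ha) (s + 1) t (fun S T => (n S T)⁻¹ * n (insert a S) T)
      (fun T => (h1 T).der ha)
      (fun S => (((h2 S).inv hF).mul hF (h2 (insert a S))).mono hF (erase_subset _ _) le_rfl)
    have a2 := ih _ (erase_ssubset ha) s (t + 1)
      (fun S T => (n (insert a S) T)⁻¹ * n (insert a S) (insert a T))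
      (fun T => (((h1 T).shift hF ha).inv hF).mul hF ((h1 (insert a T)).shift hF ha))
      (fun S => (h2 (insert a S)).der ha)
    have := (a1.mono hF' Subset.rfl (show s + t + 1 ≤ s + 1 + t by omega)).mul hF' a2
    have e : D a (fun S => n S S) = (fun S => (n S S)⁻¹ * n (insert a S) S) *
        fun S => (n (insert a S) S)⁻¹ * n (insert a S) (insert a S) := by
      funext S; simp [D]
    rwa [e]

end

end Pool.Agent.H3.Cube
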