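import Mathlib
import Pool.Agent.H3.CubeA

set_option autoImplicit false
open Finset

namespace Pool.Agent.H3.Cube

variable {G : Type*} [Group G]

variable (G) in
def Gam (j : ℕ) : Subgroup G := (⊤ : Subgroup G).lowerCentralSeries j

instance (j : ℕ) : (Gam G j).Normal := by unfold Gam; infer_instance

lemma Gam_anti {a b : ℕ} (h : a ≤ b) : Gam G b ≤ Gam G a := Subgroup.lowerCentralSeries_antitone _ h

lemma Gam_comm {a : ℕ} {x : G} (hx : x ∈ Gam G a) (y : G) : x * y * x⁻¹ * y⁻¹ ∈ Gam G (a + 1) :=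
  Subgroup.commutator_mem_commutator hx (Subgroup.mem_top y)

lemma Gam_comm' {a : ℕ} {x : G} (hx : x ∈ Gam G a) (y : G) : y * x * y⁻¹ * x⁻¹ ∈ Gam G (a + 1) := by
  have := inv_mem (Gam_comm hx y)
  rwa [show (x * y * x⁻¹ * y⁻¹)⁻¹ = y * x * y⁻¹ * x⁻¹ by group] at this

lemma filt_of (j : ℕ → ℕ) (h1 : ∀ s t, s ≤ t → j s ≤ j t)
    (h2 : ∀ s t, j (s + t) ≤ max (j s) (j t) + 1) : IsFilt (fun t => Gam G (j t)) := by
  refine ⟨fun s t h => Gam_anti (h1 s t h), fun s t x y hx hy => ?_⟩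
  have := h2 s t
  rcases le_total (j s) (j t) with h | h
  · exact Gam_anti (by omega) (Gam_comm' hy x)
  · exact Gam_anti (by omega) (Gam_comm hx y)

def jf (t : ℕ) : ℕ := Nat.clog 4 t - 1

lemma jf_le {t k : ℕ} : jf t ≤ k ↔ t ≤ 4 ^ (k + 1) := by
  rw [← Nat.clog_le_iff_le_pow (by norm_num), jf]; omega

lemma jf_mono {s t : ℕ} (h : s ≤ t) : jf s ≤ jf t := jf_le.2 (h.trans (jf_le.1 le_rfl))

lemma jf_add (s t : ℕ) : jf (s + t) ≤ max (jf s) (jf t) + 1 := by
  have h1 := jf_le.1 (le_max_left (jf s) (jf t))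
  have h2 := jf_le.1 (le_max_right (jf s) (jf t))
  rw [jf_le, pow_succ]; omega

lemma le_jf {i t : ℕ} (h : 4 ^ i < t) : i ≤ jf t := by
  rcases i with _ | i
  · omega
  · by_contra hc
    have : jf t ≤ i := by omega
    rw [jf_le] at this; omega

variable (G) in
def FF (i t : ℕ) : Subgroup G := Gam G (min (jf t) i)
variable (G) in
def FP (i t : ℕ) : Subgroup G := Gam G (if t ≤ 2 * 4 ^ i then min (jf t) i else i + 1)
variable (G) in
def BB (i d t : ℕ) : Subgroup G := Gam G (if t ≤ d then i else i + 1)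
def AA (H : Subgroup G) (i d t : ℕ) : Subgroup G :=
  if t ≤ d then Gam G i else Gam G i ⊓ (H ⊔ Gam G (i + 1))

lemma fFF (i : ℕ) : IsFilt (FF G i) :=
  filt_of _ (fun s t h => by have := jf_mono h; omega) fun s t => by have := jf_add s t; omega

lemma fFP (i : ℕ) : IsFilt (FP G i) := by
  refine filt_of _ (fun s t h => ?_) fun s t => ?_
  · have := jf_mono h
    split_ifs <;> omega
  · have := jf_add s t
    have h1 := @le_jf i s
    have h2 := @le_jf i t
    split_ifs <;> omega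

lemma fBB (i d : ℕ) : IsFilt (BB G i d) :=
  filt_of _ (fun s t h => by split_ifs <;> omega) fun s t => by split_ifs <;> omega

lemma AA_le (H : Subgroup G) (i d t : ℕ) : AA H i d t ≤ Gam G i := by
  unfold AA; split_ifs
  · exact le_rfl
  · exact inf_le_left

lemma le_AA (H : Subgroup G) (i d t : ℕ) : Gam G i ⊓ (H ⊔ Gam G (i + 1)) ≤ AA H i d t := by
  unfold AA; split_ifs
  · exact inf_le_left
  · exact le_rfl

lemma fAA (H : Subgroup G) (i d : ℕ) : IsFilt (AA H i d) := by
  refine ⟨fun s t h => ?_, fun s t x y hx _ => ?_⟩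
  · by_cases hs : s ≤ d
    · refine (AA_le H i d t).trans ?_
      simp [AA, hs]
    · have : ¬ t ≤ d := by omega
      simp [AA, hs, this]
  · have := Gam_comm (AA_le H i d s hx) y
    exact le_AA H i d _ ⟨Gam_anti (Nat.le_succ i) this, Subgroup.mem_sup_right this⟩

lemma FP_le (i t : ℕ) : FP G i t ≤ FF G (i + 1) t := by
  refine Gam_anti ?_
  have := @jf_le t i
  rw [pow_succ] at this
  split_ifs <;> omega

lemma FF_le (i t : ℕ) : FF G (i + 1) t ≤ FF G i t := Gam_anti (by omega)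

lemma Gam_le_FF (i t : ℕ) : Gam G i ≤ FF G i t := Gam_anti (by omega)

section
variable {ι : Type} [DecidableEq ι]

lemma degree {F : ℕ → Subgroup G} (H : Subgroup G) {i d : ℕ} (hd : ∀ t, d < t → F t ≤ Gam G (i + 1))
    {U : Finset ι} {s : ℕ} {l : Finset ι → G} (hl : P F U s l) :
    ∀ n : Finset ι → G, (∀ S, n S ∈ Gam G i) → (∀ S, n S * l S ∈ H ⊔ Gam G (i + 1)) →
      P (AA H i d) U s n := by
  induction hl with
  | @mk U s l h1 _ ih =>
    intro n hn hH
    refine P.mk (fun S => ?_) fun a ha => ih a ha _ (fun S => mul_mem (inv_mem (hn _)) (hn _))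
      fun S => ?_
    · unfold AA
      split_ifs with h
      · exact hn S
      · refine ⟨hn S, ?_⟩
        have := mul_mem (hH S) (inv_mem (Subgroup.mem_sup_right (hd s (by omega) (h1 S))))
        simpa using this
    · have a1 := Gam_comm (mul_mem (inv_mem (hn S)) (hn (insert a S))) (l S)⁻¹
      have := mul_mem (Subgroup.mem_sup_right a1) (mul_mem (inv_mem (hH S)) (hH (insert a S)))
      have e : D a n S * D a l S = (n S)⁻¹ * n (insert a S) * (l S)⁻¹ * ((n S)⁻¹ * n (insert a S))⁻¹ *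
          (l S)⁻¹⁻¹ * ((n S * l S)⁻¹ * (n (insert a S) * l (insert a S))) := by
        simp only [D]; group
      rwa [e]

lemma taylor1 [Fintype ι] {i : ℕ} {k : Finset ι → G} (hk : P (FF G i) univ 0 k) :
    ∃ g n : Finset ι → G, P (FP G i) univ 0 g ∧ (∀ S, n S ∈ Gam G i) ∧ k = n * g := by
  obtain ⟨g, h1, h2⟩ := taylor (fFF i) (fFP i) (fun t => (FP_le i t).trans (FF_le i t))
    (Gam_le_FF i) (fun t x hx => by
      by_cases h : t ≤ 2 * 4 ^ i
      · exact ⟨x, by simpa [FP, h, FF] using hx, by simp⟩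
      · refine ⟨1, one_mem _, ?_⟩
        have := @le_jf i t (by omega)
        rw [FF, min_eq_right this] at hx
        simpa using hx) hk
  refine ⟨g, k * g⁻¹, h1, fun S => ?_, by simp⟩
  have := (inferInstance : (Gam G i).Normal).conj_mem _ (h2 S) (g S)
  simpa [mul_assoc] using this

end

section
variable {Q : Type*} [MulAction G Q]

variable (G) in
structure LoopData (e : Q) (mul ld rd : Q → Q → Q) : Prop where
  hL : ∀ x, ∃ g : G, ∀ y, mul x y = g • y
  hR : ∀ y, ∃ g : G, ∀ x, mul x y = g • x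
  mul_e : ∀ x, mul x e = x
  hld : ∀ x y, mul x (ld x y) = y
  hrd : ∀ x y, mul (rd x y) y = x

variable (G) in
def E (e : Q) (i : ℕ) {ι : Type} [Fintype ι] [DecidableEq ι] (c : Finset ι → Q) : Prop :=
  ∃ g : Finset ι → G, P (FF G i) univ 0 g ∧ ∀ S, c S = g S • e

variable {e : Q} {mul ld rd : Q → Q → Q}

lemma LoopData.trans (h : LoopData G e mul ld rd) (q : Q) : ∃ g : G, q = g • e := by
  obtain ⟨g, hg⟩ := h.hL q
  exact ⟨g, by rw [← hg, h.mul_e]⟩

lemma pull {f : Q → Q} (hf : ∃ g : G, ∀ x, f x = g • x) {i : ℕ} {n : G} (hn : n ∈ Gam G i) (x : Q) :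
    ∃ m ∈ Gam G (i + 1), f (n • x) = m • n • f x := by
  obtain ⟨g, hg⟩ := hf
  refine ⟨_, Gam_comm' hn g, ?_⟩
  simp only [hg, smul_smul]
  congr 1; group

lemma memH {i : ℕ} {n g h : G} (hn : n ∈ Gam G i) (he : n • g • e = h • e) :
    n * (h⁻¹ * g) ∈ MulAction.stabilizer G e ⊔ Gam G (i + 1) := by
  have h1 : h⁻¹ * n * g ∈ MulAction.stabilizer G e := by
    rw [MulAction.mem_stabilizer_iff, mul_smul, mul_smul, he, inv_smul_smul]
  have := mul_mem (Subgroup.mem_sup_right (Gam_comm hn h⁻¹)) (Subgroup.mem_sup_left h1)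
  rwa [show n * h⁻¹ * n⁻¹ * h⁻¹⁻¹ * (h⁻¹ * n * g) = n * (h⁻¹ * g) by group] at this

variable {ι : Type} [Fintype ι] [DecidableEq ι]

lemma E.act {i : ℕ} {c : Finset ι → Q} {g : Finset ι → G} (hg : P (FF G i) univ 0 g)
    (hc : E G e i c) : E G e i (fun S => g S • c S) := by
  obtain ⟨k, h1, h2⟩ := hc
  exact ⟨g * k, hg.mul (fFF i) h1, fun S => by simp [h2, mul_smul]⟩

lemma E.actA {i : ℕ} {c : Finset ι → Q} {n : Finset ι → G}
    (hn : P (AA (MulAction.stabilizer G e) i (4 ^ (i + 1))) univ 0 n)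
    (hc : E G e (i + 1) c) : E G e (i + 1) (fun S => n S • c S) := by
  obtain ⟨g, h1, h2⟩ := taylor (fAA _ i _) (fBB i (4 ^ (i + 1))) (fun t => by
      unfold BB AA
      split_ifs
      · exact le_rfl
      · exact le_inf (Gam_anti (Nat.le_succ i)) le_sup_right) (le_AA _ i _) (fun t x hx => by
      by_cases h : t ≤ 4 ^ (i + 1)
      · exact ⟨x, by simpa [BB, h, AA] using hx, by simp⟩
      · exact ⟨1, one_mem _, by simpa [AA, h] using hx⟩) hn
  obtain ⟨k, hk1, hk2⟩ := hc
  have key : ∀ S, ∃ m ∈ Gam G (i + 1), ((g S)⁻¹ * n S) • c S = m • c S := by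
    intro S
    obtain ⟨a1, a2⟩ := h2 S
    have a3 : (g S)⁻¹ * n S ∈ Gam G (i + 1) ⊔ MulAction.stabilizer G e := by
      rw [sup_comm]; exact a2
    obtain ⟨y, hy, z, hz, hyz⟩ := Subgroup.mem_sup_of_normal_left.1 a3
    refine ⟨_, mul_mem (Gam_comm a1 (k S))
      ((inferInstance : (Gam G (i + 1)).Normal).conj_mem _ hy (k S)), ?_⟩
    have h3 : y • e = ((g S)⁻¹ * n S) • e := by
      rw [← hyz, mul_smul, MulAction.mem_stabilizer_iff.1 hz]
    rw [hk2, smul_smul, smul_smul, show (g S)⁻¹ * n S * k S * ((g S)⁻¹ * n S)⁻¹ * (k S)⁻¹ *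
      (k S * y * (k S)⁻¹) * k S = ((g S)⁻¹ * n S * k S * ((g S)⁻¹ * n S)⁻¹) * y by group,
      mul_smul _ y, h3, smul_smul]
    congr 1; group
  choose m hm1 hm2 using key
  have := E.act (h1.monoF (F' := FF G (i + 1)) fun t => Gam_anti (by
      have := @jf_le t i
      split_ifs <;> omega))
    (E.act (P.of_val (Gam_le_FF (i + 1)) univ 0 m hm1) ⟨k, hk1, hk2⟩)
  have e1 : (fun S => g S • m S • c S) = fun S => n S • c S := by
    funext S; rw [← hm2, smul_smul]; simp
  rwa [e1] at this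

lemma E.down {i : ℕ} {c : Finset ι → Q} (hc : E G e (i + 1) c) : E G e i c := by
  obtain ⟨k, h1, h2⟩ := hc
  exact ⟨k, h1.monoF (FF_le i), h2⟩

lemma top_FP (i : ℕ) (x : G) : x ∈ FP G i 0 := by simp [FP, jf, Gam]

lemma keymul (h : LoopData G e mul ld rd) {i : ℕ}
    (ih : ∀ c d : Finset (ι ⊕ ι) → Q, E G e i c → E G e i d → E G e i (fun S => mul (c S) (d S)))
    {g k : Finset ι → G} (hg : P (FP G i) univ 0 g) (hk : P (FP G i) univ 0 k) :
    E G e (i + 1) (fun S => mul (g S • e) (k S • e)) := by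
  have hle : ∀ t, FP G i t ≤ FF G i t := fun t => (FP_le i t).trans (FF_le i t)
  obtain ⟨M, hM1, hM2⟩ := ih (fun X => g X.toLeft • e) (fun X => k X.toRight • e)
    ⟨_, P.left univ 0 g (by simpa using hg.monoF hle), fun _ => rfl⟩
    ⟨_, P.right univ 0 k (by simpa using hk.monoF hle), fun _ => rfl⟩
  obtain ⟨K, N, hK, hN, rfl⟩ := taylor1 hM1
  have hd : ∀ t, 2 * 4 ^ i < t → FP G i t ≤ Gam G (i + 1) := fun t ht => by
    have : ¬ t ≤ 2 * 4 ^ i := by omega
    simp [FP, this]
  have s1 : ∀ T, P (AA (MulAction.stabilizer G e) i (2 * 4 ^ i)) univ 0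
      (fun S : Finset ι => N (S.disjSum T)) := by
    intro T
    obtain ⟨r, hr⟩ := h.hR (k T • e)
    have a1 : P (FP G i) univ 0 (fun S : Finset ι => K (S.disjSum T)) := by simpa using hK.sliceL T
    refine degree _ hd ((((P.const (top_FP i r)).mul (fFP i) hg).inv (fFP i)).mul (fFP i) a1) _
      (fun S => hN _) fun S => memH (hN _) ?_
    have := hM2 (S.disjSum T)
    simp only [toLeft_disjSum, toRight_disjSum, Pi.mul_apply, mul_smul] at this
    rw [← this, hr]
    simp [mul_smul]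
  have s2 : ∀ T : Finset ι, P (AA (MulAction.stabilizer G e) i (2 * 4 ^ i)) univ 0
      (fun S : Finset ι => N (T.disjSum S)) := by
    intro T
    obtain ⟨r, hr⟩ := h.hL (g T • e)
    have a1 : P (FP G i) univ 0 (fun S : Finset ι => K (T.disjSum S)) := by simpa using hK.sliceR T
    refine degree _ hd ((((P.const (top_FP i r)).mul (fFP i) hk).inv (fFP i)).mul (fFP i) a1) _
      (fun S => hN _) fun S => memH (hN _) ?_
    have := hM2 (T.disjSum S)
    simp only [toLeft_disjSum, toRight_disjSum, Pi.mul_apply, mul_smul] at this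
    rw [← this, hr]
    simp [mul_smul]
  have s3 := sep_diag (fAA _ i _) (fAA (MulAction.stabilizer G e) i (4 ^ (i + 1))) (fun s t => by
    by_cases hst : s + t ≤ 4 ^ (i + 1)
    · refine inf_le_left.trans ((AA_le _ _ _ _).trans ?_)
      simp [AA, hst]
    · rw [pow_succ] at hst
      refine le_trans ?_ (le_AA _ _ _ _)
      by_cases hs : s ≤ 2 * 4 ^ i
      · have : ¬ t ≤ 2 * 4 ^ i := by omega
        refine inf_le_right.trans ?_
        simp [AA, this]
      · refine inf_le_left.trans ?_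
        simp [AA, hs]) univ 0 0 (fun S T => N (S.disjSum T)) s1 s2
  have s4 : P (FP G i) univ 0 (fun S : Finset ι => K (S.disjSum S)) :=
    P.diag (fFP i) univ 0 K (by simpa using hK)
  have := E.actA s3 (c := fun S => K (S.disjSum S) • e) ⟨_, s4.monoF (FP_le i), fun _ => rfl⟩
  have e1 : (fun S : Finset ι => mul (g S • e) (k S • e)) =
      fun S => N (S.disjSum S) • K (S.disjSum S) • e := by
    funext S
    have := hM2 (S.disjSum S)
    simpa only [toLeft_disjSum, toRight_disjSum, Pi.mul_apply, mul_smul] using this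
  rwa [e1]

lemma stepmul (h : LoopData G e mul ld rd) {i : ℕ}
    (ih : ∀ c d : Finset (ι ⊕ ι) → Q, E G e i c → E G e i d → E G e i (fun S => mul (c S) (d S)))
    {c d : Finset ι → Q} (hc : E G e (i + 1) c) (hd : E G e (i + 1) d) :
    E G e (i + 1) (fun S => mul (c S) (d S)) := by
  obtain ⟨k, hk1, hk2⟩ := hc
  obtain ⟨l, hl1, hl2⟩ := hd
  obtain ⟨g, n, hg, hn, rfl⟩ := taylor1 (hk1.monoF (FF_le i))
  obtain ⟨g', n', hg', hn', rfl⟩ := taylor1 (hl1.monoF (FF_le i))
  have b1 : P (FF G (i + 1)) univ 0 n := by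
    simpa using hk1.mul (fFF _) ((hg.monoF (FP_le i)).inv (fFF _))
  have b2 : P (FF G (i + 1)) univ 0 n' := by
    simpa using hl1.mul (fFF _) ((hg'.monoF (FP_le i)).inv (fFF _))
  choose m hm1 hm2 using fun S => pull (f := fun x => mul x (d S)) (h.hR (d S)) (hn S) (g S • e)
  choose m' hm1' hm2' using fun S => pull (f := mul (g S • e)) (h.hL (g S • e)) (hn' S) (g' S • e)
  have := E.act (P.of_val (Gam_le_FF (i + 1)) univ 0 m hm1) (E.act b1
    (E.act (P.of_val (Gam_le_FF (i + 1)) univ 0 m' hm1') (E.act b2 (keymul h ih hg hg'))))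
  have e1 : (fun S => mul (c S) (d S)) =
      fun S => m S • n S • m' S • n' S • mul (g S • e) (g' S • e) := by
    funext S
    rw [← hm2', ← mul_smul (n' S), ← Pi.mul_apply, ← hl2, ← hm2, ← mul_smul (n S), ← Pi.mul_apply,
      ← hk2]
  rwa [e1]

lemma stepdiv {i : ℕ} {f : Finset ι → Q → Q} (hf : ∀ S, ∃ g : G, ∀ x, f S x = g • x)
    (hcl : ∀ x : Finset ι → Q, E G e (i + 1) x → E G e (i + 1) (fun S => f S (x S)))
    {x : Finset ι → Q} (hx : E G e i x) (hd : E G e (i + 1) (fun S => f S (x S))) :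
    E G e (i + 1) x := by
  obtain ⟨k, hk1, hk2⟩ := hx
  obtain ⟨g, n, hg, hn, rfl⟩ := taylor1 hk1
  have b1 : E G e (i + 1) (fun S => g S • e) := ⟨g, hg.monoF (FP_le i), fun _ => rfl⟩
  obtain ⟨k1, c1, c2⟩ := hcl _ b1
  obtain ⟨k2, d1, d2⟩ := hd
  choose m hm1 hm2 using fun S => pull (hf S) (hn S) (g S • e)
  have b2 := degree (MulAction.stabilizer G e) (i := i) (d := 4 ^ (i + 1)) (F := FF G (i + 1))
    (fun t ht => Gam_anti (by have := le_jf ht; omega))
    (((((P.of_val (Gam_le_FF (i + 1)) univ 0 m hm1).inv (fFF _)).mul (fFF _) d1).inv (fFF _)).mul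
      (fFF _) c1) n hn fun S => memH (hn S) (by
        have a1 := d2 S
        have a2 := c2 S
        simp only [hk2, Pi.mul_apply, mul_smul] at a1 a2
        simp only [Pi.mul_apply, Pi.inv_apply, mul_smul]
        rw [← a1, hm2, a2, inv_smul_smul])
  have := E.actA b2 b1
  have e1 : x = fun S => n S • g S • e := by funext S; rw [hk2]; simp [mul_smul]
  rwa [e1]

end

theorem closed {Q : Type*} [MulAction G Q] {e : Q} {mul ld rd : Q → Q → Q}
    (h : LoopData G e mul ld rd) (i : ℕ) : ∀ (ι : Type) [Fintype ι] [DecidableEq ι]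
    (c d : Finset ι → Q), E G e i c → E G e i d → E G e i (fun S => mul (c S) (d S)) ∧
      E G e i (fun S => ld (c S) (d S)) ∧ E G e i (fun S => rd (c S) (d S)) := by
  induction i with
  | zero =>
    intro ι _ _ c d _ _
    have all : ∀ x : Finset ι → Q, E G e 0 x := by
      intro x
      choose g hg using fun S => h.trans (x S)
      exact ⟨g, P.of_val (Gam_le_FF 0) _ _ _ fun S => Subgroup.mem_top _, hg⟩
    exact ⟨all _, all _, all _⟩
  | succ i ih =>
    intro ι _ _ c d hc hd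
    have hm : ∀ {c d : Finset ι → Q}, E G e (i + 1) c → E G e (i + 1) d →
        E G e (i + 1) (fun S => mul (c S) (d S)) :=
      fun hc hd => stepmul h (fun c d a b => (ih _ c d a b).1) hc hd
    obtain ⟨-, h2, h3⟩ := ih ι c d hc.down hd.down
    refine ⟨hm hc hd, stepdiv (f := fun S => mul (c S)) (fun S => h.hL _) (fun x hx => hm hc hx) h2
      (by simpa only [h.hld] using hd), stepdiv (f := fun S x => mul x (d S)) (fun S => h.hR _)
      (fun x hx => hm hx hd) h3 (by simpa only [h.hrd] using hc)⟩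

end Pool.Agent.H3.Cube
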