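import Mathlib

set_option autoImplicit false

namespace Pool.Agent.H3.Disc

open Complex Filter Topology

def S : Type := {p : ℂ × ℂ // ‖p.1‖ ≤ 1 ∧ ‖p.2‖ ≤ 1 ∧ p.1 * p.2 = 0}

noncomputable instance : MetricSpace S := inferInstanceAs (MetricSpace (Subtype _))

instance : CompactSpace S := by
  refine (isCompact_iff_compactSpace
    (s := {p : ℂ × ℂ | ‖p.1‖ ≤ 1 ∧ ‖p.2‖ ≤ 1 ∧ p.1 * p.2 = 0})).mp
    (Metric.isCompact_of_isClosed_isBounded ?_ ?_)
  · exact (isClosed_le continuous_fst.norm continuous_const).inter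
      ((isClosed_le continuous_snd.norm continuous_const).inter
        (isClosed_eq (continuous_fst.mul continuous_snd) continuous_const))
  · refine (Metric.isBounded_closedBall (x := (0 : ℂ × ℂ)) (r := 1)).subset fun p hp => ?_
    simp [Prod.norm_def, hp.1, hp.2.1]

noncomputable instance : MeasurableSpace S := borel S
instance : BorelSpace S := ⟨rfl⟩

def z : C(S, ℂ) := ⟨fun p => p.1.1, continuous_fst.comp continuous_subtype_val⟩
def w : C(S, ℂ) := ⟨fun p => p.1.2, continuous_snd.comp continuous_subtype_val⟩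

lemma z_le (p : S) : ‖z p‖ ≤ 1 := p.2.1
lemma w_le (p : S) : ‖w p‖ ≤ 1 := p.2.2.1
lemma zw (p : S) : z p * w p = 0 := p.2.2.2
lemma ext' {p q : S} (h1 : z p = z q) (h2 : w p = w q) : p = q := Subtype.ext (Prod.ext h1 h2)

def o : S := ⟨(0, 0), by simp⟩

noncomputable def A : Subalgebra ℂ C(S, ℂ) := (Algebra.adjoin ℂ {z, w}).topologicalClosure

lemma A_closed : IsClosed (A : Set C(S, ℂ)) := Subalgebra.isClosed_topologicalClosure _

lemma z_mem : z ∈ A := Subalgebra.le_topologicalClosure _ (Algebra.subset_adjoin (by simp))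
lemma w_mem : w ∈ A := Subalgebra.le_topologicalClosure _ (Algebra.subset_adjoin (by simp))

lemma A_le (B : Subalgebra ℂ C(S, ℂ)) (hB : IsClosed (B : Set C(S, ℂ))) (hz : z ∈ B)
    (hw : w ∈ B) : A ≤ B :=
  Subalgebra.topologicalClosure_minimal (Algebra.adjoin_le (by
    rintro x (rfl | rfl) <;> assumption)) hB

lemma chars (χ : A →ₐ[ℂ] ℂ) (hχ : Continuous χ) : ∃! s : S, ∀ f : A, χ f = f.1 s := by
  haveI : CompleteSpace A := A_closed.completeSpace_coe
  haveI : Nonempty S := ⟨o⟩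
  have hb : ∀ f : A, (∀ p, ‖f.1 p‖ ≤ 1) → ‖χ f‖ ≤ 1 := by
    intro f hf
    have h1 := AlgHom.norm_apply_le_self_mul_norm_one χ f
    have h2 : ‖f‖ ≤ 1 := (ContinuousMap.norm_le _ zero_le_one).mpr hf
    have h3 : ‖(1 : A)‖ ≤ 1 := (ContinuousMap.norm_le _ zero_le_one).mpr (by simp)
    exact h1.trans (mul_le_one₀ h2 (norm_nonneg _) h3)
  let s : S := ⟨(χ ⟨z, z_mem⟩, χ ⟨w, w_mem⟩), hb _ z_le, hb _ w_le, by
    rw [← map_mul]
    have : (⟨z, z_mem⟩ * ⟨w, w_mem⟩ : A) = 0 := Subtype.ext (ContinuousMap.ext zw)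
    rw [this, map_zero]⟩
  refine ⟨s, fun f => ?_, fun t ht => ext' (ht ⟨z, z_mem⟩).symm (ht ⟨w, w_mem⟩).symm⟩
  let ev : A →ₐ[ℂ] ℂ := (ContinuousMap.evalAlgHom ℂ ℂ s).comp A.val
  have hev : Continuous ev := (continuous_eval_const s).comp continuous_subtype_val
  have hcl : IsClosed (((AlgHom.equalizer χ ev).map A.val : Subalgebra ℂ C(S, ℂ)) :
      Set C(S, ℂ)) :=
    A_closed.isClosedMap_subtype_val _ (isClosed_eq hχ hev)
  obtain ⟨g, hg, hgf⟩ := A_le _ hcl ⟨⟨z, z_mem⟩, rfl, rfl⟩ ⟨⟨w, w_mem⟩, rfl, rfl⟩ f.2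
  have : g = f := Subtype.ext hgf
  rw [← this]
  exact hg

lemma series {x : C(S, ℂ)} (hx : x ∈ A) (h1 : ‖x‖ < 1) (c : ℕ → ℂ) (hc : ∀ n, ‖c n‖ ≤ 1) :
    ∃ y ∈ A, ∀ p, HasSum (fun n => c n * x p ^ n) (y p) := by
  haveI : Nonempty S := ⟨o⟩
  have hs : Summable (fun n => c n • x ^ n) := by
    refine Summable.of_norm_bounded (summable_geometric_of_lt_one (norm_nonneg x) h1) fun n => ?_
    rw [norm_smul]
    exact (mul_le_of_le_one_left (norm_nonneg _) (hc n)).trans (norm_pow_le x n)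
  refine ⟨∑' n, c n • x ^ n, ?_, fun p => ?_⟩
  · exact A_closed.mem_of_tendsto hs.hasSum (Eventually.of_forall fun s =>
      A.sum_mem fun n _ => A.smul_mem (A.pow_mem hx n) _)
  · simpa using hs.hasSum.mapL (ContinuousMap.evalCLM ℂ p)

lemma log_near {x : C(S, ℂ)} (hx : x ∈ A) (h1 : ‖x‖ < 1) :
    ∃ g ∈ A, ∀ p, 1 + x p = exp (g p) := by
  obtain ⟨y, hy, h⟩ := series hx h1 (fun n => (-1) ^ (n + 1) / n) (fun n => by
    rcases Nat.eq_zero_or_pos n with rfl | hn
    · simp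
    · simp only [norm_div, norm_pow, norm_neg, norm_one, one_pow, Complex.norm_natCast]
      rw [div_le_one (by exact_mod_cast hn)]
      exact_mod_cast hn)
  refine ⟨y, hy, fun p => ?_⟩
  have hp : ‖x p‖ < 1 := (x.norm_coe_le_norm p).trans_lt h1
  have h2 := hasSum_taylorSeries_log hp
  have h3 : y p = log (1 + x p) := (h p).unique (by
    convert h2 using 2
    ring)
  rw [h3, exp_log]
  intro h0
  have : x p = -1 := by linear_combination h0
  rw [this] at hp
  simp at hp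

lemma inv_near {x : C(S, ℂ)} (hx : x ∈ A) (h1 : ‖x‖ < 1) :
    ∃ g ∈ A, ∀ p, g p = (1 - x p)⁻¹ := by
  obtain ⟨y, hy, h⟩ := series hx h1 (fun _ => 1) (fun n => by simp)
  refine ⟨y, hy, fun p => (h p).unique ?_⟩
  simpa using hasSum_geometric_of_norm_lt_one ((x.norm_coe_le_norm p).trans_lt h1)

noncomputable def Df (q : unitInterval × S) : S :=
  ⟨((q.1 : ℝ) * q.2.1.1, (q.1 : ℝ) * q.2.1.2), by
      have h0 : ‖((q.1 : ℝ) : ℂ)‖ ≤ 1 := by
        rw [norm_real, Real.norm_eq_abs, abs_of_nonneg q.1.2.1]; exact q.1.2.2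
      refine ⟨?_, ?_, ?_⟩
      · rw [norm_mul]; exact mul_le_one₀ h0 (norm_nonneg _) q.2.2.1
      · rw [norm_mul]; exact mul_le_one₀ h0 (norm_nonneg _) q.2.2.2.1
      · linear_combination ((q.1 : ℝ) : ℂ) ^ 2 * q.2.2.2.2⟩

noncomputable def D : C(unitInterval × S, S) :=
  ⟨Df, continuous_induced_rng.mpr (by
      have h1 : Continuous fun q : unitInterval × S => z q.2 := z.continuous.comp continuous_snd
      have h2 : Continuous fun q : unitInterval × S => w q.2 := w.continuous.comp continuous_snd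
      have h3 : Continuous fun q : unitInterval × S => ((q.1 : ℝ) : ℂ) := by fun_prop
      exact (h3.mul h1).prodMk (h3.mul h2))⟩

lemma dil_mem {f : C(S, ℂ)} (hf : f ∈ A) (r : unitInterval) : (f.comp D).curry r ∈ A := by
  let φ := ContinuousMap.compRightAlgHom ℂ ℂ (D.curry r)
  have hφ : Continuous φ := ContinuousMap.continuous_precomp _
  refine A_le (A.comap φ) (A_closed.preimage hφ) ?_ ?_ hf
  · exact A.smul_mem z_mem ((r : ℝ) : ℂ)
  · exact A.smul_mem w_mem ((r : ℝ) : ℂ)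

lemma logs (f : C(S, ℂ)) (hf : f ∈ A) (hi : ∃ g ∈ A, f * g = 1) :
    ∃ h ∈ A, ∀ s, f s = exp (h s) := by
  obtain ⟨g, hg, hfg⟩ := hi
  have hfg' : ∀ p, f p * g p = 1 := fun p => DFunLike.congr_fun hfg p
  let F := (f.comp D).curry
  let G := (g.comp D).curry
  have hFG : ∀ r p, F r p * G r p = 1 := fun r p => hfg' _
  let L : unitInterval → Prop := fun r => ∃ h ∈ A, ∀ s, F r s = exp (h s)
  haveI : Std.Symm (fun r t => L r ↔ L t) := ⟨fun _ _ h => h.symm⟩
  have key : L 0 ↔ L 1 := by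
    refine PreconnectedSpace.induction₂ (fun r t => L r ↔ L t) (fun r => ?_)
      ⟨fun _ _ _ h h' => h.trans h'⟩ 0 1
    have hc : Continuous fun t => ‖F t * G r - 1‖ := by fun_prop
    have h0 : ‖F r * G r - 1‖ < 1 := by
      have : F r * G r = 1 := ContinuousMap.ext (hFG r)
      simp [this]
    filter_upwards [hc.continuousAt.eventually_lt continuousAt_const h0] with t ht
    obtain ⟨k, hk, hk'⟩ := log_near (A.sub_mem (A.mul_mem (dil_mem hf t) (dil_mem hg r)) A.one_mem)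
      ht
    have e : ∀ s, F t s = F r s * exp (k s) := by
      intro s
      rw [← hk']
      have := hFG r s
      simp only [ContinuousMap.sub_apply, ContinuousMap.mul_apply, ContinuousMap.one_apply]
      change F t s = F r s * (1 + (F t s * G r s - 1))
      linear_combination (-F t s) * this
    constructor
    · rintro ⟨h, hh, hh'⟩
      exact ⟨h + k, A.add_mem hh hk, fun s => by
        rw [e, hh', ContinuousMap.add_apply, exp_add]⟩
    · rintro ⟨h, hh, hh'⟩
      refine ⟨h - k, A.sub_mem hh hk, fun s => ?_⟩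
      rw [ContinuousMap.sub_apply, exp_sub, ← hh', e, mul_div_cancel_right₀ _ (exp_ne_zero _)]
  have h0 : L 0 := by
    refine ⟨algebraMap ℂ _ (log (f o)), A.algebraMap_mem _, fun s => ?_⟩
    have h1 : D (0, s) = o := ext' (by change ((0 : ℝ) : ℂ) * _ = 0; simp)
      (by change ((0 : ℝ) : ℂ) * _ = 0; simp)
    change f (D (0, s)) = _
    rw [h1]
    simp [exp_log (left_ne_zero_of_mul_eq_one (hfg' o))]
  obtain ⟨h, hh, hh'⟩ := key.mp h0
  refine ⟨h, hh, fun s => ?_⟩
  rw [← hh']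
  have h1 : D (1, s) = s := ext' (by change ((1 : ℝ) : ℂ) * z s = z s; simp)
      (by change ((1 : ℝ) : ℂ) * w s = w s; simp)
  change _ = f (D (1, s))
  rw [h1]

end Pool.Agent.H3.Disc
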