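import Pool.Agent.H3.DiscA

set_option autoImplicit false

namespace Pool.Agent.H3.Disc

open Complex Filter Topology MeasureTheory
open scoped Real

lemma intg {E : Type} [NormedAddCommGroup E] (μ : Measure S) [IsFiniteMeasure μ] {u : S → E}
    (hu : Continuous u) : Integrable u μ :=
  hu.integrable_of_hasCompactSupport (HasCompactSupport.of_compactSpace u)

noncomputable def In (μ : Measure S) [IsFiniteMeasure μ] : C(S, ℂ) →L[ℂ] ℂ :=
  LinearMap.mkContinuous
    { toFun := fun φ => ∫ p, φ p ∂μ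
      map_add' := fun φ ψ => integral_add (intg μ φ.continuous) (intg μ ψ.continuous)
      map_smul' := fun c φ => integral_const_mul c φ } (μ.real Set.univ) fun φ => by
    rw [mul_comm]
    exact norm_integral_le_of_norm_le_const (Eventually.of_forall φ.norm_coe_le_norm)

section
variable (μ : Measure S) [IsFiniteMeasure μ]

lemma In_apply (φ : C(S, ℂ)) : In μ φ = ∫ p, φ p ∂μ := rfl

lemma In_star (φ : C(S, ℂ)) : In μ (star φ) = star (In μ φ) := integral_conj (f := φ)

lemma In_re (φ : C(S, ℂ)) : (In μ φ).re = ∫ p, (φ p).re ∂μ :=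
  (reCLM.integral_comp_comm (intg μ φ.continuous)).symm

lemma int_le {u : S → ℝ} (hu : Continuous u) (φ : C(S, ℂ)) (h : ∀ᵐ p ∂μ, u p ≤ (φ p).re) :
    ∫ p, u p ∂μ ≤ (In μ φ).re := by
  rw [In_re]
  exact integral_mono_ae (intg μ hu) (intg μ (continuous_re.comp φ.continuous)) h

lemma int_ge {u : S → ℝ} (hu : Continuous u) (φ : C(S, ℂ)) (h : ∀ᵐ p ∂μ, (φ p).re ≤ u p) :
    (In μ φ).re ≤ ∫ p, u p ∂μ := by
  rw [In_re]
  exact integral_mono_ae (intg μ (continuous_re.comp φ.continuous)) (intg μ hu) h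
end

noncomputable def lam : Measure ℝ := volume.restrict (Set.Ioo 0 (2 * π))

instance : IsFiniteMeasure lam := by unfold lam; infer_instance

noncomputable def lamw : Measure ℝ := lam.withDensity fun θ => ENNReal.ofReal (1 - Real.cos θ)

instance : IsFiniteMeasure lamw := isFiniteMeasure_withDensity_ofReal
  (Integrable.of_bound (by fun_prop) 2 (Eventually.of_forall fun θ => by
    rw [Real.norm_eq_abs, abs_le]
    constructor <;> linarith [Real.neg_one_le_cos θ, Real.cos_le_one θ])).2

lemma lam_ac : lam ≪ lamw := by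
  refine withDensity_absolutelyContinuous' (by fun_prop) ?_
  filter_upwards [ae_restrict_mem (μ := volume) (measurableSet_Ioo (a := 0) (b := 2 * π))]
    with θ hθ
  have h1 : Real.cos θ ≠ 1 := fun h => hθ.1.ne'
    ((Real.cos_eq_one_iff_of_lt_of_lt (by linarith [hθ.1, Real.pi_pos]) hθ.2).mp h)
  have := lt_of_le_of_ne (Real.cos_le_one θ) h1
  simpa using this

noncomputable def c1 : C(ℝ, S) :=
  ⟨fun θ => ⟨(exp (θ * I), 0), by simp⟩, continuous_induced_rng.mpr
    (show Continuous fun θ : ℝ => (exp (θ * I), (0 : ℂ)) by fun_prop)⟩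

noncomputable def c2 : C(ℝ, S) :=
  ⟨fun θ => ⟨(0, exp (θ * I)), by simp⟩, continuous_induced_rng.mpr
    (show Continuous fun θ : ℝ => ((0 : ℂ), exp (θ * I)) by fun_prop)⟩

lemma In_map (c : C(ℝ, S)) (ν : Measure ℝ) [IsFiniteMeasure ν] (φ : C(S, ℂ)) :
    In (ν.map c) φ = ∫ θ, φ (c θ) ∂ν :=
  integral_map c.continuous.aemeasurable φ.continuous.aestronglyMeasurable

lemma J_congr (c : C(ℝ, S)) {φ ψ : C(S, ℂ)} (h : ∀ θ, φ (c θ) = ψ (c θ)) :
    In (lam.map c) φ = In (lam.map c) ψ := by
  rw [In_map, In_map]; simp only [h]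

lemma mean (c : C(ℝ, S)) (a b : ℂ) (hz : ∀ θ, z (c θ) = a * exp (θ * I))
    (hw : ∀ θ, w (c θ) = b * exp (θ * I)) {f : C(S, ℂ)} (hf : f ∈ A) :
    In (lam.map c) f = 2 * π * f o := by
  let Λ := In (lam.map c) - (2 * π : ℂ) • ContinuousMap.evalCLM ℂ o
  have h1 : ∀ φ ∈ Submonoid.closure ({z, w} : Set C(S, ℂ)), ∃ (n : ℕ) (d : ℂ),
      (∀ θ, φ (c θ) = d * exp (θ * I) ^ n) ∧ φ o = if n = 0 then d else 0 := by
    intro φ hφ
    induction hφ using Submonoid.closure_induction with
    | mem x hx =>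
      rcases hx with rfl | rfl
      · exact ⟨1, a, by simpa using hz, rfl⟩
      · exact ⟨1, b, by simpa using hw, rfl⟩
    | one => exact ⟨0, 1, by simp, by simp⟩
    | mul x y _ _ hx hy =>
      obtain ⟨n, d, h1, h2⟩ := hx
      obtain ⟨m, e, h3, h4⟩ := hy
      refine ⟨n + m, d * e, fun θ => by rw [ContinuousMap.mul_apply, h1, h3]; ring, ?_⟩
      rw [ContinuousMap.mul_apply, h2, h4]
      by_cases hn : n = 0 <;> by_cases hm : m = 0 <;> simp [hn, hm]
  have h2 : (Algebra.adjoin ℂ {z, w} : Set C(S, ℂ)) ⊆ {φ | Λ φ = 0} := by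
    intro φ hφ
    have : Subalgebra.toSubmodule (Algebra.adjoin ℂ {z, w}) ≤ LinearMap.ker Λ.toLinearMap := by
      rw [Algebra.adjoin_eq_span, Submodule.span_le]
      intro ψ hψ
      obtain ⟨n, d, h1, h2⟩ := h1 ψ hψ
      change In (lam.map c) ψ - (2 * π : ℂ) * ψ o = 0
      rw [In_map, h2, lam, ← integral_Ioc_eq_integral_Ioo,
        ← intervalIntegral.integral_of_le (by positivity)]
      simp only [h1]
      split_ifs with hn
      · simp [hn]
      · have e : ∀ θ : ℝ, exp (θ * I) ^ n = exp ((n * I) * θ) := fun θ => by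
          rw [← exp_nat_mul]; congr 1; ring
        simp only [e]
        rw [intervalIntegral.integral_const_mul, integral_exp_mul_complex
          (mul_ne_zero (by exact_mod_cast hn) I_ne_zero)]
        have : exp (n * I * ((2 * π : ℝ) : ℂ)) = 1 := by
          rw [← exp_nat_mul_two_pi_mul_I n]; congr 1; push_cast; ring
        rw [this]
        simp
    exact this hφ
  have h3 : Λ f = 0 := closure_minimal h2 (isClosed_eq Λ.continuous continuous_const) hf
  exact sub_eq_zero.mp h3

lemma mean1 {f : C(S, ℂ)} (hf : f ∈ A) : In (lam.map c1) f = 2 * π * f o :=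
  mean c1 1 0 (fun _ => (one_mul _).symm) (fun _ => (zero_mul _).symm) hf

lemma mean2 {f : C(S, ℂ)} (hf : f ∈ A) : In (lam.map c2) f = 2 * π * f o :=
  mean c2 0 1 (fun _ => (zero_mul _).symm) (fun _ => (one_mul _).symm) hf

lemma e_star (θ : ℝ) : exp (θ * I) * (starRingEnd ℂ) (exp (θ * I)) = 1 := by
  rw [mul_conj']; simp

lemma In_w (φ : C(S, ℂ)) : In (lamw.map c2) φ = In (lam.map c2) φ -
    (In (lam.map c2) (w * φ) + In (lam.map c2) (star w * φ)) / 2 := by
  have : In (lamw.map c2) φ = In (lam.map c2) (φ - (1 / 2 : ℂ) • (w * φ + star w * φ)) := by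
    rw [In_map, In_map, lamw, integral_withDensity_eq_integral_toReal_smul (by fun_prop)
      (Eventually.of_forall fun _ => ENNReal.ofReal_lt_top)]
    congr 1
    funext θ
    rw [ENNReal.toReal_ofReal (by linarith [Real.cos_le_one θ])]
    have h : ((Real.cos θ : ℝ) : ℂ) = (exp (θ * I) + (starRingEnd ℂ) (exp (θ * I))) / 2 := by
      rw [add_conj, exp_ofReal_mul_I_re]; push_cast; ring
    change ((1 - Real.cos θ : ℝ) : ℂ) * φ (c2 θ) = φ (c2 θ) - (1 / 2 : ℂ) *
      (exp (θ * I) * φ (c2 θ) + (starRingEnd ℂ) (exp (θ * I)) * φ (c2 θ))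
    rw [ofReal_sub, h]
    push_cast
    ring
  rw [this, map_sub, map_smul, map_add, smul_eq_mul]
  ring

noncomputable def mu : Measure S := lam.map c1 + lamw.map c2
noncomputable def nu : Measure S := lam.map c2 + lamw.map c2

instance : IsFiniteMeasure mu := by unfold mu; infer_instance
instance : IsFiniteMeasure nu := by unfold nu; infer_instance

lemma In_mu (φ : C(S, ℂ)) : In mu φ = In (lam.map c1) φ + In (lamw.map c2) φ :=
  integral_add_measure (intg _ φ.continuous) (intg _ φ.continuous)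

lemma In_nu (φ : C(S, ℂ)) : In nu φ = In (lam.map c2) φ + In (lamw.map c2) φ :=
  integral_add_measure (intg _ φ.continuous) (intg _ φ.continuous)

lemma nu_equiv {f : C(S, ℂ)} (hf : f ∈ A) : In nu f = In mu f := by
  rw [In_mu, In_nu, mean1 hf, mean2 hf]

lemma nu_ac : nu ≪ mu := by
  refine Measure.AbsolutelyContinuous.add_left ?_ ?_
  · exact (lam_ac.map c2.continuous.measurable).add_right' _
  · exact Measure.AbsolutelyContinuous.rfl.add_right' _

def K (p : S) : Prop := (‖z p‖ = 1 ∧ w p = 0) ∨ (z p = 0 ∧ ‖w p‖ = 1)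

lemma ae_mu : ∀ᵐ p ∂mu, K p := by
  have hK : MeasurableSet {p | K p} :=
    (((isClosed_eq z.continuous.norm continuous_const).inter
      (isClosed_eq w.continuous continuous_const)).union
      ((isClosed_eq z.continuous continuous_const).inter
      (isClosed_eq w.continuous.norm continuous_const))).measurableSet
  rw [mu, ae_add_measure_iff, ae_map_iff c1.continuous.aemeasurable hK,
    ae_map_iff c2.continuous.aemeasurable hK]
  exact ⟨Eventually.of_forall fun θ => Or.inl ⟨norm_exp_ofReal_mul_I θ, rfl⟩,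
    Eventually.of_forall fun θ => Or.inr ⟨rfl, norm_exp_ofReal_mul_I θ⟩⟩

lemma w_one : In (lamw.map c2) 1 = 2 * π := by
  rw [In_w, mul_one, mul_one, In_star, mean2 A.one_mem, mean2 w_mem]
  simp [show w o = 0 from rfl]

lemma w_ww : In (lamw.map c2) (w * star w) = 2 * π := by
  rw [← w_one, In_map, In_map]
  congr 1
  funext θ
  exact e_star θ

lemma mu_one : In mu 1 = 4 * π := by
  rw [In_mu, w_one, mean1 A.one_mem]; simp; ring

lemma mu_ww : In mu (w * star w) = 2 * π := by
  rw [In_mu, w_ww, J_congr c1 (ψ := 0) (fun θ => zero_mul _)]; simp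

lemma nu_ww : In nu (w * star w) = 4 * π := by
  rw [In_nu, w_ww, J_congr c2 (ψ := 1) (fun θ => e_star θ), mean2 A.one_mem]; simp; ring

lemma zz_eq (α : Measure S) [IsFiniteMeasure α] (h : ∀ᵐ p ∂α, K p) :
    In α (z * star z) = In α 1 - In α (w * star w) := by
  rw [← map_sub]
  refine integral_congr_ae (h.mono fun p hp => ?_)
  change z p * (starRingEnd ℂ) (z p) = 1 - w p * (starRingEnd ℂ) (w p)
  rw [mul_conj', mul_conj']
  rcases hp with ⟨h1, h2⟩ | ⟨h1, h2⟩ <;> simp [h1, h2]

lemma ww_ge (α : Measure S) [IsFiniteMeasure α] (h : ∀ᵐ p ∂α, K p)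
    (he : ∀ f ∈ A, In α f = In mu f) : 2 * π ≤ (In α (w * star w)).re := by
  have key : ∀ r : ℝ, 0 < r → r < 1 → 2 * π * r ≤ (In α (w * star w)).re := by
    intro r h0 h1
    have hn : ‖(r : ℂ) • w‖ < 1 := by
      rw [norm_smul, norm_real, Real.norm_eq_abs, abs_of_pos h0]
      have : ‖w‖ ≤ 1 := (ContinuousMap.norm_le _ zero_le_one).mpr w_le
      nlinarith
    obtain ⟨g, hg, hg'⟩ := inv_near (A.smul_mem w_mem (r : ℂ)) hn
    have hwo : w o = 0 := rfl
    have e1 : In mu (w * g) = -π := by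
      rw [In_mu, In_w, mean1 (A.mul_mem w_mem hg), mean2 (A.mul_mem w_mem hg),
        mean2 (A.mul_mem w_mem (A.mul_mem w_mem hg)), J_congr c2 (ψ := g) (fun θ => by
          change (starRingEnd ℂ) (exp (θ * I)) * (exp (θ * I) * g (c2 θ)) = _
          linear_combination g (c2 θ) * e_star θ), mean2 hg, hg']
      simp [hwo]
    have e2 := int_le α (continuous_const (y := (0 : ℝ))) ((2 * r : ℂ) • (w * g) + w * star w)
      (h.mono fun p hp => by
        change 0 ≤ ((2 * r : ℂ) * (w p * g p) + w p * (starRingEnd ℂ) (w p)).re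
        rcases hp with ⟨-, h2⟩ | ⟨-, h2⟩
        · simp [h2]
        · have hu : ‖(r : ℂ) * w p‖ < 1 := (((r : ℂ) • w).norm_coe_le_norm p).trans_lt hn
          rw [hg', mul_conj', h2]
          change 0 ≤ ((2 * r : ℂ) * (w p * (1 - r * w p)⁻¹) + _).re
          have hne : 1 - r * w p ≠ 0 := by
            intro h; rw [← sub_eq_zero.mp h] at hu; simp at hu
          have e : (2 * r : ℂ) * (w p * (1 - r * w p)⁻¹) + ((1 : ℝ) : ℂ) ^ 2
              = (1 + r * w p) / (1 - r * w p) := by
            field_simp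
            push_cast
            ring
          rw [e]
          generalize (r : ℂ) * w p = u at hu hne
          rw [div_re, ← add_div]
          refine div_nonneg ?_ (normSq_nonneg _)
          have : u.re ^ 2 + u.im ^ 2 < 1 := by
            have := Complex.sq_norm u
            rw [normSq_apply] at this
            nlinarith [norm_nonneg u]
          simp
          nlinarith)
    rw [map_add, map_smul, he _ (A.mul_mem w_mem hg), e1] at e2
    simp at e2
    simp only [In_apply, ContinuousMap.mul_apply, ContinuousMap.star_apply] at e2 ⊢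
    linarith
  have ht : Tendsto (fun r : ℝ => 2 * π * r) (𝓝[<] 1) (𝓝 (2 * π * 1)) :=
    ((continuous_const.mul continuous_id).tendsto 1).mono_left nhdsWithin_le_nhds
  rw [mul_one] at ht
  refine le_of_tendsto ht ?_
  filter_upwards [Ioo_mem_nhdsLT (zero_lt_one' ℝ)] with r hr using key r hr.1 hr.2

end Pool.Agent.H3.Disc
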