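import Pool.Agent.H3.DiscB

set_option autoImplicit false

namespace Pool.Agent.H3.Disc

open Complex Filter Topology MeasureTheory
open scoped Real

noncomputable def mon (v : C(S, ℂ)) (n : ℤ) : C(S, ℂ) :=
  if 0 < n then v ^ n.toNat else if n < 0 then star (v ^ (-n).toNat) else v * star v

lemma mon_zero {v : C(S, ℂ)} {p : S} (h : v p = 0) (n : ℤ) : mon v n p = 0 := by
  unfold mon
  split_ifs with h1 h2
  · simp [h]; omega
  · simp [h]; omega
  · simp [h]

lemma mon_one {v : C(S, ℂ)} {p : S} (h : ‖v p‖ = 1) (n : ℤ) : mon v n p = v p ^ n := by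
  have e : (starRingEnd ℂ) (v p) = (v p)⁻¹ := (inv_eq_conj h).symm
  have h0 : v p ≠ 0 := by intro h0; simp [h0] at h
  unfold mon
  split_ifs with h1 h2
  · rw [ContinuousMap.pow_apply, ← zpow_natCast, Int.toNat_of_nonneg h1.le]
  · change (starRingEnd ℂ) (v p ^ (-n).toNat) = _
    rw [map_pow, e, ← zpow_natCast, Int.toNat_of_nonneg (by omega), inv_zpow', neg_neg]
  · have : n = 0 := by omega
    change v p * (starRingEnd ℂ) (v p) = _
    rw [e, this, mul_inv_cancel₀ h0, zpow_zero]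

lemma mon_eq (α β : Measure S) [IsFiniteMeasure α] [IsFiniteMeasure β]
    (he : ∀ f ∈ A, In α f = In β f) {v : C(S, ℂ)} (hv : v ∈ A)
    (h : In α (v * star v) = In β (v * star v)) (n : ℤ) : In α (mon v n) = In β (mon v n) := by
  unfold mon
  split_ifs
  · exact he _ (A.pow_mem hv _)
  · rw [In_star, In_star, he _ (A.pow_mem hv _)]
  · exact h

lemma eq_mu (α : Measure S) [IsFiniteMeasure α] (hK : ∀ᵐ p ∂α, K p)
    (he : ∀ f ∈ A, In α f = In mu f) (hw : In α (w * star w) = In mu (w * star w)) : α = mu := by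
  have hz : In α (z * star z) = In mu (z * star z) := by
    rw [zz_eq α hK, zz_eq mu ae_mu, hw, he _ A.one_mem]
  have h1 : ∀ φ ∈ Submonoid.closure (({z, w} : Set C(S, ℂ)) ∪ star {z, w}), ∃ (a b : ℂ) (n m : ℤ),
      ∀ p, K p → φ p = (a • mon z n + b • mon w m) p := by
    have base : ∀ (φ : C(S, ℂ)) (a b : ℂ) (n m : ℤ), (∀ p, ‖z p‖ = 1 → w p = 0 → φ p = a * z p ^ n) →
        (∀ p, z p = 0 → ‖w p‖ = 1 → φ p = b * w p ^ m) →
        ∀ p, K p → φ p = (a • mon z n + b • mon w m) p := by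
      intro φ a b n m h1 h2 p hp
      change _ = a * mon z n p + b * mon w m p
      rcases hp with ⟨h3, h4⟩ | ⟨h3, h4⟩
      · rw [mon_one h3, mon_zero h4, h1 p h3 h4]; ring
      · rw [mon_one h4, mon_zero h3, h2 p h3 h4]; ring
    intro φ hφ
    induction hφ using Submonoid.closure_induction with
    | mem x hx =>
      rcases hx with (rfl | rfl) | hx
      · exact ⟨1, 0, 1, 0, base _ _ _ _ _ (by simp) (by simp +contextual)⟩
      · exact ⟨0, 1, 0, 1, base _ _ _ _ _ (by simp +contextual) (by simp)⟩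
      · rw [Set.mem_star] at hx
        rcases hx with hx | hx
        · obtain rfl : x = star z := by rw [← hx, star_star]
          exact ⟨1, 0, -1, 0, base _ _ _ _ _ (fun p h _ => by simp [inv_eq_conj h])
            (by simp +contextual)⟩
        · obtain rfl : x = star w := by rw [← hx, star_star]
          exact ⟨0, 1, 0, -1, base _ _ _ _ _ (by simp +contextual)
            (fun p _ h => by simp [inv_eq_conj h])⟩
    | one => exact ⟨1, 1, 0, 0, base _ _ _ _ _ (by simp) (by simp)⟩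
    | mul x y _ _ hx hy =>
      obtain ⟨a, b, n, m, h1⟩ := hx
      obtain ⟨a', b', n', m', h2⟩ := hy
      refine ⟨a * a', b * b', n + n', m + m', base _ _ _ _ _ (fun p h3 h4 => ?_)
        (fun p h3 h4 => ?_)⟩
      · rw [ContinuousMap.mul_apply, h1 p (Or.inl ⟨h3, h4⟩), h2 p (Or.inl ⟨h3, h4⟩),
          zpow_add₀ (by intro h0; simp [h0] at h3)]
        simp [mon_one h3, mon_zero h4]
        ring
      · rw [ContinuousMap.mul_apply, h1 p (Or.inr ⟨h3, h4⟩), h2 p (Or.inr ⟨h3, h4⟩),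
          zpow_add₀ (by intro h0; simp [h0] at h4)]
        simp [mon_one h4, mon_zero h3]
        ring
  let Λ := In α - In mu
  have h2 : (StarAlgebra.adjoin ℂ {z, w} : Set C(S, ℂ)) ⊆ {φ | Λ φ = 0} := by
    intro φ hφ
    have : Subalgebra.toSubmodule (StarAlgebra.adjoin ℂ {z, w}).toSubalgebra
        ≤ LinearMap.ker Λ.toLinearMap := by
      rw [StarAlgebra.adjoin_eq_span, Submodule.span_le]
      intro ψ hψ
      obtain ⟨a, b, n, m, h⟩ := h1 ψ hψ
      change In α ψ - In mu ψ = 0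
      have e1 : In α ψ = In α (a • mon z n + b • mon w m) := integral_congr_ae (hK.mono h)
      have e2 : In mu ψ = In mu (a • mon z n + b • mon w m) := integral_congr_ae (ae_mu.mono h)
      rw [e1, e2, map_add, map_add, map_smul, map_smul, map_smul, map_smul,
        mon_eq α mu he z_mem hz, mon_eq α mu he w_mem hw, sub_self]
    exact this hφ
  have h3 := ContinuousMap.starSubalgebra_topologicalClosure_eq_top_of_separatesPoints
    (StarAlgebra.adjoin ℂ ({z, w} : Set C(S, ℂ))) (fun p q hpq => by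
      by_cases h : z p = z q
      · exact ⟨_, ⟨w, StarAlgebra.subset_adjoin ℂ _ (by simp), rfl⟩, fun h' => hpq (ext' h h')⟩
      · exact ⟨_, ⟨z, StarAlgebra.subset_adjoin ℂ _ (by simp), rfl⟩, h⟩)
  have h4 : ∀ φ, In α φ = In mu φ := fun φ => sub_eq_zero.mp
    (closure_minimal h2 (isClosed_eq Λ.continuous continuous_const)
      (show φ ∈ (StarAlgebra.adjoin ℂ ({z, w} : Set C(S, ℂ))).topologicalClosure by
        rw [h3]; trivial))
  refine ext_of_forall_integral_eq_of_IsFiniteMeasure fun f => ?_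
  have := congrArg re (h4 ⟨fun p => (f p : ℂ), by fun_prop⟩)
  rw [In_re, In_re] at this
  simpa using this

lemma half_log {v : C(S, ℂ)} (hv : v ∈ A) (h : ∀ p, ‖v p‖ ≤ 1) :
    ∃ g ∈ A, ∀ p, (g p).re = Real.log ‖2 + v p‖ - Real.log 2 := by
  have hn : ‖(1 / 2 : ℂ) • v‖ < 1 := by
    have : ‖v‖ ≤ 1 := (ContinuousMap.norm_le _ zero_le_one).mpr h
    rw [norm_smul]
    norm_num
    linarith
  obtain ⟨g, hg, hg'⟩ := log_near (A.smul_mem hv _) hn
  refine ⟨g, hg, fun p => ?_⟩
  have e : 2 + v p = 2 * exp (g p) := by rw [← hg']; simp; ring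
  rw [e, norm_mul, norm_exp, Real.log_mul (by simp) (Real.exp_ne_zero _), Real.log_exp]
  simp

lemma up {u : ℂ} (h : ‖u‖ ≤ 1) : Real.log (max ‖1 + 2 * u‖ 1) ≤ Real.log ‖2 + u‖ := by
  refine Real.log_le_log (by positivity) (max_le ?_ ?_)
  · rw [← sq_le_sq₀ (norm_nonneg _) (norm_nonneg _), Complex.sq_norm, Complex.sq_norm]
    have h1 := Complex.sq_norm u
    simp only [normSq_apply] at h1 ⊢
    simp
    nlinarith [norm_nonneg u]
  · have := norm_sub_norm_le (2 : ℂ) (-u)
    simp at this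
    linarith

lemma low {u : ℂ} (h : ‖u‖ = 1 ∨ u = 0) (ε : ℝ) :
    Real.log ‖2 + u‖ - Real.log 2 + Real.log 2 * ‖u‖ ^ 2 ≤ Real.log (max ‖1 + 2 * u‖ ε) := by
  rcases h with h | rfl
  · have e : ‖1 + 2 * u‖ = ‖2 + u‖ := by
      rw [← sq_eq_sq₀ (norm_nonneg _) (norm_nonneg _), Complex.sq_norm, Complex.sq_norm]
      have h1 := Complex.sq_norm u
      simp only [normSq_apply, h] at h1 ⊢
      simp
      nlinarith
    have := norm_sub_norm_le (2 : ℂ) (-u)
    simp [h] at this
    rw [h, e]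
    have h2 := Real.log_le_log (by linarith) (le_max_left ‖2 + u‖ ε)
    linarith
  · simpa using Real.log_nonneg (le_max_left 1 ε)

lemma cont_log (f : C(S, ℂ)) {ε : ℝ} (hε : 0 < ε) :
    Continuous fun p => Real.log (max ‖f p‖ ε) :=
  (f.continuous.norm.max continuous_const).log fun p => (hε.trans_le (le_max_right _ _)).ne'

lemma lower (α : Measure S) [IsFiniteMeasure α] {v g : C(S, ℂ)}
    (hK : ∀ᵐ p ∂α, ‖v p‖ = 1 ∨ v p = 0)
    (hg : ∀ p, (g p).re = Real.log ‖2 + v p‖ - Real.log 2) {ε : ℝ} (hε : 0 < ε) :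
    (In α g).re + Real.log 2 * (In α (v * star v)).re
      ≤ ∫ p, Real.log (max ‖(1 + 2 * v) p‖ ε) ∂α := by
  have := int_ge α (cont_log (1 + 2 * v) hε) (g + (Real.log 2 : ℂ) • (v * star v))
    (hK.mono fun p hp => by
      change (g p + (Real.log 2 : ℂ) * (v p * (starRingEnd ℂ) (v p))).re ≤ _
      rw [add_re, hg, mul_conj', re_ofReal_mul, ← ofReal_pow, ofReal_re]
      exact low hp ε)
  rwa [map_add, map_smul, add_re, smul_eq_mul, re_ofReal_mul] at this

theorem no_top (σ : Measure S) [IsFiniteMeasure σ] (he : ∀ f ∈ A, In σ f = In mu f) :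
    ∃ a b : ℝ, (∀ ε, 0 < ε → a ≤ ∫ p, Real.log (max ‖(1 + 2 * z) p‖ ε) ∂mu) ∧
      (∀ ε, 0 < ε → b ≤ ∫ p, Real.log (max ‖(1 + 2 * w) p‖ ε) ∂nu) ∧
      ∫ p, Real.log (max ‖(1 + 2 * z) p‖ 1) ∂σ + ∫ p, Real.log (max ‖(1 + 2 * w) p‖ 1) ∂σ
        < a + b := by
  obtain ⟨g, hg, hg'⟩ := half_log z_mem z_le
  obtain ⟨k, hk, hk'⟩ := half_log w_mem w_le
  refine ⟨_, _, fun ε hε => lower mu (ae_mu.mono fun p hp => hp.imp And.left And.left) hg' hε,
    fun ε hε => lower nu ((ae_mu.filter_mono nu_ac.ae_le).mono fun p hp =>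
      (Or.symm hp).imp And.right And.right) hk' hε, ?_⟩
  rw [← integral_add (intg _ (cont_log _ one_pos)) (intg _ (cont_log _ one_pos))]
  have := int_le σ ((cont_log (1 + 2 * z) one_pos).add (cont_log (1 + 2 * w) one_pos))
    (g + k + (Real.log 2 : ℂ) • 1) (Eventually.of_forall fun p => by
      change Real.log (max ‖1 + 2 * z p‖ 1) + Real.log (max ‖1 + 2 * w p‖ 1)
        ≤ (g p + k p + (Real.log 2 : ℂ) * 1).re
      rw [add_re, add_re, hg', hk', mul_one, ofReal_re]
      have h1 := up (z_le p)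
      have h2 := up (w_le p)
      rcases mul_eq_zero.mp (zw p) with h | h
      · rw [h]; simp; linarith
      · rw [h]; simp; linarith)
  rw [map_add, map_add, map_smul, he _ hg, he _ hk, he _ A.one_mem, mu_one] at this
  rw [nu_equiv hk, nu_ww, zz_eq mu ae_mu, mu_one, mu_ww]
  have h2 : 0 < Real.log 2 := Real.log_pos (by norm_num)
  simp only [add_re, smul_eq_mul, re_ofReal_mul] at this
  simp at this ⊢
  nlinarith [Real.pi_pos]

end Pool.Agent.H3.Disc
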