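import Mathlib

set_option autoImplicit false

open Cardinal Set

namespace Pool.Agent.H3.Distr

universe u

theorem small_iUnion {ι α : Type u} (f : ι → Set α) {c : Cardinal.{u}} (hc : ℵ₀ ≤ c)
    (hι : #ι ≤ c) (hf : ∀ i, #(f i) ≤ c) : #(⋃ i, f i) ≤ c :=
  (mk_iUnion_le f).trans ((mul_le_mul' hι (ciSup_le' hf)).trans (mul_eq_self hc).le)

theorem small_union {α : Type u} {s t : Set α} {c : Cardinal.{u}} (hc : ℵ₀ ≤ c)
    (hs : #s ≤ c) (ht : #t ≤ c) : #(s ∪ t : Set α) ≤ c :=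
  (mk_union_le s t).trans ((add_le_add hs ht).trans (add_eq_self hc).le)

theorem small_insert {α : Type u} {s : Set α} (a : α) {c : Cardinal.{u}} (hc : ℵ₀ ≤ c)
    (hs : #s ≤ c) : #(insert a s : Set α) ≤ c := by
  rw [insert_eq]
  exact small_union hc (by simpa using one_le_aleph0.trans hc) hs

variable {Λ : Type u} [LinearOrder Λ]

/-- `c` accumulates at `δ` from below -/
def Acc' (c : Set Λ) (δ : Λ) : Prop := (∃ x ∈ c, x < δ) ∧ ∀ β < δ, ∃ x ∈ c, β < x ∧ x < δ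

/-- positive (stationary in cofinality `ω`) sets -/
def Pos (T : Set Λ) : Prop := ∀ F : Λ → Λ, ∃ δ ∈ T, ∃ β : ℕ → Λ,
  (∀ n, F (β n) < β (n + 1)) ∧ StrictMono β ∧ IsLUB (range β) δ

def Cond (κ : Cardinal.{u}) (T c : Set Λ) : Prop := #c ≤ κ ∧ ∀ δ ∈ T, ¬ Acc' c δ

/-- `d` end-extends `c` -/
def EE (c d : Set Λ) : Prop := c ⊆ d ∧ ∀ x ∈ d, ∀ y ∈ c, x ≤ y → x ∈ c

theorem EE.refl (c : Set Λ) : EE c c := ⟨Subset.rfl, fun _ h _ _ _ => h⟩

theorem EE.trans {c d e : Set Λ} (h : EE c d) (h' : EE d e) : EE c e :=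
  ⟨h.1.trans h'.1, fun x hx y hy hxy => h.2 x (h'.2 x hx y (h.1 hy) hxy) y hy hxy⟩

theorem EE.ins {c : Set Λ} {b : Λ} (h : ∀ x ∈ c, x < b) : EE c (insert b c) := by
  refine ⟨subset_insert _ _, ?_⟩
  rintro x (rfl | hx) y hy hxy
  · exact absurd (h y hy) (not_lt.2 hxy)
  · exact hx

theorem Cond.ins {κ : Cardinal.{u}} (hκ : ℵ₀ ≤ κ) {T c : Set Λ} {b : Λ} (hc : Cond κ T c)
    (h : ∀ x ∈ c, x < b) : Cond κ T (insert b c) := by
  refine ⟨small_insert b hκ hc.1, fun δ hδ hacc => ?_⟩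
  rcases lt_or_ge b δ with hb | hb
  · obtain ⟨x, hx, h1, -⟩ := hacc.2 b hb
    rcases hx with rfl | hx
    · exact lt_irrefl _ h1
    · exact lt_asymm h1 (h x hx)
  · refine hc.2 δ hδ ⟨?_, fun β hβ => ?_⟩
    · obtain ⟨x, hx, h1⟩ := hacc.1
      rcases hx with rfl | hx
      · exact absurd h1 (not_lt.2 hb)
      · exact ⟨x, hx, h1⟩
    · obtain ⟨x, hx, h1, h2⟩ := hacc.2 β hβ
      rcases hx with rfl | hx
      · exact absurd h2 (not_lt.2 hb)
      · exact ⟨x, hx, h1, h2⟩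

/-- the poset -/
def PT (κ : Cardinal.{u}) (T : Set Λ) : Type u := {c : Set Λ // Cond κ T c}

instance (κ : Cardinal.{u}) (T : Set Λ) : PartialOrder (PT κ T) where
  le d c := EE c.1 d.1
  le_refl c := EE.refl c.1
  le_trans _ _ _ h h' := EE.trans h' h
  le_antisymm _ _ h h' := Subtype.ext (Subset.antisymm h'.1 h.1)

instance (κ : Cardinal.{u}) (T : Set Λ) : OrderTop (PT κ T) where
  top := ⟨∅, by simp, fun δ _ h => by simpa using h.1⟩
  le_top c := ⟨empty_subset _, fun _ _ _ h _ => h.elim⟩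

theorem le_def {κ : Cardinal.{u}} {T : Set Λ} {c d : PT κ T} : d ≤ c ↔ EE c.1 d.1 := Iff.rfl

variable {μ : Cardinal.{u}}

theorem pos_Ioi [WellFoundedLT Λ] (hμ : ℵ₀ ≤ μ) (hB : ∀ s : Set Λ, #s ≤ μ → ∃ b, ∀ x ∈ s, x < b)
    (η : Λ) : Pos (Ioi η) := by
  intro F
  have h2 : ∀ a : Λ, ∃ b, a < b ∧ F a < b := fun a => by
    obtain ⟨b, hb⟩ := hB {a, F a} (le_trans (((finite_singleton _).insert a).countable.le_aleph0) hμ)
    exact ⟨b, hb a (by simp), hb _ (by simp)⟩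
  choose g hg1 hg2 using h2
  let β : ℕ → Λ := fun n => g^[n] η
  have hβ : ∀ n, β (n + 1) = g (β n) := fun n => Function.iterate_succ_apply' g n η
  have hmono : StrictMono β := strictMono_nat_of_lt_succ fun n => by rw [hβ]; exact hg1 _
  obtain ⟨b, hb⟩ := hB (range β) (le_trans (countable_range β).le_aleph0 hμ)
  have hne : (upperBounds (range β)).Nonempty := ⟨b, fun x hx => (hb x hx).le⟩
  have hlub : IsLUB (range β) (wellFounded_lt.min _ hne) :=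
    ⟨wellFounded_lt.min_mem _ hne, fun x hx => not_lt.1 (wellFounded_lt.not_lt_min _ hx)⟩
  refine ⟨_, ?_, β, fun n => by rw [hβ]; exact hg2 _, hmono, hlub⟩
  exact lt_of_lt_of_le (hmono (show 0 < 1 by norm_num)) (hlub.1 ⟨1, rfl⟩)

theorem ulam [WellFoundedLT Λ] (hμ : ℵ₀ ≤ μ) (hB : ∀ s : Set Λ, #s ≤ μ → ∃ b, ∀ x ∈ s, x < b)
    (hS : ∀ b : Λ, #(Iic b) ≤ μ) (hΛ : #Λ = Order.succ μ) {κ : Cardinal.{u}} (hκ : κ < μ) :
    ∃ (I : Type u) (T : I → Set Λ), #I ≤ μ ∧ κ < #I ∧ (∀ i, Pos (T i)) ∧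
      ∀ i j δ, δ ∈ T i → δ ∈ T j → i = j := by
  haveI : Nonempty μ.out := by
    rw [← mk_ne_zero_iff, mk_out]; exact (aleph0_pos.trans_le hμ).ne'
  have hf : ∀ δ : Λ, ∃ f : Λ → μ.out, InjOn f (Iic δ) := fun δ => by
    classical
    obtain ⟨g⟩ : Nonempty (Iic δ ↪ μ.out) := by rw [← Cardinal.le_def, mk_out]; exact hS δ
    refine ⟨fun x => if h : x ∈ Iic δ then g ⟨x, h⟩ else Classical.arbitrary _, fun x hx y hy h => ?_⟩
    simp only [hx, hy, dif_pos] at h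
    exact congrArg Subtype.val (g.injective h)
  choose f hf using hf
  let A : μ.out → Λ → Set Λ := fun ξ η => {δ | η < δ ∧ f δ η = ξ}
  have hA : ∀ η, ∃ ξ, Pos (A ξ η) := by
    intro η
    by_contra hc
    simp only [Pos, not_exists, not_forall] at hc
    choose F hF using hc
    have hG : ∀ b : Λ, ∃ g, ∀ ξ, F ξ b < g := fun b => by
      obtain ⟨g, hg⟩ := hB (range fun ξ => F ξ b) (mk_range_le.trans (mk_out μ).le)
      exact ⟨g, fun ξ => hg _ ⟨ξ, rfl⟩⟩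
    choose G hG using hG
    obtain ⟨δ, hδ, β, h1, h2, h3⟩ := pos_Ioi hμ hB η G
    exact hF (f δ η) δ ⟨⟨hδ, rfl⟩, β, fun n => (hG _ _).trans (h1 n), h2, h3⟩
  choose ξ hξ using hA
  obtain ⟨ξ0, h0⟩ := infinite_pigeonhole_card ξ (Order.succ μ) hΛ.ge (hμ.trans (Order.le_succ μ))
    (by rw [(isRegular_succ hμ).cof_ord, mk_out]; exact Order.lt_succ μ)
  obtain ⟨I, hI, hcard⟩ := le_mk_iff_exists_subset.1 ((Order.le_succ μ).trans h0)
  refine ⟨I, fun i => A ξ0 i, hcard.le, hcard ▸ hκ, fun i => ?_, fun i j δ hi hj => ?_⟩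
  · have : ξ i = ξ0 := hI i.2
    rw [← this]; exact hξ i
  · exact Subtype.ext (hf δ hi.1.le hj.1.le (hi.2.trans hj.2.symm))

theorem chain {κ : Cardinal.{u}} (hκ : ℵ₀ ≤ κ) {T : Set Λ} {K : Type u} [LinearOrder K]
    [WellFoundedLT K] (hK : #K ≤ κ) (e : K → Λ) (G : Λ → Λ) (p : PT κ T)
    (ext : K → PT κ T → PT κ T) (hext : ∀ a q, ext a q ≤ q)
    (hG : ∀ a (q : PT κ T) γ, q.1 ⊆ Iic γ → ∀ x ∈ (ext a q).1, x < G γ)
    (he : ∀ a b, a < b → G (e a) < e b) (hp : ∀ a, ∀ x ∈ p.1, x < e a)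
    (hE : ∀ a δ, IsLUB (e '' Iio a) δ → δ ∉ T) :
    ∃ s : K → PT κ T, (∀ a, s a ≤ p) ∧ (∀ a b, a < b → s b ≤ s a) ∧ ∀ a, ∃ q, s a = ext a q := by
  classical
  let F : K → Set Λ → PT κ T := fun a U =>
    if h : Cond κ T (insert (e a) U) then ext a ⟨_, h⟩ else ext a p
  let s : K → PT κ T := wellFounded_lt.fix fun a ih => F a (p.1 ∪ ⋃ b, ⋃ h : b < a, (ih b h).1)
  let U : K → Set Λ := fun a => p.1 ∪ ⋃ b, ⋃ _ : b < a, (s b).1
  have hs : ∀ a, s a = F a (U a) := fun a => WellFounded.fix_eq _ _ a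
  have memU : ∀ a x, x ∈ U a ↔ x ∈ p.1 ∨ ∃ b, b < a ∧ x ∈ (s b).1 := fun a x => by simp [U]
  have main : ∀ a, EE (insert (e a) (U a)) (s a).1 ∧ (∀ x ∈ (s a).1, x < G (e a)) ∧
      EE p.1 (s a).1 ∧ ∀ b, b < a → EE (s b).1 (s a).1 := by
    intro a
    induction a using WellFoundedLT.induction with
    | ind a ih =>
    have hB : ∀ x ∈ U a, x < e a := by
      intro x hx
      rcases (memU a x).1 hx with h | ⟨b, hb, h⟩
      · exact hp a x h
      · exact ((ih b hb).2.1 x h).trans (he b a hb)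
    have hsub : ∀ b, b < a → ∀ b', b' ≤ b → (s b').1 ⊆ (s b).1 := by
      intro b hb b' hb'
      rcases hb'.eq_or_lt with rfl | h
      · exact Subset.rfl
      · exact ((ih b hb).2.2.2 b' h).1
    have hC : ∀ b, b < a → EE (s b).1 (U a) := by
      intro b hb
      refine ⟨fun x hx => (memU a x).2 (Or.inr ⟨b, hb, hx⟩), fun x hx y hy hxy => ?_⟩
      rcases (memU a x).1 hx with h | ⟨b', hb', h⟩
      · exact (ih b hb).2.2.1.1 h
      · rcases le_or_gt b' b with h' | h'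
        · exact hsub b hb b' h' h
        · exact ((ih b' hb').2.2.2 b h').2 x h y hy hxy
    have hC' : EE p.1 (U a) := by
      refine ⟨subset_union_left, fun x hx y hy hxy => ?_⟩
      rcases (memU a x).1 hx with h | ⟨b', hb', h⟩
      · exact h
      · exact (ih b' hb').2.2.1.2 x h y hy hxy
    have hA : Cond κ T (U a) := by
      refine ⟨small_union hκ p.2.1 (small_iUnion _ hκ hK fun b => ?_), fun δ hδ hacc => ?_⟩
      · exact (mk_le_mk_of_subset (by simp)).trans (s b).2.1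
      have piece : ∀ c : PT κ T, EE c.1 (U a) → (∃ x ∈ c.1, x < δ) →
          ∃ β < δ, ∀ x ∈ c.1, x < δ → x ≤ β := by
        intro c _ hne
        by_contra hc
        push Not at hc
        exact c.2.2 δ hδ ⟨hne, fun β hβ => by
          obtain ⟨x, h1, h2, h3⟩ := hc β hβ
          exact ⟨x, h1, h3, h2⟩⟩
      have below : ∀ c : PT κ T, EE c.1 (U a) → ∀ y ∈ c.1, y < δ := by
        intro c hc y hy
        by_contra hyδ
        obtain ⟨x0, hx0, h0⟩ := hacc.1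
        obtain ⟨β, hβ, h1⟩ := piece c hc ⟨x0, hc.2 x0 hx0 y hy (h0.le.trans (not_lt.1 hyδ)), h0⟩
        obtain ⟨x, hx, h2, h3⟩ := hacc.2 β hβ
        exact absurd (h1 x (hc.2 x hx y hy (h3.le.trans (not_lt.1 hyδ))) h3) (not_le.2 h2)
      refine hE a δ ⟨?_, fun b hb => ?_⟩ hδ
      · rintro _ ⟨b, hb, rfl⟩
        exact (below (s b) (hC b hb) _ ((ih b hb).1.1 (mem_insert _ _))).le
      by_contra hbδ
      obtain ⟨x, hx, h1, h2⟩ := hacc.2 b (not_le.1 hbδ)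
      rcases (memU a x).1 hx with h | ⟨c, hc, h⟩
      · obtain ⟨β, hβ, h3⟩ := piece p hC' ⟨x, h, h2⟩
        obtain ⟨x', hx', h4, h5⟩ := hacc.2 β hβ
        rcases (memU a x').1 hx' with h' | ⟨c', hc', -⟩
        · exact absurd (h3 x' h' h5) (not_le.2 h4)
        · exact lt_irrefl _ ((h1.trans (hp c' x h)).trans_le (hb ⟨c', hc', rfl⟩))
      · obtain ⟨β, hβ, h3⟩ := piece (s c) (hC c hc) ⟨x, h, h2⟩
        obtain ⟨x', hx', h4, h5⟩ := hacc.2 β hβ
        rcases (memU a x').1 hx' with h' | ⟨c', hc', h'⟩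
        · exact absurd (h3 x' ((ih c hc).2.2.1.1 h') h5) (not_le.2 h4)
        · rcases le_or_gt c' c with h6 | h6
          · exact absurd (h3 x' (hsub c hc c' h6 h') h5) (not_le.2 h4)
          · exact lt_irrefl _ ((h1.trans (((ih c hc).2.1 x h).trans (he c c' h6))).trans_le
              (hb ⟨c', hc', rfl⟩))
    have hV := hA.ins hκ hB
    have hsa : s a = ext a ⟨_, hV⟩ := by rw [hs]; exact dif_pos hV
    have h1 : EE (insert (e a) (U a)) (s a).1 := by rw [hsa]; exact hext a ⟨_, hV⟩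
    refine ⟨h1, ?_, hC'.trans ((EE.ins hB).trans h1), fun b hb =>
      (hC b hb).trans ((EE.ins hB).trans h1)⟩
    rw [hsa]
    refine hG a _ _ ?_
    rintro x (rfl | hx)
    · exact le_rfl
    · exact (hB x hx).le
  refine ⟨s, fun a => (main a).2.2.1, fun a b h => (main b).2.2.2 a h, fun a => ?_⟩
  rw [hs]
  simp only [F]
  split_ifs
  · exact ⟨_, rfl⟩
  · exact ⟨_, rfl⟩

theorem distr {κ : Cardinal.{u}} (hκ : ℵ₀ ≤ κ) (hκμ : κ ≤ μ) (hpow : μ ^ κ ≤ μ)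
    (hB : ∀ s : Set Λ, #s ≤ μ → ∃ b, ∀ x ∈ s, x < b) (hS : ∀ b : Λ, #(Iic b) ≤ μ)
    {K : Type u} [LinearOrder K] [WellFoundedLT K] (hK : #K ≤ κ)
    {I : Type u} (T : I → Set Λ) (hI : #I ≤ μ) (hI' : κ < #I)
    (hdis : ∀ i j δ, δ ∈ T i → δ ∈ T j → i = j) :
    ∃ i, ∀ D : K → Set (PT κ (T i)), (∀ a q, ∃ r ∈ D a, r ≤ q) → ∀ p,
      ∃ s : K → PT κ (T i), (∀ a, s a ≤ p) ∧ (∀ a b, a < b → s b ≤ s a) ∧ ∀ a, s a ∈ D a := by
  have hμ : ℵ₀ ≤ μ := hκ.trans hκμ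
  by_contra hc
  simp only [not_exists, not_forall] at hc
  choose D hD p hp using hc
  choose ext hextD hext using hD
  have hG : ∀ γ : Λ, ∃ g, ∀ i a (q : PT κ (T i)), q.1 ⊆ Iic γ → ∀ x ∈ (ext i a q).1, x < g := by
    intro γ
    have hcard : ∀ i, #{q : PT κ (T i) // q.1 ⊆ Iic γ} ≤ μ := fun i => by
      refine le_trans ?_ ((mk_bounded_subset_le (Iic γ) κ).trans
        ((power_le_power_right (max_le (hS γ) hμ)).trans hpow))
      exact mk_le_of_injective (f := fun q => ⟨q.1.1, q.2, q.1.2.1⟩)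
        fun q q' h => Subtype.ext (Subtype.ext (Subtype.mk.inj h))
    obtain ⟨g, hg⟩ := hB (⋃ i, ⋃ a, ⋃ q : {q : PT κ (T i) // q.1 ⊆ Iic γ}, (ext i a q.1).1)
      (small_iUnion _ hμ hI fun i => small_iUnion _ hμ (hK.trans hκμ) fun a =>
        small_iUnion _ hμ (hcard i) fun q => (ext i a q.1).2.1.trans hκμ)
    exact ⟨g, fun i a q hq x hx => hg x (mem_iUnion.2 ⟨i, mem_iUnion.2 ⟨a,
        mem_iUnion.2 ⟨⟨q, hq⟩, hx⟩⟩⟩)⟩
  choose G hG using hG
  have hP : #(⋃ i, (p i).1) ≤ μ := small_iUnion _ hμ hI fun i => (p i).2.1.trans hκμ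
  have hbd : ∀ (a : K) (f : ∀ b, b < a → Λ), ∃ g, (∀ i, ∀ x ∈ (p i).1, x < g) ∧
      ∀ b h, G (f b h) < g := by
    intro a f
    obtain ⟨g, hg⟩ := hB ((⋃ i, (p i).1) ∪ range fun b : Iio a => G (f b.1 b.2))
      (small_union hμ hP (mk_range_le.trans ((mk_set_le _).trans (hK.trans hκμ))))
    exact ⟨g, fun i x hx => hg x (Or.inl (mem_iUnion.2 ⟨i, hx⟩)),
      fun b h => hg _ (Or.inr ⟨⟨b, h⟩, rfl⟩)⟩
  choose bd hbd1 hbd2 using hbd
  let e : K → Λ := wellFounded_lt.fix bd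
  have he : ∀ a, e a = bd a fun b _ => e b := fun a => WellFounded.fix_eq _ _ a
  obtain ⟨i, hi⟩ : ∃ i, ∀ a δ, IsLUB (e '' Iio a) δ → δ ∉ T i := by
    by_contra hn
    push Not at hn
    choose a δ h1 h2 using hn
    have : Function.Injective a := fun i j hij =>
      hdis i j (δ i) (h2 i) (by rw [(h1 i).unique (hij ▸ h1 j)]; exact h2 j)
    exact absurd ((mk_le_of_injective this).trans hK) (not_le.2 hI')
  obtain ⟨s, h1, h2, h3⟩ := chain hκ hK e G (p i) (ext i) (hext i) (fun a q γ => hG γ i a q)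
    (fun a b hab => by rw [he b]; exact hbd2 b (fun b _ => e b) a hab)
    (fun a => by rw [he a]; exact hbd1 a _ i) hi
  refine hp i s ⟨h1, h2, fun a => ?_⟩
  obtain ⟨q, hq⟩ := h3 a
  rw [hq]
  exact hextD i a q

theorem lam_props (hμ : ℵ₀ ≤ μ) :
    (∀ s : Set (Order.succ μ).ord.ToType, #s ≤ μ → ∃ b, ∀ x ∈ s, x < b) ∧
    (∀ b : (Order.succ μ).ord.ToType, #(Iic b) ≤ μ) ∧ #(Order.succ μ).ord.ToType = Order.succ μ := by
  refine ⟨fun s hs => ?_, fun b => ?_, mk_ord_toType _⟩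
  · rw [← not_isCofinal_iff]
    intro h
    have := Order.cof_le h
    rw [Ordinal.cof_toType, (isRegular_succ hμ).cof_ord] at this
    exact absurd (this.trans hs) (not_le.2 (Order.lt_succ μ))
  · rw [← Iio_insert]
    exact small_insert b hμ (Order.lt_succ_iff.1 (mk_Iio_toType_ord_lt b))

end Pool.Agent.H3.Distr
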