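import Mathlib

set_option autoImplicit false

namespace Pool.Agent.H3.Djr

open MeasureTheory Set Filter Topology

/-- Δ_k -/
noncomputable def Del (ω : ℝ → ℝ) (k : ℕ) : ℝ := k * ∫ t in Ioi (0 : ℝ), ω t * t ^ (k - 1)
/-- L(r) -/
noncomputable def LL (ω : ℝ → ℝ) (r : ℝ) : ℝ := ∫ t in Ioi r, ω t * t⁻¹
/-- I_k(r) -/
noncomputable def II (ω : ℝ → ℝ) (k : ℕ) (r : ℝ) : ℝ := ∫ t in (0 : ℝ)..r, ω t * t ^ (k - 1)
/-- J_k(r) -/
noncomputable def JJ (ω : ℝ → ℝ) (k : ℕ) (r : ℝ) : ℝ := ∫ t in Ioi r, ω t * (t ^ (k + 1))⁻¹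
/-- k-th term of the series in W -/
noncomputable def term (ω : ℝ → ℝ) (s : ℤ) (z a : ℂ) (k : ℕ) : ℂ :=
  ((a ^ k)⁻¹ * II ω k ‖a‖ - ((starRingEnd ℂ a) ^ s) ^ k * JJ ω k ‖a‖) * z ^ k / Del ω k
/-- W_ω(z;a) -/
noncomputable def WW (ω : ℝ → ℝ) (s : ℤ) (z a : ℂ) : ℂ :=
  LL ω ‖a‖ - ∑' k : ℕ, term ω s z a (k + 1)
/-- A_ω(z;a) -/
noncomputable def AA (ω : ℝ → ℝ) (s : ℤ) (z a : ℂ) : ℂ :=
  (1 - z / a) * Complex.exp (-WW ω s z a)

/-- the standing hypotheses on the weight -/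
structure Good (ω : ℝ → ℝ) : Prop where
  cont : ContinuousOn ω (Ici 0)
  pos : ∀ t, 0 ≤ t → 0 < ω t
  anti : AntitoneOn ω (Ici 0)
  mom : ∀ k : ℕ, IntegrableOn (fun t => ω t * t ^ k) (Ioi 0)
  diff : ∀ t, 0 < t → DifferentiableAt ℝ ω t
  reg : AntitoneOn (fun t => t * deriv ω t / ω t) (Ioi 0)

/-- tail moment -/
noncomputable def TT (ω : ℝ → ℝ) (k : ℕ) (r : ℝ) : ℝ := ∫ t in Ioi r, ω t * t ^ k

variable {ω : ℝ → ℝ}

lemma int_T (h : Good ω) (k : ℕ) {r : ℝ} (hr : 0 ≤ r) :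
    IntegrableOn (fun t => ω t * t ^ k) (Ioi r) := (h.mom k).mono_set (Ioi_subset_Ioi hr)

lemma int_inv (h : Good ω) (k : ℕ) {r : ℝ} (hr : 0 < r) :
    IntegrableOn (fun t => ω t * (t ^ k)⁻¹) (Ioi r) := by
  have h1 : IntegrableOn (fun t => ω t * t ^ 0 * (r ^ k)⁻¹) (Ioi r) :=
    (int_T h 0 hr.le).mul_const _
  refine Integrable.mono' h1 ?_ ?_
  · refine ContinuousOn.aestronglyMeasurable ?_ measurableSet_Ioi
    refine (h.cont.mono (fun t ht => le_of_lt (lt_trans hr ht))).mul ?_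
    exact (continuousOn_id.pow k).inv₀ (fun t ht => pow_ne_zero _ (ne_of_gt (lt_trans hr ht)))
  · refine (ae_restrict_iff' measurableSet_Ioi).mpr (Eventually.of_forall fun t ht => ?_)
    have ht0 : 0 < t := lt_trans hr ht
    have := h.pos t ht0.le
    rw [Real.norm_of_nonneg (by positivity), pow_zero, mul_one]
    gcongr
    exact le_of_lt ht

lemma int_L (h : Good ω) {r : ℝ} (hr : 0 < r) : IntegrableOn (fun t => ω t * t⁻¹) (Ioi r) := by
  simpa using int_inv h 1 hr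

lemma pos_int {f : ℝ → ℝ} {r : ℝ} (hf : IntegrableOn f (Ioi r)) (hp : ∀ t, r < t → 0 < f t) :
    0 < ∫ t in Ioi r, f t := by
  rw [setIntegral_pos_iff_support_of_nonneg_ae _ hf]
  · have : Function.support f ∩ Ioi r = Ioi r :=
      inter_eq_right.mpr (fun t ht => (hp t ht).ne')
    rw [this]; simp
  · exact (ae_restrict_iff' measurableSet_Ioi).mpr (Eventually.of_forall fun t ht => (hp t ht).le)

lemma L_pos (h : Good ω) {r : ℝ} (hr : 0 < r) : 0 < LL ω r :=
  pos_int (int_L h hr) (fun t ht => by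
    have ht0 : 0 < t := lt_trans hr ht
    have := h.pos t ht0.le
    positivity)

lemma T_pos (h : Good ω) (k : ℕ) {r : ℝ} (hr : 0 ≤ r) : 0 < TT ω k r :=
  pos_int (int_T h k hr) (fun t ht => by
    have ht0 : 0 < t := lt_of_le_of_lt hr ht
    have := h.pos t ht0.le
    positivity)

lemma L_anti (h : Good ω) {r r' : ℝ} (hr : 0 < r) (hrr : r ≤ r') : LL ω r' ≤ LL ω r := by
  refine setIntegral_mono_set (int_L h hr) ?_ (Ioi_subset_Ioi hrr).eventuallyLE
  refine (ae_restrict_iff' measurableSet_Ioi).mpr (Eventually.of_forall fun t ht => ?_)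
  have ht0 : 0 < t := lt_trans hr ht
  have := h.pos t ht0.le
  positivity

lemma q_anti (h : Good ω) {l : ℝ} (hl : 1 ≤ l) : AntitoneOn (fun t => ω (l * t) / ω t) (Ioi 0) := by
  have hd : ∀ t, 0 < t → HasDerivAt (fun t => ω (l * t) / ω t)
      ((deriv ω (l * t) * l * ω t - ω (l * t) * deriv ω t) / ω t ^ 2) t := by
    intro t ht
    have h1 : HasDerivAt (fun t => ω (l * t)) (deriv ω (l * t) * l) t := by
      have := (h.diff (l * t) (by positivity)).hasDerivAt.comp t ((hasDerivAt_id t).const_mul l)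
      simpa [Function.comp_def] using this
    exact h1.div (h.diff t ht).hasDerivAt (h.pos t ht.le).ne'
  refine antitoneOn_of_deriv_nonpos (convex_Ioi 0)
    (fun t ht => (hd t ht).continuousAt.continuousWithinAt) ?_ ?_
  · rw [interior_Ioi]
    exact fun t ht => (hd t ht).differentiableAt.differentiableWithinAt
  · rw [interior_Ioi]
    intro t ht
    have ht0 : (0 : ℝ) < t := ht
    rw [(hd t ht).deriv]
    have h1 := h.pos t ht0.le
    have h2 := h.pos (l * t) (by positivity)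
    have h3 := h.reg ht (show l * t ∈ Ioi (0 : ℝ) from by simp only [mem_Ioi]; positivity)
      (by nlinarith)
    simp only at h3
    rw [div_le_div_iff₀ h2 h1] at h3
    apply div_nonpos_of_nonpos_of_nonneg _ (by positivity)
    have h4 : t * (deriv ω (l * t) * l * ω t - ω (l * t) * deriv ω t) ≤ 0 := by nlinarith
    by_contra h5
    have := mul_pos ht0 (not_le.mp h5)
    linarith

lemma key (h : Good ω) (k : ℕ) {r0 r : ℝ} (h0 : 0 < r0) (hr : r0 ≤ r) :
    TT ω k r ≤ (r / r0) ^ (k + 1) * (TT ω k r0 / LL ω r0) * LL ω r := by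
  set l := r / r0 with hl
  have hl1 : 1 ≤ l := (one_le_div h0).mpr hr
  have hl0 : 0 < l := by linarith
  have hlr : l * r0 = r := by rw [hl]; field_simp
  have hr0 : 0 < r := by linarith
  set c := TT ω k r0 / LL ω r0 with hc
  have hL0 := L_pos h h0
  have hc0 : 0 < c := div_pos (T_pos h k h0.le) hL0
  set t0 := c ^ (((k + 1 : ℕ) : ℝ)⁻¹) with ht0
  have ht00 : 0 < t0 := Real.rpow_pos_of_pos hc0 _
  have ht01 : t0 ^ (k + 1) = c := Real.rpow_inv_natCast_pow hc0.le (Nat.succ_ne_zero k)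
  have i1 : IntegrableOn (fun t => ω (l * t) * (l * t) ^ k) (Ioi r0) :=
    (integrableOn_Ioi_comp_mul_left_iff (fun t => ω t * t ^ k) r0 hl0).mpr
      (by rw [hlr]; exact int_T h k hr0.le)
  have i2 : IntegrableOn (fun t => ω (l * t) * (l * t)⁻¹) (Ioi r0) :=
    (integrableOn_Ioi_comp_mul_left_iff (fun t => ω t * t⁻¹) r0 hl0).mpr
      (by rw [hlr]; exact int_L h hr0)
  have e1 : ∫ t in Ioi r0, ω (l * t) * (l * t) ^ k = l⁻¹ * TT ω k r := by
    rw [integral_comp_mul_left_Ioi (fun t => ω t * t ^ k) r0 hl0, hlr]; rfl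
  have e2 : ∫ t in Ioi r0, ω (l * t) * (l * t)⁻¹ = l⁻¹ * LL ω r := by
    rw [integral_comp_mul_left_Ioi (fun t => ω t * t⁻¹) r0 hl0, hlr]; rfl
  set q0 := ω (l * t0) / ω t0 with hq0
  have hm : ∫ t in Ioi r0, (ω (l * t) * (l * t) ^ k - c * l ^ (k + 1) * (ω (l * t) * (l * t)⁻¹)) ≤
      ∫ t in Ioi r0, q0 * l ^ k * (ω t * t ^ k - c * (ω t * t⁻¹)) := by
    refine setIntegral_mono_on (i1.sub (i2.const_mul _))
      (((int_T h k h0.le).sub ((int_L h h0).const_mul _)).const_mul _) measurableSet_Ioi ?_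
    intro t ht
    have ht1 : 0 < t := lt_trans h0 ht
    have hω := h.pos t ht1.le
    have h1 : (t ^ (k + 1) - c) * (ω (l * t) / ω t - q0) ≤ 0 := by
      rcases le_total t t0 with h2 | h2
      · have h3 := q_anti h hl1 ht1 ht00 h2
        have h4 : t ^ (k + 1) ≤ c := ht01 ▸ pow_le_pow_left₀ ht1.le h2 _
        exact mul_nonpos_of_nonpos_of_nonneg (by linarith) (by simp only at h3; linarith)
      · have h3 := q_anti h hl1 ht00 ht1 h2
        have h4 : c ≤ t ^ (k + 1) := ht01 ▸ pow_le_pow_left₀ ht00.le h2 _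
        exact mul_nonpos_of_nonneg_of_nonpos (by linarith) (by simp only at h3; linarith)
    have h2 : ω (l * t) * (l * t) ^ k - c * l ^ (k + 1) * (ω (l * t) * (l * t)⁻¹) -
        q0 * l ^ k * (ω t * t ^ k - c * (ω t * t⁻¹)) =
        (l ^ k * ω t / t) * ((t ^ (k + 1) - c) * (ω (l * t) / ω t - q0)) := by
      field_simp
      ring
    have h3 : 0 ≤ l ^ k * ω t / t := by positivity
    have := mul_nonpos_of_nonneg_of_nonpos h3 h1
    linarith
  rw [integral_sub i1 (i2.const_mul _), integral_const_mul, e1, e2, integral_const_mul,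
    integral_sub (int_T h k h0.le) ((int_L h h0).const_mul _), integral_const_mul] at hm
  have h5 : (∫ t in Ioi r0, ω t * t ^ k) - c * ∫ t in Ioi r0, ω t * t⁻¹ = 0 := by
    change TT ω k r0 - c * LL ω r0 = 0
    rw [hc]; field_simp; ring
  rw [h5, mul_zero] at hm
  have h6 : l⁻¹ * (TT ω k r - l ^ (k + 1) * c * LL ω r) ≤ 0 := by linarith
  by_contra h7
  have := mul_pos (inv_pos.mpr hl0) (sub_pos.mpr (not_le.mp h7))
  linarith

lemma split (h : Good ω) (k : ℕ) {r : ℝ} (hr : 0 ≤ r) :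
    Del ω (k + 1) = (k + 1) * (II ω (k + 1) r + TT ω k r) := by
  unfold Del II TT
  simp only [Nat.add_sub_cancel]
  rw [intervalIntegral.integral_interval_add_Ioi (h.mom k) (int_T h k hr)]
  push_cast; ring

lemma I_ge (h : Good ω) (k : ℕ) {r : ℝ} (hr : 0 ≤ r) :
    ω r * r ^ (k + 1) ≤ (k + 1) * II ω (k + 1) r := by
  have h1 : ∫ t in (0 : ℝ)..r, ω r * t ^ k ≤ II ω (k + 1) r := by
    unfold II
    simp only [Nat.add_sub_cancel]
    refine intervalIntegral.integral_mono_on hr (Continuous.intervalIntegrable (by fun_prop) _ _)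
      ?_ (fun t ht => ?_)
    · refine ContinuousOn.intervalIntegrable ?_
      rw [uIcc_of_le hr]
      exact (h.cont.mono Icc_subset_Ici_self).mul (by fun_prop)
    · have := h.anti ht.1 hr ht.2
      have := ht.1
      gcongr
  rw [intervalIntegral.integral_const_mul, integral_pow] at h1
  simp only [ne_eq, Nat.add_eq_zero_iff, one_ne_zero, and_false, not_false_eq_true, zero_pow,
    sub_zero] at h1
  rw [← mul_div_assoc, div_le_iff₀ (by positivity)] at h1
  linarith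

lemma I_le (h : Good ω) (k : ℕ) {r : ℝ} (hr : 0 ≤ r) :
    |II ω (k + 1) r| ≤ ω 0 * r ^ (k + 1) := by
  unfold II
  simp only [Nat.add_sub_cancel]
  have := intervalIntegral.norm_integral_le_of_norm_le_const (a := 0) (b := r)
    (f := fun t => ω t * t ^ k) (C := ω 0 * r ^ k) (fun t ht => by
      rw [uIoc_of_le hr] at ht
      have h1 := h.anti (le_refl (0 : ℝ)) ht.1.le ht.1.le
      have h2 := h.pos t ht.1.le
      have h3 := ht.1
      rw [Real.norm_of_nonneg (by positivity)]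
      have h4 := ht.2
      have h5 := h.pos 0 le_rfl
      gcongr)
  rw [Real.norm_eq_abs, sub_zero, abs_of_nonneg hr] at this
  rw [pow_succ, ← mul_assoc]; exact this

lemma Del_ge (h : Good ω) (k : ℕ) {r : ℝ} (hr : 0 ≤ r) : ω r * r ^ (k + 1) ≤ Del ω (k + 1) := by
  rw [split h k hr]
  have h1 := I_ge h k hr
  have h2 := T_pos h k hr
  have : (0 : ℝ) ≤ (k + 1) * TT ω k r := by positivity
  linarith

lemma Del_pos (h : Good ω) (k : ℕ) : 0 < Del ω (k + 1) := by
  have h1 := Del_ge h k (zero_le_one)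
  have := h.pos 1 zero_le_one
  simp at h1
  linarith

lemma T_le_Del (h : Good ω) (k : ℕ) {r : ℝ} (hr : 0 ≤ r) : TT ω k r ≤ Del ω (k + 1) := by
  rw [split h k hr]
  have h1 := I_ge h k hr
  have h2 := T_pos h k hr
  have h3 := h.pos r hr
  have h4 : 0 ≤ ω r * r ^ (k + 1) := by positivity
  have : (0 : ℝ) ≤ k * TT ω k r := by positivity
  nlinarith

lemma J_le (h : Good ω) (k : ℕ) {r : ℝ} (hr : 0 < r) : |JJ ω k r| ≤ (r ^ k)⁻¹ * LL ω r := by
  unfold JJ LL
  rw [abs_of_nonneg (setIntegral_nonneg measurableSet_Ioi (fun t ht => by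
    have ht0 : 0 < t := lt_trans hr ht
    have := h.pos t ht0.le
    positivity)), ← integral_const_mul]
  refine setIntegral_mono_on (int_inv h _ hr) ((int_L h hr).const_mul _) measurableSet_Ioi ?_
  intro t ht
  have ht0 : 0 < t := lt_trans hr ht
  have := h.pos t ht0.le
  have h1 : (t ^ k)⁻¹ ≤ (r ^ k)⁻¹ := by gcongr; exact le_of_lt ht
  calc ω t * (t ^ (k + 1))⁻¹ = (t ^ k)⁻¹ * (ω t * t⁻¹) := by rw [pow_succ]; field_simp
    _ ≤ _ := by gcongr

lemma pow_div_Del (h : Good ω) (k : ℕ) {R : ℝ} (hR : 0 < R) :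
    R ^ (k + 1) / Del ω (k + 1) ≤ (ω (2 * R))⁻¹ * (1 / 2) ^ k := by
  have h1 := Del_ge h k (r := 2 * R) (by positivity)
  have h2 := h.pos (2 * R) (by positivity)
  rw [div_le_iff₀ (Del_pos h k)]
  calc R ^ (k + 1) ≤ 2 * R ^ (k + 1) := by have : 0 < R ^ (k + 1) := by positivity
                                           linarith
    _ = (ω (2 * R))⁻¹ * (1 / 2) ^ k * (ω (2 * R) * (2 * R) ^ (k + 1)) := by
        rw [mul_pow, one_div, inv_pow, pow_succ 2]; field_simp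
    _ ≤ _ := by gcongr

lemma term_le (h : Good ω) (s : ℤ) {a : ℂ} (ha : a ≠ 0) {R : ℝ} (hR : 0 < R) :
    ∃ C : ℝ, ∀ z : ℂ, ‖z‖ ≤ R → ∀ k, ‖term ω s z a (k + 1)‖ ≤ C * (1 / 2) ^ k := by
  have hr : 0 < ‖a‖ := norm_pos_iff.mpr ha
  set b := (starRingEnd ℂ a) ^ s with hb
  set m := max 1 (‖b‖ / ‖a‖) with hm
  have hm1 : 1 ≤ m := le_max_left _ _
  have hm2 : ‖b‖ / ‖a‖ ≤ m := le_max_right _ _
  refine ⟨(ω 0 + LL ω ‖a‖) * (ω (2 * (m * R)))⁻¹, fun z hz k => ?_⟩
  have hD := Del_pos h k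
  have h0 := h.pos 0 le_rfl
  have hL := L_pos h hr
  have h1 : ‖(a ^ (k + 1))⁻¹ * II ω (k + 1) ‖a‖‖ ≤ ω 0 * m ^ (k + 1) := by
    rw [norm_mul, norm_inv, norm_pow, Complex.norm_real, Real.norm_eq_abs]
    calc _ ≤ (‖a‖ ^ (k + 1))⁻¹ * (ω 0 * ‖a‖ ^ (k + 1)) := by gcongr; exact I_le h k hr.le
      _ = ω 0 * 1 := by field_simp
      _ ≤ _ := by gcongr; exact one_le_pow₀ hm1
  have h2 : ‖b ^ (k + 1) * JJ ω (k + 1) ‖a‖‖ ≤ LL ω ‖a‖ * m ^ (k + 1) := by
    rw [norm_mul, norm_pow, Complex.norm_real, Real.norm_eq_abs]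
    calc _ ≤ ‖b‖ ^ (k + 1) * ((‖a‖ ^ (k + 1))⁻¹ * LL ω ‖a‖) := by gcongr; exact J_le h _ hr
      _ = LL ω ‖a‖ * (‖b‖ / ‖a‖) ^ (k + 1) := by rw [div_pow]; field_simp
      _ ≤ _ := by gcongr
  have h3 := pow_div_Del h k (R := m * R) (by positivity)
  unfold term
  rw [norm_div, norm_mul, norm_pow, Complex.norm_real, Real.norm_of_nonneg hD.le]
  have h4 := (norm_sub_le _ _).trans (add_le_add h1 h2)
  calc _ ≤ (ω 0 * m ^ (k + 1) + LL ω ‖a‖ * m ^ (k + 1)) * R ^ (k + 1) / Del ω (k + 1) := by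
        gcongr
    _ = (ω 0 + LL ω ‖a‖) * ((m * R) ^ (k + 1) / Del ω (k + 1)) := by rw [mul_pow]; ring
    _ ≤ _ := by rw [mul_assoc]; gcongr

lemma term_sum (h : Good ω) (s : ℤ) {a : ℂ} (ha : a ≠ 0) (z : ℂ) :
    Summable (fun k => term ω s z a (k + 1)) := by
  obtain ⟨C, hC⟩ := term_le h s ha (R := ‖z‖ + 1) (by positivity)
  exact Summable.of_norm_bounded (summable_geometric_two.mul_left C) (hC z (by linarith))

lemma A_cont (h : Good ω) (s : ℤ) {a : ℂ} (ha : a ≠ 0) {R : ℝ} (hR : 0 < R) :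
    ContinuousOn (fun z => AA ω s z a) {z | ‖z‖ ≤ R} := by
  obtain ⟨C, hC⟩ := term_le h s ha hR
  have h1 : ContinuousOn (fun z => ∑' k : ℕ, term ω s z a (k + 1)) {z | ‖z‖ ≤ R} :=
    continuousOn_tsum (fun k => by unfold term; fun_prop) (summable_geometric_two.mul_left C)
      (fun k z hz => hC z hz k)
  unfold AA WW
  exact ContinuousOn.mul (by fun_prop) ((continuousOn_const.sub h1).neg.cexp)

lemma A_far (h : Good ω) {s : ℤ} (hs : s = 1 ∨ s = -1) {R : ℝ} (hR : 1 ≤ R) :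
    ∃ C : ℝ, 0 ≤ C ∧ ∀ a z : ℂ, 2 * R ≤ ‖a‖ → ‖z‖ ≤ R →
      ∃ E : ℂ, AA ω s z a = Complex.exp E ∧ ‖E‖ ≤ C * LL ω ‖a‖ := by
  have hL0 := L_pos h (r := 2 * R) (by linarith)
  have hω := h.pos (2 * R) (by linarith)
  refine ⟨1 + 2 * ((LL ω (2 * R))⁻¹ + (ω (2 * R))⁻¹), by positivity, fun a z ha hz => ?_⟩
  have hr : 0 < ‖a‖ := by linarith
  have ha0 : a ≠ 0 := norm_pos_iff.mp hr
  have hL := L_pos h hr
  have hx : ‖z / a‖ < 1 := by
    rw [norm_div, div_lt_one hr]; linarith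
  have hx1 : 1 - z / a ≠ 0 := by
    intro h0
    have : z / a = 1 := by linear_combination -h0
    rw [this] at hx; simp at hx
  have hb : ‖(starRingEnd ℂ a) ^ s‖ ≤ ‖a‖ := by
    rcases hs with rfl | rfl
    · simp
    · simp only [zpow_neg, zpow_one, norm_inv, RCLike.norm_conj]
      exact (inv_le_one_of_one_le₀ (by linarith)).trans (by linarith)
  have hlog := Complex.hasSum_taylorSeries_neg_log' hx
  have hsum := (term_sum h s ha0 z).hasSum.sub hlog
  refine ⟨(∑' k, term ω s z a (k + 1) - -Complex.log (1 - z / a)) - LL ω ‖a‖, ?_, ?_⟩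
  · unfold AA WW
    rw [← Complex.exp_log hx1, ← Complex.exp_add, Complex.exp_log hx1]
    congr 1; ring
  · have hbd : ∀ k : ℕ, ‖term ω s z a (k + 1) - (z / a) ^ (k + 1) / (k + 1)‖ ≤
        ((LL ω (2 * R))⁻¹ + (ω (2 * R))⁻¹) * LL ω ‖a‖ * (1 / 2) ^ k := by
      intro k
      have hD := Del_pos h k
      have hD' : (Del ω (k + 1) : ℂ) ≠ 0 := by exact_mod_cast hD.ne'
      have hsp : (Del ω (k + 1) : ℂ) = (k + 1) * (II ω (k + 1) ‖a‖ + TT ω k ‖a‖) := by
        exact_mod_cast split h k hr.le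
      have hk : (k + 1 : ℂ) ≠ 0 := by exact_mod_cast Nat.succ_ne_zero k
      have e1 : term ω s z a (k + 1) - (z / a) ^ (k + 1) / (k + 1) =
          -((z / a) ^ (k + 1) * TT ω k ‖a‖ / Del ω (k + 1)) -
          ((starRingEnd ℂ a) ^ s) ^ (k + 1) * JJ ω (k + 1) ‖a‖ * z ^ (k + 1) / Del ω (k + 1) := by
        have e2 : (z / a) ^ (k + 1) / (k + 1) =
            (z / a) ^ (k + 1) * (II ω (k + 1) ‖a‖ + TT ω k ‖a‖) / Del ω (k + 1) := by
          rw [eq_div_iff hD', hsp]; field_simp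
        unfold term
        rw [e2, div_pow]
        field_simp
        ring
      have h1 : ‖(z / a) ^ (k + 1) * TT ω k ‖a‖ / Del ω (k + 1)‖ ≤
          (LL ω (2 * R))⁻¹ * LL ω ‖a‖ * (1 / 2) ^ k := by
        have hT := T_pos h k hr.le
        rw [norm_div, norm_mul, norm_pow, norm_div, Complex.norm_real, Complex.norm_real,
          Real.norm_of_nonneg hD.le, Real.norm_of_nonneg hT.le, div_le_iff₀ hD]
        have h2 := key h k (r0 := 2 * R) (by linarith) ha
        have h3 := T_le_Del h k (r := 2 * R) (by linarith)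
        have h4 : ((1 : ℝ) / 2) ^ (k + 1) ≤ (1 / 2) ^ k :=
          pow_le_pow_of_le_one (by norm_num) (by norm_num) (Nat.le_succ k)
        calc _ ≤ (R / ‖a‖) ^ (k + 1) * ((‖a‖ / (2 * R)) ^ (k + 1) *
                (Del ω (k + 1) / LL ω (2 * R)) * LL ω ‖a‖) := by
              gcongr
              refine h2.trans ?_
              gcongr
          _ = (LL ω (2 * R))⁻¹ * LL ω ‖a‖ * (R / ‖a‖ * (‖a‖ / (2 * R))) ^ (k + 1) *
                Del ω (k + 1) := by rw [mul_pow]; field_simp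
          _ = (LL ω (2 * R))⁻¹ * LL ω ‖a‖ * (1 / 2) ^ (k + 1) * Del ω (k + 1) := by
              congr 3; field_simp
          _ ≤ _ := by gcongr
      have h2 : ‖((starRingEnd ℂ a) ^ s) ^ (k + 1) * JJ ω (k + 1) ‖a‖ * z ^ (k + 1) /
          Del ω (k + 1)‖ ≤ (ω (2 * R))⁻¹ * LL ω ‖a‖ * (1 / 2) ^ k := by
        rw [norm_div, norm_mul, norm_mul, norm_pow, norm_pow, Complex.norm_real, Complex.norm_real,
          Real.norm_of_nonneg hD.le, Real.norm_eq_abs]
        have h3 := pow_div_Del h k (R := R) (by linarith)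
        calc _ ≤ ‖a‖ ^ (k + 1) * ((‖a‖ ^ (k + 1))⁻¹ * LL ω ‖a‖) * R ^ (k + 1) / Del ω (k + 1) := by
              gcongr; exact J_le h _ hr
          _ = LL ω ‖a‖ * (R ^ (k + 1) / Del ω (k + 1)) := by field_simp
          _ ≤ LL ω ‖a‖ * ((ω (2 * R))⁻¹ * (1 / 2) ^ k) := by gcongr
          _ = _ := by ring
      rw [e1]
      refine (norm_sub_le _ _).trans ?_
      rw [norm_neg]
      linarith
    have h3 := hsum.norm_le_of_bounded
      (hasSum_geometric_two.mul_left (((LL ω (2 * R))⁻¹ + (ω (2 * R))⁻¹) * LL ω ‖a‖)) hbd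
    refine (norm_sub_le _ _).trans ?_
    rw [Complex.norm_real, Real.norm_of_nonneg hL.le]
    linarith

theorem main (h : Good ω) {s : ℤ} (hs : s = 1 ∨ s = -1) (a : ℕ → ℂ) (ha : ∀ k, a k ≠ 0)
    (hsum : Summable (fun k => LL ω ‖a k‖)) (K : Set ℂ) (hK : IsCompact K) :
    ∃ P : ℂ → ℂ, TendstoUniformlyOn (fun n z => ∏ k ∈ Finset.range n, AA ω s z (a k)) P atTop K ∧
      ∀ z ∈ K, (∀ k, z ≠ a k) → P z ≠ 0 := by
  obtain ⟨R0, hR0⟩ := hK.isBounded.exists_norm_le
  set R := max R0 1 with hR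
  have hR1 : 1 ≤ R := le_max_right _ _
  have hKR : ∀ z ∈ K, ‖z‖ ≤ R := fun z hz => (hR0 z hz).trans (le_max_left _ _)
  obtain ⟨C, hC0, hC⟩ := A_far h hs hR1
  have hL0 := L_pos h (r := 2 * R) (by linarith)
  have ht := hsum.tendsto_atTop_zero
  have hev : ∀ᶠ n in atTop, ∀ z ∈ K, ‖AA ω s z (a n) - 1‖ ≤ 2 * C * LL ω ‖a n‖ := by
    filter_upwards [ht.eventually (gt_mem_nhds hL0),
      ht.eventually (gt_mem_nhds (show (0 : ℝ) < 1 / (C + 1) by positivity))] with n h1 h2 z hz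
    have hpos : 0 < ‖a n‖ := norm_pos_iff.mpr (ha n)
    have h3 : 2 * R ≤ ‖a n‖ := by
      by_contra h4
      have := L_anti h hpos (not_le.mp h4).le
      linarith
    obtain ⟨E, hE, hE2⟩ := hC (a n) z h3 (hKR z hz)
    have h5 := L_pos h hpos
    rw [lt_div_iff₀ (by positivity)] at h2
    rw [hE]
    refine (Complex.norm_exp_sub_one_le (by nlinarith)).trans (by linarith)
  have hcts : ∀ n, ContinuousOn (fun z => AA ω s z (a n) - 1) K := fun n =>
    ((A_cont h s (ha n) (by linarith)).mono hKR).sub continuousOn_const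
  have hP := (hsum.mul_left (2 * C)).hasProdUniformlyOn_nat_one_add hK hev hcts
  refine ⟨_, by simpa using hP.tendstoUniformlyOn_finsetRange, fun z hz hne => ?_⟩
  have h1 := tprod_one_add_ne_zero_of_summable (f := fun n => AA ω s z (a n) - 1) (fun n => ?_) ?_
  · simpa using h1
  · simp only [add_sub_cancel]
    unfold AA
    refine mul_ne_zero ?_ (Complex.exp_ne_zero _)
    intro h0
    apply hne n
    have := ha n
    field_simp at h0
    linear_combination -h0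
  · refine Summable.of_norm_bounded_eventually_nat (hsum.mul_left (2 * C)) ?_
    filter_upwards [hev] with n hn
    rw [norm_norm]; exact hn z hz

end Pool.Agent.H3.Djr
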