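import Mathlib

set_option autoImplicit false
open Matrix

namespace Pool.Agent.H3.Dpp

lemma eig_le_one {n : ℕ} {K : Matrix (Fin n) (Fin n) ℝ} (h : K.IsHermitian)
    (h1 : (1 - K).PosSemidef) (i : Fin n) : h.eigenvalues i ≤ 1 := by
  have := h1.dotProduct_mulVec_nonneg (⇑(h.eigenvectorBasis i))
  rw [sub_mulVec, one_mulVec, h.mulVec_eigenvectorBasis, dotProduct_sub, dotProduct_smul] at this
  have hn : star (⇑(h.eigenvectorBasis i)) ⬝ᵥ (⇑(h.eigenvectorBasis i)) = 1 := by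
    have h2 := h.eigenvectorBasis.orthonormal.1 i
    have h3 := EuclideanSpace.inner_eq_star_dotProduct (h.eigenvectorBasis i) (h.eigenvectorBasis i)
    rw [real_inner_self_eq_norm_sq, h2] at h3
    rw [dotProduct_comm, ← h3]; norm_num
  rw [hn] at this
  simpa using this

lemma minor2_nonneg {n : ℕ} {K : Matrix (Fin n) (Fin n) ℝ} (h : K.PosSemidef) (i j : Fin n) :
    0 ≤ K i i * K j j - K i j * K j i := by
  have := (h.submatrix ![i, j]).det_nonneg
  rw [det_fin_two] at this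
  simpa using this

lemma amgm {x y z : ℝ} (hx : 0 ≤ x) (hy : 0 ≤ y) (hz : 0 ≤ z) :
    27 * (x * y * z) ≤ (x + y + z) ^ 3 := by
  nlinarith [mul_nonneg hx (sq_nonneg (y - z)), mul_nonneg hy (sq_nonneg (x - z)),
    mul_nonneg hz (sq_nonneg (x - y)), mul_nonneg (add_nonneg (add_nonneg hx hy) hz)
      (add_nonneg (add_nonneg (sq_nonneg (x - y)) (sq_nonneg (y - z))) (sq_nonneg (x - z)))]

lemma boundA {K : Matrix (Fin 3) (Fin 3) ℝ} (h0 : K.PosSemidef) (h1 : (1 - K).PosSemidef)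
    (hd : K.det = 0) :
    (1 - K).det ^ 3 * ((K 0 0 * K 1 1 - K 0 1 * K 1 0) * (K 0 0 * K 2 2 - K 0 2 * K 2 0) *
      (K 1 1 * K 2 2 - K 1 2 * K 2 1)) ≤ 1 / 110592 := by
  have hH := h0.isHermitian
  set a := hH.eigenvalues 0
  set b := hH.eigenvalues 1
  set c := hH.eigenvalues 2
  have ha0 : 0 ≤ a := h0.eigenvalues_nonneg 0
  have hb0 : 0 ≤ b := h0.eigenvalues_nonneg 1
  have hc0 : 0 ≤ c := h0.eigenvalues_nonneg 2
  have ha1 : a ≤ 1 := eig_le_one hH h1 0
  have hb1 : b ≤ 1 := eig_le_one hH h1 1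
  have hc1 : c ≤ 1 := eig_le_one hH h1 2
  have e1 : K.det = a * b * c := by
    rw [hH.det_eq_prod_eigenvalues, Fin.prod_univ_three]; simp [a, b, c]
  have e2 : K.trace = a + b + c := by
    rw [hH.trace_eq_sum_eigenvalues, Fin.sum_univ_three]; simp [a, b, c]
  have e3 : (1 - K).det = (1 - a) * (1 - b) * (1 - c) := by
    have h2 := Matrix.eval_charpoly K 1
    rw [hH.charpoly_eq, Fin.prod_univ_three] at h2
    simp only [map_one] at h2
    rw [← h2]; simp [a, b, c]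
  set x := K 0 0 * K 1 1 - K 0 1 * K 1 0 with hx
  set y := K 0 0 * K 2 2 - K 0 2 * K 2 0 with hy
  set z := K 1 1 * K 2 2 - K 1 2 * K 2 1 with hz
  have e4 : (1 - K).det = 1 - K.trace + (x + y + z) - K.det := by
    rw [det_fin_three, det_fin_three, trace_fin_three, hx, hy, hz]
    simp [Matrix.one_apply]; ring
  have e5 : x + y + z = a * b + a * c + b * c := by
    rw [e1, e2, e3] at e4; linear_combination (-1) * e4
  have hP : 0 ≤ (1 - K).det := h1.det_nonneg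
  have hb : (1 - K).det * (x + y + z) ≤ 1 / 16 := by
    have q : ∀ u v : ℝ, 0 ≤ u → u ≤ 1 → 0 ≤ v → v ≤ 1 → (u * (1 - u)) * (v * (1 - v)) ≤ 1 / 16 := by
      intro u v h1 h2 h3 h4
      have a1 : u * (1 - u) ≤ 1 / 4 := by nlinarith [sq_nonneg (u - 1/2)]
      have a2 : v * (1 - v) ≤ 1 / 4 := by nlinarith [sq_nonneg (v - 1/2)]
      have a3 : 0 ≤ v * (1 - v) := mul_nonneg h3 (by linarith)
      calc _ ≤ 1 / 4 * (1 / 4) := mul_le_mul a1 a2 a3 (by norm_num)
        _ = _ := by norm_num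
    rw [e3, e5]
    rw [e1] at hd
    rcases mul_eq_zero.1 hd with h | h
    · rcases mul_eq_zero.1 h with h | h
      · rw [h]; have := q b c hb0 hb1 hc0 hc1; linarith
      · rw [h]; have := q a c ha0 ha1 hc0 hc1; linarith
    · rw [h]; have := q a b ha0 ha1 hb0 hb1; linarith
  have hx0 : 0 ≤ x := minor2_nonneg h0 0 1
  have hy0 : 0 ≤ y := minor2_nonneg h0 0 2
  have hz0 : 0 ≤ z := minor2_nonneg h0 1 2
  have h3 := amgm hx0 hy0 hz0
  have h4 : ((1 - K).det * (x + y + z)) ^ 3 ≤ (1 / 16) ^ 3 :=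
    pow_le_pow_left₀ (by positivity) hb 3
  have h5 := mul_le_mul_of_nonneg_left h3 (pow_nonneg hP 3)
  rw [mul_pow] at h4
  linarith

lemma det4 (M : Matrix (Fin 4) (Fin 4) ℝ) : M.det =
    M 0 0 * (M 1 1 * (M 2 2 * M 3 3 - M 2 3 * M 3 2) - M 1 2 * (M 2 1 * M 3 3 - M 2 3 * M 3 1)
      + M 1 3 * (M 2 1 * M 3 2 - M 2 2 * M 3 1))
    - M 0 1 * (M 1 0 * (M 2 2 * M 3 3 - M 2 3 * M 3 2) - M 1 2 * (M 2 0 * M 3 3 - M 2 3 * M 3 0)
      + M 1 3 * (M 2 0 * M 3 2 - M 2 2 * M 3 0))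
    + M 0 2 * (M 1 0 * (M 2 1 * M 3 3 - M 2 3 * M 3 1) - M 1 1 * (M 2 0 * M 3 3 - M 2 3 * M 3 0)
      + M 1 3 * (M 2 0 * M 3 1 - M 2 1 * M 3 0))
    - M 0 3 * (M 1 0 * (M 2 1 * M 3 2 - M 2 2 * M 3 1) - M 1 1 * (M 2 0 * M 3 2 - M 2 2 * M 3 0)
      + M 1 2 * (M 2 0 * M 3 1 - M 2 1 * M 3 0)) := by
  rw [det_succ_row_zero]
  simp only [Fin.sum_univ_four, det_fin_three, submatrix_apply]
  simp [Fin.succAbove, Fin.lt_def, Fin.succ, Fin.castSucc, Fin.castAdd, Fin.castLE]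
  ring

def pad {N : ℕ} (K : Matrix (Fin N) (Fin N) ℝ) (S : Finset (Fin N)) : Matrix (Fin N) (Fin N) ℝ :=
  fun i j => if i ∈ S ∧ j ∈ S then K i j else if i = j then 1 else 0

lemma minor_eq {N : ℕ} (K : Matrix (Fin N) (Fin N) ℝ) (S : Finset (Fin N)) :
    (K.submatrix (fun i : S => (i : Fin N)) (fun i : S => (i : Fin N))).det = (pad K S).det := by
  rw [twoBlockTriangular_det (pad K S) (fun i => i ∈ S)]
  · have e1 : toSquareBlockProp (pad K S) (fun i => i ∈ S) =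
        K.submatrix (fun i : S => (i : Fin N)) (fun i : S => (i : Fin N)) := by
      ext i j; simp [toSquareBlockProp_def, pad]
    have e2 : toSquareBlockProp (pad K S) (fun i => ¬ i ∈ S) = 1 := by
      ext i j
      simp [toSquareBlockProp_def, pad, i.2, Matrix.one_apply, Subtype.ext_iff]
    rw [e1, e2, det_one, mul_one]
    have key : ∀ (d1 d2 : DecidableEq S) (f1 f2 : Fintype S) (M : Matrix S S ℝ),
        @det S d1 f1 ℝ _ M = @det S d2 f2 ℝ _ M := by
      intro d1 d2 f1 f2 M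
      cases Subsingleton.elim d1 d2
      cases Subsingleton.elim f1 f2
      rfl
    exact key _ _ _ _ _
  · intro i hi j hj
    have : i ≠ j := fun h => hi (h ▸ hj)
    simp [pad, hi, this]

noncomputable def schur (K : Matrix (Fin 4) (Fin 4) ℝ) : Matrix (Fin 3) (Fin 3) ℝ :=
  fun i j => K i.castSucc j.castSucc - K i.castSucc 3 * K 3 j.castSucc / K 3 3

lemma sym {n : ℕ} {K : Matrix (Fin n) (Fin n) ℝ} (h : K.IsHermitian) (i j : Fin n) :
    K j i = K i j := by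
  have := h.apply i j
  simpa using this

lemma schur_herm {K : Matrix (Fin 4) (Fin 4) ℝ} (h : K.IsHermitian) : (schur K).IsHermitian := by
  ext i j
  simp only [conjTranspose_apply, star_trivial, schur]
  rw [sym h i.castSucc j.castSucc, sym h 3 j.castSucc, sym h i.castSucc 3]; ring

lemma schur_psd {K : Matrix (Fin 4) (Fin 4) ℝ} (h0 : K.PosSemidef) (hc : K 3 3 ≠ 0) :
    (schur K).PosSemidef := by
  rw [posSemidef_iff_dotProduct_mulVec]
  refine ⟨schur_herm h0.isHermitian, fun x => ?_⟩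
  have := h0.dotProduct_mulVec_nonneg
    ![x 0, x 1, x 2, -(K 3 0 * x 0 + K 3 1 * x 1 + K 3 2 * x 2) / K 3 3]
  refine this.trans (le_of_eq ?_)
  simp [dotProduct, mulVec, Fin.sum_univ_succ, schur]
  field_simp
  ring

lemma schur_psd' {K : Matrix (Fin 4) (Fin 4) ℝ} (h0 : K.PosSemidef) (h1 : (1 - K).PosSemidef) :
    (1 - schur K).PosSemidef := by
  rw [posSemidef_iff_dotProduct_mulVec]
  refine ⟨isHermitian_one.sub (schur_herm h0.isHermitian), fun x => ?_⟩
  have := h1.dotProduct_mulVec_nonneg ![x 0, x 1, x 2, 0]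
  have hc : 0 ≤ K 3 3 := h0.diag_nonneg
  have h2 : 0 ≤ (K 3 0 * x 0 + K 3 1 * x 1 + K 3 2 * x 2) ^ 2 / K 3 3 := by positivity
  refine (add_nonneg this h2).trans (le_of_eq ?_)
  simp [dotProduct, mulVec, Fin.sum_univ_succ, schur, Matrix.one_apply]
  rw [sym h0.isHermitian 3 0, sym h0.isHermitian 3 1, sym h0.isHermitian 3 2]
  ring

end Pool.Agent.H3.Dpp
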