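import Mathlib
import Pool.Prelude.Def_F_6038d89f

set_option autoImplicit false

namespace Pool.Agent.H3.Elem
open Polynomial N5f09da3c

/-- the first-order property, written out -/
def Bad (G : Type*) [Group G] : Prop :=
  ∃ a g h : G,
    (∀ u v u' v' : G, ∃ p q : G,
      (u⁻¹ * (a * (g⁻¹ * a * g)) * u * (v⁻¹ * (a * (h⁻¹ * a * h))⁻¹ * v)) *
        (u'⁻¹ * (a * (g⁻¹ * a * g)) * u' * (v'⁻¹ * (a * (h⁻¹ * a * h))⁻¹ * v')) =
      p⁻¹ * (a * (g⁻¹ * a * g)) * p * (q⁻¹ * (a * (h⁻¹ * a * h))⁻¹ * q)) ∧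
    (∀ u v : G, ¬ u⁻¹ * (a * (g⁻¹ * a * g)) * u * (v⁻¹ * (a * (h⁻¹ * a * h))⁻¹ * v) = 1) ∧
    (∃ u v : G, a * (g⁻¹ * a * g) =
      u⁻¹ * (a * (g⁻¹ * a * g)) * u * (v⁻¹ * (a * (h⁻¹ * a * h))⁻¹ * v)) ∧
    (∃ u v : G, (a * (h⁻¹ * a * h))⁻¹ =
      u⁻¹ * (a * (g⁻¹ * a * g)) * u * (v⁻¹ * (a * (h⁻¹ * a * h))⁻¹ * v))

theorem not_bad {G : Type*} [Group G] (hG : ProOrderable G) : ¬ Bad G := by
  rintro ⟨a, g, h, h1, h2, h3, h4⟩
  generalize hx : a * (g⁻¹ * a * g) = x at *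
  generalize hy : a * (h⁻¹ * a * h) = y at *
  let P : G → Prop := fun e => ∃ u v : G, e = u⁻¹ * x * u * (v⁻¹ * y⁻¹ * v)
  have pm : ∀ e f, P e → P f → P (e * f) := by
    rintro _ _ ⟨u, v, rfl⟩ ⟨u', v', rfl⟩; exact h1 u v u' v'
  have p1 : ¬ P 1 := fun ⟨u, v, e⟩ => h2 u v e.symm
  obtain ⟨s, s1, ⟨s2, s3⟩, s4⟩ := hG (fun e f => e = f ∨ P (e⁻¹ * f))
    { refl := fun _ => Or.inl rfl
      trans := by
        rintro e f k (rfl | i) (rfl | j)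
        · exact Or.inl rfl
        · exact Or.inr j
        · exact Or.inr i
        · exact Or.inr (by simpa [mul_assoc] using pm _ _ i j)
      antisymm := by
        rintro e f (rfl | i) j
        · rfl
        · rcases j with rfl | j
          · rfl
          · exact absurd (by simpa using pm _ _ i j) p1 }
    ⟨fun k e f i => i.imp (fun e => by rw [e]) (fun i => by simpa [mul_assoc] using i),
      fun k e f i => i.imp (fun e => by rw [e]) (fun ⟨u, v, i⟩ => ⟨u * k, v * k, by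
        calc _ = k⁻¹ * (e⁻¹ * f) * k := by group
          _ = _ := by rw [i]; group⟩)⟩
  have c1 : ∀ k, s 1 a → s 1 (a * (k⁻¹ * a * k)) := fun k i =>
    s1.trans _ _ _ i (by simpa using s2 a _ _ (s3 k _ _ (s2 k⁻¹ _ _ i)))
  have c2 : ∀ k, s a 1 → s (a * (k⁻¹ * a * k)) 1 := fun k i =>
    s1.trans _ _ _ (by simpa using s2 a _ _ (s3 k _ _ (s2 k⁻¹ _ _ i))) i
  rcases s1.total 1 a with i | i
  · have j := s4 y 1 (Or.inr (by simpa using h4))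
    have : y = 1 := s1.antisymm _ _ j (hy ▸ c1 h i)
    have h5 : P y⁻¹ := h4
    exact p1 (by rwa [this, inv_one] at h5)
  · have j := s4 1 x (Or.inr (by simpa using h3))
    have : x = 1 := s1.antisymm _ _ (hx ▸ c2 g i) j
    exact p1 (this ▸ h3)

/-- strict invariant total cone on a normal subset -/
def Cone {G : Type} [Group G] (N P : Set G) : Prop := P ⊆ N ∧ (∀ a ∈ P, ∀ b ∈ P, a * b ∈ P) ∧
  (∀ a ∈ P, ∀ g, g⁻¹ * a * g ∈ P) ∧ 1 ∉ P ∧ ∀ a ∈ N, a = 1 ∨ a ∈ P ∨ a⁻¹ ∈ P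

lemma step {G : Type} [Group G] {N M : Set G} (f : G → ℝ) (h : ∃ P, Cone N P)
    (m1 : ∀ a ∈ M, ∀ b ∈ M, a * b ∈ M) (m2 : ∀ a ∈ M, a⁻¹ ∈ M) (f1 : f 1 = 0)
    (hf : ∀ a ∈ M, ∀ b ∈ M, f (a * b) = f a + f b) (hk : ∀ a, a ∈ N ↔ a ∈ M ∧ f a = 0)
    (hc : ∀ a ∈ M, ∀ g, g⁻¹ * a * g ∈ M ∧ (0 < f a → 0 < f (g⁻¹ * a * g))) : ∃ P, Cone M P := by
  obtain ⟨P, p0, p1, p2, p3, p4⟩ := h
  refine ⟨{a | (a ∈ M ∧ 0 < f a) ∨ a ∈ P}, ?_, ?_, ?_, ?_, ?_⟩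
  · rintro a (h | h)
    · exact h.1
    · exact ((hk a).1 (p0 h)).1
  · rintro a (h | h) b (k | k)
    · exact Or.inl ⟨m1 _ h.1 _ k.1, by rw [hf _ h.1 _ k.1]; linarith [h.2, k.2]⟩
    · have := (hk b).1 (p0 k)
      exact Or.inl ⟨m1 _ h.1 _ this.1, by rw [hf _ h.1 _ this.1]; linarith [h.2, this.2]⟩
    · have := (hk a).1 (p0 h)
      exact Or.inl ⟨m1 _ this.1 _ k.1, by rw [hf _ this.1 _ k.1]; linarith [k.2, this.2]⟩
    · exact Or.inr (p1 _ h _ k)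
  · rintro a (h | h) g
    · exact Or.inl ⟨(hc a h.1 g).1, (hc a h.1 g).2 h.2⟩
    · exact Or.inr (p2 a h g)
  · rintro (h | h)
    · exact absurd h.2 (by rw [f1]; exact lt_irrefl _)
    · exact p3 h
  · intro a ha
    rcases lt_trichotomy (f a) 0 with h | h | h
    · have := hf _ ha _ (m2 a ha)
      rw [mul_inv_cancel, f1] at this
      exact Or.inr (Or.inr (Or.inl ⟨m2 a ha, by linarith⟩))
    · exact (p4 a ((hk a).2 ⟨ha, h⟩)).imp id (Or.imp Or.inr Or.inr)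
    · exact Or.inr (Or.inl (Or.inl ⟨ha, h⟩))

lemma ord_of {G : Type} [Group G] (h : ∃ P, Cone (Set.univ : Set G) P) :
    ∃ s : G → G → Prop, IsLinearOrder G s ∧ IsBiInvariant G s := by
  obtain ⟨P, -, p1, p2, p3, p4⟩ := h
  refine ⟨fun e f => e = f ∨ e⁻¹ * f ∈ P,
    { refl := fun _ => Or.inl rfl
      trans := by
        rintro e f k (rfl | i) (rfl | j)
        · exact Or.inl rfl
        · exact Or.inr j
        · exact Or.inr i
        · exact Or.inr (by simpa [mul_assoc] using p1 _ i _ j)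
      antisymm := by
        rintro e f (rfl | i) j
        · rfl
        · rcases j with rfl | j
          · rfl
          · exact absurd (by simpa using p1 _ i _ j) p3
      total := fun e f => by
        rcases p4 (e⁻¹ * f) trivial with i | i | i
        · exact Or.inl (Or.inl (inv_mul_eq_one.1 i))
        · exact Or.inl (Or.inr i)
        · exact Or.inr (Or.inr (by simpa using i)) },
    fun k e f i => i.imp (fun e => by rw [e]) (fun i => by simpa [mul_assoc] using i),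
    fun k e f i => i.imp (fun e => by rw [e]) (fun i => by simpa [mul_assoc] using p2 _ i k)⟩

/-- polynomials not vanishing at -1 -/
noncomputable def Mm : Submonoid ℚ[X] := (nonZeroDivisors ℚ).comap (evalRingHom (-1))

lemma mem_Mm {q : ℚ[X]} : q ∈ Mm ↔ q.eval (-1) ≠ 0 := mem_nonZeroDivisors_iff_ne_zero

/-- the local ring -/
abbrev W := Localization Mm

/-- a positive transcendental number -/
noncomputable def th : ℝ := liouvilleNumber 2 ^ 2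

lemma th_tr : Transcendental ℚ th := by
  have h : Transcendental ℤ th := (transcendental_liouvilleNumber (m := 2) le_rfl).pow two_pos
  exact fun h' => h ((IsFractionRing.isAlgebraic_iff ℤ ℚ ℝ).2 h')

lemma th_ne {q : ℚ[X]} (h : q ≠ 0) : aeval th q ≠ 0 := fun e => th_tr ⟨q, h, e⟩

lemma th_pos : 0 < th := lt_of_le_of_ne (sq_nonneg _) (fun e => th_ne X_ne_zero (by simp [← e]))

/-- residue map -/
noncomputable def chi : W →+* ℚ := IsLocalization.lift (M := Mm) (g := evalRingHom (-1))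
  (fun y => isUnit_iff_ne_zero.2 (mem_Mm.1 y.2))

/-- real embedding -/
noncomputable def io : W →+* ℝ := IsLocalization.lift (M := Mm)
  (g := (aeval th : ℚ[X] →ₐ[ℚ] ℝ).toRingHom)
  (fun y => isUnit_iff_ne_zero.2 (th_ne fun e => mem_Mm.1 y.2 (by simp [e])))

lemma chi_alg (q : ℚ[X]) : chi (algebraMap _ W q) = q.eval (-1) := IsLocalization.lift_eq _ _
lemma io_alg (q : ℚ[X]) : io (algebraMap _ W q) = aeval th q := IsLocalization.lift_eq _ _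

lemma io_inj {w : W} (h : io w = 0) : w = 0 := by
  obtain ⟨⟨a, s⟩, e⟩ := IsLocalization.surj Mm w
  have := congrArg io e
  rw [map_mul, h, zero_mul, io_alg] at this
  have ha : a = 0 := by_contra fun k => th_ne k this.symm
  rw [ha, map_zero] at e
  exact (IsLocalization.map_units W s).mul_left_eq_zero.1 e

lemma unit_of {w : W} (h : chi w ≠ 0) : IsUnit w := by
  obtain ⟨⟨a, s⟩, e⟩ := IsLocalization.surj Mm w
  have := congrArg chi e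
  rw [map_mul, chi_alg, chi_alg] at this
  have ha : a ∈ Mm := mem_Mm.2 (this ▸ mul_ne_zero h (mem_Mm.1 s.2))
  exact isUnit_of_mul_isUnit_left (e ▸ IsLocalization.map_units W (⟨a, ha⟩ : Mm))

/-- ambient group -/
@[ext] structure GA where
  x : W
  y : W
  z : ℚ
  a : Wˣ
  b : Wˣ

noncomputable instance : Mul GA := ⟨fun g h => ⟨g.x + g.a * h.x, g.y + g.b * h.y,
  g.z + chi g.a * chi g.b * h.z + chi g.x * chi g.b * chi h.y, g.a * h.a, g.b * h.b⟩⟩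
noncomputable instance : One GA := ⟨⟨0, 0, 0, 1, 1⟩⟩
noncomputable instance : Inv GA := ⟨fun g => ⟨-((g.a⁻¹ : Wˣ) * g.x), -((g.b⁻¹ : Wˣ) * g.y),
  chi (g.a⁻¹ : Wˣ) * chi (g.b⁻¹ : Wˣ) * (chi g.x * chi g.y - g.z), g.a⁻¹, g.b⁻¹⟩⟩

@[simp] lemma mul_x (g h : GA) : (g * h).x = g.x + g.a * h.x := rfl
@[simp] lemma mul_y (g h : GA) : (g * h).y = g.y + g.b * h.y := rfl
@[simp] lemma mul_z (g h : GA) :
    (g * h).z = g.z + chi g.a * chi g.b * h.z + chi g.x * chi g.b * chi h.y := rfl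
@[simp] lemma mul_a (g h : GA) : (g * h).a = g.a * h.a := rfl
@[simp] lemma mul_b (g h : GA) : (g * h).b = g.b * h.b := rfl
@[simp] lemma one_x : (1 : GA).x = 0 := rfl
@[simp] lemma one_y : (1 : GA).y = 0 := rfl
@[simp] lemma one_z : (1 : GA).z = 0 := rfl
@[simp] lemma one_a : (1 : GA).a = 1 := rfl
@[simp] lemma one_b : (1 : GA).b = 1 := rfl
@[simp] lemma inv_x (g : GA) : g⁻¹.x = -((g.a⁻¹ : Wˣ) * g.x) := rfl
@[simp] lemma inv_y (g : GA) : g⁻¹.y = -((g.b⁻¹ : Wˣ) * g.y) := rfl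
@[simp] lemma inv_z (g : GA) :
    g⁻¹.z = chi (g.a⁻¹ : Wˣ) * chi (g.b⁻¹ : Wˣ) * (chi g.x * chi g.y - g.z) := rfl
@[simp] lemma inv_a (g : GA) : g⁻¹.a = g.a⁻¹ := rfl
@[simp] lemma inv_b (g : GA) : g⁻¹.b = g.b⁻¹ := rfl

noncomputable instance : Group GA := Group.ofLeftAxioms
  (fun a b c => by
    refine GA.ext ?_ ?_ ?_ (mul_assoc _ _ _) (mul_assoc _ _ _) <;>
      simp only [mul_x, mul_y, mul_z, mul_a, mul_b, Units.val_mul, map_mul, map_add] <;> ring)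
  (fun a => by refine GA.ext ?_ ?_ ?_ ?_ ?_ <;> simp)
  (fun a => by
    refine GA.ext (by simp) (by simp) ?_ (by simp) (by simp)
    simp only [mul_z, inv_x, inv_z, inv_a, inv_b, map_neg, map_mul, one_z]; ring)

lemma conj_eq (g h : GA) (h1 : g.a = 1) (h2 : g.b = 1) : h⁻¹ * g * h = ⟨(h.a⁻¹ : Wˣ) * g.x,
    (h.b⁻¹ : Wˣ) * g.y, chi (h.a⁻¹ : Wˣ) * chi (h.b⁻¹ : Wˣ) *
      (g.z + chi g.x * chi h.y - chi h.x * chi g.y), 1, 1⟩ := by
  refine GA.ext ?_ ?_ ?_ (by simp [h1]) (by simp [h2]) <;>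
    simp only [mul_x, mul_y, mul_z, mul_a, mul_b, inv_x, inv_y, inv_z, inv_a, inv_b, h1, h2,
      mul_one, map_add, map_mul, map_neg] <;> ring

lemma inv_pos' {K : Type} [Field K] [LinearOrder K] [IsStrictOrderedRing K] {f : W →+* K} {u : Wˣ} :
    f (u⁻¹ : Wˣ) = (f u)⁻¹ := map_units_inv f u

/-- the group -/
def G0 : Subgroup GA where
  carrier := {g | 0 < io g.a ∧ 0 < io g.b ∧ 0 < chi g.a * chi g.b}
  one_mem' := by simp
  mul_mem' := by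
    rintro g h ⟨a, b, c⟩ ⟨a', b', c'⟩
    simp only [Set.mem_setOf_eq, mul_a, mul_b, Units.val_mul, map_mul]
    exact ⟨by positivity, by positivity, by nlinarith [mul_pos c c']⟩
  inv_mem' := by
    rintro g ⟨a, b, c⟩
    simp only [Set.mem_setOf_eq, inv_a, inv_b, inv_pos', ← mul_inv]
    exact ⟨by positivity, by positivity, by positivity⟩

theorem G0_ord : ∃ s : G0 → G0 → Prop, IsLinearOrder G0 s ∧ IsBiInvariant G0 s := by
  have c0 : ∃ P, Cone ({1} : Set G0) P := ⟨∅, by simp [Cone]⟩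
  have cj : ∀ a g : G0, a.1.a = 1 → a.1.b = 1 → (g⁻¹ * a * g).1 = _ := fun a g h1 h2 =>
    conj_eq a.1 g.1 h1 h2
  have pa : ∀ g : G0, 0 < io (g.1.a⁻¹ : Wˣ) := fun g => (G0.inv_mem g.2).1
  have pb : ∀ g : G0, 0 < io (g.1.b⁻¹ : Wˣ) := fun g => (G0.inv_mem g.2).2.1
  have pc : ∀ g : G0, 0 < chi (g.1.a⁻¹ : Wˣ) * chi (g.1.b⁻¹ : Wˣ) := fun g => (G0.inv_mem g.2).2.2
  have lg : ∀ u : Wˣ, 0 < io u → (Real.log (io u) = 0 ↔ u = 1) := fun u hu =>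
    ⟨fun h => Units.ext (sub_eq_zero.1 (io_inj (by
      rw [map_sub, Real.eq_one_of_pos_of_log_eq_zero hu h]; simp))), fun h => by simp [h]⟩
  have c1 := step (M := {g : G0 | g.1.a = 1 ∧ g.1.b = 1 ∧ g.1.x = 0 ∧ g.1.y = 0})
    (fun g => (g.1.z : ℝ)) c0 (by rintro a ⟨h1, h2, h3, h4⟩ b ⟨k1, k2, k3, k4⟩; simp [*])
    (by rintro a ⟨h1, h2, h3, h4⟩; simp [*]) (by simp)
    (by rintro a ⟨h1, h2, h3, h4⟩ b ⟨k1, k2, k3, k4⟩; simp [*])
    (fun a => ⟨by rintro rfl; simp, fun ⟨⟨h1, h2, h3, h4⟩, h5⟩ =>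
      Subtype.ext (GA.ext h3 h4 (by exact_mod_cast h5) h1 h2)⟩)
    (by
      rintro a ⟨h1, h2, h3, h4⟩ g
      simp only [Set.mem_setOf_eq, cj a g h1 h2, h3, h4, mul_zero, map_zero, zero_mul, add_zero,
        sub_zero, and_self, true_and]
      intro h; exact_mod_cast mul_pos (pc g) (by exact_mod_cast h))
  have c2 := step (M := {g : G0 | g.1.a = 1 ∧ g.1.b = 1 ∧ g.1.x = 0})
    (fun g => io g.1.y) c1 (by rintro a ⟨h1, h2, h3⟩ b ⟨k1, k2, k3⟩; simp [*])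
    (by rintro a ⟨h1, h2, h3⟩; simp [*]) (by simp)
    (by rintro a ⟨h1, h2, h3⟩ b ⟨k1, k2, k3⟩; simp [*])
    (fun a => ⟨fun ⟨h1, h2, h3, h4⟩ => ⟨⟨h1, h2, h3⟩, by simp [h4]⟩,
      fun ⟨⟨h1, h2, h3⟩, h4⟩ => ⟨h1, h2, h3, io_inj h4⟩⟩)
    (by
      rintro a ⟨h1, h2, h3⟩ g
      simp only [Set.mem_setOf_eq, cj a g h1 h2, h3, mul_zero, and_self, true_and, map_mul]
      exact mul_pos (pb g))
  have c3 := step (M := {g : G0 | g.1.a = 1 ∧ g.1.b = 1})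
    (fun g => io g.1.x) c2 (by rintro a ⟨h1, h2⟩ b ⟨k1, k2⟩; simp [*])
    (by rintro a ⟨h1, h2⟩; simp [*]) (by simp)
    (by rintro a ⟨h1, h2⟩ b ⟨k1, k2⟩; simp [*])
    (fun a => ⟨fun ⟨h1, h2, h3⟩ => ⟨⟨h1, h2⟩, by simp [h3]⟩,
      fun ⟨⟨h1, h2⟩, h4⟩ => ⟨h1, h2, io_inj h4⟩⟩)
    (by
      rintro a ⟨h1, h2⟩ g
      simp only [Set.mem_setOf_eq, cj a g h1 h2, and_self, true_and, map_mul]
      exact mul_pos (pa g))
  have c4 := step (M := {g : G0 | g.1.a = 1})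
    (fun g => Real.log (io g.1.b)) c3 (by rintro a (h1 : _ = _) b (k1 : _ = _); simp [*])
    (by rintro a (h1 : _ = _); simp [*]) (by simp)
    (fun a _ b _ => by simpa using Real.log_mul a.2.2.1.ne' b.2.2.1.ne')
    (fun a => and_congr Iff.rfl (lg _ a.2.2.1).symm)
    (by
      rintro a (h1 : _ = _) g
      have : (g⁻¹ * a * g).1.b = a.1.b := inv_mul_cancel_comm g.1.b a.1.b
      exact ⟨by simp [h1], by simp only [this]; exact id⟩)
  refine ord_of (step (fun g => Real.log (io g.1.a)) c4 (by simp) (by simp) (by simp)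
    (fun a _ b _ => by simpa using Real.log_mul a.2.1.ne' b.2.1.ne')
    (fun a => by simpa using (lg _ a.2.1).symm) (fun a _ g => ?_))
  have : (g⁻¹ * a * g).1.a = a.1.a := inv_mul_cancel_comm g.1.a a.1.a
  exact ⟨trivial, by simp only [this]; exact id⟩

theorem G0_bad : Bad G0 := by
  let s : W := algebraMap ℚ[X] W X
  have s1 : chi s = -1 := by simp [s, chi_alg]
  have s2 : 0 < io s := by simpa [s, io_alg] using th_pos
  obtain ⟨S, hS⟩ := unit_of (w := s) (by simp [s1])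
  have mS : ∀ e : W, (⟨0, e, 0, S⁻¹, S⁻¹⟩ : GA) ∈ G0 := fun e => by
    refine ⟨?_, ?_, ?_⟩ <;> simp only [inv_pos', hS, s1] <;> positivity
  let a : G0 := ⟨⟨1, 0, 0, 1, 1⟩, by simp [G0]⟩
  have ex : ∀ e : W, (a * ((⟨_, mS e⟩ : G0)⁻¹ * a * ⟨_, mS e⟩)).1 = ⟨1 + s, 0, chi e, 1, 1⟩ := by
    intro e
    show a.1 * (_⁻¹ * a.1 * _) = _
    rw [conj_eq _ _ rfl rfl]
    refine GA.ext ?_ ?_ ?_ ?_ ?_ <;> simp [a, hS, s1]
  refine ⟨a, ⟨_, mS 1⟩, ⟨_, mS (-1)⟩, ?_⟩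
  have hx := ex 1
  have hy : ((a * ((⟨_, mS (-1)⟩ : G0)⁻¹ * a * ⟨_, mS (-1)⟩))⁻¹).1 = ⟨-(1 + s), 0, 1, 1, 1⟩ := by
    rw [Subgroup.coe_inv, ex]
    refine GA.ext ?_ ?_ ?_ ?_ ?_ <;> simp
  generalize a * ((⟨_, mS 1⟩ : G0)⁻¹ * a * ⟨_, mS 1⟩) = x at *
  generalize (a * ((⟨_, mS (-1)⟩ : G0)⁻¹ * a * ⟨_, mS (-1)⟩))⁻¹ = y at *
  have ev : ∀ u v : G0, (u⁻¹ * x * u * (v⁻¹ * y * v)).1 = ⟨((u.1.a⁻¹ : Wˣ) - (v.1.a⁻¹ : Wˣ)) * (1 + s),
      0, chi (u.1.a⁻¹ : Wˣ) * chi (u.1.b⁻¹ : Wˣ) + chi (v.1.a⁻¹ : Wˣ) * chi (v.1.b⁻¹ : Wˣ), 1, 1⟩ := by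
    intro u v
    show u.1⁻¹ * x.1 * u.1 * (v.1⁻¹ * y.1 * v.1) = _
    rw [hx, hy, conj_eq _ _ rfl rfl, conj_eq _ _ rfl rfl]
    refine GA.ext (by simp; ring) ?_ ?_ ?_ ?_ <;> simp [s1]
  have pc : ∀ g : G0, 0 < chi (g.1.a⁻¹ : Wˣ) * chi (g.1.b⁻¹ : Wˣ) := fun g => (G0.inv_mem g.2).2.2
  have mk : ∀ (A : W) (z : ℚ), 0 < z → 0 < chi A → 0 < io A → ∃ u : G0,
      ((u.1.a⁻¹ : Wˣ) : W) = A ∧ chi (u.1.a⁻¹ : Wˣ) * chi (u.1.b⁻¹ : Wˣ) = z := by
    intro A z hz h1 h2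
    obtain ⟨U, rfl⟩ := unit_of h1.ne'
    have e1 : chi (algebraMap ℚ[X] W (C (z / chi U))) = z / chi U := by simp [chi_alg]
    have e2 : 0 < io (algebraMap ℚ[X] W (C (z / chi U))) := by
      rw [io_alg, aeval_C, eq_ratCast]; exact_mod_cast div_pos hz h1
    obtain ⟨V, hV⟩ := unit_of (w := algebraMap ℚ[X] W (C (z / chi U))) (by
      rw [e1]; positivity)
    rw [← hV] at e1 e2
    refine ⟨(⟨⟨0, 0, 0, U, V⟩, h2, e2, by simp only [e1]; positivity⟩ : G0)⁻¹, by simp, ?_⟩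
    simp only [Subgroup.coe_inv, inv_a, inv_b, inv_inv, e1]; field_simp
  have all : ∀ (e : G0) (w : W) (z : ℚ), 0 < z → e.1 = ⟨w * (1 + s), 0, z, 1, 1⟩ →
      ∃ u v : G0, e = u⁻¹ * x * u * (v⁻¹ * y * v) := by
    intro e w z hz he
    obtain ⟨u, u1, u2⟩ := mk (w ^ 2 + w + 1) (z / 2) (by positivity)
      (by simp only [map_add, map_pow, map_one]; nlinarith [sq_nonneg (chi w + 1 / 2)])
      (by simp only [map_add, map_pow, map_one]; nlinarith [sq_nonneg (io w + 1 / 2)])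
    obtain ⟨v, v1, v2⟩ := mk (w ^ 2 + 1) (z / 2) (by positivity)
      (by simp only [map_add, map_pow, map_one]; positivity)
      (by simp only [map_add, map_pow, map_one]; positivity)
    refine ⟨u, v, Subtype.ext ?_⟩
    rw [ev, he, u2, v2, u1, v1]
    exact GA.ext (by ring) rfl (by ring) rfl rfl
  refine ⟨fun u v u' v' => all _ (((u.1.a⁻¹ : Wˣ) - (v.1.a⁻¹ : Wˣ)) +
      ((u'.1.a⁻¹ : Wˣ) - (v'.1.a⁻¹ : Wˣ))) _ (add_pos (add_pos (pc u) (pc v))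
      (add_pos (pc u') (pc v'))) ?_, fun u v h => ?_, all x 1 1 one_pos (by simp [hx]),
      all y (-1) 1 one_pos (by rw [hy]; exact GA.ext (by ring) rfl rfl rfl rfl)⟩
  · rw [Subgroup.coe_mul, ev, ev]
    refine GA.ext (by simp; ring) ?_ ?_ ?_ ?_ <;> simp
  · have := congrArg (fun g : G0 => g.1.z) h
    simp only [ev] at this
    exact (add_pos (pc u) (pc v)).ne' this

end Pool.Agent.H3.Elem
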