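import Mathlib

set_option autoImplicit false
open Set Filter Topology

namespace Pool.Agent.H3.Ell

lemma tθ (θ : ℝ ≃o ℝ) (x : ℝ) : Tendsto θ (𝓝[>] x) (𝓝[>] (θ x)) :=
  tendsto_nhdsWithin_iff.2 ⟨(θ.continuous.tendsto x).mono_left nhdsWithin_le_nhds,
    eventually_mem_nhdsWithin.mono fun _ h => θ.lt_iff_lt.2 h⟩
lemma evlt {x s : ℝ} (h : x < s) : ∀ᶠ y in 𝓝[>] x, y < s :=
  (gt_mem_nhds h).filter_mono nhdsWithin_le_nhds
lemma first {P : ℝ → Prop} (h : ∀ᶠ y in atBot, P y) {z : ℝ} (hz : ¬ P z) :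
    ∃ p ≤ z, (∀ x < p, P x) ∧ ¬ (P p ∧ ∀ᶠ y in 𝓝[>] p, P y) := by
  obtain ⟨b, hb⟩ := eventually_atBot.1 h
  have hB : BddBelow {x | ¬ P x} := ⟨b, fun x hx => by
    by_contra hc; exact hx (hb x (not_le.1 hc).le)⟩
  refine ⟨sInf {x | ¬ P x}, csInf_le hB hz, fun x hx => ?_, fun ⟨h1, h2⟩ => ?_⟩
  · by_contra hc; exact absurd (csInf_le hB hc) (not_le.2 hx)
  · obtain ⟨u, hu, h3⟩ := mem_nhdsGT_iff_exists_Ioo_subset.1 h2
    refine absurd (le_csInf ⟨z, hz⟩ fun x hx => ?_) (not_le.2 hu)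
    by_contra hc
    rcases (csInf_le hB hx).eq_or_lt with e | e
    · exact hx (e ▸ h1)
    · exact hx (h3 ⟨e, not_le.1 hc⟩)

def W (K : ℝ → ℤ) : Prop := (∀ x, ∀ᶠ y in 𝓝[>] x, K y = 0) ∧ ∀ᶠ y in atBot, K y = 0
lemma W.two {A B K : ℝ → ℤ} (a : W A) (b : W B) (h : ∀ y, A y = 0 → B y = 0 → K y = 0) : W K :=
  ⟨fun x => ((a.1 x).and (b.1 x)).mono fun y e => h y e.1 e.2,
    (a.2.and b.2).mono fun y e => h y e.1 e.2⟩
lemma W.comp {A : ℝ → ℤ} (a : W A) (θ : ℝ ≃o ℝ) : W (fun x => A (θ x)) :=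
  ⟨fun x => (tθ θ x).eventually (a.1 _), θ.tendsto_atBot.eventually a.2⟩
lemma W.pt {K : ℝ → ℤ} (s : ℝ) (h : ∀ y, y ≠ s → K y = 0) : W K := by
  refine ⟨fun x => ?_, (eventually_lt_atBot s).mono fun y e => h y e.ne⟩
  rcases lt_or_ge x s with e | e
  · exact (evlt e).mono fun y e => h y e.ne
  · exact eventually_mem_nhdsWithin.mono fun y e' => h y (e.trans_lt e').ne'
lemma W.fst {K : ℝ → ℤ} (h : W K) {z : ℝ} (hz : K z ≠ 0) :
    ∃ p ≤ z, K p ≠ 0 ∧ ∀ x < p, K x = 0 := by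
  obtain ⟨p, a, b, c⟩ := first h.2 hz
  exact ⟨p, a, fun e => c ⟨e, h.1 p⟩, b⟩

def H : Subgroup (ℝ ≃o ℝ) where
  carrier := {f | (∀ x, ∃ a, ∀ᶠ y in 𝓝[>] x, f y = f x + a * (y - x)) ∧ ∀ᶠ y in atBot, f y = y}
  one_mem' := ⟨fun x => ⟨1, Eventually.of_forall fun y => by simp⟩, by simp⟩
  mul_mem' := by
    rintro f g ⟨f1, f2⟩ ⟨g1, g2⟩
    refine ⟨fun x => ?_, ?_⟩
    · obtain ⟨a, ha⟩ := f1 (g x)
      obtain ⟨b, hb⟩ := g1 x
      refine ⟨a * b, ?_⟩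
      filter_upwards [(tθ g x).eventually ha, hb] with y h1 h2
      change f (g y) = f (g x) + _
      rw [h1, h2]; ring
    · filter_upwards [f2, g2] with y h1 h2
      change f (g y) = y
      rw [h2, h1]
  inv_mem' := by
    rintro f ⟨f1, f2⟩
    refine ⟨fun x => ?_, ?_⟩
    · obtain ⟨a, ha⟩ := f1 (f.symm x)
      refine ⟨a⁻¹, ?_⟩
      filter_upwards [(tθ f.symm x).eventually ha, eventually_mem_nhdsWithin] with y h1 h2
      change f.symm y = f.symm x + _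
      simp only [OrderIso.apply_symm_apply] at h1
      have : a ≠ 0 := by rintro rfl; simp at h1; exact absurd h2 (by simp [h1])
      field_simp; linarith
    · exact f2.mono fun y h => (f.symm_apply_eq).2 h.symm

@[ext] structure Ω where
  j : ℝ → ℤ
  m : ℝ → ℤ
  φ : ℝ ≃o ℝ
  hj : W j
  hm : W m
  hφ : φ ∈ H

def E (s : ℝ) (a b : Ω) : Prop := ∀ x < s, a.j x = b.j x ∧ a.m x = b.m x ∧ a.φ x = b.φ x
def Lo (s : ℝ) (a b : Ω) : Prop := a.j s < b.j s ∨ (a.j s = b.j s ∧ (a.m s < b.m s ∨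
  (a.m s = b.m s ∧ ∀ᶠ y in 𝓝[>] s, a.φ y < b.φ y)))
lemma E.refl (s : ℝ) (a : Ω) : E s a a := fun _ _ => ⟨rfl, rfl, rfl⟩
lemma E.symm {s : ℝ} {a b : Ω} (h : E s a b) : E s b a :=
  fun x hx => ⟨(h x hx).1.symm, (h x hx).2.1.symm, (h x hx).2.2.symm⟩
lemma E.trans {s : ℝ} {a b c : Ω} (h : E s a b) (k : E s b c) : E s a c := fun x hx =>
  ⟨(h x hx).1.trans (k x hx).1, (h x hx).2.1.trans (k x hx).2.1, (h x hx).2.2.trans (k x hx).2.2⟩
lemma E.mono {s t : ℝ} {a b : Ω} (h : E s a b) (k : t ≤ s) : E t a b :=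
  fun x hx => h x (hx.trans_le k)
lemma E.at {s : ℝ} {a b : Ω} (h : E s a b) : a.φ s = b.φ s := by
  have t1 := (a.φ.continuous.tendsto s).mono_left (nhdsWithin_le_nhds (s := Iio s))
  have t2 := (b.φ.continuous.tendsto s).mono_left (nhdsWithin_le_nhds (s := Iio s))
  have t3 : a.φ =ᶠ[𝓝[<] s] b.φ := eventually_mem_nhdsWithin.mono fun y e => (h y e).2.2
  exact tendsto_nhds_unique (t1.congr' t3) t2
lemma Lo.congr {s t : ℝ} {a b a' b' : Ω} (h : Lo s a b) (k : s < t) (ha : E t a a')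
    (hb : E t b b') : Lo s a' b' := by
  unfold Lo at *
  rw [← (ha s k).1, ← (hb s k).1, ← (ha s k).2.1, ← (hb s k).2.1]
  refine h.imp id (And.imp id (Or.imp id (And.imp id fun e => ?_)))
  filter_upwards [e, evlt k] with y h1 h2
  rwa [← (ha y h2).2.2, ← (hb y h2).2.2]
lemma Lo.irrefl (s : ℝ) (a : Ω) : ¬ Lo s a a := by
  simp only [Lo, lt_self_iff_false, false_or, true_and, eventually_false_iff_eq_bot]
  exact NeBot.ne inferInstance
lemma Lo.trans {s : ℝ} {a b c : Ω} (h : Lo s a b) (k : Lo s b c) : Lo s a c := by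
  unfold Lo at *
  rcases h with h | ⟨h, h1 | ⟨h1, h2⟩⟩ <;> rcases k with k | ⟨k, k1 | ⟨k1, k2⟩⟩
  any_goals omega
  exact Or.inr ⟨h.trans k, Or.inr ⟨h1.trans k1, (h2.and k2).mono fun y e => e.1.trans e.2⟩⟩
def lt' (a b : Ω) : Prop := ∃ p, E p a b ∧ Lo p a b
lemma tri (a b : Ω) : lt' a b ∨ a = b ∨ lt' b a := by
  by_cases hab : ∀ x, a.j x = b.j x ∧ a.m x = b.m x ∧ a.φ x = b.φ x
  · exact Or.inr (Or.inl (Ω.ext (funext fun x => (hab x).1) (funext fun x => (hab x).2.1)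
      (RelIso.ext fun x => (hab x).2.2)))
  obtain ⟨z, hz⟩ := not_forall.1 hab
  obtain ⟨p, -, h1, h2⟩ := first (P := fun x => a.j x = b.j x ∧ a.m x = b.m x ∧ a.φ x = b.φ x)
    (by
      filter_upwards [a.hj.2, b.hj.2, a.hm.2, b.hm.2, a.hφ.2, b.hφ.2] with y e1 e2 e3 e4 e5 e6
      simp [*]) hz
  have h3 : E p a b := h1
  rcases lt_trichotomy (a.j p) (b.j p) with e | e | e
  · exact Or.inl ⟨p, h3, Or.inl e⟩
  swap
  · exact Or.inr (Or.inr ⟨p, h3.symm, Or.inl e⟩)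
  rcases lt_trichotomy (a.m p) (b.m p) with e' | e' | e'
  · exact Or.inl ⟨p, h3, Or.inr ⟨e, Or.inl e'⟩⟩
  swap
  · exact Or.inr (Or.inr ⟨p, h3.symm, Or.inr ⟨e.symm, Or.inl e'⟩⟩)
  obtain ⟨u, hu⟩ := a.hφ.1 p
  obtain ⟨v, hv⟩ := b.hφ.1 p
  rcases lt_trichotomy u v with k | k | k
  · refine Or.inl ⟨p, h3, Or.inr ⟨e, Or.inr ⟨e', ?_⟩⟩⟩
    filter_upwards [hu, hv, eventually_mem_nhdsWithin] with y e1 e2 e3
    rw [e1, e2, h3.at]; have := mul_lt_mul_of_pos_right k (sub_pos.2 e3); linarith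
  · refine absurd ⟨⟨e, e', h3.at⟩, ?_⟩ h2
    filter_upwards [hu, hv, a.hj.1 p, b.hj.1 p, a.hm.1 p, b.hm.1 p] with y e1 e2 e3 e4 e5 e6
    rw [e1, e2, h3.at, k, e3, e4, e5, e6]; simp
  · refine Or.inr (Or.inr ⟨p, h3.symm, Or.inr ⟨e.symm, Or.inr ⟨e'.symm, ?_⟩⟩⟩)
    filter_upwards [hu, hv, eventually_mem_nhdsWithin] with y e1 e2 e3
    rw [e1, e2, h3.at]; have := mul_lt_mul_of_pos_right k (sub_pos.2 e3); linarith
lemma lt'_trans (a b c : Ω) (h : lt' a b) (k : lt' b c) : lt' a c := by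
  obtain ⟨p, h1, h2⟩ := h
  obtain ⟨q, k1, k2⟩ := k
  rcases lt_trichotomy p q with e | rfl | e
  · exact ⟨p, h1.trans (k1.mono e.le), h2.congr e (E.refl _ _) k1⟩
  · exact ⟨p, h1.trans k1, h2.trans k2⟩
  · exact ⟨q, (h1.mono e.le).trans k1, k2.congr e h1.symm (E.refl _ _)⟩
instance : IsStrictTotalOrder Ω lt' where
  trichotomous a b h1 h2 := ((tri a b).resolve_left h1).resolve_right h2
  irrefl a := fun ⟨p, _, h⟩ => Lo.irrefl p a h
  trans := lt'_trans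
open Classical in
noncomputable instance : LinearOrder Ω := linearOrderOfSTO lt'
lemma lt_def {a b : Ω} : a < b ↔ ∃ p, E p a b ∧ Lo p a b := Iff.rfl
lemma lt_tr {s : ℝ} {a b a' b' : Ω} (h : a < b) (n : ¬ E s a b) (ha : E s a a') (hb : E s b b') :
    a' < b' := by
  obtain ⟨p, h1, h2⟩ := h
  have k : p < s := by by_contra hc; exact n (h1.mono (not_lt.1 hc))
  exact ⟨p, ((ha.mono k.le).symm.trans h1).trans (hb.mono k.le), h2.congr k ha hb⟩

def r (θ : H) (μ : {K // W K}) (a : Ω) : Ω :=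
  ⟨fun x => a.j (θ.1 x), fun x => a.m (θ.1 x) + μ.1 x, a.φ * θ.1, a.hj.comp _,
    (a.hm.comp θ.1).two μ.2 fun y e1 e2 => by rw [e1, e2]; rfl, H.mul_mem a.hφ θ.2⟩
lemma rE (θ : H) (μ : {K // W K}) {s : ℝ} {a b : Ω} (h : E s a b) :
    E (θ.1.symm s) (r θ μ a) (r θ μ b) := fun x hx => by
  have := h (θ.1 x) (θ.1.lt_symm_apply.1 hx)
  exact ⟨this.1, congrArg (· + μ.1 x) this.2.1, this.2.2⟩
lemma rmono (θ : H) (μ : {K // W K}) : StrictMono (r θ μ) := by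
  rintro a b ⟨p, h1, h2⟩
  refine ⟨_, rE θ μ h1, ?_⟩
  obtain ⟨p, rfl⟩ := θ.1.surjective p
  simp only [Lo, r, OrderIso.symm_apply_apply, add_lt_add_iff_right, add_left_inj] at h2 ⊢
  exact h2.imp id (And.imp id (Or.imp id (And.imp id fun e => (tθ θ.1 p).eventually e)))

def Good (f : Ω → Ω) : Prop := ∀ s a b, E s a b →
  E s (f a) (f b) ∧ (f b).j s - (f a).j s = b.j s - a.j s
lemma sign {s : ℝ} {a b a' b' : Ω} (ha : E s a a') (hb : E s b b')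
    (e : a'.j s - a.j s = b'.j s - b.j s) : (a < b ∧ a' < b') ∨ (b < a ∧ b' < a') ∨
      (E s a b ∧ a.j s = b.j s ∧ a'.j s = b'.j s) := by
  by_cases h : E s a b
  · have h' : E s a' b' := (ha.symm.trans h).trans hb
    rcases lt_trichotomy (a.j s) (b.j s) with k | k | k
    · exact Or.inl ⟨⟨s, h, Or.inl k⟩, ⟨s, h', Or.inl (by omega)⟩⟩
    · exact Or.inr (Or.inr ⟨h, k, by omega⟩)
    · exact Or.inr (Or.inl ⟨⟨s, h.symm, Or.inl k⟩, ⟨s, h'.symm, Or.inl (by omega)⟩⟩)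
  · rcases lt_trichotomy a b with k | rfl | k
    · exact Or.inl ⟨k, lt_tr k h ha hb⟩
    · exact absurd (E.refl _ _) h
    · exact Or.inr (Or.inl ⟨k, lt_tr k (fun e => h e.symm) hb ha⟩)
lemma Good.mm {f g : Ω → Ω} (hf : Good f) (hg : Good g) :
    Good (fun a => max (f a) (g a)) ∧ Good (fun a => min (f a) (g a)) := by
  constructor <;> intro s a b h <;> obtain ⟨f1, f2⟩ := hf s a b h <;>
    obtain ⟨g1, g2⟩ := hg s a b h <;>
    rcases sign f1 g1 (f2.trans g2.symm) with ⟨k, k'⟩ | ⟨k, k'⟩ | ⟨k, k1, k2⟩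
  · simp only [max_eq_right k.le, max_eq_right k'.le]; exact ⟨g1, g2⟩
  · simp only [max_eq_left k.le, max_eq_left k'.le]; exact ⟨f1, f2⟩
  · rcases max_choice (f a) (g a) with e | e <;> rcases max_choice (f b) (g b) with e' | e' <;>
      simp only [e, e']
    exacts [⟨f1, f2⟩, ⟨k.trans g1, by omega⟩, ⟨k.symm.trans f1, by omega⟩, ⟨g1, g2⟩]
  · simp only [min_eq_left k.le, min_eq_left k'.le]; exact ⟨f1, f2⟩
  · simp only [min_eq_right k.le, min_eq_right k'.le]; exact ⟨g1, g2⟩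
  · rcases min_choice (f a) (g a) with e | e <;> rcases min_choice (f b) (g b) with e' | e' <;>
      simp only [e, e']
    exacts [⟨f1, f2⟩, ⟨k.trans g1, by omega⟩, ⟨k.symm.trans f1, by omega⟩, ⟨g1, g2⟩]

def Z (c : ℝ) (A : ℝ → ℤ) (a : Ω) : Prop := ∀ y, a.φ y < c → a.j y = A (a.φ y)
def Supp (c : ℝ) (f : Ω → Ω) : Prop :=
  ∀ a, E (a.φ.symm c) a (f a) ∧ (¬ Z c 0 a → f a = a)
lemma Supp.mono {c d : ℝ} {f : Ω → Ω} (h : Supp c f) (k : d ≤ c) : Supp d f := fun a =>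
  ⟨(h a).1.mono (a.φ.symm.monotone k), fun n => (h a).2 fun z => n fun y e => z y (e.trans_le k)⟩
lemma E.sy {c : ℝ} {a b : Ω} (h : E (a.φ.symm c) a b) : b.φ.symm c = a.φ.symm c := by
  rw [OrderIso.symm_apply_eq, ← h.at, OrderIso.apply_symm_apply]

def G : Subgroup (Ω ≃o Ω) where
  carrier := {g | Good g ∧ Good g.symm ∧ (∀ θ μ a, g (r θ μ a) = r θ μ (g a)) ∧ ∃ c, Supp c g}
  one_mem' := ⟨fun _ _ _ h => ⟨h, rfl⟩, fun _ _ _ h => ⟨h, rfl⟩, fun _ _ _ => rfl,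
    0, fun _ => ⟨E.refl _ _, fun _ => rfl⟩⟩
  mul_mem' := by
    rintro f g ⟨f1, f2, f3, c, f4⟩ ⟨g1, g2, g3, d, g4⟩
    refine ⟨fun s a b h => ?_, fun s a b h => ?_, fun θ μ a => ?_, min c d, fun a => ?_⟩
    · have := g1 s a b h
      exact ⟨(f1 s _ _ this.1).1, (f1 s _ _ this.1).2.trans this.2⟩
    · have := f2 s a b h
      exact ⟨(g2 s _ _ this.1).1, (g2 s _ _ this.1).2.trans this.2⟩
    · change f (g _) = r θ μ (f (g a))
      rw [g3, f3]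
    · have h1 := g4.mono (min_le_right c d) a
      have h2 := f4.mono (min_le_left c d)
      refine ⟨h1.1.trans (h1.1.sy ▸ (h2 _).1), fun n => ?_⟩
      change f (g a) = a
      rw [h1.2 n, (h2 a).2 n]
  inv_mem' := by
    rintro f ⟨f1, f2, f3, c, f4⟩
    refine ⟨f2, f1, fun θ μ a => ?_, c, fun a => ⟨?_, fun n => ?_⟩⟩
    · change f.symm _ = r θ μ (f.symm a)
      rw [OrderIso.symm_apply_eq, f3, OrderIso.apply_symm_apply]
    · have := (f4 (f.symm a)).1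
      rw [OrderIso.apply_symm_apply] at this
      exact this.sy ▸ this.symm
    · exact f.symm_apply_eq.2 ((f4 a).2 n).symm

noncomputable def mx (f g : Ω ≃o Ω) : Ω ≃o Ω :=
  StrictMono.orderIsoOfRightInverse (fun a => max (f a) (g a))
    (fun _ _ h => max_lt_max (f.strictMono h) (g.strictMono h))
    (fun b => min (f.symm b) (g.symm b)) fun b => by
      rcases le_total (f.symm b) (g.symm b) with h | h
      · simpa [h] using g.le_symm_apply.1 h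
      · simpa [h] using f.le_symm_apply.1 h
noncomputable def mn (f g : Ω ≃o Ω) : Ω ≃o Ω := (mx f.symm g.symm).symm
lemma mx_mem {f g : Ω ≃o Ω} (hf : f ∈ G) (hg : g ∈ G) : mx f g ∈ G := by
  obtain ⟨f1, f2, f3, c, f4⟩ := hf
  obtain ⟨g1, g2, g3, d, g4⟩ := hg
  refine ⟨(f1.mm g1).1, (f2.mm g2).2, fun θ μ a => ?_, min c d, fun a => ?_⟩
  · change max _ _ = r θ μ (max _ _)
    rw [f3, g3, (rmono θ μ).monotone.map_max]
  · have h1 := g4.mono (min_le_right c d) a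
    have h2 := f4.mono (min_le_left c d) a
    change E _ a (max _ _) ∧ (_ → max _ _ = a)
    refine ⟨?_, fun n => by rw [h1.2 n, h2.2 n, max_self]⟩
    rcases max_choice (f a) (g a) with e | e <;> rw [e]
    exacts [h2.1, h1.1]
noncomputable instance : Lattice G where
  le f g := ∀ a, f.1 a ≤ g.1 a
  le_refl _ _ := le_rfl
  le_trans _ _ _ h k a := (h a).trans (k a)
  le_antisymm _ _ h k := Subtype.ext (RelIso.ext fun a => (h a).antisymm (k a))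
  sup f g := ⟨mx f g, mx_mem f.2 g.2⟩
  le_sup_left _ _ _ := le_max_left _ _
  le_sup_right _ _ _ := le_max_right _ _
  sup_le _ _ _ h k a := max_le (h a) (k a)
  inf f g := ⟨mn f g, G.inv_mem (mx_mem (G.inv_mem f.2) (G.inv_mem g.2))⟩
  inf_le_left _ _ _ := min_le_left _ _
  inf_le_right _ _ _ := min_le_right _ _
  le_inf _ _ _ h k a := le_min (h a) (k a)
lemma le_def {f g : G} : f ≤ g ↔ ∀ a, f.1 a ≤ g.1 a := Iff.rfl
instance : MulLeftMono G := ⟨fun f _ _ h a => f.1.monotone (h a)⟩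
instance : MulRightMono G := ⟨fun f _ _ h a => h (f.1 a)⟩

end Pool.Agent.H3.Ell
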