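import Pool.Agent.H3.EllA

set_option autoImplicit false
open Set Filter Topology Classical

namespace Pool.Agent.H3.Ell

lemma mkG {F F' : Ω → Ω} (i1 : ∀ a, F (F' a) = a) (g1 : Good F) (g2 : Good F')
    (lo : ∀ s a b, E s a b → Lo s a b → Lo s (F a) (F b))
    (cm : ∀ θ μ a, F (r θ μ a) = r θ μ (F a)) {c : ℝ} (sp : Supp c F) :
    ∃ g : G, ∀ a, g.1 a = F a :=
  ⟨⟨StrictMono.orderIsoOfRightInverse F
    (fun _ _ ⟨p, h1, h2⟩ => ⟨p, (g1 p _ _ h1).1, lo p _ _ h1 h2⟩) F' i1, g1, g2, cm, c, sp⟩,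
    fun _ => rfl⟩
lemma E.le {s x : ℝ} {a b : Ω} (h : E s a b) (k : x ≤ s) : a.φ x = b.φ x := (h.mono k).at
lemma allθ (θ : ℝ ≃o ℝ) (P : ℝ → Prop) (x : ℝ) : (∀ y < x, P (θ y)) ↔ ∀ y < θ x, P y :=
  ⟨fun h y hy => by
    obtain ⟨y, rfl⟩ := θ.surjective y
    exact h y (θ.lt_iff_lt.1 hy), fun h y hy => h _ (θ.lt_iff_lt.2 hy)⟩

noncomputable def U (A B : {K // W K}) (a : Ω) : Ω :=
  ⟨fun x => if ∀ y < x, a.j y = A.1 (a.φ y) then a.j x - A.1 (a.φ x) + B.1 (a.φ x) else a.j x,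
    a.m, a.φ, ((a.hj.two (A.2.comp a.φ) (K := fun y => |a.j y| + |A.1 (a.φ y)|)
      (fun y e1 e2 => by simp [e1, e2])).two (B.2.comp a.φ) fun y e1 e2 => by
        have := abs_nonneg (a.j y); have := abs_nonneg (A.1 (a.φ y))
        have h1 : a.j y = 0 := abs_eq_zero.1 (by omega)
        have h2 : A.1 (a.φ y) = 0 := abs_eq_zero.1 (by omega)
        simp [h1, h2, e2]), a.hm, a.hφ⟩
lemma Ukey (A B : {K // W K}) (a : Ω) (x : ℝ) :
    (∀ y < x, (U A B a).j y = B.1 (a.φ y)) ↔ ∀ y < x, a.j y = A.1 (a.φ y) := by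
  refine ⟨fun h y hy => ?_, fun h y hy => ?_⟩
  · by_contra hc
    obtain ⟨p, h1, h2, h3⟩ := (a.hj.two (A.2.comp a.φ) (K := fun y => a.j y - A.1 (a.φ y))
      (fun y e1 e2 => by simp [e1, e2])).fst (sub_ne_zero.2 hc)
    have := h p (h1.trans_lt hy)
    simp only [U] at this
    rw [if_pos fun z hz => sub_eq_zero.1 (h3 z hz)] at this
    omega
  · simp only [U]
    rw [if_pos fun z hz => h z (hz.trans hy), h y hy]; ring
lemma UU (A B : {K // W K}) (a : Ω) : U B A (U A B a) = a := by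
  refine Ω.ext (funext fun x => ?_) rfl rfl
  change (if ∀ y < x, (U A B a).j y = B.1 (a.φ y) then
    (U A B a).j x - B.1 (a.φ x) + A.1 (a.φ x) else (U A B a).j x) = _
  simp only [Ukey]
  simp only [U]
  split_ifs <;> ring
lemma Uloc (A B : {K // W K}) {s x : ℝ} {a b : Ω} (h : E s a b) (k : x ≤ s) :
    (U A B a).j x - a.j x = (U A B b).j x - b.j x := by
  have : (∀ y < x, a.j y = A.1 (a.φ y)) ↔ ∀ y < x, b.j y = A.1 (b.φ y) :=
    forall₂_congr fun y hy => by rw [(h y (hy.trans_le k)).1, (h y (hy.trans_le k)).2.2]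
  simp only [U, this, h.le k]
  split_ifs <;> ring
lemma Ugood (A B : {K // W K}) : Good (U A B) := fun s a b h =>
  ⟨fun x hx => ⟨by have := Uloc A B h hx.le; have := (h x hx).1; omega, (h x hx).2⟩,
    by have := Uloc A B h le_rfl; omega⟩
lemma exU (A B : {K // W K}) : ∃ g : G, ∀ a, g.1 a = U A B a := by
  obtain ⟨c, hc⟩ := eventually_atBot.1 (A.2.2.and B.2.2)
  refine mkG (UU B A) (Ugood A B) (Ugood B A) (fun s a b h k => ?_) (fun θ μ a => ?_) (c := c)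
    fun a => ⟨fun x hx => ⟨?_, rfl, rfl⟩, fun n => Ω.ext (funext fun x => ?_) rfl rfl⟩
  · have := Uloc A B h le_rfl
    exact k.imp (by omega) (And.imp (by omega) id)
  · refine Ω.ext (funext fun x => ?_) rfl rfl
    exact if_congr (allθ θ.1 (fun y => a.j y = A.1 (a.φ y)) x) rfl rfl
  · have := hc _ (a.φ.lt_symm_apply.1 hx).le
    simp [U, this]
  · simp only [Z, not_forall] at n
    obtain ⟨y, h1, h2⟩ := n
    simp only [U]
    split_ifs with h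
    · have : x ≤ y := by
        by_contra k
        exact h2 ((h y (not_le.1 k)).trans (hc _ h1.le).1)
      have := hc _ ((a.φ.monotone this).trans h1.le)
      simp [this]
    · rfl

noncomputable def V (f : H) (e : ℝ) (a : Ω) : Ω :=
  if Z e 0 a then ⟨a.j, a.m, f.1 * a.φ, a.hj, a.hm, H.mul_mem f.2 a.hφ⟩ else a
lemma Vsupp (f : H) {e : ℝ} (hf : ∀ x ≤ e, f.1 x = x) : Supp e (V f e) := fun a => by
  refine ⟨fun x hx => ?_, fun n => if_neg n⟩
  unfold V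
  split_ifs
  · exact ⟨rfl, rfl, (hf _ (a.φ.lt_symm_apply.1 hx).le).symm⟩
  · exact ⟨rfl, rfl, rfl⟩
lemma VV (f : H) {e : ℝ} (hf : ∀ x ≤ e, f.1 x = x) (a : Ω) : V f⁻¹ e (V f e a) = a := by
  by_cases h : Z e 0 a
  · rw [V, V, if_pos h, if_pos]
    · exact Ω.ext rfl rfl (by simp)
    · intro y hy
      refine h y (f.1.lt_iff_lt.1 ?_)
      rwa [hf e le_rfl]
  · rw [(Vsupp f hf a).2 h, V, if_neg h]
lemma Zlt {s e : ℝ} {a b : Ω} (h : E s a b) (ha : Z e 0 a) (hb : ¬ Z e 0 b) :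
    s < a.φ.symm e ∧ s < b.φ.symm e := by
  simp only [Z, not_forall] at hb
  obtain ⟨y, h1, h2⟩ := hb
  have : s ≤ y := by
    by_contra k
    have := h y (not_le.1 k)
    exact h2 (this.1.symm.trans (ha y (this.2.2 ▸ h1)))
  have k := (b.φ.monotone this).trans_lt h1
  exact ⟨a.φ.lt_symm_apply.2 (h.at ▸ k), b.φ.lt_symm_apply.2 k⟩
lemma Vloc (f : H) {e : ℝ} (hf : ∀ x ≤ e, f.1 x = x) {s : ℝ} {a b : Ω} (h : E s a b) :
    E s (V f e a) (V f e b) ∧ (Lo s a b → Lo s (V f e a) (V f e b)) := by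
  have mix : s < a.φ.symm e ∧ s < b.φ.symm e →
      E s (V f e a) (V f e b) ∧ (Lo s a b → Lo s (V f e a) (V f e b)) := fun k => by
    have h1 := (Vsupp f hf a).1.mono (min_le_left _ (b.φ.symm e))
    have h2 := (Vsupp f hf b).1.mono (min_le_right (a.φ.symm e) _)
    have k' := lt_min k.1 k.2
    exact ⟨((h1.mono k'.le).symm.trans h).trans (h2.mono k'.le), fun l => l.congr k' h1 h2⟩
  by_cases ha : Z e 0 a <;> by_cases hb : Z e 0 b
  · simp only [V, if_pos ha, if_pos hb]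
    exact ⟨fun x hx => ⟨(h x hx).1, (h x hx).2.1, congrArg f.1 (h x hx).2.2⟩, fun l =>
      l.imp id (And.imp id (Or.imp id (And.imp id fun k => k.mono fun _ => f.1.lt_iff_lt.2)))⟩
  · exact mix (Zlt h ha hb)
  · exact mix (Zlt h.symm hb ha).symm
  · simp only [V, if_neg ha, if_neg hb]; exact ⟨h, id⟩
lemma Vj (f : H) (e : ℝ) (a : Ω) : (V f e a).j = a.j := by unfold V; split_ifs <;> rfl
lemma Zr (θ : H) (μ : {K // W K}) (e : ℝ) (a : Ω) : Z e 0 (r θ μ a) ↔ Z e 0 a :=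
  ⟨fun h y hy => by obtain ⟨y, rfl⟩ := θ.1.surjective y; exact h y hy, fun h y hy => h _ hy⟩
lemma exV (f : H) {e : ℝ} (hf : ∀ x ≤ e, f.1 x = x) : ∃ g : G, ∀ a, g.1 a = V f e a := by
  have hf' : ∀ x ≤ e, (f⁻¹).1 x = x := fun x hx => f.1.symm_apply_eq.2 (hf x hx).symm
  refine mkG (F' := V f⁻¹ e) (fun a => by simpa using VV f⁻¹ hf' a)
    (fun s a b h => ⟨(Vloc f hf h).1, by simp only [Vj]⟩)
    (fun s a b h => ⟨(Vloc f⁻¹ hf' h).1, by simp only [Vj]⟩) (fun s a b h => (Vloc f hf h).2)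
    (fun θ μ a => ?_) (Vsupp f hf)
  simp only [V, Zr]
  split_ifs <;> rfl
lemma exf {e c d : ℝ} (hc : e < c) (hd : e < d) :
    ∃ f : H, (∀ x ≤ e, f.1 x = x) ∧ f.1 c = d := by
  obtain ⟨a, ha, e1⟩ : ∃ a, 0 < a ∧ a * (c - e) = d - e :=
    ⟨(d - e) / (c - e), div_pos (sub_pos.2 hd) (sub_pos.2 hc), div_mul_cancel₀ _ (sub_pos.2 hc).ne'⟩
  let F : ℝ → ℝ → ℝ := fun a x => if x ≤ e then x else e + a * (x - e)
  have mono : StrictMono (F a) := fun x y h => by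
    simp only [F]
    split_ifs with h1 h2 <;> nlinarith
  have inv : ∀ x, F a (F a⁻¹ x) = x := fun x => by
    simp only [F]
    by_cases h : x ≤ e
    · simp [h]
    · have : ¬ e + a⁻¹ * (x - e) ≤ e := by
        have := mul_pos (inv_pos.2 ha) (sub_pos.2 (not_le.1 h)); linarith
      rw [if_neg h, if_neg this]; field_simp; ring
  refine ⟨⟨mono.orderIsoOfRightInverse _ _ inv, fun x => ?_,
    (eventually_le_atBot e).mono fun y h => if_pos h⟩, fun x h => if_pos h, ?_⟩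
  · rcases lt_or_ge x e with h | h
    · refine ⟨1, (evlt h).mono fun y k => ?_⟩
      change F a y = F a x + _
      simp [F, k.le, h.le]
    · refine ⟨a, eventually_mem_nhdsWithin.mono fun y k => ?_⟩
      change F a y = F a x + _
      simp only [F, if_neg (not_le.2 (h.trans_lt k))]
      split_ifs with h1
      · rw [h1.antisymm h]
      · ring
  · change F a c = d
    simp only [F, if_neg (not_le.2 hc)]; linarith

def D (g : G) (A : ℝ → ℤ) (c : ℝ) : Prop :=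
  ∀ a, Z c A a → a < g.1 a ∧ ¬ E (a.φ.symm c) a (g.1 a)
lemma D.conj {g u : G} {A B : ℝ → ℤ} {c d : ℝ} (h : D g A c)
    (k : ∀ a, Z d B (u.1 a) → Z c A a ∧ (u.1 a).φ.symm d = a.φ.symm c) :
    D (u * g * u⁻¹) B d := by
  intro a ha
  obtain ⟨a, rfl⟩ := u.1.surjective a
  have e : (u * g * u⁻¹).1 (u.1 a) = u.1 (g.1 a) := congrArg (fun z => u.1 (g.1 z))
    (u.1.symm_apply_apply a)
  obtain ⟨k1, k2⟩ := k a ha
  rw [e, k2]
  refine ⟨u.1.strictMono (h a k1).1, fun n => (h a k1).2 ?_⟩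
  simpa using (u.2.2.1 _ _ _ n).1
lemma dom {g : G} (h1 : 1 ≤ g) (h2 : g ≠ 1) (y : G) : ∃ u : G, y ≤ u * g * u⁻¹ := by
  obtain ⟨a0, ha0⟩ : ∃ a, a < g.1 a := by
    by_contra hc
    exact h2 (le_antisymm (fun a => not_lt.1 fun k => hc ⟨a, k⟩) h1)
  obtain ⟨p, p1, p2⟩ := ha0
  let A : {K // W K} := ⟨fun x => a0.j (a0.φ.symm x), a0.hj.comp _⟩
  have d0 : D g A.1 (a0.φ (p + 1)) := by
    intro a ha
    let θ : H := ⟨a.φ⁻¹ * a0.φ, H.mul_mem (H.inv_mem a.hφ) a0.hφ⟩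
    let μ : {K // W K} := ⟨fun x => a0.m x - a.m (θ.1 x),
      a0.hm.two (a.hm.comp θ.1) fun y e1 e2 => by simp [e1, e2]⟩
    have eφ : ∀ x, a.φ (θ.1 x) = a0.φ x := fun x => a.φ.apply_symm_apply _
    have e0 : E (p + 1) a0 (r θ μ a) := fun x hx => by
      refine ⟨?_, by simp [r, μ], (eφ x).symm⟩
      change _ = a.j (θ.1 x)
      rw [ha _ (by rw [eφ]; exact a0.φ.strictMono hx), eφ]; simp [A]
    have e1 := (g.2.1 _ _ _ e0).1
    rw [g.2.2.2.1] at e1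
    have l := p2.congr (lt_add_one p) e0 e1
    have e2 : E p (r θ μ a) (r θ μ (g.1 a)) :=
      ((e0.mono (by linarith)).symm.trans p1).trans (e1.mono (by linarith))
    refine ⟨(rmono θ μ).lt_iff_lt.1 ⟨p, e2, l⟩, fun n => ?_⟩
    have e3 := rE θ μ n
    have : θ.1.symm (a.φ.symm (a0.φ (p + 1))) = p + 1 := θ.1.symm_apply_eq.2 rfl
    rw [this] at e3
    exact Lo.irrefl _ _ (l.congr (lt_add_one p) e3 (E.refl _ _))
  obtain ⟨u, hu⟩ := exU A ⟨0, W.pt 0 fun _ _ => rfl⟩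
  have d1 : D (u * g * u⁻¹) 0 (a0.φ (p + 1)) := d0.conj fun a ha => by
    rw [hu] at ha ⊢
    exact ⟨fun y hy => (Ukey A _ a (a.φ.symm _)).1 (fun z hz => ha z (a.φ.lt_symm_apply.1 hz)) y
      (a.φ.lt_symm_apply.2 hy), rfl⟩
  obtain ⟨ε, hε⟩ := y.2.2.2.2
  obtain ⟨f, f1, f2⟩ := exf (e := min ε (a0.φ (p + 1)) - 1) (c := a0.φ (p + 1)) (d := ε)
    (by have := min_le_right ε (a0.φ (p + 1)); linarith)
    (by have := min_le_left ε (a0.φ (p + 1)); linarith)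
  obtain ⟨v, hv⟩ := exV f f1
  have d2 : D (v * (u * g * u⁻¹) * v⁻¹) 0 ε := d1.conj fun a ha => by
    rw [hv] at ha ⊢
    have z : Z (min ε (a0.φ (p + 1)) - 1) 0 a := by
      by_contra n
      rw [V, if_neg n] at ha
      exact n fun y hy => ha y (by have := min_le_left ε (a0.φ (p + 1)); linarith)
    rw [V, if_pos z] at ha ⊢
    refine ⟨fun y hy => ha y (f2 ▸ f.1.strictMono hy), (OrderIso.symm_apply_eq _).2 ?_⟩
    change _ = f.1 (a.φ _)
    rw [OrderIso.apply_symm_apply, f2]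
  refine ⟨v * u, fun a => ?_⟩
  rw [show v * u * g * (v * u)⁻¹ = v * (u * g * u⁻¹) * v⁻¹ by group]
  by_cases z : Z ε 0 a
  · exact (lt_tr (d2 a z).1 (d2 a z).2 (hε a).1 (E.refl _ _)).le
  · rw [(hε a).2 z]
    have : (1 : G) ≤ v * (u * g * u⁻¹) * v⁻¹ := by
      have := mul_le_mul_left (mul_le_mul_right h1 (v * u)) (v * u)⁻¹
      rwa [mul_one, mul_inv_cancel, show v * u * g * (v * u)⁻¹ = v * (u * g * u⁻¹) * v⁻¹ by group]
        at this
    exact this a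

def wadd (A B : {K // W K}) : {K // W K} :=
  ⟨fun x => A.1 x + B.1 x, A.2.two B.2 fun y e1 e2 => by simp [e1, e2]⟩
def wneg (A : {K // W K}) : {K // W K} := ⟨fun x => -A.1 x, A.2.two A.2 fun y e1 _ => by simp [e1]⟩
lemma rr (A B : {K // W K}) (a : Ω) : r 1 B (r 1 A a) = r 1 (wadd A B) a :=
  Ω.ext rfl (funext fun _ => add_assoc _ _ _) rfl
lemma r0 {A : {K // W K}} (h : ∀ x, A.1 x = 0) (a : Ω) : r 1 A a = a :=
  Ω.ext rfl (funext fun x => by simp [r, h]) rfl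
def N : Subgroup G where
  carrier := {n | ∃ μ : Ω → {K // W K}, (∀ a, n.1 a = r 1 (μ a) a) ∧
    ∀ s a b, E s a b → b.j s = a.j s + 1 → (μ a).1 s + (μ b).1 s = 0}
  one_mem' := ⟨fun _ => ⟨0, W.pt 0 fun _ _ => rfl⟩, fun a => (r0 (fun _ => rfl) a).symm,
    fun _ _ _ _ _ => rfl⟩
  mul_mem' := by
    rintro n n' ⟨μ, h1, h2⟩ ⟨ν, k1, k2⟩
    refine ⟨fun a => wadd (μ a) (ν a), fun a => ?_, fun s a b e e' => ?_⟩
    · change n.1 (n'.1 a) = _
      rw [k1, n.2.2.2.1, h1, rr]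
    · have := h2 s a b e e'; have := k2 s a b e e'
      simp only [wadd]; omega
  inv_mem' := by
    rintro n ⟨μ, h1, h2⟩
    refine ⟨fun a => wneg (μ a), fun a => n.1.symm_apply_eq.2 ?_, fun s a b e e' => ?_⟩
    · rw [n.2.2.2.1, h1, rr, r0 fun x => by simp [wadd, wneg]]
    · have := h2 s a b e e'
      simp only [wneg]; omega
lemma Nnormal : N.Normal := ⟨by
  rintro n ⟨μ, h1, h2⟩ u
  refine ⟨fun a => μ (u.1.symm a), fun a => ?_, fun s a b e e' => ?_⟩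
  · change u.1 (n.1 (u.1.symm a)) = _
    rw [h1, u.2.2.2.1, OrderIso.apply_symm_apply]
  · have := u.2.2.1 s a b e
    exact h2 s _ _ this.1 (by omega)⟩
lemma Ntriv {n : G} (hn : n ∈ N) (h : 1 ≤ n) : n = 1 := by
  obtain ⟨μ, h1, h2⟩ := hn
  have key : ∀ a s, (∀ x < s, (μ a).1 x = 0) → 0 ≤ (μ a).1 s := by
    intro a s hs
    by_contra k
    refine absurd (h a) (not_le.2 ⟨s, fun x hx => ?_, Or.inr ⟨?_, Or.inl ?_⟩⟩) <;> rw [h1]
    · exact ⟨rfl, by simp [r, hs x hx], rfl⟩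
    · rfl
    · change a.m s + _ < a.m s
      omega
  refine Subtype.ext (RelIso.ext fun a => (h1 a).trans (r0 (fun x => ?_) a))
  by_contra hc
  obtain ⟨s, -, s1, s2⟩ := (μ a).2.fst hc
  let b : Ω := ⟨fun x => a.j x + if x = s then 1 else 0, a.m, a.φ,
    a.hj.two (W.pt (K := fun x => if x = s then 1 else 0) s fun y e => if_neg e)
      fun y e1 e2 => by rw [e1, e2]; rfl, a.hm, a.hφ⟩
  have e : E s a b := fun x hx => ⟨by simp [b, hx.ne], rfl, rfl⟩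
  have e1 := (n.2.1 s a b e).1
  rw [h1, h1] at e1
  have k1 := key a s s2
  have k2 := key b s fun x hx => by
    have : a.m x + (μ a).1 x = a.m x + (μ b).1 x := (e1 x hx).2.1
    have := s2 x hx
    omega
  have := h2 s a b e (by simp [b])
  omega
noncomputable def μ0 (c : ℤ) (a : Ω) : {K // W K} :=
  ⟨fun x => if a.φ x = 0 ∧ Z 0 0 a then (if Even (a.j x) then c else -c) else 0,
    W.pt (a.φ.symm 0) fun y h => if_neg fun e => h (a.φ.eq_symm_apply.2 e.1)⟩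
lemma μloc {s x : ℝ} {a b : Ω} (h : E s a b) (k : x ≤ s) :
    (a.φ x = 0 ∧ Z 0 0 a) ↔ (b.φ x = 0 ∧ Z 0 0 b) := by
  have : ∀ a b : Ω, E s a b → (a.φ x = 0 ∧ Z 0 0 a) → (b.φ x = 0 ∧ Z 0 0 b) := by
    rintro a b h ⟨h1, h2⟩
    rw [h.le k] at h1
    refine ⟨h1, fun y hy => ?_⟩
    have := h y ((b.φ.lt_iff_lt.1 (h1 ▸ hy)).trans_le k)
    exact this.1 ▸ h2 y (this.2.2 ▸ hy)
  exact ⟨this a b h, this b a h.symm⟩
lemma μgood (c : ℤ) : Good fun a => r 1 (μ0 c a) a := fun s a b h => ⟨fun x hx => ⟨(h x hx).1, by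
  change a.m x + _ = b.m x + _
  simp only [μ0, μloc h hx.le, (h x hx).1, (h x hx).2.1], (h x hx).2.2⟩, rfl⟩
lemma exN : ∃ n ∈ N, n ≠ 1 := by
  obtain ⟨n, hn⟩ := mkG (F := fun a => r 1 (μ0 1 a) a) (F' := fun a => r 1 (μ0 (-1) a) a)
    (fun a => by
      rw [rr]
      refine r0 (fun x => ?_) a
      change (μ0 (-1) a).1 x + (μ0 1 a).1 x = 0
      simp only [μ0]
      split_ifs <;> rfl) (μgood _) (μgood _)
    (fun s a b h l => by
      refine l.imp id fun ⟨l1, l2⟩ => ⟨l1, ?_⟩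
      have : (μ0 1 a).1 s = (μ0 1 b).1 s := by simp only [μ0, μloc h le_rfl, l1]
      change a.m s + _ < b.m s + _ ∨ a.m s + _ = b.m s + _ ∧ _
      exact l2.imp (by omega) (And.imp (by omega) id))
    (fun θ μ a => by
      refine Ω.ext rfl (funext fun x => ?_) rfl
      change a.m (θ.1 x) + μ.1 x + (μ0 1 (r θ μ a)).1 x = a.m (θ.1 x) + (μ0 1 a).1 (θ.1 x) + μ.1 x
      have : (μ0 1 (r θ μ a)).1 x = (μ0 1 a).1 (θ.1 x) := by simp only [μ0, Zr]; rfl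
      omega) (c := 0)
    (fun a => ⟨fun x hx => ⟨rfl, by simp [r, μ0, (a.φ.lt_symm_apply.1 hx).ne], rfl⟩,
      fun n => r0 (fun x => by simp [μ0, n]) a⟩)
  refine ⟨n, ⟨μ0 1, hn, fun s a b e e' => ?_⟩, fun e => ?_⟩
  · simp only [μ0, μloc e le_rfl, e', Int.even_add_one]
    split_ifs <;> rfl
  · let a : Ω := ⟨0, 0, 1, W.pt 0 fun _ _ => rfl, W.pt 0 fun _ _ => rfl, H.one_mem⟩
    have := congrArg (fun z : Ω => z.m 0) (hn a)
    rw [e] at this
    simp [r, μ0, a, Z] at this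

end Pool.Agent.H3.Ell
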