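import Mathlib

set_option autoImplicit false

namespace Pool.Agent.H3.Engel

section act
variable {Γ X : Type} [Group Γ] [CompleteLinearOrder X] [MulAction Γ X]

/-- the action preserves the order -/
def Mono (Γ X : Type) [Group Γ] [CompleteLinearOrder X] [MulAction Γ X] : Prop :=
  ∀ (g : Γ) (x y : X), x ≤ y → g • x ≤ g • y

/-- Engel law -/
def Eng (n : ℕ) (Γ : Type) [Group Γ] : Prop :=
  ∀ x y : Γ, (fun z : Γ => z⁻¹ * y⁻¹ * z * y)^[n] x = 1

lemma le_iff (hm : Mono Γ X) (g : Γ) (x y : X) : g • x ≤ g • y ↔ x ≤ y :=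
  ⟨fun h => by simpa using hm g⁻¹ _ _ h, hm g x y⟩

lemma lt_iff (hm : Mono Γ X) (g : Γ) (x y : X) : g • x < g • y ↔ x < y := by
  rw [← not_le, ← not_le, le_iff hm]

lemma inv_le (hm : Mono Γ X) (g : Γ) (x y : X) : g⁻¹ • x ≤ y ↔ x ≤ g • y := by
  rw [← le_iff hm g]; simp

lemma inv_lt (hm : Mono Γ X) (g : Γ) (x y : X) : g⁻¹ • x < y ↔ x < g • y := by
  rw [← lt_iff hm g]; simp

lemma le_inv (hm : Mono Γ X) (g : Γ) (x y : X) : x ≤ g⁻¹ • y ↔ g • x ≤ y := by
  rw [← le_iff hm g]; simp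

lemma lt_inv (hm : Mono Γ X) (g : Γ) (x y : X) : x < g⁻¹ • y ↔ g • x < y := by
  rw [← lt_iff hm g]; simp

lemma top_fix (hm : Mono Γ X) (g : Γ) : g • (⊤ : X) = ⊤ :=
  top_le_iff.1 ((inv_le hm g _ _).1 le_top)

lemma bot_fix (hm : Mono Γ X) (g : Γ) : g • (⊥ : X) = ⊥ :=
  le_bot_iff.1 ((le_inv hm g _ _).1 bot_le)

lemma inv_fix {g : Γ} {x : X} (h : g • x = x) : g⁻¹ • x = x := by
  rw [inv_smul_eq_iff, h]

lemma pow_fix {g : Γ} {x : X} (h : g • x = x) (k : ℕ) : g ^ k • x = x := by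
  induction k with
  | zero => simp
  | succ k ih => rw [pow_succ, mul_smul, h, ih]

lemma pow_up (hm : Mono Γ X) {h : Γ} {q : X} (hq : q ≤ h • q) (k : ℕ) : q ≤ h ^ k • q := by
  induction k with
  | zero => simp
  | succ k ih => rw [pow_succ', mul_smul]; exact hq.trans (hm _ _ _ ih)

lemma pow_dn (hm : Mono Γ X) {h : Γ} {q : X} (hq : h • q ≤ q) (k : ℕ) : h ^ k • q ≤ q := by
  induction k with
  | zero => simp
  | succ k ih => rw [pow_succ', mul_smul]; exact (hm _ _ _ ih).trans hq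

lemma pow_up' (hm : Mono Γ X) {h : Γ} {q : X} (hq : q ≤ h • q) {j k : ℕ} (hjk : j ≤ k) :
    h ^ j • q ≤ h ^ k • q := by
  obtain ⟨d, rfl⟩ := Nat.exists_eq_add_of_le hjk
  rw [pow_add, mul_smul]; exact hm _ _ _ (pow_up hm hq d)

lemma pow_dn' (hm : Mono Γ X) {h : Γ} {q : X} (hq : h • q ≤ q) {j k : ℕ} (hjk : j ≤ k) :
    h ^ k • q ≤ h ^ j • q := by
  obtain ⟨d, rfl⟩ := Nat.exists_eq_add_of_le hjk
  rw [pow_add, mul_smul]; exact hm _ _ _ (pow_dn hm hq d)

/-- upper end of the bump -/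
noncomputable def up (h : Γ) (q : X) : X := ⨆ k : ℕ, h ^ k • q
/-- lower end of the bump -/
noncomputable def dn (h : Γ) (q : X) : X := ⨅ k : ℕ, h⁻¹ ^ k • q

lemma le_up (h : Γ) (q : X) (k : ℕ) : h ^ k • q ≤ up h q := le_iSup (fun k : ℕ => h ^ k • q) k
lemma dn_le (h : Γ) (q : X) (k : ℕ) : dn h q ≤ h⁻¹ ^ k • q := iInf_le (fun k : ℕ => h⁻¹ ^ k • q) k

lemma up_fix (hm : Mono Γ X) {h : Γ} {q : X} (hq : q ≤ h • q) : h • up h q = up h q := by
  apply le_antisymm
  · rw [← le_inv hm]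
    refine iSup_le fun k => ?_
    rw [le_inv hm, ← mul_smul, ← pow_succ']; exact le_up _ _ _
  · refine iSup_le fun k => ?_
    refine (pow_up' hm hq (Nat.le_succ k)).trans ?_
    rw [pow_succ', mul_smul]; exact hm _ _ _ (le_up _ _ _)

lemma dn_fix (hm : Mono Γ X) {h : Γ} {q : X} (hq : q ≤ h • q) : h • dn h q = dn h q := by
  have hq' : h⁻¹ • q ≤ q := (inv_le hm _ _ _).2 hq
  apply le_antisymm
  · refine le_iInf fun k => ?_
    rw [← le_inv hm, ← mul_smul, ← pow_succ']; exact dn_le _ _ _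
  · rw [← inv_le hm]
    refine le_iInf fun k => ?_
    have : h⁻¹ • dn h q ≤ h⁻¹ • h⁻¹ ^ k • q := hm _ _ _ (dn_le _ _ _)
    refine this.trans ?_
    rw [← mul_smul, ← pow_succ']; exact pow_dn' hm hq' (Nat.le_succ k)

lemma reach (hm : Mono Γ X) {h : Γ} {q w w' : X} (h1 : dn h q < w) (h2 : w' < up h q) :
    ∃ k : ℕ, w' < h ^ k • w := by
  obtain ⟨k, hk⟩ := iInf_lt_iff.1 h1
  obtain ⟨j, hj⟩ := lt_iSup_iff.1 h2
  refine ⟨j + k, hj.trans ?_⟩
  rw [pow_add, mul_smul, lt_iff hm, ← inv_lt hm, ← inv_pow]; exact hk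

lemma bump (hm : Mono Γ X) {h : Γ} {q w : X} (h1 : dn h q < w) (h2 : w < up h q) : w < h • w := by
  obtain ⟨k, hk⟩ := reach hm h1 h2
  by_contra hc
  exact absurd (pow_dn hm (not_lt.1 hc) k) (not_le.2 hk)

lemma iter_inv {n : ℕ} (he : Eng n Γ) (P : Γ → Prop) (s y : Γ) (h0 : P s)
    (hs : ∀ t, P t → P (t⁻¹ * y⁻¹ * t * y)) : P 1 := by
  have : ∀ k : ℕ, P ((fun z : Γ => z⁻¹ * y⁻¹ * z * y)^[k] s) := by
    intro k
    induction k with
    | zero => exact h0
    | succ k ih => rw [Function.iterate_succ_apply']; exact hs _ ih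
  rw [← he s y]; exact this n

lemma endU (hm : Mono Γ X) {n : ℕ} (he : Eng n Γ) {y s : Γ} {a d : X} (had : a < d)
    (ha : y • a = a) (hd : y • d = d) (hb : ∀ w, a < w → w < d → w < y • w) (hs : s • a = a) :
    s • d = d := by
  have key : ∀ s : Γ, s • a = a → ¬ s • d < d := by
    intro s hs hlt
    have := iter_inv he (fun t => t • a = a ∧ t • d < d) s y ⟨hs, hlt⟩ (by
      rintro t ⟨h1, h2⟩
      refine ⟨by simp only [mul_smul]; rw [ha, h1, inv_fix ha, inv_fix h1], ?_⟩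
      simp only [mul_smul]
      rw [hd, inv_lt hm, inv_lt hm]
      refine hb _ ?_ h2
      rw [← h1, lt_iff hm]; exact had)
    simp at this
  rcases lt_trichotomy (s • d) d with h | h | h
  · exact absurd h (key s hs)
  · exact h
  · exact absurd ((inv_lt hm _ _ _).2 h) (key s⁻¹ (inv_fix hs))

lemma endD (hm : Mono Γ X) {n : ℕ} (he : Eng n Γ) {y s : Γ} {a d : X} (had : a < d)
    (ha : y • a = a) (hd : y • d = d) (hb : ∀ w, a < w → w < d → w < y • w) (hs : s • d = d) :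
    s • a = a := by
  have key : ∀ s : Γ, s • d = d → ¬ a < s • a := by
    intro s hs hlt
    have := iter_inv he (fun t => t • d = d ∧ a < t • a) s y⁻¹ ⟨hs, hlt⟩ (by
      rintro t ⟨h1, h2⟩
      refine ⟨by simp only [mul_smul, inv_inv]; rw [inv_fix hd, h1, hd, inv_fix h1], ?_⟩
      simp only [mul_smul, inv_inv]
      rw [inv_fix ha, lt_inv hm]
      refine hb _ h2 ?_
      rw [← h1, lt_iff hm]; exact had)
    simp at this
  rcases lt_trichotomy (s • a) a with h | h | h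
  · exact absurd ((lt_inv hm _ _ _).2 h) (key s⁻¹ (inv_fix hs))
  · exact h
  · exact absurd h (key s hs)

/-- translation type -/
def TT (X : Type) [CompleteLinearOrder X] [MulAction Γ X] (f : Γ) : Prop :=
  ∃ h : Γ, (h = f ∨ h = f⁻¹) ∧ ∀ w w' : X, ⊥ < w → w' < ⊤ → ∃ k : ℕ, w' < h ^ k • w

/-- fundamental domains -/
def Dom (f h : Γ) (q : X) : Prop := (h = f ∨ h = f⁻¹) ∧ q < h • q

lemma fix_of {f h : Γ} (hh : h = f ∨ h = f⁻¹) {x : X} (hx : h • x = x) : f • x = x := by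
  rcases hh with rfl | rfl
  · exact hx
  · simpa using inv_fix hx

lemma ends (hm : Mono Γ X) {n : ℕ} (he : Eng n Γ) {f0 f1 : Γ}
    (hc : ∀ x : X, f0 • x = x → f1 • x = x → x = ⊥ ∨ x = ⊤) (hT : ¬ TT X f0) {h : Γ} {q : X}
    (hd : Dom f0 h q) : f1 • up h q ≠ up h q ∧ f1 • dn h q ≠ dn h q := by
  have u1 : h • q ≤ up h q := by simpa using le_up h q 1
  have d0 : dn h q ≤ q := by simpa using dn_le h q 0
  have had : dn h q < up h q := d0.trans_lt (hd.2.trans_le u1)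
  have hu := up_fix hm hd.2.le
  have hdn := dn_fix hm hd.2.le
  have both : ¬ (f1 • up h q = up h q ∧ f1 • dn h q = dn h q) := by
    rintro ⟨h1, h2⟩
    have e1 : up h q = ⊤ := by
      rcases hc _ (fix_of hd.1 hu) h1 with h | h
      · rw [h] at had; simp at had
      · exact h
    have e2 : dn h q = ⊥ := by
      rcases hc _ (fix_of hd.1 hdn) h2 with h | h
      · exact h
      · rw [h] at had; simp at had
    exact hT ⟨h, hd.1, fun w w' hw hw' => reach hm (q := q) (e2 ▸ hw) (e1 ▸ hw')⟩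
  constructor
  · intro h1; exact both ⟨h1, endD hm he had hdn hu (fun w a b => bump hm a b) h1⟩
  · intro h2; exact both ⟨endU hm he had hdn hu (fun w a b => bump hm a b) h2, h2⟩

lemma pick (hm : Mono Γ X) {f : Γ} {x : X} (hx : f • x ≠ x) :
    ∃ φ : Γ, (φ = f ∨ φ = f⁻¹) ∧ x < φ • x := by
  rcases lt_or_gt_of_ne hx with h | h
  · exact ⟨f⁻¹, Or.inr rfl, (lt_inv hm _ _ _).2 h⟩
  · exact ⟨f, Or.inl rfl, h⟩

/-- a family of elements eventually carrying every domain of `f` into a domain of `f'` -/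
def Good (X : Type) [CompleteLinearOrder X] [MulAction Γ X] (f f' : Γ) (W : ℕ → Γ) : Prop :=
  ∀ (h : Γ) (q : X), Dom f h q → ∃ (φ : Γ) (p : X), Dom f' φ p ∧ ∃ m0 : ℕ, ∀ m, m0 ≤ m →
    ∀ w, q ≤ w → w ≤ h • q → p ≤ W m • w ∧ W m • w ≤ φ • p

lemma Good.comp {f0 f1 f2 : Γ} {W W' : ℕ → Γ} (h1 : Good X f0 f1 W) (h2 : Good X f1 f2 W') :
    Good X f0 f2 (fun m => W' m * W m) := by
  intro h q hd
  obtain ⟨φ, p, hp, m0, hm0⟩ := h1 h q hd
  obtain ⟨ψ, r, hr, m1, hm1⟩ := h2 φ p hp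
  refine ⟨ψ, r, hr, max m0 m1, fun m hm w a b => ?_⟩
  obtain ⟨c, d⟩ := hm0 m (le_trans (le_max_left _ _) hm) w a b
  simp only [mul_smul]
  exact hm1 m (le_trans (le_max_right _ _) hm) _ c d

lemma step (hm : Mono Γ X) {n : ℕ} (he : Eng n Γ) {f0 f1 : Γ}
    (hc : ∀ x : X, f0 • x = x → f1 • x = x → x = ⊥ ∨ x = ⊤) (hT : ¬ TT X f0) {g : Γ}
    (hg : g = f0 ∨ g = f0⁻¹) : Good X f0 f1 (fun m => g ^ m) := by
  intro h q hd
  obtain ⟨e1, e2⟩ := ends hm he hc hT hd
  have hgh : g = h ∨ g = h⁻¹ := by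
    rcases hg with rfl | rfl <;> rcases hd.1 with rfl | rfl <;> simp
  rcases hgh with rfl | rfl
  · obtain ⟨φ, hφ, hlt⟩ := pick hm e1
    have hlt' : φ⁻¹ • up g q < up g q := (inv_lt hm _ _ _).2 hlt
    obtain ⟨k, hk⟩ := lt_iSup_iff.1 hlt'
    refine ⟨φ, φ⁻¹ • up g q, ⟨hφ, by simpa using hlt'⟩, k, fun m hkm w a b => ⟨?_, ?_⟩⟩
    · exact hk.le.trans ((pow_up' hm hd.2.le hkm).trans (hm _ _ _ a))
    · rw [smul_inv_smul]
      refine (hm _ _ _ b).trans ?_
      rw [← mul_smul, ← pow_succ]; exact le_up _ _ _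
  · obtain ⟨φ, hφ, hlt⟩ := pick hm e2
    obtain ⟨k, hk⟩ := iInf_lt_iff.1 hlt
    have hq' : h⁻¹ • q ≤ q := (inv_le hm _ _ _).2 hd.2.le
    refine ⟨φ, dn h q, ⟨hφ, hlt⟩, k + 1, fun m hkm w a b => ⟨?_, ?_⟩⟩
    · exact (dn_le h q m).trans (hm _ _ _ a)
    · obtain ⟨j, rfl⟩ : ∃ j, m = j + 1 := ⟨m - 1, by omega⟩
      refine (hm _ _ _ b).trans (le_trans ?_ hk.le)
      show h⁻¹ ^ (j + 1) • h • q ≤ _
      rw [pow_succ, mul_smul, inv_smul_smul]
      exact pow_dn' hm hq' (by omega)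

/-- the reduced part of the Engel word -/
def uw (c y : Γ) : ℕ → Γ
  | 0 => c
  | k + 1 => (uw c y k)⁻¹ * y⁻¹ * uw c y k

lemma uw_eq (c y : Γ) (k : ℕ) : ∃ a b : ℤ,
    (fun z : Γ => z⁻¹ * y⁻¹ * z * y)^[k] c = y ^ a * uw c y k * y ^ b := by
  induction k with
  | zero => exact ⟨0, 0, by simp [uw]⟩
  | succ k ih =>
    obtain ⟨a, b, h⟩ := ih
    refine ⟨-b, b + 1, ?_⟩
    rw [Function.iterate_succ_apply', h]
    simp only [uw]
    group

theorem thmA (hm : Mono Γ X) {n : ℕ} (he : Eng n Γ) {f0 f1 : Γ}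
    (hc : ∀ x : X, f0 • x = x → f1 • x = x → x = ⊥ ∨ x = ⊤) (hT : ¬ TT X f0)
    (hq : ∃ q : X, f0 • q ≠ q) : TT X f1 := by
  by_contra hT1
  have hc' : ∀ x : X, f1 • x = x → f0 • x = x → x = ⊥ ∨ x = ⊤ := fun x a b => hc x b a
  have good : ∀ k, Good X f1 f0 (fun m => uw (f1 ^ m) (f0 ^ m) k) ∧
      Good X f1 f0 (fun m => (uw (f1 ^ m) (f0 ^ m) k)⁻¹) := by
    intro k
    induction k with
    | zero =>
      refine ⟨step hm he hc' hT1 (Or.inl rfl), ?_⟩
      have := step hm he hc' hT1 (Or.inr rfl)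
      simpa [uw] using this
    | succ k ih =>
      constructor
      · have := (ih.1.comp (step hm he hc hT (Or.inr rfl))).comp ih.2
        simpa [uw, mul_assoc] using this
      · have := (ih.1.comp (step hm he hc hT (Or.inl rfl))).comp ih.2
        simpa [uw, mul_assoc] using this
  obtain ⟨q, hq⟩ := hq
  obtain ⟨h, hh, hlt⟩ := pick hm hq
  have e1 := (ends hm he hc hT ⟨hh, hlt⟩).1
  have hx : f0 • up h q = up h q := fix_of hh (up_fix hm hlt.le)
  obtain ⟨φ, hφ, hlt'⟩ := pick hm e1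
  obtain ⟨ψ, p, hp, m, hm0⟩ := (good n).1 φ _ ⟨hφ, hlt'⟩
  obtain ⟨c, d⟩ := hm0 m le_rfl _ le_rfl hlt'.le
  obtain ⟨a, b, hab⟩ := uw_eq (f1 ^ m) (f0 ^ m) n
  rw [he] at hab
  have hz : ∀ j : ℤ, (f0 ^ m) ^ j • up h q = up h q := fun j =>
    (MulAction.stabilizer Γ (up h q)).zpow_mem (pow_fix hx m) j
  have hu : uw (f1 ^ m) (f0 ^ m) n = (f0 ^ m) ^ (-a - b) := by
    have : uw (f1 ^ m) (f0 ^ m) n = ((f0 ^ m) ^ a)⁻¹ * ((f0 ^ m) ^ a * uw (f1 ^ m) (f0 ^ m) n *
      (f0 ^ m) ^ b) * ((f0 ^ m) ^ b)⁻¹ := by group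
    rw [this, ← hab]; group
  simp only [hu, hz] at c d
  have hψ : ψ • up h q = up h q := by
    rcases hp.1 with rfl | rfl
    · exact hx
    · exact inv_fix hx
  have : ψ • p = ψ • up h q := le_antisymm (hm _ _ _ c) (hψ.le.trans d)
  have hp2 := hp.2
  rw [this, hψ, ← MulAction.injective ψ this] at hp2
  exact lt_irrefl _ hp2

end act

section ord
variable {H : Type} [Group H] [LinearOrder H]

/-- left translation of lower sets -/
@[reducible] def lowAct (hl : ∀ c a b : H, a ≤ b → c * a ≤ c * b) : MulAction H (LowerSet H) where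
  smul g L := ⟨{x | g⁻¹ * x ∈ L}, fun _ _ hab ha => L.lower (hl _ _ _ hab) ha⟩
  one_smul L := by
    ext x; show (1 : H)⁻¹ * x ∈ L ↔ x ∈ L; simp
  mul_smul g h L := by
    ext x; show (g * h)⁻¹ * x ∈ L ↔ h⁻¹ * (g⁻¹ * x) ∈ L; simp [mul_assoc]

theorem core (hl : ∀ c a b : H, a ≤ b → c * a ≤ c * b) {n : ℕ} (he : Eng n H) {F G : H}
    (hgen : ∀ S : Subgroup H, F ∈ S → G ∈ S → S = ⊤) (h1 : 1 < F) (h2 : F < G)
    (hb : ∀ m : ℕ, 0 < m → G ^ m * F ≤ F * G) : False := by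
  letI := lowAct hl
  have mem : ∀ (g : H) (L : LowerSet H) (x : H), x ∈ g • L ↔ g⁻¹ * x ∈ L := fun _ _ _ => Iff.rfl
  have hm : Mono H (LowerSet H) := fun g x y h z hz => h hz
  have hlt : ∀ c a b : H, a < b → c * a < c * b := fun c a b h =>
    lt_of_le_of_ne (hl c a b h.le) (fun e => h.ne (mul_left_cancel e))
  have iic : ∀ g x : H, g • LowerSet.Iic x = LowerSet.Iic (g * x) := by
    intro g x; ext z
    show g⁻¹ * z ∈ LowerSet.Iic x ↔ z ∈ LowerSet.Iic (g * x)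
    simp only [LowerSet.mem_Iic_iff]
    exact ⟨fun h => by simpa using hl g _ _ h, fun h => by simpa using hl g⁻¹ _ _ h⟩
  have ile : ∀ x y : H, LowerSet.Iic x ≤ LowerSet.Iic y ↔ x ≤ y := fun x y => by
    rw [LowerSet.Iic_le, LowerSet.mem_Iic_iff]
  have ilt : ∀ x y : H, LowerSet.Iic x < LowerSet.Iic y ↔ x < y := fun x y => by
    rw [← not_le, ← not_le, ile]
  have ibot : ∀ x : H, ⊥ < LowerSet.Iic x := fun x => LowerSet.bot_lt_Iic
  have itop : ∀ x : H, LowerSet.Iic x < ⊤ := fun x =>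
    ((ilt x (x * F)).2 (by simpa using hlt x _ _ h1)).trans_le le_top
  have com : ∀ a b : H, (∀ S : Subgroup H, a ∈ S → b ∈ S → S = ⊤) →
      ∀ L : LowerSet H, a • L = L → b • L = L → L = ⊥ ∨ L = ⊤ := by
    intro a b hab L ha hb
    have ht := hab (MulAction.stabilizer H L) ha hb
    by_cases hL : L = ⊥
    · exact Or.inl hL
    · right
      obtain ⟨x, hx⟩ : ∃ x, x ∈ L := by
        by_contra hc
        exact hL (by ext z; simpa using fun h => hc ⟨z, h⟩)
      ext z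
      have : (z * x⁻¹) • L = L := by
        have : z * x⁻¹ ∈ MulAction.stabilizer H L := ht ▸ Subgroup.mem_top _
        exact this
      have h2 : z ∈ (z * x⁻¹) • L := by rw [mem]; simpa using hx
      rw [this] at h2; simpa using h2
  -- translation type for positive elements
  have tt : ∀ a : H, 1 < a → TT (LowerSet H) a → ∀ x y : H, ∃ k : ℕ, y < a ^ k * x := by
    rintro a ha ⟨h, hh, hT⟩ x y
    rcases hh with rfl | rfl
    · obtain ⟨k, hk⟩ := hT _ _ (ibot x) (itop y)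
      exact ⟨k, by rwa [iic, ilt] at hk⟩
    · obtain ⟨k, hk⟩ := hT _ _ (ibot 1) (itop 1)
      have : a⁻¹ • LowerSet.Iic (1 : H) ≤ LowerSet.Iic 1 := by
        rw [inv_le hm, iic, ile]; simpa using ha.le
      exact absurd (pow_dn hm this k) (not_le.2 hk)
  have upx : ∀ a : H, (∀ x y : H, ∃ k : ℕ, y < a ^ k * x) → ∀ x, x < a * x := by
    intro a ha x
    by_contra hc
    obtain ⟨k, hk⟩ := ha x x
    have : a • LowerSet.Iic x ≤ LowerSet.Iic x := by rw [iic, ile]; exact not_lt.1 hc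
    have h3 := pow_dn hm this k
    rw [iic, ile] at h3
    exact absurd h3 (not_le.2 hk)
  have hG : 1 < G := h1.trans h2
  have nT : ¬ TT (LowerSet H) G := by
    intro hT
    obtain ⟨k, hk⟩ := tt G hG hT F (F * G)
    rcases Nat.eq_zero_or_pos k with rfl | hk0
    · have := hlt F _ _ hG
      simp only [pow_zero, one_mul, mul_one] at hk this
      exact lt_asymm hk this
    · exact absurd (hb k hk0) (not_le.2 hk)
  have mv : ∃ q : LowerSet H, G • q ≠ q := ⟨LowerSet.Iic 1, by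
    rw [iic]; exact ((ilt _ _).2 (by simpa using hG)).ne'⟩
  have T1 := thmA hm he (com G F fun S a b => hgen S b a) nT mv
  have T2 := thmA hm he (com G (F⁻¹ * G) fun S a b => hgen S
    (by simpa using S.mul_mem a (S.inv_mem b)) a) nT mv
  have p2 : 1 < F⁻¹ * G := by simpa using hlt F⁻¹ _ _ h2
  have u2 : ∀ x, F * x < G * x := fun x => by
    have := hlt F _ _ (upx _ (tt _ p2 T2) x)
    simpa [mul_assoc] using this
  have cmp : ∀ k : ℕ, F ^ k * F ≤ G ^ k * F := by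
    intro k
    induction k with
    | zero => simp
    | succ k ih =>
      rw [pow_succ', pow_succ', mul_assoc, mul_assoc]
      exact (hl F _ _ ih).trans (u2 _).le
  obtain ⟨k, hk⟩ := tt F h1 T1 F (F * G)
  rcases Nat.eq_zero_or_pos k with rfl | hk0
  · have := hlt F _ _ hG
    simp only [pow_zero, one_mul, mul_one] at hk this
    exact lt_asymm hk this
  · exact absurd ((cmp k).trans (hb k hk0)) (not_le.2 hk)

end ord

/-- Every right order of an Engel group is a Conrad order. -/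
theorem conrad {G : Type} [Group G] {n : ℕ} (he : Eng n G) (r : G → G → Prop)
    (h1 : ∀ a, ¬ r a a) (h2 : ∀ a b c, r a b → r b c → r a c)
    (h3 : ∀ a b, a = b ∨ r a b ∨ r b a) (h4 : ∀ a b c, r a b → r (a * c) (b * c))
    (f g : G) (hf : r 1 f) (hg : r f g) : ∃ m : ℕ, 0 < m ∧ r g (f * g ^ m * f⁻¹) := by
  classical
  by_contra hc
  push Not at hc
  let H := Subgroup.closure ({f⁻¹, g⁻¹} : Set G)
  let s : H → H → Prop := fun a b => r (a : G)⁻¹ (b : G)⁻¹
  haveI : IsStrictTotalOrder H s :=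
    { trichotomous := fun a b hab hba => by
        rcases h3 (a : G)⁻¹ (b : G)⁻¹ with h | h | h
        · exact Subtype.ext (inv_injective h)
        · exact absurd h hab
        · exact absurd h hba
      irrefl := fun a => h1 _
      trans := fun a b c => h2 _ _ _ }
  letI : LinearOrder H := linearOrderOfSTO s
  have lt : ∀ a b : H, a < b ↔ r (a : G)⁻¹ (b : G)⁻¹ := fun a b => Iff.rfl
  have hl : ∀ c a b : H, a ≤ b → c * a ≤ c * b := by
    intro c a b hab
    rcases hab.eq_or_lt with rfl | h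
    · exact le_rfl
    · refine le_of_lt ((lt _ _).2 ?_)
      simpa using h4 _ _ (c : G)⁻¹ ((lt _ _).1 h)
  have heH : Eng n H := by
    intro x y
    apply Subtype.ext
    have : ∀ k : ℕ, (((fun z : H => z⁻¹ * y⁻¹ * z * y)^[k] x : H) : G) =
        (fun z : G => z⁻¹ * (y : G)⁻¹ * z * y)^[k] x := by
      intro k
      induction k with
      | zero => rfl
      | succ k ih => rw [Function.iterate_succ_apply', Function.iterate_succ_apply', ← ih]; simp
    rw [this, he]; rfl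
  let F : H := ⟨f⁻¹, Subgroup.subset_closure (by simp)⟩
  let G' : H := ⟨g⁻¹, Subgroup.subset_closure (by simp)⟩
  refine core hl heH (F := F) (G := G') ?_ ((lt _ _).2 (by simpa [F] using hf))
    ((lt _ _).2 (by simpa [F, G'] using hg)) ?_
  · intro S a b
    rw [eq_top_iff]
    rintro ⟨x, hx⟩ -
    induction hx using Subgroup.closure_induction with
    | mem x hx =>
      rcases hx with rfl | rfl
      · exact a
      · exact b
    | one => exact S.one_mem
    | mul x y _ _ ihx ihy => exact S.mul_mem ihx ihy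
    | inv x _ ih => exact S.inv_mem ih
  · intro m hm
    by_contra hn
    have := (lt _ _).1 (not_le.1 hn)
    apply hc m hm
    simpa [F, G', mul_assoc] using h4 _ _ f⁻¹ this

end Pool.Agent.H3.Engel
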