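import Pool.Agent.H3.Engel

set_option autoImplicit false

namespace Pool.Agent.H3.Engel

theorem holder {Q : Type} [Group Q] [LinearOrder Q] [MulLeftMono Q] [MulRightMono Q]
    (arch : ∀ u x : Q, 1 < u → ∃ k : ℕ, x < u ^ k) (x y : Q) : x * y = y * x := by
  classical
  have fl : ∀ z x : Q, 1 < z → 1 ≤ x → ∃ m : ℕ, z ^ m ≤ x ∧ x < z ^ (m + 1) := by
    intro z x hz hx
    have h := arch z x hz
    have h0 : Nat.find h ≠ 0 := fun e => by
      have := Nat.find_spec h; rw [e, pow_zero] at this; exact absurd hx (not_le.2 this)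
    obtain ⟨m, hm⟩ := Nat.exists_eq_succ_of_ne_zero h0
    refine ⟨m, not_lt.1 (Nat.find_min h (by omega)), ?_⟩
    have := Nat.find_spec h; rwa [hm] at this
  have key : ∀ x y : Q, 1 ≤ x → 1 ≤ y → ¬ y * x < x * y := by
    intro x y hx hy hlt
    have hc : 1 < (y * x)⁻¹ * (x * y) := by rw [lt_inv_mul_iff_mul_lt]; simpa using hlt
    set c := (y * x)⁻¹ * (x * y) with hcd
    have A : ∀ z : Q, 1 < z → ¬ z * z ≤ c := by
      intro z hz hzc
      obtain ⟨m, h1, h2⟩ := fl z x hz hx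
      obtain ⟨k, h3, h4⟩ := fl z y hz hy
      have e1 : x * y < z ^ (m + 1) * z ^ (k + 1) := mul_lt_mul_of_lt_of_lt h2 h4
      have e2 : z ^ k * z ^ m ≤ y * x := mul_le_mul' h3 h1
      have e3 : y * x * (z * z) ≤ x * y := by
        have := mul_le_mul_right hzc (y * x)
        rwa [hcd, mul_inv_cancel_left] at this
      have e4 : z ^ k * z ^ m * (z * z) ≤ y * x * (z * z) := mul_le_mul_left e2 _
      have e5 : z ^ (m + 1) * z ^ (k + 1) = z ^ k * z ^ m * (z * z) := by group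
      rw [e5] at e1
      exact absurd (e4.trans e3) (not_le.2 e1)
    have B : ∀ w : Q, 1 < w → ¬ w < c := by
      intro w hw hwc
      have h2 : 1 < w⁻¹ * c := by rw [lt_inv_mul_iff_mul_lt]; simpa using hwc
      refine A (min w (w⁻¹ * c)) (lt_min hw h2) ?_
      have := mul_le_mul' (min_le_left w (w⁻¹ * c)) (min_le_right w (w⁻¹ * c))
      rwa [mul_inv_cancel_left] at this
    have C : ∀ x : Q, 1 ≤ x → ∃ m : ℕ, x = c ^ m := by
      intro x hx
      obtain ⟨m, h1, h2⟩ := fl c x hc hx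
      refine ⟨m, ?_⟩
      by_contra hne
      refine B ((c ^ m)⁻¹ * x) ?_ ?_
      · rw [lt_inv_mul_iff_mul_lt]; simpa using lt_of_le_of_ne h1 (Ne.symm hne)
      · rw [inv_mul_lt_iff_lt_mul, ← pow_succ]; exact h2
    obtain ⟨m, hm⟩ := C x hx
    obtain ⟨k, hk⟩ := C y hy
    have : y * x = x * y := by rw [hm, hk, ← pow_add, ← pow_add, add_comm]
    exact absurd hlt (by rw [this]; exact lt_irrefl _)
  have pos : ∀ x y : Q, 1 ≤ x → 1 ≤ y → Commute x y := fun x y hx hy =>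
    le_antisymm (not_lt.1 (key x y hx hy)) (not_lt.1 (key y x hy hx))
  have half : ∀ x y : Q, 1 ≤ x → Commute x y := by
    intro x y hx
    rcases le_total 1 y with h | h
    · exact pos x y hx h
    · simpa using (pos x y⁻¹ hx (one_le_inv'.2 h)).inv_right
  rcases le_total 1 x with h | h
  · exact half x y h
  · simpa using (half x⁻¹ y (one_le_inv'.2 h)).inv_left.eq

section ord
variable {H : Type} [Group H] [LinearOrder H]

/-- cofinal translation -/
def PT (u : H) : Prop := ∀ x y : H, ∃ k : ℕ, y < u ^ k * x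

lemma hlt' (hl : ∀ c a b : H, a ≤ b → c * a ≤ c * b) (c a b : H) (h : a < b) : c * a < c * b :=
  lt_of_le_of_ne (hl c a b h.le) (fun e => h.ne (mul_left_cancel e))

lemma PT.upx (hl : ∀ c a b : H, a ≤ b → c * a ≤ c * b) {u : H} (h : PT u) (x : H) : x < u * x := by
  by_contra hc
  obtain ⟨k, hk⟩ := h x x
  have : ∀ k : ℕ, u ^ k * x ≤ x := by
    intro k
    induction k with
    | zero => simp
    | succ k ih => rw [pow_succ', mul_assoc]; exact (hl u _ _ ih).trans (not_lt.1 hc)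
  exact absurd (this k) (not_le.2 hk)

lemma PT.pos (hl : ∀ c a b : H, a ≤ b → c * a ≤ c * b) {u : H} (h : PT u) : 1 < u := by
  simpa using h.upx hl 1

lemma PT.mul (hl : ∀ c a b : H, a ≤ b → c * a ≤ c * b) {u v : H} (h : PT u) (h' : PT v) :
    PT (u * v) := by
  intro x y
  obtain ⟨k, hk⟩ := h x y
  refine ⟨k, hk.trans_le ?_⟩
  clear hk
  induction k with
  | zero => simp
  | succ k ih =>
    rw [pow_succ', pow_succ', mul_assoc, mul_assoc, mul_assoc]
    exact hl u _ _ (ih.trans (h'.upx hl _).le)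

lemma PT.conj (hl : ∀ c a b : H, a ≤ b → c * a ≤ c * b) {u : H} (h : PT u) (g : H) :
    PT (g * u * g⁻¹) := by
  intro x y
  obtain ⟨k, hk⟩ := h (g⁻¹ * x) (g⁻¹ * y)
  refine ⟨k, ?_⟩
  have := hlt' hl g _ _ hk
  rw [conj_pow]
  simpa [mul_assoc] using this

lemma neg_inv (hl : ∀ c a b : H, a ≤ b → c * a ≤ c * b) {u : H} (h : u < 1) : 1 < u⁻¹ := by
  simpa using hlt' hl u⁻¹ _ _ h

lemma not_both (hl : ∀ c a b : H, a ≤ b → c * a ≤ c * b) {u : H} (h : 1 < u) : ¬ PT u⁻¹ := by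
  intro h'
  have := hlt' hl u _ _ (h'.pos hl)
  simp only [mul_one, mul_inv_cancel] at this
  exact lt_asymm h this

theorem thmB (hl : ∀ c a b : H, a ≤ b → c * a ≤ c * b) {n : ℕ} (he : Eng n H) {a b : H}
    (ha : a ≠ 1) (hc : ∀ L : Set H, IsLowerSet L → (∀ x, x ∈ L ↔ a * x ∈ L) →
      (∀ x, x ∈ L ↔ b * x ∈ L) → ∀ x ∈ L, ∀ y, y ∈ L) :
    (PT a ∨ PT a⁻¹) ∨ (PT b ∨ PT b⁻¹) := by
  letI := lowAct hl
  have hm : Mono H (LowerSet H) := fun g x y h z hz => h hz
  obtain ⟨F, h1⟩ : ∃ F : H, 1 < F := by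
    rcases lt_or_gt_of_ne ha with h | h
    · exact ⟨_, neg_inv hl h⟩
    · exact ⟨_, h⟩
  have iic : ∀ g x : H, g • LowerSet.Iic x = LowerSet.Iic (g * x) := by
    intro g x; ext z
    show g⁻¹ * z ∈ LowerSet.Iic x ↔ z ∈ LowerSet.Iic (g * x)
    simp only [LowerSet.mem_Iic_iff]
    exact ⟨fun h => by simpa using hl g _ _ h, fun h => by simpa using hl g⁻¹ _ _ h⟩
  have ile : ∀ x y : H, LowerSet.Iic x ≤ LowerSet.Iic y ↔ x ≤ y := fun x y => by
    rw [LowerSet.Iic_le, LowerSet.mem_Iic_iff]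
  have ilt : ∀ x y : H, LowerSet.Iic x < LowerSet.Iic y ↔ x < y := fun x y => by
    rw [← not_le, ← not_le, ile]
  have ibot : ∀ x : H, ⊥ < LowerSet.Iic x := fun x => LowerSet.bot_lt_Iic
  have itop : ∀ x : H, LowerSet.Iic x < ⊤ := fun x =>
    ((ilt x (x * F)).2 (by simpa using hlt' hl x _ _ h1)).trans_le le_top
  have tt : ∀ a : H, TT (LowerSet H) a → PT a ∨ PT a⁻¹ := by
    rintro a ⟨h, hh, hT⟩
    have : PT h := fun x y => by
      obtain ⟨k, hk⟩ := hT _ _ (ibot x) (itop y)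
      exact ⟨k, by rwa [iic, ilt] at hk⟩
    rcases hh with rfl | rfl
    · exact Or.inl this
    · exact Or.inr this
  by_cases hT : TT (LowerSet H) a
  · exact Or.inl (tt a hT)
  · refine Or.inr (tt b (thmA hm he ?_ hT ⟨LowerSet.Iic 1, ?_⟩))
    · intro L h1 h2
      have fx : ∀ g : H, g • L = L → ∀ x, x ∈ L ↔ g * x ∈ L := by
        intro g hg x
        have : g * x ∈ g • L ↔ g⁻¹ * (g * x) ∈ L := Iff.rfl
        rw [hg] at this; simpa using this.symm
      by_cases hL : L = ⊥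
      · exact Or.inl hL
      · right
        obtain ⟨x, hx⟩ : ∃ x, x ∈ L := by
          by_contra hc
          exact hL (by ext z; simpa using fun h => hc ⟨z, h⟩)
        ext z
        simpa using hc L L.lower (fx a h1) (fx b h2) x hx z
    · rw [iic]; intro e
      exact ha (le_antisymm (by simpa using (ile _ _).1 e.le) (by simpa using (ile _ _).1 e.ge))

lemma inv_gen {a b : H} (hab : ∀ S : Subgroup H, a ∈ S → b ∈ S → S = ⊤) (L : Set H)
    (h1 : ∀ x, x ∈ L ↔ a * x ∈ L) (h2 : ∀ x, x ∈ L ↔ b * x ∈ L) : ∀ x ∈ L, ∀ y, y ∈ L := by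
  let S : Subgroup H :=
    { carrier := {g | ∀ x, x ∈ L ↔ g * x ∈ L}
      one_mem' := fun x => by simp
      mul_mem' := fun {g h} hg hh x => by rw [mul_assoc, ← hg, ← hh]
      inv_mem' := fun {g} hg x => by rw [hg (g⁻¹ * x)]; simp }
  intro x hx y
  have : y * x⁻¹ ∈ S := hab S h1 h2 ▸ Subgroup.mem_top _
  simpa using (this x).1 hx

theorem gen2 (hl : ∀ c a b : H, a ≤ b → c * a ≤ c * b) {n : ℕ} (he : Eng n H) {F G : H}
    (hgen : ∀ S : Subgroup H, F ∈ S → G ∈ S → S = ⊤) (h1 : 1 < F) (h2 : F ≤ G) : PT G := by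
  have hG : 1 < G := h1.trans_le h2
  by_contra hn
  have nG : ¬ (PT G ∨ PT G⁻¹) := fun h => h.elim hn (not_both hl hG)
  have T1 : PT F := ((thmB hl he hG.ne' fun L _ => inv_gen (fun S a b => hgen S b a) L).resolve_left
    nG).resolve_right (not_both hl h1)
  rcases h2.eq_or_lt with rfl | h2
  · exact hn T1
  have p2 : 1 < F⁻¹ * G := by simpa using hlt' hl F⁻¹ _ _ h2
  have T2 : PT (F⁻¹ * G) := ((thmB hl he hG.ne' fun L _ => inv_gen (fun S a b => hgen S
    (by simpa using S.mul_mem a (S.inv_mem b)) a) L).resolve_left nG).resolve_right (not_both hl p2)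
  exact hn (by simpa using T1.mul hl T2)

lemma eng_sub {G : Type} [Group G] {n : ℕ} (he : Eng n G) (K : Subgroup G) : Eng n K := by
  intro x y
  apply Subtype.ext
  have : ∀ k : ℕ, (((fun z : K => z⁻¹ * y⁻¹ * z * y)^[k] x : K) : G) =
      (fun z : G => z⁻¹ * (y : G)⁻¹ * z * y)^[k] x := by
    intro k
    induction k with
    | zero => rfl
    | succ k ih => rw [Function.iterate_succ_apply', Function.iterate_succ_apply', ← ih]; simp
  rw [this, he]; rfl

theorem bnd (hl : ∀ c a b : H, a ≤ b → c * a ≤ c * b) {n : ℕ} (he : Eng n H) {F G : H}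
    (h1 : 1 < F) (h2 : F ≤ G) {x : H} (hx : x ∈ Subgroup.closure ({F, G} : Set H)) :
    ∃ k : ℕ, x < G ^ k := by
  let K := Subgroup.closure ({F, G} : Set H)
  let F' : K := ⟨F, Subgroup.subset_closure (by simp)⟩
  let G' : K := ⟨G, Subgroup.subset_closure (by simp)⟩
  have := gen2 (H := K) (fun c a b h => hl c a b h) (eng_sub he K) (F := F') (G := G') (by
    intro S a b
    rw [eq_top_iff]
    rintro ⟨x, hx⟩ -
    induction hx using Subgroup.closure_induction with
    | mem x hx =>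
      rcases hx with rfl | rfl
      · exact a
      · exact b
    | one => exact S.one_mem
    | mul x y _ _ ihx ihy => exact S.mul_mem ihx ihy
    | inv x _ ih => exact S.inv_mem ih) h1 h2
  obtain ⟨k, hk⟩ := this 1 ⟨x, hx⟩
  rw [mul_one] at hk
  exact ⟨k, hk⟩

lemma pw_mono (hl : ∀ c a b : H, a ≤ b → c * a ≤ c * b) {a : H} (ha : 1 ≤ a) {j k : ℕ}
    (h : j ≤ k) : a ^ j ≤ a ^ k := by
  induction k, h using Nat.le_induction with
  | base => exact le_rfl
  | succ k _ ih => rw [pow_succ]; exact ih.trans (by simpa using hl (a ^ k) _ _ ha)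

lemma bnd2 (hl : ∀ c a b : H, a ≤ b → c * a ≤ c * b) {n : ℕ} (he : Eng n H) {A x : H}
    (h1 : x ≤ A) (h2 : x⁻¹ ≤ A) : ∃ m : ℕ, x * A ≤ A ^ m := by
  rcases lt_trichotomy x 1 with h | rfl | h
  · obtain ⟨k, hk⟩ := bnd hl he (neg_inv hl h) h2 (x := x * A) (Subgroup.mul_mem _
      (by simpa using Subgroup.inv_mem _ (Subgroup.subset_closure (k := {x⁻¹, A}) (a := x⁻¹)
        (by simp))) (Subgroup.subset_closure (by simp)))
    exact ⟨k, hk.le⟩
  · exact ⟨1, by simp⟩
  · obtain ⟨k, hk⟩ := bnd hl he h h1 (x := x * A) (Subgroup.mul_mem _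
      (Subgroup.subset_closure (by simp)) (Subgroup.subset_closure (by simp)))
    exact ⟨k, hk.le⟩

/-- elements dominated by powers of `a` -/
def dom (hl : ∀ c a b : H, a ≤ b → c * a ≤ c * b) {n : ℕ} (he : Eng n H) {a : H} (ha : 1 ≤ a) :
    Subgroup H where
  carrier := {x | ∃ k : ℕ, x ≤ a ^ k ∧ x⁻¹ ≤ a ^ k}
  one_mem' := ⟨0, by simp⟩
  inv_mem' := fun ⟨k, h1, h2⟩ => ⟨k, h2, by simpa using h1⟩
  mul_mem' := by
    rintro x y ⟨j, h1, h2⟩ ⟨k, h3, h4⟩
    have e1 := pw_mono hl ha (le_max_left j k)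
    have e2 := pw_mono hl ha (le_max_right j k)
    obtain ⟨m, hm⟩ := bnd2 hl he (h1.trans e1) (h2.trans e1)
    obtain ⟨m', hm'⟩ := bnd2 hl he (h4.trans e2) (by simpa using h3.trans e2)
    rw [← pow_mul] at hm hm'
    refine ⟨max (max j k * m) (max j k * m'), ?_, ?_⟩
    · exact ((hl x _ _ (h3.trans e2)).trans hm).trans (pw_mono hl ha (le_max_left _ _))
    · rw [mul_inv_rev]
      exact ((hl y⁻¹ _ _ (h2.trans e1)).trans hm').trans (pw_mono hl ha (le_max_right _ _))

/-- an element whose powers are cofinal is a cofinal translation -/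
theorem pt_of (hl : ∀ c a b : H, a ≤ b → c * a ≤ c * b) {n : ℕ} (he : Eng n H) {a z : H}
    (h : ∀ y, ∃ k : ℕ, y < a ^ k * z) : PT a := by
  letI := lowAct hl
  have hm : Mono H (LowerSet H) := fun g x y h z hz => h hz
  have iic : ∀ g x : H, g • LowerSet.Iic x = LowerSet.Iic (g * x) := by
    intro g x; ext z
    show g⁻¹ * z ∈ LowerSet.Iic x ↔ z ∈ LowerSet.Iic (g * x)
    simp only [LowerSet.mem_Iic_iff]
    exact ⟨fun h => by simpa using hl g _ _ h, fun h => by simpa using hl g⁻¹ _ _ h⟩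
  have ile : ∀ x y : H, LowerSet.Iic x ≤ LowerSet.Iic y ↔ x ≤ y := fun x y => by
    rw [LowerSet.Iic_le, LowerSet.mem_Iic_iff]
  have ilt : ∀ x y : H, LowerSet.Iic x < LowerSet.Iic y ↔ x < y := fun x y => by
    rw [← not_le, ← not_le, ile]
  have hz : z < a * z := by
    by_contra hc
    obtain ⟨k, hk⟩ := h z
    have := pow_dn hm (h := a) (q := LowerSet.Iic z) (by rw [iic, ile]; exact not_lt.1 hc) k
    rw [iic, ile] at this
    exact absurd this (not_le.2 hk)
  have hq : LowerSet.Iic z < a • LowerSet.Iic z := by rw [iic, ilt]; exact hz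
  have hup : ∀ y, LowerSet.Iic y < up a (LowerSet.Iic z) := fun y => by
    obtain ⟨k, hk⟩ := h y
    refine lt_of_lt_of_le ?_ (le_up a _ k)
    rwa [iic, ilt]
  have htop : up a (LowerSet.Iic z) = ⊤ := by
    ext y
    simpa using (LowerSet.Iic_le.1 (hup y).le)
  have d0 : dn a (LowerSet.Iic z) ≤ LowerSet.Iic z := by simpa using dn_le a (LowerSet.Iic z) 0
  have hall : ∀ s : H, s • dn a (LowerSet.Iic z) = dn a (LowerSet.Iic z) := fun s =>
    endD hm he (d0.trans_lt (hup z)) (dn_fix hm hq.le) (up_fix hm hq.le)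
      (fun w a b => bump hm a b) (by rw [htop]; exact top_fix hm s)
  intro x y
  have hx : dn a (LowerSet.Iic z) < LowerSet.Iic x := by
    by_contra hc
    have h1 := hm (a * z * x⁻¹) _ _ (not_lt.1 hc)
    rw [hall, iic] at h1
    have := (ile _ _).1 (h1.trans d0)
    simp only [inv_mul_cancel_right] at this
    exact absurd this (not_le.2 hz)
  obtain ⟨k, hk⟩ := reach hm hx (hup y)
  exact ⟨k, by rwa [iic, ilt] at hk⟩

/-- elements that are not cofinal translations -/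
def nsub (hl : ∀ c a b : H, a ≤ b → c * a ≤ c * b) {n : ℕ} (he : Eng n H) : Subgroup H where
  carrier := {u | ¬ PT u ∧ ¬ PT u⁻¹}
  one_mem' := ⟨fun h => lt_irrefl _ (h.pos hl), fun h => by simpa using h.pos hl⟩
  inv_mem' := fun ⟨h1, h2⟩ => ⟨h2, by simpa using h1⟩
  mul_mem' := by
    have key : ∀ a b : H, (¬ PT a ∧ ¬ PT a⁻¹) → (¬ PT b ∧ ¬ PT b⁻¹) → ¬ PT (a * b) := by
      intro a b ha hb hab
      by_cases h1 : a = 1
      · exact hb.1 (by simpa [h1] using hab)
      rcases thmB hl he (b := b) h1 (fun L hL h1 h2 x hx y => by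
        obtain ⟨k, hk⟩ := hab x y
        refine hL hk.le ?_
        clear hk
        induction k with
        | zero => simpa using hx
        | succ k ih => rw [pow_succ', mul_assoc, mul_assoc, ← h1, ← h2]; exact ih) with
        (h | h) | (h | h)
      · exact ha.1 h
      · exact ha.2 h
      · exact hb.1 h
      · exact hb.2 h
    intro a b ha hb
    refine ⟨key a b ha hb, ?_⟩
    rw [mul_inv_rev]
    exact key _ _ ⟨hb.2, by simpa using hb.1⟩ ⟨ha.2, by simpa using ha.1⟩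

theorem indic (hl : ∀ c a b : H, a ≤ b → c * a ≤ c * b) {n : ℕ} (he : Eng n H) [Nontrivial H]
    (hfg : Group.FG H) : ∃ φ : H →* Multiplicative ℤ, Function.Surjective φ := by
  classical
  obtain ⟨a, ha⟩ : ∃ a : H, PT a := by
    obtain ⟨S, hS⟩ := hfg.out
    obtain ⟨a, h1, h2⟩ : ∃ a : H, 1 < a ∧ ∀ s ∈ S, s ≤ a ∧ s⁻¹ ≤ a := by
      clear hS
      induction S using Finset.induction_on with
      | empty =>
        obtain ⟨x, hx⟩ := exists_ne (1 : H)
        rcases lt_or_gt_of_ne hx with h | h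
        · exact ⟨_, neg_inv hl h, by simp⟩
        · exact ⟨_, h, by simp⟩
      | insert s S _ ih =>
        obtain ⟨a, h1, h2⟩ := ih
        refine ⟨max a (max s s⁻¹), lt_max_of_lt_left h1, fun t ht => ?_⟩
        rcases Finset.mem_insert.1 ht with rfl | ht
        · simp
        · exact ⟨le_max_of_le_left (h2 t ht).1, le_max_of_le_left (h2 t ht).2⟩
    have ht : ⊤ ≤ dom hl he h1.le := by
      rw [← hS, Subgroup.closure_le]
      exact fun s hs => ⟨1, by simpa using h2 s hs⟩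
    refine ⟨a, pt_of hl he (z := 1) fun y => ?_⟩
    obtain ⟨k, hk, -⟩ := ht (Subgroup.mem_top y)
    exact ⟨k + 1, hk.trans_lt (by simpa [pow_succ] using hlt' hl (a ^ k) _ _ h1)⟩
  let N := nsub hl he
  have memN : ∀ u, u ∈ N ↔ ¬ PT u ∧ ¬ PT u⁻¹ := fun u => Iff.rfl
  haveI : N.Normal := ⟨fun u hu g => ⟨fun h => hu.1 (by simpa [mul_assoc] using h.conj hl g⁻¹),
    fun h => hu.2 (by simpa [mul_assoc] using h.conj hl g⁻¹)⟩⟩
  have PN : ∀ u v, PT u → v ∈ N → PT (u * v) := by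
    intro u v hu hv
    by_contra h
    by_cases h' : PT (u * v)⁻¹
    · exact hv.2 (by simpa using h'.mul hl hu)
    · exact (N.mul_mem (show u * v ∈ N from ⟨h, h'⟩) (N.inv_mem hv)).1 (by simpa using hu)
  let Pq : H ⧸ N → Prop := fun q => ∃ u : H, PT u ∧ (u : H ⧸ N) = q
  have Pq_mk : ∀ u : H, Pq u ↔ PT u := fun u => ⟨fun ⟨v, hv, e⟩ => by
    simpa using PN v _ hv (QuotientGroup.eq.1 e), fun h => ⟨u, h, rfl⟩⟩
  have Pmul : ∀ p q, Pq p → Pq q → Pq (p * q) := by
    rintro _ _ ⟨u, hu, rfl⟩ ⟨v, hv, rfl⟩; exact ⟨u * v, hu.mul hl hv, rfl⟩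
  have Pconj : ∀ p g, Pq p → Pq (g * p * g⁻¹) := by
    rintro _ g ⟨u, hu, rfl⟩
    obtain ⟨g, rfl⟩ := QuotientGroup.mk_surjective g
    exact ⟨_, hu.conj hl g, rfl⟩
  have P1 : ¬ Pq 1 := fun h => lt_irrefl _ (((Pq_mk 1).1 h).pos hl)
  haveI : IsStrictTotalOrder (H ⧸ N) (fun p q => Pq (p⁻¹ * q)) :=
    { trichotomous := fun p q h1 h2 => by
        obtain ⟨p, rfl⟩ := QuotientGroup.mk_surjective p
        obtain ⟨q, rfl⟩ := QuotientGroup.mk_surjective q
        refine QuotientGroup.eq.2 ⟨fun h => h1 ((Pq_mk _).2 h), fun h => h2 ?_⟩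
        exact (Pq_mk (q⁻¹ * p)).2 (by simpa using h)
      irrefl := fun p => by simpa using P1
      trans := fun p q r h1 h2 => by simpa [mul_assoc] using Pmul _ _ h1 h2 }
  letI : LinearOrder (H ⧸ N) := linearOrderOfSTO (fun p q => Pq (p⁻¹ * q))
  have lt : ∀ p q : H ⧸ N, p < q ↔ Pq (p⁻¹ * q) := fun _ _ => Iff.rfl
  haveI : MulLeftMono (H ⧸ N) := ⟨fun c p q h => by
    rcases h.eq_or_lt with rfl | h
    · exact le_rfl
    · exact le_of_lt ((lt _ _).2 (by simpa [mul_assoc] using (lt _ _).1 h))⟩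
  haveI : MulRightMono (H ⧸ N) := ⟨fun c p q h => by
    rcases h.eq_or_lt with rfl | h
    · exact le_rfl
    · exact le_of_lt ((lt _ _).2 (by
        simpa [mul_assoc, Function.swap] using Pconj _ c⁻¹ ((lt _ _).1 h)))⟩
  have arch : ∀ u x : H ⧸ N, 1 < u → ∃ k : ℕ, x < u ^ k := by
    intro u x hu
    obtain ⟨x, rfl⟩ := QuotientGroup.mk_surjective x
    obtain ⟨u, hu', rfl⟩ : Pq u := by simpa using (lt _ _).1 hu
    obtain ⟨k, hk⟩ := hu' 1 x
    have h1 : 1 < x⁻¹ * u ^ k := by simpa using hlt' hl x⁻¹ _ _ hk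
    have h2 : (x : H ⧸ N) ≤ (u : H ⧸ N) ^ k := not_lt.1 fun h => not_both hl h1 (by
      have := (Pq_mk ((u ^ k)⁻¹ * x)).1 ((lt _ _).1 h)
      simpa using this)
    exact ⟨k + 1, h2.trans_lt (by rw [pow_succ]; exact lt_mul_of_one_lt_right' _ hu)⟩
  letI : CommGroup (H ⧸ N) := { (inferInstance : Group (H ⧸ N)) with mul_comm := holder arch }
  haveI : IsMulTorsionFree (H ⧸ N) := ⟨fun k hk p q e => by
    rcases lt_trichotomy p q with h | h | h
    · exact absurd e (pow_lt_pow_left' hk h).ne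
    · exact h
    · exact absurd e (pow_lt_pow_left' hk h).ne'⟩
  haveI : Nontrivial (H ⧸ N) := ⟨a, 1, fun e => P1 (e ▸ (Pq_mk a).2 ha)⟩
  haveI : Module.Finite ℤ (Additive (H ⧸ N)) := Module.Finite.iff_addGroup_fg.2 inferInstance
  let b := Module.Free.chooseBasis ℤ (Additive (H ⧸ N))
  obtain ⟨i⟩ := b.index_nonempty
  refine ⟨(AddMonoidHom.toMultiplicativeRight (b.coord i).toAddMonoidHom).comp
    (QuotientGroup.mk' N), fun t => ?_⟩
  obtain ⟨g, hg⟩ := QuotientGroup.mk_surjective (Additive.toMul (t.toAdd • b i))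
  refine ⟨g, ?_⟩
  simp [hg]

end ord

/-- Right-orderable Engel groups are locally indicable. -/
theorem locind {G : Type} [Group G] {n : ℕ} (he : Eng n G) (r : G → G → Prop)
    (h1 : ∀ a, ¬ r a a) (h2 : ∀ a b c, r a b → r b c → r a c)
    (h3 : ∀ a b, a = b ∨ r a b ∨ r b a) (h4 : ∀ a b c, r a b → r (a * c) (b * c))
    (H : Subgroup G) (hfg : H.FG) (hne : H ≠ ⊥) :
    ∃ φ : H →* Multiplicative ℤ, Function.Surjective φ := by
  classical
  let s : H → H → Prop := fun a b => r (a : G)⁻¹ (b : G)⁻¹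
  haveI : IsStrictTotalOrder H s :=
    { trichotomous := fun a b hab hba => by
        rcases h3 (a : G)⁻¹ (b : G)⁻¹ with h | h | h
        · exact Subtype.ext (inv_injective h)
        · exact absurd h hab
        · exact absurd h hba
      irrefl := fun a => h1 _
      trans := fun a b c => h2 _ _ _ }
  letI : LinearOrder H := linearOrderOfSTO s
  have lt : ∀ a b : H, a < b ↔ r (a : G)⁻¹ (b : G)⁻¹ := fun a b => Iff.rfl
  have hl : ∀ c a b : H, a ≤ b → c * a ≤ c * b := by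
    intro c a b hab
    rcases hab.eq_or_lt with rfl | h
    · exact le_rfl
    · refine le_of_lt ((lt _ _).2 ?_)
      simpa using h4 _ _ (c : G)⁻¹ ((lt _ _).1 h)
  haveI : Nontrivial H := (Subgroup.nontrivial_iff_ne_bot H).2 hne
  exact indic hl (eng_sub he H) ((Group.fg_iff_subgroup_fg H).2 hfg)

end Pool.Agent.H3.Engel
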