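import Mathlib

set_option autoImplicit false

namespace Pool.Agent.H3.EntE

open Complex Set Metric Filter Topology

/-- The left half-plane together with the horizontal lines at heights in 2πℤ. -/
def E : Set ℂ := {z | z.re ≤ 0} ∪ {z | Real.cos z.im = 1}

lemma closed_E : IsClosed E :=
  (isClosed_le Complex.continuous_re continuous_const).union
    (isClosed_eq (Real.continuous_cos.comp Complex.continuous_im) continuous_const)

lemma const_of_poly (F : ℂ → ℂ) (h0 : ∀ z, F z ≠ 0) (hp : ∃ p : Polynomial ℂ, ∀ z, F z = p.eval z)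
    (a b : ℂ) : F a = F b := by
  obtain ⟨p, hp⟩ := hp
  have hdeg : p.degree ≤ 0 := by
    by_contra hlt
    obtain ⟨z, hz⟩ := Complex.exists_root (not_le.mp hlt)
    exact h0 z (by rw [hp]; exact hz)
  rw [hp, hp, Polynomial.eq_C_of_degree_le_zero hdeg]
  simp

lemma ex_f : ∃ f : ℂ → ℂ, Differentiable ℂ f ∧
    (¬ ∃ p : Polynomial ℂ, ∀ z, f z = p.eval z) ∧ ∃ M : ℝ, ∀ z ∈ E, ‖f z‖ ≤ M := by
  refine ⟨fun z => exp (-exp z), by fun_prop, ?_, Real.exp 1, ?_⟩
  · intro hp
    have h1 := const_of_poly _ (fun z => exp_ne_zero _) hp 0 (Real.pi * I)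
    have h2 := congrArg (fun w : ℂ => ‖w‖) h1
    simp only [Complex.norm_exp, Complex.exp_pi_mul_I, Complex.exp_zero] at h2
    have h3 := Real.exp_injective h2
    norm_num at h3
  · intro z hz
    rw [Complex.norm_exp]
    apply Real.exp_le_exp.mpr
    rw [neg_re, Complex.exp_re]
    have hpos := Real.exp_pos z.re
    rcases hz with hz | hz
    · have h1 : Real.exp z.re ≤ 1 := Real.exp_le_one_iff.mpr hz
      have h2 := Real.neg_one_le_cos z.im
      nlinarith
    · have hz' : Real.cos z.im = 1 := hz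
      rw [hz']; linarith

lemma ex_g : ∃ g : ℂ → ℂ, Differentiable ℂ g ∧
    (¬ ∃ p : Polynomial ℂ, ∀ z, g z = p.eval z) ∧ ∃ δ : ℝ, 0 < δ ∧ ∀ z ∉ E, δ ≤ ‖g z‖ := by
  refine ⟨fun z => exp z, by fun_prop, ?_, 1, one_pos, ?_⟩
  · intro hp
    have h1 := const_of_poly _ (fun z => exp_ne_zero _) hp 0 (Real.pi * I)
    simp only [Complex.exp_pi_mul_I, Complex.exp_zero] at h1
    norm_num at h1
  · intro z hz
    rw [Complex.norm_exp]
    apply Real.one_le_exp
    by_contra hlt
    exact hz (Or.inl (le_of_lt (not_le.mp hlt)))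

lemma low (h : ℂ → ℂ) (hd : Differentiable ℂ h) (δ : ℝ) (hlow : ∀ z ∉ E, δ ≤ ‖h z‖)
    (z : ℂ) (hz : 0 < z.re) : δ ≤ ‖h z‖ := by
  by_cases hc : Real.cos z.im = 1
  · have hs : Real.sin z.im = 0 := by
      have := Real.sin_sq_add_cos_sq z.im
      rw [hc] at this
      have h2 : Real.sin z.im ^ 2 = 0 := by linarith
      exact pow_eq_zero_iff (two_ne_zero) |>.mp h2
    have hcont : Continuous (fun t : ℝ => ‖h (z + t * I)‖) := by
      have := hd.continuous
      fun_prop
    have ht : Tendsto (fun t : ℝ => ‖h (z + t * I)‖) (𝓝[>] 0) (𝓝 ‖h z‖) := by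
      have := (hcont.tendsto 0).mono_left (nhdsWithin_le_nhds (s := Ioi 0))
      simpa using this
    refine ge_of_tendsto ht ?_
    have hm : Ioo (0 : ℝ) (2 * Real.pi) ∈ 𝓝[>] (0 : ℝ) :=
      Ioo_mem_nhdsGT (by positivity)
    filter_upwards [hm] with t ht
    apply hlow
    rintro (h1 | h1)
    · have h1' : (z + t * I).re ≤ 0 := h1
      simp at h1'
      linarith
    · have h1' : Real.cos (z + t * I).im = 1 := h1
      have h2 : (z + t * I).im = z.im + t := by simp
      rw [h2, Real.cos_add, hc, hs] at h1'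
      have h3 : Real.cos t = 1 := by linarith
      have := (Real.cos_eq_one_iff_of_lt_of_lt (by linarith [ht.1, Real.pi_pos]) ht.2).mp h3
      linarith [ht.1]
  · apply hlow
    rintro (h1 | h1)
    · exact absurd h1 (not_le.mpr hz)
    · exact hc h1

lemma cos_line (k : ℤ) : Real.cos (k * (2 * Real.pi)) = 1 := Real.cos_int_mul_two_pi k

lemma far (h : ℂ → ℂ) (hd : Differentiable ℂ h) (M : ℝ) (hM : ∀ z ∈ E, ‖h z‖ ≤ M)
    (δ : ℝ) (hδ : 0 < δ) (hlow : ∀ z ∉ E, δ ≤ ‖h z‖) (hMpos : 0 < M)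
    (z : ℂ) (hz : 8 * Real.pi * M / δ + 7 ≤ z.re) : ‖h z‖ ≤ 2 * M := by
  have hpi := Real.pi_pos
  have hpi2 := Real.pi_lt_d2
  have hX : 0 < 8 * Real.pi * M / δ := by positivity
  have hx : 0 < z.re := by linarith
  set k : ℤ := ⌊z.im / (2 * Real.pi)⌋ with hk
  have hk1 : (k : ℝ) * (2 * Real.pi) ≤ z.im := by
    have := Int.floor_le (z.im / (2 * Real.pi))
    rwa [le_div_iff₀ (by positivity)] at this
  have hk2 : z.im < (k + 1 : ℝ) * (2 * Real.pi) := by
    have := Int.lt_floor_add_one (z.im / (2 * Real.pi))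
    rwa [div_lt_iff₀ (by positivity)] at this
  set c : ℂ := ⟨z.re, k * (2 * Real.pi)⟩ with hc
  have hcE : c ∈ E := Or.inr (cos_line k)
  have hdist : dist z c ≤ 2 * Real.pi := by
    rw [Complex.dist_of_re_eq (by simp [hc]), Real.dist_eq, abs_le]
    constructor <;> simp only [hc] <;> linarith
  have hball : ∀ w ∈ ball c z.re, 0 < w.re := by
    intro w hw
    have h1 : |(w - c).re| ≤ ‖w - c‖ := Complex.abs_re_le_norm _
    rw [mem_ball, dist_eq_norm] at hw
    have h2 : (w - c).re = w.re - z.re := by simp [hc]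
    rw [h2] at h1
    have := neg_abs_le (w.re - z.re)
    linarith
  have hinv : ∀ w, 0 < w.re → ‖(h w)⁻¹‖ ≤ 1 / δ := by
    intro w hw
    rw [norm_inv, ← one_div]
    exact one_div_le_one_div_of_le hδ (low h hd δ hlow w hw)
  have hne : ∀ w, 0 < w.re → h w ≠ 0 := by
    intro w hw h0
    have := low h hd δ hlow w hw
    rw [h0, norm_zero] at this
    linarith
  have hdiff : DifferentiableOn ℂ (fun w => (h w)⁻¹) (ball c z.re) :=
    hd.differentiableOn.inv (fun w hw => hne w (hball w hw))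
  have hcre : 0 < c.re := hx
  have hmaps : MapsTo (fun w => (h w)⁻¹) (ball c z.re) (closedBall ((h c)⁻¹) (2 / δ)) := by
    intro w hw
    rw [mem_closedBall, dist_eq_norm]
    calc ‖(h w)⁻¹ - (h c)⁻¹‖ ≤ ‖(h w)⁻¹‖ + ‖(h c)⁻¹‖ := norm_sub_le _ _
      _ ≤ 1 / δ + 1 / δ := add_le_add (hinv w (hball w hw)) (hinv c hcre)
      _ = 2 / δ := by ring
  have hzb : z ∈ ball c z.re := by
    rw [mem_ball]; linarith
  have hS := Complex.dist_le_div_mul_dist_of_mapsTo_ball hdiff hmaps hzb
  have h1 : 2 / δ / z.re * dist z c ≤ 1 / (2 * M) := by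
    calc 2 / δ / z.re * dist z c ≤ 2 / δ / z.re * (2 * Real.pi) := by gcongr
      _ ≤ 2 / δ / (8 * Real.pi * M / δ) * (2 * Real.pi) := by gcongr; linarith
      _ = 1 / (2 * M) := by field_simp; ring
  have h2 : 1 / M ≤ ‖(h c)⁻¹‖ := by
    rw [norm_inv, ← one_div]
    exact one_div_le_one_div_of_le (norm_pos_iff.mpr (hne c hcre)) (hM c hcE)
  have h3 : ‖(h c)⁻¹‖ - ‖(h z)⁻¹‖ ≤ dist (h z)⁻¹ (h c)⁻¹ := by
    rw [dist_comm, dist_eq_norm]; exact norm_sub_norm_le _ _
  have h4 : 1 / (2 * M) ≤ ‖(h z)⁻¹‖ := by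
    have : 1 / M = 1 / (2 * M) + 1 / (2 * M) := by field_simp; ring
    linarith
  rw [norm_inv, ← one_div] at h4
  exact (one_div_le_one_div (by positivity) (norm_pos_iff.mpr (hne z hx))).mp h4

lemma poly_of (h : ℂ → ℂ) (hd : Differentiable ℂ h) (M : ℝ) (hM : ∀ z ∈ E, ‖h z‖ ≤ M)
    (δ : ℝ) (hδ : 0 < δ) (hlow : ∀ z ∉ E, δ ≤ ‖h z‖) :
    ∃ p : Polynomial ℂ, ∀ z, h z = p.eval z := by
  have hpi := Real.pi_pos
  have hMpos : 0 < M := by
    have h1 := low h hd δ hlow 1 (by simp)
    have h2 := hM 1 (Or.inr (by simp))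
    linarith
  set X : ℝ := 8 * Real.pi * M / δ + 7 with hX
  have hXpos : 0 < X := by positivity
  have hall : ∀ z, ‖h z‖ ≤ 2 * M := by
    intro z
    by_cases h1 : z.re ≤ 0
    · have := hM z (Or.inl h1); linarith
    by_cases h2 : X ≤ z.re
    · exact far h hd M hM δ hδ hlow hMpos z h2
    set k : ℤ := ⌊z.im / (2 * Real.pi)⌋ with hk
    have hk1 : (k : ℝ) * (2 * Real.pi) ≤ z.im := by
      have := Int.floor_le (z.im / (2 * Real.pi))
      rwa [le_div_iff₀ (by positivity)] at this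
    have hk2 : z.im < (k + 1 : ℝ) * (2 * Real.pi) := by
      have := Int.lt_floor_add_one (z.im / (2 * Real.pi))
      rwa [div_lt_iff₀ (by positivity)] at this
    have hab : (k : ℝ) * (2 * Real.pi) < (k + 1 : ℝ) * (2 * Real.pi) := by linarith
    have hb : Bornology.IsBounded
        (Ioo 0 X ×ℂ Ioo ((k : ℝ) * (2 * Real.pi)) ((k + 1 : ℝ) * (2 * Real.pi))) :=
      (isBounded_Ioo _ _).reProdIm (isBounded_Ioo _ _)
    refine Complex.norm_le_of_forall_mem_frontier_norm_le hb hd.diffContOnCl ?_ ?_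
    · intro w hw
      rw [Complex.frontier_reProdIm, frontier_Ioo hab, frontier_Ioo hXpos] at hw
      rcases hw with hw | hw
      · have hw2 := (mem_reProdIm.mp hw).2
        have hE : w ∈ E := by
          right
          change Real.cos w.im = 1
          rcases hw2 with h | h
          · rw [h]; exact cos_line k
          · rw [mem_singleton_iff.mp h]
            have := cos_line (k + 1)
            push_cast at this
            exact this
        have := hM w hE; linarith
      · have hw1 := (mem_reProdIm.mp hw).1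
        rcases hw1 with h0 | h0
        · have := hM w (Or.inl (le_of_eq h0)); linarith
        · exact far h hd M hM δ hδ hlow hMpos w (le_of_eq (mem_singleton_iff.mp h0).symm)
    · rw [Complex.closure_reProdIm, closure_Ioo hab.ne, closure_Ioo hXpos.ne]
      exact mem_reProdIm.mpr ⟨⟨by linarith, by linarith⟩, ⟨hk1, hk2.le⟩⟩
  have hbd : Bornology.IsBounded (range h) := by
    refine (isBounded_closedBall (x := (0 : ℂ)) (r := 2 * M)).subset ?_
    rintro _ ⟨z, rfl⟩
    simpa using hall z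
  obtain ⟨c, hc⟩ := hd.exists_const_forall_eq_of_bounded hbd
  exact ⟨Polynomial.C c, fun z => by simp [hc z]⟩

end Pool.Agent.H3.EntE
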