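import Mathlib

set_option autoImplicit false

namespace Pool.Agent.H3.Fns

open Filter Topology

variable {G : Type} [Group G]

/-- absolutely summable -/
def S1 (u : G → ℂ) : Prop := Summable (fun g => ‖u g‖)

noncomputable def conv (a y : G → ℂ) (g : G) : ℂ := ∑' h, a h * y (h⁻¹ * g)

noncomputable def B (a y : G → ℂ) (D : G → G → ℂ) : ℂ :=
  ∑' p : G × G, a p.1 * y p.2 * D p.1 p.2

omit [Group G] in
lemma sumB {a y : G → ℂ} (ha : S1 a) (hy : S1 y) {D : G → G → ℂ} {C : ℝ}
    (hD : ∀ g k, ‖D g k‖ ≤ C) : Summable (fun p : G × G => ‖a p.1 * y p.2 * D p.1 p.2‖) := by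
  have h1 : Summable (fun p : G × G => ‖a p.1 * y p.2‖) := Summable.mul_norm ha hy
  refine Summable.of_nonneg_of_le (fun _ => norm_nonneg _) (fun p => ?_) (h1.mul_right C)
  rw [norm_mul]
  exact mul_le_mul_of_nonneg_left (hD _ _) (norm_nonneg _)

omit [Group G] in
lemma normB {a y : G → ℂ} (ha : S1 a) (hy : S1 y) {D : G → G → ℂ} {C : ℝ}
    (hD : ∀ g k, ‖D g k‖ ≤ C) :
    ‖B a y D‖ ≤ (∑' g, ‖a g‖) * (∑' g, ‖y g‖) * C := by
  have h1 : Summable (fun p : G × G => ‖a p.1 * y p.2‖) := Summable.mul_norm ha hy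
  have h2 : (∑' g, ‖a g‖) * (∑' g, ‖y g‖) = ∑' p : G × G, ‖a p.1‖ * ‖y p.2‖ := by
    apply tsum_mul_tsum_of_summable_norm
    · simpa [S1] using ha
    · simpa [S1] using hy
  rw [h2, ← tsum_mul_right]
  refine (norm_tsum_le_tsum_norm (sumB ha hy hD)).trans ?_
  refine Summable.tsum_le_tsum (fun p => ?_) (sumB ha hy hD) ?_
  · rw [norm_mul, norm_mul]
    exact mul_le_mul_of_nonneg_left (hD _ _) (by positivity)
  · simpa [norm_mul] using h1.mul_right C

omit [Group G] in
lemma sum_bdd {u : G → ℂ} (hu : S1 u) {K : G → ℂ} {C : ℝ} (hK : ∀ g, ‖K g‖ ≤ C) :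
    S1 (fun g => u g * K g) := by
  refine Summable.of_nonneg_of_le (fun _ => norm_nonneg _) (fun p => ?_) (Summable.mul_right C hu)
  rw [norm_mul]
  exact mul_le_mul_of_nonneg_left (hK _) (norm_nonneg _)

omit [Group G] in
lemma B_prod {a y : G → ℂ} (ha : S1 a) (hy : S1 y) {E1 E2 : G → ℂ} {C : ℝ}
    (h1 : ∀ g, ‖E1 g‖ ≤ C) (h2 : ∀ g, ‖E2 g‖ ≤ C) :
    B a y (fun g k => E1 g * E2 k) = (∑' g, a g * E1 g) * (∑' g, y g * E2 g) := by
  rw [tsum_mul_tsum_of_summable_norm (sum_bdd ha h1) (sum_bdd hy h2)]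
  unfold B
  exact tsum_congr (fun p => by ring)

omit [Group G] in
lemma B_sub {a y : G → ℂ} (ha : S1 a) (hy : S1 y) {D D' : G → G → ℂ} {C : ℝ}
    (hD : ∀ g k, ‖D g k‖ ≤ C) (hD' : ∀ g k, ‖D' g k‖ ≤ C) :
    B a y (fun g k => D g k - D' g k) = B a y D - B a y D' := by
  unfold B
  rw [← Summable.tsum_sub (sumB ha hy hD).of_norm (sumB ha hy hD').of_norm]
  exact tsum_congr (fun p => by ring)

omit [Group G] in
lemma B_sum {ι : Type} (s : Finset ι) {a y : G → ℂ} (ha : S1 a) (hy : S1 y) {D : ι → G → G → ℂ}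
    {C : ℝ} (hD : ∀ i g k, ‖D i g k‖ ≤ C) :
    B a y (fun g k => ∑ i ∈ s, D i g k) = ∑ i ∈ s, B a y (D i) := by
  unfold B
  rw [← Summable.tsum_finsetSum (fun i _ => (sumB ha hy (hD i)).of_norm)]
  exact tsum_congr (fun p => by rw [Finset.mul_sum])

omit [Group G] in
lemma B_add_right {a y y' : G → ℂ} (ha : S1 a) (hy : S1 y) (hy' : S1 y') {D : G → G → ℂ} {C : ℝ}
    (hD : ∀ g k, ‖D g k‖ ≤ C) :
    B a (fun g => y g + y' g) D = B a y D + B a y' D := by
  unfold B
  rw [← Summable.tsum_add (sumB ha hy hD).of_norm (sumB ha hy' hD).of_norm]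
  exact tsum_congr (fun p => by ring)

lemma B_shift (a y : G → ℂ) (D : G → G → ℂ) (h : G) :
    B a (fun k => y (k * h⁻¹)) D = B a y (fun g k => D g (k * h)) := by
  unfold B
  rw [← ((Equiv.refl G).prodCongr (Equiv.mulRight h)).tsum_eq]
  exact tsum_congr (fun p => by simp)

lemma pr_conv {a y : G → ℂ} (ha : S1 a) (hy : S1 y) {K : G → ℂ} {C : ℝ} (hK : ∀ g, ‖K g‖ ≤ C) :
    ∑' g, conv a y g * K g = B a y (fun h k => K (h * k)) := by
  let e : G × G ≃ G × G :=
    { toFun := fun p => (p.2, p.2⁻¹ * p.1)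
      invFun := fun p => (p.1 * p.2, p.1)
      left_inv := fun p => by simp
      right_inv := fun p => by simp }
  have hs : Summable (fun p : G × G => a p.1 * y p.2 * K (p.1 * p.2)) :=
    (sumB ha hy (D := fun h k => K (h * k)) (fun _ _ => hK _)).of_norm
  have hs2 := e.summable_iff.mpr hs
  unfold B
  rw [← e.tsum_eq]
  have h3 := hs2.tsum_prod
  refine Eq.trans ?_ h3.symm
  refine tsum_congr (fun g => ?_)
  unfold conv
  rw [← tsum_mul_right]
  exact tsum_congr (fun h => by simp [e])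

omit [Group G] in
lemma S1_add {y y' : G → ℂ} (hy : S1 y) (hy' : S1 y') : S1 (fun g => y g + y' g) :=
  Summable.of_nonneg_of_le (fun _ => norm_nonneg _) (fun _ => norm_add_le _ _) (Summable.add hy hy')

omit [Group G] in
lemma S1_sub {y y' : G → ℂ} (hy : S1 y) (hy' : S1 y') : S1 (fun g => y g - y' g) :=
  Summable.of_nonneg_of_le (fun _ => norm_nonneg _) (fun _ => norm_sub_le _ _) (Summable.add hy hy')

lemma S1_shift {y : G → ℂ} (hy : S1 y) (h : G) : S1 (fun k => y (k * h⁻¹)) :=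
  (Equiv.mulRight h⁻¹).summable_iff.mpr hy

omit [Group G] in
lemma S1_le {y : G → ℂ} (hy : S1 y) (g : G) : ‖y g‖ ≤ ∑' k, ‖y k‖ :=
  Summable.le_tsum hy g (fun _ _ => norm_nonneg _)

lemma conv_sum {a y : G → ℂ} (ha : S1 a) (hy : S1 y) (g : G) :
    Summable (fun h => a h * y (h⁻¹ * g)) :=
  Summable.of_norm (sum_bdd ha (K := fun h => y (h⁻¹ * g)) (fun _ => S1_le hy _))

lemma conv_add {a y y' : G → ℂ} (ha : S1 a) (hy : S1 y) (hy' : S1 y') (g : G) :
    conv a (fun k => y k + y' k) g = conv a y g + conv a y' g := by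
  unfold conv
  rw [← Summable.tsum_add (conv_sum ha hy g) (conv_sum ha hy' g)]
  exact tsum_congr (fun p => by ring)

lemma conv_sub {a y y' : G → ℂ} (ha : S1 a) (hy : S1 y) (hy' : S1 y') (g : G) :
    conv a (fun k => y k - y' k) g = conv a y g - conv a y' g := by
  unfold conv
  rw [← Summable.tsum_sub (conv_sum ha hy g) (conv_sum ha hy' g)]
  exact tsum_congr (fun p => by ring)

lemma conv_shift (a y : G → ℂ) (h g : G) :
    conv a (fun k => y (k * h⁻¹)) g = conv a y (g * h⁻¹) := by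
  unfold conv
  exact tsum_congr (fun p => by simp [mul_assoc])

lemma conv_smul (a y : G → ℂ) (c : ℂ) (g : G) :
    conv a (fun k => c * y k) g = c * conv a y g := by
  unfold conv
  rw [← tsum_mul_left]
  exact tsum_congr (fun p => by ring)

open Classical in
/-- indicator of a proposition -/
noncomputable def ind (p : Prop) : ℂ := if p then 1 else 0

lemma ind_pos {p : Prop} (h : p) : ind p = 1 := by simp [ind, h]
lemma ind_neg {p : Prop} (h : ¬ p) : ind p = 0 := by simp [ind, h]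
lemma norm_ind (p : Prop) : ‖ind p‖ ≤ 1 := by
  by_cases h : p
  · simp [ind_pos h]
  · simp [ind_neg h]

omit [Group G] in
lemma tsum_ind (g : G) (K : G → ℂ) : ∑' k, ind (k = g) * K k = K g := by
  rw [tsum_eq_single g]
  · simp [ind_pos]
  · intro b hb; simp [ind_neg hb]

omit [Group G] in
lemma S1_ind (g : G) : S1 (fun k => ind (k = g)) := by
  apply summable_of_ne_finset_zero (s := {g})
  intro b hb
  simp only [Finset.mem_singleton] at hb
  simp [ind_neg hb]

/-- difference of two point masses -/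
noncomputable def dl (g : G) (k : G) : ℂ := ind (k = g) - ind (k = 1)

lemma S1_dl (g : G) : S1 (dl g) := S1_sub (S1_ind g) (S1_ind 1)

lemma tsum_dl (g : G) (K : G → ℂ) : ∑' k, dl g k * K k = K g - K 1 := by
  have hs : ∀ g : G, Summable (fun k => ind (k = g) * K k) := by
    intro g
    apply summable_of_ne_finset_zero (s := {g})
    intro b hb
    simp only [Finset.mem_singleton] at hb
    simp [ind_neg hb]
  rw [← tsum_ind g K, ← tsum_ind 1 K, ← Summable.tsum_sub (hs g) (hs 1)]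
  exact tsum_congr (fun p => by unfold dl; ring)

/-- finite permutation models -/
def Models (G : Type) [Group G] : Prop :=
  ∀ T : Finset G, ∃ S : Finset G, T ⊆ S ∧ ∃ o : S, ∃ π : G →* Equiv.Perm S, ∀ s : S, π s o = s

lemma push_zero {a : G → ℂ} (ha : S1 a) (ha0 : ∑' g, a g = 0)
    (hall : ∀ g : G, ∃ y, S1 y ∧ ∑' k, y k = 0 ∧ ∀ k, conv a y k = dl g k)
    (S : Finset G) (o : S) (π : G →* Equiv.Perm S) (hπ : ∀ s : S, π s o = s)
    {w : G → ℂ} (hw : S1 w) (hw0 : ∑' k, w k = 0) (hc : ∀ k, conv a w k = 0) (s : S) :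
    ∑' g, w g * ind (π g o = s) = 0 := by
  classical
  let P : (G → ℂ) → (S → ℂ) := fun u s => ∑' g, u g * ind (π g o = s)
  let M : Matrix S S ℂ := fun s s' => ∑' g, a g * ind (π g s' = s)
  have hsum1 : ∀ x : S, ∑ s : S, ind (x = s) = 1 := by
    intro x
    rw [Finset.sum_eq_single x]
    · exact ind_pos rfl
    · intro b _ hb; exact ind_neg (fun h => hb h.symm)
    · simp
  have hP : ∀ u, S1 u → P (conv a u) = M.mulVec (P u) := by
    intro u hu
    funext s
    simp only [P, M, Matrix.mulVec, dotProduct]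
    rw [pr_conv ha hu (K := fun g => ind (π g o = s)) (fun _ => norm_ind _)]
    have h1 : (fun h k : G => ind (π (h * k) o = s)) =
        fun h k => ∑ s' : S, ind (π h s' = s) * ind (π k o = s') := by
      funext h k
      rw [Finset.sum_eq_single (π k o)]
      · rw [ind_pos (rfl : π k o = π k o), mul_one, map_mul, Equiv.Perm.mul_apply]
      · intro b _ hb; rw [ind_neg (fun h : π k o = b => hb h.symm), mul_zero]
      · simp
    rw [h1, B_sum Finset.univ ha hu (C := 1) (D := fun s' h k => ind (π h s' = s) * ind (π k o = s'))]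
    · refine Finset.sum_congr rfl (fun s' _ => ?_)
      exact B_prod ha hu (C := 1) (fun _ => norm_ind _) (fun _ => norm_ind _)
    · intro i g k
      rw [norm_mul]
      exact mul_le_one₀ (norm_ind _) (norm_nonneg _) (norm_ind _)
  have hZ : ∀ (u : G → ℂ) (f : G → S), S1 u → ∑ s : S, ∑' g, u g * ind (f g = s) = ∑' g, u g := by
    intro u f hu
    rw [← Summable.tsum_finsetSum (fun i _ => (sum_bdd hu (fun _ => norm_ind _)).of_norm)]
    refine tsum_congr (fun g => ?_)
    rw [← Finset.mul_sum, hsum1, mul_one]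
  let σ : (S → ℂ) →ₗ[ℂ] ℂ := ∑ s : S, LinearMap.proj s
  have hσ : ∀ v, σ v = ∑ s, v s := by
    intro v; simp [σ]
  let Z : Submodule ℂ (S → ℂ) := LinearMap.ker σ
  have hPZ : ∀ u, S1 u → ∑' g, u g = 0 → P u ∈ Z := by
    intro u hu hu0
    simp only [Z, LinearMap.mem_ker, hσ, P]
    rw [hZ u (fun g => π g o) hu, hu0]
  have hMZ : ∀ v ∈ Z, M.mulVecLin v ∈ Z := by
    intro v _
    simp only [Z, LinearMap.mem_ker, hσ, Matrix.mulVecLin_apply, Matrix.mulVec, dotProduct]
    rw [Finset.sum_comm]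
    refine Finset.sum_eq_zero (fun s' _ => ?_)
    rw [← Finset.sum_mul]
    simp only [M]
    rw [hZ a (fun g => π g s') ha, ha0, zero_mul]
  choose Y hY1 hY0 hYc using hall
  have hsurj : Function.Surjective (M.mulVecLin.restrict hMZ) := by
    rintro ⟨v, hv⟩
    refine ⟨⟨∑ s : S, v s • P (Y s), Z.sum_mem (fun s _ => Z.smul_mem _ (hPZ _ (hY1 _) (hY0 _)))⟩, ?_⟩
    apply Subtype.ext
    simp only [LinearMap.restrict_apply, map_sum, map_smul, Matrix.mulVecLin_apply]
    have hv0 : ∑ s, v s = 0 := by simpa [Z, hσ] using hv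
    funext t
    have h1 : ∀ s : S, M.mulVec (P (Y s)) t = ind (s = t) - ind (o = t) := by
      intro s
      rw [← hP _ (hY1 _)]
      simp only [P]
      rw [tsum_congr (fun g => by rw [hYc]), tsum_dl, hπ]
      simp
    simp only [Finset.sum_apply, Pi.smul_apply, smul_eq_mul, h1, mul_sub, Finset.sum_sub_distrib]
    rw [← Finset.sum_mul, hv0, zero_mul, sub_zero, Finset.sum_eq_single t]
    · rw [ind_pos rfl, mul_one]
    · intro b _ hb; rw [ind_neg hb, mul_zero]
    · simp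
  have hinj := LinearMap.injective_iff_surjective.mpr hsurj
  have h0 : (M.mulVecLin.restrict hMZ) ⟨P w, hPZ w hw hw0⟩ = 0 := by
    apply Subtype.ext
    simp only [LinearMap.restrict_apply, Matrix.mulVecLin_apply]
    rw [← hP w hw]
    funext t
    simp [P, hc]
  have h2 := (map_eq_zero_iff _ hinj).mp h0
  have h3 : P w = 0 := congrArg Subtype.val h2
  exact congrFun h3 s

lemma inj {a : G → ℂ} (hM : Models G) (ha : S1 a) (ha0 : ∑' g, a g = 0)
    (hall : ∀ g : G, ∃ y, S1 y ∧ ∑' k, y k = 0 ∧ ∀ k, conv a y k = dl g k)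
    {w : G → ℂ} (hw : S1 w) (hw0 : ∑' k, w k = 0) (hc : ∀ k, conv a w k = 0) (g0 : G) :
    w g0 = 0 := by
  classical
  have ht := tendsto_tsum_compl_atTop_zero (fun g => ‖w g‖)
  by_contra hne
  have hpos : 0 < ‖w g0‖ := norm_pos_iff.mpr hne
  obtain ⟨T, hT⟩ := eventually_atTop.mp (ht.eventually (gt_mem_nhds hpos))
  obtain ⟨S, hS, o, π, hπ⟩ := hM (insert g0 T)
  have hg0 : g0 ∈ S := hS (Finset.mem_insert_self _ _)
  have h1 := push_zero ha ha0 hall S o π hπ hw hw0 hc ⟨g0, hg0⟩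
  have h2 := hT S (fun x hx => hS (Finset.mem_insert_of_mem hx))
  have hs : S1 (fun g => w g * ind (π g o = ⟨g0, hg0⟩)) := sum_bdd hw (fun _ => norm_ind _)
  rw [← Summable.sum_add_tsum_compl (s := S) hs.of_norm] at h1
  have h3 : ∑ g ∈ S, w g * ind (π g o = ⟨g0, hg0⟩) = w g0 := by
    rw [Finset.sum_eq_single g0]
    · rw [ind_pos (hπ ⟨g0, hg0⟩), mul_one]
    · intro b hb hne
      rw [ind_neg, mul_zero]
      intro h
      rw [hπ ⟨b, hb⟩] at h
      exact hne (congrArg Subtype.val h)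
    · intro h; exact absurd hg0 h
  rw [h3] at h1
  have h4 : ‖∑' g : ↑((S : Set G)ᶜ), w g * ind (π g o = ⟨g0, hg0⟩)‖ ≤
      ∑' g : {x // x ∉ S}, ‖w g‖ := by
    refine tsum_of_norm_bounded (Summable.hasSum (Summable.subtype hw _)) (fun g => ?_)
    rw [norm_mul]
    exact mul_le_of_le_one_right (norm_nonneg _) (norm_ind _)
  have h5 : w g0 = -∑' g : ↑((S : Set G)ᶜ), w g * ind (π g o = ⟨g0, hg0⟩) := by
    linear_combination h1
  rw [h5, norm_neg] at h2
  linarith

end Pool.Agent.H3.Fns
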