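import Pool.Agent.H3.FnsA

set_option autoImplicit false

namespace Pool.Agent.H3.Fns

open Filter Topology

lemma models_free : Models (FreeGroup ℕ) := by
  classical
  intro T
  let S : Finset (FreeGroup ℕ) :=
    insert 1 (T.biUnion (fun t => (t.toWord.tails.map FreeGroup.mk).toFinset))
  have hS : ∀ s ∈ S, ∃ L, FreeGroup.mk L = s ∧ ∀ L', L' <:+ L → FreeGroup.mk L' ∈ S := by
    intro s hs
    rcases Finset.mem_insert.mp hs with h | h
    · refine ⟨[], by rw [h]; rfl, fun L' hL => ?_⟩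
      rw [List.suffix_nil.mp hL]
      exact Finset.mem_insert_self _ _
    · obtain ⟨t, ht, h2⟩ := Finset.mem_biUnion.mp h
      obtain ⟨L, hL, h3⟩ := List.mem_map.mp (List.mem_toFinset.mp h2)
      refine ⟨L, h3, fun L' hL' => Finset.mem_insert_of_mem ?_⟩
      refine Finset.mem_biUnion.mpr ⟨t, ht, List.mem_toFinset.mpr (List.mem_map.mpr ⟨L', ?_, rfl⟩)⟩
      exact (List.mem_tails _ _).mpr (hL'.trans ((List.mem_tails _ _).mp hL))
  have h1 : (1 : FreeGroup ℕ) ∈ S := Finset.mem_insert_self _ _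
  let e : ∀ x : ℕ, {s : S // FreeGroup.of x * s ∈ S} ≃ {s : S // (FreeGroup.of x)⁻¹ * s ∈ S} :=
    fun x =>
    { toFun := fun s => ⟨⟨FreeGroup.of x * s.1, s.2⟩, by simp⟩
      invFun := fun s => ⟨⟨(FreeGroup.of x)⁻¹ * s.1, s.2⟩, by simp⟩
      left_inv := fun s => by ext; simp
      right_inv := fun s => by ext; simp }
  let π : FreeGroup ℕ →* Equiv.Perm S := FreeGroup.lift (fun x => (e x).extendSubtype)
  have hf : ∀ (x : ℕ) (s : S) (h : FreeGroup.of x * s ∈ S),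
      π (FreeGroup.of x) s = ⟨FreeGroup.of x * s, h⟩ := by
    intro x s h
    simp only [π, FreeGroup.lift_apply_of]
    rw [Equiv.extendSubtype_apply_of_mem (e x) s h]
    rfl
  have hb : ∀ (x : ℕ) (s : S) (h : (FreeGroup.of x)⁻¹ * s ∈ S),
      π (FreeGroup.of x)⁻¹ s = ⟨(FreeGroup.of x)⁻¹ * s, h⟩ := by
    intro x s h
    rw [map_inv, Equiv.Perm.inv_eq_iff_eq, hf x ⟨_, h⟩ (by simp)]
    ext; simp
  have hmain : ∀ L : List (ℕ × Bool), (∀ L', L' <:+ L → FreeGroup.mk L' ∈ S) →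
      (π (FreeGroup.mk L) ⟨1, h1⟩ : FreeGroup ℕ) = FreeGroup.mk L := by
    intro L
    induction L with
    | nil => intro _; rw [← FreeGroup.one_eq_mk, map_one]; rfl
    | cons p L ih =>
      intro hL
      have ih' := ih (fun L' h => hL L' (h.trans (List.suffix_cons p L)))
      have hm : FreeGroup.mk L ∈ S := hL L (List.suffix_cons p L)
      have ih2 : π (FreeGroup.mk L) ⟨1, h1⟩ = ⟨FreeGroup.mk L, hm⟩ := Subtype.ext ih'
      have hc : FreeGroup.mk (p :: L) = FreeGroup.mk [p] * FreeGroup.mk L := by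
        rw [FreeGroup.mul_mk]; rfl
      have hm2 := hL _ (List.suffix_refl _)
      rw [hc] at hm2 ⊢
      rw [map_mul, Equiv.Perm.mul_apply, ih2]
      obtain ⟨x, b⟩ := p
      cases b
      · have h5 : FreeGroup.mk [(x, false)] = (FreeGroup.of x)⁻¹ := rfl
        rw [h5] at hm2 ⊢
        rw [hb x ⟨_, hm⟩ hm2]
      · have h5 : FreeGroup.mk [(x, true)] = FreeGroup.of x := rfl
        rw [h5] at hm2 ⊢
        rw [hf x ⟨_, hm⟩ hm2]
  refine ⟨S, ?_, ⟨1, h1⟩, π, ?_⟩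
  · intro t ht
    refine Finset.mem_insert_of_mem (Finset.mem_biUnion.mpr ⟨t, ht, List.mem_toFinset.mpr
      (List.mem_map.mpr ⟨t.toWord, (List.mem_tails _ _).mpr (List.suffix_refl _), ?_⟩)⟩)
    exact FreeGroup.mk_toWord
  · rintro ⟨s, hs⟩
    obtain ⟨L, hL, hL'⟩ := hS s hs
    apply Subtype.ext
    subst hL
    exact hmain L hL'

/-- circle maps x + (1 + c cos 2πx)/8 -/
noncomputable def cm (c : ℝ) (x : ℝ) : ℝ := x + (1 + c * Real.cos (2 * Real.pi * x)) / 8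

lemma cm_strict {c : ℝ} (hc : |c| ≤ 1) : StrictMono (cm c) := by
  intro x y hxy
  unfold cm
  have h1 := Real.abs_cos_sub_cos_le (2 * Real.pi * x) (2 * Real.pi * y)
  have h2 : |2 * Real.pi * x - 2 * Real.pi * y| = 2 * Real.pi * (y - x) := by
    rw [abs_sub_comm, ← mul_sub, abs_of_pos (by have := Real.pi_pos; have := sub_pos.mpr hxy; positivity)]
  rw [h2] at h1
  have h3 : |c * (Real.cos (2 * Real.pi * x) - Real.cos (2 * Real.pi * y))| ≤
      2 * Real.pi * (y - x) := by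
    rw [abs_mul]
    exact (mul_le_of_le_one_left (abs_nonneg _) hc).trans h1
  have h4 := le_abs_self (c * (Real.cos (2 * Real.pi * x) - Real.cos (2 * Real.pi * y)))
  have h5 := Real.pi_lt_d2
  have h6 := sub_pos.mpr hxy
  nlinarith

lemma cm_cont (c : ℝ) : Continuous (cm c) := by unfold cm; fun_prop

lemma cm_ge {c : ℝ} (hc : |c| ≤ 1) (x : ℝ) : x ≤ cm c x ∧ cm c x ≤ x + 1 := by
  unfold cm
  have h1 : |c * Real.cos (2 * Real.pi * x)| ≤ 1 := by
    rw [abs_mul]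
    exact mul_le_one₀ hc (abs_nonneg _) (Real.abs_cos_le_one _)
  obtain ⟨h2, h3⟩ := abs_le.mp h1
  constructor <;> linarith

noncomputable def cl (c : ℝ) (hc : |c| ≤ 1) : CircleDeg1Lift where
  toFun := cm c
  monotone' := (cm_strict hc).monotone
  map_add_one' := fun x => by
    unfold cm
    rw [mul_add, mul_one, Real.cos_add_two_pi]; ring

lemma cl_apply (c : ℝ) (hc : |c| ≤ 1) (x : ℝ) : cl c hc x = cm c x := rfl

lemma cl_unit (c : ℝ) (hc : |c| ≤ 1) : IsUnit (cl c hc) := by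
  rw [CircleDeg1Lift.isUnit_iff_bijective]
  refine ⟨(cm_strict hc).injective, ?_⟩
  refine (cm_cont c).surjective ?_ ?_
  · exact tendsto_atTop_mono (fun x => (cm_ge hc x).1) tendsto_id
  · exact tendsto_atBot_mono (fun x => (cm_ge hc x).2) (tendsto_atBot_add_const_right _ 1 tendsto_id)

lemma quasi : ∃ φ : FreeGroup ℕ → ℝ, φ 1 = 0 ∧ (∀ g h, |φ (g * h) - φ g - φ h| ≤ 1) ∧
    ∃ s t : FreeGroup ℕ, ∃ τ : ℝ, τ ≠ 0 ∧
      Tendsto (fun n : ℕ => φ (s ^ (2 ^ n)) / 2 ^ n) atTop (𝓝 0) ∧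
      Tendsto (fun n : ℕ => φ (t ^ (2 ^ n)) / 2 ^ n) atTop (𝓝 0) ∧
      Tendsto (fun n : ℕ => φ ((s * t) ^ (2 ^ n)) / 2 ^ n) atTop (𝓝 τ) := by
  have hm : |(-1 : ℝ)| ≤ 1 := by simp
  have hp : |(1 : ℝ)| ≤ 1 := by simp
  let ρ : FreeGroup ℕ →* CircleDeg1Liftˣ :=
    FreeGroup.lift (fun x => if x = 0 then (cl_unit _ hm).unit else (cl_unit _ hp).unit)
  have h0 : (ρ (FreeGroup.of 0) : CircleDeg1Lift) = cl _ hm := by simp [ρ]
  have h1 : (ρ (FreeGroup.of 1) : CircleDeg1Lift) = cl _ hp := by simp [ρ]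
  have hlim : ∀ g, Tendsto (fun n : ℕ => (ρ (g ^ (2 ^ n)) : CircleDeg1Lift) 0 / 2 ^ n) atTop
      (𝓝 (CircleDeg1Lift.translationNumber (ρ g : CircleDeg1Lift))) := by
    intro g
    have := CircleDeg1Lift.tendsto_translationNumber_aux (ρ g : CircleDeg1Lift)
    refine this.congr (fun n => ?_)
    simp [CircleDeg1Lift.transnumAuxSeq]
  refine ⟨fun g => (ρ g : CircleDeg1Lift) 0, by simp, ?_, FreeGroup.of 0, FreeGroup.of 1,
    CircleDeg1Lift.translationNumber (ρ (FreeGroup.of 0 * FreeGroup.of 1) : CircleDeg1Lift),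
    ?_, ?_, ?_, hlim _⟩
  · intro g h
    have := CircleDeg1Lift.dist_map_map_zero_lt (ρ g : CircleDeg1Lift) (ρ h : CircleDeg1Lift)
    rw [dist_comm, Real.dist_eq] at this
    simp only [map_mul, Units.val_mul, CircleDeg1Lift.mul_apply]
    rw [sub_sub]
    exact this.le
  · apply ne_of_gt
    rw [map_mul, Units.val_mul, h0, h1]
    apply CircleDeg1Lift.lt_translationNumber_of_forall_add_lt
    · exact (cm_cont _).comp (cm_cont _)
    · intro x
      rw [add_zero, CircleDeg1Lift.mul_apply, cl_apply, cl_apply]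
      rcases eq_or_lt_of_le (cm_ge hp x).1 with h | h
      · rw [← h]
        have h2 : Real.cos (2 * Real.pi * x) = -1 := by
          unfold cm at h; linarith
        unfold cm
        rw [h2]; linarith
      · exact lt_of_lt_of_le h (cm_ge hm _).1
  · have h2 := hlim (FreeGroup.of 0)
    have h3 : CircleDeg1Lift.translationNumber (ρ (FreeGroup.of 0) : CircleDeg1Lift) = (0 : ℤ) := by
      rw [h0]
      apply CircleDeg1Lift.translationNumber_of_eq_add_int (x := 0)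
      rw [cl_apply]; simp [cm]
    rw [h3] at h2
    simpa using h2
  · have h2 := hlim (FreeGroup.of 1)
    have h3 : CircleDeg1Lift.translationNumber (ρ (FreeGroup.of 1) : CircleDeg1Lift) = (0 : ℤ) := by
      rw [h1]
      apply CircleDeg1Lift.translationNumber_of_eq_add_int (x := 1 / 2)
      rw [cl_apply]
      unfold cm
      rw [show 2 * Real.pi * (1 / 2) = Real.pi by ring, Real.cos_pi]
      simp
    rw [h3] at h2
    simpa using h2

variable {G : Type} [Group G]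

lemma key (hM : Models G) (φ : G → ℝ) (hφ1 : φ 1 = 0) (hφ : ∀ g h, |φ (g * h) - φ g - φ h| ≤ 1)
    {a : G → ℂ} (ha : S1 a) (ha0 : ∑' g, a g = 0)
    (hall : ∀ g : G, ∃ y, S1 y ∧ ∑' k, y k = 0 ∧ ∀ k, conv a y k = dl g k) :
    ∃ χ : G → ℂ, (∀ g h, χ (g * h) = χ g + χ h) ∧ ∀ g y, S1 y → ∑' k, y k = 0 →
      (∀ k, conv a y k = dl g k) → ‖χ g - φ g‖ ≤ (∑' g, ‖a g‖) * (∑' g, ‖y g‖) := by
  have huniq : ∀ y y', S1 y → S1 y' → ∑' k, y k = 0 → ∑' k, y' k = 0 →
      (∀ k, conv a y k = conv a y' k) → y = y' := by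
    intro y y' hy hy' h0 h0' hc
    funext g
    have := inj hM ha ha0 hall (S1_sub hy hy')
      (by rw [Summable.tsum_sub hy.of_norm hy'.of_norm, h0, h0', sub_zero])
      (fun k => by rw [conv_sub ha hy hy', hc, sub_self]) g
    exact sub_eq_zero.mp this
  choose Y hY1 hY0 hYc using hall
  let D : G → G → ℂ := fun g h => ((φ (g * h) - φ g - φ h : ℝ) : ℂ)
  have hD : ∀ g h, ‖D g h‖ ≤ 1 := fun g h => by
    simp only [D, Complex.norm_real, Real.norm_eq_abs]; exact hφ g h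
  have hco : ∀ g h, Y (g * h) = fun k => Y g (k * h⁻¹) + Y h k := by
    intro g h
    apply huniq _ _ (hY1 _) (S1_add (S1_shift (hY1 g) h) (hY1 h)) (hY0 _)
    · rw [Summable.tsum_add (S1_shift (hY1 g) h).of_norm (hY1 h).of_norm, hY0, add_zero]
      exact ((Equiv.mulRight h⁻¹).tsum_eq (Y g)).trans (hY0 g)
    · intro k
      rw [conv_add ha (S1_shift (hY1 g) h) (hY1 h), conv_shift, hYc, hYc, hYc]
      unfold dl
      simp only [mul_inv_eq_iff_eq_mul, one_mul]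
      ring
  refine ⟨fun g => φ g - B a (Y g) D, ?_, ?_⟩
  · intro g h
    have h1 : B a (Y (g * h)) D = B a (Y g) (fun x k => D x (k * h)) + B a (Y h) D := by
      rw [hco, B_add_right ha (S1_shift (hY1 g) h) (hY1 h) hD, B_shift]
    have h2 : B a (Y g) (fun x k => D x (k * h)) - B a (Y g) D =
        B a (Y g) (fun x k => D (x * k) h) - B a (Y g) (fun _ k => 1 * D k h) := by
      rw [← B_sub ha (hY1 g) (fun _ _ => hD _ _) hD,
        ← B_sub ha (hY1 g) (C := 1) (fun _ _ => hD _ _) (fun _ _ => by rw [one_mul]; exact hD _ _)]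
      congr 1
      funext x k
      simp only [D, mul_assoc]
      push_cast
      ring
    have h3 : B a (Y g) (fun _ k => 1 * D k h) = 0 := by
      rw [B_prod ha (hY1 g) (C := 1) (E1 := fun _ => 1) (E2 := fun k => D k h) (by simp)
        (fun _ => hD _ _)]
      simp [ha0]
    have h4 : B a (Y g) (fun x k => D (x * k) h) = D g h := by
      rw [← pr_conv ha (hY1 g) (K := fun x => D x h) (fun _ => hD _ _),
        tsum_congr (fun k => by rw [hYc]), tsum_dl]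
      simp [D, hφ1]
    have h5 : D g h = φ (g * h) - φ g - φ h := by simp [D]
    linear_combination -h1 - h2 + h3 - h4 - h5
  · intro g y hy hy0 hyc
    have := huniq y (Y g) hy (hY1 g) hy0 (hY0 g) (fun k => by rw [hyc, hYc])
    subst this
    have h2 := normB ha hy hD
    simpa using h2

lemma chi_lim (χ : G → ℂ) (hχ : ∀ g h, χ (g * h) = χ g + χ h) (φ : G → ℝ) (g : G) (τ C : ℝ)
    (hτ : Tendsto (fun n : ℕ => φ (g ^ (2 ^ n)) / 2 ^ n) atTop (𝓝 τ))
    (hb : ∀ n : ℕ, ‖χ (g ^ (2 ^ n)) - φ (g ^ (2 ^ n))‖ ≤ C * (n + 1)) : χ g = τ := by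
  have hp : ∀ n : ℕ, χ (g ^ (2 ^ n)) = 2 ^ n * χ g := by
    intro n
    induction n with
    | zero => simp
    | succ n ih => rw [pow_succ, pow_mul, pow_two, hχ, ih]; ring
  have h1 : Tendsto (fun n : ℕ => ((φ (g ^ (2 ^ n)) / 2 ^ n : ℝ) : ℂ)) atTop (𝓝 (τ : ℂ)) :=
    (Complex.continuous_ofReal.tendsto τ).comp hτ
  have h2 : Tendsto (fun n : ℕ => C * ((n : ℝ) ^ 1 / 2 ^ n + (n : ℝ) ^ 0 / 2 ^ n)) atTop
      (𝓝 (C * (0 + 0))) :=
    ((tendsto_pow_const_div_const_pow_of_one_lt 1 one_lt_two).add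
      (tendsto_pow_const_div_const_pow_of_one_lt 0 one_lt_two)).const_mul C
  have h3 : Tendsto (fun n : ℕ => χ g - ((φ (g ^ (2 ^ n)) / 2 ^ n : ℝ) : ℂ)) atTop (𝓝 0) := by
    rw [tendsto_zero_iff_norm_tendsto_zero]
    refine squeeze_zero (fun _ => norm_nonneg _) (fun n => ?_) (by simpa using h2)
    have h4 := hb n
    rw [hp] at h4
    have h5 : χ g - ((φ (g ^ (2 ^ n)) / 2 ^ n : ℝ) : ℂ) =
        (2 ^ n * χ g - φ (g ^ (2 ^ n))) / 2 ^ n := by
      push_cast
      field_simp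
    rw [h5, norm_div, norm_pow, Complex.norm_two]
    calc _ ≤ C * (n + 1) / 2 ^ n := by gcongr
      _ = _ := by field_simp
  have h6 := tendsto_nhds_unique (tendsto_const_nhds.sub h1) h3
  exact sub_eq_zero.mp h6

theorem main :
    ¬ (∀ x : ℕ → FreeGroup ℕ → ℂ,
      (∀ n, Summable (fun g => ‖x n g‖) ∧ ∑' g, x n g = 0) →
      Tendsto (fun n => ∑' g, ‖x n g‖) atTop (𝓝 0) →
      ∃ a : FreeGroup ℕ → ℂ, Summable (fun g => ‖a g‖) ∧ ∑' g, a g = 0 ∧
        ∃ y : ℕ → FreeGroup ℕ → ℂ,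
          (∀ n, Summable (fun g => ‖y n g‖) ∧ ∑' g, y n g = 0) ∧
          Tendsto (fun n => ∑' g, ‖y n g‖) atTop (𝓝 0) ∧
          ∀ n g, x n g = ∑' h, a h * y n (h⁻¹ * g)) := by
  intro H
  obtain ⟨φ, hφ1, hφ, s, t, τ, hτ, hs, ht, hst⟩ := quasi
  obtain ⟨e, he⟩ := exists_surjective_nat (FreeGroup ℕ)
  let Γ : ℕ → FreeGroup ℕ := fun n =>
    if n % 4 = 0 then s ^ (2 ^ (n / 4)) else if n % 4 = 1 then t ^ (2 ^ (n / 4))
    else if n % 4 = 2 then (s * t) ^ (2 ^ (n / 4)) else e (n / 4)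
  have hdl : ∀ g : FreeGroup ℕ, ∑' k, ‖dl g k‖ ≤ 2 := by
    intro g
    have h1 : ∀ g : FreeGroup ℕ, ∑' k, ‖ind (k = g)‖ = 1 := by
      intro g
      rw [tsum_eq_single g]
      · simp [ind_pos]
      · intro b hb; simp [ind_neg hb]
    calc ∑' k, ‖dl g k‖ ≤ ∑' k, (‖ind (k = g)‖ + ‖ind (k = 1)‖) :=
          Summable.tsum_le_tsum (fun _ => norm_sub_le _ _) (S1_dl g)
            (Summable.add (S1_ind g) (S1_ind 1))
      _ = 2 := by rw [Summable.tsum_add (S1_ind g) (S1_ind 1), h1, h1]; norm_num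
  obtain ⟨a, ha, ha0, y, hy, hyt, hxy⟩ := H (fun n k => ((n : ℂ) + 1)⁻¹ * dl (Γ n) k)
    (fun n => ⟨by simpa [norm_mul] using Summable.mul_left _ (S1_dl (Γ n)), by
      rw [tsum_mul_left]
      have := tsum_dl (Γ n) (fun _ => 1)
      simp only [mul_one, sub_self] at this
      rw [this, mul_zero]⟩)
    (by
      have h0 := (tendsto_one_div_add_atTop_nhds_zero_nat (𝕜 := ℝ)).mul_const 2
      rw [zero_mul] at h0
      refine squeeze_zero (fun _ => tsum_nonneg (fun _ => norm_nonneg _)) (fun n => ?_) h0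
      simp only [norm_mul]
      rw [tsum_mul_left]
      have h1 : ‖((n : ℂ) + 1)⁻¹‖ = 1 / ((n : ℝ) + 1) := by
        rw [norm_inv, one_div]
        congr 1
        exact_mod_cast Complex.norm_natCast (n + 1)
      rw [h1]
      exact mul_le_mul_of_nonneg_left (hdl _) (by positivity))
  obtain ⟨C, hC⟩ := hyt.bddAbove_range
  have hC' : ∀ n, ∑' g, ‖y n g‖ ≤ C := fun n => hC ⟨n, rfl⟩
  have hY : ∀ n, ∃ Y, S1 Y ∧ ∑' k, Y k = 0 ∧ (∀ k, conv a Y k = dl (Γ n) k) ∧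
      ∑' k, ‖Y k‖ ≤ C * (n + 1) := by
    intro n
    have hn : ((n : ℂ) + 1) ≠ 0 := by exact_mod_cast Nat.succ_ne_zero n
    refine ⟨fun k => ((n : ℂ) + 1) * y n k, ?_, ?_, ?_, ?_⟩
    · simpa [S1, norm_mul] using Summable.mul_left _ (hy n).1
    · rw [tsum_mul_left, (hy n).2, mul_zero]
    · intro k
      rw [conv_smul]
      unfold conv
      rw [← hxy]
      field_simp
    · simp only [norm_mul]
      rw [tsum_mul_left, mul_comm]
      have h1 : ‖((n : ℂ) + 1)‖ = (n : ℝ) + 1 := by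
        exact_mod_cast Complex.norm_natCast (n + 1)
      rw [h1]
      exact mul_le_mul_of_nonneg_right (hC' n) (by positivity)
  obtain ⟨χ, hχ, hb⟩ := key models_free φ hφ1 hφ ha ha0 (fun g => by
    obtain ⟨m, rfl⟩ := he g
    obtain ⟨Y, h1, h2, h3, -⟩ := hY (4 * m + 3)
    refine ⟨Y, h1, h2, ?_⟩
    have : Γ (4 * m + 3) = e m := by
      simp only [Γ]
      rw [if_neg (by omega), if_neg (by omega), if_neg (by omega)]
      congr 1; omega
    rwa [this] at h3)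
  have hA : 0 ≤ ∑' g, ‖a g‖ := tsum_nonneg (fun _ => norm_nonneg _)
  have hC0 : 0 ≤ C := le_trans (tsum_nonneg (fun _ => norm_nonneg _)) (hC' 0)
  have hgen : ∀ (g : FreeGroup ℕ) (j : ℕ), j < 4 → (∀ m, Γ (4 * m + j) = g ^ (2 ^ m)) →
      ∀ m : ℕ, ‖χ (g ^ (2 ^ m)) - φ (g ^ (2 ^ m))‖ ≤ ((∑' g, ‖a g‖) * C * 4) * (m + 1) := by
    intro g j hj hΓ m
    obtain ⟨Y, h1, h2, h3, h4⟩ := hY (4 * m + j)
    rw [hΓ] at h3
    refine (hb _ Y h1 h2 h3).trans ?_
    have h5 : ((4 * m + j : ℕ) : ℝ) + 1 ≤ 4 * (m + 1) := by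
      have : 4 * m + j + 1 ≤ 4 * (m + 1) := by omega
      exact_mod_cast this
    calc (∑' g, ‖a g‖) * ∑' k, ‖Y k‖ ≤ (∑' g, ‖a g‖) * (C * (4 * (m + 1))) :=
          mul_le_mul_of_nonneg_left (h4.trans (mul_le_mul_of_nonneg_left h5 hC0)) hA
      _ = _ := by ring
  have e1 := chi_lim χ hχ φ s 0 _ hs (hgen s 0 (by norm_num) (fun m => by
    simp only [Γ]
    rw [if_pos (by omega)]
    congr 2; omega))
  have e2 := chi_lim χ hχ φ t 0 _ ht (hgen t 1 (by norm_num) (fun m => by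
    simp only [Γ]
    rw [if_neg (by omega), if_pos (by omega)]
    congr 2; omega))
  have e3 := chi_lim χ hχ φ (s * t) τ _ hst (hgen (s * t) 2 (by norm_num) (fun m => by
    simp only [Γ]
    rw [if_neg (by omega), if_neg (by omega), if_pos (by omega)]
    congr 2; omega))
  rw [hχ, e1, e2] at e3
  apply hτ
  have : (τ : ℂ) = 0 := by rw [← e3]; simp
  exact_mod_cast this

end Pool.Agent.H3.Fns
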