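import Mathlib

set_option autoImplicit false

namespace Pool.Agent.H3.Heat

open Complex Metric Filter Topology

noncomputable def lam : ℝ := Real.exp (-6) / 4

lemma lam_pos : 0 < lam := by unfold lam; positivity

lemma lam_le : lam ≤ 1 / 4 := by
  unfold lam
  have : Real.exp (-6) ≤ 1 := Real.exp_le_one_iff.mpr (by norm_num)
  linarith

noncomputable def term (f : ℂ → ℂ) (k : ℕ) (z : ℂ) : ℂ :=
  (-(lam : ℂ)) ^ k / ((Nat.factorial k : ℕ) : ℂ) * iteratedDeriv (2 * k) f z

noncomputable def T (f : ℂ → ℂ) (z : ℂ) : ℂ := ∑' k : ℕ, term f k z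

def Bd (F : ℂ → ℂ) (M : ℝ) : Prop := ∀ w, ‖F w‖ ≤ M * Real.exp (3 * ‖w‖ ^ 2)

lemma Bd.nonneg {F : ℂ → ℂ} {M : ℝ} (h : Bd F M) : 0 ≤ M := by
  have := (norm_nonneg _).trans (h 0)
  simpa using this

lemma term_bound {F : ℂ → ℂ} (hF : Differentiable ℂ F) {M : ℝ} (hM : Bd F M) (z : ℂ) (k : ℕ) :
    ‖term F k z‖ ≤ M * Real.exp (6 * ‖z‖ ^ 2) * (1 / 2) ^ k := by
  have hM0 := hM.nonneg
  rcases Nat.eq_zero_or_pos k with rfl | hk
  · simp only [term, pow_zero, Nat.factorial_zero, Nat.cast_one, div_one, mul_zero,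
      iteratedDeriv_zero, one_mul, mul_one]
    refine (hM z).trans ?_
    gcongr
    norm_num
  · have hk' : (0 : ℝ) < k := by exact_mod_cast hk
    have hR : 0 < Real.sqrt k := Real.sqrt_pos.mpr hk'
    have hC : ∀ w ∈ sphere z (Real.sqrt k), ‖F w‖ ≤ M * Real.exp (6 * ‖z‖ ^ 2 + 6 * k) := by
      intro w hw
      refine (hM w).trans ?_
      gcongr
      have h1 : ‖w - z‖ = Real.sqrt k := mem_sphere_iff_norm.1 hw
      have h2 : ‖w‖ ≤ ‖z‖ + Real.sqrt k := by
        calc ‖w‖ = ‖z + (w - z)‖ := by ring_nf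
          _ ≤ ‖z‖ + ‖w - z‖ := norm_add_le _ _
          _ = _ := by rw [h1]
      have h3 : Real.sqrt k ^ 2 = k := Real.sq_sqrt hk'.le
      have h4 : ‖w‖ ^ 2 ≤ (‖z‖ + Real.sqrt k) ^ 2 := by gcongr
      nlinarith [sq_nonneg (‖z‖ - Real.sqrt k)]
    have hc := norm_iteratedDeriv_le_of_forall_mem_sphere_norm_le (2 * k) hR
      hF.diffContOnCl hC
    have hpow : Real.sqrt k ^ (2 * k) = (k : ℝ) ^ k := by
      rw [pow_mul, Real.sq_sqrt hk'.le]
    rw [hpow] at hc
    have hfac : ((2 * k).factorial : ℝ) ≤ (2 * k) ^ k * k.factorial := by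
      exact_mod_cast Nat.factorial_two_mul_le k
    have hkf : (0 : ℝ) < k.factorial := by exact_mod_cast Nat.factorial_pos k
    have hn : ‖term F k z‖ = lam ^ k / k.factorial * ‖iteratedDeriv (2 * k) F z‖ := by
      simp [term, norm_mul, norm_div, norm_pow, abs_of_pos lam_pos]
    rw [hn]
    have hl := lam_pos
    calc lam ^ k / k.factorial * ‖iteratedDeriv (2 * k) F z‖
        ≤ lam ^ k / k.factorial * (((2 * k) ^ k * k.factorial) *
          (M * Real.exp (6 * ‖z‖ ^ 2 + 6 * k)) / (k : ℝ) ^ k) := by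
          gcongr
          refine hc.trans ?_
          gcongr
      _ = M * Real.exp (6 * ‖z‖ ^ 2) * (lam * 2 * Real.exp 6) ^ k := by
          rw [Real.exp_add, mul_pow, mul_pow, mul_pow, mul_comm (6 : ℝ) (k : ℝ), Real.exp_nat_mul]
          field_simp
      _ = M * Real.exp (6 * ‖z‖ ^ 2) * (1 / 2) ^ k := by
          congr 2
          unfold lam
          rw [Real.exp_neg]
          field_simp
          norm_num

lemma summable_term {F : ℂ → ℂ} (hF : Differentiable ℂ F) {M : ℝ} (hM : Bd F M) (z : ℂ) :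
    Summable (fun k => term F k z) :=
  Summable.of_norm_bounded (summable_geometric_two.mul_left _) (term_bound hF hM z)

lemma T_bound {F : ℂ → ℂ} (hF : Differentiable ℂ F) {M : ℝ} (hM : Bd F M) (z : ℂ) :
    ‖T F z‖ ≤ 2 * M * Real.exp (6 * ‖z‖ ^ 2) := by
  have h := tsum_of_norm_bounded (hasSum_geometric_two.mul_left (M * Real.exp (6 * ‖z‖ ^ 2)))
    (term_bound hF hM z)
  unfold T
  linarith

lemma diff_iter {F : ℂ → ℂ} (hF : Differentiable ℂ F) (n : ℕ) :
    Differentiable ℂ (iteratedDeriv n F) := by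
  induction n with
  | zero => simpa using hF
  | succ n ih => rw [iteratedDeriv_succ]; exact ih.deriv

lemma T_diff {F : ℂ → ℂ} (hF : Differentiable ℂ F) {M : ℝ} (hM : Bd F M) :
    Differentiable ℂ (T F) := by
  intro z
  have hM0 := hM.nonneg
  have h := differentiableOn_tsum_of_summable_norm (F := fun k => term F k)
    (U := ball (0 : ℂ) (‖z‖ + 1))
    (u := fun k => M * Real.exp (6 * (‖z‖ + 1) ^ 2) * (1 / 2) ^ k)
    (summable_geometric_two.mul_left _)
    (fun k => (((diff_iter hF (2 * k)).const_mul _).differentiableOn)) isOpen_ball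
    (fun k w hw => (term_bound hF hM w k).trans (by
      have : ‖w‖ ≤ ‖z‖ + 1 := by simpa using (mem_ball_zero_iff.1 hw).le
      gcongr))
  exact h.differentiableAt (isOpen_ball.mem_nhds (by simp))

lemma T_sub {F G : ℂ → ℂ} (hF : Differentiable ℂ F) (hG : Differentiable ℂ G) {M N : ℝ}
    (hM : Bd F M) (hN : Bd G N) (z : ℂ) : T (F - G) z = T F z - T G z := by
  unfold T
  rw [← (summable_term hF hM z).tsum_sub (summable_term hG hN z)]
  congr 1
  funext k
  unfold term
  rw [iteratedDeriv_sub (hF.contDiff.contDiffAt) (hG.contDiff.contDiffAt)]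
  ring

lemma T_shift (F : ℂ → ℂ) (x z : ℂ) : T (fun w => F (x + w)) z = T F (x + z) := by
  unfold T term
  simp only [iteratedDeriv_comp_const_add]

lemma T_cos (z : ℂ) : T (fun w => cos w + 2) z = (Real.exp lam : ℂ) * cos z + 2 := by
  unfold T
  have h1 : HasSum (fun k : ℕ => (lam : ℂ) ^ k / (k.factorial : ℂ) * cos z)
      ((Real.exp lam : ℂ) * cos z) := by
    apply HasSum.mul_right
    rw [Complex.ofReal_exp, Complex.exp_eq_exp_ℂ]
    exact NormedSpace.expSeries_div_hasSum_exp (lam : ℂ)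
  have h2 : HasSum (fun k : ℕ => if k = 0 then (2 : ℂ) else 0) 2 := hasSum_ite_eq 0 2
  rw [← (h1.add h2).tsum_eq]
  congr 1
  funext k
  unfold term
  rcases Nat.eq_zero_or_pos k with rfl | hk
  · simp
  · have : iteratedDeriv (2 * k) (fun w => cos w + 2) z = iteratedDeriv (2 * k) cos z := by
      rw [show (fun w => cos w + 2) = (fun w => 2 + cos w) from funext fun w => add_comm _ _]
      exact iteratedDeriv_const_add (by omega) 2
    rw [this, iteratedDeriv_even_cos, if_neg hk.ne']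
    simp only [Pi.mul_apply, Pi.pow_apply, Pi.neg_apply, Pi.one_apply, add_zero]
    rw [neg_pow (lam : ℂ)]
    have : ((-1 : ℂ) ^ k) * (-1) ^ k = 1 := by rw [← mul_pow]; simp
    linear_combination ((lam : ℂ) ^ k / (k.factorial : ℂ) * cos z) * this

/-- persistence of a zero under small holomorphic perturbations -/
lemma persist {g : ℂ → ℂ} (hg : Differentiable ℂ g) {c : ℂ} (hc : g c = 0) (hne : ∃ z, g z ≠ 0)
    {r0 : ℝ} (hr0 : 0 < r0) :
    ∃ m : ℝ, 0 < m ∧ ∀ h : ℂ → ℂ, Differentiable ℂ h →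
      (∀ z ∈ closedBall c r0, ‖h z - g z‖ ≤ m) → ∃ z ∈ closedBall c r0, h z = 0 := by
  have han : AnalyticOnNhd ℂ g Set.univ := hg.differentiableOn.analyticOnNhd isOpen_univ
  have hev : ∀ᶠ z in 𝓝[≠] c, g z ≠ 0 := by
    rcases (han c trivial).eventually_eq_zero_or_eventually_ne_zero with h | h
    · exfalso
      obtain ⟨z, hz⟩ := hne
      exact hz (han.eqOn_zero_of_preconnected_of_eventuallyEq_zero isPreconnected_univ
        (Set.mem_univ c) h (Set.mem_univ z))
    · exact h
  rw [eventually_nhdsWithin_iff, Metric.eventually_nhds_iff] at hev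
  obtain ⟨ε, hε, hev⟩ := hev
  set r := min (ε / 2) r0 with hr
  have hrpos : 0 < r := lt_min (by linarith) hr0
  have hsph : ∀ z ∈ sphere c r, g z ≠ 0 := by
    intro z hz
    have h1 : dist z c = r := hz
    apply hev
    · rw [h1]; exact (min_le_left _ _).trans_lt (by linarith)
    · intro h2
      have h3 : z = c := h2
      rw [h3, dist_self] at h1
      linarith
  obtain ⟨z0, hz0, hmin⟩ := (isCompact_sphere c r).exists_isMinOn
    (NormedSpace.sphere_nonempty.mpr hrpos.le) (hg.continuous.norm.continuousOn)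
  have hm : 0 < ‖g z0‖ := norm_pos_iff.mpr (hsph z0 hz0)
  refine ⟨‖g z0‖ / 3, by positivity, fun h hh hclose => ?_⟩
  by_contra hcon
  push Not at hcon
  have hsub : closedBall c r ⊆ closedBall c r0 := closedBall_subset_closedBall (min_le_right _ _)
  have hd : DiffContOnCl ℂ (fun z => (h z)⁻¹) (ball c r) := by
    apply DifferentiableOn.diffContOnCl
    rw [closure_ball c hrpos.ne']
    exact hh.differentiableOn.inv (fun z hz => hcon z (hsub hz))
  have hb : ∀ z ∈ frontier (ball c r), ‖(h z)⁻¹‖ ≤ (2 * ‖g z0‖ / 3)⁻¹ := by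
    intro z hz
    rw [frontier_ball c hrpos.ne'] at hz
    rw [norm_inv]
    apply inv_anti₀ (by positivity)
    have h1 := hclose z (hsub (sphere_subset_closedBall hz))
    have h2 : ‖g z0‖ ≤ ‖g z‖ := hmin hz
    have h3 : ‖g z‖ ≤ ‖h z‖ + ‖h z - g z‖ := by
      calc ‖g z‖ = ‖h z - (h z - g z)‖ := by ring_nf
        _ ≤ _ := norm_sub_le _ _
    linarith
  have h4 := norm_le_of_forall_mem_frontier_norm_le isBounded_ball hd hb
    (z := c) (subset_closure (mem_ball_self hrpos))
  have h5 := hclose c (mem_closedBall_self hr0.le)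
  rw [hc, sub_zero] at h5
  have h6 : 0 < ‖h c‖ := norm_pos_iff.mpr (hcon c (mem_closedBall_self hr0.le))
  rw [norm_inv, inv_le_inv₀ h6 (by positivity)] at h4
  linarith

end Pool.Agent.H3.Heat
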