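import Pool.Agent.H3.HeatA

set_option autoImplicit false

namespace Pool.Agent.H3.Heat

open Complex Metric Filter Topology

lemma cos_sub_one (u : ℂ) : ‖cos u - 1‖ ≤ Real.cosh ‖u‖ - 1 := by
  have h1 := (hasSum_nat_add_iff' 1).mpr (Complex.hasSum_cos u)
  have h2 := (hasSum_nat_add_iff' 1).mpr (Real.hasSum_cosh ‖u‖)
  simp only [Finset.range_one, Finset.sum_singleton, pow_zero, mul_zero, Nat.factorial_zero,
    Nat.cast_one, div_one, mul_one] at h1 h2
  rw [← h1.tsum_eq]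
  refine tsum_of_norm_bounded h2 (fun n => ?_)
  simp [norm_div, norm_mul, norm_pow]

lemma prod_sub_one {ι : Type*} (s : Finset ι) (a : ι → ℂ) (t : ι → ℝ)
    (h : ∀ i ∈ s, ‖a i - 1‖ ≤ Real.exp (t i) - 1) :
    ‖∏ i ∈ s, a i - 1‖ ≤ Real.exp (∑ i ∈ s, t i) - 1 := by
  classical
  induction s using Finset.induction_on with
  | empty => simp
  | insert i s hi ih =>
    rw [Finset.prod_insert hi, Finset.sum_insert hi, Real.exp_add]
    have h1 := h i (Finset.mem_insert_self _ _)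
    have h2 := ih (fun j hj => h j (Finset.mem_insert_of_mem hj))
    set A := a i - 1
    set B := ∏ i ∈ s, a i - 1
    have e : a i * ∏ i ∈ s, a i - 1 = A * B + A + B := by simp only [A, B]; ring
    rw [e]
    have h3 : ‖A * B + A + B‖ ≤ ‖A‖ * ‖B‖ + ‖A‖ + ‖B‖ := by
      refine (norm_add_le _ _).trans ?_
      gcongr
      refine (norm_add_le _ _).trans ?_
      rw [norm_mul]
    have h4 : ‖A‖ * ‖B‖ ≤ (Real.exp (t i) - 1) * (Real.exp (∑ i ∈ s, t i) - 1) :=
      mul_le_mul h1 h2 (norm_nonneg _) ((norm_nonneg _).trans h1)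
    nlinarith

lemma cos_pow_sub_one (u : ℂ) (m : ℕ) : ‖cos u ^ m - 1‖ ≤ Real.exp (m * (‖u‖ ^ 2 / 2)) - 1 := by
  have := prod_sub_one (Finset.range m) (fun _ => cos u) (fun _ => ‖u‖ ^ 2 / 2)
    (fun _ _ => (cos_sub_one u).trans (by linarith [Real.cosh_le_exp_half_sq ‖u‖]))
  simpa using this

lemma norm_cos_le (u : ℂ) : ‖cos u‖ ≤ Real.cosh ‖u‖ := by
  have h := cos_sub_one u
  have : ‖cos u‖ ≤ ‖cos u - 1‖ + 1 := by
    calc ‖cos u‖ = ‖(cos u - 1) + 1‖ := by ring_nf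
      _ ≤ ‖cos u - 1‖ + ‖(1 : ℂ)‖ := norm_add_le _ _
      _ = _ := by simp
  linarith

lemma cosh_le_exp {t : ℝ} (ht : 0 ≤ t) : Real.cosh t ≤ Real.exp t := by
  rw [Real.cosh_eq]
  have : Real.exp (-t) ≤ Real.exp t := Real.exp_le_exp.mpr (by linarith)
  linarith

lemma norm_cos_le_rpow (u : ℂ) {s : ℝ} (h1 : 1 ≤ s) (h2 : s ≤ 2) :
    ‖cos u‖ ≤ Real.exp (‖u‖ ^ s) := by
  refine (norm_cos_le u).trans ?_
  have h0 := norm_nonneg u
  rcases le_total ‖u‖ 1 with h | h
  · refine (Real.cosh_le_exp_half_sq _).trans (Real.exp_le_exp.mpr ?_)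
    have h3 : ‖u‖ ^ (2 : ℝ) ≤ ‖u‖ ^ s := Real.rpow_le_rpow_of_exponent_ge' h0 h (by linarith) h2
    rw [Real.rpow_two] at h3
    nlinarith [sq_nonneg ‖u‖]
  · refine (cosh_le_exp h0).trans (Real.exp_le_exp.mpr ?_)
    have h3 : ‖u‖ ^ (1 : ℝ) ≤ ‖u‖ ^ s := Real.rpow_le_rpow_of_exponent_le h h1
    simpa using h3

/-- the moduli -/
def r (N j : ℕ) : ℕ := N ^ (3 ^ j)

lemma three_pow (j : ℕ) : j + 1 ≤ 3 ^ j := by
  induction j with
  | zero => simp
  | succ n ih => rw [pow_succ]; omega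

lemma r_ge {N : ℕ} (hN : 2 ≤ N) (j : ℕ) : (N : ℝ) * 2 ^ j ≤ r N j := by
  have h : N * 2 ^ j ≤ r N j := by
    unfold r
    calc N * 2 ^ j ≤ N * N ^ j := by gcongr
      _ = N ^ (j + 1) := by ring
      _ ≤ N ^ (3 ^ j) := Nat.pow_le_pow_right (by omega) (three_pow j)
  exact_mod_cast h

lemma r_pos {N : ℕ} (hN : 2 ≤ N) (j : ℕ) : (0 : ℝ) < r N j := by
  have := r_ge hN j
  have h2 : (0 : ℝ) < N := by exact_mod_cast (by omega : 0 < N)
  have : (0 : ℝ) < N * 2 ^ j := by positivity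
  linarith

lemma r_dvd (N : ℕ) {j k : ℕ} (h : j ≤ k) : r N j ∣ r N k :=
  pow_dvd_pow _ (Nat.pow_le_pow_right (by norm_num) h)

lemma r_gap {N : ℕ} (hN : 2 ≤ N) {j k : ℕ} (h : k < j) :
    (r N k : ℝ) ^ 2 * (N * 2 ^ j) ≤ 2 * r N j := by
  obtain ⟨i, rfl⟩ : ∃ i, j = i + 1 := ⟨j - 1, by omega⟩
  have h1 : (r N k : ℝ) ≤ r N i := by
    have : r N k ≤ r N i :=
      Nat.pow_le_pow_right (by omega) (Nat.pow_le_pow_right (by norm_num) (by omega))
    exact_mod_cast this
  have h2 : (r N (i + 1) : ℝ) = (r N i) ^ 2 * r N i := by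
    unfold r
    push_cast
    rw [pow_succ]
    ring
  have h3 := r_ge hN i
  have h4 := r_pos hN k
  rw [h2, pow_succ 2 i]
  calc (r N k : ℝ) ^ 2 * (N * (2 ^ i * 2)) = 2 * ((r N k : ℝ) ^ 2 * (N * 2 ^ i)) := by ring
    _ ≤ 2 * ((r N i : ℝ) ^ 2 * r N i) := by gcongr

noncomputable def c (N j : ℕ) (z : ℂ) : ℂ := cos (z / (r N j : ℂ)) ^ (r N j)

lemma c_bound {N : ℕ} (hN : 2 ≤ N) (j : ℕ) (z : ℂ) :
    ‖c N j z - 1‖ ≤ Real.exp (‖z‖ ^ 2 / (2 * r N j)) - 1 := by
  refine (cos_pow_sub_one _ _).trans (le_of_eq ?_)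
  have := r_pos hN j
  congr 2
  rw [norm_div, Complex.norm_natCast]
  field_simp

lemma exp_sub_one_le (t : ℝ) : Real.exp t - 1 ≤ t * Real.exp t := by
  have h := Real.add_one_le_exp (-t)
  have h2 : Real.exp (-t) * Real.exp t = 1 := by rw [← Real.exp_add]; simp
  have h3 := Real.exp_pos t
  nlinarith

lemma c_bound' {N : ℕ} (hN : 2 ≤ N) (j : ℕ) {R : ℝ} (z : ℂ) (hz : ‖z‖ ≤ R) :
    ‖c N j z - 1‖ ≤ R ^ 2 * Real.exp (R ^ 2) * (1 / 2) ^ j := by
  refine (c_bound hN j z).trans ((exp_sub_one_le _).trans ?_)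
  have h1 := r_ge hN j
  have h2 : (2 : ℝ) ≤ N := by exact_mod_cast hN
  have h3 : (0 : ℝ) < 2 ^ j := by positivity
  have h4 : (1 : ℝ) ≤ 2 ^ j := one_le_pow₀ (by norm_num)
  have h5 : ‖z‖ ^ 2 ≤ R ^ 2 := by gcongr
  have h6 : ‖z‖ ^ 2 / (2 * r N j) ≤ R ^ 2 * (1 / 2) ^ j := by
    rw [one_div, inv_pow, ← div_eq_mul_inv]
    gcongr
    nlinarith
  have h7 : ‖z‖ ^ 2 / (2 * r N j) ≤ R ^ 2 := by
    refine h6.trans ?_
    have : (1 / 2 : ℝ) ^ j ≤ 1 := pow_le_one₀ (by norm_num) (by norm_num)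
    nlinarith [sq_nonneg R]
  calc _ ≤ (R ^ 2 * (1 / 2) ^ j) * Real.exp (R ^ 2) := by gcongr
    _ = _ := by ring

noncomputable def P (N : ℕ) (z : ℂ) : ℂ := ∏' j, (1 + (c N j z - 1))

lemma c_summable {N : ℕ} (hN : 2 ≤ N) (z : ℂ) : Summable (fun j => ‖c N j z - 1‖) :=
  Summable.of_nonneg_of_le (fun _ => norm_nonneg _) (fun j => c_bound' hN j z le_rfl)
    (summable_geometric_two.mul_left _)

lemma P_tendsto {N : ℕ} (hN : 2 ≤ N) (z : ℂ) :
    Tendsto (fun n => ∏ j ∈ Finset.range n, c N j z) atTop (𝓝 (P N z)) := by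
  have := (multipliable_one_add_of_summable (c_summable hN z)).hasProd.tendsto_prod_nat
  simpa [P] using this

lemma c_diff (N j : ℕ) : Differentiable ℂ (c N j) := by
  unfold c
  fun_prop

lemma P_diff {N : ℕ} (hN : 2 ≤ N) : Differentiable ℂ (P N) := by
  intro z
  have h := Summable.hasProdLocallyUniformlyOn_nat_one_add (f := fun j w => c N j w - 1)
    (K := ball (0 : ℂ) (‖z‖ + 1)) isOpen_ball
    (u := fun j => (‖z‖ + 1) ^ 2 * Real.exp ((‖z‖ + 1) ^ 2) * (1 / 2) ^ j)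
    (summable_geometric_two.mul_left _)
    (Eventually.of_forall fun j w hw => c_bound' hN j w (mem_ball_zero_iff.1 hw).le)
    (fun j => ((c_diff N j).sub_const 1).continuous.continuousOn)
  have h2 := h.tendstoLocallyUniformlyOn_finsetRange.differentiableOn
    (Eventually.of_forall fun n => by
      apply Differentiable.differentiableOn
      apply Differentiable.fun_finsetProd
      intro j _
      exact ((c_diff N j).sub_const 1).const_add 1) isOpen_ball
  exact h2.differentiableAt (isOpen_ball.mem_nhds (by simp))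

lemma P_zero {N : ℕ} (hN : 2 ≤ N) {z : ℂ} (h : P N z = 0) : z.im = 0 := by
  by_contra hz
  refine tprod_one_add_ne_zero_of_summable (fun j => ?_) (c_summable hN z) h
  simp only [add_sub_cancel, c]
  apply pow_ne_zero
  intro h0
  obtain ⟨k, hk⟩ := Complex.cos_eq_zero_iff.mp h0
  have hr : (r N j : ℂ) ≠ 0 := by exact_mod_cast (r_pos hN j).ne'
  rw [div_eq_iff hr] at hk
  apply hz
  have : z = (((2 * k + 1) * Real.pi / 2 * r N j : ℝ) : ℂ) := by rw [hk]; push_cast; ring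
  rw [this, Complex.ofReal_im]

lemma P_real {N : ℕ} (hN : 2 ≤ N) (x : ℝ) : (P N x).im = 0 := by
  have h := (Complex.continuous_im.tendsto _).comp (P_tendsto hN x)
  have h2 : (im ∘ fun n => ∏ j ∈ Finset.range n, c N j x) = fun _ => 0 := by
    funext n
    have : ∏ j ∈ Finset.range n, c N j x
        = ((∏ j ∈ Finset.range n, Real.cos (x / r N j) ^ (r N j) : ℝ) : ℂ) := by
      simp [c]
    simp only [Function.comp, this, Complex.ofReal_im]
  rw [h2] at h
  exact (tendsto_nhds_unique tendsto_const_nhds h).symm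

lemma P_even (N : ℕ) (z : ℂ) : P N (-z) = P N z := by
  simp [P, c, neg_div]

lemma sum_half (n : ℕ) : ∑ j ∈ Finset.range n, (1 / 2 : ℝ) ^ j ≤ 2 := by
  have := hasSum_geometric_two.summable.sum_le_tsum (Finset.range n) (fun _ _ => by positivity)
  rwa [hasSum_geometric_two.tsum_eq] at this

lemma P_shift {N : ℕ} (hN : 2 ≤ N) (k : ℕ) (w : ℂ) :
    ‖P N (((2 * Real.pi * r N k : ℝ) : ℂ) + w) - 1‖
      ≤ Real.exp (200 / N * (‖w‖ ^ 2 + 1)) - 1 := by
  have hN' : (2 : ℝ) ≤ N := by exact_mod_cast hN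
  refine le_of_tendsto' ((P_tendsto hN _).sub_const 1).norm (fun n => ?_)
  refine (prod_sub_one _ _ (fun j => 100 / N * (‖w‖ ^ 2 + 1) * (1 / 2) ^ j) (fun j _ => ?_)).trans ?_
  · have hr := r_pos hN j
    have hge := r_ge hN j
    have h2j : (0 : ℝ) < 2 ^ j := by positivity
    have e : (100 / N * (‖w‖ ^ 2 + 1) * (1 / 2) ^ j : ℝ) = 100 * (‖w‖ ^ 2 + 1) / (N * 2 ^ j) := by
      rw [one_div, inv_pow]; field_simp
    rcases le_or_gt j k with h | h
    · obtain ⟨q, hq⟩ := r_dvd N h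
      have hr' : (r N j : ℂ) ≠ 0 := by exact_mod_cast hr.ne'
      have : c N j (((2 * Real.pi * r N k : ℝ) : ℂ) + w) = c N j w := by
        unfold c
        congr 1
        have : (((2 * Real.pi * r N k : ℝ) : ℂ) + w) / (r N j : ℂ)
            = w / (r N j : ℂ) + (q : ℕ) * (2 * Real.pi) := by
          rw [hq]; push_cast; field_simp; ring
        rw [this, Complex.cos_add_nat_mul_two_pi]
      rw [this]
      refine (c_bound hN j w).trans ?_
      gcongr
      rw [e, div_le_div_iff₀ (by positivity) (by positivity)]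
      nlinarith [sq_nonneg ‖w‖, mul_nonneg (sq_nonneg ‖w‖) hr.le,
        mul_le_mul_of_nonneg_left hge (sq_nonneg ‖w‖)]
    · refine (c_bound hN j _).trans ?_
      gcongr
      have hgap := r_gap hN h
      have hk := r_pos hN k
      have hpi : Real.pi ≤ 4 := Real.pi_le_four
      have hpi0 := Real.pi_pos
      have h1 : ‖((2 * Real.pi * r N k : ℝ) : ℂ) + w‖ ≤ 8 * r N k + ‖w‖ := by
        refine (norm_add_le _ _).trans ?_
        rw [Complex.norm_real, Real.norm_eq_abs, abs_of_pos (by positivity)]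
        nlinarith
      have h2 : ‖((2 * Real.pi * r N k : ℝ) : ℂ) + w‖ ^ 2 ≤ 72 * (r N k : ℝ) ^ 2 + 9 * ‖w‖ ^ 2 := by
        calc _ ≤ (8 * r N k + ‖w‖) ^ 2 := by gcongr
          _ ≤ _ := by nlinarith [sq_nonneg ((r N k : ℝ) - ‖w‖), sq_nonneg ((r N k : ℝ))]
      rw [e, div_le_div_iff₀ (by positivity) (by positivity)]
      have h3 := mul_le_mul_of_nonneg_right h2 (by positivity : (0 : ℝ) ≤ N * 2 ^ j)
      nlinarith [sq_nonneg ‖w‖, mul_nonneg (sq_nonneg ‖w‖) hr.le,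
        mul_le_mul_of_nonneg_left hge (sq_nonneg ‖w‖)]
  · rw [← Finset.mul_sum]
    have := sum_half n
    have h0 : 0 ≤ 100 / (N : ℝ) * (‖w‖ ^ 2 + 1) := by positivity
    refine sub_le_sub_right (Real.exp_le_exp.mpr ?_) 1
    calc _ ≤ 100 / (N : ℝ) * (‖w‖ ^ 2 + 1) * 2 := by gcongr
      _ = _ := by ring

lemma P_growth {N : ℕ} (hN : 2 ≤ N) {s : ℝ} (h1 : 1 < s) (h2 : s ≤ 2) :
    ∃ C : ℝ, 0 ≤ C ∧ ∀ z, ‖P N z‖ ≤ Real.exp (C * ‖z‖ ^ s) := by
  have hN' : (2 : ℝ) ≤ N := by exact_mod_cast hN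
  set q : ℝ := (2 : ℝ) ^ (1 - s) with hq
  have hq0 : 0 ≤ q := by positivity
  have hq1 : q < 1 := Real.rpow_lt_one_of_one_lt_of_neg (by norm_num) (by linarith)
  refine ⟨(1 - q)⁻¹, by have : 0 < 1 - q := by linarith
                        positivity, fun z => ?_⟩
  refine le_of_tendsto' (P_tendsto hN _).norm (fun n => ?_)
  rw [norm_prod]
  calc ∏ j ∈ Finset.range n, ‖c N j z‖ ≤ ∏ j ∈ Finset.range n, Real.exp (q ^ j * ‖z‖ ^ s) := by
        refine Finset.prod_le_prod (fun _ _ => norm_nonneg _) (fun j _ => ?_)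
        have hr := r_pos hN j
        have hge := r_ge hN j
        unfold c
        rw [norm_pow]
        calc _ ≤ Real.exp (‖z / (r N j : ℂ)‖ ^ s) ^ (r N j) := by
              gcongr
              exact norm_cos_le_rpow _ h1.le h2
          _ = Real.exp ((r N j : ℝ) ^ (1 - s) * ‖z‖ ^ s) := by
              rw [← Real.exp_nat_mul, norm_div, Complex.norm_natCast,
                Real.div_rpow (norm_nonneg _) hr.le, Real.rpow_sub hr, Real.rpow_one]
              congr 1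
              ring
          _ ≤ _ := by
              gcongr
              rw [hq, ← Real.rpow_natCast, ← Real.rpow_mul (by norm_num), mul_comm,
                Real.rpow_mul (by norm_num), Real.rpow_natCast]
              have h2j : (0 : ℝ) < 2 ^ j := by positivity
              exact Real.rpow_le_rpow_of_nonpos h2j (by nlinarith) (by linarith)
    _ = Real.exp ((∑ j ∈ Finset.range n, q ^ j) * ‖z‖ ^ s) := by
        rw [← Real.exp_sum, Finset.sum_mul]
    _ ≤ _ := by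
        gcongr
        have := (summable_geometric_of_lt_one hq0 hq1).sum_le_tsum (Finset.range n)
          (fun _ _ => by positivity)
        rwa [tsum_geometric_of_lt_one hq0 hq1] at this

lemma P_lower {N : ℕ} (hN : 2 ≤ N) (K : ℕ) :
    ∃ B : ℝ, 0 < B ∧ ∀ y : ℝ, Real.exp (K * y) ≤ B * ‖P N (y * I)‖ := by
  refine ⟨∏ j ∈ Finset.range K, 2 ^ (r N j), by positivity, fun y => ?_⟩
  refine ge_of_tendsto ((P_tendsto hN (y * I)).norm.const_mul _) ?_
  filter_upwards [eventually_ge_atTop K] with n hn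
  have hc : ∀ j, ‖c N j (y * I)‖ = Real.cosh (y / r N j) ^ (r N j) := by
    intro j
    unfold c
    rw [norm_pow]
    congr 1
    have : (y : ℂ) * I / (r N j : ℂ) = ((y / r N j : ℝ) : ℂ) * I := by push_cast; ring
    rw [this, cos_mul_I, ← Complex.ofReal_cosh, Complex.norm_real, Real.norm_eq_abs,
      abs_of_pos (Real.cosh_pos _)]
  rw [norm_prod]
  simp only [hc]
  have h1 : ∏ j ∈ Finset.range K, Real.cosh (y / r N j) ^ (r N j)
      ≤ ∏ j ∈ Finset.range n, Real.cosh (y / r N j) ^ (r N j) :=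
    Finset.prod_le_prod_of_subset_of_one_le (Finset.range_mono hn)
      (fun j _ => by have := Real.cosh_pos (y / r N j); positivity)
      (fun j _ _ => one_le_pow₀ (Real.one_le_cosh _))
  calc Real.exp (K * y) = ∏ _j ∈ Finset.range K, Real.exp y := by
        rw [Finset.prod_const, Finset.card_range, Real.exp_nat_mul]
    _ ≤ ∏ j ∈ Finset.range K, (2 ^ (r N j) * Real.cosh (y / r N j) ^ (r N j)) := by
        refine Finset.prod_le_prod (fun _ _ => (Real.exp_pos _).le) (fun j _ => ?_)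
        have hr := r_pos hN j
        have e : Real.exp y = Real.exp (y / r N j) ^ (r N j) := by
          rw [← Real.exp_nat_mul]; congr 1; field_simp
        rw [e, ← mul_pow]
        gcongr
        rw [Real.cosh_eq]
        have := Real.exp_pos (-(y / r N j))
        linarith
    _ = (∏ j ∈ Finset.range K, 2 ^ (r N j)) *
          ∏ j ∈ Finset.range K, Real.cosh (y / r N j) ^ (r N j) := Finset.prod_mul_distrib
    _ ≤ _ := by gcongr

end Pool.Agent.H3.Heat
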