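import Pool.Agent.H3.HeatB

set_option autoImplicit false

namespace Pool.Agent.H3.Heat

open Complex Metric Filter Topology

noncomputable def F (N : ℕ) (z : ℂ) : ℂ := (cos z + 2) * P N z

lemma cos2_bound (w : ℂ) : ‖cos w + 2‖ ≤ 3 * Real.exp ‖w‖ := by
  have h1 := (norm_cos_le w).trans (cosh_le_exp (norm_nonneg w))
  have h2 : 1 ≤ Real.exp ‖w‖ := Real.one_le_exp (norm_nonneg w)
  have h3 := norm_add_le (cos w) 2
  have h4 : ‖(2 : ℂ)‖ = 2 := by simp
  linarith

lemma cos2_zero {z : ℂ} (h : cos z + 2 = 0) : |z.im| < 5 := by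
  have h1 : cos z = -2 := by linear_combination h
  have h2 : exp (z * I) + exp (-z * I) = -4 := by
    rw [← Complex.two_cos, h1]; norm_num
  have h3 : ‖exp (z * I)‖ = Real.exp (-z.im) := by rw [Complex.norm_exp]; simp
  have h4 : ‖exp (-z * I)‖ = Real.exp z.im := by rw [Complex.norm_exp]; simp
  have h5 : ‖(-4 : ℂ)‖ = 4 := by simp
  rw [abs_lt]
  constructor
  · by_contra hc
    push Not at hc
    have a1 := Real.add_one_le_exp (-z.im)
    have a2 : Real.exp z.im < 1 := Real.exp_lt_one_iff.mpr (by linarith)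
    have a3 : ‖exp (z * I)‖ ≤ ‖(-4 : ℂ)‖ + ‖exp (-z * I)‖ := by
      rw [show exp (z * I) = -4 - exp (-z * I) by linear_combination h2]
      exact norm_sub_le _ _
    linarith
  · by_contra hc
    push Not at hc
    have a1 := Real.add_one_le_exp (z.im)
    have a2 : Real.exp (-z.im) < 1 := Real.exp_lt_one_iff.mpr (by linarith)
    have a3 : ‖exp (-z * I)‖ ≤ ‖(-4 : ℂ)‖ + ‖exp (z * I)‖ := by
      rw [show exp (-z * I) = -4 - exp (z * I) by linear_combination h2]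
      exact norm_sub_le _ _
    linarith

lemma F_diff {N : ℕ} (hN : 2 ≤ N) : Differentiable ℂ (F N) := by
  have := P_diff hN
  unfold F
  fun_prop

lemma bd_cos : Bd (fun w => cos w + 2) (3 * Real.exp 1) := by
  intro w
  refine (cos2_bound w).trans ?_
  rw [mul_assoc, ← Real.exp_add]
  gcongr
  nlinarith [sq_nonneg (‖w‖ - 1), norm_nonneg w]

lemma bd_diff {N : ℕ} (hN : 200 ≤ N) (k : ℕ) :
    Bd ((fun w => F N (((2 * Real.pi * r N k : ℝ) : ℂ) + w)) - (fun w => cos w + 2))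
      (200 / N * (3 * Real.exp 2)) := by
  intro w
  have hN' : (200 : ℝ) ≤ N := by exact_mod_cast hN
  have hcos : cos (((2 * Real.pi * r N k : ℝ) : ℂ) + w) = cos w := by
    have : (((2 * Real.pi * r N k : ℝ) : ℂ) + w) = w + (r N k : ℕ) * (2 * Real.pi) := by
      push_cast; ring
    rw [this, Complex.cos_add_nat_mul_two_pi]
  have e : ((fun w => F N (((2 * Real.pi * r N k : ℝ) : ℂ) + w)) - (fun w => cos w + 2)) w
      = (cos w + 2) * (P N (((2 * Real.pi * r N k : ℝ) : ℂ) + w) - 1) := by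
    simp only [Pi.sub_apply, F, hcos]; ring
  rw [e, norm_mul]
  have h1 := (P_shift (by omega : 2 ≤ N) k w).trans (exp_sub_one_le _)
  have hd : 200 / (N : ℝ) ≤ 1 := by rw [div_le_one (by linarith)]; exact hN'
  have hd0 : 0 ≤ 200 / (N : ℝ) := by positivity
  have h2 : ‖w‖ ^ 2 + 1 ≤ Real.exp (‖w‖ ^ 2) := Real.add_one_le_exp _
  have h3 : Real.exp (200 / N * (‖w‖ ^ 2 + 1)) ≤ Real.exp (‖w‖ ^ 2 + 1) := by
    apply Real.exp_le_exp.mpr
    nlinarith [sq_nonneg ‖w‖]
  have h4 : Real.exp ‖w‖ ≤ Real.exp (‖w‖ ^ 2 + 1) := by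
    apply Real.exp_le_exp.mpr
    nlinarith [sq_nonneg (‖w‖ - 1), norm_nonneg w]
  calc _ ≤ (3 * Real.exp (‖w‖ ^ 2 + 1)) *
        (200 / N * Real.exp (‖w‖ ^ 2) * Real.exp (‖w‖ ^ 2 + 1)) := by
        refine mul_le_mul ((cos2_bound w).trans (by linarith)) (h1.trans ?_) (norm_nonneg _)
          (by positivity)
        gcongr
    _ = 200 / N * (3 * (Real.exp (‖w‖ ^ 2 + 1) * Real.exp (‖w‖ ^ 2) * Real.exp (‖w‖ ^ 2 + 1))) := by
        ring
    _ = _ := by
        rw [← Real.exp_add, ← Real.exp_add, mul_assoc, mul_assoc, ← Real.exp_add]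
        congr 3
        ring

lemma Bd.add {f g : ℂ → ℂ} {M N : ℝ} (hf : Bd f M) (hg : Bd g N) : Bd (f + g) (M + N) := by
  intro w
  refine (norm_add_le _ _).trans ?_
  have := hf w
  have := hg w
  linarith

lemma F_order {N : ℕ} (hN : 2 ≤ N) (ε : ℝ) (hε : 0 < ε) :
    ∃ R : ℝ, ∀ z : ℂ, R ≤ ‖z‖ → ‖F N z‖ ≤ Real.exp (‖z‖ ^ (1 + ε)) := by
  set e := min (ε / 2) 1 with he
  have he0 : 0 < e := lt_min (by linarith) one_pos
  have he1 : e ≤ 1 := min_le_right _ _
  have he2 : e ≤ ε / 2 := min_le_left _ _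
  obtain ⟨C, hC0, hC⟩ := P_growth hN (s := 1 + e) (by linarith) (by linarith)
  have ht := (tendsto_rpow_atTop (y := ε / 2) (by linarith)).eventually_ge_atTop (C + 3)
  obtain ⟨R, hR⟩ := eventually_atTop.mp ht
  refine ⟨max R 1, fun z hz => ?_⟩
  have h1 : 1 ≤ ‖z‖ := (le_max_right _ _).trans hz
  have h2 := hR _ ((le_max_left _ _).trans hz)
  have h3 : ‖z‖ ≤ ‖z‖ ^ (1 + e) := by
    simpa using Real.rpow_le_rpow_of_exponent_le h1 (by linarith : (1 : ℝ) ≤ 1 + e)
  have h4 : ‖z‖ ^ (1 + e) * ‖z‖ ^ (ε / 2) ≤ ‖z‖ ^ (1 + ε) := by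
    rw [← Real.rpow_add (by linarith)]
    exact Real.rpow_le_rpow_of_exponent_le h1 (by linarith)
  have h5 : (3 : ℝ) ≤ Real.exp 2 := by linarith [Real.add_one_le_exp 2]
  unfold F
  rw [norm_mul]
  calc _ ≤ (Real.exp 2 * Real.exp ‖z‖) * Real.exp (C * ‖z‖ ^ (1 + e)) := by
        refine mul_le_mul ((cos2_bound z).trans (by gcongr)) (hC z) (norm_nonneg _)
          (by positivity)
    _ = Real.exp (2 + ‖z‖ + C * ‖z‖ ^ (1 + e)) := by rw [Real.exp_add, Real.exp_add]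
    _ ≤ _ := by
        apply Real.exp_le_exp.mpr
        nlinarith

lemma F_type {N : ℕ} (hN : 2 ≤ N) (C R : ℝ) :
    ∃ z : ℂ, R ≤ ‖z‖ ∧ Real.exp (C * ‖z‖) < ‖F N z‖ := by
  obtain ⟨K, hK⟩ := exists_nat_ge (C + 1)
  obtain ⟨B, hB, h⟩ := P_lower hN K
  set y := max (max R 0) B with hy
  have hy0 : 0 ≤ y := (le_max_right _ _).trans (le_max_left _ _)
  have hyR : R ≤ y := (le_max_left _ _).trans (le_max_left _ _)
  have hyB : B ≤ y := le_max_right _ _
  have hn : ‖(y : ℂ) * I‖ = y := by simp [abs_of_nonneg hy0]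
  refine ⟨y * I, by rw [hn]; exact hyR, ?_⟩
  rw [hn]
  have h1 := h y
  have h2 : ‖cos ((y : ℂ) * I) + 2‖ = Real.cosh y + 2 := by
    rw [cos_mul_I, ← Complex.ofReal_cosh]
    have : ((Real.cosh y : ℝ) : ℂ) + 2 = ((Real.cosh y + 2 : ℝ) : ℂ) := by push_cast; ring
    rw [this, Complex.norm_real, Real.norm_eq_abs, abs_of_pos (by linarith [Real.cosh_pos y])]
  have h3 : Real.exp (C * y) * Real.exp y ≤ Real.exp (K * y) := by
    rw [← Real.exp_add]
    apply Real.exp_le_exp.mpr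
    nlinarith
  have h4 : B < Real.exp y := by linarith [Real.add_one_le_exp y]
  have h5 : Real.exp (C * y) < ‖P N (y * I)‖ := by
    have h6 := Real.exp_pos (C * y)
    by_contra hc
    push Not at hc
    nlinarith
  unfold F
  rw [norm_mul, h2]
  nlinarith [Real.cosh_pos y, norm_nonneg (P N (y * I))]

theorem main : ∃ f : ℂ → ℂ, Differentiable ℂ f ∧ (∀ x : ℝ, (f (x : ℂ)).im = 0) ∧
    (∀ z : ℂ, f (-z) = f z) ∧
    (∀ ε : ℝ, 0 < ε → ∃ R : ℝ, ∀ z : ℂ, R ≤ ‖z‖ → ‖f z‖ ≤ Real.exp (‖z‖ ^ (1 + ε))) ∧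
    (∀ C R : ℝ, ∃ z : ℂ, R ≤ ‖z‖ ∧ Real.exp (C * ‖z‖) < ‖f z‖) ∧
    (∀ z : ℂ, f z = 0 → |z.im| < 5) ∧
    ¬ {z : ℂ | T f z = 0 ∧ (z.im ≠ 0 ∨ deriv (T f) z = 0)}.Finite := by
  have hel : Real.exp lam < 2 := by
    have h1 := Real.exp_bound_div_one_sub_of_interval lam_pos.le (by linarith [lam_le])
    have h2 : 1 / (1 - lam) < 2 := by
      rw [div_lt_iff₀ (by linarith [lam_le])]; linarith [lam_le]
    linarith
  have hep := Real.exp_pos lam
  have hec : (Real.exp lam : ℂ) ≠ 0 := by exact_mod_cast hep.ne'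
  obtain ⟨z0, hz0⟩ := Complex.cos_surjective (-2 / (Real.exp lam : ℂ))
  have hg0 : T (fun w => cos w + 2) z0 = 0 := by
    rw [T_cos, hz0]; field_simp; ring
  have him : z0.im ≠ 0 := by
    intro h
    have h1 : z0 = (z0.re : ℂ) := by apply Complex.ext <;> simp [h]
    rw [T_cos, h1, ← Complex.ofReal_cos] at hg0
    have h2 : Real.exp lam * Real.cos z0.re + 2 = 0 := by exact_mod_cast hg0
    nlinarith [Real.neg_one_le_cos z0.re]
  have hdc : Differentiable ℂ (fun w => cos w + 2) := by fun_prop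
  obtain ⟨m, hm, hper⟩ := persist (T_diff hdc bd_cos) hg0
    ⟨0, by
      rw [T_cos, cos_zero, mul_one]
      have : Real.exp lam + 2 ≠ 0 := by linarith
      exact_mod_cast this⟩ (r0 := |z0.im| / 2) (by positivity)
  set A : ℝ := 2 * (200 * (3 * Real.exp 2)) * Real.exp (6 * (‖z0‖ + |z0.im| / 2) ^ 2) with hA
  obtain ⟨N, hN⟩ := exists_nat_ge (max 200 (A / m))
  have hN1 : (200 : ℝ) ≤ N := (le_max_left _ _).trans hN
  have hN2 : A / m ≤ N := (le_max_right _ _).trans hN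
  have hN3 : 200 ≤ N := by exact_mod_cast hN1
  have hN4 : 2 ≤ N := by omega
  refine ⟨F N, F_diff hN4, fun x => ?_, fun z => ?_, F_order hN4, F_type hN4, fun z hz => ?_, ?_⟩
  · unfold F
    rw [Complex.mul_im, P_real hN4, ← Complex.ofReal_cos]
    simp [-Complex.ofReal_cos]
  · unfold F
    rw [P_even, cos_neg]
  · rcases mul_eq_zero.mp hz with h | h
    · exact cos2_zero h
    · rw [P_zero hN4 h]; norm_num
  · intro hfin
    obtain ⟨B, hB⟩ := hfin.isBounded.subset_closedBall 0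
    obtain ⟨k, hk⟩ := pow_unbounded_of_one_lt (B + ‖z0‖ + |z0.im|) (by norm_num : (1 : ℝ) < 2)
    set x : ℝ := 2 * Real.pi * r N k with hx
    have hxk : 2 ^ k ≤ x := by
      have h1 := r_ge hN4 k
      have h2 := r_pos hN4 k
      have h3 : (0 : ℝ) < 2 ^ k := by positivity
      have := Real.pi_gt_three
      nlinarith
    have hFd : Differentiable ℂ (fun w => F N ((x : ℂ) + w)) := by
      have := F_diff hN4
      fun_prop
    have hb := bd_diff hN3 k
    have hb2 : Bd (fun w => F N ((x : ℂ) + w)) (200 / N * (3 * Real.exp 2) + 3 * Real.exp 1) := by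
      have := hb.add bd_cos
      rwa [sub_add_cancel] at this
    obtain ⟨z, hz, hz1⟩ := hper (T (fun w => F N ((x : ℂ) + w))) (T_diff hFd hb2) (fun z hz => by
      rw [← T_sub hFd hdc hb2 bd_cos]
      refine (T_bound (hFd.sub hdc) hb z).trans ?_
      have h1 : ‖z‖ ≤ ‖z0‖ + |z0.im| / 2 := by
        have h2 : ‖z - z0‖ ≤ |z0.im| / 2 := mem_closedBall_iff_norm.1 hz
        have h3 := norm_add_le z0 (z - z0)
        rw [add_sub_cancel] at h3
        linarith
      calc _ ≤ 2 * (200 / N * (3 * Real.exp 2)) * Real.exp (6 * (‖z0‖ + |z0.im| / 2) ^ 2) := by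
            gcongr
        _ = A / N := by rw [hA]; ring
        _ ≤ m := by
            rw [div_le_iff₀ (by linarith)]
            rw [div_le_iff₀ hm] at hN2
            linarith)
    rw [T_shift] at hz1
    have h2 : ‖z - z0‖ ≤ |z0.im| / 2 := mem_closedBall_iff_norm.1 hz
    have h3 : |z.im - z0.im| ≤ |z0.im| / 2 := by
      have := Complex.abs_im_le_norm (z - z0)
      rw [Complex.sub_im] at this
      linarith
    have hpos : 0 < |z0.im| := abs_pos.mpr him
    have h4 : ((x : ℂ) + z).im ≠ 0 := by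
      simp only [Complex.add_im, Complex.ofReal_im, zero_add]
      intro h
      rw [h, zero_sub, abs_neg] at h3
      linarith
    have h5 := hB (show (x : ℂ) + z ∈ _ from ⟨hz1, Or.inl h4⟩)
    rw [mem_closedBall_zero_iff] at h5
    have h6 : ‖(x : ℂ)‖ ≤ ‖(x : ℂ) + z‖ + ‖z - z0‖ + ‖z0‖ := by
      calc ‖(x : ℂ)‖ = ‖((x : ℂ) + z) - (z - z0) - z0‖ := by ring_nf
        _ ≤ ‖((x : ℂ) + z) - (z - z0)‖ + ‖z0‖ := norm_sub_le _ _
        _ ≤ _ := by gcongr; exact norm_sub_le _ _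
    rw [Complex.norm_real, Real.norm_eq_abs] at h6
    have := le_abs_self x
    linarith

end Pool.Agent.H3.Heat
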