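import Mathlib

set_option autoImplicit false
open Real

namespace Pool.Agent.H3.Hedge

def Q (x y z : ℝ) : ℝ := 4 * x ^ 2 + y ^ 2 + 3 * z ^ 2
def D (x y z : ℝ) : ℝ := 4 * x ^ 2 + y ^ 2 + 2 * z ^ 2
def P (x y : ℝ) : ℝ := 4 * x ^ 2 - y ^ 2
noncomputable def S (x y z : ℝ) : ℝ := √(Q x y z)
noncomputable def L (x y z : ℝ) : ℝ := log ((S x y z + z) / (S x y z - z))
noncomputable def H (τ x y z : ℝ) : ℝ :=
  S x y z * (4 - 2 * z ^ 2 / D x y z + τ * P x y / Q x y z) - 3 * z * L x y z
noncomputable def g0 (τ x y z : ℝ) : ℝ := S x y z *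
  (16 * x * Q x y z / D x y z ^ 2 + τ * (8 * x * Q x y z - 4 * x * P x y) / Q x y z ^ 2)
noncomputable def g1 (τ x y z : ℝ) : ℝ := S x y z *
  (4 * y * Q x y z / D x y z ^ 2 + τ * (-2 * y * Q x y z - y * P x y) / Q x y z ^ 2)
noncomputable def g2 (τ x y z : ℝ) : ℝ := S x y z *
  (2 * z / D x y z + 8 * z ^ 3 / D x y z ^ 2 + τ * (-3 * z * P x y) / Q x y z ^ 2) - 3 * L x y z

def A00 (x y z : ℝ) := 16 * Q x y z * D x y z + 192 * x ^ 2 * D x y z - 256 * x ^ 2 * Q x y z
def A01 (x y z : ℝ) := 48 * x * y * D x y z - 64 * x * y * Q x y z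
def A02 (x y z : ℝ) := 144 * x * z * D x y z - 128 * x * z * Q x y z
def A11 (x y z : ℝ) := 4 * Q x y z * D x y z + 12 * y ^ 2 * D x y z - 16 * y ^ 2 * Q x y z
def A12 (x y z : ℝ) := 36 * y * z * D x y z - 32 * y * z * Q x y z
def A22 (x y z : ℝ) := (4 * x ^ 2 + y ^ 2) * (32 * Q x y z - 36 * D x y z)
def B00 (x y z : ℝ) := 8 * Q x y z ^ 2 - (64 * x ^ 2 + 4 * P x y) * Q x y z + 48 * P x y * x ^ 2
def B01 (x y z : ℝ) := 12 * P x y * x * y
def B02 (x y z : ℝ) := - (24 * x * z) * Q x y z + 36 * P x y * x * z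
def B11 (x y z : ℝ) := -2 * Q x y z ^ 2 - (-4 * y ^ 2 + P x y) * Q x y z + 3 * P x y * y ^ 2
def B12 (x y z : ℝ) := 6 * y * z * Q x y z + 9 * P x y * y * z
def B22 (x y z : ℝ) := - 3 * P x y * Q x y z + 27 * P x y * z ^ 2

lemma mixed (x y z : ℝ) :
    A00 x y z * B11 x y z + A11 x y z * B00 x y z - 2 * A01 x y z * B01 x y z +
    (A00 x y z * B22 x y z + A22 x y z * B00 x y z - 2 * A02 x y z * B02 x y z) +
    (A11 x y z * B22 x y z + A22 x y z * B11 x y z - 2 * A12 x y z * B12 x y z) = 0 := by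
  simp only [A00, A01, A02, A11, A12, A22, B00, B01, B02, B11, B12, B22, Q, D, P]; ring

section
variable {x y z : ℝ} (hD : 0 < D x y z)
include hD

lemma Q_pos : 0 < Q x y z := by
  have : Q x y z = D x y z + z ^ 2 := by unfold Q D; ring
  rw [this]; positivity

lemma S_pos : 0 < S x y z := sqrt_pos.2 (Q_pos hD)

lemma S_sq : S x y z ^ 2 = Q x y z := sq_sqrt (Q_pos hD).le

lemma S_prod : (S x y z + z) * (S x y z - z) = D x y z := by
  have := S_sq hD
  have e : Q x y z = D x y z + z ^ 2 := by unfold Q D; ring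
  linear_combination this + e

lemma S_gt : |z| < S x y z := by
  apply abs_lt_of_sq_lt_sq _ (S_pos hD).le
  rw [S_sq hD]
  have e : Q x y z = D x y z + z ^ 2 := by unfold Q D; ring
  linarith

variable (a b c : ℝ)

omit hD in
lemma dlin (x a : ℝ) : HasDerivAt (fun t : ℝ => x + t * a) a 0 := by
  simpa using ((hasDerivAt_id (0:ℝ)).mul_const a).const_add x

omit hD in
lemma dQ : HasDerivAt (fun t : ℝ => Q (x + t * a) (y + t * b) (z + t * c))
    (8 * x * a + 2 * y * b + 6 * z * c) 0 := by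
  have := ((((dlin x a).fun_pow 2).const_mul 4).fun_add ((dlin y b).fun_pow 2)).fun_add
    (((dlin z c).fun_pow 2).const_mul 3)
  refine this.congr_deriv ?_
  simp; ring

omit hD in
lemma dD : HasDerivAt (fun t : ℝ => D (x + t * a) (y + t * b) (z + t * c))
    (8 * x * a + 2 * y * b + 4 * z * c) 0 := by
  have := ((((dlin x a).fun_pow 2).const_mul 4).fun_add ((dlin y b).fun_pow 2)).fun_add
    (((dlin z c).fun_pow 2).const_mul 2)
  refine this.congr_deriv ?_
  simp; ring

omit hD in
lemma dP : HasDerivAt (fun t : ℝ => P (x + t * a) (y + t * b)) (8 * x * a - 2 * y * b) 0 := by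
  have := (((dlin x a).fun_pow 2).const_mul 4).fun_sub ((dlin y b).fun_pow 2)
  refine this.congr_deriv ?_
  simp; ring

lemma dS : HasDerivAt (fun t : ℝ => S (x + t * a) (y + t * b) (z + t * c))
    (S x y z * (4 * x * a + y * b + 3 * z * c) / Q x y z) 0 := by
  have := (dQ (x := x) (y := y) (z := z) a b c).sqrt (by simpa using (Q_pos hD).ne')
  refine this.congr_deriv ?_
  simp only [zero_mul, add_zero]
  have h1 := S_sq hD
  have h2 := (S_pos hD).ne'
  change _ / (2 * S x y z) = _
  rw [← h1]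
  field_simp; ring

lemma dL : HasDerivAt (fun t : ℝ => L (x + t * a) (y + t * b) (z + t * c))
    (S x y z * (2 * c - 2 * z * (4 * x * a + y * b + 3 * z * c) / Q x y z) / D x y z) 0 := by
  have h1 := abs_lt.1 (S_gt hD)
  have h2 : S x y z + z ≠ 0 := by linarith [h1.1]
  have h3 : S x y z - z ≠ 0 := by linarith [h1.2]
  have := (((dS hD a b c).fun_add (dlin z c)).fun_div ((dS hD a b c).fun_sub (dlin z c))
    (by simpa using h3)).log (by simpa using ⟨h2, h3⟩)
  refine this.congr_deriv ?_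
  simp only [zero_mul, add_zero]
  rw [← S_prod hD]
  have := (Q_pos hD).ne'
  field_simp; ring

lemma dH (τ : ℝ) : HasDerivAt (fun t : ℝ => H τ (x + t * a) (y + t * b) (z + t * c))
    (g0 τ x y z * a + g1 τ x y z * b + g2 τ x y z * c) 0 := by
  have hQ := (Q_pos hD).ne'
  have hD' := hD.ne'
  have := ((dS hD a b c).fun_mul (((((((dlin z c).fun_pow 2).const_mul 2).fun_div
    (dD (x := x) (y := y) (z := z) a b c) (by simpa using hD')).const_sub 4).fun_add
    (((dP (x := x) (y := y) a b).const_mul τ).fun_div (dQ (x := x) (y := y) (z := z) a b c)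
      (by simpa using hQ))))).fun_sub (((dlin z c).const_mul 3).fun_mul (dL hD a b c))
  refine this.congr_deriv ?_
  simp only [zero_mul, add_zero, g0, g1, g2]
  have e : Q x y z = D x y z + z ^ 2 := by unfold Q D; ring
  generalize S x y z = s at *
  generalize L x y z = l at *
  generalize P x y = p at *
  generalize D x y z = d at *
  rw [e] at hQ ⊢
  field_simp; ring

lemma dg0 (τ : ℝ) : HasDerivAt (fun t : ℝ => g0 τ (x + t * a) (y + t * b) (z + t * c))
    (S x y z * ((A00 x y z * a + A01 x y z * b + A02 x y z * c) / D x y z ^ 3 +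
      τ * (B00 x y z * a + B01 x y z * b + B02 x y z * c) / Q x y z ^ 3)) 0 := by
  have hQ := (Q_pos hD).ne'
  have hD' := hD.ne'
  have q := dQ (x := x) (y := y) (z := z) a b c
  have d := dD (x := x) (y := y) (z := z) a b c
  have p := dP (x := x) (y := y) a b
  have := (dS hD a b c).fun_mul (((((dlin x a).const_mul 16).fun_mul q).fun_div (d.fun_pow 2)
    (by simpa using hD')).fun_add ((((((dlin x a).const_mul 8).fun_mul q).fun_sub
      (((dlin x a).const_mul 4).fun_mul p)).const_mul τ).fun_div (q.fun_pow 2) (by simpa using hQ)))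
  refine this.congr_deriv ?_
  simp only [zero_mul, add_zero, A00, A01, A02, B00, B01, B02]
  generalize S x y z = s at *
  generalize P x y = p at *
  generalize D x y z = d at *
  generalize Q x y z = q at *
  field_simp; ring

lemma dg1 (τ : ℝ) : HasDerivAt (fun t : ℝ => g1 τ (x + t * a) (y + t * b) (z + t * c))
    (S x y z * ((A01 x y z * a + A11 x y z * b + A12 x y z * c) / D x y z ^ 3 +
      τ * (B01 x y z * a + B11 x y z * b + B12 x y z * c) / Q x y z ^ 3)) 0 := by
  have hQ := (Q_pos hD).ne'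
  have hD' := hD.ne'
  have q := dQ (x := x) (y := y) (z := z) a b c
  have d := dD (x := x) (y := y) (z := z) a b c
  have p := dP (x := x) (y := y) a b
  have := (dS hD a b c).fun_mul (((((dlin y b).const_mul 4).fun_mul q).fun_div (d.fun_pow 2)
    (by simpa using hD')).fun_add ((((((dlin y b).const_mul (-2)).fun_mul q).fun_sub
      ((dlin y b).fun_mul p)).const_mul τ).fun_div (q.fun_pow 2) (by simpa using hQ)))
  refine this.congr_deriv ?_
  simp only [zero_mul, add_zero, A01, A11, A12, B01, B11, B12]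
  generalize S x y z = s at *
  generalize P x y = p at *
  generalize D x y z = d at *
  generalize Q x y z = q at *
  field_simp; ring

lemma dg2 (τ : ℝ) : HasDerivAt (fun t : ℝ => g2 τ (x + t * a) (y + t * b) (z + t * c))
    (S x y z * ((A02 x y z * a + A12 x y z * b + A22 x y z * c) / D x y z ^ 3 +
      τ * (B02 x y z * a + B12 x y z * b + B22 x y z * c) / Q x y z ^ 3)) 0 := by
  have hQ := (Q_pos hD).ne'
  have hD' := hD.ne'
  have q := dQ (x := x) (y := y) (z := z) a b c
  have d := dD (x := x) (y := y) (z := z) a b c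
  have p := dP (x := x) (y := y) a b
  have := ((dS hD a b c).fun_mul ((((((dlin z c).const_mul 2).fun_div d (by simpa using hD')).fun_add
    ((((dlin z c).fun_pow 3).const_mul 8).fun_div (d.fun_pow 2) (by simpa using hD'))).fun_add
    (((((dlin z c).const_mul (-3)).fun_mul p).const_mul τ).fun_div (q.fun_pow 2)
      (by simpa using hQ))))).fun_sub ((dL hD a b c).const_mul 3)
  refine this.congr_deriv ?_
  simp only [zero_mul, add_zero, A02, A12, A22, B02, B12, B22]
  have e : Q x y z = D x y z + z ^ 2 := by unfold Q D; ring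
  have e2 : 4 * x ^ 2 + y ^ 2 = D x y z - 2 * z ^ 2 := by unfold D; ring
  rw [e2]
  generalize S x y z = s at *
  generalize P x y = p at *
  generalize D x y z = d at *
  rw [e] at hQ ⊢
  field_simp; ring

lemma bound (h : x ^ 2 + y ^ 2 + z ^ 2 = 1) : |H (-4) x y z| < 16 := by
  have h1 := abs_lt.1 (S_gt hD)
  have hS := S_pos hD
  have hq := S_sq hD
  have hQ := Q_pos hD
  have hp : 0 < S x y z + z := by linarith [h1.1]
  have hm : 0 < S x y z - z := by linarith [h1.2]
  have e : H (-4) x y z = (8 * y ^ 2 + 12 * z ^ 2) / S x y z - 2 * S x y z * z ^ 2 / D x y z -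
      3 * (z * L x y z) := by
    unfold H
    have e1 : P x y = S x y z ^ 2 - 2 * y ^ 2 - 3 * z ^ 2 := by rw [hq]; unfold P Q; ring
    rw [← hq, e1]; field_simp; ring
  have hz1 : |z| ≤ 1 := by rw [← sq_le_one_iff_abs_le_one]; nlinarith [sq_nonneg x, sq_nonneg y]
  have hz3 : 3 / 2 * |z| ≤ S x y z := by
    refine le_of_sq_le_sq ?_ hS.le
    rw [hq, mul_pow, sq_abs]; unfold Q; nlinarith [sq_nonneg x, sq_nonneg y, sq_nonneg z]
  have b1 : 0 ≤ z * L x y z ∧ z * L x y z ≤ 4 := by
    unfold L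
    rcases le_total 0 z with hz | hz
    · rw [abs_of_nonneg hz] at hz1 hz3
      have a1 : 1 ≤ (S x y z + z) / (S x y z - z) := by rw [le_div_iff₀ hm]; linarith
      have a2 : (S x y z + z) / (S x y z - z) ≤ 5 := by rw [div_le_iff₀ hm]; linarith
      have a3 := log_le_sub_one_of_pos (by linarith : 0 < (S x y z + z) / (S x y z - z))
      have a4 := log_nonneg a1
      exact ⟨mul_nonneg hz a4, by nlinarith⟩
    · rw [abs_of_nonpos hz] at hz1 hz3
      have a0 : log ((S x y z + z) / (S x y z - z)) = - log ((S x y z - z) / (S x y z + z)) := by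
        rw [← log_inv, inv_div]
      have a1 : 1 ≤ (S x y z - z) / (S x y z + z) := by rw [le_div_iff₀ hp]; linarith
      have a2 : (S x y z - z) / (S x y z + z) ≤ 5 := by rw [div_le_iff₀ hp]; linarith
      have a3 := log_le_sub_one_of_pos (by linarith : 0 < (S x y z - z) / (S x y z + z))
      have a4 := log_nonneg a1
      rw [a0]
      constructor <;> nlinarith
  have b2 : 0 ≤ 2 * S x y z * z ^ 2 / D x y z := by positivity
  have hS2 : S x y z ≤ 2 := by
    refine le_of_sq_le_sq ?_ (by norm_num)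
    rw [hq]; unfold Q; nlinarith [sq_nonneg x, sq_nonneg y, sq_nonneg z]
  have b3 : 2 * S x y z * z ^ 2 / D x y z ≤ 2 := by
    rw [div_le_iff₀ hD]; unfold D; nlinarith [sq_nonneg x, sq_nonneg y, sq_nonneg z]
  have b4 : 0 ≤ (8 * y ^ 2 + 12 * z ^ 2) / S x y z := by positivity
  have b5 : (8 * y ^ 2 + 12 * z ^ 2) / S x y z < 16 := by
    rw [div_lt_iff₀ hS]
    have w1 : y ^ 2 + 3 * z ^ 2 ≤ S x y z ^ 2 := by rw [hq]; unfold Q; nlinarith [sq_nonneg x]
    have w2 : y ^ 2 + 3 * z ^ 2 ≤ 3 := by nlinarith [sq_nonneg x, sq_nonneg y]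
    have w3 : y ^ 2 + 3 * z ^ 2 < 2 * S x y z := by
      apply lt_of_pow_lt_pow_left₀ 2 (by positivity)
      have w0 : 0 ≤ y ^ 2 + 3 * z ^ 2 := by positivity
      nlinarith
    nlinarith [sq_nonneg z]
  rw [e, abs_lt]
  constructor <;> linarith [b1.1, b1.2]

end

lemma H_smul (τ x y z c : ℝ) (hc : 0 < c) : H τ (c * x) (c * y) (c * z) = c * H τ x y z := by
  have hS : S (c * x) (c * y) (c * z) = c * S x y z := by
    unfold S
    rw [show Q (c * x) (c * y) (c * z) = c ^ 2 * Q x y z by unfold Q; ring,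
      sqrt_mul (sq_nonneg c), sqrt_sq hc.le]
  have hL : L (c * x) (c * y) (c * z) = L x y z := by
    unfold L
    rw [hS, ← mul_add, ← mul_sub, mul_div_mul_left _ _ hc.ne']
  unfold H
  rw [hS, hL, show Q (c * x) (c * y) (c * z) = c ^ 2 * Q x y z by unfold Q; ring,
    show D (c * x) (c * y) (c * z) = c ^ 2 * D x y z by unfold D; ring,
    show τ * P (c * x) (c * y) = c ^ 2 * (τ * P x y) by unfold P; ring,
    show 2 * (c * z) ^ 2 = c ^ 2 * (2 * z ^ 2) by ring,
    mul_div_mul_left _ _ (by positivity), mul_div_mul_left _ _ (by positivity)]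
  ring

lemma H_e (x : ℝ) (h : x ^ 2 = 1) : H 4 x 0 0 = 16 := by
  have : S x 0 0 = 2 := by
    unfold S Q
    rw [h, show (4:ℝ) * 1 + 0 ^ 2 + 3 * 0 ^ 2 = 2 ^ 2 by norm_num, sqrt_sq (by norm_num)]
  unfold H P Q
  rw [this, h]; norm_num

end Pool.Agent.H3.Hedge
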