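import Pool.Agent.H3.HedgeA

set_option autoImplicit false
open Real
open scoped Topology ContDiff

namespace Pool.Agent.H3.Hedge

abbrev E := EuclideanSpace ℝ (Fin 3)

noncomputable def HH (τ : ℝ) (u : E) : ℝ := H τ (u 0) (u 1) (u 2)

lemma D_pos {u : E} (hu : u ≠ 0) : 0 < D (u 0) (u 1) (u 2) := by
  by_contra h
  apply hu
  unfold D at h
  have h0 : u 0 = 0 := by nlinarith [sq_nonneg (u 0), sq_nonneg (u 1), sq_nonneg (u 2)]
  have h1 : u 1 = 0 := by nlinarith [sq_nonneg (u 0), sq_nonneg (u 1), sq_nonneg (u 2)]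
  have h2 : u 2 = 0 := by nlinarith [sq_nonneg (u 0), sq_nonneg (u 1), sq_nonneg (u 2)]
  ext i; fin_cases i <;> simp [h0, h1, h2]

lemma HH_an (τ : ℝ) {u : E} (hu : u ≠ 0) : AnalyticAt ℝ (HH τ) u := by
  have hD := D_pos hu
  have h1 := abs_lt.1 (S_gt hD)
  have hc : ∀ i : Fin 3, ContDiffAt ℝ ω (fun v : E => v i) u := fun i =>
    (EuclideanSpace.proj (𝕜 := ℝ) i : E →L[ℝ] ℝ).contDiff.contDiffAt
  have hQ : ContDiffAt ℝ ω (fun v : E => Q (v 0) (v 1) (v 2)) u :=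
    ((contDiffAt_const.mul ((hc 0).pow 2)).add ((hc 1).pow 2)).add
      (contDiffAt_const.mul ((hc 2).pow 2))
  have hDD : ContDiffAt ℝ ω (fun v : E => D (v 0) (v 1) (v 2)) u :=
    ((contDiffAt_const.mul ((hc 0).pow 2)).add ((hc 1).pow 2)).add
      (contDiffAt_const.mul ((hc 2).pow 2))
  have hP : ContDiffAt ℝ ω (fun v : E => P (v 0) (v 1)) u :=
    (contDiffAt_const.mul ((hc 0).pow 2)).sub ((hc 1).pow 2)
  have hS : ContDiffAt ℝ ω (fun v : E => S (v 0) (v 1) (v 2)) u := hQ.sqrt (Q_pos hD).ne'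
  have hL : ContDiffAt ℝ ω (fun v : E => L (v 0) (v 1) (v 2)) u :=
    ((hS.add (hc 2)).div (hS.sub (hc 2)) (by linarith [h1.2])).log
      (div_ne_zero (by linarith [h1.1]) (by linarith [h1.2]))
  exact ((hS.mul ((contDiffAt_const.sub ((contDiffAt_const.mul ((hc 2).pow 2)).div hDD hD.ne')).add
    ((contDiffAt_const.mul hP).div hQ (Q_pos hD).ne'))).sub
    ((contDiffAt_const.mul (hc 2)).mul hL)).analyticAt

lemma fd_line {f : ℝ → ℝ → ℝ → ℝ} {φ : E → ℝ} {u v : E} {r : ℝ} (hφ : DifferentiableAt ℝ φ u)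
    (he : φ =ᶠ[𝓝 u] fun w => f (w 0) (w 1) (w 2))
    (h : HasDerivAt (fun t : ℝ => f (u 0 + t * v 0) (u 1 + t * v 1) (u 2 + t * v 2)) r 0) :
    fderiv ℝ φ u v = r := by
  have hd : DifferentiableAt ℝ (fun w : E => f (w 0) (w 1) (w 2)) u := he.differentiableAt_iff.1 hφ
  rw [he.fderiv_eq, ← hd.lineDeriv_eq_fderiv]
  apply HasLineDerivAt.lineDeriv
  unfold HasLineDerivAt
  simpa using h

lemma fd1 (τ : ℝ) {u : E} (hu : u ≠ 0) (v : E) : fderiv ℝ (HH τ) u v =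
    g0 τ (u 0) (u 1) (u 2) * v 0 + g1 τ (u 0) (u 1) (u 2) * v 1 + g2 τ (u 0) (u 1) (u 2) * v 2 :=
  fd_line (f := H τ) (HH_an τ hu).differentiableAt (Filter.EventuallyEq.refl _ _)
    (dH (D_pos hu) _ _ _ τ)

lemma fd2 (τ : ℝ) {u : E} (hu : u ≠ 0) (v w : E) {f : ℝ → ℝ → ℝ → ℝ} {r : ℝ}
    (hf : ∀ x y z, g0 τ x y z * w 0 + g1 τ x y z * w 1 + g2 τ x y z * w 2 = f x y z)
    (h : HasDerivAt (fun t : ℝ => f (u 0 + t * v 0) (u 1 + t * v 1) (u 2 + t * v 2)) r 0) :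
    fderiv ℝ (fderiv ℝ (HH τ)) u v w = r := by
  have hd := (HH_an τ hu).fderiv.differentiableAt
  have e : fderiv ℝ (fderiv ℝ (HH τ)) u v w = fderiv ℝ (fun x => fderiv ℝ (HH τ) x w) u v := by
    rw [fderiv_clm_apply hd (differentiableAt_const w)]; simp
  rw [e]
  refine fd_line (hd.clm_apply (differentiableAt_const w)) ?_ h
  filter_upwards [isOpen_ne.mem_nhds hu] with x hx
  rw [fd1 τ hx, hf]

lemma hess (τ : ℝ) {u : E} (hu : u ≠ 0) (v : E) :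
    fderiv ℝ (fderiv ℝ (HH τ)) u v (EuclideanSpace.single 0 1) =
      S (u 0) (u 1) (u 2) * ((A00 (u 0) (u 1) (u 2) * v 0 + A01 (u 0) (u 1) (u 2) * v 1 +
        A02 (u 0) (u 1) (u 2) * v 2) / D (u 0) (u 1) (u 2) ^ 3 +
      τ * (B00 (u 0) (u 1) (u 2) * v 0 + B01 (u 0) (u 1) (u 2) * v 1 +
        B02 (u 0) (u 1) (u 2) * v 2) / Q (u 0) (u 1) (u 2) ^ 3) ∧
    fderiv ℝ (fderiv ℝ (HH τ)) u v (EuclideanSpace.single 1 1) =
      S (u 0) (u 1) (u 2) * ((A01 (u 0) (u 1) (u 2) * v 0 + A11 (u 0) (u 1) (u 2) * v 1 +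
        A12 (u 0) (u 1) (u 2) * v 2) / D (u 0) (u 1) (u 2) ^ 3 +
      τ * (B01 (u 0) (u 1) (u 2) * v 0 + B11 (u 0) (u 1) (u 2) * v 1 +
        B12 (u 0) (u 1) (u 2) * v 2) / Q (u 0) (u 1) (u 2) ^ 3) ∧
    fderiv ℝ (fderiv ℝ (HH τ)) u v (EuclideanSpace.single 2 1) =
      S (u 0) (u 1) (u 2) * ((A02 (u 0) (u 1) (u 2) * v 0 + A12 (u 0) (u 1) (u 2) * v 1 +
        A22 (u 0) (u 1) (u 2) * v 2) / D (u 0) (u 1) (u 2) ^ 3 +
      τ * (B02 (u 0) (u 1) (u 2) * v 0 + B12 (u 0) (u 1) (u 2) * v 1 +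
        B22 (u 0) (u 1) (u 2) * v 2) / Q (u 0) (u 1) (u 2) ^ 3) :=
  ⟨fd2 τ hu v _ (f := g0 τ) (fun _ _ _ => by simp) (dg0 (D_pos hu) _ _ _ τ),
   fd2 τ hu v _ (f := g1 τ) (fun _ _ _ => by simp) (dg1 (D_pos hu) _ _ _ τ),
   fd2 τ hu v _ (f := g2 τ) (fun _ _ _ => by simp) (dg2 (D_pos hu) _ _ _ τ)⟩

end Pool.Agent.H3.Hedge
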