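import Mathlib

set_option autoImplicit false

open Filter

namespace Pool.Agent.H3.IntA

open Nat.Partrec.Code

/-- code `c` has halted on input `0` within `k` steps -/
def hlt (c k : ℕ) : Bool := (evaln k (Denumerable.ofNat Nat.Partrec.Code c) 0).isSome

theorem hlt_prim : Primrec₂ hlt :=
  Primrec.option_isSome.comp (primrec_evaln.comp
    ((Primrec.snd.pair ((Primrec.ofNat Nat.Partrec.Code).comp Primrec.fst)).pair (Primrec.const 0)))

theorem hlt_mono {c k l : ℕ} (h : k ≤ l) (hk : hlt c k = true) : hlt c l = true := by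
  unfold hlt at *
  obtain ⟨x, hx⟩ := Option.isSome_iff_exists.1 hk
  exact Option.isSome_iff_exists.2 ⟨x, evaln_mono h hx⟩

theorem hlt_zero (c : ℕ) : hlt c 0 = false := by simp [hlt, evaln]

theorem dom_iff (c : ℕ) :
    (eval (Denumerable.ofNat Nat.Partrec.Code c) 0).Dom ↔ ∃ k, hlt c k = true := by
  rw [Part.dom_iff_mem]
  simp only [evaln_complete, hlt, Option.isSome_iff_exists]
  exact ⟨fun ⟨x, k, h⟩ => ⟨k, x, h⟩, fun ⟨k, x, h⟩ => ⟨x, k, h⟩⟩

def hh (s : ℕ) : ℕ :=
  if hlt s.unpair.1 (s.unpair.2 + 1) = true ∧ ¬ hlt s.unpair.1 s.unpair.2 = true then s.unpair.1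
  else s

theorem hh_prim : Primrec hh := by
  have h1 : Primrec fun s : ℕ => s.unpair.1 := Primrec.fst.comp Primrec.unpair
  have h2 : Primrec fun s : ℕ => s.unpair.2 := Primrec.snd.comp Primrec.unpair
  exact Primrec.ite (PrimrecPred.and
    (Primrec.eq.comp (hlt_prim.comp h1 (Primrec.succ.comp h2)) (Primrec.const true))
    (PrimrecPred.not (Primrec.eq.comp (hlt_prim.comp h1 h2) (Primrec.const true)))) h1 Primrec.id

theorem hh_zero : hh 0 = 0 := by simp [hh]

theorem hh_big (c : ℕ) : ∀ᶠ s in atTop, c < hh s := by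
  have h1 : ∀ c' : ℕ, ∀ᶠ s : ℕ in atTop, ¬ (s.unpair.1 = c' ∧ hlt c' (s.unpair.2 + 1) = true ∧
      ¬ hlt c' s.unpair.2 = true) := by
    intro c'
    by_cases h : ∃ k, hlt c' k = true
    · obtain ⟨k, hk⟩ := h
      have : ∀ᶠ s in atTop, ∀ j ∈ Finset.range k, Nat.pair c' j < s :=
        (eventually_all_finset _).2 fun j _ => eventually_gt_atTop _
      filter_upwards [this] with s hs ⟨e1, _, e3⟩
      have hj : s.unpair.2 < k := by
        by_contra hc
        exact e3 (hlt_mono (not_lt.1 hc) hk)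
      have := hs _ (Finset.mem_range.2 hj)
      rw [← e1, Nat.pair_unpair] at this
      exact lt_irrefl _ this
    · exact Eventually.of_forall fun s ⟨_, e2, _⟩ => h ⟨_, e2⟩
  have h2 := (eventually_all_finset (Finset.range (c + 1))).2 fun c' _ => h1 c'
  filter_upwards [h2, eventually_gt_atTop c] with s hs hs'
  unfold hh
  split_ifs with h
  · by_contra hc
    exact hs s.unpair.1 (Finset.mem_range.2 (by omega)) ⟨rfl, h⟩
  · exact hs'

/-- true stages -/
def TrueSt (t : ℕ) : Prop := ∀ m, t < m → hh t ≤ hh m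

theorem exists_true (N c : ℕ) : ∃ t, N ≤ t ∧ c < hh t ∧ TrueSt t := by
  classical
  obtain ⟨N', hN'⟩ := eventually_atTop.1 (hh_big c)
  have hex : ∃ v, ∃ t, max N N' ≤ t ∧ hh t = v := ⟨_, _, le_rfl, rfl⟩
  obtain ⟨t, ht, hv⟩ := Nat.find_spec hex
  refine ⟨t, le_trans (le_max_left _ _) ht, hN' t (le_trans (le_max_right _ _) ht), fun m hm => ?_⟩
  rw [hv]
  exact Nat.find_min' hex ⟨m, by omega, rfl⟩

theorem halt_true {t c k : ℕ} (ht : TrueSt t) (hc : c < hh t) (hk : hlt c k = true) :
    hlt c (t + 1) = true := by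
  classical
  have hex : ∃ k, hlt c k = true := ⟨k, hk⟩
  have h1 := Nat.find_spec hex
  obtain ⟨j, hj⟩ : ∃ j, Nat.find hex = j + 1 := by
    refine Nat.exists_eq_succ_of_ne_zero fun h0 => ?_
    rw [h0, hlt_zero] at h1
    exact absurd h1 (by simp)
  have h2 : ¬ hlt c j = true := Nat.find_min hex (by omega)
  rw [hj] at h1
  have h3 : hh (Nat.pair c j) = c := by simp [hh, h1, h2]
  have h4 : Nat.pair c j ≤ t := by
    by_contra h
    have := ht _ (not_le.1 h)
    omega
  exact hlt_mono (by have := Nat.right_le_pair c j; omega) h1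

theorem true_not_comp : ¬ ComputablePred TrueSt := by
  intro h
  obtain ⟨f, hf, hfe⟩ := ComputablePred.computable_iff.1 h
  refine ComputablePred.halting_problem_not_re 0 ?_
  let q : Nat.Partrec.Code → ℕ → Bool := fun c t =>
    f t && (decide (Encodable.encode c < hh t) && !hlt (Encodable.encode c) (t + 1))
  have hq : Computable₂ q := by
    have e1 : Primrec fun a : Nat.Partrec.Code × ℕ => Encodable.encode a.1 :=
      Primrec.encode.comp Primrec.fst
    exact Primrec.and.to_comp.comp (hf.comp Computable.snd)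
      (Primrec.and.comp (Primrec.nat_lt.comp e1 (hh_prim.comp Primrec.snd)).decide
        (Primrec.not.comp (hlt_prim.comp e1 (Primrec.succ.comp Primrec.snd)))).to_comp
  refine (Partrec.dom_re (Partrec.rfind hq.partrec₂)).of_eq fun c => ?_
  have e : c = Denumerable.ofNat Nat.Partrec.Code (Encodable.encode c) := by simp
  have hT : ∀ t, TrueSt t ↔ f t = true := fun t => by rw [hfe]
  conv_rhs => rw [e, dom_iff]
  rw [Nat.rfind_dom]
  simp only [PFun.coe_val, Part.mem_some_iff, Part.some_dom, implies_true, and_true]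
  constructor
  · rintro ⟨t, ht⟩ ⟨k, hk⟩
    simp only [q, Bool.true_eq, Bool.and_eq_true, decide_eq_true_eq, Bool.not_eq_true'] at ht
    have := halt_true ((hT t).2 ht.1) ht.2.1 hk
    rw [ht.2.2] at this
    exact absurd this (by simp)
  · intro hn
    obtain ⟨t, -, h1, h2⟩ := exists_true 0 (Encodable.encode c)
    refine ⟨t, ?_⟩
    simp only [q, Bool.true_eq, Bool.and_eq_true, decide_eq_true_eq, Bool.not_eq_true']
    refine ⟨(hT t).1 h2, h1, ?_⟩
    by_contra hc
    exact hn ⟨t + 1, by simpa using hc⟩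

/-- parent of `n + 1` -/
def par (n : ℕ) : ℕ := Nat.findGreatest (fun k => hh k ≤ hh (n + 1)) n

theorem par_le (n : ℕ) : par n ≤ n := Nat.findGreatest_le n

theorem par_prim : Primrec par :=
  Primrec.nat_findGreatest (p := fun n k => hh k ≤ hh (n + 1)) Primrec.id
    (Primrec.nat_le.comp (hh_prim.comp Primrec.snd) (hh_prim.comp (Primrec.succ.comp Primrec.fst)))

theorem hh_par (n : ℕ) : hh (par n) ≤ hh (n + 1) :=
  Nat.findGreatest_spec (P := fun k => hh k ≤ hh (n + 1)) (Nat.zero_le n) (by simp [hh_zero])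

theorem le_par {n k : ℕ} (hk : k ≤ n) (h : hh k ≤ hh (n + 1)) : k ≤ par n :=
  Nat.le_findGreatest (P := fun k => hh k ≤ hh (n + 1)) hk h

def X (c : ℕ) : ℕ → Bool
  | 0 => c.testBit 0
  | n + 1 => xor (c.testBit (n + 1)) (X c (par n))
decreasing_by exact Nat.lt_succ_of_le (par_le n)

theorem X_zero (c : ℕ) : X c 0 = c.testBit 0 := by rw [X]

theorem X_succ (c n : ℕ) : X c (n + 1) = xor (c.testBit (n + 1)) (X c (par n)) := by rw [X]

theorem pow_prim : Primrec fun n : ℕ => 2 ^ n :=
  (Primrec₂.unpaired'.1 Nat.Primrec.pow).comp (Primrec.const 2) Primrec.id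

theorem testBit_prim : Primrec₂ Nat.testBit := by
  have : Primrec fun a : ℕ × ℕ => decide (a.1 / 2 ^ a.2 % 2 = 1) :=
    (Primrec.eq.comp (Primrec.nat_mod.comp (Primrec.nat_div.comp Primrec.fst
      (pow_prim.comp Primrec.snd)) (Primrec.const 2)) (Primrec.const 1)).decide
  exact this.of_eq fun a => (Nat.testBit_eq_decide_div_mod_eq).symm

theorem X_prim : Primrec₂ X := by
  refine Primrec.nat_strong_rec X (g := fun c l => some
    (if l.length = 0 then c.testBit 0 else
      xor (c.testBit l.length) (l.getD (par (l.length - 1)) false))) ?_ ?_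
  · have hl : Primrec fun a : ℕ × List Bool => a.2.length := Primrec.list_length.comp Primrec.snd
    exact Primrec.option_some.comp (Primrec.ite (Primrec.eq.comp hl (Primrec.const 0))
      (testBit_prim.comp Primrec.fst (Primrec.const 0))
      ((Primrec.dom_bool₂ xor).comp (testBit_prim.comp Primrec.fst hl)
        ((Primrec.list_getD false).comp Primrec.snd
          (par_prim.comp (Primrec.nat_sub.comp hl (Primrec.const 1))))))
  · intro c n
    cases n with
    | zero => simp [X_zero]
    | succ n =>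
      have := par_le n
      simp [X_succ, List.getD_eq_getElem?_getD, Nat.lt_succ_of_le this]

theorem bit_false {c n : ℕ} (h : c ≤ n) : c.testBit n = false :=
  Nat.testBit_lt_two_pow (lt_of_le_of_lt h Nat.lt_two_pow_self)

theorem X_const {c t : ℕ} (ht : TrueSt t) (hc : ∀ n, t < n → c.testBit n = false) :
    ∀ n, t ≤ n → X c n = X c t := by
  intro n
  induction n using Nat.strong_induction_on with
  | _ n ih =>
    intro hn
    rcases Nat.eq_or_lt_of_le hn with rfl | h
    · rfl
    obtain ⟨n, rfl⟩ : ∃ m, n = m + 1 := ⟨n - 1, by omega⟩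
    rw [X_succ, hc _ h, Bool.false_xor]
    exact ih _ (Nat.lt_succ_of_le (par_le n)) (le_par (by omega) (ht _ h))

theorem X_ev (c : ℕ) : ∃ b t, ∀ n, t ≤ n → X c n = b := by
  obtain ⟨t, h1, -, h2⟩ := exists_true c 0
  exact ⟨_, t, X_const h2 fun n hn => bit_false (by omega)⟩

theorem X_inj {c d : ℕ} (h : ∀ n, X c n = X d n) : c = d := by
  refine Nat.eq_of_testBit_eq fun n => ?_
  cases n with
  | zero => rw [← X_zero, ← X_zero, h]
  | succ n =>
    have := h (n + 1)
    rw [X_succ, X_succ, h] at this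
    simpa using this

theorem X_surj (Y : ℕ → Bool) (b : Bool) (N : ℕ) (hY : ∀ n, N ≤ n → Y n = b) :
    ∃ c, ∀ n, X c n = Y n := by
  obtain ⟨t, h1, -, h2⟩ := exists_true N 0
  let β : ℕ → Bool := fun n => if n = 0 then Y 0 else xor (Y n) (Y (par (n - 1)))
  have hβ : ∀ n, (Nat.ofBits fun i : Fin (t + 1) => β i).testBit n = β n := by
    intro n
    rw [Nat.testBit_ofBits]
    split_ifs with h
    · rfl
    · obtain ⟨n, rfl⟩ : ∃ m, n = m + 1 := ⟨n - 1, by omega⟩
      have h3 : t ≤ par n := le_par (by omega) (h2 _ (by omega))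
      simp [β, hY (n + 1) (by omega), hY (par n) (by omega)]
  refine ⟨Nat.ofBits fun i : Fin (t + 1) => β i, fun n => ?_⟩
  induction n using Nat.strong_induction_on with
  | _ n ih =>
    cases n with
    | zero => rw [X_zero, hβ]; simp [β]
    | succ n =>
      rw [X_succ, hβ, ih _ (Nat.lt_succ_of_le (par_le n))]
      simp [β]

theorem X_op (op : Bool → Bool → Bool) (a b d : ℕ)
    (h : ∀ j < a + b + d + 1, X d j = op (X a j) (X b j)) : ∀ j, X d j = op (X a j) (X b j) := by
  intro j
  induction j using Nat.strong_induction_on with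
  | _ j ih =>
    by_cases hj : j < a + b + d + 1
    · exact h j hj
    obtain ⟨n, rfl⟩ : ∃ m, j = m + 1 := ⟨j - 1, by omega⟩
    rw [X_succ, X_succ, X_succ, bit_false (by omega : a ≤ n + 1), bit_false (by omega : b ≤ n + 1),
      bit_false (by omega : d ≤ n + 1), ih _ (Nat.lt_succ_of_le (par_le n))]
    simp

theorem op_comp (op : Bool → Bool → Bool) (f : ℕ → ℕ → ℕ)
    (hf : ∀ a b j, X (f a b) j = op (X a j) (X b j)) : Computable₂ f := by
  classical
  let R : ℕ → (ℕ × ℕ) × ℕ → Prop := fun j a => X a.2 j = op (X a.1.1 j) (X a.1.2 j)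
  have hR : PrimrecRel R := Primrec.eq.comp (X_prim.comp (Primrec.snd.comp Primrec.snd) Primrec.fst)
    ((Primrec.dom_bool₂ op).comp
      (X_prim.comp (Primrec.fst.comp (Primrec.fst.comp Primrec.snd)) Primrec.fst)
      (X_prim.comp (Primrec.snd.comp (Primrec.fst.comp Primrec.snd)) Primrec.fst))
  have h1 : PrimrecPred fun a : (ℕ × ℕ) × ℕ =>
      ∀ j ∈ List.range (a.1.1 + a.1.2 + a.2 + 1), R j a :=
    hR.forall_mem_list.comp (Primrec.list_range.comp (Primrec.succ.comp (Primrec.nat_add.comp
      (Primrec.nat_add.comp (Primrec.fst.comp Primrec.fst) (Primrec.snd.comp Primrec.fst))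
      Primrec.snd))) Primrec.id
  have h2 : Computable₂ fun (a : ℕ × ℕ) (d : ℕ) =>
      decide (∀ j ∈ List.range (a.1 + a.2 + d + 1), R j (a, d)) :=
    (h1.decide.to_comp).of_eq fun a => by simp
  refine (Partrec.rfind h2.partrec₂).of_eq_tot fun a => ?_
  rw [Nat.mem_rfind]
  simp only [PFun.coe_val, Part.mem_some_iff, Bool.true_eq, decide_eq_true_eq, Bool.false_eq,
    decide_eq_false_iff_not, List.mem_range]
  refine ⟨fun j _ => hf _ _ j, fun {m} hm hc => ?_⟩
  have := X_inj (c := m) (d := f a.1 a.2) fun j => by rw [hf]; exact X_op op a.1 a.2 m hc j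
  omega

theorem X_pow_anc {t : ℕ} : ∀ n, X (2 ^ t) n = true → t ≤ n ∧ ∀ j, t ≤ j → j ≤ n → hh t ≤ hh j := by
  intro n
  induction n using Nat.strong_induction_on with
  | _ n ih =>
    intro hn
    by_cases hnt : n = t
    · subst hnt
      exact ⟨le_rfl, fun j h1 h2 => by rw [le_antisymm h2 h1]⟩
    cases n with
    | zero =>
      rw [X_zero, Nat.testBit_two_pow] at hn
      exact absurd (by simpa using hn) (Ne.symm hnt)
    | succ n =>
      rw [X_succ, Nat.testBit_two_pow, decide_eq_false (Ne.symm hnt), Bool.false_xor] at hn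
      obtain ⟨h1, h2⟩ := ih _ (Nat.lt_succ_of_le (par_le n)) hn
      have h3 := par_le n
      have h4 := hh_par n
      have h5 := h2 _ h1 le_rfl
      refine ⟨by omega, fun j hj1 hj2 => ?_⟩
      by_cases hj : j ≤ par n
      · exact h2 j hj1 hj
      rcases Nat.eq_or_lt_of_le hj2 with rfl | hj3
      · omega
      · have : ¬ hh j ≤ hh (n + 1) := fun hc => hj (le_par (by omega) hc)
        omega

theorem X_pow_self (t : ℕ) : X (2 ^ t) t = true := by
  cases t with
  | zero => simp [X_zero]
  | succ n =>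
    rw [X_succ, Nat.testBit_two_pow_self]
    have : X (2 ^ (n + 1)) (par n) = false := by
      by_contra h
      have := (X_pow_anc (t := n + 1) (par n) (by simpa using h)).1
      have := par_le n
      omega
    simp [this]

theorem true_iff (t : ℕ) : TrueSt t ↔ {n | X (2 ^ t) n = true}.Infinite := by
  constructor
  · intro ht
    refine (Set.Ici_infinite t).mono fun n hn => ?_
    have := X_const (c := 2 ^ t) ht (fun n hn => by
      rw [Nat.testBit_two_pow]; simpa using hn.ne) n hn
    simpa [X_pow_self] using this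
  · intro h m hm
    obtain ⟨n, hn, hmn⟩ := h.exists_gt m
    exact (X_pow_anc n hn).2 m hm.le hmn.le

end Pool.Agent.H3.IntA
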