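import Mathlib

set_option maxHeartbeats 400000

open Matrix
open scoped ComplexOrder

namespace H3Lee

variable {n : Type*} [Fintype n] [DecidableEq n]

/-- real part of the trace -/
noncomputable def T (X : Matrix n n ℂ) : ℝ := (Matrix.trace X).re

/-- squared Frobenius norm -/
noncomputable def N (X : Matrix n n ℂ) : ℝ := T (Xᴴ * X)

omit [DecidableEq n] in
lemma T_add (X Y : Matrix n n ℂ) : T (X + Y) = T X + T Y := by simp [T]
omit [DecidableEq n] in
lemma T_sub (X Y : Matrix n n ℂ) : T (X - Y) = T X - T Y := by simp [T]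
omit [DecidableEq n] in
lemma T_smul (c : ℝ) (X : Matrix n n ℂ) : T ((c : ℂ) • X) = c * T X := by simp [T]
omit [DecidableEq n] in
lemma T_comm (X Y : Matrix n n ℂ) : T (X * Y) = T (Y * X) := by
  unfold T; rw [Matrix.trace_mul_comm]
omit [DecidableEq n] in
lemma T_star (X : Matrix n n ℂ) : T Xᴴ = T X := by
  unfold T; rw [Matrix.trace_conjTranspose]; simp
omit [DecidableEq n] in
lemma T_zero : T (0 : Matrix n n ℂ) = 0 := by simp [T]

omit [DecidableEq n] in
lemma T_psd {P : Matrix n n ℂ} (h : P.PosSemidef) : 0 ≤ T P := by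
  have := h.trace_nonneg
  exact (Complex.nonneg_iff.mp this).1

omit [DecidableEq n] in
lemma N_nonneg (X : Matrix n n ℂ) : 0 ≤ N X := T_psd (posSemidef_conjTranspose_mul_self X)

omit [DecidableEq n] in
lemma N_eq_zero {X : Matrix n n ℂ} (h : N X = 0) : X = 0 := by
  have h1 := (posSemidef_conjTranspose_mul_self X).trace_nonneg
  have h2 := Complex.nonneg_iff.mp h1
  apply Matrix.trace_conjTranspose_mul_self_eq_zero_iff.mp
  apply Complex.ext
  · exact h
  · simpa using h2.2.symm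

omit [DecidableEq n] in
lemma N_star (X : Matrix n n ℂ) : N Xᴴ = N X := by
  unfold N; rw [conjTranspose_conjTranspose, T_comm]

omit [DecidableEq n] in
lemma T_inner_comm (X Y : Matrix n n ℂ) : T (Yᴴ * X) = T (Xᴴ * Y) := by
  rw [← T_star, conjTranspose_mul, conjTranspose_conjTranspose]

omit [DecidableEq n] in
lemma N_add (X Y : Matrix n n ℂ) : N (X + Y) = N X + N Y + 2 * T (Xᴴ * Y) := by
  unfold N
  rw [conjTranspose_add, add_mul, mul_add, mul_add, T_add, T_add, T_add, T_inner_comm X Y]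
  ring

omit [DecidableEq n] in
lemma amgm (X Y : Matrix n n ℂ) {l : ℝ} (hl : 0 < l) :
    2 * T (Xᴴ * Y) ≤ l * N X + N Y / l := by
  have h := N_nonneg (((l : ℝ) : ℂ) • X - Y)
  have e : N (((l : ℝ) : ℂ) • X - Y) = l * (l * N X) - 2 * l * T (Xᴴ * Y) + N Y := by
    unfold N
    rw [conjTranspose_sub, conjTranspose_smul, sub_mul, mul_sub, mul_sub, T_sub, T_sub, T_sub]
    have hs : star ((l : ℝ) : ℂ) = ((l : ℝ) : ℂ) := Complex.conj_ofReal l
    rw [hs, smul_mul_assoc, smul_mul_assoc, mul_smul_comm, mul_smul_comm, T_smul, T_smul, T_smul,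
      T_smul, T_inner_comm X Y]
    ring
  rw [e] at h
  have : 2 * T (Xᴴ * Y) = (2 * l * T (Xᴴ * Y)) / l := by field_simp
  rw [this]
  have h2 : l * N X + N Y / l = (l * (l * N X) + N Y) / l := by field_simp
  rw [h2]
  apply div_le_div_of_nonneg_right _ hl.le
  linarith

/-- spectral data -/
structure FC (n : Type*) [Fintype n] [DecidableEq n] where
  V : Matrix n n ℂ
  a : n → ℝ
  h1 : Vᴴ * V = 1
  h2 : V * Vᴴ = 1
  ha : ∀ i, 0 ≤ a i

noncomputable def FC.F (D : FC n) (φ : ℝ → ℝ) : Matrix n n ℂ :=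
  D.V * diagonal (fun i => ((φ (D.a i) : ℝ) : ℂ)) * D.Vᴴ

namespace FC
variable (D : FC n)

lemma mul (φ ψ : ℝ → ℝ) : D.F φ * D.F ψ = D.F (fun t => φ t * ψ t) := by
  unfold F
  calc D.V * diagonal (fun i => ((φ (D.a i) : ℝ) : ℂ)) * D.Vᴴ *
        (D.V * diagonal (fun i => ((ψ (D.a i) : ℝ) : ℂ)) * D.Vᴴ)
      = D.V * (diagonal (fun i => ((φ (D.a i) : ℝ) : ℂ)) * (D.Vᴴ * D.V) *
          diagonal (fun i => ((ψ (D.a i) : ℝ) : ℂ))) * D.Vᴴ := by simp only [Matrix.mul_assoc]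
    _ = _ := by
      rw [D.h1, Matrix.mul_one, diagonal_mul_diagonal]
      simp

lemma add (φ ψ : ℝ → ℝ) : D.F φ + D.F ψ = D.F (fun t => φ t + ψ t) := by
  unfold F
  rw [← Matrix.add_mul, ← Matrix.mul_add, diagonal_add]
  simp

lemma smul (c : ℝ) (φ : ℝ → ℝ) : (c : ℂ) • D.F φ = D.F (fun t => c * φ t) := by
  unfold F
  rw [← Matrix.smul_mul, ← Matrix.mul_smul, ← diagonal_smul]
  congr 3
  funext i
  simp

lemma one : D.F (fun _ => 1) = 1 := by
  unfold F
  simp [D.h2]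

lemma zero : D.F (fun _ => 0) = 0 := by
  unfold F
  simp

lemma herm (φ : ℝ → ℝ) : (D.F φ)ᴴ = D.F φ := by
  unfold F
  rw [conjTranspose_mul, conjTranspose_mul, conjTranspose_conjTranspose, diagonal_conjTranspose,
    Matrix.mul_assoc]
  congr 3
  funext i
  simp

lemma ext' {φ ψ : ℝ → ℝ} (h : ∀ i, φ (D.a i) = ψ (D.a i)) : D.F φ = D.F ψ := by
  unfold F
  congr 3
  funext i
  rw [h i]

lemma ext {φ ψ : ℝ → ℝ} (h : ∀ t, 0 ≤ t → φ t = ψ t) : D.F φ = D.F ψ :=
  D.ext' fun i => h _ (D.ha i)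

lemma sq {φ : ℝ → ℝ} (h : ∀ t, 0 ≤ t → 0 ≤ φ t) :
    D.F φ = D.F (fun t => √(φ t)) * D.F (fun t => √(φ t)) := by
  rw [D.mul]
  exact D.ext fun t ht => (Real.mul_self_sqrt (h t ht)).symm

lemma psd {φ : ℝ → ℝ} (h : ∀ t, 0 ≤ t → 0 ≤ φ t) : (D.F φ).PosSemidef := by
  rw [D.sq h]
  have := posSemidef_conjTranspose_mul_self (D.F (fun t => √(φ t)))
  rwa [D.herm] at this

lemma trace (φ : ℝ → ℝ) : T (D.F φ) = ∑ i, φ (D.a i) := by
  unfold F
  rw [T_comm, ← Matrix.mul_assoc, D.h1, Matrix.one_mul]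
  simp [T]

lemma mul_psd {φ : ℝ → ℝ} (h : ∀ t, 0 ≤ t → 0 ≤ φ t) {Q : Matrix n n ℂ} (hQ : Q.PosSemidef) :
    0 ≤ T (D.F φ * Q) := by
  rw [D.sq h, Matrix.mul_assoc, T_comm]
  have := hQ.mul_mul_conjTranspose_same (D.F (fun t => √(φ t)))
  rw [D.herm] at this
  exact T_psd this

lemma mono {φ ψ : ℝ → ℝ} (h : ∀ t, 0 ≤ t → φ t ≤ ψ t) {Q : Matrix n n ℂ} (hQ : Q.PosSemidef) :
    T (D.F φ * Q) ≤ T (D.F ψ * Q) := by
  have h1 := D.mul_psd (φ := fun t => ψ t - φ t) (fun t ht => sub_nonneg.mpr (h t ht)) hQ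
  have h2 : D.F ψ = D.F φ + D.F (fun t => ψ t - φ t) := by
    rw [D.add]; exact D.ext fun t _ => by ring
  rw [h2, Matrix.add_mul, T_add]
  linarith

end FC

/-- the spectral data of a positive semidefinite matrix -/
noncomputable def fcOf {P : Matrix n n ℂ} (h : P.PosSemidef) : FC n where
  V := (h.1.eigenvectorUnitary : Matrix n n ℂ)
  a := h.1.eigenvalues
  h1 := by
    have := Unitary.coe_star_mul_self h.1.eigenvectorUnitary
    simpa [star_eq_conjTranspose] using this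
  h2 := by
    have := Unitary.coe_mul_star_self h.1.eigenvectorUnitary
    simpa [star_eq_conjTranspose] using this
  ha := h.eigenvalues_nonneg

lemma fcOf_cfc {P : Matrix n n ℂ} (h : P.PosSemidef) (φ : ℝ → ℝ) : cfc φ P = (fcOf h).F φ := by
  rw [h.1.cfc_eq, Matrix.IsHermitian.cfc, Unitary.conjStarAlgAut_apply]
  rfl

lemma fcOf_id {P : Matrix n n ℂ} (h : P.PosSemidef) : (fcOf h).F (fun t => t) = P := by
  conv_rhs => rw [h.1.spectral_theorem, Unitary.conjStarAlgAut_apply]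
  rfl

lemma fcOf_rank {P : Matrix n n ℂ} (h : P.PosSemidef) :
    T ((fcOf h).F (fun t => if t = 0 then 0 else 1)) = P.rank := by
  rw [FC.trace, h.1.rank_eq_card_non_zero_eigs, Fintype.card_subtype]
  rw [Finset.card_filter]
  push_cast
  apply Finset.sum_congr rfl
  intro i _
  show (if h.1.eigenvalues i = 0 then (0 : ℝ) else 1) = _
  by_cases hi : h.1.eigenvalues i = 0 <;> simp [hi]

lemma psd_mul {P Q : Matrix n n ℂ} (hP : P.PosSemidef) (hQ : Q.PosSemidef) : 0 ≤ T (P * Q) := by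
  rw [← fcOf_id hP]
  exact (fcOf hP).mul_psd (fun t ht => ht) hQ

/-- orthogonal projections -/
def Proj (E : Matrix n n ℂ) : Prop := Eᴴ = E ∧ E * E = E

omit [DecidableEq n] in
lemma Proj.psd {E : Matrix n n ℂ} (h : Proj E) : E.PosSemidef := by
  have := posSemidef_conjTranspose_mul_self E
  rwa [h.1, h.2] at this

lemma Proj.compl {E : Matrix n n ℂ} (h : Proj E) : Proj (1 - E) := by
  refine ⟨by rw [conjTranspose_sub, conjTranspose_one, h.1], ?_⟩
  rw [sub_mul, mul_sub, mul_sub, h.2]; simp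

lemma Proj.rank {E : Matrix n n ℂ} (h : Proj E) : T E = E.rank := by
  rw [← fcOf_rank h.psd]
  set D := fcOf h.psd
  have hid : D.F (fun t => t) = E := fcOf_id h.psd
  have h0 : D.F (fun t => (t * t - t) * (t * t - t)) = 0 := by
    rw [← D.mul]
    have : D.F (fun t => t * t - t) = 0 := by
      have e1 : D.F (fun t => t * t) = D.F (fun t => t) + D.F (fun t => t * t - t) := by
        rw [D.add]; exact D.ext fun t _ => by ring
      rw [← D.mul, hid, h.2] at e1
      simpa using e1.symm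
    rw [this, Matrix.mul_zero]
  have h1 := D.trace (fun t => (t * t - t) * (t * t - t))
  rw [h0, T_zero] at h1
  have h2 := (Finset.sum_eq_zero_iff_of_nonneg (fun i _ => mul_self_nonneg _)).mp h1.symm
  rw [← hid]
  congr 1
  apply D.ext'
  intro i
  have h3 := mul_self_eq_zero.mp (h2 i (Finset.mem_univ _))
  by_cases hi : D.a i = 0
  · simp [hi]
  · simp only [hi, if_false]
    have : D.a i * (D.a i - 1) = 0 := by linarith
    rcases mul_eq_zero.mp this with h4 | h4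
    · exact absurd h4 hi
    · linarith

omit [DecidableEq n] in
lemma rank_add (X Y : Matrix n n ℂ) : (X + Y).rank ≤ X.rank + Y.rank := by
  unfold Matrix.rank
  rw [Matrix.mulVecLin_add]
  refine le_trans (Submodule.finrank_mono ?_) (Submodule.finrank_add_le_finrank_add_finrank _ _)
  rintro _ ⟨v, rfl⟩
  exact Submodule.add_mem_sup ⟨v, rfl⟩ ⟨v, rfl⟩

lemma join {E1 E2 : Matrix n n ℂ} (h1 : Proj E1) (h2 : Proj E2) :
    ∃ E : Matrix n n ℂ, Proj E ∧ E1 * E = E1 ∧ E2 * E = E2 ∧ T E ≤ T E1 + T E2 := by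
  have hM : (E1 + E2).PosSemidef := h1.psd.add h2.psd
  set D := fcOf hM
  have hid : D.F (fun t => t) = E1 + E2 := fcOf_id hM
  have hP : Proj (D.F (fun t => if t = 0 then 0 else 1)) := by
    refine ⟨D.herm _, ?_⟩
    rw [D.mul]
    exact D.ext fun t _ => by by_cases ht : t = 0 <;> simp [ht]
  set E := D.F (fun t => if t = 0 then 0 else 1) with hE
  have hME : (E1 + E2) * E = E1 + E2 := by
    rw [← hid, hE, D.mul]
    exact D.ext fun t _ => by by_cases ht : t = 0 <;> simp [ht]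
  have hR := hP.compl
  have hz : (E1 + E2) * (1 - E) = 0 := by rw [mul_sub, hME]; simp
  have key : ∀ X : Matrix n n ℂ, Proj X → N (X * (1 - E)) = T (X * (1 - E)) := by
    intro X hX
    unfold N
    rw [conjTranspose_mul, hR.1, hX.1, Matrix.mul_assoc, ← Matrix.mul_assoc X X, hX.2, T_comm,
      Matrix.mul_assoc, hR.2]
  have hs : N (E1 * (1 - E)) + N (E2 * (1 - E)) = 0 := by
    rw [key _ h1, key _ h2, ← T_add, ← Matrix.add_mul, hz, T_zero]
  have n1 := N_nonneg (E1 * (1 - E))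
  have n2 := N_nonneg (E2 * (1 - E))
  have z1 := N_eq_zero (X := E1 * (1 - E)) (by linarith)
  have z2 := N_eq_zero (X := E2 * (1 - E)) (by linarith)
  rw [mul_sub, Matrix.mul_one, sub_eq_zero] at z1 z2
  refine ⟨E, hP, z1.symm, z2.symm, ?_⟩
  rw [h1.rank, h2.rank, hE, fcOf_rank hM]
  exact_mod_cast rank_add E1 E2

end H3Lee
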