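import Pool.Agent.H3.LeeA

set_option maxHeartbeats 400000

open Matrix
open scoped ComplexOrder

namespace H3Lee

variable {n : Type*} [Fintype n] [DecidableEq n]

/-- two-sided contraction for the Frobenius norm -/
def Contr (U : Matrix n n ℂ) : Prop := (∀ Y, N (U * Y) ≤ N Y) ∧ (∀ Y, N (Uᴴ * Y) ≤ N Y)

lemma N_le_of_proj {U : Matrix n n ℂ} (h : Proj (Uᴴ * U)) (Y : Matrix n n ℂ) :
    N (U * Y) ≤ N Y := by
  have h1 : 0 ≤ T (Yᴴ * (1 - Uᴴ * U) * Y) := T_psd (h.compl.psd.conjTranspose_mul_mul_same Y)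
  have h2 : Yᴴ * (1 - Uᴴ * U) * Y = Yᴴ * Y - (U * Y)ᴴ * (U * Y) := by
    rw [conjTranspose_mul, mul_sub, sub_mul]; simp [Matrix.mul_assoc]
  rw [h2, T_sub] at h1
  unfold N; linarith

omit [DecidableEq n] in
lemma Contr.star {U : Matrix n n ℂ} (h : Contr U) : Contr Uᴴ :=
  ⟨h.2, by simpa using h.1⟩

omit [DecidableEq n] in
lemma Contr.right {U : Matrix n n ℂ} (h : Contr U) (Y : Matrix n n ℂ) : N (Y * U) ≤ N Y := by
  rw [← N_star, conjTranspose_mul, ← N_star Y]
  exact h.2 _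

lemma Proj.contr {E : Matrix n n ℂ} (h : Proj E) : Contr E := by
  have h1 : Proj (Eᴴ * E) := by rw [h.1, h.2]; exact h
  refine ⟨N_le_of_proj h1, ?_⟩
  rw [h.1]; exact N_le_of_proj h1

/-- absolute value of a matrix -/
noncomputable def absM (X : Matrix n n ℂ) : Matrix n n ℂ := cfc Real.sqrt (Xᴴ * X)

/-- polar data -/
structure Polar (X : Matrix n n ℂ) where
  D : FC n
  U : Matrix n n ℂ
  hU : Contr U
  hX : X = U * D.F (fun t => t)
  hX' : Uᴴ * X = D.F (fun t => t)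
  hXX : Xᴴ * X = D.F (fun t => t * t)
  hc : ∀ φ : ℝ → ℝ, cfc φ (absM X) = D.F φ

lemma absM_psd (X : Matrix n n ℂ) : (absM X).PosSemidef ∧ absM X * absM X = Xᴴ * X := by
  have hP := posSemidef_conjTranspose_mul_self X
  unfold absM
  rw [fcOf_cfc hP]
  refine ⟨(fcOf hP).psd fun t _ => Real.sqrt_nonneg t, ?_⟩
  rw [← (fcOf hP).sq (φ := fun t => t) (fun t ht => ht), fcOf_id]

lemma exists_polar (X : Matrix n n ℂ) : Nonempty (Polar X) := by
  obtain ⟨hH, hHH⟩ := absM_psd X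
  set D := fcOf hH with hD
  have hid : D.F (fun t => t) = absM X := fcOf_id hH
  have hXX : Xᴴ * X = D.F (fun t => t * t) := by rw [← D.mul, hid, hHH]
  set U := X * D.F (fun t => t⁻¹) with hU
  have hz : X * D.F (fun t => if t = 0 then 1 else 0) = 0 := by
    apply N_eq_zero
    unfold N
    rw [conjTranspose_mul, D.herm, Matrix.mul_assoc, ← Matrix.mul_assoc Xᴴ, hXX, D.mul, D.mul]
    have : D.F (fun t => (if t = 0 then 1 else 0) * (t * t * if t = 0 then 1 else 0)) =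
        D.F (fun _ => 0) := D.ext fun t _ => by by_cases ht : t = 0 <;> simp [ht]
    rw [this, D.zero, T_zero]
  have hXE : X * D.F (fun t => if t = 0 then 0 else 1) = X := by
    have : D.F (fun t => if t = 0 then 0 else 1) + D.F (fun t => if t = 0 then 1 else 0) = 1 := by
      rw [D.add, ← D.one]
      exact D.ext fun t _ => by by_cases ht : t = 0 <;> simp [ht]
    calc X * D.F (fun t => if t = 0 then 0 else 1)
        = X * D.F (fun t => if t = 0 then 0 else 1) + X * D.F (fun t => if t = 0 then 1 else 0) := by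
          rw [hz, add_zero]
      _ = X := by rw [← Matrix.mul_add, this, Matrix.mul_one]
  have hX : X = U * D.F (fun t => t) := by
    rw [hU, Matrix.mul_assoc, D.mul]
    conv_lhs => rw [← hXE]
    congr 1
    exact D.ext fun t _ => by by_cases ht : t = 0 <;> simp [ht]
  have hUU : Uᴴ * U = D.F (fun t => if t = 0 then 0 else 1) := by
    rw [hU, conjTranspose_mul, D.herm, Matrix.mul_assoc, ← Matrix.mul_assoc Xᴴ, hXX, D.mul, D.mul]
    exact D.ext fun t _ => by by_cases ht : t = 0 <;> simp [ht]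
  have hP : Proj (D.F (fun t => if t = 0 then 0 else 1)) := by
    refine ⟨D.herm _, ?_⟩
    rw [D.mul]
    exact D.ext fun t _ => by by_cases ht : t = 0 <;> simp [ht]
  have hUE : U * D.F (fun t => if t = 0 then 0 else 1) = U := by
    rw [hU, Matrix.mul_assoc, D.mul]
    congr 1
    exact D.ext fun t _ => by by_cases ht : t = 0 <;> simp [ht]
  have hP2 : Proj (Uᴴᴴ * Uᴴ) := by
    rw [conjTranspose_conjTranspose]
    refine ⟨by rw [conjTranspose_mul, conjTranspose_conjTranspose], ?_⟩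
    rw [Matrix.mul_assoc, ← Matrix.mul_assoc Uᴴ, hUU, ← Matrix.mul_assoc, hUE]
  refine ⟨⟨D, U, ⟨N_le_of_proj (hUU ▸ hP), N_le_of_proj hP2⟩, hX, ?_, hXX, fun φ => fcOf_cfc hH φ⟩⟩
  conv_lhs => rw [hX]
  rw [← Matrix.mul_assoc, hUU, D.mul]
  exact D.ext fun t _ => by by_cases ht : t = 0 <;> simp [ht]

/-- the constant `(1 + √2) / 2` -/
noncomputable def c0 : ℝ := (1 + √2) / 2

lemma c0_ge : 1 ≤ c0 := by
  have : 1 ≤ √2 := Real.one_le_sqrt.mpr (by norm_num)
  unfold c0; linarith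

lemma c0_eq : 4 * c0 * (c0 - 1) = 1 := by
  have : √2 * √2 = 2 := Real.mul_self_sqrt (by norm_num)
  unfold c0; nlinarith

/-- the linear case (Lin and Zhang) -/
lemma lz {U V a b : Matrix n n ℂ} (hU : Contr U) (hV : Contr V) (ha : a.PosSemidef)
    (hb : b.PosSemidef) : N (U * a + V * b) ≤ c0 * (T (a * a) + T (b * b) + 2 * T (a * b)) := by
  obtain ⟨p, hp, hpa⟩ : ∃ p : Matrix n n ℂ, pᴴ = p ∧ p * p = a :=
    ⟨_, (fcOf ha).herm _, by rw [← (fcOf ha).sq (φ := fun t => t) (fun t ht => ht), fcOf_id]⟩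
  obtain ⟨q, hq, hqb⟩ : ∃ q : Matrix n n ℂ, qᴴ = q ∧ q * q = b :=
    ⟨_, (fcOf hb).herm _, by rw [← (fcOf hb).sq (φ := fun t => t) (fun t ht => ht), fcOf_id]⟩
  have hah : aᴴ = a := ha.1
  have hbh : bᴴ = b := hb.1
  have na : N a = T (a * a) := by unfold N; rw [hah]
  have nb : N b = T (b * b) := by unfold N; rw [hbh]
  have c1 := c0_ge
  have c2 := c0_eq
  have hc : 0 < 2 * c0 := by linarith
  have e1 : T ((U * a)ᴴ * (V * b)) = T ((p * q)ᴴ * (p * (Uᴴ * V) * q)) := by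
    rw [conjTranspose_mul, conjTranspose_mul, hah, hp, hq, ← hpa, ← hqb]
    have : p * p * Uᴴ * (V * (q * q)) = (p * (p * (Uᴴ * V) * q)) * q := by
      simp only [Matrix.mul_assoc]
    rw [this, T_comm]
    simp only [Matrix.mul_assoc]
  have e2 : N (p * q) = T (a * b) := by
    unfold N
    rw [conjTranspose_mul, hp, hq, ← hpa, ← hqb, Matrix.mul_assoc, T_comm]
    simp only [Matrix.mul_assoc]
  have e3 : N (p * (Uᴴ * V) * q) = T ((Vᴴ * (U * (a * Uᴴ * V)))ᴴ * b) := by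
    unfold N
    simp only [conjTranspose_mul, conjTranspose_conjTranspose, hp, hq, hah]
    rw [← hpa, ← hqb, Matrix.mul_assoc, T_comm]
    simp only [Matrix.mul_assoc]
  have e4 : N (Vᴴ * (U * (a * Uᴴ * V))) ≤ N a :=
    (hV.2 _).trans ((hU.1 _).trans ((hV.right _).trans (hU.star.right _)))
  have e5 := amgm (Vᴴ * (U * (a * Uᴴ * V))) b one_pos
  have e6 := amgm (p * q) (p * (Uᴴ * V) * q) hc
  rw [N_add, e1]
  have e7 := hU.1 a
  have e8 := hV.1 b
  rw [e2, e3] at e6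
  have e9 : T ((Vᴴ * (U * (a * Uᴴ * V)))ᴴ * b) / (2 * c0) ≤ (c0 - 1) * (N a + N b) := by
    rw [div_le_iff₀ hc]
    have : (c0 - 1) * (N a + N b) * (2 * c0) = (4 * c0 * (c0 - 1)) * (N a + N b) / 2 := by ring
    rw [this, c2]
    simp only [one_mul, div_one] at e5 ⊢
    linarith
  rw [← na, ← nb]
  nlinarith

/-- pairing a bounded matrix with a trace class part -/
lemma nuc {G U a : Matrix n n ℂ} {s : ℝ} (hs : 0 < s) (hG : ∀ Y, N (G * Y) ≤ s * s * N Y)
    (hU : Contr U) (ha : a.PosSemidef) : T (Gᴴ * (U * a)) ≤ s * T a := by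
  obtain ⟨p, hp, hpa⟩ : ∃ p : Matrix n n ℂ, pᴴ = p ∧ p * p = a :=
    ⟨_, (fcOf ha).herm _, by rw [← (fcOf ha).sq (φ := fun t => t) (fun t ht => ht), fcOf_id]⟩
  have e1 : T (Gᴴ * (U * a)) = T ((U * p)ᴴ * (G * p)) := by
    rw [T_inner_comm (G * p) (U * p), conjTranspose_mul, hp, ← hpa]
    have : Gᴴ * (U * (p * p)) = (Gᴴ * (U * p)) * p := by simp only [Matrix.mul_assoc]
    rw [this, T_comm]
    simp only [Matrix.mul_assoc]
  have e2 : N p = T a := by unfold N; rw [hp, hpa]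
  have e3 := amgm (U * p) (G * p) hs
  have e4 := hU.1 p
  have e5 : N (G * p) / s ≤ s * N p := by
    rw [div_le_iff₀ hs]; have := hG p; linarith
  rw [e1, ← e2]
  nlinarith

lemma FC.bound (D : FC n) {φ : ℝ → ℝ} {s : ℝ} (h : ∀ t, 0 ≤ t → φ t * φ t ≤ s * s)
    (Y : Matrix n n ℂ) : N (D.F φ * Y) ≤ s * s * N Y := by
  have e1 : N (D.F φ * Y) = T (D.F (fun t => φ t * φ t) * (Y * Yᴴ)) := by
    unfold N
    rw [conjTranspose_mul, D.herm, ← D.mul, Matrix.mul_assoc, T_comm]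
    simp only [Matrix.mul_assoc]
  have e2 := D.mono (ψ := fun t => (s * s) * 1) (fun t ht => by simpa using h t ht)
    (posSemidef_self_mul_conjTranspose Y)
  rw [← D.smul (s * s) (fun _ => 1), D.one, smul_mul_assoc, Matrix.one_mul, T_smul, T_comm Y Yᴴ] at e2
  rw [e1]
  exact e2

end H3Lee
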