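import Pool.Agent.H3.LeeB

set_option maxHeartbeats 400000

open Matrix
open scoped ComplexOrder

namespace H3Lee

variable {n : Type*} [Fintype n] [DecidableEq n]

lemma FC.proj (D : FC n) {χ : ℝ → ℝ} (h : ∀ t, χ t * χ t = χ t) : Proj (D.F χ) :=
  ⟨D.herm _, by rw [D.mul]; exact D.ext fun t _ => h t⟩

lemma kill {A : Matrix n n ℂ} (P : Polar A) (χ : ℝ → ℝ) {E : Matrix n n ℂ}
    (h : P.D.F χ * E = P.D.F χ) :
    A * (1 - E) = P.U * P.D.F (fun t => t * (1 - χ t)) * (1 - E) := by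
  have h0 : P.D.F χ * (1 - E) = 0 := by rw [mul_sub, h]; simp
  have h1 : P.D.F (fun t => t) = P.D.F (fun t => t * (1 - χ t)) + P.D.F (fun t => t) * P.D.F χ := by
    rw [P.D.mul, P.D.add]; exact P.D.ext fun t _ => by ring
  conv_lhs => rw [P.hX, h1]
  rw [Matrix.mul_assoc, Matrix.add_mul, Matrix.mul_assoc (P.D.F fun t => t), h0, Matrix.mul_zero,
    add_zero, Matrix.mul_assoc]

/-- indicator of `(τ, ∞)` -/
noncomputable def hi (τ t : ℝ) : ℝ := if t ≤ τ then 0 else 1

lemma hi_idem (τ t : ℝ) : hi τ t * hi τ t = hi τ t := by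
  unfold hi; split_ifs <;> simp

lemma cross (D D' : FC n) {φ φ' ψ ψ' : ℝ → ℝ} (h1 : ∀ t, 0 ≤ t → φ t ≤ φ' t)
    (h2 : ∀ t, 0 ≤ t → ψ t ≤ ψ' t) (h3 : ∀ t, 0 ≤ t → 0 ≤ φ t) (h4 : ∀ t, 0 ≤ t → 0 ≤ ψ t) :
    T (D.F φ * D'.F ψ) ≤ T (D.F φ' * D'.F ψ') := by
  have a1 := D.mono h1 (D'.psd h4)
  have a2 := D'.mono h2 (D.psd (φ := φ') fun t ht => (h3 t ht).trans (h1 t ht))
  rw [T_comm (D'.F ψ), T_comm (D'.F ψ')] at a2
  linarith

lemma T_split (D : FC n) {φ φ1 φ2 : ℝ → ℝ} (c : ℝ) (h : ∀ t, 0 ≤ t → φ t = φ1 t + c * φ2 t) :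
    T (D.F φ) = T (D.F φ1) + c * T (D.F φ2) := by
  rw [← T_smul, ← T_add, D.smul, D.add]
  congr 1
  exact D.ext h

/-- bound for a function of `|S|` on a projection -/
lemma T_le_proj (D : FC n) {φ : ℝ → ℝ} {c : ℝ} (h : ∀ t, 0 ≤ t → φ t ≤ c) {E : Matrix n n ℂ}
    (hE : E.PosSemidef) : T (D.F φ * E) ≤ c * T E := by
  have := D.mono (ψ := fun t => c * 1) (fun t ht => by simpa using h t ht) hE
  rwa [← D.smul c (fun _ => 1), D.one, smul_mul_assoc, Matrix.one_mul, T_smul] at this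

lemma N_mul_proj {X R : Matrix n n ℂ} (hR : Proj R) : N (X * R) = T (Xᴴ * X * R) := by
  unfold N
  rw [conjTranspose_mul, hR.1, Matrix.mul_assoc, T_comm, Matrix.mul_assoc, Matrix.mul_assoc, hR.2,
    Matrix.mul_assoc]

/-- the truncated square bound -/
lemma sq_bound {A B : Matrix n n ℂ} (PA : Polar A) (PB : Polar B) (PS : Polar (A + B))
    {σ τ : ℝ} (hσ : 0 < σ) (hστ : σ ≤ τ) {E : Matrix n n ℂ} (hE : Proj E)
    (hA : PA.D.F (hi τ) * E = PA.D.F (hi τ)) (hB : PB.D.F (hi τ) * E = PB.D.F (hi τ)) :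
    N (PS.D.F (fun t => min t σ) * (1 - E)) ≤
      c0 * (T (PA.D.F (fun t => min t σ * (1 - hi τ t)) * PA.D.F (fun t => min t σ * (1 - hi τ t)))
      + T (PB.D.F (fun t => min t σ * (1 - hi τ t)) * PB.D.F (fun t => min t σ * (1 - hi τ t)))
      + 2 * T (PA.D.F (fun t => min t σ * (1 - hi τ t)) *
          PB.D.F (fun t => min t σ * (1 - hi τ t)))) := by
  have mid : ∀ t, (hi σ t - hi τ t) * (hi σ t - hi τ t) = hi σ t - hi τ t := by
    intro t; unfold hi
    split_ifs with h1 h2 <;> simp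
    all_goals linarith
  obtain ⟨E2, hE2, hA2, hB2, hT2⟩ := join (PA.D.proj mid) (PB.D.proj mid)
  obtain ⟨E', hE', h1, h2, hT'⟩ := join hE hE2
  have lift : ∀ D : FC n, D.F (hi τ) * E = D.F (hi τ) →
      D.F (fun t => hi σ t - hi τ t) * E2 = D.F (fun t => hi σ t - hi τ t) →
      D.F (hi σ) * E' = D.F (hi σ) := by
    intro D a1 a2
    have e : D.F (hi σ) = D.F (hi τ) + D.F (fun t => hi σ t - hi τ t) := by
      rw [D.add]; exact D.ext fun t _ => by ring
    rw [e, Matrix.add_mul]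
    congr 1
    · rw [← a1, Matrix.mul_assoc, h1]
    · rw [← a2, Matrix.mul_assoc, h2]
  have kA := kill PA _ (lift _ hA hA2)
  have kB := kill PB _ (lift _ hB hB2)
  have hd : Proj (E' - E) := by
    have h1' : E' * E = E := by
      have := congrArg conjTranspose h1
      rwa [conjTranspose_mul, hE.1, hE'.1] at this
    refine ⟨by rw [conjTranspose_sub, hE.1, hE'.1], ?_⟩
    rw [sub_mul, mul_sub, mul_sub, hE.2, hE'.2, h1, h1']; simp
  have lo0 : ∀ t, 0 ≤ t → 0 ≤ t * (1 - hi σ t) := by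
    intro t ht; unfold hi; split_ifs <;> simp [ht]
  have s1 : N (PS.D.F (fun t => min t σ) * (1 - E)) =
      T (PS.D.F (fun t => min t σ * min t σ) * (1 - E')) +
      T (PS.D.F (fun t => min t σ * min t σ) * (E' - E)) := by
    rw [N_mul_proj hE.compl, PS.D.herm, PS.D.mul, ← T_add, ← Matrix.mul_add]
    congr 2
    abel
  have s2 : T (PS.D.F (fun t => min t σ * min t σ) * (1 - E')) ≤ N ((A + B) * (1 - E')) := by
    rw [N_mul_proj hE'.compl, PS.hXX]
    refine PS.D.mono (fun t ht => ?_) hE'.compl.psd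
    have := min_le_left t σ
    have h0 : 0 ≤ min t σ := le_min ht hσ.le
    nlinarith
  have s3 : T (PS.D.F (fun t => min t σ * min t σ) * (E' - E)) ≤ σ * σ * T (E' - E) := by
    refine T_le_proj _ (fun t ht => ?_) hd.psd
    have := min_le_right t σ
    have h0 : 0 ≤ min t σ := le_min ht hσ.le
    nlinarith
  have s4 : N ((A + B) * (1 - E')) ≤ N (PA.U * PA.D.F (fun t => t * (1 - hi σ t)) +
      PB.U * PB.D.F (fun t => t * (1 - hi σ t))) := by
    rw [Matrix.add_mul, kA, kB, ← Matrix.add_mul]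
    exact hE'.compl.contr.right _
  have s5 := lz PA.hU PB.hU (PA.D.psd lo0) (PB.D.psd lo0)
  have idn : ∀ D : FC n, T (D.F (fun t => min t σ * (1 - hi τ t)) *
      D.F (fun t => min t σ * (1 - hi τ t))) =
      T (D.F (fun t => t * (1 - hi σ t)) * D.F (fun t => t * (1 - hi σ t))) +
        σ * σ * T (D.F (fun t => hi σ t - hi τ t)) := by
    intro D
    rw [D.mul, D.mul]
    refine T_split D _ (fun t _ => ?_)
    unfold hi
    split_ifs with a1 a2 a2
    · rw [min_eq_left a2]; ring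
    · rw [min_eq_right (not_le.mp a2).le]; ring
    · exact absurd (a2.trans hστ) a1
    · ring
  have cr : T (PA.D.F (fun t => t * (1 - hi σ t)) * PB.D.F (fun t => t * (1 - hi σ t))) ≤
      T (PA.D.F (fun t => min t σ * (1 - hi τ t)) * PB.D.F (fun t => min t σ * (1 - hi τ t))) := by
    have le1 : ∀ t, 0 ≤ t → t * (1 - hi σ t) ≤ min t σ * (1 - hi τ t) := by
      intro t ht
      unfold hi
      split_ifs with a1 a2 a2
      · rw [min_eq_left a1]
      · exact absurd (a1.trans hστ) a2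
      · simpa using ⟨ht, hσ.le⟩
      · simp
    exact cross _ _ le1 le1 lo0 lo0
  rw [idn, idn]
  rw [T_sub] at s3
  have c1 := c0_ge
  have pA := T_psd (PA.D.proj mid).psd
  have pB := T_psd (PB.D.proj mid).psd
  have hss : 0 < σ * σ := mul_pos hσ hσ
  have s6 : σ * σ * (T E' - T E) ≤ σ * σ * (T (PA.D.F (fun t => hi σ t - hi τ t)) +
      T (PB.D.F (fun t => hi σ t - hi τ t))) := mul_le_mul_of_nonneg_left (by linarith) hss.le
  have s7 : σ * σ * (T (PA.D.F (fun t => hi σ t - hi τ t)) +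
      T (PB.D.F (fun t => hi σ t - hi τ t))) ≤ c0 * (σ * σ * (T (PA.D.F (fun t => hi σ t - hi τ t)) +
      T (PB.D.F (fun t => hi σ t - hi τ t)))) :=
    le_mul_of_one_le_left (mul_nonneg hss.le (by linarith)) c1
  have s8 := mul_le_mul_of_nonneg_left cr (by linarith : 0 ≤ 2 * c0)
  linarith

/-- the bilinear inequality for two truncations -/
lemma pair {A B : Matrix n n ℂ} (PA : Polar A) (PB : Polar B) (PS : Polar (A + B))
    {σ τ : ℝ} (hσ : 0 < σ) (hστ : σ ≤ τ) :
    T (PS.D.F (fun t => min t σ) * PS.D.F (fun t => min t τ)) ≤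
      c0 * T ((PA.D.F (fun t => min t σ) + PB.D.F (fun t => min t σ)) *
        (PA.D.F (fun t => min t τ) + PB.D.F (fun t => min t τ))) := by
  obtain ⟨E, hE, hA, hB, hT⟩ := join (PA.D.proj (hi_idem τ)) (PB.D.proj (hi_idem τ))
  have sq := sq_bound PA PB PS hσ hστ hE hA hB
  have kA := kill PA _ hA
  have kB := kill PB _ hB
  have hR := hE.compl
  have m0 : ∀ t, 0 ≤ t → 0 ≤ min t σ * (1 - hi τ t) := by
    intro t ht; unfold hi; split_ifs
    · simpa using ⟨ht, hσ.le⟩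
    · simp
  have r0 : ∀ t, 0 ≤ t → 0 ≤ (t - min t σ) * (1 - hi τ t) := by
    intro t _; unfold hi; split_ifs <;> simp
  have s1 : T (PS.D.F (fun t => min t σ) * PS.D.F (fun t => min t τ)) =
      T (PS.D.F (fun t => min t σ * min t τ) * E) +
      T (PS.D.F (fun t => min t σ * min t τ) * (1 - E)) := by
    rw [PS.D.mul, ← T_add, ← Matrix.mul_add]; simp
  have s2 : T (PS.D.F (fun t => min t σ * min t τ) * E) ≤ σ * τ * T E := by
    refine T_le_proj _ (fun t ht => ?_) hE.psd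
    exact mul_le_mul (min_le_right _ _) (min_le_right _ _) (le_min ht (hσ.le.trans hστ)) hσ.le
  have s3 : T (PS.D.F (fun t => min t σ * min t τ) * (1 - E)) ≤
      T (PS.D.F (fun t => min t σ * t) * (1 - E)) := by
    refine PS.D.mono (fun t ht => ?_) hR.psd
    exact mul_le_mul_of_nonneg_left (min_le_left _ _) (le_min ht hσ.le)
  set G := PS.U * (PS.D.F (fun t => min t σ) * (1 - E)) with hG
  have dec : ∀ D : FC n, D.F (fun t => t * (1 - hi τ t)) =
      D.F (fun t => min t σ * (1 - hi τ t)) + D.F (fun t => (t - min t σ) * (1 - hi τ t)) := by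
    intro D; rw [D.add]; exact D.ext fun t _ => by ring
  have s4 : T (PS.D.F (fun t => min t σ * t) * (1 - E)) =
      T (Gᴴ * (PA.U * PA.D.F (fun t => min t σ * (1 - hi τ t)) +
        PB.U * PB.D.F (fun t => min t σ * (1 - hi τ t)))) +
      T (Gᴴ * (PA.U * PA.D.F (fun t => (t - min t σ) * (1 - hi τ t)))) +
      T (Gᴴ * (PB.U * PB.D.F (fun t => (t - min t σ) * (1 - hi τ t)))) := by
    rw [← PS.D.mul, ← PS.hX', Matrix.mul_assoc, Matrix.mul_assoc, Matrix.add_mul A B, kA, kB,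
      ← Matrix.add_mul, ← Matrix.mul_assoc, ← Matrix.mul_assoc, T_comm, ← T_add, ← T_add,
      ← Matrix.mul_add, ← Matrix.mul_add, hG, conjTranspose_mul, conjTranspose_mul, hR.1,
      PS.D.herm, dec, dec, Matrix.mul_add PA.U, Matrix.mul_add PB.U]
    simp only [Matrix.mul_assoc]
    congr 4
    abel
  have hGb : ∀ Y, N (G * Y) ≤ σ * σ * N Y := by
    intro Y
    rw [hG, Matrix.mul_assoc, Matrix.mul_assoc]
    refine (PS.hU.1 _).trans ((PS.D.bound (s := σ) (fun t ht => ?_) _).trans ?_)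
    · have := min_le_right t σ
      have h0 : 0 ≤ min t σ := le_min ht hσ.le
      nlinarith
    · exact mul_le_mul_of_nonneg_left (hR.contr.1 Y) (mul_pos hσ hσ).le
  have s5 := nuc hσ hGb PA.hU (PA.D.psd r0)
  have s6 := nuc hσ hGb PB.hU (PB.D.psd r0)
  have s7 := amgm G (PA.U * PA.D.F (fun t => min t σ * (1 - hi τ t)) +
        PB.U * PB.D.F (fun t => min t σ * (1 - hi τ t))) one_pos
  have s8 := lz PA.hU PB.hU (PA.D.psd m0) (PB.D.psd m0)
  have s9 : N G ≤ N (PS.D.F (fun t => min t σ) * (1 - E)) := PS.hU.1 _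
  have idn : ∀ D : FC n, T (D.F (fun t => min t σ) * D.F (fun t => min t τ)) =
      T (D.F (fun t => min t σ * (1 - hi τ t)) * D.F (fun t => min t σ * (1 - hi τ t))) +
      σ * T (D.F (fun t => (t - min t σ) * (1 - hi τ t))) + σ * τ * T (D.F (hi τ)) := by
    intro D
    rw [D.mul, D.mul, ← T_split D (φ := fun t => min t σ * (1 - hi τ t) * (min t σ * (1 - hi τ t)) +
      σ * ((t - min t σ) * (1 - hi τ t))) σ (fun t _ => rfl)]
    refine T_split D _ (fun t _ => ?_)
    unfold hi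
    split_ifs with a1
    · rw [min_eq_left a1]
      rcases le_total t σ with a2 | a2
      · rw [min_eq_left a2]; ring
      · rw [min_eq_right a2]; ring
    · have a2 := (not_le.mp a1).le
      rw [min_eq_right a2, min_eq_right (hστ.trans a2)]; ring
  have le1 : ∀ t, 0 ≤ t → min t σ * (1 - hi τ t) ≤ min t σ := by
    intro t ht; unfold hi; split_ifs
    · simp
    · simpa using ⟨ht, hσ.le⟩
  have le2 : ∀ t, 0 ≤ t → min t σ * (1 - hi τ t) ≤ min t τ :=
    fun t ht => (le1 t ht).trans (min_le_min_left t hστ)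
  have cr1 := cross PA.D PB.D le1 le2 m0 m0
  have cr2 := cross PB.D PA.D le1 le2 m0 m0
  rw [T_comm (PB.D.F (fun t => min t σ * (1 - hi τ t)))] at cr2
  rw [Matrix.add_mul, Matrix.mul_add, Matrix.mul_add, T_add, T_add, T_add, idn PA.D, idn PB.D]
  have c1 := c0_ge
  have p1 := T_psd (PA.D.psd r0)
  have p2 := T_psd (PB.D.psd r0)
  have p3 := T_psd (PA.D.proj (hi_idem τ)).psd
  have p4 := T_psd (PB.D.proj (hi_idem τ)).psd
  have hst : 0 < σ * τ := mul_pos hσ (hσ.trans_le hστ)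
  have q1 : σ * τ * T E ≤ σ * τ * (T (PA.D.F (hi τ)) + T (PB.D.F (hi τ))) :=
    mul_le_mul_of_nonneg_left hT hst.le
  have q2 := le_mul_of_one_le_left (b := σ * τ * (T (PA.D.F (hi τ)) + T (PB.D.F (hi τ))) +
    σ * (T (PA.D.F (fun t => (t - min t σ) * (1 - hi τ t))) +
      T (PB.D.F (fun t => (t - min t σ) * (1 - hi τ t))))) (by positivity) c1
  have q3 := mul_le_mul_of_nonneg_left cr1 (by linarith : 0 ≤ c0)
  have q4 := mul_le_mul_of_nonneg_left cr2 (by linarith : 0 ≤ c0)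
  simp only [one_mul, div_one] at s7
  linarith

/-- trace subadditivity for one truncation -/
lemma single {A B : Matrix n n ℂ} (PA : Polar A) (PB : Polar B) (PS : Polar (A + B))
    {τ : ℝ} (hτ : 0 < τ) :
    T (PS.D.F (fun t => min t τ)) ≤ T (PA.D.F (fun t => min t τ)) + T (PB.D.F (fun t => min t τ)) := by
  obtain ⟨E, hE, hA, hB, hT⟩ := join (PA.D.proj (hi_idem τ)) (PB.D.proj (hi_idem τ))
  have kA := kill PA _ hA
  have kB := kill PB _ hB
  have hR := hE.compl
  have r0 : ∀ t, 0 ≤ t → 0 ≤ t * (1 - hi τ t) := by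
    intro t ht; unfold hi; split_ifs <;> simp [ht]
  have s1 : T (PS.D.F (fun t => min t τ)) =
      T (PS.D.F (fun t => min t τ) * E) + T (PS.D.F (fun t => min t τ) * (1 - E)) := by
    rw [← T_add, ← Matrix.mul_add]; simp
  have s2 : T (PS.D.F (fun t => min t τ) * E) ≤ τ * T E :=
    T_le_proj _ (fun t _ => min_le_right _ _) hE.psd
  have s3 : T (PS.D.F (fun t => min t τ) * (1 - E)) ≤ T (PS.D.F (fun t => t) * (1 - E)) :=
    PS.D.mono (fun t _ => min_le_left _ _) hR.psd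
  set G := PS.U * (1 - E) with hG
  have s4 : T (PS.D.F (fun t => t) * (1 - E)) =
      T (Gᴴ * (PA.U * PA.D.F (fun t => t * (1 - hi τ t)))) +
      T (Gᴴ * (PB.U * PB.D.F (fun t => t * (1 - hi τ t)))) := by
    rw [← PS.hX', Matrix.mul_assoc, Matrix.add_mul A B, kA, kB,
      ← Matrix.add_mul, ← Matrix.mul_assoc, T_comm, ← T_add,
      ← Matrix.mul_add, hG, conjTranspose_mul, hR.1]
    simp only [Matrix.mul_assoc]
  have hGb : ∀ Y, N (G * Y) ≤ 1 * 1 * N Y := by
    intro Y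
    rw [hG, Matrix.mul_assoc, one_mul, one_mul]
    exact (PS.hU.1 _).trans (hR.contr.1 Y)
  have s5 := nuc one_pos hGb PA.hU (PA.D.psd r0)
  have s6 := nuc one_pos hGb PB.hU (PB.D.psd r0)
  have idn : ∀ D : FC n, T (D.F (fun t => min t τ)) =
      T (D.F (fun t => t * (1 - hi τ t))) + τ * T (D.F (hi τ)) := by
    intro D
    refine T_split D _ (fun t _ => ?_)
    unfold hi
    split_ifs with a1
    · rw [min_eq_left a1]; ring
    · rw [min_eq_right (not_le.mp a1).le]; ring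
  rw [idn PA.D, idn PB.D]
  have q1 := mul_le_mul_of_nonneg_left hT hτ.le
  linarith

end H3Lee
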