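import Pool.Agent.H3.LeeC

set_option maxHeartbeats 400000

open Matrix
open scoped ComplexOrder

namespace H3Lee

variable {n : Type*} [Fintype n] [DecidableEq n]

lemma concave_mono {f : ℝ → ℝ} (hf : ConcaveOn ℝ (Set.Ici 0) f) (h0 : ∀ t, 0 ≤ t → 0 ≤ f t)
    {x y : ℝ} (hx : 0 ≤ x) (hxy : x ≤ y) : f x ≤ f y := by
  by_contra hlt
  push Not at hlt
  have hxy' : x < y := lt_of_le_of_ne hxy (by rintro rfl; exact lt_irrefl _ hlt)
  have hy : 0 ≤ y := hx.trans hxy
  set d := (f x - f y) / (y - x) with hd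
  have hd0 : 0 < d := div_pos (by linarith) (by linarith)
  have hfy := h0 y hy
  have hz : y < y + (f y / d + 1) := by have : 0 ≤ f y / d := by positivity
                                        linarith
  have h := hf.slope_anti_adjacent (Set.mem_Ici.mpr hx) (Set.mem_Ici.mpr (hy.trans hz.le)) hxy' hz
  have e1 : (f y - f x) / (y - x) = -d := by rw [hd]; ring
  have hp : 0 < y + (f y / d + 1) - y := by linarith
  rw [e1, div_le_iff₀ hp] at h
  have e2 : -d * (y + (f y / d + 1) - y) = -f y - d := by field_simp; ring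
  have := h0 _ (hy.trans hz.le)
  linarith

lemma repr_aux (s : Finset ℝ) : ∀ f : ℝ → ℝ, ConcaveOn ℝ (Set.Ici 0) f → (∀ t ∈ s, 0 < t) →
    (∀ x y, 0 ≤ x → x ≤ y → y ∈ s → f x ≤ f y) →
    ∃ c : ℝ → ℝ, (∀ τ, 0 ≤ c τ) ∧ ∀ t, (t = 0 ∨ t ∈ s) → f t = f 0 + ∑ τ ∈ s, c τ * min t τ := by
  classical
  induction s using Finset.induction_on_max with
  | empty =>
    intro f _ _ _
    refine ⟨fun _ => 0, fun _ => le_rfl, ?_⟩
    rintro t (rfl | h)
    · simp
    · simp at h
  | insert m s hm ih =>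
    intro f hf hpos hmono
    have hm0 : 0 < m := hpos m (Finset.mem_insert_self _ _)
    obtain ⟨u, hu0, hum, hus, hu⟩ : ∃ u, 0 ≤ u ∧ u < m ∧ (u = 0 ∨ u ∈ s) ∧ ∀ t ∈ s, t ≤ u := by
      rcases s.eq_empty_or_nonempty with rfl | hne
      · exact ⟨0, le_rfl, hm0, Or.inl rfl, by simp⟩
      · have := s.max'_mem hne
        exact ⟨s.max' hne, (hpos _ (Finset.mem_insert_of_mem this)).le, hm _ this, Or.inr this,
          fun t ht => s.le_max' t ht⟩
    set k := (f m - f u) / (m - u) with hk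
    have hk0 : 0 ≤ k := div_nonneg (sub_nonneg.mpr (hmono u m hu0 hum.le
      (Finset.mem_insert_self _ _))) (by linarith)
    have hg : ConcaveOn ℝ (Set.Ici 0) (fun t => f t - k * t) := by
      refine ⟨hf.1, fun x hx y hy a b ha hb hab => ?_⟩
      have := hf.2 hx hy ha hb hab
      simp only [smul_eq_mul] at this ⊢
      nlinarith
    have hslope : ∀ x y, 0 ≤ x → x < y → y ≤ u → k ≤ (f y - f x) / (y - x) := by
      intro x y hx hxy hyu
      rcases eq_or_lt_of_le hyu with rfl | hyu'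
      · exact hf.slope_anti_adjacent (Set.mem_Ici.mpr hx) (Set.mem_Ici.mpr hm0.le) hxy hum
      · exact (hf.slope_anti_adjacent (Set.mem_Ici.mpr (hx.trans hxy.le)) (Set.mem_Ici.mpr hm0.le)
          hyu' hum).trans
          (hf.slope_anti_adjacent (Set.mem_Ici.mpr hx) (Set.mem_Ici.mpr hu0) hxy hyu')
    obtain ⟨c, hc0, hc⟩ := ih (fun t => f t - k * t) hg
      (fun t ht => hpos t (Finset.mem_insert_of_mem ht)) (by
        intro x y hx hxy hy
        rcases eq_or_lt_of_le hxy with rfl | hxy'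
        · exact le_rfl
        · have := hslope x y hx hxy' (hu y hy)
          rw [le_div_iff₀ (by linarith)] at this
          show f x - k * x ≤ f y - k * y
          linarith)
    have hms : m ∉ s := fun h => lt_irrefl _ (hm m h)
    refine ⟨fun τ => if τ = m then k else c τ, fun τ => by
      show 0 ≤ (if τ = m then k else c τ)
      split_ifs; exacts [hk0, hc0 τ], ?_⟩
    intro t ht
    rw [Finset.sum_insert hms]
    have hsum : ∑ τ ∈ s, (if τ = m then k else c τ) * min t τ = ∑ τ ∈ s, c τ * min t τ :=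
      Finset.sum_congr rfl fun τ hτ => by rw [if_neg (hm τ hτ).ne]
    simp only [if_true]
    rw [hsum]
    have base : ∀ t, (t = 0 ∨ t ∈ s) → f t = f 0 + (k * min t m + ∑ τ ∈ s, c τ * min t τ) := by
      intro t ht
      have h1 := hc t ht
      have h2 : t ≤ m := by
        rcases ht with rfl | ht
        · exact hm0.le
        · exact (hm t ht).le
      rw [min_eq_left h2]
      simp only [mul_zero, sub_zero] at h1
      linarith
    rcases ht with rfl | ht
    · exact base 0 (Or.inl rfl)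
    · rcases Finset.mem_insert.mp ht with rfl | ht
      · have h1 := base u hus
        have h2 : ∑ τ ∈ s, c τ * min t τ = ∑ τ ∈ s, c τ * min u τ :=
          Finset.sum_congr rfl fun τ hτ => by
            rw [min_eq_right (hm τ hτ).le, min_eq_right (hu τ hτ)]
        rw [min_eq_left hum.le] at h1
        rw [min_self, h2]
        have h3 : k * (t - u) = f t - f u := by
          rw [hk]; exact div_mul_cancel₀ _ (by linarith)
        linarith
      · exact base t (Or.inr ht)

/-- basic concave functions -/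
noncomputable def e (τ t : ℝ) : ℝ := if τ = 0 then 1 else min t τ

lemma pair' {A B : Matrix n n ℂ} (PA : Polar A) (PB : Polar B) (PS : Polar (A + B))
    {σ τ : ℝ} (hσ : 0 ≤ σ) (hστ : σ ≤ τ) :
    T (PS.D.F (e σ) * PS.D.F (e τ)) ≤
      c0 * T ((PA.D.F (e σ) + PB.D.F (e σ)) * (PA.D.F (e τ) + PB.D.F (e τ))) := by
  have c1 := c0_ge
  rcases eq_or_lt_of_le hσ with rfl | hσ'
  · have e0 : ∀ D : FC n, D.F (e 0) = 1 := fun D => by
      rw [← D.one]; exact D.ext fun t _ => by simp [e]
    rw [e0, e0, e0, Matrix.one_mul, Matrix.add_mul, Matrix.one_mul, T_add, T_add]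
    rcases eq_or_lt_of_le hστ with rfl | hτ
    · rw [e0, e0, e0]
      have := T_psd (Matrix.PosSemidef.one (n := n) (R := ℂ))
      nlinarith
    · have e1 : ∀ D : FC n, D.F (e τ) = D.F (fun t => min t τ) := fun D =>
        D.ext fun t _ => by simp [e, hτ.ne']
      rw [e1, e1, e1]
      have h1 := single PA PB PS hτ
      have h2 := T_psd (PA.D.psd (φ := fun t => min t τ) fun t ht => le_min ht hτ.le)
      have h3 := T_psd (PB.D.psd (φ := fun t => min t τ) fun t ht => le_min ht hτ.le)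
      nlinarith
  · have e1 : ∀ D : FC n, D.F (e τ) = D.F (fun t => min t τ) := fun D =>
      D.ext fun t _ => by simp [e, (hσ'.trans_le hστ).ne']
    have e2 : ∀ D : FC n, D.F (e σ) = D.F (fun t => min t σ) := fun D =>
      D.ext fun t _ => by simp [e, hσ'.ne']
    rw [e1, e1, e1, e2, e2, e2]
    exact pair PA PB PS hσ' hστ

lemma FC.sum (D : FC n) (s : Finset ℝ) (c : ℝ → ℝ) :
    D.F (fun t => ∑ τ ∈ s, c τ * e τ t) = ∑ τ ∈ s, (c τ : ℂ) • D.F (e τ) := by
  classical
  induction s using Finset.induction_on with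
  | empty => simpa using D.zero
  | insert a s ha ih =>
    rw [Finset.sum_insert ha, ← ih, D.smul, D.add]
    exact D.ext fun t _ => by rw [Finset.sum_insert ha]

omit [DecidableEq n] in
lemma T_bil (s : Finset ℝ) (c : ℝ → ℝ) (X : ℝ → Matrix n n ℂ) :
    T ((∑ τ ∈ s, (c τ : ℂ) • X τ) * (∑ τ ∈ s, (c τ : ℂ) • X τ)) =
      ∑ σ ∈ s, ∑ τ ∈ s, c σ * c τ * T (X σ * X τ) := by
  rw [Finset.sum_mul_sum]
  unfold T
  simp only [Matrix.trace_sum, Complex.re_sum, smul_mul_assoc, mul_smul_comm, Matrix.trace_smul,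
    smul_eq_mul, Complex.re_ofReal_mul]
  exact Finset.sum_congr rfl fun σ _ => Finset.sum_congr rfl fun τ _ => by ring

theorem main (A B : Matrix n n ℂ) {f : ℝ → ℝ} (hf : ConcaveOn ℝ (Set.Ici 0) f)
    (h0 : ∀ t, 0 ≤ t → 0 ≤ f t) :
    N (cfc f (absM (A + B))) ≤ c0 * N (cfc f (absM A) + cfc f (absM B)) := by
  classical
  obtain ⟨PA⟩ := exists_polar A
  obtain ⟨PB⟩ := exists_polar B
  obtain ⟨PS⟩ := exists_polar (A + B)
  set s : Finset ℝ := (Finset.univ.image PA.D.a ∪ Finset.univ.image PB.D.a ∪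
    Finset.univ.image PS.D.a).filter (fun t => 0 < t) with hs
  have hpos : ∀ t ∈ s, 0 < t := fun t ht => (Finset.mem_filter.mp ht).2
  obtain ⟨c, hc0, hc⟩ := repr_aux s f hf hpos (fun x y hx hxy _ => concave_mono hf h0 hx hxy)
  have h0s : (0 : ℝ) ∉ s := fun h => lt_irrefl _ (hpos 0 h)
  set c' : ℝ → ℝ := fun τ => if τ = 0 then f 0 else c τ with hc'
  have hc'0 : ∀ τ, 0 ≤ c' τ := fun τ => by
    simp only [hc']; split_ifs; exacts [h0 0 le_rfl, hc0 τ]
  have rep : ∀ D : FC n, (∀ i, 0 < D.a i → D.a i ∈ s) →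
      D.F f = ∑ τ ∈ insert 0 s, (c' τ : ℂ) • D.F (e τ) := by
    intro D hD
    rw [← D.sum]
    refine D.ext' fun i => ?_
    have hi : D.a i = 0 ∨ D.a i ∈ s := by
      rcases eq_or_lt_of_le (D.ha i) with h | h
      · exact Or.inl h.symm
      · exact Or.inr (hD i h)
    rw [hc _ hi, Finset.sum_insert h0s]
    congr 1
    · simp [hc', e]
    · exact Finset.sum_congr rfl fun τ hτ => by simp [hc', e, (hpos τ hτ).ne']
  have rA := rep PA.D fun i h => by simp [hs, h]
  have rB := rep PB.D fun i h => by simp [hs, h]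
  have rS := rep PS.D fun i h => by simp [hs, h]
  rw [PA.hc, PB.hc, PS.hc]
  unfold N
  rw [conjTranspose_add, FC.herm, FC.herm, FC.herm, rA, rB, rS, ← Finset.sum_add_distrib]
  simp only [← smul_add]
  rw [T_bil, T_bil, Finset.mul_sum]
  refine Finset.sum_le_sum fun σ hσ => ?_
  rw [Finset.mul_sum]
  refine Finset.sum_le_sum fun τ hτ => ?_
  have nn : ∀ t ∈ insert (0 : ℝ) s, 0 ≤ t := fun t ht => by
    rcases Finset.mem_insert.mp ht with rfl | h
    · exact le_rfl
    · exact (hpos t h).le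
  have key : T (PS.D.F (e σ) * PS.D.F (e τ)) ≤
      c0 * T ((PA.D.F (e σ) + PB.D.F (e σ)) * (PA.D.F (e τ) + PB.D.F (e τ))) := by
    rcases le_total σ τ with h | h
    · exact pair' PA PB PS (nn σ hσ) h
    · rw [T_comm, T_comm (PA.D.F (e σ) + PB.D.F (e σ))]
      exact pair' PA PB PS (nn τ hτ) h
  have := mul_le_mul_of_nonneg_left key (mul_nonneg (hc'0 σ) (hc'0 τ))
  linarith

end H3Lee
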