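import Mathlib

open Polynomial

namespace Pool.Agent.H3.Lg

def NZ (f : ℂ[X]) : Prop := ∀ z : ℂ, 0 < z.im → f.eval z ≠ 0

lemma inj {f : ℂ[X]} {μ : ℂ} (hμ : μ ≠ 0) (h : derivative f - C μ * f = 0) : f = 0 := by
  by_contra hf
  have h1 := degree_derivative_lt hf
  rw [sub_eq_zero.1 h, degree_C_mul hμ] at h1
  exact lt_irrefl _ h1

lemma HP {f : ℂ[X]} (hf : NZ f) {μ : ℂ} (hμ : 0 ≤ μ.im) :
    derivative f - C μ * f = 0 ∨ NZ (derivative f - C μ * f) := by
  by_cases hd : f.natDegree = 0
  · by_cases h0 : μ = 0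
    · left; rw [eq_C_of_natDegree_eq_zero hd, h0]; simp
    · right
      intro z hz
      have := hf z hz
      rw [derivative_of_natDegree_zero hd]
      simp [h0, this]
  right
  intro z hz h
  have h1 := hf z hz
  have hs : f.Splits := IsAlgClosed.splits f
  have h2 := hs.eval_derivative_div_eval_of_ne_zero h1
  have hf0 : f ≠ 0 := by rintro rfl; simp at hd
  have h3 : (derivative f).eval z / f.eval z = μ := by
    rw [div_eq_iff h1]
    simpa [sub_eq_zero] using h
  rw [h3] at h2
  have h4 : (f.roots.map fun r => (1 / (z - r)).im).sum < (f.roots.map fun _ => (0 : ℝ)).sum := by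
    refine Multiset.sum_lt_sum_of_nonempty ?_ fun r hr => ?_
    · intro h0
      have := hs.natDegree_eq_card_roots
      rw [h0] at this
      exact hd (by simpa using this)
    · have hr' : ¬ 0 < r.im := fun h => hf r h ((mem_roots hf0).1 hr)
      have h5 : 0 < (z - r).im := by rw [Complex.sub_im]; linarith [not_lt.1 hr']
      have h6 : 0 < Complex.normSq (z - r) := Complex.normSq_pos.2 (by
        intro h; rw [h] at h5; simp at h5)
      rw [one_div, Complex.inv_im]
      exact div_neg_of_neg_of_pos (by linarith) h6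
  have h5 : μ.im = (f.roots.map fun r => (1 / (z - r)).im).sum := by
    rw [h2]
    have := map_multiset_sum Complex.imAddGroupHom (f.roots.map fun r => 1 / (z - r))
    simpa [Multiset.map_map] using this
  simp only [Multiset.map_const', Multiset.sum_replicate, smul_zero] at h4
  linarith

lemma A_ne {z : ℂ} (hz : 0 < z.im) : z ^ 2 - 1 ≠ 0 := by
  intro h
  have : (z - 1) * (z + 1) = 0 := by linear_combination h
  rcases mul_eq_zero.1 this with h | h
  · have := congrArg Complex.im h; simp at this; linarith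
  · have := congrArg Complex.im h; simp at this; linarith

lemma sym {z μ : ℂ} {s t : ℝ} (hz : 0 < z.im) (hs : 0 ≤ s) (ht : 0 ≤ t)
    (h : (z ^ 2 - 1) * μ ^ 2 + (s + t) * z * μ + s * t = 0) : 0 ≤ μ.im := by
  by_contra hn
  have hn := not_le.1 hn
  have h0 : μ ≠ 0 := by rintro rfl; simp at hn
  have hu : 0 < (μ⁻¹).im := by
    rw [Complex.inv_im]
    exact div_pos (by linarith) (Complex.normSq_pos.2 h0)
  have e : (z + s * μ⁻¹) * (z + t * μ⁻¹) = 1 := by
    field_simp
    linear_combination h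
  have h1 : 0 < (z + s * μ⁻¹).im := by
    rw [Complex.add_im, Complex.im_ofReal_mul]; positivity
  have h2 : 0 < (z + t * μ⁻¹).im := by
    rw [Complex.add_im, Complex.im_ofReal_mul]; positivity
  rw [eq_inv_of_mul_eq_one_right e, Complex.inv_im] at h2
  have h3 : 0 ≤ Complex.normSq (z + s * μ⁻¹) := Complex.normSq_nonneg _
  have : -(z + s * μ⁻¹).im / Complex.normSq (z + s * μ⁻¹) ≤ 0 :=
    div_nonpos_of_nonpos_of_nonneg (by linarith) h3
  linarith

lemma NZ_ne {f : ℂ[X]} (hf : NZ f) : f ≠ 0 := by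
  rintro rfl; exact hf Complex.I (by simp) (by simp)

lemma first {f : ℂ[X]} (hf : NZ f) {a : ℝ} (ha : 0 < a) {z : ℂ} (hz : 0 < z.im) :
    (z ^ 2 - 1) * (derivative f).eval z + a * z * f.eval z ≠ 0 := by
  have hA := A_ne hz
  have hz0 : z ≠ 0 := by rintro rfl; simp at hz
  have ha0 : (a : ℂ) ≠ 0 := by exact_mod_cast ha.ne'
  set μ : ℂ := -(a * z) / (z ^ 2 - 1) with hμ
  have h0 : μ ≠ 0 := div_ne_zero (neg_ne_zero.2 (mul_ne_zero ha0 hz0)) hA
  have h1 : 0 ≤ μ.im := sym (s := a) (t := 0) hz ha.le le_rfl (by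
    rw [hμ]; generalize z ^ 2 - 1 = A at hA; field_simp; simp)
  rcases HP hf h1 with h | h
  · exact absurd (inj h0 h) (NZ_ne hf)
  · intro h2
    apply h z hz
    simp only [eval_sub, eval_mul, eval_C, hμ]
    generalize z ^ 2 - 1 = A at hA h2
    field_simp
    linear_combination h2

lemma second {f : ℂ[X]} (hf : NZ f) {s t : ℝ} (hs : 0 < s) (ht : 0 < t) {z : ℂ} (hz : 0 < z.im) :
    (z ^ 2 - 1) * (derivative (derivative f)).eval z + (s + t) * z * (derivative f).eval z
      + s * t * f.eval z ≠ 0 := by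
  have hA := A_ne hz
  obtain ⟨w, hw⟩ := IsAlgClosed.exists_pow_nat_eq
    (((s + t) * z) ^ 2 - 4 * (z ^ 2 - 1) * (s * t) : ℂ) (n := 2) (by norm_num)
  have hst : (s * t : ℂ) ≠ 0 := by exact_mod_cast (mul_pos hs ht).ne'
  have root : ∀ w : ℂ, w ^ 2 = ((s + t) * z) ^ 2 - 4 * (z ^ 2 - 1) * (s * t) →
      0 ≤ ((-((s + t) * z) + w) / (2 * (z ^ 2 - 1))).im ∧
      (-((s + t) * z) + w) / (2 * (z ^ 2 - 1)) ≠ 0 := by
    intro w hw
    have e : (z ^ 2 - 1) * ((-((s + t) * z) + w) / (2 * (z ^ 2 - 1))) ^ 2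
        + (s + t) * z * ((-((s + t) * z) + w) / (2 * (z ^ 2 - 1))) + s * t = 0 := by
      generalize z ^ 2 - 1 = A at hA hw
      field_simp
      linear_combination hw
    refine ⟨sym hz hs.le ht.le e, fun h => ?_⟩
    rw [h] at e
    exact hst (by simpa using e)
  obtain ⟨a1, a2⟩ := root w hw
  obtain ⟨b1, b2⟩ := root (-w) (by rw [← hw]; ring)
  rcases HP hf a1 with h | h
  · exact absurd (inj a2 h) (NZ_ne hf)
  rcases HP h b1 with h' | h'
  · exact absurd (inj b2 h') (NZ_ne h)
  intro h2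
  apply h' z hz
  simp only [derivative_sub, derivative_mul, derivative_C, zero_mul, zero_add, eval_sub, eval_mul,
    eval_C]
  generalize z ^ 2 - 1 = A at hA h2 hw
  field_simp
  linear_combination 4 * A * h2 - eval z f * hw

def St (p : ℝ[X]) : Prop := p = 0 ∨ NZ (p.map (algebraMap ℝ ℂ))

noncomputable def E (j : ℕ) : Module.End ℝ ℝ[X] :=
  LinearMap.mulLeft ℝ (X ^ 2 - 1) ∘ₗ derivative + LinearMap.mulLeft ℝ (C (2 * (j + 1 : ℝ)) * X)

noncomputable def M (j : ℕ) (c : ℝ) : Module.End ℝ ℝ[X] :=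
  E j ∘ₗ derivative + LinearMap.mulLeft ℝ (C ((j : ℝ) * (j + 1) - c))

lemma E_apply (j : ℕ) (p : ℝ[X]) :
    E j p = (X ^ 2 - 1) * derivative p + C (2 * (j + 1 : ℝ)) * X * p := rfl

lemma M_apply (j : ℕ) (c : ℝ) (p : ℝ[X]) :
    M j c p = E j (derivative p) + C ((j : ℝ) * (j + 1) - c) * p := rfl

lemma St_D {p : ℝ[X]} (h : St p) : St (derivative p) := by
  rcases h with rfl | h
  · left; simp
  · rcases HP h (μ := 0) le_rfl with h1 | h1
    · left
      simp only [map_zero, zero_mul, sub_zero, derivative_map] at h1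
      exact (Polynomial.map_eq_zero_iff (algebraMap ℝ ℂ).injective).1 h1
    · right
      simpa using h1

lemma St_E (j : ℕ) {p : ℝ[X]} (h : St p) : St (E j p) := by
  rcases h with rfl | h
  · left; simp
  · right
    intro z hz
    have := first h (a := 2 * (j + 1 : ℝ)) (by positivity) hz
    simpa [E_apply] using this

lemma St_M (j : ℕ) {c : ℝ} (h0 : 0 ≤ c) (h1 : c ≤ j * (j + 1)) {p : ℝ[X]} (h : St p) :
    St (M j c p) := by
  rcases h1.eq_or_lt with h1 | h1
  · rw [M_apply, h1, sub_self, C_0, zero_mul, add_zero]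
    exact St_E j (St_D h)
  rcases h with rfl | h
  · left; simp
  right
  intro z hz
  have j0 : (0 : ℝ) ≤ j := by positivity
  set k : ℝ := Real.sqrt ((j : ℝ) + 1 + c) with hk
  have k2 : k ^ 2 = j + 1 + c := Real.sq_sqrt (by positivity)
  have k0 : 0 ≤ k := Real.sqrt_nonneg _
  have k1 : k < j + 1 := lt_of_pow_lt_pow_left₀ 2 (by positivity) (by nlinarith)
  have := second h (s := j + 1 + k) (t := j + 1 - k) (by positivity) (by linarith) hz
  have e1 : (((j + 1 + k : ℝ) : ℂ) + ((j + 1 - k : ℝ) : ℂ)) = ((2 * (j + 1 : ℝ) : ℝ) : ℂ) := by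
    push_cast; ring
  have e2 : (((j + 1 + k : ℝ) : ℂ) * ((j + 1 - k : ℝ) : ℂ))
      = (((j : ℝ) * (j + 1) - c : ℝ) : ℂ) := by
    rw [← Complex.ofReal_mul]; congr 1; nlinarith
  rw [e1, e2] at this
  simpa [M_apply, E_apply] using this

lemma D_M (j : ℕ) (c : ℝ) (p : ℝ[X]) : derivative (M j c p) = M (j + 1) c (derivative p) := by
  simp only [M_apply, E_apply, derivative_add, derivative_mul, derivative_sub, derivative_X_pow,
    derivative_C, derivative_X, derivative_one, map_mul, map_add, map_sub, Nat.cast_add,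
    Nat.cast_one, map_one, C_eq_natCast, Nat.cast_ofNat, map_ofNat, derivative_natCast,
    derivative_ofNat]
  ring

lemma M_comm (j : ℕ) (c d : ℝ) (p : ℝ[X]) : M j c (M j d p) = M j d (M j c p) := by
  have e : ∀ c p, M j c p = M j 0 p - c • p := by
    intro c p
    simp only [M_apply, smul_eq_C_mul, map_sub, map_zero]; ring
  rw [e c, e d (M j c p), e d p, e c p]
  simp only [map_sub, map_smul, smul_sub]
  module

noncomputable def app (j : ℕ) : List ℕ → ℝ[X] → ℝ[X]
  | [], p => p
  | c :: l, p => M j c (app j l p)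

lemma D_app (j : ℕ) (l : List ℕ) (p : ℝ[X]) :
    derivative (app j l p) = app (j + 1) l (derivative p) := by
  induction l with
  | nil => rfl
  | cons c l ih => rw [app, app, D_M, ih]

lemma app_erase (j : ℕ) (c : ℕ) (l : List ℕ) (h : c ∈ l) (p : ℝ[X]) :
    app j l p = M j c (app j (l.erase c) p) := by
  induction l with
  | nil => simp at h
  | cons d l ih =>
    by_cases hd : d = c
    · subst hd; simp [app]
    · have h' : c ∈ l := by
        rcases List.mem_cons.1 h with h | h
        · exact absurd h.symm hd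
        · exact h
      rw [List.erase_cons_tail (by simpa using hd), app, app, ih h', M_comm]

theorem St_app (d : ℕ) : ∀ (j : ℕ) (l : List ℕ), (∀ i, j ≤ i → i < j + d → i * (i + 1) ∈ l) →
    (∀ c ∈ l, c ≤ (j + d) * (j + d + 1)) → ∀ p, St p → St (app j l p) := by
  induction d with
  | zero =>
    intro j l h1 h2 p hp
    clear h1
    induction l with
    | nil => exact hp
    | cons c l ih =>
      refine St_M j (by positivity) ?_ (ih fun c hc => h2 c (List.mem_cons_of_mem _ hc))
      exact_mod_cast h2 c List.mem_cons_self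
  | succ d ih =>
    intro j l h1 h2 p hp
    rw [app_erase j _ l (h1 j le_rfl (by omega)), M_apply]
    push_cast
    rw [sub_self, C_0, zero_mul, add_zero, D_app]
    refine St_E j (ih (j + 1) _ (fun i hi hi' => ?_) (fun c hc => ?_) _ (St_D hp))
    · refine (List.mem_erase_of_ne ?_).2 (h1 i (by omega) (by omega))
      have : j * (j + 1) < i * (i + 1) := by nlinarith
      omega
    · have := h2 c (List.mem_of_mem_erase hc)
      rwa [show j + 1 + d = j + (d + 1) by ring]

theorem St_range (n : ℕ) (p : ℝ[X]) (hp : St p) : St (app 0 (List.range n) p) := by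
  classical
  have hex : ∃ d, n ≤ d * (d + 1) := ⟨n, by nlinarith⟩
  refine St_app (Nat.find hex) 0 _ (fun i _ hi => ?_) (fun c hc => ?_) p hp
  · have := Nat.find_min hex (m := i) (by omega)
    exact List.mem_range.2 (by omega)
  · have := Nat.find_spec hex
    have := List.mem_range.1 hc
    simp only [zero_add]; omega

lemma St_iff (p : ℝ[X]) : St p ↔ p = 0 ∨ ∀ z : ℂ, aeval z p = 0 → z.im = 0 := by
  refine or_congr Iff.rfl ⟨fun h z hz => ?_, fun h z hz h0 => ?_⟩
  · rcases lt_trichotomy z.im 0 with h1 | h1 | h1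
    · exfalso
      refine h (starRingEnd ℂ z) (by simpa using h1) ?_
      rw [eval_map_algebraMap, Polynomial.aeval_conj, hz, map_zero]
    · exact h1
    · exact absurd (by rwa [eval_map_algebraMap]) (h z h1)
  · rw [eval_map_algebraMap] at h0
    linarith [h z h0]

end Pool.Agent.H3.Lg
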