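import Pool.Agent.H3.LeeA

set_option maxHeartbeats 400000

open Matrix
open scoped ComplexOrder

namespace H3Mc
open H3Lee

variable {n : Type*} [Fintype n] [DecidableEq n]

/-- a unitary matrix -/
structure UB (n : Type*) [Fintype n] [DecidableEq n] where
  V : Matrix n n ℂ
  h1 : Vᴴ * V = 1
  h2 : V * Vᴴ = 1

/-- the matrix with eigenvalues `u` in the basis `V` -/
noncomputable def UB.G (D : UB n) (u : n → ℝ) : Matrix n n ℂ :=
  D.V * diagonal (fun i => ((u i : ℝ) : ℂ)) * D.Vᴴ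

namespace UB
variable (D : UB n)

lemma mul (u v : n → ℝ) : D.G u * D.G v = D.G (fun i => u i * v i) := by
  unfold G
  calc D.V * diagonal (fun i => ((u i : ℝ) : ℂ)) * D.Vᴴ *
        (D.V * diagonal (fun i => ((v i : ℝ) : ℂ)) * D.Vᴴ)
      = D.V * (diagonal (fun i => ((u i : ℝ) : ℂ)) * (D.Vᴴ * D.V) *
          diagonal (fun i => ((v i : ℝ) : ℂ))) * D.Vᴴ := by simp only [Matrix.mul_assoc]
    _ = _ := by
      rw [D.h1, Matrix.mul_one, diagonal_mul_diagonal]
      simp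

lemma add (u v : n → ℝ) : D.G u + D.G v = D.G (fun i => u i + v i) := by
  unfold G
  rw [← Matrix.add_mul, ← Matrix.mul_add, diagonal_add]
  simp

lemma smul (c : ℝ) (u : n → ℝ) : (c : ℂ) • D.G u = D.G (fun i => c * u i) := by
  unfold G
  rw [← Matrix.smul_mul, ← Matrix.mul_smul, ← diagonal_smul]
  congr 3
  funext i
  simp

lemma one : D.G (fun _ => 1) = 1 := by
  unfold G
  simp [D.h2]

lemma herm (u : n → ℝ) : (D.G u)ᴴ = D.G u := by
  unfold G
  rw [conjTranspose_mul, conjTranspose_mul, conjTranspose_conjTranspose, diagonal_conjTranspose,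
    Matrix.mul_assoc]
  congr 3
  funext i
  simp

lemma ext {u v : n → ℝ} (h : ∀ i, u i = v i) : D.G u = D.G v := by
  rw [funext h]

lemma conj (u : n → ℝ) : D.Vᴴ * D.G u * D.V = diagonal (fun i => ((u i : ℝ) : ℂ)) := by
  unfold G
  calc D.Vᴴ * (D.V * diagonal (fun i => ((u i : ℝ) : ℂ)) * D.Vᴴ) * D.V
      = (D.Vᴴ * D.V) * diagonal (fun i => ((u i : ℝ) : ℂ)) * (D.Vᴴ * D.V) := by
        simp only [Matrix.mul_assoc]
    _ = _ := by rw [D.h1]; simp

lemma psd {u : n → ℝ} (h : ∀ i, 0 ≤ u i) : (D.G u).PosSemidef := by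
  have : (diagonal (fun i => ((u i : ℝ) : ℂ))).PosSemidef :=
    posSemidef_diagonal_iff.mpr fun i => by exact_mod_cast h i
  exact this.mul_mul_conjTranspose_same _

lemma nonneg_of_psd {u : n → ℝ} (h : (D.G u).PosSemidef) (i : n) : 0 ≤ u i := by
  have := h.conjTranspose_mul_mul_same D.V
  rw [D.conj] at this
  exact_mod_cast posSemidef_diagonal_iff.mp this i

lemma ne_zero_of_mul {u : n → ℝ} {Y : Matrix n n ℂ} (h : D.G u * Y = 1) (i : n) : u i ≠ 0 := by
  intro h0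
  have e : diagonal (fun i => ((u i : ℝ) : ℂ)) * (D.Vᴴ * Y * D.V) = 1 := by
    rw [← D.conj]
    calc D.Vᴴ * D.G u * D.V * (D.Vᴴ * Y * D.V) = D.Vᴴ * (D.G u * ((D.V * D.Vᴴ) * Y)) * D.V := by
          simp only [Matrix.mul_assoc]
      _ = 1 := by rw [D.h2, Matrix.one_mul, h, Matrix.mul_one, D.h1]
  have := congrFun (congrFun e i) i
  simp [h0] at this

/-- diagonal entries in the basis `V` -/
noncomputable def dg (X : Matrix n n ℂ) (i : n) : ℝ := ((D.Vᴴ * X * D.V) i i).re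

lemma T_mul (X : Matrix n n ℂ) (u : n → ℝ) : T (X * D.G u) = ∑ i, D.dg X i * u i := by
  unfold G dg
  have : X * (D.V * diagonal (fun i => ((u i : ℝ) : ℂ)) * D.Vᴴ) =
      (X * D.V * diagonal (fun i => ((u i : ℝ) : ℂ))) * D.Vᴴ := by simp only [Matrix.mul_assoc]
  rw [this, T_comm, ← Matrix.mul_assoc, ← Matrix.mul_assoc]
  unfold T Matrix.trace
  simp only [diag_apply, mul_diagonal, Complex.re_sum, Complex.mul_re, Complex.ofReal_re,
    Complex.ofReal_im, mul_zero, sub_zero]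

lemma dg_add (X Y : Matrix n n ℂ) (i : n) : D.dg (X + Y) i = D.dg X i + D.dg Y i := by
  unfold dg; rw [Matrix.mul_add, Matrix.add_mul]; simp

lemma dg_G (u : n → ℝ) (i : n) : D.dg (D.G u) i = u i := by
  unfold dg; rw [D.conj]; simp

lemma dg_nonneg {X : Matrix n n ℂ} (h : X.PosSemidef) (i : n) : 0 ≤ D.dg X i := by
  have := (h.conjTranspose_mul_mul_same D.V).diag_nonneg (i := i)
  exact (Complex.nonneg_iff.mp this).1

lemma trace (u : n → ℝ) : T (D.G u) = ∑ i, u i := by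
  have := D.T_mul (D.G fun _ => 1) u
  rw [D.one, Matrix.one_mul] at this
  rw [this, ← D.one]
  simp [D.dg_G]

lemma klein (D' : UB n) : ∃ p : n → n → ℝ, (∀ i j, 0 ≤ p i j) ∧
    ∀ u v : n → ℝ, T (D.G u * D'.G v) = ∑ i, ∑ j, p i j * (u i * v j) := by
  refine ⟨fun i j => D'.dg (D.G (Pi.single i 1)) j, fun i j => ?_, fun u v => ?_⟩
  · refine D'.dg_nonneg (D.psd fun k => ?_) j
    by_cases h : k = i
    · subst h; simp
    · simp [h]
  · have e : ∀ i, ∑ j, D'.dg (D.G (Pi.single i 1)) j * (u i * v j) =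
        D.dg (D'.G v) i * u i := by
      intro i
      have h1 := D'.T_mul (D.G (Pi.single i 1)) v
      rw [T_comm, D.T_mul] at h1
      have h2 : ∑ k, D.dg (D'.G v) k * (Pi.single i (1 : ℝ) : n → ℝ) k = D.dg (D'.G v) i := by
        simp [Pi.single_apply]
      rw [← h2, h1, Finset.sum_mul]
      exact Finset.sum_congr rfl fun j _ => by ring
    rw [T_comm, D.T_mul]
    exact Finset.sum_congr rfl fun i _ => (e i).symm

/-- Klein type inequality -/
lemma klein3 (D' : UB n) (u1 u2 v1 v2 : n → ℝ) (h : ∀ i j, u1 i * v1 j ≤ u2 i + v2 j) :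
    T (D.G u1 * D'.G v1) ≤ T (D.G u2) + T (D'.G v2) := by
  obtain ⟨p, hp, hT⟩ := D.klein D'
  have a1 := hT u2 (fun _ => 1)
  have a2 := hT (fun _ => 1) v2
  rw [D'.one, Matrix.mul_one] at a1
  rw [D.one, Matrix.one_mul] at a2
  rw [a1, a2, hT, ← Finset.sum_add_distrib]
  refine Finset.sum_le_sum fun i _ => ?_
  rw [← Finset.sum_add_distrib]
  refine Finset.sum_le_sum fun j _ => ?_
  have := mul_le_mul_of_nonneg_left (h i j) (hp i j)
  linarith

end UB

lemma herm_exists {H : Matrix n n ℂ} (h : Hᴴ = H) :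
    ∃ (D : UB n) (u : n → ℝ), H = D.G u ∧ ∀ φ : ℝ → ℝ, cfc φ H = D.G (fun i => φ (u i)) := by
  have hH : H.IsHermitian := h
  refine ⟨⟨(hH.eigenvectorUnitary : Matrix n n ℂ), ?_, ?_⟩, hH.eigenvalues, ?_, fun φ => ?_⟩
  · have := Unitary.coe_star_mul_self hH.eigenvectorUnitary
    simpa [star_eq_conjTranspose] using this
  · have := Unitary.coe_mul_star_self hH.eigenvectorUnitary
    simpa [star_eq_conjTranspose] using this
  · conv_lhs => rw [hH.spectral_theorem, Unitary.conjStarAlgAut_apply]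
    rfl
  · rw [hH.cfc_eq, Matrix.IsHermitian.cfc, Unitary.conjStarAlgAut_apply]
    rfl

/-- sum of `φ` over the roots of the characteristic polynomial -/
noncomputable def S (φ : ℝ → ℝ) (H : Matrix n n ℂ) : ℝ :=
  (H.charpoly.roots.map (fun z => φ z.re)).sum

lemma S_G (D : UB n) (φ : ℝ → ℝ) (u : n → ℝ) : S φ (D.G u) = ∑ i, φ (u i) := by
  unfold S UB.G
  rw [charpoly_mul_comm, ← Matrix.mul_assoc, D.h1, Matrix.one_mul, charpoly_diagonal,
    Polynomial.roots_prod]
  · simp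
  · simp [Finset.prod_ne_zero_iff, Polynomial.X_sub_C_ne_zero]

lemma T_cfc {H : Matrix n n ℂ} (h : Hᴴ = H) (φ : ℝ → ℝ) : T (cfc φ H) = S φ H := by
  obtain ⟨D, u, h1, h2⟩ := herm_exists h
  rw [h2, D.trace, h1, S_G]

lemma S_comm (φ : ℝ → ℝ) (X Y : Matrix n n ℂ) : S φ (X * Y) = S φ (Y * X) := by
  unfold S; rw [charpoly_mul_comm]

lemma S_block (φ : ℝ → ℝ) (X Y : Matrix n n ℂ) :
    S φ (fromBlocks X 0 0 Y) = S φ X + S φ Y := by
  unfold S
  rw [charpoly_fromBlocks_zero₁₂, Polynomial.roots_mul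
    (mul_ne_zero (charpoly_monic X).ne_zero (charpoly_monic Y).ne_zero)]
  simp

lemma S_rect {m : Type*} [Fintype m] [DecidableEq m] {φ : ℝ → ℝ} (h0 : φ 0 = 0)
    (X : Matrix n m ℂ) (Y : Matrix m n ℂ) : S φ (X * Y) = S φ (Y * X) := by
  have h := congrArg (fun p : Polynomial ℂ => (p.roots.map (fun z => φ z.re)).sum)
    (charpoly_mul_comm' X Y)
  rw [Polynomial.roots_mul (mul_ne_zero (pow_ne_zero _ Polynomial.X_ne_zero)
    (charpoly_monic _).ne_zero), Polynomial.roots_mul (mul_ne_zero (pow_ne_zero _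
    Polynomial.X_ne_zero) (charpoly_monic _).ne_zero)] at h
  simpa [S, h0, Multiset.map_nsmul, Multiset.sum_nsmul] using h

end H3Mc
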