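import Pool.Agent.H3.McA

set_option maxHeartbeats 400000

open Matrix
open scoped ComplexOrder

namespace H3Mc
open H3Lee

variable {n : Type*} [Fintype n] [DecidableEq n]

lemma sc_klein {s w x : ℝ} (hs0 : 0 < s) (hs1 : s < 1) (hw : 0 < w) (hx : 0 < x) :
    w ^ (-s) ≤ s * (w⁻¹ * x) + (1 - s) * x ^ (-s / (1 - s)) := by
  have h := Real.geom_mean_le_arith_mean2_weighted (w₁ := s) (w₂ := 1 - s) (p₁ := w⁻¹ * x)
    (p₂ := x ^ (-s / (1 - s))) hs0.le (by linarith) (by positivity) (by positivity) (by ring)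
  have h1 : (1 - s) ≠ 0 := by linarith
  rw [← Real.rpow_mul hx.le, div_mul_cancel₀ _ h1, Real.mul_rpow (by positivity) hx.le,
    Real.inv_rpow hw.le, mul_assoc, ← Real.rpow_add hx, add_neg_cancel, Real.rpow_zero, mul_one,
    ← Real.rpow_neg hw.le] at h
  exact h

/-- Klein inequality for a negative power -/
lemma klein_neg {s : ℝ} (hs0 : 0 < s) (hs1 : s < 1) {W W' Y Wi Wi' : Matrix n n ℂ}
    (hW : W.PosSemidef) (hW' : W'.PosSemidef) (hi : W * Wi = 1) (hi' : W' * Wi' = 1)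
    (hY : W * Y = W') :
    S (fun x => x ^ (-s)) W ≤ s * T Y + (1 - s) * S (fun x => x ^ (-s / (1 - s))) W' := by
  obtain ⟨D, u, h1, -⟩ := herm_exists (H := W) hW.1
  obtain ⟨D', v, h2, -⟩ := herm_exists (H := W') hW'.1
  have hu : ∀ i, 0 < u i := fun i => lt_of_le_of_ne (D.nonneg_of_psd (h1 ▸ hW) i)
    (D.ne_zero_of_mul (h1 ▸ hi) i).symm
  have hv : ∀ i, 0 < v i := fun i => lt_of_le_of_ne (D'.nonneg_of_psd (h2 ▸ hW') i)
    (D'.ne_zero_of_mul (h2 ▸ hi') i).symm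
  have k := D.klein3 D' (fun i => -s * (u i)⁻¹) (fun i => -1 * u i ^ (-s)) v
    (fun j => (1 - s) * v j ^ (-s / (1 - s))) (fun i j => by
      have := sc_klein hs0 hs1 (hu i) (hv j); linarith)
  have e : D.G (fun i => (u i)⁻¹) * D'.G v = Y := by
    rw [← h2, ← hY, ← Matrix.mul_assoc, h1, D.mul]
    rw [D.ext (v := fun _ => 1) fun i => inv_mul_cancel₀ (hu i).ne', D.one, Matrix.one_mul]
  rw [← D.smul, smul_mul_assoc, T_smul, e, ← D.smul, ← D'.smul, T_smul, T_smul, D.trace,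
    D'.trace] at k
  rw [h1, h2, S_G, S_G]
  linarith

section
variable (DA DB : UB n) (a b : n → ℝ)

/-- `A^{1/2} B^θ A^{1/2}` -/
noncomputable def Wm (θ : ℝ) : Matrix n n ℂ :=
  DA.G (fun i => a i ^ (1 / 2 : ℝ)) * DB.G (fun i => b i ^ θ) * DA.G (fun i => a i ^ (1 / 2 : ℝ))

variable {a b}

lemma pw_mul (D : UB n) (ha : ∀ i, 0 < a i) (x y : ℝ) :
    D.G (fun i => a i ^ x) * D.G (fun i => a i ^ y) = D.G (fun i => a i ^ (x + y)) := by
  rw [D.mul]; exact D.ext fun i => (Real.rpow_add (ha i) x y).symm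

lemma pw_zero (D : UB n) : D.G (fun i => a i ^ (0 : ℝ)) = 1 := by
  rw [← D.one]; exact D.ext fun i => Real.rpow_zero _

lemma pw_cancel (D : UB n) (ha : ∀ i, 0 < a i) (x y : ℝ) (X : Matrix n n ℂ) :
    D.G (fun i => a i ^ x) * (D.G (fun i => a i ^ y) * X) = D.G (fun i => a i ^ (x + y)) * X := by
  rw [← Matrix.mul_assoc, pw_mul D ha]

lemma Wm_psd (hb : ∀ i, 0 < b i) (θ : ℝ) : (Wm DA DB a b θ).PosSemidef := by
  have := (DB.psd (u := fun i => b i ^ θ) fun i => (Real.rpow_pos_of_pos (hb i) θ).le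
    ).mul_mul_conjTranspose_same (DA.G (fun i => a i ^ (1 / 2 : ℝ)))
  rwa [DA.herm] at this

lemma Wm_inv (ha : ∀ i, 0 < a i) (hb : ∀ i, 0 < b i) (θ : ℝ) :
    Wm DA DB a b θ * (DA.G (fun i => a i ^ (-(1 / 2) : ℝ)) * (DB.G (fun i => b i ^ (-θ)) *
      DA.G (fun i => a i ^ (-(1 / 2) : ℝ)))) = 1 := by
  unfold Wm
  rw [Matrix.mul_assoc, pw_cancel DA ha, add_neg_cancel, pw_zero, Matrix.one_mul, Matrix.mul_assoc,
    pw_cancel DB hb, add_neg_cancel, pw_zero, Matrix.one_mul, pw_mul DA ha, add_neg_cancel, pw_zero]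

lemma hol_base (ha : ∀ i, 0 < a i) (hb : ∀ i, 0 < b i) {p α β : ℝ} (hp : p * α = 1)
    (hβ0 : 0 ≤ β) (hβ1 : β ≤ 1) (hαβ : 1 < α + β) :
    (α + β) * S (fun x => x ^ (-(α + β)⁻¹)) (Wm DA DB a b (p * β)) ≤
      α * ∑ i, a i ^ (-p) + β * ∑ i, b i ^ (-p) := by
  have h0 : 0 < α + β := by linarith
  have hs0 : 0 < (α + β)⁻¹ := inv_pos.mpr h0
  have hs1 : (α + β)⁻¹ < 1 := inv_lt_one_of_one_lt₀ hαβ
  have k := klein_neg hs0 hs1 (Wm_psd DA DB (a := a) hb (p * β))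
    (DA.psd (u := fun i => a i ^ (p * (α + β - 1))) fun i => (Real.rpow_pos_of_pos (ha i) _).le)
    (Wm_inv DA DB ha hb (p * β))
    (Wi' := DA.G (fun i => a i ^ (-(p * (α + β - 1)))))
    (by rw [pw_mul DA ha, add_neg_cancel, pw_zero])
    (Y := (DA.G (fun i => a i ^ (-(1 / 2) : ℝ)) * (DB.G (fun i => b i ^ (-(p * β))) *
      DA.G (fun i => a i ^ (-(1 / 2) : ℝ)))) * DA.G (fun i => a i ^ (p * (α + β - 1))))
    (by rw [← Matrix.mul_assoc, Wm_inv DA DB ha hb, Matrix.one_mul])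
  have e1 : T ((DA.G (fun i => a i ^ (-(1 / 2) : ℝ)) * (DB.G (fun i => b i ^ (-(p * β))) *
      DA.G (fun i => a i ^ (-(1 / 2) : ℝ)))) * DA.G (fun i => a i ^ (p * (α + β - 1)))) =
      T (DA.G (fun i => a i ^ (-p * (1 - β))) * DB.G (fun i => b i ^ (-p * β))) := by
    rw [Matrix.mul_assoc, T_comm, Matrix.mul_assoc, Matrix.mul_assoc, pw_mul DA ha, pw_mul DA ha,
      T_comm]
    have f1 : -(1 / 2) + (p * (α + β - 1) + -(1 / 2)) = -p * (1 - β) := by linarith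
    have f2 : -(p * β) = -p * β := by ring
    rw [f1, f2]
  have e2 := DA.klein3 DB (fun i => a i ^ (-p * (1 - β))) (fun i => (1 - β) * a i ^ (-p))
    (fun i => b i ^ (-p * β)) (fun i => β * b i ^ (-p)) (fun i j => by
      rw [Real.rpow_mul (ha i).le, Real.rpow_mul (hb j).le]
      exact Real.geom_mean_le_arith_mean2_weighted (by linarith) hβ0
        (Real.rpow_pos_of_pos (ha i) _).le (Real.rpow_pos_of_pos (hb j) _).le (by ring))
  rw [DA.trace, DB.trace, ← Finset.mul_sum, ← Finset.mul_sum] at e2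
  rw [e1, S_G] at k
  have e3 : ∑ i, (a i ^ (p * (α + β - 1))) ^ (-(α + β)⁻¹ / (1 - (α + β)⁻¹)) =
      ∑ i, a i ^ (-p) := by
    refine Finset.sum_congr rfl fun i _ => ?_
    rw [← Real.rpow_mul (ha i).le]
    congr 1
    have : α + β - 1 ≠ 0 := by linarith
    field_simp
  rw [e3] at k
  have k2 := mul_le_mul_of_nonneg_left k h0.le
  have e4 : (α + β) * ((α + β)⁻¹ * T (DA.G (fun i => a i ^ (-p * (1 - β))) *
      DB.G (fun i => b i ^ (-p * β))) + (1 - (α + β)⁻¹) * ∑ i, a i ^ (-p)) =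
      T (DA.G (fun i => a i ^ (-p * (1 - β))) * DB.G (fun i => b i ^ (-p * β))) +
        (α + β - 1) * ∑ i, a i ^ (-p) := by field_simp
  rw [e4] at k2
  linarith

lemma hol_step (ha : ∀ i, 0 < a i) (hb : ∀ i, 0 < b i) {p α β : ℝ} (hαβ : 0 < α + β)
    (h : (α + β) * S (fun x => x ^ (-(α + β)⁻¹)) (Wm DA DB a b (p * β)) ≤
      α * ∑ i, a i ^ (-p) + β * ∑ i, b i ^ (-p)) :
    (α + (β + 1)) * S (fun x => x ^ (-(α + (β + 1))⁻¹)) (Wm DA DB a b (p * (β + 1))) ≤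
      α * ∑ i, a i ^ (-p) + (β + 1) * ∑ i, b i ^ (-p) := by
  have h0 : 0 < α + (β + 1) := by linarith
  have hs0 : 0 < (α + (β + 1))⁻¹ := inv_pos.mpr h0
  have hs1 : (α + (β + 1))⁻¹ < 1 := inv_lt_one_of_one_lt₀ (by linarith)
  have k := klein_neg hs0 hs1 (Wm_psd DA DB (a := a) hb (p * (β + 1)))
    (Wm_psd DA DB (a := a) hb (p * β)) (Wm_inv DA DB ha hb _) (Wm_inv DA DB ha hb _)
    (Y := DA.G (fun i => a i ^ (-(1 / 2) : ℝ)) * (DB.G (fun i => b i ^ (-p)) *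
      DA.G (fun i => a i ^ (1 / 2 : ℝ))))
    (by
      unfold Wm
      rw [Matrix.mul_assoc, pw_cancel DA ha, add_neg_cancel, pw_zero, Matrix.one_mul,
        Matrix.mul_assoc, pw_cancel DB hb, Matrix.mul_assoc]
      have : p * (β + 1) + -p = p * β := by ring
      rw [this])
  rw [T_comm, Matrix.mul_assoc, pw_mul DA ha, add_neg_cancel, pw_zero, Matrix.mul_one,
    DB.trace] at k
  have e3 : -(α + (β + 1))⁻¹ / (1 - (α + (β + 1))⁻¹) = -(α + β)⁻¹ := by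
    have : α + (β + 1) - 1 ≠ 0 := by linarith
    field_simp
    ring
  rw [e3] at k
  have k2 := mul_le_mul_of_nonneg_left k h0.le
  have e4 : (α + (β + 1)) * ((α + (β + 1))⁻¹ * ∑ i, b i ^ (-p) + (1 - (α + (β + 1))⁻¹) *
      S (fun x => x ^ (-(α + β)⁻¹)) (Wm DA DB a b (p * β))) = ∑ i, b i ^ (-p) +
      (α + β) * S (fun x => x ^ (-(α + β)⁻¹)) (Wm DA DB a b (p * β)) := by
    field_simp
    ring
  rw [e4] at k2
  linarith

lemma hol_all (ha : ∀ i, 0 < a i) (hb : ∀ i, 0 < b i) {p α : ℝ} (hp : p * α = 1) (hα : 1 < α)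
    (k : ℕ) : ∀ β : ℝ, 0 ≤ β → β ≤ k + 1 →
    (α + β) * S (fun x => x ^ (-(α + β)⁻¹)) (Wm DA DB a b (p * β)) ≤
      α * ∑ i, a i ^ (-p) + β * ∑ i, b i ^ (-p) := by
  induction k with
  | zero => intro β h0 h1; exact hol_base DA DB ha hb hp h0 (by simpa using h1) (by linarith)
  | succ k ih =>
    intro β h0 h1
    rcases le_total β 1 with h | h
    · exact hol_base DA DB ha hb hp h0 h (by linarith)
    · have := hol_step DA DB ha hb (by linarith) (ih (β - 1) (by linarith) (by push_cast at h1; linarith))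
      rwa [sub_add_cancel] at this

lemma hol (ha : ∀ i, 0 < a i) (hb : ∀ i, 0 < b i) {q : ℝ} (h2 : -2 < q) (h0 : q < 0) :
    2 * S (fun x => x ^ (q / 2)) (Wm DA DB a b 1) ≤ ∑ i, a i ^ q + ∑ i, b i ^ q := by
  have hp : 0 < -q := by linarith
  have hα : 0 < (-q)⁻¹ := inv_pos.mpr hp
  have e : -q * (-q)⁻¹ = 1 := mul_inv_cancel₀ hp.ne'
  have key : ((-q)⁻¹ + (-q)⁻¹) * S (fun x => x ^ (-((-q)⁻¹ + (-q)⁻¹)⁻¹))
      (Wm DA DB a b (-q * (-q)⁻¹)) ≤ (-q)⁻¹ * ∑ i, a i ^ (- -q) + (-q)⁻¹ * ∑ i, b i ^ (- -q) := by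
    rcases le_or_gt (-q)⁻¹ 1 with h | h
    · refine hol_base DA DB ha hb e hα.le h ?_
      nlinarith
    · obtain ⟨k, hk⟩ := exists_nat_ge (-q)⁻¹
      exact hol_all DA DB ha hb e h k _ hα.le (by linarith)
  have e2 : -((-q)⁻¹ + (-q)⁻¹)⁻¹ = q / 2 := by
    have : q ≠ 0 := h0.ne
    field_simp
    ring
  rw [e, e2, neg_neg] at key
  have := mul_le_mul_of_nonneg_left key hp.le
  have e3 : ∀ X : ℝ, -q * (((-q)⁻¹ + (-q)⁻¹) * X) = 2 * X := fun X => by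
    rw [← mul_assoc, mul_add, e]; ring
  have e4 : ∀ X Y : ℝ, -q * ((-q)⁻¹ * X + (-q)⁻¹ * Y) = X + Y := fun X Y => by
    rw [mul_add, ← mul_assoc, ← mul_assoc, e]; ring
  rwa [e3, e4] at this

lemma sc_conv {q x m : ℝ} (hq : q < 0) (hx : 0 < x) (hm : 0 < m) :
    x * (q * m ^ (q - 1)) ≤ x ^ q + (q - 1) * m ^ q := by
  have h1 : 0 < 1 - q := by linarith
  have h := Real.geom_mean_le_arith_mean2_weighted (w₁ := 1 / (1 - q)) (w₂ := -q / (1 - q))
    (p₁ := x ^ q) (p₂ := x * m ^ (q - 1)) (by positivity) (div_nonneg (by linarith) h1.le)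
    (by positivity) (by positivity) (by field_simp; ring)
  rw [Real.mul_rpow hx.le (by positivity), ← Real.rpow_mul hx.le, ← Real.rpow_mul hm.le,
    ← mul_assoc, ← Real.rpow_add hx] at h
  have e1 : q * (1 / (1 - q)) + -q / (1 - q) = 0 := by field_simp; ring
  have e2 : (q - 1) * (-q / (1 - q)) = q := by field_simp; ring
  rw [e1, e2, Real.rpow_zero, one_mul] at h
  have h3 := mul_le_mul_of_nonneg_left h h1.le
  have e3 : (1 - q) * (1 / (1 - q) * x ^ q + -q / (1 - q) * (x * m ^ (q - 1))) =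
      x ^ q - q * (x * m ^ (q - 1)) := by field_simp; ring
  rw [e3] at h3
  linarith

lemma conv (ha : ∀ i, 0 < a i) (hb : ∀ i, 0 < b i) {q : ℝ} (h0 : q < 0) (D : UB n) {c : n → ℝ}
    (hc : ∀ i, 0 < c i) (h : DA.G a + DB.G b = D.G c) :
    2 * ∑ i, c i ^ q ≤ 2 ^ q * (∑ i, a i ^ q + ∑ i, b i ^ q) := by
  have k1 := DA.klein3 D a (fun i => a i ^ q) (fun j => q * (c j / 2) ^ (q - 1))
    (fun j => (q - 1) * (c j / 2) ^ q) fun i j => sc_conv h0 (ha i) (half_pos (hc j))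
  have k2 := DB.klein3 D b (fun i => b i ^ q) (fun j => q * (c j / 2) ^ (q - 1))
    (fun j => (q - 1) * (c j / 2) ^ q) fun i j => sc_conv h0 (hb i) (half_pos (hc j))
  have k3 := add_le_add k1 k2
  rw [← T_add, ← Matrix.add_mul, h, D.mul, D.trace, DA.trace, DB.trace, D.trace] at k3
  have e1 : ∑ j, c j * (q * (c j / 2) ^ (q - 1)) = 2 * q * ∑ j, (c j / 2) ^ q := by
    rw [Finset.mul_sum]
    refine Finset.sum_congr rfl fun j _ => ?_
    have := hc j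
    rw [Real.rpow_sub_one (half_pos (hc j)).ne']
    field_simp
  have e2 : ∑ j, c j ^ q = 2 ^ q * ∑ j, (c j / 2) ^ q := by
    rw [Finset.mul_sum]
    refine Finset.sum_congr rfl fun j _ => ?_
    rw [← Real.mul_rpow (by norm_num) (half_pos (hc j)).le]
    congr 1; ring
  rw [e1, ← Finset.mul_sum] at k3
  rw [e2]
  have : (0 : ℝ) < 2 ^ q := by positivity
  nlinarith

end

end H3Mc
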