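import Pool.Agent.H3.McA

set_option maxHeartbeats 400000

open Matrix
open scoped ComplexOrder

namespace H3Mc
open H3Lee

variable {n : Type*} [Fintype n] [DecidableEq n]

/-- truncated cube -/
noncomputable def ph (τ x : ℝ) : ℝ := (max (x - τ) 0) ^ 3

lemma sc_k3 {τ y z w : ℝ} (hw : 0 ≤ w) (hz : 0 ≤ z + w) :
    3 * (y - τ) * (z * z) ≤ ph τ y + (2 * (z * z * z) + 4 * w ^ 3) := by
  unfold ph
  have h1 : 3 * (y - τ) * (z * z) ≤ 3 * max (y - τ) 0 * (z * z) :=
    mul_le_mul_of_nonneg_right (by linarith [le_max_left (y - τ) 0]) (mul_self_nonneg z)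
  have h0 : 0 ≤ max (y - τ) 0 := le_max_right _ _
  set t := max (y - τ) 0
  have hw3 : 0 ≤ w ^ 3 := by positivity
  rcases le_total 0 z with h | h
  · nlinarith [mul_nonneg (mul_self_nonneg (t - z)) (by linarith : 0 ≤ t + 2 * z)]
  · have h2 : (-z) ^ 3 ≤ w ^ 3 := pow_le_pow_left₀ (by linarith) (by linarith) 3
    nlinarith [mul_nonneg (mul_self_nonneg (t + z)) (by linarith : 0 ≤ t - 2 * z)]

lemma shift (D : UB n) (y : n → ℝ) (τ : ℝ) :
    D.G y - (τ : ℂ) • (1 : Matrix n n ℂ) = D.G (fun i => y i - τ) := by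
  rw [sub_eq_iff_eq_add, ← D.one, D.smul, D.add]
  exact D.ext fun i => by ring

lemma k3 {Y Z : Matrix n n ℂ} (hY : Yᴴ = Y) (hZ : Zᴴ = Z) {w : ℝ} (hw : 0 ≤ w) (τ : ℝ)
    (hZw : (Z + (w : ℂ) • (1 : Matrix n n ℂ)).PosSemidef) :
    3 * T ((Y - (τ : ℂ) • 1) * (Z * Z)) - 2 * T (Z * Z * Z) - 4 * Fintype.card n * w ^ 3 ≤
      S (ph τ) Y := by
  obtain ⟨D, y, rfl, -⟩ := herm_exists hY
  obtain ⟨D', z, rfl, -⟩ := herm_exists hZ
  rw [← D'.one, D'.smul, D'.add] at hZw
  have hz := D'.nonneg_of_psd hZw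
  have k := D.klein3 D' (fun i => 3 * (y i - τ)) (fun i => ph τ (y i)) (fun j => z j * z j)
    (fun j => 2 * (z j * z j * z j) + 4 * w ^ 3) fun i j => sc_k3 hw (by simpa using hz j)
  rw [← D.smul, smul_mul_assoc, T_smul, D.trace, D'.trace, Finset.sum_add_distrib,
    ← Finset.mul_sum] at k
  rw [shift, D'.mul, D'.mul, D'.trace, S_G]
  simp only [Finset.sum_const, Finset.card_univ, nsmul_eq_mul] at k
  linarith

lemma step {Y : Matrix n n ℂ} (hY : Yᴴ = Y) (E : UB n) (ν : n → ℝ) {w : ℝ} (hw : 0 ≤ w)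
    (hν : ∀ a, |ν a| ≤ w) (τ : ℝ) :
    6 * ∑ a, ν a ^ 2 * max (E.dg Y a - τ) 0 - 8 * Fintype.card n * w ^ 3 ≤
      S (ph τ) (Y + E.G ν) + S (ph τ) (Y - E.G ν) - 2 * S (ph τ) Y := by
  obtain ⟨D, y, hy, -⟩ := herm_exists hY
  set u : n → ℝ := fun a => if τ ≤ E.dg Y a then ν a else 0 with hu
  have huw : ∀ a, |u a| ≤ w := fun a => by
    simp only [hu]; split_ifs
    · exact hν a
    · simpa using hw
  set P := D.G (fun i => max (y i - τ) 0) with hP
  have hPp : P.PosSemidef := D.psd fun i => le_max_right _ _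
  have hPh : Pᴴ = P := D.herm _
  set W := E.G u with hW
  set N := E.G ν with hN
  set Y0 := Y - (τ : ℂ) • (1 : Matrix n n ℂ) with hY0
  have hWh : Wᴴ = W := E.herm _
  have hNh : Nᴴ = N := E.herm _
  have p1 : (P + W + (w : ℂ) • (1 : Matrix n n ℂ)).PosSemidef := by
    rw [add_assoc, hW, ← E.one, E.smul, E.add]
    exact hPp.add (E.psd fun a => by have := abs_le.mp (huw a); linarith [this.1])
  have p2 : (P - W + (w : ℂ) • (1 : Matrix n n ℂ)).PosSemidef := by
    have : P - W + (w : ℂ) • (1 : Matrix n n ℂ) = P + E.G (fun a => w - u a) := by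
      have e : E.G (fun a => w - u a) + W = (w : ℂ) • (1 : Matrix n n ℂ) := by
        rw [hW, E.add, ← E.one, E.smul]; exact E.ext fun a => by ring
      rw [← e]; abel
    rw [this]
    exact hPp.add (E.psd fun a => by have := abs_le.mp (huw a); linarith [this.2])
  have k1 := k3 (Y := Y + N) (Z := P + W) (by rw [conjTranspose_add, hY, hNh])
    (by rw [conjTranspose_add, hPh, hWh]) hw τ p1
  have k2 := k3 (Y := Y - N) (Z := P - W) (by rw [conjTranspose_sub, hY, hNh])
    (by rw [conjTranspose_sub, hPh, hWh]) hw τ p2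
  have r1 : Y + N - (τ : ℂ) • (1 : Matrix n n ℂ) = Y0 + N := by rw [hY0]; abel
  have r2 : Y - N - (τ : ℂ) • (1 : Matrix n n ℂ) = Y0 - N := by rw [hY0]; abel
  rw [r1] at k1
  rw [r2] at k2
  have hY0' : Y0 = D.G (fun i => y i - τ) := by rw [hY0, hy, shift]
  have a1 : T (Y0 * (P * P)) = S (ph τ) Y := by
    rw [hY0', hP, D.mul, D.mul, D.trace, hy, S_G]
    refine Finset.sum_congr rfl fun i _ => ?_
    unfold ph
    rcases le_total (y i - τ) 0 with h | h
    · rw [max_eq_right h]; ring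
    · rw [max_eq_left h]; ring
  have a2 : T (P * (P * P)) = S (ph τ) Y := by
    rw [hP, D.mul, D.mul, D.trace, hy, S_G]
    exact Finset.sum_congr rfl fun i _ => by unfold ph; ring
  have nw : N * W = W * W := by
    rw [hN, hW, E.mul, E.mul]
    exact E.ext fun a => by simp only [hu]; split_ifs <;> simp
  have wn : W * N = W * W := by
    rw [hN, hW, E.mul, E.mul]
    exact E.ext fun a => by simp only [hu]; split_ifs <;> simp
  have a3 : T (N * (P * W)) = T (P * (W * W)) := by rw [T_comm, Matrix.mul_assoc, wn]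
  have a4 : T (N * (W * P)) = T (P * (W * W)) := by rw [← Matrix.mul_assoc, nw, T_comm]
  have a5 : T (W * (P * W)) = T (P * (W * W)) := by rw [T_comm, Matrix.mul_assoc]
  have a6 : T (W * (W * P)) = T (P * (W * W)) := by rw [← Matrix.mul_assoc, T_comm]
  have a7 : T (Y0 * (W * W)) = ∑ a, ν a ^ 2 * max (E.dg Y a - τ) 0 := by
    rw [hW, E.mul, E.T_mul]
    refine Finset.sum_congr rfl fun a _ => ?_
    have : E.dg Y0 a = E.dg Y a - τ := by
      have e : Y = Y0 + E.G (fun _ => τ * 1) := by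
        rw [← E.smul, E.one, hY0]; abel
      rw [e, E.dg_add, E.dg_G]; ring
    rw [this]
    simp only [hu]
    split_ifs with h
    · rw [max_eq_left (by linarith)]; ring
    · rw [max_eq_right (by linarith)]; ring
  simp only [Matrix.mul_add, Matrix.add_mul, Matrix.mul_sub, Matrix.sub_mul, T_add, T_sub,
    Matrix.mul_assoc] at k1 k2
  linarith

lemma sc_up (τ y v : ℝ) : ph τ (y + v) + ph τ (y - v) - 2 * ph τ y ≤
    6 * (v ^ 2 * max (y - τ) 0) + 2 * |v| ^ 3 := by
  have key : ∀ c : ℝ, 0 ≤ c → ph τ (y + c) + ph τ (y - c) - 2 * ph τ y ≤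
      6 * (c ^ 2 * max (y - τ) 0) + 2 * c ^ 3 := by
    intro c hc
    unfold ph
    have e1 : y + c - τ = (y - τ) + c := by ring
    have e2 : y - c - τ = (y - τ) - c := by ring
    rw [e1, e2]
    set t := y - τ
    have hc3 : 0 ≤ c ^ 3 := by positivity
    rcases le_total t 0 with h | h
    · rw [max_eq_right h, max_eq_right (by linarith : t - c ≤ 0)]
      have : max (t + c) 0 ^ 3 ≤ c ^ 3 :=
        pow_le_pow_left₀ (le_max_right _ _) (max_le (by linarith) hc) 3
      nlinarith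
    · rw [max_eq_left h, max_eq_left (by linarith : 0 ≤ t + c)]
      rcases le_total t c with h2 | h2
      · rw [max_eq_right (by linarith : t - c ≤ 0)]
        nlinarith [mul_nonneg (mul_nonneg hc h) (by linarith : 0 ≤ c - t), pow_nonneg h 3]
      · rw [max_eq_left (by linarith : 0 ≤ t - c)]
        nlinarith
  rcases le_total 0 v with h | h
  · rw [abs_of_nonneg h]; exact key v h
  · have := key (-v) (by linarith)
    rw [abs_of_nonpos h]
    rw [← sub_eq_add_neg, sub_neg_eq_add, neg_sq] at this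
    linarith

lemma tele (F : ℝ → ℝ) {K : ℝ} (hK : 0 ≤ K)
    (h : ∀ t k : ℝ, 0 < k → -(K * k ^ 3) ≤ F (t + k) + F (t - k) - 2 * F t) :
    0 ≤ F 1 + F (-1) - 2 * F 0 := by
  have a : ∀ k : ℝ, 0 < k → ∀ m : ℕ, -((2 * m + 1) * (K * k ^ 3)) ≤
      (F ((m + 1) * k) + F (-((m + 1) * k))) - (F (m * k) + F (-(m * k))) := by
    intro k hk m
    induction m with
    | zero => have := h 0 k hk; simp only [zero_add, zero_sub] at this; simp; linarith
    | succ m ih =>
      have h1 := h ((m + 1) * k) k hk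
      have h2 := h (-((m + 1) * k)) k hk
      have e1 : ((m : ℝ) + 1) * k + k = (m + 1 + 1) * k := by ring
      have e2 : ((m : ℝ) + 1) * k - k = m * k := by ring
      have e3 : -(((m : ℝ) + 1) * k) + k = -(m * k) := by ring
      have e4 : -(((m : ℝ) + 1) * k) - k = -((m + 1 + 1) * k) := by ring
      rw [e1, e2] at h1
      rw [e3, e4] at h2
      push_cast
      linarith
  have b : ∀ k : ℝ, 0 < k → ∀ m : ℕ, -((m : ℝ) ^ 2 * (K * k ^ 3)) ≤
      (F (m * k) + F (-(m * k))) - 2 * F 0 := by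
    intro k hk m
    induction m with
    | zero => simp; linarith
    | succ m ih => have := a k hk m; push_cast; linarith
  by_contra hlt
  push Not at hlt
  obtain ⟨m, hm⟩ := exists_nat_gt (K / -(F 1 + F (-1) - 2 * F 0))
  have hpos : 0 < -(F 1 + F (-1) - 2 * F 0) := by linarith
  have hm0 : (0 : ℝ) < m := lt_of_le_of_lt (div_nonneg hK hpos.le) hm
  have := b (m : ℝ)⁻¹ (inv_pos.mpr hm0) m
  rw [mul_inv_cancel₀ hm0.ne'] at this
  have e : (m : ℝ) ^ 2 * (K * (m : ℝ)⁻¹ ^ 3) = K / m := by field_simp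
  rw [e] at this
  rw [div_lt_iff₀ hpos] at hm
  have h3 : K / m < -(F 1 + F (-1) - 2 * F 0) := by rw [div_lt_iff₀ hm0]; linarith
  linarith

/-- pinching inequality for the second difference of the truncated cube -/
lemma pinch {X : Matrix n n ℂ} (hX : Xᴴ = X) (E : UB n) (ν : n → ℝ) (τ : ℝ) :
    ∑ a, (ph τ (E.dg X a + ν a) + ph τ (E.dg X a - ν a) - 2 * ph τ (E.dg X a)) ≤
      S (ph τ) (X + E.G ν) + S (ph τ) (X - E.G ν) - 2 * S (ph τ) X := by
  obtain ⟨w, hw0, hw⟩ : ∃ w : ℝ, 0 ≤ w ∧ ∀ a, |ν a| ≤ w :=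
    ⟨∑ a, |ν a|, Finset.sum_nonneg fun a _ => abs_nonneg _, fun a =>
      Finset.single_le_sum (f := fun a => |ν a|) (fun a _ => abs_nonneg _) (Finset.mem_univ a)⟩
  have key := tele (fun t => S (ph τ) (X + E.G (fun a => t * ν a)) -
    ∑ a, ph τ (E.dg X a + t * ν a)) (K := 10 * Fintype.card n * w ^ 3) (by positivity) (by
      intro t k hk
      have hkw : ∀ a, |k * ν a| ≤ k * w := fun a => by
        rw [abs_mul, abs_of_pos hk]; exact mul_le_mul_of_nonneg_left (hw a) hk.le
      have s1 := step (Y := X + E.G (fun a => t * ν a))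
        (by rw [conjTranspose_add, hX, E.herm]) E (fun a => k * ν a) (by positivity) hkw τ
      have e1 : X + E.G (fun a => t * ν a) + E.G (fun a => k * ν a) =
          X + E.G (fun a => (t + k) * ν a) := by
        rw [add_assoc, E.add]; congr 1; exact E.ext fun a => by ring
      have e2 : X + E.G (fun a => t * ν a) - E.G (fun a => k * ν a) =
          X + E.G (fun a => (t - k) * ν a) := by
        rw [sub_eq_iff_eq_add, add_assoc, E.add]; congr 1; exact E.ext fun a => by ring
      rw [e1, e2] at s1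
      simp only [E.dg_add, E.dg_G] at s1
      have s2 : ∑ a, ph τ (E.dg X a + (t + k) * ν a) + ∑ a, ph τ (E.dg X a + (t - k) * ν a) -
          2 * ∑ a, ph τ (E.dg X a + t * ν a) ≤
          6 * ∑ a, (k * ν a) ^ 2 * max (E.dg X a + t * ν a - τ) 0 +
            ∑ _a : n, 2 * (k * w) ^ 3 := by
        rw [Finset.mul_sum, Finset.mul_sum, ← Finset.sum_add_distrib, ← Finset.sum_add_distrib,
          ← Finset.sum_sub_distrib]
        refine Finset.sum_le_sum fun a _ => ?_
        have := sc_up τ (E.dg X a + t * ν a) (k * ν a)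
        have f1 : E.dg X a + t * ν a + k * ν a = E.dg X a + (t + k) * ν a := by ring
        have f2 : E.dg X a + t * ν a - k * ν a = E.dg X a + (t - k) * ν a := by ring
        rw [f1, f2] at this
        have f3 : |k * ν a| ^ 3 ≤ (k * w) ^ 3 := pow_le_pow_left₀ (abs_nonneg _) (hkw a) 3
        linarith
      simp only [Finset.sum_const, Finset.card_univ, nsmul_eq_mul] at s2
      have f4 : 10 * (Fintype.card n : ℝ) * w ^ 3 * k ^ 3 =
        8 * Fintype.card n * (k * w) ^ 3 + Fintype.card n * (2 * (k * w) ^ 3) := by ring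
      rw [f4]
      linarith)
  have g0 : E.G (fun a => 0 * ν a) = 0 := by
    have := E.smul 0 ν
    rw [← this]; simp
  have g1 : X + E.G (fun a => -1 * ν a) = X - E.G ν := by
    rw [← E.smul]; simp [sub_eq_add_neg]
  rw [g0, g1] at key
  simp only [one_mul, add_zero, zero_mul] at key
  simp only [neg_mul, one_mul, ← sub_eq_add_neg] at key
  rw [Finset.sum_sub_distrib, Finset.sum_add_distrib, ← Finset.mul_sum]
  linarith

lemma sc_mono {τ x v : ℝ} (hτ : 0 ≤ τ) (h1 : 0 ≤ x + v) (h2 : 0 ≤ x - v) :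
    ph τ (2 * |v|) - 2 * ph τ |v| ≤ ph τ (x + v) + ph τ (x - v) - 2 * ph τ x := by
  have key : ∀ c : ℝ, 0 ≤ c → c ≤ x →
      ph τ (2 * c) - 2 * ph τ c ≤ ph τ (x + c) + ph τ (x - c) - 2 * ph τ x := by
    intro c hc hcx
    unfold ph
    have e1 : x + c - τ = (x - τ) + c := by ring
    have e2 : x - c - τ = (x - τ) - c := by ring
    have e3 : 2 * c - τ = (c - τ) + c := by ring
    rw [e1, e2, e3]
    have huv : c - τ ≤ x - τ := by linarith
    have hvc : c - τ ≤ c := by linarith
    set u := x - τ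
    set v := c - τ
    have hc3 : 0 ≤ c ^ 3 := by positivity
    have mid : ∀ s t : ℝ, 0 ≤ s → s ≤ t → t ≤ c → (s + c) ^ 3 - 2 * s ^ 3 ≤ (t + c) ^ 3 - 2 * t ^ 3 := by
      intro s t hs hst htc
      have : 0 ≤ (t - s) * (3 * c ^ 2 + 3 * c * (t + s) - (t ^ 2 + t * s + s ^ 2)) := by
        apply mul_nonneg (by linarith)
        nlinarith
      nlinarith
    have low : max (v + c) 0 ^ 3 - 2 * max v 0 ^ 3 ≤ (max v 0 + c) ^ 3 - 2 * max v 0 ^ 3 := by
      have : max (v + c) 0 ^ 3 ≤ (max v 0 + c) ^ 3 := pow_le_pow_left₀ (le_max_right _ _)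
        (max_le (by linarith [le_max_left v 0]) (by linarith [le_max_right v 0])) 3
      linarith
    have hm0 : 0 ≤ max v 0 := le_max_right _ _
    have hmc : max v 0 ≤ c := max_le hvc hc
    rcases le_total u 0 with h | h
    · rw [max_eq_right h, max_eq_right (by linarith : u - c ≤ 0), max_eq_right (by linarith : v ≤ 0)]
      have : max (v + c) 0 ^ 3 ≤ max (u + c) 0 ^ 3 := pow_le_pow_left₀ (le_max_right _ _)
        (max_le_max (by linarith) le_rfl) 3
      linarith
    · rw [max_eq_left h, max_eq_left (by linarith : 0 ≤ u + c)]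
      rcases le_total u c with h3 | h3
      · rw [max_eq_right (by linarith : u - c ≤ 0)]
        have := mid (max v 0) u hm0 (max_le huv h) h3
        linarith
      · rw [max_eq_left (by linarith : 0 ≤ u - c)]
        have := mid (max v 0) c hm0 hmc le_rfl
        nlinarith [mul_nonneg (sq_nonneg c) (by linarith : 0 ≤ u - c)]
  rcases le_total 0 v with h | h
  · rw [abs_of_nonneg h]; exact key v h (by linarith)
  · have := key (-v) (by linarith) (by linarith)
    rw [abs_of_nonpos h]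
    rw [← sub_eq_add_neg, sub_neg_eq_add] at this
    linarith

end H3Mc
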