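import Pool.Agent.H3.McB
import Pool.Agent.H3.McC

set_option maxHeartbeats 400000

open Matrix MeasureTheory Set
open scoped ComplexOrder

namespace H3Mc
open H3Lee

variable {n : Type*} [Fintype n] [DecidableEq n]

lemma int_ph {q x : ℝ} (hq : 3 < q) (hx : 0 ≤ x) :
    IntegrableOn (fun τ : ℝ => ph τ x * τ ^ (q - 4)) (Ioi 0) ∧
    ∫ τ in Ioi (0 : ℝ), ph τ x * τ ^ (q - 4) =
      (1 / (q - 3) - 3 / (q - 2) + 3 / (q - 1) - 1 / q) * x ^ q := by
  have i1 : IntervalIntegrable (fun τ : ℝ => τ ^ (q - 4)) volume 0 x :=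
    intervalIntegral.intervalIntegrable_rpow' (by linarith)
  have i2 : IntervalIntegrable (fun τ : ℝ => τ ^ (q - 3)) volume 0 x :=
    intervalIntegral.intervalIntegrable_rpow' (by linarith)
  have i3 : IntervalIntegrable (fun τ : ℝ => τ ^ (q - 2)) volume 0 x :=
    intervalIntegral.intervalIntegrable_rpow' (by linarith)
  have i4 : IntervalIntegrable (fun τ : ℝ => τ ^ (q - 1)) volume 0 x :=
    intervalIntegral.intervalIntegrable_rpow' (by linarith)
  have ig : IntervalIntegrable (fun τ : ℝ => x ^ 3 * τ ^ (q - 4) - 3 * x ^ 2 * τ ^ (q - 3) +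
      3 * x * τ ^ (q - 2) - τ ^ (q - 1)) volume 0 x :=
    (((i1.const_mul _).sub (i2.const_mul _)).add (i3.const_mul _)).sub i4
  have eq : EqOn (fun τ : ℝ => x ^ 3 * τ ^ (q - 4) - 3 * x ^ 2 * τ ^ (q - 3) +
      3 * x * τ ^ (q - 2) - τ ^ (q - 1)) (fun τ : ℝ => ph τ x * τ ^ (q - 4)) (Ioc 0 x) := by
    intro τ hτ
    have h0 := hτ.1
    have e1 : τ ^ (q - 3) = τ ^ (q - 4) * τ := by
      rw [← Real.rpow_add_one h0.ne']; congr 1; ring
    have e2 : τ ^ (q - 2) = τ ^ (q - 3) * τ := by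
      rw [← Real.rpow_add_one h0.ne']; congr 1; ring
    have e3 : τ ^ (q - 1) = τ ^ (q - 2) * τ := by
      rw [← Real.rpow_add_one h0.ne']; congr 1; ring
    simp only [ph]
    rw [max_eq_left (by linarith [hτ.2]), e3, e2, e1]
    ring
  have hz : ∀ τ ∈ Ioi (0 : ℝ) \ Ioc 0 x, ph τ x * τ ^ (q - 4) = 0 := by
    intro τ hτ
    have h1 : x < τ := by
      by_contra h
      exact hτ.2 ⟨hτ.1, not_lt.mp h⟩
    simp only [ph]
    rw [max_eq_right (by linarith)]; simp
  have j : IntegrableOn (fun τ : ℝ => ph τ x * τ ^ (q - 4)) (Ioc 0 x) :=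
    ((intervalIntegrable_iff_integrableOn_Ioc_of_le hx).mp ig).congr_fun eq measurableSet_Ioc
  refine ⟨j.of_forall_sdiff_eq_zero measurableSet_Ioi hz, ?_⟩
  rw [setIntegral_eq_of_subset_of_forall_sdiff_eq_zero measurableSet_Ioi Ioc_subset_Ioi_self hz,
    ← setIntegral_congr_fun measurableSet_Ioc eq, ← intervalIntegral.integral_of_le hx,
    intervalIntegral.integral_sub (((i1.const_mul _).sub (i2.const_mul _)).add (i3.const_mul _)) i4,
    intervalIntegral.integral_add ((i1.const_mul _).sub (i2.const_mul _)) (i3.const_mul _),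
    intervalIntegral.integral_sub (i1.const_mul _) (i2.const_mul _),
    intervalIntegral.integral_const_mul, intervalIntegral.integral_const_mul,
    intervalIntegral.integral_const_mul,
    integral_rpow (Or.inl (by linarith)), integral_rpow (Or.inl (by linarith)),
    integral_rpow (Or.inl (by linarith)), integral_rpow (Or.inl (by linarith)),
    Real.zero_rpow (by linarith), Real.zero_rpow (by linarith), Real.zero_rpow (by linarith),
    Real.zero_rpow (by linarith)]
  rcases eq_or_lt_of_le hx with rfl | hx'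
  · rw [Real.zero_rpow (by linarith : q - 1 + 1 ≠ 0), Real.zero_rpow (by linarith : q ≠ 0)]
    simp
  · have e0 : q - 1 + 1 = q := by ring
    have e1 : x ^ q = x ^ (q - 2 + 1) * x := by
      rw [← Real.rpow_add_one hx'.ne']; congr 1; ring
    have e2 : x ^ (q - 2 + 1) = x ^ (q - 3 + 1) * x := by
      rw [← Real.rpow_add_one hx'.ne']; congr 1; ring
    have e3 : x ^ (q - 3 + 1) = x ^ (q - 4 + 1) * x := by
      rw [← Real.rpow_add_one hx'.ne']; congr 1; ring
    have d1 : q - 4 + 1 = q - 3 := by ring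
    have d2 : q - 3 + 1 = q - 2 := by ring
    have d3 : q - 2 + 1 = q - 1 := by ring
    rw [e0, e1, e2, e3, d1, d2, d3]
    ring

lemma integrate {ι : Type*} [Fintype ι] {q : ℝ} (hq : 3 < q) (α x : ι → ℝ) (hx : ∀ i, 0 ≤ x i)
    (h : ∀ τ, 0 < τ → 0 ≤ ∑ i, α i * ph τ (x i)) : 0 ≤ ∑ i, α i * x i ^ q := by
  have k : 0 ≤ ∫ τ in Ioi (0 : ℝ), ∑ i, α i * (ph τ (x i) * τ ^ (q - 4)) := by
    refine setIntegral_nonneg measurableSet_Ioi fun τ hτ => ?_
    have := mul_nonneg (h τ hτ) (Real.rpow_pos_of_pos hτ (q - 4)).le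
    rw [Finset.sum_mul] at this
    simpa only [mul_assoc] using this
  rw [integral_finset_sum _ fun i _ => ((int_ph hq (hx i)).1.const_mul _)] at k
  simp only [integral_const_mul, (int_ph hq (hx _)).2] at k
  have hκ : 0 < 1 / (q - 3) - 3 / (q - 2) + 3 / (q - 1) - 1 / q := by
    have a1 : 0 < q - 3 := by linarith
    have a2 : 0 < q - 2 := by linarith
    have a3 : 0 < q - 1 := by linarith
    have a4 : 0 < q := by linarith
    have : 1 / (q - 3) - 3 / (q - 2) + 3 / (q - 1) - 1 / q = 6 / ((q - 3) * (q - 2) * (q - 1) * q) := by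
      field_simp; ring
    rw [this]; positivity
  have e : ∑ i, α i * ((1 / (q - 3) - 3 / (q - 2) + 3 / (q - 1) - 1 / q) * x i ^ q) =
      (1 / (q - 3) - 3 / (q - 2) + 3 / (q - 1) - 1 / q) * ∑ i, α i * x i ^ q := by
    rw [Finset.mul_sum]; exact Finset.sum_congr rfl fun i _ => by ring
  rw [e] at k
  exact nonneg_of_mul_nonneg_right k hκ |> fun h => by
    by_contra hn
    push Not at hn
    nlinarith

theorem q2core (DA DB DC : UB n) {a b c : n → ℝ} (ha : ∀ i, 0 < a i) (hb : ∀ i, 0 < b i)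
    (hc : ∀ i, 0 ≤ c i) (h : DA.G a + DB.G b = DC.G c) {q : ℝ} (hq : 3 < q) :
    ∑ i, a i ^ q + ∑ i, b i ^ q + (2 ^ q - 2) * S (fun x => x ^ (q / 2)) (Wm DA DB a b 1) ≤
      ∑ i, c i ^ q := by
  set P := DA.G (fun i => a i ^ (1 / 2 : ℝ)) with hP
  set Q := DB.G (fun i => b i ^ (1 / 2 : ℝ)) with hQ
  have hPh : Pᴴ = P := DA.herm _
  have hQh : Qᴴ = Q := DB.herm _
  have hPP : P * P = DA.G a := by
    rw [hP, pw_mul DA ha]; exact DA.ext fun i => by norm_num
  have hQQ : Q * Q = DB.G b := by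
    rw [hQ, pw_mul DB hb]; exact DB.ext fun i => by norm_num
  obtain ⟨E, ν, hN, -⟩ := herm_exists (H := fromBlocks 0 (P * Q) (Q * P) 0) (by
    rw [fromBlocks_conjTranspose]; simp [hPh, hQh])
  have hD : (fromBlocks (DA.G a) 0 0 (DB.G b))ᴴ = fromBlocks (DA.G a) 0 0 (DB.G b) := by
    rw [fromBlocks_conjTranspose]; simp [DA.herm, DB.herm]
  have m1 : fromBlocks (DA.G a) 0 0 (DB.G b) + E.G ν = fromRows P Q * fromCols P Q := by
    rw [← hN, fromRows_mul_fromCols, fromBlocks_add, hPP, hQQ]; simp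
  have m2 : fromBlocks (DA.G a) 0 0 (DB.G b) - E.G ν = fromRows P (-Q) * fromCols P (-Q) := by
    rw [← hN, fromRows_mul_fromCols, sub_eq_add_neg, fromBlocks_neg, fromBlocks_add]
    simp [hPP, hQQ]
  have p1 : (fromRows P Q * fromCols P Q).PosSemidef := by
    have := posSemidef_self_mul_conjTranspose (fromRows P Q)
    rwa [conjTranspose_fromRows_eq_fromCols_conjTranspose, hPh, hQh] at this
  have p2 : (fromRows P (-Q) * fromCols P (-Q)).PosSemidef := by
    have := posSemidef_self_mul_conjTranspose (fromRows P (-Q))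
    rwa [conjTranspose_fromRows_eq_fromCols_conjTranspose, hPh, conjTranspose_neg, hQh] at this
  have d1 : ∀ x, 0 ≤ E.dg (fromBlocks (DA.G a) 0 0 (DB.G b)) x + ν x := fun x => by
    have := E.dg_nonneg p1 x
    rwa [← m1, E.dg_add, E.dg_G] at this
  have d2 : ∀ x, 0 ≤ E.dg (fromBlocks (DA.G a) 0 0 (DB.G b)) x - ν x := fun x => by
    have := E.dg_nonneg p2 x
    have e := E.dg_add (fromRows P (-Q) * fromCols P (-Q)) (E.G ν) x
    rw [E.dg_G] at e
    rw [← m2, sub_add_cancel] at e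
    rw [← m2] at this
    linarith
  have key := integrate hq (ι := (n ⊕ n ⊕ n) ⊕ ((n ⊕ n) ⊕ (n ⊕ n)))
    (Sum.elim (Sum.elim (fun _ => 2) (fun _ => -2)) (Sum.elim (fun _ => -1) (fun _ => 2)))
    (Sum.elim (Sum.elim c (Sum.elim a b)) (Sum.elim (fun x => 2 * |ν x|) (fun x => |ν x|)))
    (by
      rintro ((i | i | i) | (i | i))
      · exact hc i
      · exact (ha i).le
      · exact (hb i).le
      · show 0 ≤ 2 * |ν i|
        positivity
      · exact abs_nonneg _)
    (by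
      intro τ hτ
      have z : ph τ 0 = 0 := by unfold ph; rw [max_eq_right (by linarith)]; simp
      have k := pinch hD E ν τ
      rw [m1, m2, S_rect z, S_rect z (fromRows P (-Q)), fromCols_mul_fromRows,
        fromCols_mul_fromRows, Matrix.neg_mul, Matrix.mul_neg, neg_neg, hPP, hQQ, h, S_block,
        S_G, S_G, S_G] at k
      have k2 := (Finset.sum_le_sum fun x (_ : x ∈ Finset.univ) =>
        sc_mono hτ.le (d1 x) (d2 x)).trans k
      rw [Finset.sum_sub_distrib, ← Finset.mul_sum] at k2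
      rw [Fintype.sum_sum_type, Fintype.sum_sum_type, Fintype.sum_sum_type (α₁ := n) (α₂ := n),
        Fintype.sum_sum_type (α₁ := n ⊕ n)]
      simp only [Sum.elim_inl, Sum.elim_inr, ← Finset.mul_sum]
      linarith)
  rw [Fintype.sum_sum_type, Fintype.sum_sum_type, Fintype.sum_sum_type (α₁ := n) (α₂ := n),
    Fintype.sum_sum_type (α₁ := n ⊕ n)] at key
  simp only [Sum.elim_inl, Sum.elim_inr, ← Finset.mul_sum] at key
  have e1 : ∑ x, (2 * |ν x|) ^ q = 2 ^ q * ∑ x, |ν x| ^ q := by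
    rw [Finset.mul_sum]
    exact Finset.sum_congr rfl fun x _ => Real.mul_rpow (by norm_num) (abs_nonneg _)
  have e2 : ∑ x, |ν x| ^ q = 2 * S (fun x => x ^ (q / 2)) (Wm DA DB a b 1) := by
    have s1 := S_G E (fun x => x ^ (q / 2)) (fun x => ν x * ν x)
    rw [← E.mul, ← hN, fromBlocks_multiply] at s1
    simp only [Matrix.zero_mul, Matrix.mul_zero, add_zero, zero_add] at s1
    rw [S_block, S_comm _ (Q * P)] at s1
    have w : P * Q * (Q * P) = Wm DA DB a b 1 := by
      unfold Wm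
      rw [Matrix.mul_assoc, ← Matrix.mul_assoc Q, hQQ, ← Matrix.mul_assoc]
      simp only [Real.rpow_one, hP]
    rw [w] at s1
    rw [two_mul, s1]
    refine Finset.sum_congr rfl fun x _ => ?_
    rw [← abs_mul_abs_self, ← sq, ← Real.rpow_natCast, ← Real.rpow_mul (abs_nonneg _)]
    congr 1; push_cast; ring
  rw [e1, e2] at key
  linarith

/-- real power of a matrix -/
noncomputable def mpow (A : Matrix n n ℂ) (q : ℝ) : Matrix n n ℂ := cfc (fun x : ℝ => x ^ q) A

lemma pd_exists {A : Matrix n n ℂ} (hA : A.PosDef) :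
    ∃ (D : UB n) (u : n → ℝ), (∀ i, 0 < u i) ∧ A = D.G u ∧
      ∀ q : ℝ, mpow A q = D.G (fun i => u i ^ q) := by
  obtain ⟨D, u, h1, h2⟩ := herm_exists (H := A) hA.1
  obtain ⟨Y, hY⟩ := hA.isUnit.exists_right_inv
  exact ⟨D, u, fun i => lt_of_le_of_ne (D.nonneg_of_psd (h1 ▸ hA.posSemidef) i)
    (D.ne_zero_of_mul (h1 ▸ hY) i).symm, h1, fun q => h2 _⟩

theorem main {A B : Matrix n n ℂ} (hA : A.PosDef) (hB : B.PosDef) (q : ℝ) :
    (-2 < q → q < 0 → T (mpow (A + B) q) ≤ T (mpow A q) + T (mpow B q) +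
      (2 ^ q - 2) * T (mpow (mpow A (1 / 2) * B * mpow A (1 / 2)) (q / 2))) ∧
    (3 < q → T (mpow A q) + T (mpow B q) +
      (2 ^ q - 2) * T (mpow (mpow A (1 / 2) * B * mpow A (1 / 2)) (q / 2)) ≤
        T (mpow (A + B) q)) := by
  obtain ⟨DA, a, ha, a1, a2⟩ := pd_exists hA
  obtain ⟨DB, b, hb, b1, b2⟩ := pd_exists hB
  obtain ⟨DC, c, hc, c1, c2⟩ := pd_exists (hA.add hB)
  have w : mpow A (1 / 2) * B * mpow A (1 / 2) = Wm DA DB a b 1 := by
    rw [a2, b1]; unfold Wm; simp only [Real.rpow_one]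
  have w2 : T (mpow (mpow A (1 / 2) * B * mpow A (1 / 2)) (q / 2)) =
      S (fun x => x ^ (q / 2)) (Wm DA DB a b 1) := by
    rw [w]; exact T_cfc (Wm_psd DA DB hb 1).1 _
  have h : DA.G a + DB.G b = DC.G c := by rw [← a1, ← b1, c1]
  rw [w2, a2, b2, c2, DA.trace, DB.trace, DC.trace]
  refine ⟨fun h2 h0 => ?_, fun hq => q2core DA DB DC ha hb (fun i => (hc i).le) h hq⟩
  have k1 := hol DA DB ha hb h2 h0
  have k2 := conv DA DB ha hb h0 DC hc h
  have k3 : (2 : ℝ) ^ q ≤ 2 := by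
    have := Real.rpow_le_rpow_of_exponent_le (x := 2) (by norm_num) (by linarith : q ≤ 1)
    simpa using this
  nlinarith

end H3Mc
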