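import Mathlib
import Pool.Agent.H3.Amal

set_option autoImplicit false

namespace Pool.Agent.H3.NoPrime
open Pool.Agent.H3.Amal Filter

lemma sat (a b : ℕ → ℝ*) (h : ∀ i j, a i < b j) : ∃ y, (∀ i, a i < y) ∧ ∀ j, y < b j := by
  classical
  choose A hA using fun i => Hyperreal.ofSeq_surjective (a i)
  choose B hB using fun i => Hyperreal.ofSeq_surjective (b i)
  let S : ℕ → ℕ → Prop := fun t n => ∀ i ≤ n, ∀ j ≤ n, A i t < B j t
  have hS : ∀ n, ∀ᶠ t in (hyperfilter ℕ : Filter ℕ), S t n := fun n => by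
    have : ∀ᶠ t in (hyperfilter ℕ : Filter ℕ), ∀ p ∈ Finset.range (n + 1) ×ˢ Finset.range (n + 1),
        A p.1 t < B p.2 t := (Filter.eventually_all_finset _).2 fun p _ =>
      Hyperreal.ofSeq_lt_ofSeq.1 (by rw [hA, hB]; exact h _ _)
    exact this.mono fun t ht i hi j hj => ht (i, j) (by simp; omega)
  have ex : ∀ t n, ∃ y, S t n → (∀ i ≤ n, A i t < y) ∧ ∀ j ≤ n, y < B j t := fun t n => by
    obtain ⟨i, hi, e⟩ := (Finset.range (n + 1)).exists_max_image (fun i => A i t) ⟨0, by simp⟩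
    obtain ⟨j, hj, e'⟩ := (Finset.range (n + 1)).exists_min_image (fun i => B i t) ⟨0, by simp⟩
    refine ⟨(A i t + B j t) / 2, fun s => ?_⟩
    have := s i (by simpa [Nat.lt_succ_iff] using hi) j (by simpa [Nat.lt_succ_iff] using hj)
    exact ⟨fun k hk => by linarith [e k (by simp; omega)],
      fun k hk => by linarith [e' k (by simp; omega)]⟩
  choose Y hY using ex
  have key : ∀ n, ∀ᶠ t in (hyperfilter ℕ : Filter ℕ),
      A n t < Y t (Nat.findGreatest (S t) t) ∧ Y t (Nat.findGreatest (S t) t) < B n t := fun n => by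
    have h2 : ∀ᶠ t in (hyperfilter ℕ : Filter ℕ), n ≤ t :=
      Nat.hyperfilter_le_atTop (eventually_ge_atTop n)
    filter_upwards [hS n, h2] with t h1 h2
    have := hY t _ (Nat.findGreatest_spec h2 h1)
    exact ⟨this.1 n (Nat.le_findGreatest h2 h1), this.2 n (Nat.le_findGreatest h2 h1)⟩
  refine ⟨Hyperreal.ofSeq fun t => Y t (Nat.findGreatest (S t) t), fun i => ?_, fun j => ?_⟩
  · rw [← hA]; exact Hyperreal.ofSeq_lt_ofSeq.2 ((key i).mono fun _ h => h.1)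
  · rw [← hB]; exact Hyperreal.ofSeq_lt_ofSeq.2 ((key j).mono fun _ h => h.2)

variable {K : Type} [Field K] [LinearOrder K] [IsStrictOrderedRing K]

/-- below some term -/
def Bl (u : ℕ → K) (x : K) : Prop := ∃ n, x ≤ u n
/-- not separated by the cuts -/
def E (F : Set (ℕ → K)) (x y : K) : Prop := ∀ u ∈ F, Bl u x ↔ Bl u y
/-- piecewise affine with countably generated cuts -/
def PA (f : Au K) : Prop := ∃ F : Set (ℕ → K), F.Finite ∧ ∃ Φ : Set (K × K), Φ.Finite ∧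
  ∀ x, ∃ φ ∈ Φ, φ.1 ≠ 0 ∧ ∀ y, E F x y → f.v y = φ.1 * y + φ.2

omit [Field K] [IsStrictOrderedRing K] in
lemma bl_inv (g : Au K) (u : ℕ → K) (x : K) : Bl (fun n => g⁻¹.v (u n)) x ↔ Bl u (g.v x) :=
  exists_congr fun n => by rw [← g.v.le_iff_le, ap_inv]
omit [Field K] [IsStrictOrderedRing K] in
lemma bl_const (a x : K) : Bl (fun _ => a) x ↔ x ≤ a := by simp [Bl]

omit [IsStrictOrderedRing K] in
lemma PA.aff {f : Au K} {k c : K} (hk : k ≠ 0) (h : ∀ y, f.v y = k * y + c) : PA f :=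
  ⟨∅, Set.finite_empty, {(k, c)}, Set.finite_singleton _, fun _ => ⟨_, rfl, hk, fun y _ => h y⟩⟩
omit [IsStrictOrderedRing K] in
lemma PA.one : PA (1 : Au K) := PA.aff (c := 0) one_ne_zero fun y => by simp [one_v]
omit [IsStrictOrderedRing K] in
lemma PA.mul {f g : Au K} (hf : PA f) (hg : PA g) : PA (f * g) := by
  obtain ⟨F, f1, Φ, f2, f3⟩ := hf
  obtain ⟨G, g1, Ψ, g2, g3⟩ := hg
  refine ⟨G ∪ (fun u n => g⁻¹.v (u n)) '' F, g1.union (f1.image _),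
    Set.image2 (fun p q => (p.1 * q.1, p.1 * q.2 + p.2)) Φ Ψ, f2.image2 _ g2, fun x => ?_⟩
  obtain ⟨p, p1, p2, p3⟩ := f3 (g.v x)
  obtain ⟨q, q1, q2, q3⟩ := g3 x
  refine ⟨_, Set.mem_image2_of_mem p1 q1, mul_ne_zero p2 q2, fun y e => ?_⟩
  rw [mul_v, p3 _ fun u hu => by rw [← bl_inv, ← bl_inv]; exact e _ (Or.inr ⟨u, hu, rfl⟩),
    q3 y fun u hu => e u (Or.inl hu)]
  ring
omit [IsStrictOrderedRing K] in
lemma PA.inv {f : Au K} (hf : PA f) : PA f⁻¹ := by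
  obtain ⟨F, f1, Φ, f2, f3⟩ := hf
  refine ⟨(fun u n => f⁻¹⁻¹.v (u n)) '' F, f1.image _,
    (fun p => (p.1⁻¹, -p.2 / p.1)) '' Φ, f2.image _, fun x => ?_⟩
  obtain ⟨p, p1, p2, p3⟩ := f3 (f⁻¹.v x)
  refine ⟨_, ⟨p, p1, rfl⟩, inv_ne_zero p2, fun y e => ?_⟩
  have := p3 (f⁻¹.v y) fun u hu => by rw [← bl_inv, ← bl_inv]; exact e _ ⟨u, hu, rfl⟩
  rw [ap_inv] at this
  dsimp only
  field_simp
  linear_combination -this
lemma PA.sup {f g : Au K} (hf : PA f) (hg : PA g) : PA (f ⊔ g) := by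
  obtain ⟨F, f1, Φ, f2, f3⟩ := hf
  obtain ⟨G, g1, Ψ, g2, g3⟩ := hg
  refine ⟨F ∪ G ∪ Set.image2 (fun p q _ => (q.2 - p.2) / (p.1 - q.1)) Φ Ψ,
    (f1.union g1).union (f2.image2 _ g2), Φ ∪ Ψ, f2.union g2, fun x => ?_⟩
  obtain ⟨p, p1, p2, p3⟩ := f3 x
  obtain ⟨q, q1, q2, q3⟩ := g3 x
  obtain ⟨a, ha⟩ : ∃ a, a = (q.2 - p.2) / (p.1 - q.1) := ⟨_, rfl⟩
  have key : (∀ y, (x ≤ a ↔ y ≤ a) → q.1 * y + q.2 ≤ p.1 * y + p.2) ∨
      ∀ y, (x ≤ a ↔ y ≤ a) → p.1 * y + p.2 ≤ q.1 * y + q.2 := by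
    rcases lt_trichotomy p.1 q.1 with h | h | h
    · have e : a * (p.1 - q.1) = q.2 - p.2 := by rw [ha, div_mul_cancel₀ _ (by linarith)]
      by_cases hx : x ≤ a
      · exact Or.inl fun y k => by nlinarith [k.1 hx]
      · exact Or.inr fun y k => by nlinarith [not_le.1 (mt k.2 hx)]
    · rcases le_total p.2 q.2 with k | k
      · exact Or.inr fun y _ => by rw [h]; linarith
      · exact Or.inl fun y _ => by rw [h]; linarith
    · have e : a * (p.1 - q.1) = q.2 - p.2 := by rw [ha, div_mul_cancel₀ _ (by linarith)]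
      by_cases hx : x ≤ a
      · exact Or.inr fun y k => by nlinarith [k.1 hx]
      · exact Or.inl fun y k => by nlinarith [not_le.1 (mt k.2 hx)]
  have sp : ∀ y, E (F ∪ G ∪ Set.image2 (fun p q _ => (q.2 - p.2) / (p.1 - q.1)) Φ Ψ) x y →
      f.v y = p.1 * y + p.2 ∧ g.v y = q.1 * y + q.2 ∧ (x ≤ a ↔ y ≤ a) := fun y e =>
    ⟨p3 y fun u hu => e u (Or.inl (Or.inl hu)), q3 y fun u hu => e u (Or.inl (Or.inr hu)), by
      rw [← bl_const, ← bl_const a y, ha]; exact e _ (Or.inr (Set.mem_image2_of_mem p1 q1))⟩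
  rcases key with k | k
  · refine ⟨p, Or.inl p1, p2, fun y e => ?_⟩
    obtain ⟨a1, a2, a3⟩ := sp y e
    rw [sup_v, a1, a2, max_eq_left (k y a3)]
  · refine ⟨q, Or.inr q1, q2, fun y e => ?_⟩
    obtain ⟨a1, a2, a3⟩ := sp y e
    rw [sup_v, a1, a2, max_eq_right (k y a3)]

omit [IsStrictOrderedRing K] in
lemma glue {f g : Au K} (hf : PA f) (hg : PA g) (u : ℕ → K)
    (h : ∀ y, Bl u (f⁻¹.v y) ↔ Bl u (g⁻¹.v y)) :
    ∃ k : Au K, PA k ∧ (∀ x, Bl u x → k.v x = f.v x) ∧ ∀ x, ¬ Bl u x → k.v x = g.v x := by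
  classical
  let k : Au K := mk (fun x => if Bl u x then f.v x else g.v x) (fun x y hxy => by
    dsimp only
    split_ifs with h1 h2 h2
    · exact f.v.strictMono hxy
    · refine lt_of_not_ge fun e => h2 ?_
      obtain ⟨n, hn⟩ := h1
      have := (h (g.v y)).1 ⟨n, by simpa [inv_ap] using (f⁻¹.v.monotone e).trans_eq (inv_ap f x) |>.trans hn⟩
      rwa [inv_ap] at this
    · exact absurd (h2.imp fun n hn => hxy.le.trans hn) h1
    · exact g.v.strictMono hxy) (fun y => by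
    by_cases hy : Bl u (f⁻¹.v y)
    · exact ⟨f⁻¹.v y, by simp [hy, ap_inv]⟩
    · exact ⟨g⁻¹.v y, by simp [← h, hy, ap_inv]⟩)
  have k1 : ∀ x, Bl u x → k.v x = f.v x := fun x hx => if_pos hx
  have k2 : ∀ x, ¬ Bl u x → k.v x = g.v x := fun x hx => if_neg hx
  obtain ⟨F, f1, Φ, f2, f3⟩ := hf
  obtain ⟨G, g1, Ψ, g2, g3⟩ := hg
  refine ⟨k, ⟨insert u (F ∪ G), (f1.union g1).insert u, Φ ∪ Ψ, f2.union g2, fun x => ?_⟩, k1, k2⟩
  by_cases hx : Bl u x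
  · obtain ⟨p, p1, p2, p3⟩ := f3 x
    exact ⟨p, Or.inl p1, p2, fun y e => by
      rw [k1 y ((e u (Or.inl rfl)).1 hx), p3 y fun v hv => e v (Or.inr (Or.inl hv))]⟩
  · obtain ⟨p, p1, p2, p3⟩ := g3 x
    exact ⟨p, Or.inr p1, p2, fun y e => by
      rw [k2 y (mt (e u (Or.inl rfl)).2 hx), p3 y fun v hv => e v (Or.inr (Or.inr hv))]⟩

omit [IsStrictOrderedRing K] in
lemma glue1 {f g : Au K} (hf : PA f) (hg : PA g) (a : K) (h : f.v a = g.v a) :
    ∃ k : Au K, PA k ∧ (∀ x, x ≤ a → k.v x = f.v x) ∧ ∀ x, a ≤ x → k.v x = g.v x := by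
  obtain ⟨k, k1, k2, k3⟩ := glue hf hg (fun _ => a) fun y => by
    rw [bl_const, bl_const, ← f.v.le_iff_le, ap_inv, ← g.v.le_iff_le (y := a), ap_inv, h]
  simp only [bl_const] at k2 k3
  refine ⟨k, k1, k2, fun x hx => ?_⟩
  rcases hx.eq_or_lt with rfl | hx
  · rw [k2 _ le_rfl, h]
  · exact k3 x hx.not_ge

lemma aff {a b c d : K} (h1 : a < b) (h2 : c < d) :
    ∃ f : Au K, PA f ∧ f.v a = c ∧ f.v b = d := by
  have hk : 0 < (d - c) / (b - a) := div_pos (by linarith) (by linarith)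
  let f : Au K := mk (fun x => c + (d - c) / (b - a) * (x - a))
    (fun x y h => by dsimp only; nlinarith)
    (fun y => ⟨a + (y - c) / ((d - c) / (b - a)), by
      dsimp only; rw [add_sub_cancel_left, mul_div_cancel₀ _ hk.ne']; ring⟩)
  have hf : ∀ x, f.v x = c + (d - c) / (b - a) * (x - a) := fun _ => rfl
  refine ⟨f, PA.aff (c := c - (d - c) / (b - a) * a) hk.ne' fun y => by rw [hf]; ring,
    by simp [hf], ?_⟩
  have : b - a ≠ 0 := by linarith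
  rw [hf]; field_simp; ring

/-- bounded support -/
def Bd (f : Au K) : Prop := ∃ p q : K, ∀ s, s < p ∨ q < s → f.v s = s

lemma trans2 {a b c d : K} (h1 : a < b) (h2 : c < d) :
    ∃ f : Au K, (PA f ∧ Bd f) ∧ f.v a = c ∧ f.v b = d := by
  obtain ⟨p, p1, p2⟩ : ∃ p, p < a ∧ p < c := ⟨min a c - 1, by
    constructor <;> linarith [min_le_left a c, min_le_right a c]⟩
  obtain ⟨q, q1, q2⟩ : ∃ q, b < q ∧ d < q := ⟨max b d + 1, by
    constructor <;> linarith [le_max_left b d, le_max_right b d]⟩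
  obtain ⟨f1, a1, b1, c1⟩ := aff p1 p2
  obtain ⟨f2, a2, b2, c2⟩ := aff h1 h2
  obtain ⟨f3, a3, b3, c3⟩ := aff q1 q2
  obtain ⟨k1, d1, e1, g1⟩ := glue1 a3 PA.one q c3
  obtain ⟨k2, d2, e2, g2⟩ := glue1 a2 d1 b (by rw [c2, e1 b q1.le, b3])
  obtain ⟨k3, d3, e3, g3⟩ := glue1 a1 d2 a (by rw [c1, e2 a h1.le, b2])
  obtain ⟨k4, d4, e4, g4⟩ := glue1 PA.one d3 p (by rw [e3 p p1.le, b1]; rfl)
  refine ⟨k4, ⟨d4, p, q, ?_⟩, by rw [g4 a p1.le, e3 a le_rfl, c1],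
    by rw [g4 b (by linarith), g3 b h1.le, e2 b le_rfl, c2]⟩
  rintro x (hx | hx)
  · exact e4 x hx.le
  · rw [g4 x (by linarith), g3 x (by linarith), g2 x (by linarith), g1 x hx.le]; rfl

omit [Field K] [IsStrictOrderedRing K] in
lemma Bd.two {f g h : Au K} (hf : Bd f) (hg : Bd g)
    (e : ∀ s, f.v s = s → g.v s = s → h.v s = s) : Bd h := by
  obtain ⟨p, q, a⟩ := hf
  obtain ⟨r, t, b⟩ := hg
  exact ⟨min p r, max q t, fun s hs => e s (a s (hs.imp (fun k => k.trans_le (min_le_left _ _))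
    (le_max_left _ _).trans_lt)) (b s (hs.imp (fun k => k.trans_le (min_le_right _ _))
    (le_max_right _ _).trans_lt))⟩

/-- the group -/
def L (K : Type) [Field K] [LinearOrder K] [IsStrictOrderedRing K] : Subgroup (Au K) where
  carrier := {f | PA f ∧ Bd f}
  one_mem' := ⟨PA.one, 0, 0, fun _ _ => rfl⟩
  mul_mem' := fun {f g} a b => ⟨a.1.mul b.1, a.2.two b.2 fun s h k => by rw [mul_v, k, h]⟩
  inv_mem' := fun {f} a => ⟨a.1.inv, a.2.two a.2 fun s h _ => inv_eq h⟩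

lemma L.sup {f g : Au K} (a : f ∈ L K) (b : g ∈ L K) : f ⊔ g ∈ L K :=
  ⟨a.1.sup b.1, a.2.two b.2 fun s h k => by rw [sup_v, h, k, max_self]⟩
lemma L.inf {f g : Au K} (a : f ∈ L K) (b : g ∈ L K) : f ⊓ g ∈ L K :=
  (L K).inv_mem (L.sup ((L K).inv_mem a) ((L K).inv_mem b))

lemma cut {f : Au ℝ*} (hf : f ∈ L ℝ*) (h1 : 1 ≤ f) {x : ℝ*} (hx : f.v x ≠ x) :
    ∃ y, f.v y ≠ y ∧ ∀ n : ℕ, (f ^ n).v y < x := by
  classical
  obtain ⟨⟨F, f1, Φ, -, f3⟩, p, q, bd⟩ := hf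
  let b : ℕ → ℝ* := fun n => (f ^ n)⁻¹.v x
  have mv : ∀ n, f.v (b n) ≠ b n := fun n e => hx (by
    have := congrArg (f ^ n).v e
    rwa [← mul_v, ← pow_succ, pow_succ', mul_v, ap_inv] at this)
  have an : Antitone b := fun m n h =>
    (inv_le_inv_iff.2 (pow_le_pow_right' h1 h) : (f ^ n)⁻¹ ≤ (f ^ m)⁻¹) x
  let A : Set ℝ* := insert (p - 1) (⋃ u ∈ {u ∈ F | ∀ n, ¬ Bl u (b n)}, Set.range u)
  have cA : A.Countable := ((f1.subset fun _ h => h.1).countable.biUnion fun u _ =>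
    Set.countable_range u).insert _
  obtain ⟨a, ha⟩ := cA.exists_eq_range ⟨_, Or.inl rfl⟩
  have ab : ∀ i j, a i < b j := fun i j => by
    have : a i ∈ A := ha ▸ Set.mem_range_self i
    rcases this with e | e
    · have := not_lt.1 fun k => mv j (bd _ (Or.inl k))
      rw [e]; linarith
    · simp only [Set.mem_iUnion] at e
      obtain ⟨u, hu, n, e⟩ := e
      exact lt_of_not_ge fun k => hu.2 j ⟨n, e ▸ k⟩
  obtain ⟨y, y1, y2⟩ := sat a b ab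
  obtain ⟨z, z1, z2⟩ := sat (fun _ => y) b fun _ j => y2 j
  have ev : ∀ᶠ N in atTop, ∀ u ∈ F, (∃ n, Bl u (b n)) → Bl u (b N) :=
    (Filter.eventually_all_finite f1).2 fun u _ => by
      by_cases k : ∃ n, Bl u (b n)
      · obtain ⟨n, m, k⟩ := k
        filter_upwards [eventually_ge_atTop n] with N hN _ using ⟨m, (an hN).trans k⟩
      · exact Eventually.of_forall fun _ h => absurd h k
  obtain ⟨N, hN⟩ := ev.exists
  have cl : ∀ t, y ≤ t → (∀ j, t < b j) → E F (b N) t := fun t t1 t2 u hu =>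
    ⟨fun ⟨m, k⟩ => ⟨m, (t2 N).le.trans k⟩, fun ⟨m, k⟩ => hN u hu (by_contra fun c => by
      have : u m ∈ A := Or.inr (Set.mem_biUnion (t := fun u => Set.range u)
        (show u ∈ {u ∈ F | ∀ n, ¬ Bl u (b n)} from ⟨hu, not_exists.1 c⟩) ⟨m, rfl⟩)
      obtain ⟨i, e⟩ := ha ▸ this
      exact (y1 i).not_ge (e ▸ t1.trans k))⟩
  obtain ⟨φ, -, -, hφ⟩ := f3 (b N)
  have fin : ∀ t, (∀ j, t < b j) → ∀ n : ℕ, (f ^ n).v t < x := fun t h n =>
    ((f ^ n).v.strictMono (h n)).trans_eq (ap_inv _ _)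
  by_cases ey : f.v y = y
  · refine ⟨z, fun ez => mv N ?_, fin z z2⟩
    rw [hφ y (cl y le_rfl y2)] at ey
    rw [hφ z (cl z (z1 0).le z2)] at ez
    have k1 : φ.1 = 1 := by
      have : (φ.1 - 1) * (z - y) = 0 := by linear_combination ez - ey
      exact sub_eq_zero.1 ((mul_eq_zero.1 this).resolve_right (sub_pos.2 (z1 0)).ne')
    rw [hφ _ fun _ _ => Iff.rfl, k1]
    rw [k1] at ey
    linear_combination ey
  · exact ⟨y, ey, fin y y2⟩

lemma split {f : Au ℝ*} (hf : f ∈ L ℝ*) (h1 : 1 ≤ f) (h2 : f ≠ 1) :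
    ∃ g ∈ L ℝ*, ∃ h ∈ L ℝ*, g ≠ 1 ∧ h ≠ 1 ∧ g ⊓ h = 1 ∧ g ⊔ h = f := by
  obtain ⟨x, hx⟩ : ∃ x, f.v x ≠ x := by_contra fun c => h2 (ext' (by simpa [one_v] using c))
  obtain ⟨y, y1, y2⟩ := cut hf h1 hx
  have iv : ∀ t, Bl (fun n => (f ^ n).v y) (f⁻¹.v t) ↔ Bl (fun n => (f ^ n).v y) ((1 : Au ℝ*)⁻¹.v t) :=
    fun t => ⟨fun ⟨n, k⟩ => ⟨n + 1, by
      dsimp only; rw [pow_succ', mul_v]; exact (ap_inv f t).ge.trans (f.v.monotone k)⟩,
      fun ⟨n, k⟩ => ⟨n, ((inv_le_one'.2 h1 : f⁻¹ ≤ 1) t).trans k⟩⟩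
  obtain ⟨g, g1, g2, g3⟩ := glue hf.1 PA.one _ iv
  obtain ⟨h, k1, k2, k3⟩ := glue PA.one hf.1 _ fun t => (iv t).symm
  have cs : ∀ t, (g.v t = f.v t ∧ h.v t = t) ∨ (g.v t = t ∧ h.v t = f.v t) := fun t => by
    by_cases c : Bl (fun n => (f ^ n).v y) t
    · exact Or.inl ⟨g2 t c, k2 t c⟩
    · exact Or.inr ⟨g3 t c, k3 t c⟩
  refine ⟨g, ⟨g1, hf.2.two hf.2 fun s a _ => by rcases cs s with c | c <;> simp [c.1, a]⟩,
    h, ⟨k1, hf.2.two hf.2 fun s a _ => by rcases cs s with c | c <;> simp [c.2, a]⟩,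
    fun e => y1 ?_, fun e => hx ?_, ext' fun t => ?_, ext' fun t => ?_⟩
  · rw [← g2 y ⟨0, le_rfl⟩, e, one_v]
  · rw [← k3 x fun ⟨n, k⟩ => (y2 n).not_ge k, e, one_v]
  · rw [inf_v, one_v]
    rcases cs t with c | c <;> rw [c.1, c.2]
    exacts [min_eq_right (h1 t), min_eq_left (h1 t)]
  · rw [sup_v]
    rcases cs t with c | c <;> rw [c.1, c.2]
    exacts [max_eq_left (h1 t), max_eq_right (h1 t)]

end Pool.Agent.H3.NoPrime
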