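import Mathlib

set_option autoImplicit false

namespace Pool.Agent.H3.PD3
open MonoidAlgebra

lemma const_of_succ {α : Type} (c : ℤ → α) (h : ∀ n, c (n + 1) = c n) (n m : ℤ) : c n = c m := by
  have : ∀ n, c n = c 0 := fun n => by
    induction n using Int.induction_on with
    | zero => rfl
    | succ n ih => rw [h, ih]
    | pred n ih => rw [← ih, ← h]; simp
  rw [this, this m]

lemma fix_zero {Ω : Type} (σ : Ω → Ω) (ht : Ω → ℤ) (h : ∀ z, ht (σ z) = ht z + 1) (f : Ω →₀ ℤ)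
    (e : f - Finsupp.mapDomain σ f = 0) : f = 0 := by
  classical
  by_contra c
  obtain ⟨z, a, b⟩ := f.support.exists_min_image ht (Finsupp.support_nonempty_iff.2 c)
  rw [sub_eq_zero.1 e] at a
  obtain ⟨w, k, rfl⟩ := Finset.mem_image.1 (Finsupp.mapDomain_support a)
  have := b w k
  rw [h] at this; omega

variable {G : Type} [Group G]

/-- push forward of coefficients -/
noncomputable def pj {Ω : Type} (p : G → Ω) : MonoidAlgebra ℤ G →+ (Ω →₀ ℤ) :=
  (Finsupp.mapDomain.addMonoidHom p).comp coeffAddEquiv.toAddMonoidHom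
omit [Group G] in
lemma pj_single {Ω : Type} (p : G → Ω) (g : G) (r : ℤ) :
    pj p (single g r) = Finsupp.single (p g) r := Finsupp.mapDomain_single

/-- augmentation -/
noncomputable def aug : MonoidAlgebra ℤ G →+* ℤ := (MonoidAlgebra.lift ℤ ℤ G 1).toRingHom
lemma aug_single (g : G) (r : ℤ) : aug (single g r) = r := by simp [aug]

/-- class of a group element -/
noncomputable def cl (I : AddSubgroup (MonoidAlgebra ℤ G)) (g : G) : MonoidAlgebra ℤ G ⧸ I :=
  QuotientAddGroup.mk (single g 1)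
lemma cl_eq {I : AddSubgroup (MonoidAlgebra ℤ G)} {g g' : G} :
    cl I g = cl I g' ↔ single g 1 - single g' 1 ∈ I := QuotientAddGroup.eq_iff_sub_mem

lemma mem_of_pj {Ω : Type} (p : G → Ω) (I : AddSubgroup (MonoidAlgebra ℤ G))
    (h : ∀ g g', p g = p g' → cl I g = cl I g') (r : MonoidAlgebra ℤ G)
    (e : pj p r = 0) : r ∈ I := by
  rcases isEmpty_or_nonempty G with _ | _
  · rw [show r = 0 from coeff_injective (Subsingleton.elim _ _)]; exact I.zero_mem
  have : ∀ r, r - ofCoeff (Finsupp.mapDomain (Function.invFun p) (pj p r)) ∈ I := fun r => by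
    induction r using induction_linear with
    | zero => simp
    | add a b ha hb =>
      rw [map_add, Finsupp.mapDomain_add, ofCoeff_add, add_sub_add_comm]; exact I.add_mem ha hb
    | single g n =>
      rw [pj_single, Finsupp.mapDomain_single]
      have := I.zsmul_mem (cl_eq.1 (h g _ (Function.invFun_eq ⟨g, rfl⟩).symm)) n
      simpa [smul_sub] using this
  simpa [e] using this r

omit [Group G] in
lemma pj_comm {Ω : Type} (p : G → Ω) (σ : Ω → Ω) (U : MonoidAlgebra ℤ G →+ MonoidAlgebra ℤ G)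
    (h : ∀ g, ∃ g', p g' = σ (p g) ∧ ∀ r, U (single g r) = single g' r) (r : MonoidAlgebra ℤ G) :
    pj p (U r) = Finsupp.mapDomain σ (pj p r) := by
  induction r using induction_linear with
  | zero => simp
  | add a b ha hb => simp [Finsupp.mapDomain_add, ha, hb]
  | single g n =>
    obtain ⟨g', a, b⟩ := h g
    rw [b, pj_single, pj_single, Finsupp.mapDomain_single, a]

lemma aug_pj (r : MonoidAlgebra ℤ G) (h : aug r = 0) : pj (fun _ => ()) r = 0 := by
  have : ∀ r : MonoidAlgebra ℤ G, pj (fun _ => ()) r = Finsupp.single () (aug r) := fun r => by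
    induction r using induction_linear with
    | zero => simp
    | add a b ha hb => simp [ha, hb]
    | single g n => rw [pj_single, aug_single]
  rw [this, h, Finsupp.single_zero]

lemma reg1 (q : ℤ ≃ G) (X : MonoidAlgebra ℤ G →+ MonoidAlgebra ℤ G)
    (hX : ∀ i r, X (single (q i) r) = single (q (i + 1)) r) :
    (∀ r, r - X r = 0 → r = 0) ∧ ∀ r, aug r = 0 → ∃ z, r = z - X z := by
  refine ⟨fun r e => ?_, fun r e => ?_⟩
  · refine mem_of_pj q.symm ⊥ (fun g g' e => by rw [q.symm.injective e]) r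
      (fix_zero (· + 1) id (fun _ => rfl) _ ?_)
    rw [← pj_comm q.symm (· + 1) X fun g => ⟨q (q.symm g + 1), by simp, by simp [← hX]⟩,
      ← map_sub, e, map_zero]
  · obtain ⟨z, a⟩ := mem_of_pj (fun _ => ()) (AddMonoidHom.id _ - X).range (fun g g' _ => by
      obtain ⟨m, rfl⟩ := q.surjective g
      obtain ⟨n, rfl⟩ := q.surjective g'
      exact const_of_succ (fun i => cl (AddMonoidHom.id _ - X).range (q i)) (fun i =>
        Eq.symm (cl_eq.2 (AddMonoidHom.mem_range.2 ⟨single (q i) 1, by simp [hX]⟩))) m n) r (aug_pj r e)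
    exact ⟨z, a.symm⟩

lemma reg3 (q : ℤ × ℤ × ℤ ≃ G) (X Y T : MonoidAlgebra ℤ G →+ MonoidAlgebra ℤ G)
    (hX : ∀ i j k r, X (single (q (i, j, k)) r) = single (q (i + 1, j, k)) r)
    (hY : ∀ i j k r, Y (single (q (i, j, k)) r) = single (q (i, j + 1, k)) r)
    (hT : ∀ i j k, ∃ i' j', ∀ r, T (single (q (i, j, k)) r) = single (q (i', j', k + 1)) r) :
    (∀ r, r - X r = 0 → r = 0) ∧ (∀ r s, r - Y r = s - X s → ∃ z, r = z - X z) ∧
    (∀ r s u, r - T r = (s - X s) + (u - Y u) → ∃ z w, r = (z - X z) + (w - Y w)) ∧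
    ∀ r, aug r = 0 → ∃ z w v, r = (z - X z) + (w - Y w) + (v - T v) := by
  have cX : ∀ I : AddSubgroup (MonoidAlgebra ℤ G), (AddMonoidHom.id _ - X).range ≤ I → ∀ i i' j k,
      cl I (q (i, j, k)) = cl I (q (i', j, k)) :=
    fun I h i i' j k => const_of_succ (fun i => cl I (q (i, j, k))) (fun i => (cl_eq.2
        (h ⟨single (q (i, j, k)) 1, by simp [hX]⟩)).symm) i i'
  have cY : ∀ I : AddSubgroup (MonoidAlgebra ℤ G), (AddMonoidHom.id _ - Y).range ≤ I → ∀ i j j' k,
      cl I (q (i, j, k)) = cl I (q (i, j', k)) :=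
    fun I h i j j' k => const_of_succ (fun j => cl I (q (i, j, k))) (fun j => (cl_eq.2
        (h ⟨single (q (i, j, k)) 1, by simp [hY]⟩)).symm) j j'
  have pX : ∀ {Ω : Type} (p : ℤ × ℤ × ℤ → Ω) (σ : Ω → Ω),
      (∀ i j k, p (i + 1, j, k) = σ (p (i, j, k))) → ∀ r, pj (p ∘ q.symm) (X r) =
      Finsupp.mapDomain σ (pj (p ∘ q.symm) r) := fun p σ h => pj_comm _ σ X fun g => by
    obtain ⟨⟨i, j, k⟩, rfl⟩ := q.surjective g
    exact ⟨_, by simp [h], hX i j k⟩
  have pY : ∀ {Ω : Type} (p : ℤ × ℤ × ℤ → Ω) (σ : Ω → Ω),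
      (∀ i j k, p (i, j + 1, k) = σ (p (i, j, k))) → ∀ r, pj (p ∘ q.symm) (Y r) =
      Finsupp.mapDomain σ (pj (p ∘ q.symm) r) := fun p σ h => pj_comm _ σ Y fun g => by
    obtain ⟨⟨i, j, k⟩, rfl⟩ := q.surjective g
    exact ⟨_, by simp [h], hY i j k⟩
  have pT : ∀ r, pj ((fun z => z.2.2) ∘ q.symm) (T r) =
      Finsupp.mapDomain (· + 1) (pj ((fun z => z.2.2) ∘ q.symm) r) := pj_comm _ _ T fun g => by
    obtain ⟨⟨i, j, k⟩, rfl⟩ := q.surjective g
    obtain ⟨i', j', e⟩ := hT i j k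
    exact ⟨_, by simp, e⟩
  refine ⟨fun r e => ?_, fun r s e => ?_, fun r s u e => ?_, fun r e => ?_⟩
  · refine mem_of_pj (id ∘ q.symm) ⊥ (fun g g' e => by rw [q.symm.injective e]) r
      (fix_zero (fun z => (z.1 + 1, z.2)) Prod.fst (fun _ => rfl) _ ?_)
    rw [← pX id _ fun _ _ _ => rfl, ← map_sub, e, map_zero]
  · obtain ⟨z, a⟩ := mem_of_pj (Prod.snd ∘ q.symm) (AddMonoidHom.id _ - X).range (fun g g' e => by
      obtain ⟨⟨i, j, k⟩, rfl⟩ := q.surjective g
      obtain ⟨⟨i', j', k'⟩, rfl⟩ := q.surjective g'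
      simp only [Function.comp, Equiv.symm_apply_apply, Prod.mk.injEq] at e
      rw [e.1, e.2, cX _ le_rfl]) r
      (fix_zero (fun z => (z.1 + 1, z.2)) Prod.fst (fun _ => rfl) _ (by
        rw [← pY Prod.snd _ fun _ _ _ => rfl, ← map_sub, e, map_sub, pX _ id fun _ _ _ => rfl]
        simp))
    exact ⟨z, a.symm⟩
  · have := mem_of_pj ((fun z => z.2.2) ∘ q.symm) ((AddMonoidHom.id _ - X).range ⊔
      (AddMonoidHom.id _ - Y).range) (fun g g' e => by
      obtain ⟨⟨i, j, k⟩, rfl⟩ := q.surjective g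
      obtain ⟨⟨i', j', k'⟩, rfl⟩ := q.surjective g'
      simp only [Function.comp, Equiv.symm_apply_apply] at e
      rw [e, cX _ le_sup_left i i', cY _ le_sup_right]) r
      (fix_zero (· + 1) id (fun _ => rfl) _ (by
        rw [← pT, ← map_sub, e, map_add, map_sub, map_sub, pX _ id fun _ _ _ => rfl,
          pY _ id fun _ _ _ => rfl]
        simp))
    obtain ⟨_, ⟨z, rfl⟩, _, ⟨w, rfl⟩, a⟩ := AddSubgroup.mem_sup.1 this
    exact ⟨z, w, a.symm⟩
  · have := mem_of_pj (fun _ => ()) ((AddMonoidHom.id _ - X).range ⊔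
      (AddMonoidHom.id _ - Y).range ⊔ (AddMonoidHom.id _ - T).range) (fun g g' _ => by
      obtain ⟨⟨i, j, k⟩, rfl⟩ := q.surjective g
      obtain ⟨⟨i', j', k'⟩, rfl⟩ := q.surjective g'
      rw [cX _ (le_sup_left.trans le_sup_left) i i',
        cY _ (le_sup_right.trans le_sup_left) i' j j']
      refine const_of_succ (fun k => cl _ (q (i', j', k)))
        (fun k => ?_) k k'
      obtain ⟨a, b, c⟩ := hT i' j' k
      rw [cX _ (le_sup_left.trans le_sup_left) i' a, cY _ (le_sup_right.trans le_sup_left) a j' b]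
      exact Eq.symm (cl_eq.2 (AddSubgroup.mem_sup_right (AddMonoidHom.mem_range.2
        ⟨single (q (i', j', k)) 1, by simp [c]⟩)))) r (aug_pj r e)
    obtain ⟨_, h, _, ⟨v, rfl⟩, a⟩ := AddSubgroup.mem_sup.1 this
    obtain ⟨_, ⟨z, rfl⟩, _, ⟨w, rfl⟩, rfl⟩ := AddSubgroup.mem_sup.1 h
    exact ⟨z, w, v, a.symm⟩

section ring
variable {R : Type} [Ring R] {a b c e f g h : R}

lemma chain (ab : a * b = b * a) (r1 : e * a = a * c) (r2 : f * a + g * b = b * c)
    (r4 : h * a = a * g) (i1 : ∀ r, r * a = 0 → r = 0)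
    (i2 : ∀ r s, r * b = s * a → ∃ z, r = z * a)
    (i3 : ∀ r s u, r * c = s * a + u * b → ∃ z w, r = z * a + w * b) :
    (∀ u v w, u * c + v * a + w * b = 0 → ∃ p q r, u = -(p * a + q * b) ∧
      v = p * e + q * f + r * b ∧ w = q * g - r * a) ∧
    ∀ p q r, p * a + q * b = 0 → q * g - r * a = 0 → ∃ k, p = -(k * b) ∧ q = k * a ∧ r = k * h := by
  have ko : ∀ p q, p * a + q * b = 0 → ∃ k, p = -(k * b) ∧ q = k * a := fun p q e => by
    obtain ⟨z, rfl⟩ := i2 q (-p) (by rw [neg_mul]; exact eq_neg_of_add_eq_zero_right e)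
    exact ⟨z, eq_neg_of_add_eq_zero_left (i1 _ (by
      rw [add_mul, mul_assoc, ← ab, ← mul_assoc, e])), rfl⟩
  refine ⟨fun u v w k => ?_, fun p q r k l => ?_⟩
  · obtain ⟨z, y, rfl⟩ := i3 u (-v) (-w) (by linear_combination (norm := noncomm_ring) k)
    obtain ⟨n, n1, n2⟩ := ko (v + z * e + y * f) (w + y * g) (by
      linear_combination (norm := noncomm_ring) k + z * r1 + y * r2)
    exact ⟨-z, -y, -n, by noncomm_ring, by linear_combination (norm := noncomm_ring) n1,
      by linear_combination (norm := noncomm_ring) n2⟩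
  · obtain ⟨n, rfl, rfl⟩ := ko p q k
    exact ⟨n, rfl, rfl, (sub_eq_zero.1 (i1 _ (by
      linear_combination (norm := noncomm_ring) l + n * r4))).symm⟩

lemma cochain (ab : a * b = b * a) (r1 : e * a = a * c) (r3 : h * b = b * e - a * f)
    (r4 : h * a = a * g) (i1 : ∀ r, a * r = 0 → r = 0)
    (i2 : ∀ r s, b * r = a * s → ∃ z, r = a * z)
    (i3 : ∀ r s u, h * r = a * s + b * u → ∃ z w, r = a * z + b * w) :
    (∀ u v w, -a * u + e * v = 0 → b * v - a * w = 0 → ∃ s, u = c * s ∧ v = a * s ∧ w = b * s) ∧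
    ∀ u v w, -b * u + a * v + h * w = 0 → ∃ p q r, u = -a * p + e * q ∧
      v = -b * p + f * q + g * r ∧ w = b * q - a * r := by
  have ko : ∀ p q, b * p - a * q = 0 → ∃ k, p = a * k ∧ q = b * k := fun p q e => by
    obtain ⟨z, rfl⟩ := i2 p q (sub_eq_zero.1 e)
    exact ⟨z, rfl, (sub_eq_zero.1 (i1 _ (by
      linear_combination (norm := noncomm_ring) e + ab * z))).symm⟩
  refine ⟨fun u v w k l => ?_, fun u v w k => ?_⟩
  · obtain ⟨n, rfl, rfl⟩ := ko v w l
    exact ⟨n, (sub_eq_zero.1 (i1 _ (by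
      linear_combination (norm := noncomm_ring) k - r1 * n))).symm, rfl, rfl⟩
  · obtain ⟨z, y, rfl⟩ := i3 w (-v) u (by linear_combination (norm := noncomm_ring) k)
    obtain ⟨n, n1, n2⟩ := ko (u - e * y) (v - f * y + g * z) (by
      linear_combination (norm := noncomm_ring) -k + r3 * y + r4 * z)
    exact ⟨-n, y, -z, by linear_combination (norm := noncomm_ring) n1,
      by linear_combination (norm := noncomm_ring) n2, by noncomm_ring⟩
end ring

end Pool.Agent.H3.PD3
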