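import Mathlib
import Pool.Agent.H3.PD3A

set_option autoImplicit false

namespace Pool.Agent.H3.PD3
open MonoidAlgebra CategoryTheory Matrix

variable {k G : Type} [CommRing k] [Group G]

/-- free module of row vectors -/
noncomputable def Fr (k G : Type) [CommRing k] [Group G] (n : ℕ) : Rep k G :=
  Rep.of (X := Fin n → MonoidAlgebra k G)
    { toFun := fun g => DistribSMul.toLinearMap k _ (of k G g)
      map_one' := LinearMap.ext fun v => by rw [map_one]; exact one_smul _ v
      map_mul' := fun g h => LinearMap.ext fun v => by rw [map_mul]; exact mul_smul _ _ v }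

/-- morphism from an additive equivariant map -/
noncomputable def mkH {A B : Rep k G} (f : A →ₗ[k] B) (h : ∀ g v, f (A.ρ g v) = B.ρ g (f v)) :
    A ⟶ B := Rep.ofHom ⟨f, fun g => LinearMap.ext (h g)⟩

lemma lin {n : ℕ} {A : Rep k G} (f : Fr k G n ⟶ A) (r : MonoidAlgebra k G)
    (v : Fin n → MonoidAlgebra k G) : f.hom (r • v) = A.ρ.asAlgebraHom r (f.hom v) := by
  induction r using induction_linear with
  | zero => rw [zero_smul, map_zero]; exact map_zero f.hom
  | add a b ha hb => rw [add_smul, map_add, LinearMap.add_apply, ← ha, ← hb]; exact map_add f.hom _ _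
  | single g c =>
    have : (single g c : MonoidAlgebra k G) • v = c • (of k G g • v) := by
      rw [← smul_assoc]; simp
    rw [this, Representation.asAlgebraHom_single, LinearMap.smul_apply, ← Rep.hom_comm_apply]
    exact map_smul f.hom _ _

/-- morphism from the images of the basis -/
noncomputable def lift {n : ℕ} {A : Rep k G} (a : Fin n → A) : Fr k G n ⟶ A :=
  mkH (A := Fr k G n) ⟨⟨fun v : Fin n → MonoidAlgebra k G => ∑ i, A.ρ.asAlgebraHom (v i) (a i),
    fun (v w : Fin n → MonoidAlgebra k G) => by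
      change ∑ i, A.ρ.asAlgebraHom (v i + w i) (a i) =
        ∑ i, A.ρ.asAlgebraHom (v i) (a i) + ∑ i, A.ρ.asAlgebraHom (w i) (a i)
      simp [Finset.sum_add_distrib]⟩, fun c (v : Fin n → MonoidAlgebra k G) => by
      change ∑ i, A.ρ.asAlgebraHom (c • v i) (a i) = c • ∑ i, A.ρ.asAlgebraHom (v i) (a i)
      simp [Finset.smul_sum]⟩ fun g v => by
    change ∑ i, A.ρ.asAlgebraHom (MonoidAlgebra.of k G g * v i) (a i) =
      A.ρ g (∑ i, A.ρ.asAlgebraHom (v i) (a i))
    simp only [map_mul, map_sum, Representation.asAlgebraHom_of, Module.End.mul_apply]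

lemma lift_ap {n : ℕ} {A : Rep k G} (a : Fin n → A) (v : Fin n → MonoidAlgebra k G) :
    (lift a).hom v = ∑ i, A.ρ.asAlgebraHom (v i) (a i) := rfl

/-- images of the basis -/
noncomputable def ev {n : ℕ} {A : Rep k G} (f : Fr k G n ⟶ A) (i : Fin n) : A :=
  f.hom (Pi.single i (1 : MonoidAlgebra k G))

lemma ev_lift {n : ℕ} {A : Rep k G} (a : Fin n → A) : ev (lift a) = a := funext fun i => by
  rw [ev, lift_ap, Finset.sum_eq_single i] <;> simp +contextual [Pi.single_apply]

lemma ap_ev {n : ℕ} {A : Rep k G} (f : Fr k G n ⟶ A) (v : Fin n → MonoidAlgebra k G) :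
    f.hom v = ∑ i, A.ρ.asAlgebraHom (v i) (ev f i) := by
  have : v = ∑ i, v i • Pi.single i (1 : MonoidAlgebra k G) := by
    ext1 j; simp [Finset.sum_apply, Pi.single_apply]
  conv_lhs => rw [this]
  exact (map_sum f.hom _ _).trans (Finset.sum_congr rfl fun i _ => lin f _ _)

lemma ev_inj {n : ℕ} {A : Rep k G} {f g : Fr k G n ⟶ A} (h : ev f = ev g) : f = g := by
  ext1
  refine Representation.IntertwiningMap.ext (LinearMap.ext fun v => ?_)
  exact (ap_ev f v).trans (by rw [h]; exact (ap_ev g v).symm)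

instance (n : ℕ) : Projective (Fr k G n) := ⟨fun f e _ => by
  choose s hs using (Rep.epi_iff_surjective e).1 inferInstance
  refine ⟨lift fun i => s (ev f i), ev_inj (funext fun i => ?_)⟩
  change e.hom (ev (lift _) i) = _
  rw [ev_lift]; exact hs _⟩

/-- matrix morphism -/
noncomputable def mat {p n : ℕ} (D : Matrix (Fin p) (Fin n) (MonoidAlgebra k G)) :
    Fr k G p ⟶ Fr k G n :=
  mkH (A := Fr k G p) (B := Fr k G n) (D.vecMulLinear.restrictScalars k) fun _ _ =>
    D.vecMulLinear.map_smul _ _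

lemma reg_ap (r s : MonoidAlgebra k G) :
    (Rep.ofMulAction k G G).ρ.asAlgebraHom r s = r * s := by
  induction r using induction_linear with
  | zero => simp
  | add a b ha hb => rw [map_add, LinearMap.add_apply, ha, hb, add_mul]
  | single g c =>
    induction s using induction_linear with
    | zero => simp
    | add a b ha hb => rw [map_add, ha, hb, mul_add]
    | single h d => simp [single_mul_single]

lemma ev_mat {p n : ℕ} (D : Matrix (Fin p) (Fin n) (MonoidAlgebra k G))
    (f : Fr k G n ⟶ Rep.ofMulAction k G G) : ev (mat D ≫ f) = D *ᵥ ev f := funext fun i => by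
  change f.hom (Pi.single i 1 ᵥ* D) = _
  rw [ap_ev, single_one_vecMul]
  exact Finset.sum_congr rfl fun j _ => reg_ap _ _

section res
variable {m : ℕ → ℕ} (D : ∀ i, Matrix (Fin (m (i + 1))) (Fin (m i)) (MonoidAlgebra k G))
  (ε : (Fin (m 0) → MonoidAlgebra k G) →ₗ[k] k) (e1 : ∀ g v, ε (of k G g • v) = ε v)
  (e2 : Function.Surjective ε) (e3 : ∀ x, x ∈ LinearMap.range (D 0).vecMulLinear ↔ ε x = 0)
  (e4 : ∀ i, LinearMap.range (D (i + 1)).vecMulLinear = LinearMap.ker (D i).vecMulLinear)

/-- the complex -/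
noncomputable def cx : ChainComplex (Rep k G) ℕ :=
  ChainComplex.of (fun i => Fr k G (m i)) (fun i => mat (D i)) fun i => by
    ext1
    refine Representation.IntertwiningMap.ext (LinearMap.ext fun v => ?_)
    exact (e4 i).le ⟨v, rfl⟩

lemma cx_d (i : ℕ) : (cx D e4).d (i + 1) i = mat (D i) := ChainComplex.of_d (fun i => Fr k G (m i)) (fun i => mat (D i)) i

/-- the resolution -/
noncomputable def res : ProjectiveResolution (Rep.trivial k G k) where
  complex := cx D e4
  projective i := inferInstanceAs (Projective (Fr k G (m i)))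
  π := ((cx D e4).toSingle₀Equiv _).symm ⟨mkH (A := Fr k G (m 0)) (B := Rep.trivial k G k) ε e1, by
    rw [cx_d]
    ext1
    refine Representation.IntertwiningMap.ext (LinearMap.ext fun v => ?_)
    exact (e3 _).1 ⟨v, rfl⟩⟩
  quasiIso := ⟨fun n => by
    induction n with
    | zero =>
      rw [ChainComplex.quasiIsoAt₀_iff, ShortComplex.quasiIso_iff_of_zeros' _ rfl rfl rfl]
      constructor
      · apply (forget₂ _ (ModuleCat k)).reflects_exact_of_faithful
        rw [ShortComplex.moduleCat_exact_iff]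
        intro x hx
        obtain ⟨y, hy⟩ := (e3 x).2 (by
          simpa [ChainComplex.toSingle₀Equiv] using! hx)
        exact ⟨y, by simpa [cx_d] using! hy⟩
      · rw [Rep.epi_iff_surjective]
        intro x
        obtain ⟨y, hy⟩ := e2 x
        exact ⟨y, by simpa [ChainComplex.toSingle₀Equiv] using! hy⟩
    | succ n _ =>
      rw [quasiIsoAt_iff_exactAt' (hL := ChainComplex.exactAt_succ_single_obj ..),
          HomologicalComplex.exactAt_iff' _ (n + 2) (n + 1) n (by simp) (by simp)]
      apply (forget₂ _ (ModuleCat k)).reflects_exact_of_faithful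
      rw [ShortComplex.moduleCat_exact_iff]
      intro x hx
      obtain ⟨y, hy⟩ := (e4 n).ge (show x ∈ LinearMap.ker (D n).vecMulLinear by
        simpa [cx_d] using! hx)
      exact ⟨y, by simpa [cx_d] using! hy⟩⟩

lemma yd {A : Rep k G} (i j : ℕ) (f : Fr k G (m i) ⟶ A) :
    (((cx D e4).linearYonedaObj k A).d i j).hom f = (cx D e4).d j i ≫ f := rfl

include e1 e2 e3 in
lemma sub_of (A : Rep k G) (n : ℕ) (h : ∀ f : Fr k G (m n) ⟶ A, mat (D n) ≫ f = 0 →
    ∃ g : Fr k G (m (n - 1)) ⟶ A, (cx D e4).d n (n - 1) ≫ g = f) :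
    Subsingleton (groupCohomology A n) := by
  rw [← ModuleCat.isZero_iff_subsingleton]
  refine Limits.IsZero.of_iso ?_ (groupCohomologyIso A n (res D ε e1 e2 e3 e4))
  rw [← HomologicalComplex.exactAt_iff_isZero_homology,
    HomologicalComplex.exactAt_iff' _ (n - 1) n (n + 1) (by cases n <;> simp) (by simp),
    ShortComplex.moduleCat_exact_iff]
  intro x hx
  exact h x (by rw [← cx_d D e4]; exact hx)

include e1 e2 e3 e4 in
lemma top_iso (A : Rep k G) (n : ℕ) (φ : (Fr k G (m (n + 1)) ⟶ A) →ₗ[k] k)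
    (h0 : mat (D (n + 1)) = 0) (h1 : Function.Surjective φ)
    (h2 : ∀ f, φ f = 0 ↔ ∃ g, mat (D n) ≫ g = f) :
    Nonempty (groupCohomology A (n + 1) ≃+ k) := by
  let S := ((cx D e4).linearYonedaObj k A).sc' n (n + 1) (n + 2)
  have i1 : groupCohomology A (n + 1) ≅ S.homology :=
    groupCohomologyIso A (n + 1) (res D ε e1 e2 e3 e4) ≪≫
      HomologicalComplex.homologyIsoSc' _ n (n + 1) (n + 2) (by simp) (by simp)
  let ψ : LinearMap.ker S.g.hom →ₗ[k] k := φ.comp (LinearMap.ker S.g.hom).subtype
  have s : Function.Surjective ψ := fun c => by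
    obtain ⟨f, e⟩ := h1 c
    refine ⟨⟨f, ?_⟩, e⟩
    change (cx D e4).d (n + 2) (n + 1) ≫ f = 0
    rw [cx_d, h0]; exact Limits.zero_comp
  have t : LinearMap.range S.moduleCatToCycles = LinearMap.ker ψ := by
    ext x
    refine Iff.trans ?_ (h2 x.1).symm
    rw [← cx_d D e4]
    exact exists_congr fun g => Subtype.ext_iff
  exact ⟨(i1.toLinearEquiv.trans (S.moduleCatHomologyIso.toLinearEquiv.trans
    ((Submodule.quotEquivOfEq _ _ t).trans (ψ.quotKerEquivOfSurjective s)))).toAddEquiv⟩

end res

end Pool.Agent.H3.PD3
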