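import Mathlib
import Pool.Agent.H3.PD3B

set_option autoImplicit false

namespace Pool.Agent.H3.PD3
open CategoryTheory Matrix

/-- sign -/
def sg (k : ℤ) : ℤ := (k.negOnePow : ℤˣ)
lemma sg_add (k l : ℤ) : sg (k + l) = sg k * sg l := by simp [sg, Int.negOnePow_add]
@[simp] lemma sg_zero : sg 0 = 1 := rfl
@[simp] lemma sg_one : sg 1 = -1 := rfl
@[simp] lemma sg_neg (k : ℤ) : sg (-k) = sg k := by simp [sg]
lemma sg_sq (k : ℤ) : sg k * sg k = 1 := by simpa using (sg_add k (-k)).symm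
lemma sg_ne (k : ℤ) : sg k ≠ 0 := fun h => by simpa [h] using sg_sq k

/-- the group: a semidirect product of the plane lattice with the integers -/
@[ext] structure Gp where
  /-- first -/
  i : ℤ
  /-- second -/
  j : ℤ
  /-- third -/
  k : ℤ

instance : Mul Gp := ⟨fun g h => ⟨g.i + sg g.k * (h.i + g.k * h.j), g.j + sg g.k * h.j, g.k + h.k⟩⟩
instance : One Gp := ⟨⟨0, 0, 0⟩⟩
instance : Inv Gp := ⟨fun g => ⟨sg g.k * (g.k * g.j - g.i), -(sg g.k * g.j), -g.k⟩⟩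
lemma mul_def (g h : Gp) :
    g * h = ⟨g.i + sg g.k * (h.i + g.k * h.j), g.j + sg g.k * h.j, g.k + h.k⟩ := rfl
lemma one_def : (1 : Gp) = ⟨0, 0, 0⟩ := rfl
lemma inv_def (g : Gp) : g⁻¹ = ⟨sg g.k * (g.k * g.j - g.i), -(sg g.k * g.j), -g.k⟩ := rfl
instance : Group Gp := Group.ofLeftAxioms
  (fun a b c => by ext <;> simp only [mul_def, sg_add] <;> ring)
  (fun a => by ext <;> simp [mul_def, one_def])
  (fun a => by ext <;> simp only [mul_def, inv_def, one_def, sg_neg] <;> ring)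

/-- group ring -/
abbrev R : Type := MonoidAlgebra ℤ Gp
/-- group element in the ring -/
noncomputable def o (i j k : ℤ) : R := .single ⟨i, j, k⟩ 1
lemma o_mul (i j k i' j' k' : ℤ) : o i j k * o i' j' k' =
    o (i + sg k * (i' + k * j')) (j + sg k * j') (k + k') := by
  simp [o, MonoidAlgebra.single_mul_single, mul_def]
lemma aug_o (i j k : ℤ) (r : R) : aug (r * (1 - o i j k)) = 0 := by simp [o, aug_single]
lemma aug_o' (i j k : ℤ) (r : R) : aug ((1 - o i j k) * r) = 0 := by simp [o, aug_single]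

/-- left coordinates -/
def ql : ℤ × ℤ × ℤ ≃ Gp := ⟨fun z => ⟨z.1, z.2.1, z.2.2⟩, fun g => (g.i, g.j, g.k), fun _ => rfl,
  fun _ => rfl⟩
/-- right coordinates -/
def qr : ℤ × ℤ × ℤ ≃ Gp := ((Equiv.neg _).trans ql).trans (Equiv.inv _)
lemma ql_ap (i j k : ℤ) : ql (i, j, k) = ⟨i, j, k⟩ := rfl
lemma qr_ap (i j k : ℤ) : qr (i, j, k) = (⟨-i, -j, -k⟩ : Gp)⁻¹ := rfl

lemma regL : (∀ r : R, (1 - o 1 0 0) * r = 0 → r = 0) ∧
    (∀ r s : R, (1 - o 0 1 0) * r = (1 - o 1 0 0) * s → ∃ z, r = (1 - o 1 0 0) * z) ∧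
    (∀ r s u : R, (1 - o 1 1 1) * r = (1 - o 1 0 0) * s + (1 - o 0 1 0) * u →
      ∃ z w, r = (1 - o 1 0 0) * z + (1 - o 0 1 0) * w) ∧
    ∀ r : R, aug r = 0 → ∃ z w v, r = (1 - o 1 0 0) * z + (1 - o 0 1 0) * w +
      (1 - o 1 1 1) * v := by
  simpa only [sub_mul, one_mul, AddMonoidHom.coe_mulLeft] using
    reg3 ql (.mulLeft (o 1 0 0)) (.mulLeft (o 0 1 0)) (.mulLeft (o 1 1 1))
    (fun i j k r => by simp [o, ql_ap, MonoidAlgebra.single_mul_single, mul_def, add_comm])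
    (fun i j k r => by simp [o, ql_ap, MonoidAlgebra.single_mul_single, mul_def, add_comm])
    fun i j k => ⟨1 - (i + j), 1 - j, fun r => by
      simp [o, ql_ap, MonoidAlgebra.single_mul_single, mul_def, add_comm, sub_eq_add_neg]⟩

lemma regR : (∀ r : R, r * (1 - o 1 0 0) = 0 → r = 0) ∧
    (∀ r s : R, r * (1 - o 0 1 0) = s * (1 - o 1 0 0) → ∃ z, r = z * (1 - o 1 0 0)) ∧
    (∀ r s u : R, r * (1 - o 0 0 1) = s * (1 - o 1 0 0) + u * (1 - o 0 1 0) →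
      ∃ z w, r = z * (1 - o 1 0 0) + w * (1 - o 0 1 0)) ∧
    ∀ r : R, aug r = 0 → ∃ z w v, r = z * (1 - o 1 0 0) + w * (1 - o 0 1 0) +
      v * (1 - o 0 0 1) := by
  have key : ∀ (g h u : Gp) (r : ℤ), g = u * h →
      MonoidAlgebra.single g⁻¹ r * MonoidAlgebra.single u (1 : ℤ) = .single h⁻¹ r := by
    rintro _ h u r rfl; simp [MonoidAlgebra.single_mul_single]
  simpa only [mul_sub, mul_one, AddMonoidHom.coe_mulRight] using
    reg3 qr (.mulRight (o 1 0 0)) (.mulRight (o 0 1 0)) (.mulRight (o 0 0 1))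
    (fun i j k r => key _ _ _ r (by simp [mul_def, ql_ap]))
    (fun i j k r => key _ _ _ r (by simp [mul_def, ql_ap]))
    fun i j k => ⟨j - i, -j, fun r => key _ _ _ r (by simp [mul_def, ql_ap])⟩

/-- ranks -/
def rk : ℕ → ℕ
  | 0 => 1
  | 1 => 3
  | 2 => 3
  | 3 => 1
  | _ + 4 => 0

/-- boundary matrices -/
noncomputable def DD : ∀ i, Matrix (Fin (rk (i + 1))) (Fin (rk i)) R
  | 0 => !![1 - o 0 0 1; 1 - o 1 0 0; 1 - o 0 1 0]
  | 1 => !![-(1 - o 1 0 0), 1 + o 1 0 1, 0; -(1 - o 0 1 0), -o 0 0 1, 1 + o 0 1 1;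
      0, 1 - o 0 1 0, -(1 - o 1 0 0)]
  | 2 => !![-(1 - o 0 1 0), 1 - o 1 0 0, 1 - o 1 1 1]
  | _ + 3 => 0

lemma ab : (1 - o 1 0 0) * (1 - o 0 1 0) = (1 - o 0 1 0) * (1 - o 1 0 0) := by
  simp [mul_sub, sub_mul, o_mul]; abel
lemma r1 : (1 + o 1 0 1) * (1 - o 1 0 0) = (1 - o 1 0 0) * (1 - o 0 0 1) := by
  simp [mul_sub, sub_mul, add_mul, o_mul]; abel
lemma r2 : -o 0 0 1 * (1 - o 1 0 0) + (1 + o 0 1 1) * (1 - o 0 1 0) =
    (1 - o 0 1 0) * (1 - o 0 0 1) := by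
  simp [mul_sub, sub_mul, add_mul, o_mul]; abel
lemma r3 : (1 - o 1 1 1) * (1 - o 0 1 0) =
    (1 - o 0 1 0) * (1 + o 1 0 1) - (1 - o 1 0 0) * -o 0 0 1 := by
  simp [mul_sub, sub_mul, mul_add, o_mul]; abel
lemma r4 : (1 - o 1 1 1) * (1 - o 1 0 0) = (1 - o 1 0 0) * (1 + o 0 1 1) := by
  simp [mul_sub, sub_mul, mul_add, o_mul]; abel

/-- augmentation of row vectors -/
noncomputable def eps (G : Type) [Group G] : (Fin 1 → MonoidAlgebra ℤ G) →ₗ[ℤ] ℤ :=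
  (MonoidAlgebra.lift ℤ ℤ G 1).toLinearMap ∘ₗ LinearMap.proj 0
lemma eps_ap {G : Type} [Group G] (v : Fin 1 → MonoidAlgebra ℤ G) : eps G v = aug (v 0) := rfl
lemma e1 {G : Type} [Group G] (g : G) (v : Fin 1 → MonoidAlgebra ℤ G) :
    eps G (MonoidAlgebra.of ℤ G g • v) = eps G v := by
  simp [eps_ap, aug_single]
lemma e2 {G : Type} [Group G] : Function.Surjective (eps G) := fun n =>
  ⟨fun _ => .single 1 n, aug_single _ _⟩

lemma v0 (v : Fin 3 → R) : (DD 0).vecMulLinear v =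
    ![v 0 * (1 - o 0 0 1) + v 1 * (1 - o 1 0 0) + v 2 * (1 - o 0 1 0)] := by
  change v ᵥ* (!![_; _; _] : Matrix (Fin 3) (Fin 1) R) = _
  ext1 i; fin_cases i; simp [vecMul, dotProduct, Fin.sum_univ_three]
lemma v1 (v : Fin 3 → R) : (DD 1).vecMulLinear v =
    ![-(v 0 * (1 - o 1 0 0) + v 1 * (1 - o 0 1 0)),
      v 0 * (1 + o 1 0 1) + v 1 * -o 0 0 1 + v 2 * (1 - o 0 1 0),
      v 1 * (1 + o 0 1 1) - v 2 * (1 - o 1 0 0)] := by
  change v ᵥ* (!![_, _, _; _, _, _; _, _, _] : Matrix (Fin 3) (Fin 3) R) = _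
  ext1 i; fin_cases i <;> simp [vecMul, dotProduct, Fin.sum_univ_three, -neg_sub] <;> noncomm_ring
lemma v2 (v : Fin 1 → R) : (DD 2).vecMulLinear v =
    ![-(v 0 * (1 - o 0 1 0)), v 0 * (1 - o 1 0 0), v 0 * (1 - o 1 1 1)] := by
  change v ᵥ* (!![_, _, _] : Matrix (Fin 1) (Fin 3) R) = _
  ext1 i; fin_cases i <;> simp [vecMul, dotProduct, -neg_sub]
lemma w0 (v : Fin 1 → R) : DD 0 *ᵥ v =
    ![(1 - o 0 0 1) * v 0, (1 - o 1 0 0) * v 0, (1 - o 0 1 0) * v 0] := by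
  change (!![_; _; _] : Matrix (Fin 3) (Fin 1) R) *ᵥ v = _
  ext1 i; fin_cases i <;> simp [mulVec, dotProduct]
lemma w1 (v : Fin 3 → R) : DD 1 *ᵥ v =
    ![-(1 - o 1 0 0) * v 0 + (1 + o 1 0 1) * v 1,
      -(1 - o 0 1 0) * v 0 + -o 0 0 1 * v 1 + (1 + o 0 1 1) * v 2,
      (1 - o 0 1 0) * v 1 - (1 - o 1 0 0) * v 2] := by
  change (!![_, _, _; _, _, _; _, _, _] : Matrix (Fin 3) (Fin 3) R) *ᵥ v = _
  ext1 i; fin_cases i <;> simp [mulVec, dotProduct, Fin.sum_univ_three, -neg_sub] <;> noncomm_ring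
lemma w2 (v : Fin 3 → R) : DD 2 *ᵥ v =
    ![-(1 - o 0 1 0) * v 0 + (1 - o 1 0 0) * v 1 + (1 - o 1 1 1) * v 2] := by
  change (!![_, _, _] : Matrix (Fin 1) (Fin 3) R) *ᵥ v = _
  ext1 i; fin_cases i; simp [mulVec, dotProduct, Fin.sum_univ_three, -neg_sub]
lemma ext3 {u v : Fin 3 → R} (a : u 0 = v 0) (b : u 1 = v 1) (c : u 2 = v 2) : u = v := by
  ext1 i; fin_cases i; exacts [a, b, c]
lemma ext1 {u v : Fin 1 → R} (a : u 0 = v 0) : u = v := by
  ext1 i; fin_cases i; exact a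

lemma e3 (x : Fin 1 → R) : x ∈ LinearMap.range (DD 0).vecMulLinear ↔ eps Gp x = 0 := by
  constructor
  · rintro ⟨v, rfl⟩
    rw [v0, eps_ap]; simp only [cons_val_zero, map_add, aug_o, add_zero]
  · intro h
    obtain ⟨z, w, v, e⟩ := regR.2.2.2 (x 0) h
    exact ⟨![v, z, w], (v0 _).trans (ext1 (by rw [e]; simp only [cons_val]; abel))⟩

lemma e4 : ∀ i, LinearMap.range (DD (i + 1)).vecMulLinear = LinearMap.ker (DD i).vecMulLinear
  | 0 => by
    ext x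
    constructor
    · rintro ⟨v, rfl⟩
      change Fin 3 → R at v
      refine (v0 _).trans (ext1 (v := 0) ?_)
      rw [v1]; simp only [cons_val, Pi.zero_apply]
      linear_combination (norm := noncomm_ring) v 0 * r1 + v 1 * r2 - v 2 * ab
    · intro h
      obtain ⟨p, q, r, a, b, c⟩ := (chain ab r1 r2 r4 regR.1 regR.2.1 regR.2.2.1).1 _ _ _
        (congrFun ((v0 x).symm.trans h) 0)
      exact ⟨![p, q, r], (v1 _).trans (ext3 a.symm b.symm c.symm)⟩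
  | 1 => by
    ext x
    constructor
    · rintro ⟨v, rfl⟩
      change Fin 1 → R at v
      refine (v1 _).trans (ext3 (v := 0) ?_ ?_ ?_) <;> rw [v2] <;> simp only [cons_val, Pi.zero_apply]
      · linear_combination (norm := noncomm_ring) -(v 0 * ab)
      · linear_combination (norm := noncomm_ring) v 0 * r3
      · linear_combination (norm := noncomm_ring) -(v 0 * r4)
    · intro h
      have h' := (v1 x).symm.trans h
      obtain ⟨p, a, b, c⟩ := (chain ab r1 r2 r4 regR.1 regR.2.1 regR.2.2.1).2 _ _ _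
        (neg_eq_zero.1 (congrFun h' 0)) (congrFun h' 2)
      exact ⟨![p], (v2 _).trans (ext3 a.symm b.symm c.symm)⟩
  | 2 => by
    ext x
    constructor
    · rintro ⟨v, rfl⟩
      simp [DD]
    · intro h
      exact ⟨0, (map_zero _).trans (ext1 (regR.1 _ (congrFun ((v2 x).symm.trans h) 1)).symm)⟩
  | n + 3 => by
    ext x
    exact ⟨fun _ => by simp [DD], fun _ => ⟨0, Subsingleton.elim (α := Fin 0 → R) _ _⟩⟩

lemma cd3 (M : Rep ℤ Gp) : Subsingleton (groupCohomology M 4) :=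
  sub_of DD (eps Gp) e1 e2 e3 e4 M 4 fun _ _ =>
    ⟨0, ev_inj (Subsingleton.elim (α := Fin 0 → M) _ _)⟩

lemma low : ∀ i, i < 3 → Subsingleton (groupCohomology (Rep.ofMulAction ℤ Gp Gp) i)
  | 0, _ => sub_of DD (eps Gp) e1 e2 e3 e4 _ 0 fun f h => ⟨0, Limits.comp_zero.trans (ev_inj
      (ext1 (regL.1 _ (congrFun ((w0 _).symm.trans ((ev_mat _ f).symm.trans
        (congrArg ev h))) 1)).symm))⟩
  | 1, _ => sub_of DD (eps Gp) e1 e2 e3 e4 _ 1 fun f h => by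
      have h' := (w1 _).symm.trans ((ev_mat _ f).symm.trans (congrArg ev h))
      obtain ⟨p, a, b, c⟩ := (cochain ab r1 r3 r4 regL.1 regL.2.1 regL.2.2.1).1 _ _ _
        (congrFun h' 0) (congrFun h' 2)
      refine ⟨lift ![p], ?_⟩
      rw [show (cx DD e4).d 1 (1 - 1) = mat (DD 0) from cx_d DD e4 0]
      exact ev_inj ((ev_mat _ _).trans ((congrArg _ (ev_lift _)).trans ((w0 _).trans
        (ext3 a.symm b.symm c.symm))))
  | 2, _ => sub_of DD (eps Gp) e1 e2 e3 e4 _ 2 fun f h => by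
      have h' := (w2 _).symm.trans ((ev_mat _ f).symm.trans (congrArg ev h))
      obtain ⟨p, q, r, a, b, c⟩ := (cochain ab r1 r3 r4 regL.1 regL.2.1 regL.2.2.1).2 _ _ _
        (congrFun h' 0)
      refine ⟨lift ![p, q, r], ?_⟩
      rw [show (cx DD e4).d 2 (2 - 1) = mat (DD 1) from cx_d DD e4 1]
      exact ev_inj ((ev_mat _ _).trans ((congrArg _ (ev_lift _)).trans ((w1 _).trans
        (ext3 a.symm b.symm c.symm))))
  | _ + 3, h => absurd h (by omega)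

lemma top : Nonempty (groupCohomology (Rep.ofMulAction ℤ Gp Gp) 3 ≃+ ℤ) := by
  refine top_iso DD (eps Gp) e1 e2 e3 e4 _ 2
    ⟨⟨fun f => eps Gp (ev f), fun f g => map_add (eps Gp) (ev f) (ev g)⟩,
      fun c f => map_smul (eps Gp) c (ev f)⟩
    (ev_inj (Subsingleton.elim (α := Fin 0 → _) _ _)) (fun n => ?_) fun f => ⟨fun h => ?_, ?_⟩
  · obtain ⟨v, e⟩ := e2 (G := Gp) n
    exact ⟨lift v, (congrArg (eps Gp) (ev_lift (A := Rep.ofMulAction ℤ Gp Gp) v)).trans e⟩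
  · obtain ⟨z, w, v, e⟩ := regL.2.2.2 _ h
    refine ⟨lift ![-w, z, v], ev_inj ((ev_mat _ _).trans ((congrArg _ (ev_lift _)).trans
      ((w2 _).trans (ext1 (Eq.trans ?_ e.symm)))))⟩
    simp only [cons_val]; noncomm_ring
  · rintro ⟨g, rfl⟩
    refine (congrArg (eps Gp) ((ev_mat _ _).trans (w2 _))).trans ?_
    rw [eps_ap]; simp only [cons_val_zero, map_add, aug_o', add_zero, neg_mul, map_neg, neg_zero]

lemma nva : ¬ ∃ A : Subgroup Gp, A.FiniteIndex ∧ ∀ a ∈ A, ∀ b ∈ A, a * b = b * a := by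
  rintro ⟨A, h, c⟩
  obtain ⟨n, n0, -, a⟩ := Subgroup.exists_pow_mem_of_index_ne_zero h.1 ⟨0, 0, 1⟩
  obtain ⟨m, m0, -, b⟩ := Subgroup.exists_pow_mem_of_index_ne_zero h.1 ⟨0, 1, 0⟩
  have p1 : ∀ n : ℕ, (⟨0, 0, 1⟩ : Gp) ^ n = ⟨0, 0, n⟩ := fun n => by
    induction n with
    | zero => rfl
    | succ n ih => rw [pow_succ, ih]; simp [mul_def]
  have p2 : ∀ n : ℕ, (⟨0, 1, 0⟩ : Gp) ^ n = ⟨0, n, 0⟩ := fun n => by
    induction n with
    | zero => rfl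
    | succ n ih => rw [pow_succ, ih]; simp [mul_def]
  have := congrArg Gp.i (c _ a _ b)
  simp [p1, p2, mul_def, sg_ne] at this
  omega

/-- the cyclic subgroup -/
def HH : Subgroup Gp where
  carrier := {g | g.i = 0 ∧ g.j = 0}
  one_mem' := ⟨rfl, rfl⟩
  mul_mem' := fun a b => by simp [mul_def, a.1, a.2, b.1, b.2]
  inv_mem' := fun a => by simp [inv_def, a.1, a.2]
lemma mem_HH {g : Gp} : g ∈ HH ↔ g.i = 0 ∧ g.j = 0 := Iff.rfl

/-- coordinate on it -/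
def qh : ℤ ≃ HH := ⟨fun k => ⟨⟨0, 0, k⟩, rfl, rfl⟩, fun g => g.1.k, fun _ => rfl,
  fun g => Subtype.ext (Gp.ext g.2.1.symm g.2.2.symm rfl)⟩

lemma regH : (∀ r : MonoidAlgebra ℤ HH, r * (1 - .single (qh 1) 1) = 0 → r = 0) ∧
    ∀ r : MonoidAlgebra ℤ HH, aug r = 0 → ∃ z, r = z * (1 - .single (qh 1) 1) := by
  simpa only [mul_sub, mul_one, AddMonoidHom.coe_mulRight] using
    reg1 qh (.mulRight (.single (qh 1) 1)) fun i r => by
      have : qh i * qh 1 = qh (i + 1) := Subtype.ext (by simp [qh, mul_def])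
      simp [MonoidAlgebra.single_mul_single, this]

lemma self_norm (g : Gp) (h : ∀ u : Gp, u ∈ HH ↔ g * u * g⁻¹ ∈ HH) : g ∈ HH := by
  obtain ⟨a, b⟩ := (h ⟨0, 0, 1⟩).1 ⟨rfl, rfl⟩
  simp only [mul_def, inv_def, sg_add, sg_one] at a b
  have s := sg_sq g.k
  have : g.j = 0 := by
    have : 2 * g.j = 0 := by linear_combination b - g.j * s
    omega
  have : 2 * g.i = 0 := by rw [this] at a; linear_combination a - g.i * s
  exact ⟨by omega, by omega⟩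

lemma comm (n : ℤ) : (HH.map (MulAut.conj (⟨n, 0, 0⟩ : Gp)).toMonoidHom).relIndex HH ≠ 0 := by
  let φ : HH →* ℤˣ := MonoidHom.mk' (fun g => g.1.k.negOnePow) fun a b => Int.negOnePow_add _ _
  have : φ.ker ≤ (HH.map (MulAut.conj (⟨n, 0, 0⟩ : Gp)).toMonoidHom).subgroupOf HH := fun g h => by
    have s : sg g.1.k = 1 := congrArg Units.val h
    refine ⟨g.1, g.2, ?_⟩
    change _ * g.1 * _⁻¹ = g.1
    ext <;> simp [mul_def, inv_def, s]
  exact (Subgroup.finiteIndex_of_le this).1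

end Pool.Agent.H3.PD3
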