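import Mathlib
import Pool.Agent.H3.PD3C

set_option autoImplicit false

namespace Pool.Agent.H3.PD3
open CategoryTheory Matrix

/-- Poincare duality group of dimension three, with a finite free resolution -/
def IsPD3 (G : Type) [Group G] : Prop :=
  (∃ (m : ℕ → ℕ) (d : ∀ i : ℕ, (Fin (m (i + 1)) → MonoidAlgebra ℤ G) →ₗ[MonoidAlgebra ℤ G]
      (Fin (m i) → MonoidAlgebra ℤ G)) (ε : (Fin (m 0) → MonoidAlgebra ℤ G) →+ ℤ),
      (∀ (g : G) x, ε (MonoidAlgebra.of ℤ G g • x) = ε x) ∧ Function.Surjective ε ∧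
      (∀ x, x ∈ LinearMap.range (d 0) ↔ ε x = 0) ∧
      (∀ i, LinearMap.range (d (i + 1)) = LinearMap.ker (d i)) ∧ ∃ N, ∀ i, N < i → m i = 0) ∧
  (∀ i : ℕ, i ≠ 3 → Subsingleton (groupCohomology (Rep.ofMulAction ℤ G G) i)) ∧
  Nonempty (groupCohomology (Rep.ofMulAction ℤ G G) 3 ≃+ ℤ)

variable {G : Type} [Group G]

/-- ranks -/
def rn (n : ℕ) : ℕ → ℕ
  | 0 => 1
  | 1 => n
  | 2 => n
  | 3 => 1
  | _ + 4 => 0

/-- boundary matrices -/
noncomputable def Dn {n : ℕ} (A : Matrix (Fin n) (Fin 1) (MonoidAlgebra ℤ G))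
    (B : Matrix (Fin n) (Fin n) (MonoidAlgebra ℤ G)) (C : Matrix (Fin 1) (Fin n) (MonoidAlgebra ℤ G)) :
    ∀ i, Matrix (Fin (rn n (i + 1))) (Fin (rn n i)) (MonoidAlgebra ℤ G)
  | 0 => A
  | 1 => B
  | 2 => C
  | _ + 3 => 0

theorem pd_of {n : ℕ} (A : Matrix (Fin n) (Fin 1) (MonoidAlgebra ℤ G))
    (B : Matrix (Fin n) (Fin n) (MonoidAlgebra ℤ G)) (C : Matrix (Fin 1) (Fin n) (MonoidAlgebra ℤ G))
    (a0 : ∀ x, (∃ v, v ᵥ* A = x) ↔ aug (x 0) = 0) (a1 : ∀ x, (∃ v, v ᵥ* B = x) ↔ x ᵥ* A = 0)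
    (a2 : ∀ x, (∃ v, v ᵥ* C = x) ↔ x ᵥ* B = 0) (a3 : ∀ x, x ᵥ* C = 0 → x = 0)
    (c0 : ∀ s, A *ᵥ s = 0 → s = 0) (c1 : ∀ s, B *ᵥ s = 0 → ∃ u, A *ᵥ u = s)
    (c2 : ∀ s, C *ᵥ s = 0 → ∃ u, B *ᵥ u = s) (φ : MonoidAlgebra ℤ G →+ ℤ)
    (c3 : Function.Surjective φ) (c4 : ∀ s, φ (s 0) = 0 ↔ ∃ u, C *ᵥ u = s) : IsPD3 G := by
  have e3 : ∀ x, x ∈ LinearMap.range (Dn A B C 0).vecMulLinear ↔ eps G x = 0 := a0
  have e4 : ∀ i, LinearMap.range (Dn A B C (i + 1)).vecMulLinear =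
      LinearMap.ker (Dn A B C i).vecMulLinear := fun i => match i with
    | 0 => Submodule.ext a1
    | 1 => Submodule.ext a2
    | 2 => Submodule.ext fun x => ⟨by rintro ⟨v, rfl⟩; simp [Dn], fun h =>
      ⟨0, (map_zero _).trans (a3 x h).symm⟩⟩
    | n + 3 => Submodule.ext fun x =>
      ⟨fun _ => by simp [Dn], fun _ => ⟨0, Subsingleton.elim (α := Fin 0 → _) _ _⟩⟩
  refine ⟨⟨rn n, fun i => (Dn A B C i).vecMulLinear, (eps G).toAddMonoidHom, e1, e2, e3, e4, 3,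
    fun i hi => ?_⟩, fun i hi => ?_, ?_⟩
  · obtain ⟨j, rfl⟩ : ∃ j, i = j + 4 := ⟨i - 4, by omega⟩
    rfl
  · refine sub_of _ (eps G) e1 e2 e3 e4 _ i fun f h => ?_
    have h' := (ev_mat _ f).symm.trans (congrArg ev h)
    match i, hi with
    | 0, _ => exact ⟨0, Limits.comp_zero.trans (ev_inj (c0 _ h').symm)⟩
    | 1, _ =>
      obtain ⟨u, e⟩ := c1 _ h'
      refine ⟨lift u, ?_⟩
      rw [show (cx _ e4).d 1 (1 - 1) = mat (Dn A B C 0) from cx_d _ e4 0]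
      exact ev_inj ((ev_mat _ _).trans ((congrArg _ (ev_lift _)).trans e))
    | 2, _ =>
      obtain ⟨u, e⟩ := c2 _ h'
      refine ⟨lift u, ?_⟩
      rw [show (cx _ e4).d 2 (2 - 1) = mat (Dn A B C 1) from cx_d _ e4 1]
      exact ev_inj ((ev_mat _ _).trans ((congrArg _ (ev_lift _)).trans e))
    | j + 4, _ => exact ⟨0, ev_inj (Subsingleton.elim (α := Fin 0 → _) _ _)⟩
  · refine top_iso _ (eps G) e1 e2 e3 e4 _ 2
      ⟨⟨fun f => φ (ev f (0 : Fin 1)), fun f g => map_add φ _ _⟩, fun c f => map_zsmul φ c _⟩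
      (ev_inj (Subsingleton.elim (α := Fin 0 → _) _ _)) (fun n => ?_) fun f => ?_
    · obtain ⟨v, e⟩ := c3 n
      exact ⟨lift fun _ => v, (congrArg φ (congrFun
        (ev_lift (A := Rep.ofMulAction ℤ G G) fun _ => v) (0 : Fin 1))).trans e⟩
    · refine (c4 (ev f)).trans ⟨fun ⟨u, e⟩ => ⟨lift u, ev_inj ((ev_mat _ _).trans
        ((congrArg _ (ev_lift _)).trans e))⟩, fun ⟨g, e⟩ => ⟨ev g, ?_⟩⟩
      exact (ev_mat _ g).symm.trans (congrArg ev e)

lemma x3 {R : Type} {u v : Fin 3 → R} (a : u 0 = v 0) (b : u 1 = v 1) (c : u 2 = v 2) : u = v := by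
  ext1 i; fin_cases i; exacts [a, b, c]
lemma x1 {R : Type} {u v : Fin 1 → R} (a : u 0 = v 0) : u = v := by
  ext1 i; fin_cases i; exact a

theorem pd_of3 {a b c e f g h : MonoidAlgebra ℤ G} (ab : a * b = b * a) (r1 : e * a = a * c)
    (r2 : f * a + g * b = b * c) (r3 : h * b = b * e - a * f) (r4 : h * a = a * g)
    (i1 : ∀ r, r * a = 0 → r = 0) (i2 : ∀ r s, r * b = s * a → ∃ z, r = z * a)
    (i3 : ∀ r s u, r * c = s * a + u * b → ∃ z w, r = z * a + w * b)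
    (i4 : ∀ r, aug r = 0 ↔ ∃ z w v, r = z * a + w * b + v * c)
    (j1 : ∀ r, a * r = 0 → r = 0) (j2 : ∀ r s, b * r = a * s → ∃ z, r = a * z)
    (j3 : ∀ r s u, h * r = a * s + b * u → ∃ z w, r = a * z + b * w)
    (φ : MonoidAlgebra ℤ G →+ ℤ) (c3 : Function.Surjective φ)
    (j4 : ∀ r, φ r = 0 ↔ ∃ z w v, r = a * z + b * w + h * v) : IsPD3 G := by
  have v0 : ∀ v, v ᵥ* !![c; a; b] = ![v 0 * c + v 1 * a + v 2 * b] := fun v =>
    x1 (by simp [vecMul, dotProduct, Fin.sum_univ_three])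
  have v1 : ∀ v, v ᵥ* !![-a, e, 0; -b, f, g; 0, b, -a] =
      ![-(v 0 * a + v 1 * b), v 0 * e + v 1 * f + v 2 * b, v 1 * g - v 2 * a] := fun v => by
    refine x3 ?_ ?_ ?_ <;> simp [vecMul, dotProduct, Fin.sum_univ_three, sub_eq_add_neg, add_comm]
  have v2 : ∀ v, v ᵥ* !![-b, a, h] = ![-(v 0 * b), v 0 * a, v 0 * h] := fun v => by
    refine x3 ?_ ?_ ?_ <;> simp [vecMul, dotProduct]
  have w0 : ∀ v, !![c; a; b] *ᵥ v = ![c * v 0, a * v 0, b * v 0] := fun v => by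
    refine x3 ?_ ?_ ?_ <;> simp [mulVec, dotProduct]
  have w1 : ∀ v, !![-a, e, 0; -b, f, g; 0, b, -a] *ᵥ v =
      ![-a * v 0 + e * v 1, -b * v 0 + f * v 1 + g * v 2, b * v 1 - a * v 2] := fun v => by
    refine x3 ?_ ?_ ?_ <;> simp [mulVec, dotProduct, Fin.sum_univ_three] <;> noncomm_ring
  have w2 : ∀ v, !![-b, a, h] *ᵥ v = ![-b * v 0 + a * v 1 + h * v 2] := fun v =>
    x1 (by simp [mulVec, dotProduct, Fin.sum_univ_three])
  have ch := chain ab r1 r2 r4 i1 i2 i3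
  have co := cochain ab r1 r3 r4 j1 j2 j3
  refine pd_of !![c; a; b] !![-a, e, 0; -b, f, g; 0, b, -a] !![-b, a, h] (fun x => ?_) (fun x => ?_)
    (fun x => ?_) (fun x h => x1 (i1 _ (congrFun ((v2 x).symm.trans h) 1)))
    (fun x h => x1 (j1 _ (congrFun ((w0 x).symm.trans h) 1))) (fun x k => ?_) (fun x k => ?_) φ c3
    fun x => ?_
  · rw [i4]
    exact ⟨fun ⟨v, k⟩ => ⟨v 1, v 2, v 0, by rw [← k, v0]; simp only [cons_val]; abel⟩,
      fun ⟨z, w, v, k⟩ => ⟨![v, z, w], (v0 _).trans (x1 (by rw [k]; simp only [cons_val]; abel))⟩⟩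
  · refine ⟨?_, fun k => ?_⟩
    · rintro ⟨v, rfl⟩
      refine (v0 _).trans (x1 ?_)
      rw [v1]; simp only [cons_val, Pi.zero_apply]
      linear_combination (norm := noncomm_ring) v 0 * r1 + v 1 * r2 - v 2 * ab
    · obtain ⟨p, q, r, a, b, c⟩ := ch.1 _ _ _ (congrFun ((v0 x).symm.trans k) 0)
      exact ⟨![p, q, r], (v1 _).trans (x3 a.symm b.symm c.symm)⟩
  · refine ⟨?_, fun k => ?_⟩
    · rintro ⟨v, rfl⟩
      refine (v1 _).trans (x3 ?_ ?_ ?_) <;> rw [v2] <;> simp only [cons_val, Pi.zero_apply]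
      · linear_combination (norm := noncomm_ring) -(v 0 * ab)
      · linear_combination (norm := noncomm_ring) v 0 * r3
      · linear_combination (norm := noncomm_ring) -(v 0 * r4)
    · have h' := (v1 x).symm.trans k
      obtain ⟨p, a, b, c⟩ := ch.2 _ _ _ (neg_eq_zero.1 (congrFun h' 0)) (congrFun h' 2)
      exact ⟨![p], (v2 _).trans (x3 a.symm b.symm c.symm)⟩
  · have h' := (w1 _).symm.trans k
    obtain ⟨p, a, b, c⟩ := co.1 _ _ _ (congrFun h' 0) (congrFun h' 2)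
    exact ⟨![p], (w0 _).trans (x3 a.symm b.symm c.symm)⟩
  · obtain ⟨p, q, r, a, b, c⟩ := co.2 _ _ _ (congrFun ((w2 _).symm.trans k) 0)
    exact ⟨![p, q, r], (w1 _).trans (x3 a.symm b.symm c.symm)⟩
  · rw [j4]
    exact ⟨fun ⟨z, w, v, k⟩ => ⟨![-w, z, v], (w2 _).trans (x1 (by
        rw [k]; simp only [cons_val]; noncomm_ring))⟩,
      fun ⟨v, k⟩ => ⟨v 1, -v 0, v 2, by rw [← k, w2]; simp only [cons_val]; noncomm_ring⟩⟩

/-- twisting the group ring by a sign character -/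
noncomputable def tw (w : G →* ℤˣ) : MonoidAlgebra ℤ G →+* MonoidAlgebra ℤ G :=
  (MonoidAlgebra.lift ℤ (MonoidAlgebra ℤ G) G
    { toFun := fun g => .single g (w g)
      map_one' := by simp [MonoidAlgebra.one_def]
      map_mul' := fun g h => by simp [MonoidAlgebra.single_mul_single] }).toRingHom
lemma tw_single (w : G →* ℤˣ) (g : G) (r : ℤ) : tw w (.single g r) = .single g (r * w g) := by
  simp [tw]
lemma tw_tw (w : G →* ℤˣ) (r : MonoidAlgebra ℤ G) : tw w (tw w r) = r := by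
  induction r using MonoidAlgebra.induction_linear with
  | zero => simp
  | add a b ha hb => simp [ha, hb]
  | single g n => rw [tw_single, tw_single, mul_assoc, ← Units.val_mul, Int.units_mul_self]; simp

/-- Klein bottle group times the integers -/
@[ext] structure Kz where
  /-- first -/
  i : ℤ
  /-- second -/
  j : ℤ
  /-- third -/
  k : ℤ

namespace Kz
instance : Mul Kz := ⟨fun g h => ⟨g.i + sg g.k * h.i, g.j + h.j, g.k + h.k⟩⟩
instance : One Kz := ⟨⟨0, 0, 0⟩⟩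
instance : Inv Kz := ⟨fun g => ⟨-(sg g.k * g.i), -g.j, -g.k⟩⟩
lemma mul_def (g h : Kz) : g * h = ⟨g.i + sg g.k * h.i, g.j + h.j, g.k + h.k⟩ := rfl
lemma one_def : (1 : Kz) = ⟨0, 0, 0⟩ := rfl
lemma inv_def (g : Kz) : g⁻¹ = ⟨-(sg g.k * g.i), -g.j, -g.k⟩ := rfl
instance : Group Kz := Group.ofLeftAxioms
  (fun a b c => by ext <;> simp only [mul_def, sg_add] <;> ring)
  (fun a => by ext <;> simp [mul_def, one_def])
  (fun a => by ext <;> simp only [mul_def, inv_def, one_def, sg_neg] <;> ring)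

/-- group element in the ring -/
noncomputable def o (i j k : ℤ) : MonoidAlgebra ℤ Kz := .single ⟨i, j, k⟩ 1
lemma o_mul (i j k i' j' k' : ℤ) : o i j k * o i' j' k' = o (i + sg k * i') (j + j') (k + k') := by
  simp [o, MonoidAlgebra.single_mul_single, mul_def]
/-- left coordinates -/
def ql : ℤ × ℤ × ℤ ≃ Kz := ⟨fun z => ⟨z.1, z.2.1, z.2.2⟩, fun g => (g.i, g.j, g.k), fun _ => rfl,
  fun _ => rfl⟩
lemma ql_ap (i j k : ℤ) : ql (i, j, k) = ⟨i, j, k⟩ := rfl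
/-- sign character -/
def w : Kz →* ℤˣ := MonoidHom.mk' (fun g => g.k.negOnePow) fun _ _ => Int.negOnePow_add _ _

theorem pd : IsPD3 Kz := by
  obtain ⟨j1, j2, j3, j4⟩ := reg3 ql (.mulLeft (o 1 0 0)) (.mulLeft (o 0 1 0)) (.mulLeft (o 1 0 1))
    (fun i j k r => by simp [o, ql_ap, MonoidAlgebra.single_mul_single, mul_def, add_comm])
    (fun i j k r => by simp [o, ql_ap, MonoidAlgebra.single_mul_single, mul_def, add_comm])
    fun i j k => ⟨1 - i, j, fun r => by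
      simp [o, ql_ap, MonoidAlgebra.single_mul_single, mul_def, add_comm, sub_eq_add_neg]⟩
  have key : ∀ (g h u : Kz) (r : ℤ), g = u * h →
      MonoidAlgebra.single g⁻¹ r * MonoidAlgebra.single u (1 : ℤ) = .single h⁻¹ r := by
    rintro _ h u r rfl; simp [MonoidAlgebra.single_mul_single]
  obtain ⟨i1, i2, i3, i4⟩ := reg3 (((Equiv.neg _).trans ql).trans (Equiv.inv _))
    (.mulRight (o 1 0 0)) (.mulRight (o 0 1 0)) (.mulRight (o 0 0 1))
    (fun i j k r => key _ _ _ r (by simp [mul_def, ql_ap]))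
    (fun i j k r => key _ _ _ r (by simp [mul_def, ql_ap]))
    fun i j k => ⟨-i, j, fun r => key _ _ _ r (by simp [mul_def, ql_ap])⟩
  have t1 : tw w (o 1 0 0) = o 1 0 0 := by simp [o, tw_single, w]
  have t2 : tw w (o 0 1 0) = o 0 1 0 := by simp [o, tw_single, w]
  have t3 : tw w (o 1 0 1) = -o 1 0 1 := by simp [o, tw_single, w]
  have ao : ∀ i j k, aug (o i j k) = 1 := fun _ _ _ => aug_single _ _
  simp only [AddMonoidHom.coe_mulLeft, AddMonoidHom.coe_mulRight] at i1 i2 i3 i4 j1 j2 j3 j4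
  refine pd_of3 (a := 1 - o 1 0 0) (b := 1 - o 0 1 0) (c := 1 - o 0 0 1) (e := 1 + o 1 0 1) (f := 0)
    (g := 1 - o 0 0 1) (h := 1 + o 1 0 1) ?_ ?_ ?_ ?_ ?_ (by simpa only [mul_sub, mul_one] using i1)
    (by simpa only [mul_sub, mul_one] using i2) (by simpa only [mul_sub, mul_one] using i3)
    (fun r => ⟨by simpa only [mul_sub, mul_one] using i4 r, ?_⟩)
    (by simpa only [sub_mul, one_mul] using j1) (by simpa only [sub_mul, one_mul] using j2)
    (fun r s u e => ?_) (aug.comp (tw w)).toAddMonoidHom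
    (fun n => ⟨.single 1 n, by simp [tw_single, aug_single]⟩) fun r => ⟨fun e => ?_, ?_⟩
  iterate 5 simp [mul_sub, sub_mul, mul_add, add_mul, o_mul]; abel
  · rintro ⟨z, w, v, rfl⟩; simp [ao]
  · obtain ⟨z, v, k⟩ := j3 (tw w r) (tw w s) (tw w u) (by
      simpa [t1, t2, t3, sub_mul, add_mul, ← sub_eq_add_neg] using congrArg (tw w) e)
    exact ⟨tw w z, tw w v, by simpa [tw_tw, t1, t2, sub_mul] using congrArg (tw w) k⟩
  · obtain ⟨z, v, u, k⟩ := j4 (tw w r) e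
    exact ⟨tw w z, tw w v, tw w u, by
      simpa [tw_tw, t1, t2, t3, sub_mul, add_mul] using congrArg (tw w) k⟩
  · rintro ⟨z, w, v, rfl⟩; simp [ao, t1, t2, t3]

/-- the plane subgroup -/
def U : Subgroup Kz where
  carrier := {g | g.i = 0}
  one_mem' := rfl
  mul_mem' := fun a b => by simp_all [mul_def]
  inv_mem' := fun a => by simp_all [inv_def]
lemma mem_U {g : Kz} : g ∈ U ↔ g.i = 0 := Iff.rfl

/-- it is free abelian of rank two -/
def eU : U ≃* Multiplicative (ℤ × ℤ) where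
  toFun g := .ofAdd (g.1.j, g.1.k)
  invFun z := ⟨⟨0, z.toAdd.1, z.toAdd.2⟩, rfl⟩
  left_inv g := Subtype.ext (Kz.ext g.2.symm rfl rfl)
  right_inv _ := rfl
  map_mul' _ _ := rfl

lemma norm_U : Subgroup.normalizer (U : Set Kz) = U := by
  refine le_antisymm (fun g h => ?_) Subgroup.le_normalizer
  have a := (Subgroup.mem_normalizer_iff.1 h ⟨0, 0, 1⟩).1 rfl
  simp only [SetLike.mem_coe, mem_U, mul_def, inv_def, sg_add, sg_one] at a
  have : 2 * g.i = 0 := by linear_combination a - g.i * sg_sq g.k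
  exact (show g.i = 0 by omega)

lemma xpow (n m : ℤ) : (⟨n, 0, 0⟩ : Kz) ^ m = ⟨m * n, 0, 0⟩ :=
  (map_zpow (MonoidHom.mk' (fun n : Multiplicative ℤ => (⟨n.toAdd, 0, 0⟩ : Kz))
    fun a b => by simp [mul_def]) (.ofAdd n) m).symm

end Kz

/-- `K` is a nontrivial amalgam, or an HNN extension, with edge group `H` -/
def SplitsOver (K H : Subgroup G) : Prop :=
  (∃ (Γ : Bool → Type) (_ : ∀ i, Group (Γ i)) (φ : ∀ i, H →* Γ i),
    (∀ i, Function.Injective (φ i)) ∧ (∀ i, ¬ Function.Surjective (φ i)) ∧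
    ∃ e : Monoid.PushoutI φ ≃* K, ∀ h : H, (e (Monoid.PushoutI.base φ h) : G) = h) ∨
  ∃ (A : Type) (_ : Group A) (C D : Subgroup A) (ψ : C ≃* D) (e : HNNExtension A C D ψ ≃* K),
    (∀ g : G, g ∈ H ↔ ∃ c ∈ C, (e (HNNExtension.of c) : G) = g) ∨
    ∀ g : G, g ∈ H ↔ ∃ c ∈ D, (e (HNNExtension.of c) : G) = g

namespace Kz
lemma no_split (K : Subgroup Kz) (hK : U ≤ K) : ¬ SplitsOver K U := by
  rintro (⟨Γ, _, φ, h1, h2, e, he⟩ | ⟨A, _, C, D, ψ, e, he⟩)
  · have key : ∀ i, ∃ (b : Γ i) (n : ℤ), n ≠ 0 ∧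
        (e (Monoid.PushoutI.of (φ := φ) i b) : Kz) = ⟨n, 0, 0⟩ := fun i => by
      obtain ⟨a, ha⟩ := not_forall.1 (h2 i)
      obtain ⟨g, hg⟩ : ∃ g, g = (e (Monoid.PushoutI.of (φ := φ) i a) : Kz) := ⟨_, rfl⟩
      have q : (e (Monoid.PushoutI.of (φ := φ) i (a * (φ i ⟨⟨0, g.j, g.k⟩, rfl⟩)⁻¹)) : Kz) =
          ⟨g.i, 0, 0⟩ := by
        rw [map_mul, map_inv, Monoid.PushoutI.of_apply_eq_base, map_mul, map_inv,
          Subgroup.coe_mul, Subgroup.coe_inv, he, ← hg]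
        simp [mul_def, inv_def]
      refine ⟨_, g.i, fun z => ha ⟨⟨⟨0, g.j, g.k⟩, rfl⟩, ?_⟩, q⟩
      rw [z, ← one_def, OneMemClass.coe_eq_one, map_eq_one_iff _ e.injective,
        map_eq_one_iff _ (Monoid.PushoutI.of_injective h1 i), mul_inv_eq_one] at q
      exact q.symm
    obtain ⟨a, n, n0, ha⟩ := key true
    obtain ⟨b, m, m0, hb⟩ := key false
    have q : Monoid.PushoutI.of (φ := φ) true (a ^ m) = Monoid.PushoutI.of (φ := φ) false (b ^ n) :=
      e.injective (Subtype.ext (by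
        simp only [map_zpow, SubgroupClass.coe_zpow, ha, hb, xpow, mul_comm]))
    obtain ⟨h, k⟩ := (Monoid.PushoutI.inf_of_range_eq_base_range h1 (by simp : true ≠ false)).le
      ⟨⟨_, rfl⟩, ⟨_, q.symm⟩⟩
    have := h.2
    rw [← he, k] at this
    simp only [map_zpow, SubgroupClass.coe_zpow, ha, xpow, mem_U] at this
    exact mul_ne_zero m0 n0 this
  · let χ : K →* Multiplicative ℤ :=
      (HNNExtension.lift 1 (Multiplicative.ofAdd 1) (by simp)).comp e.symm.toMonoidHom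
    have c1 : ∀ g : K, g.1 ∈ U → χ g = 1 := fun g h => by
      obtain ⟨c, -, k⟩ : ∃ c ∈ (⊤ : Subgroup A), (e (HNNExtension.of c) : Kz) = g := by
        rcases he with he | he <;> obtain ⟨c, -, k⟩ := (he g).1 h <;> exact ⟨c, trivial, k⟩
      rw [← Subtype.ext k]; simp [χ]
    have c2 : ∀ g : K, χ g = 1 := fun g => by
      let u : K := ⟨⟨0, g.1.j, g.1.k⟩, hK rfl⟩
      let t : K := ⟨⟨0, 0, 1⟩, hK rfl⟩
      have q : (g * u⁻¹) * t * (g * u⁻¹) = t := Subtype.ext (by simp [u, t, mul_def, inv_def])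
      have := congrArg χ q
      simp only [map_mul, map_inv, c1 u rfl, c1 t rfl, inv_one, mul_one] at this
      have := congrArg Multiplicative.toAdd this
      exact Multiplicative.toAdd.injective (by simp at this ⊢; omega)
    simpa [χ] using c2 (e HNNExtension.t)

/-- the central plane -/
def N : Subgroup Kz where
  carrier := {g | g.i = 0 ∧ sg g.k = 1}
  one_mem' := ⟨rfl, rfl⟩
  mul_mem' := fun a b => by simp_all [mul_def, sg_add]
  inv_mem' := fun a => by simp_all [inv_def]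

lemma N_normal : N.Normal := ⟨fun n h g => by
  have : g * n * g⁻¹ = n := by
    ext <;> simp only [mul_def, inv_def, sg_add, h.1, h.2]
    · linear_combination (-g.i) * sg_sq g.k
    · ring
    · ring
  rwa [this]⟩

lemma N_not_cyclic : ¬ IsCyclic N := by
  rintro ⟨⟨g, h⟩, k⟩
  have p : ∀ m : ℤ, g ^ m = ⟨0, m * g.j, m * g.k⟩ := fun m => by
    have := map_zpow (U.subtype.comp eU.symm.toMonoidHom) (.ofAdd (g.j, g.k)) m
    have e : g = ⟨0, g.j, g.k⟩ := Kz.ext h.1 rfl rfl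
    exact (congrArg (· ^ m) e).trans this.symm
  obtain ⟨a, ha⟩ := k ⟨⟨0, 1, 0⟩, rfl, rfl⟩
  obtain ⟨b, hb⟩ := k ⟨⟨0, 0, 2⟩, rfl, rfl⟩
  have ha := congrArg Subtype.val ha
  have hb := congrArg Subtype.val hb
  simp only [SubgroupClass.coe_zpow, p, Kz.mk.injEq, true_and] at ha hb
  have : (a * g.j) * (b * g.k) = (a * g.k) * (b * g.j) := by ring
  rw [ha.1, ha.2, hb.1, hb.2] at this
  omega

lemma U_index : U.index = 0 := by
  by_contra h
  obtain ⟨n, n0, -, a⟩ := Subgroup.exists_pow_mem_of_index_ne_zero h ⟨1, 0, 0⟩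
  rw [← zpow_natCast, xpow, mem_U] at a
  simp at a; omega

lemma U_fg : U.FG := by
  have : Group.FG U := Group.fg_of_surjective (f := eU.symm.toMonoidHom) eU.symm.surjective
  exact (Group.fg_iff_subgroup_fg U).1 this
end Kz

lemma coprod_noncomm {A B : Type} [Group A] [Group B] {a : A} {b : B} (ha : a ≠ 1) (hb : b ≠ 1) :
    (Monoid.Coprod.inl a * Monoid.Coprod.inr b : Monoid.Coprod A B) ≠
      Monoid.Coprod.inr b * Monoid.Coprod.inl a := by
  classical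
  let f : A →* Equiv.Perm (A × B) := MonoidHom.mk' (fun a => ⟨fun z => (if z.2 = 1 then a * z.1
    else z.1, z.2), fun z => (if z.2 = 1 then a⁻¹ * z.1 else z.1, z.2),
    fun z => by by_cases h : z.2 = 1 <;> simp [h, Prod.ext_iff],
    fun z => by by_cases h : z.2 = 1 <;> simp [h, Prod.ext_iff]⟩) fun a c => Equiv.ext fun z => by
      by_cases h : z.2 = 1 <;> simp [h, mul_assoc]
  let g : B →* Equiv.Perm (A × B) := MonoidHom.mk' (fun a => ⟨fun z => (z.1, if z.1 = 1 then a * z.2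
    else z.2), fun z => (z.1, if z.1 = 1 then a⁻¹ * z.2 else z.2),
    fun z => by by_cases h : z.1 = 1 <;> simp [h, Prod.ext_iff],
    fun z => by by_cases h : z.1 = 1 <;> simp [h, Prod.ext_iff]⟩) fun a c => Equiv.ext fun z => by
      by_cases h : z.1 = 1 <;> simp [h, mul_assoc]
  intro e
  have := congrArg (fun z => (Monoid.Coprod.lift f g z (1, 1)).1) e
  simp [f, g, hb, ha.symm] at this

end Pool.Agent.H3.PD3
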