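import Mathlib
import Pool.Agent.H3.PD3D

set_option autoImplicit false

namespace Pool.Agent.H3.PD3
open CategoryTheory Matrix

variable {G : Type} [Group G]

lemma x4 {R : Type} {u v : Fin 4 → R} (a : u 0 = v 0) (b : u 1 = v 1) (c : u 2 = v 2)
    (d : u 3 = v 3) : u = v := by
  ext1 i; fin_cases i; exacts [a, b, c, d]

theorem pd_of4 {α β γ A B C ζ : MonoidAlgebra ℤ G} (cz : ∀ r, ζ * r = r * ζ)
    (r0 : A * α + B * β + C * γ = 0) (i1 : ∀ r, r * B = 0 → r = 0)
    (i2 : ∀ p q s, p * α + q * β + s * γ = 0 → ∃ r, p = r * A ∧ q = r * B ∧ s = r * C)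
    (i3 : ∀ r p q s, r * ζ = p * α + q * β + s * γ → ∃ p q s, r = p * α + q * β + s * γ)
    (i4 : ∀ r, aug r = 0 ↔ ∃ p q s v, r = p * α + q * β + s * γ + v * ζ)
    (j1 : ∀ r, α * r = 0 → r = 0)
    (j2 : ∀ p q s, A * p + B * q + C * s = 0 → ∃ r, p = α * r ∧ q = β * r ∧ s = γ * r)
    (j3 : ∀ r p q s, ζ * r = A * p + B * q + C * s → ∃ p q s, r = A * p + B * q + C * s)
    (φ : MonoidAlgebra ℤ G →+ ℤ) (c3 : Function.Surjective φ)
    (j4 : ∀ r, φ r = 0 ↔ ∃ p q s v, r = A * p + B * q + C * s + ζ * v) : IsPD3 G := by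
  have v0 : ∀ v, v ᵥ* !![ζ; α; β; γ] = ![v 0 * ζ + v 1 * α + v 2 * β + v 3 * γ] := fun v =>
    x1 (by simp [vecMul, dotProduct, Fin.sum_univ_four])
  have v1 : ∀ v, v ᵥ* !![-α, ζ, 0, 0; -β, 0, ζ, 0; -γ, 0, 0, ζ; 0, A, B, C] =
      ![-(v 0 * α) - v 1 * β - v 2 * γ, v 0 * ζ + v 3 * A, v 1 * ζ + v 3 * B, v 2 * ζ + v 3 * C] :=
    fun v => by
    refine x4 ?_ ?_ ?_ ?_ <;> simp [vecMul, dotProduct, Fin.sum_univ_four, sub_eq_add_neg]
  have v2 : ∀ v, v ᵥ* !![-A, -B, -C, ζ] = ![-(v 0 * A), -(v 0 * B), -(v 0 * C), v 0 * ζ] :=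
    fun v => by refine x4 ?_ ?_ ?_ ?_ <;> simp [vecMul, dotProduct]
  have w0 : ∀ v, !![ζ; α; β; γ] *ᵥ v = ![ζ * v 0, α * v 0, β * v 0, γ * v 0] := fun v => by
    refine x4 ?_ ?_ ?_ ?_ <;> simp [mulVec, dotProduct]
  have w1 : ∀ v, !![-α, ζ, 0, 0; -β, 0, ζ, 0; -γ, 0, 0, ζ; 0, A, B, C] *ᵥ v =
      ![-(α * v 0) + ζ * v 1, -(β * v 0) + ζ * v 2, -(γ * v 0) + ζ * v 3,
        A * v 1 + B * v 2 + C * v 3] := fun v => by
    refine x4 ?_ ?_ ?_ ?_ <;> simp [mulVec, dotProduct, Fin.sum_univ_four]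
  have w2 : ∀ v, !![-A, -B, -C, ζ] *ᵥ v = ![-(A * v 0) - B * v 1 - C * v 2 + ζ * v 3] := fun v =>
    x1 (by simp [mulVec, dotProduct, Fin.sum_univ_four, sub_eq_add_neg])
  refine pd_of !![ζ; α; β; γ] !![-α, ζ, 0, 0; -β, 0, ζ, 0; -γ, 0, 0, ζ; 0, A, B, C]
    !![-A, -B, -C, ζ] (fun x => ?_) (fun x => ?_) (fun x => ?_)
    (fun x h => x1 (i1 _ (neg_eq_zero.1 (congrFun ((v2 x).symm.trans h) 1))))
    (fun x h => x1 (j1 _ (congrFun ((w0 x).symm.trans h) 1))) (fun x k => ?_) (fun x k => ?_) φ c3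
    fun x => ?_
  · rw [i4]
    exact ⟨fun ⟨v, k⟩ => ⟨v 1, v 2, v 3, v 0, by rw [← k, v0]; simp only [cons_val]; abel⟩,
      fun ⟨p, q, s, v, k⟩ => ⟨![v, p, q, s], (v0 _).trans (x1 (by
        rw [k]; simp only [cons_val]; abel))⟩⟩
  · refine ⟨?_, fun k => ?_⟩
    · rintro ⟨v, rfl⟩
      refine (v0 _).trans (x1 ?_)
      rw [v1]; simp only [cons_val, Pi.zero_apply]
      linear_combination (norm := noncomm_ring) v 0 * cz α + v 1 * cz β + v 2 * cz γ + v 3 * r0
    · have h : x 0 * ζ + x 1 * α + x 2 * β + x 3 * γ = 0 := congrFun ((v0 x).symm.trans k) 0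
      obtain ⟨p, q, s, e⟩ := i3 (x 0) (-x 1) (-x 2) (-x 3) (by
        linear_combination (norm := noncomm_ring) h)
      obtain ⟨r, a, b, c⟩ := i2 (x 1 + p * ζ) (x 2 + q * ζ) (x 3 + s * ζ) (by
        linear_combination (norm := noncomm_ring) h - e * ζ + p * cz α + q * cz β + s * cz γ)
      refine ⟨![-p, -q, -s, r], (v1 _).trans (x4 ?_ ?_ ?_ ?_)⟩ <;> simp only [cons_val]
      · linear_combination (norm := noncomm_ring) -e
      · linear_combination (norm := noncomm_ring) -a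
      · linear_combination (norm := noncomm_ring) -b
      · linear_combination (norm := noncomm_ring) -c
  · refine ⟨?_, fun k => ?_⟩
    · rintro ⟨v, rfl⟩
      refine (v1 _).trans (x4 ?_ ?_ ?_ ?_) <;> rw [v2] <;> simp only [cons_val, Pi.zero_apply]
      · linear_combination (norm := noncomm_ring) v 0 * r0
      · linear_combination (norm := noncomm_ring) v 0 * cz A
      · linear_combination (norm := noncomm_ring) v 0 * cz B
      · linear_combination (norm := noncomm_ring) v 0 * cz C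
    · have h' := (v1 x).symm.trans k
      have h0 : -(x 0 * α) - x 1 * β - x 2 * γ = 0 := congrFun h' 0
      have h2 : x 1 * ζ + x 3 * B = 0 := congrFun h' 2
      obtain ⟨r, a, b, c⟩ := i2 (x 0) (x 1) (x 2) (by linear_combination (norm := noncomm_ring) -h0)
      have := i1 (x 3 + r * ζ) (by
        linear_combination (norm := noncomm_ring) h2 - b * ζ + r * cz B)
      refine ⟨![-r], (v2 _).trans (x4 ?_ ?_ ?_ ?_)⟩ <;> simp only [cons_val, cons_val_zero]
      · linear_combination (norm := noncomm_ring) -a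
      · linear_combination (norm := noncomm_ring) -b
      · linear_combination (norm := noncomm_ring) -c
      · linear_combination (norm := noncomm_ring) -this
  · have h' := (w1 _).symm.trans k
    have h0 : -(α * x 0) + ζ * x 1 = 0 := congrFun h' 0
    obtain ⟨r, a, b, c⟩ := j2 _ _ _ (congrFun h' 3)
    have := j1 (x 0 - ζ * r) (by linear_combination (norm := noncomm_ring) -h0 + ζ * a + cz α * r)
    exact ⟨![r], (w0 _).trans (x4 (sub_eq_zero.1 this).symm a.symm b.symm c.symm)⟩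
  · have h : -(A * x 0) - B * x 1 - C * x 2 + ζ * x 3 = 0 := congrFun ((w2 _).symm.trans k) 0
    obtain ⟨p, q, s, e⟩ := j3 (x 3) (x 0) (x 1) (x 2) (by
      linear_combination (norm := noncomm_ring) h)
    obtain ⟨r, a, b, c⟩ := j2 (x 0 - ζ * p) (x 1 - ζ * q) (x 2 - ζ * s) (by
      linear_combination (norm := noncomm_ring) -h + ζ * e + cz A * p + cz B * q + cz C * s)
    refine ⟨![-r, p, q, s], (w1 _).trans (x4 ?_ ?_ ?_ e.symm)⟩ <;> simp only [cons_val]
    · linear_combination (norm := noncomm_ring) -a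
    · linear_combination (norm := noncomm_ring) -b
    · linear_combination (norm := noncomm_ring) -c
  · rw [j4]
    exact ⟨fun ⟨p, q, s, v, k⟩ => ⟨![-p, -q, -s, v], (w2 _).trans (x1 (by
        rw [k]; simp only [cons_val]; noncomm_ring))⟩,
      fun ⟨v, k⟩ => ⟨-v 0, -v 1, -v 2, v 3, by rw [← k, w2]; simp only [cons_val]; noncomm_ring⟩⟩

/-- additive extension of a function on the group -/
noncomputable def ad {M : Type} [AddCommGroup M] (f : G → M) : MonoidAlgebra ℤ G →+ M :=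
  (Finsupp.liftAddHom fun g => zmultiplesHom M (f g)).comp MonoidAlgebra.coeffAddEquiv.toAddMonoidHom
omit [Group G] in
lemma ad_single {M : Type} [AddCommGroup M] (f : G → M) (g : G) (n : ℤ) :
    ad f (.single g n) = n • f g := by simp [ad]

/-- twisted involution -/
noncomputable def st (w : G →* ℤˣ) : MonoidAlgebra ℤ G →+ MonoidAlgebra ℤ G :=
  ad fun g => .single g⁻¹ (w g)
lemma st_single (w : G →* ℤˣ) (g : G) (n : ℤ) :
    st w (.single g n) = .single g⁻¹ (n * w g) := by simp [st, ad_single]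
lemma st_st (w : G →* ℤˣ) (r : MonoidAlgebra ℤ G) : st w (st w r) = r := by
  induction r using MonoidAlgebra.induction_linear with
  | zero => simp
  | add a b ha hb => simp [ha, hb]
  | single g n => rw [st_single, st_single, mul_assoc, ← Units.val_mul, ← map_mul]; simp
lemma st_mul (w : G →* ℤˣ) (r s : MonoidAlgebra ℤ G) : st w (r * s) = st w s * st w r := by
  induction r using MonoidAlgebra.induction_linear with
  | zero => simp
  | add a b ha hb => simp [ha, hb, add_mul, mul_add]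
  | single g n =>
    induction s using MonoidAlgebra.induction_linear with
    | zero => simp
    | add a b ha hb => simp [ha, hb, add_mul, mul_add]
    | single h m => simp [MonoidAlgebra.single_mul_single, st_single, mul_comm, mul_left_comm,
      mul_assoc]
lemma st_one (w : G →* ℤˣ) : st w 1 = 1 := by simp [MonoidAlgebra.one_def, st_single]

lemma regr (ht : G →* Multiplicative ℤ) {g : G} (h : ht g = .ofAdd 1) (r : MonoidAlgebra ℤ G)
    (e : r * (1 - .single g 1) = 0) : r = 0 := by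
  refine mem_of_pj id ⊥ (fun _ _ e => congrArg _ e) r
    (fix_zero (· * g) (fun u => (ht u).toAdd) (fun u => by simp [h]) _ ?_)
  rw [← pj_comm id (· * g) (.mulRight (.single g 1)) fun u => ⟨u * g, rfl, fun n => by
    simp [MonoidAlgebra.single_mul_single]⟩, ← map_sub]
  rw [mul_sub, mul_one] at e
  exact (congrArg _ e).trans (map_zero _)

end Pool.Agent.H3.PD3
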