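import Mathlib
import Pool.Agent.H3.PD3E

set_option autoImplicit false

namespace Pool.Agent.H3.PD3

/-- the surface group of Euler characteristic minus one -/
def Γ : Type := PresentedGroup ({.of 2 * .of 2 * .of 0 * .of 1 * (.of 1 * .of 0)⁻¹} :
  Set (FreeGroup (Fin 3)))
instance : Group Γ := inferInstanceAs (Group (PresentedGroup _))
/-- generators -/
def gn (i : Fin 3) : Γ := PresentedGroup.of i
lemma grel : gn 2 * gn 2 * gn 0 * gn 1 = gn 1 * gn 0 :=
  mul_inv_eq_one.1 (PresentedGroup.one_of_mem (Set.mem_singleton _))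
/-- universal property -/
def hom {L : Type} [Group L] (a b c : L) (h : c * c * a * b = b * a) : Γ →* L :=
  PresentedGroup.toGroup (f := ![a, b, c]) (by rintro _ rfl; simp [h])
lemma hom_gn {L : Type} [Group L] (a b c : L) (h : c * c * a * b = b * a) (i : Fin 3) :
    hom a b c h (gn i) = ![a, b, c] i := PresentedGroup.toGroup.of _
lemma gen (S : Subgroup Γ) (a : gn 0 ∈ S) (b : gn 1 ∈ S) (c : gn 2 ∈ S) (g : Γ) : g ∈ S :=
  PresentedGroup.generated_by _ S (fun i => by fin_cases i; exacts [a, b, c]) g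

/-- the product with the integers -/
abbrev GZ : Type := Γ × Multiplicative ℤ
/-- its group ring -/
abbrev RZ : Type := MonoidAlgebra ℤ GZ
/-- surface group inside the ring -/
noncomputable def ι : Γ →* RZ := (MonoidAlgebra.of ℤ GZ).comp (MonoidHom.inl _ _)
lemma ι_def (g : Γ) : ι g = .single (g, 1) 1 := rfl

lemma deriv {M : Type} [AddCommGroup M] [Module RZ M] (m : Fin 3 → M)
    (h : m 2 + ι (gn 2) • (m 2 + ι (gn 2) • (m 0 + ι (gn 0) • m 1)) = m 1 + ι (gn 1) • m 0) :
    ∃ δ : RZ →+ M, ∀ i r, δ (r * ι (gn i)) = δ r + r • m i := by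
  let af : Γ → M → Equiv.Perm M := fun g m => ⟨fun x => m + ι g • x, fun y => ι g⁻¹ • (y - m),
    fun x => by simp [← mul_smul, ← map_mul], fun x => by simp [← mul_smul, ← map_mul]⟩
  let ρ := hom (af (gn 0) (m 0)) (af (gn 1) (m 1)) (af (gn 2) (m 2)) (Equiv.ext fun x => by
    have e : ι (gn 2) • ι (gn 2) • ι (gn 0) • ι (gn 1) • x = ι (gn 1) • ι (gn 0) • x := by
      simp only [← mul_smul, ← map_mul, ← mul_assoc, grel]
    simp only [af, Equiv.Perm.coe_mul, Function.comp, Equiv.coe_fn_mk, smul_add] at h ⊢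
    rw [e, ← add_assoc (m 1), ← h]; abel)
  have g0 : ∀ i x, ρ (gn i) x = m i + ι (gn i) • x := fun i x => by
    rw [hom_gn]; fin_cases i <;> rfl
  have lin : ∀ g x, ρ g x = ρ g 0 + ι g • x := fun g => gen
    { carrier := {g | ∀ x, ρ g x = ρ g 0 + ι g • x}
      one_mem' := fun x => by simp
      mul_mem' := fun {g k} a b x => by
        simp only [map_mul, Equiv.Perm.coe_mul, Function.comp]
        rw [a, b, a (ρ k 0), smul_add, mul_smul, add_assoc]
      inv_mem' := fun {g} a x => (ρ g).injective (by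
        rw [a (_ + _), smul_add, ← add_assoc, ← a, ← mul_smul]
        simp [← map_mul]) }
    (fun x => by simp [g0]) (fun x => by simp [g0]) (fun x => by simp [g0]) g
  refine ⟨ad fun g => (MonoidAlgebra.single ((1 : Γ), g.2) (1 : ℤ) : RZ) • ρ g.1 0, fun i r => ?_⟩
  induction r using MonoidAlgebra.induction_linear with
  | zero => simp
  | add a b ha hb => rw [add_mul, map_add, map_add, ha, hb, add_smul]; abel
  | single g n =>
    have : (MonoidAlgebra.single g n : RZ) = n • (.single (1, g.2) 1 * ι g.1) := by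
      simp [ι_def, MonoidAlgebra.single_mul_single]
    rw [ι_def, MonoidAlgebra.single_mul_single, ad_single, ad_single, this, mul_one, smul_assoc,
      ← smul_add, mul_smul, ← smul_add]
    simp only [Prod.fst_mul, Prod.snd_mul, mul_one, map_mul, Equiv.Perm.coe_mul, Function.comp]
    rw [lin, g0, smul_zero, add_zero]

lemma syz {α β γ A B C : RZ} (δ : RZ →+ (RZ × RZ × RZ) ⧸ Submodule.span RZ {(A, B, C)})
    (a : ∀ r, δ (r * α) = r • Submodule.Quotient.mk (1, 0, 0))
    (b : ∀ r, δ (r * β) = r • Submodule.Quotient.mk (0, 1, 0))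
    (c : ∀ r, δ (r * γ) = r • Submodule.Quotient.mk (0, 0, 1)) (p q s : RZ)
    (h : p * α + q * β + s * γ = 0) : ∃ r, p = r * A ∧ q = r * B ∧ s = r * C := by
  have := congrArg δ h
  rw [map_add, map_add, a, b, c, map_zero] at this
  simp only [← Submodule.Quotient.mk_smul, ← Submodule.Quotient.mk_add,
    Submodule.Quotient.mk_eq_zero, Submodule.mem_span_singleton] at this
  obtain ⟨r, e⟩ := this
  simp only [Prod.smul_mk, smul_eq_mul, Prod.mk_add_mk, Prod.mk.injEq, mul_one, mul_zero, add_zero,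
    zero_add] at e
  exact ⟨r, e.1.symm, e.2.1.symm, e.2.2.symm⟩

/-- the central generator -/
noncomputable def zz : RZ := .single (1, .ofAdd 1) 1
/-- its inverse -/
noncomputable def zi : RZ := .single (1, .ofAdd (-1)) 1
lemma zc (r : RZ) : zz * r = r * zz := by
  induction r using MonoidAlgebra.induction_linear with
  | zero => simp
  | add a b ha hb => rw [add_mul, mul_add, ha, hb]
  | single g n => simp [zz, MonoidAlgebra.single_mul_single, Prod.mul_def, mul_comm]
lemma zz_zi : zz * zi = 1 := by simp [zz, zi, MonoidAlgebra.single_mul_single, ← ofAdd_add]; rfl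

/-- the left ideal of the surface subgroup -/
def II : AddSubgroup RZ where
  carrier := {r | ∃ p q s, r = p * (1 - ι (gn 0)) + q * (1 - ι (gn 1)) + s * (1 - ι (gn 2))}
  zero_mem' := ⟨0, 0, 0, by simp⟩
  add_mem' := by
    rintro _ _ ⟨p, q, s, rfl⟩ ⟨p', q', s', rfl⟩
    exact ⟨p + p', q + q', s + s', by noncomm_ring⟩
  neg_mem' := by
    rintro _ ⟨p, q, s, rfl⟩
    exact ⟨-p, -q, -s, by noncomm_ring⟩

lemma clI (J : AddSubgroup RZ) (h : II ≤ J) (g u : Γ) (k : Multiplicative ℤ) :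
    cl J (g, k) = cl J (u, k) := by
  have : ∀ g u, cl J (u * g, k) = cl J (u, k) := fun g => gen
    { carrier := {g | ∀ u, cl J (u * g, k) = cl J (u, k)}
      one_mem' := fun u => by rw [mul_one]
      mul_mem' := fun {g v} a b u => by rw [← mul_assoc, b, a]
      inv_mem' := fun {g} a u => by rw [← a, inv_mul_cancel_right] }
    (fun u => Eq.symm (cl_eq.2 (h ⟨.single (u, k) 1, 0, 0, by
      simp [ι_def, mul_sub, MonoidAlgebra.single_mul_single]⟩)))
    (fun u => Eq.symm (cl_eq.2 (h ⟨0, .single (u, k) 1, 0, by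
      simp [ι_def, mul_sub, MonoidAlgebra.single_mul_single]⟩)))
    (fun u => Eq.symm (cl_eq.2 (h ⟨0, 0, .single (u, k) 1, by
      simp [ι_def, mul_sub, MonoidAlgebra.single_mul_single]⟩))) g
  rw [← this (u⁻¹ * g) u, mul_inv_cancel_left]

lemma I3 (r : RZ) (h : r * (1 - zz) ∈ II) : r ∈ II := by
  have k : ∀ g r, pj Prod.snd (r * (1 - ι g)) = 0 := fun g r => by
    have := pj_comm Prod.snd id (.mulRight (ι g)) (fun u => ⟨u * (g, 1), by simp, fun n => by
      simp [ι_def, MonoidAlgebra.single_mul_single]⟩) r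
    rw [mul_sub, mul_one, map_sub, sub_eq_zero]
    simpa using this.symm
  refine mem_of_pj Prod.snd II (fun g g' e => by
    rw [← Prod.mk.eta (p := g), e]; exact clI _ le_rfl _ _ _) r
    (fix_zero (· * Multiplicative.ofAdd (1 : ℤ)) Multiplicative.toAdd (fun u => rfl) _ ?_)
  rw [← pj_comm Prod.snd (· * Multiplicative.ofAdd (1 : ℤ)) (.mulRight zz) fun u => ⟨u * (1, .ofAdd 1), rfl, fun n => by
    simp [zz, MonoidAlgebra.single_mul_single]⟩, ← map_sub]
  obtain ⟨p, q, s, e⟩ := h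
  rw [mul_sub, mul_one] at e
  exact (congrArg _ e).trans (by simp only [map_add, k, add_zero])

lemma I4 (r : RZ) : aug r = 0 ↔ ∃ v, r - v * (1 - zz) ∈ II := by
  refine ⟨fun h => ?_, fun ⟨v, p, q, s, e⟩ => ?_⟩
  · have := mem_of_pj (fun _ => ()) (II ⊔ (AddMonoidHom.mulRight (1 - zz)).range) (fun g g' _ => by
      rw [← Prod.mk.eta (p := g), clI _ le_sup_left g.1 g'.1]
      exact const_of_succ (fun k => cl _ (g'.1, Multiplicative.ofAdd k)) (fun k => Eq.symm (cl_eq.2
        (AddSubgroup.mem_sup_right (AddMonoidHom.mem_range.2 ⟨.single (g'.1, .ofAdd k) 1, by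
          simp [zz, mul_sub, MonoidAlgebra.single_mul_single, ofAdd_add]⟩)))) g.2.toAdd g'.2.toAdd)
      r (aug_pj r h)
    obtain ⟨a, b, _, ⟨v, rfl⟩, rfl⟩ := AddSubgroup.mem_sup.1 this
    exact ⟨v, by simpa using b⟩
  · simpa [ι_def, zz, aug_single] using congrArg aug e

/-- exponent of the first generator -/
def ha : GZ →* Multiplicative ℤ := (hom (.ofAdd 1) 1 1 (by simp)).comp (MonoidHom.fst _ _)
/-- orientation character -/
def wo : GZ →* ℤˣ := (hom 1 1 (-1) (by simp)).comp (MonoidHom.fst _ _)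

theorem pdZ : IsPD3 GZ := by
  obtain ⟨a, ha0⟩ : ∃ a, a = ι (gn 0) := ⟨_, rfl⟩
  obtain ⟨b, hb0⟩ : ∃ a, a = ι (gn 1) := ⟨_, rfl⟩
  obtain ⟨c, hc0⟩ : ∃ a, a = ι (gn 2) := ⟨_, rfl⟩
  obtain ⟨a', ha1⟩ : ∃ a, a = ι (gn 0)⁻¹ := ⟨_, rfl⟩
  obtain ⟨b', hb1⟩ : ∃ a, a = ι (gn 1)⁻¹ := ⟨_, rfl⟩
  obtain ⟨c', hc1⟩ : ∃ a, a = ι (gn 2)⁻¹ := ⟨_, rfl⟩
  have aa : a * a' = 1 := by rw [ha0, ha1, ← map_mul]; simp
  have bb : b * b' = 1 := by rw [hb0, hb1, ← map_mul]; simp
  have cc : c * c' = 1 := by rw [hc0, hc1, ← map_mul]; simp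
  have aa' : a' * a = 1 := by rw [ha0, ha1, ← map_mul]; simp
  have bb' : b' * b = 1 := by rw [hb0, hb1, ← map_mul]; simp
  have cc' : c' * c = 1 := by rw [hc0, hc1, ← map_mul]; simp
  have rl : c * c * a * b = b * a := by simp only [ha0, hb0, hc0, ← map_mul, grel]
  have sa : st wo a = a' := by simp [ha0, ha1, ι_def, st_single, wo, hom_gn]
  have sb : st wo b = b' := by simp [hb0, hb1, ι_def, st_single, wo, hom_gn]
  have sc : st wo c = -c' := by simp [hc0, hc1, ι_def, st_single, wo, hom_gn]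
  have sz : st wo zz = zi := by simp [zz, zi, st_single, wo]
  have mI : ∀ r, r ∈ II ↔ ∃ p q s, r = p * (1 - a) + q * (1 - b) + s * (1 - c) := fun r => by
    rw [ha0, hb0, hc0]; rfl
  have sA : ∀ r, st wo ((c * c - b) * r) = st wo r * (c' * c' - b') := fun r => by
    simp [st_mul, sb, sc]
  have sB : ∀ r, st wo ((c * c * a - 1) * r) = st wo r * (a' * (c' * c') - 1) := fun r => by
    simp [st_mul, sa, sc, st_one]
  have sC : ∀ r, st wo ((1 + c) * r) = st wo r * (1 - c') := fun r => by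
    simp [st_mul, sc, st_one, sub_eq_add_neg]
  have mJ : ∀ r, st wo r ∈ II ↔ ∃ p q s, r = (c * c - b) * p + (c * c * a - 1) * q + (1 + c) * s :=
    fun r => by
    rw [mI]
    constructor
    · rintro ⟨p, q, s, e⟩
      refine ⟨st wo (-(q * b)), st wo (p * a), st wo ((p - q * b) * (1 + c') - s * c), ?_⟩
      rw [← st_st wo r, e, ← st_st wo (_ + _ + (1 + c) * _), map_add (st wo) (_ + _) (_ * st wo _),
        map_add (st wo) _ (_ * st wo _), sA, sB, sC, st_st, st_st, st_st]
      congr 1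
      linear_combination (norm := noncomm_ring) -(q * bb) - p * aa * (c' * c') - s * cc
    · rintro ⟨p, q, s, rfl⟩
      refine ⟨st wo q * a', -(st wo p * b'), (st wo p + st wo q * a') * (1 + c') * c' -
        st wo s * c', ?_⟩
      rw [map_add, map_add, sA, sB, sC]
      linear_combination (norm := noncomm_ring) -(st wo p * bb') + st wo q * aa' - st wo s * cc' +
        (st wo p + st wo q * a') * (1 + c') * cc'
  have cz : ∀ r, (1 - zz) * r = r * (1 - zz) := fun r => by
    rw [sub_mul, mul_sub, zc, one_mul, mul_one]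
  have sZ : ∀ r, st wo ((1 - zz) * r) = -(st wo r * zi) * (1 - zz) := fun r => by
    rw [st_mul, map_sub, st_one, sz]
    linear_combination (norm := noncomm_ring) -(st wo r * zz_zi) + st wo r * zc zi
  refine pd_of4 (α := 1 - a) (β := 1 - b) (γ := 1 - c) (A := c * c - b) (B := c * c * a - 1)
    (C := 1 + c) (ζ := 1 - zz) cz (by linear_combination (norm := noncomm_ring) -rl)
    (fun r e => ?_) ?_ (fun r p q s e => (mI r).1 (I3 r ((mI _).2 ⟨p, q, s, e⟩))) (fun r => ?_)
    (fun r e => ?_) (fun p q s e => ?_) (fun r p q s e => (mJ r).1 ?_)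
    (aug.toAddMonoidHom.comp (st wo)) (fun n => ⟨.single 1 n, by simp [st_single, aug_single]⟩)
    fun r => ?_
  · refine regr ha (g := (gn 2 * gn 2 * gn 0, 1)) (by simp [ha, hom_gn]) r ?_
    rw [← ι_def, map_mul, map_mul, ← ha0, ← hc0, ← neg_sub, mul_neg, e, neg_zero]
  · obtain ⟨δ, h⟩ := deriv (M := (RZ × RZ × RZ) ⧸ Submodule.span RZ {(c * c - b, c * c * a - 1, 1 + c)})
      ![Submodule.Quotient.mk (1, 0, 0), Submodule.Quotient.mk (0, 1, 0),
        Submodule.Quotient.mk (0, 0, 1)] (by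
      simp only [Matrix.cons_val, ← ha0, ← hb0, ← hc0, ← Submodule.Quotient.mk_smul,
        ← Submodule.Quotient.mk_add, Submodule.Quotient.eq, Submodule.mem_span_singleton]
      exact ⟨1, by simp [mul_assoc]⟩)
    refine syz (-δ) (fun r => ?_) (fun r => ?_) fun r => ?_
    · simp [mul_sub, ha0, h]
    · simp [mul_sub, hb0, h]
    · simp [mul_sub, hc0, h]
  · simp only [I4, mI, sub_eq_iff_eq_add]
    exact ⟨fun ⟨v, p, q, s, e⟩ => ⟨p, q, s, v, e⟩, fun ⟨p, q, s, v, e⟩ => ⟨v, p, q, s, e⟩⟩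
  · have := regr ha⁻¹ (g := ((gn 0)⁻¹, 1)) (by simp [ha, hom_gn]) (st wo r) (by
      rw [← ι_def, ← ha1, ← sa, ← st_one wo, ← map_sub, ← st_mul, e, map_zero])
    rw [← st_st wo r, this, map_zero]
  · obtain ⟨δ, h⟩ := deriv (M := (RZ × RZ × RZ) ⧸ Submodule.span RZ {(1 - a', 1 - b', 1 + c')})
      ![Submodule.Quotient.mk (0, -a, -(1 + c')), Submodule.Quotient.mk (b, 0, b * (1 + c')),
        Submodule.Quotient.mk (0, 0, c)] (by
      simp only [Matrix.cons_val, ← ha0, ← hb0, ← hc0, ← Submodule.Quotient.mk_smul,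
        ← Submodule.Quotient.mk_add, Submodule.Quotient.eq, Submodule.mem_span_singleton]
      refine ⟨b * a, ?_⟩
      simp only [Prod.smul_mk, smul_eq_mul, Prod.mk_add_mk, Prod.mk_sub_mk, Prod.mk.injEq]
      refine ⟨?_, ?_, ?_⟩
      · linear_combination (norm := noncomm_ring) -rl - b * aa
      · linear_combination (norm := noncomm_ring) rl * b' - c * c * a * bb
      · linear_combination (norm := noncomm_ring) -rl * (1 + c') + c * cc)
    have h' : ∀ i r, δ (r * ι (gn i)⁻¹) = δ r - (r * ι (gn i)⁻¹) • _ := fun i r => by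
      rw [eq_sub_iff_add_eq, ← h i, mul_assoc, ← map_mul, inv_mul_cancel, map_one, mul_one]
    have k0 := h' 0
    have k1 := h' 1
    have k2 := h' 2
    simp only [Matrix.cons_val, ← ha1, ← hb1, ← hc1, ← Submodule.Quotient.mk_smul] at k0 k1 k2
    obtain ⟨r, x, y, z⟩ := syz (α := c' * c' - b') (β := a' * (c' * c') - 1) (γ := 1 - c') δ
      (fun r => by
        simp only [mul_sub, ← mul_assoc, map_sub, k1, k2]
        rw [sub_sub (δ r), sub_sub_sub_cancel_left]
        simp only [← Submodule.Quotient.mk_smul, ← Submodule.Quotient.mk_add, ← Submodule.Quotient.mk_sub]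
        refine congrArg _ ?_
        simp only [Prod.smul_mk, smul_eq_mul, Prod.mk_add_mk, Prod.mk_sub_mk, Prod.mk.injEq]
        refine ⟨?_, ?_, ?_⟩
        · linear_combination (norm := noncomm_ring) r * bb'
        · noncomm_ring
        · linear_combination (norm := noncomm_ring) r * bb' * (1 + c') - r * (1 + c') * cc')
      (fun r => by
        simp only [mul_sub, ← mul_assoc, map_sub, k0, k2, sub_sub, mul_one]
        rw [sub_add_cancel_right]
        simp only [← Submodule.Quotient.mk_smul, ← Submodule.Quotient.mk_add,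
          ← Submodule.Quotient.mk_neg]
        refine congrArg _ ?_
        simp only [Prod.smul_mk, smul_eq_mul, Prod.mk_add_mk, Prod.neg_mk, Prod.mk.injEq]
        refine ⟨?_, ?_, ?_⟩
        · noncomm_ring
        · linear_combination (norm := noncomm_ring) r * aa'
        · linear_combination (norm := noncomm_ring) -(r * a' * (1 + c') * cc'))
      (fun r => by
        simp only [mul_sub, map_sub, k2, mul_one, sub_sub_cancel, ← Submodule.Quotient.mk_smul]
        congr 1
        simp [mul_assoc, cc'])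
      (st wo p) (st wo q) (st wo s) (by rw [← sA, ← sB, ← sC, ← map_add, ← map_add, e, map_zero])
    refine ⟨st wo r, ?_, ?_, ?_⟩
    · rw [← st_st wo p, x, st_mul, ← sa, map_sub, st_st, st_one]
    · rw [← st_st wo q, y, st_mul, ← sb, map_sub, st_st, st_one]
    · rw [← st_st wo s, z, st_mul, ← sub_neg_eq_add, ← sc, map_sub, st_st, st_one]
  · have := I3 _ (sZ r ▸ (mJ _).2 ⟨p, q, s, e⟩)
    obtain ⟨x, y, z, k⟩ := (mI _).1 this
    exact (mI _).2 ⟨-(zz * x), -(zz * y), -(zz * z), by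
      linear_combination (norm := noncomm_ring) -(zz * k) - st wo r * zz_zi -
        zc (st wo r) * zi⟩
  · refine (I4 (st wo r)).trans ⟨fun ⟨v, e⟩ => ?_, fun ⟨p, q, s, v, e⟩ => ⟨-(st wo v * zi), ?_⟩⟩
    · have k : -(-(v * zz) * zi) = v := by
        linear_combination (norm := noncomm_ring) v * zz_zi
      obtain ⟨p, q, s, l⟩ := (mJ (r - (1 - zz) * st wo (-(v * zz)))).1 (by
        rwa [map_sub, sZ, st_st, k])
      exact ⟨p, q, s, _, sub_eq_iff_eq_add.1 l⟩
    · rw [← sZ, ← map_sub]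
      exact (mJ _).2 ⟨p, q, s, sub_eq_iff_eq_add.2 e⟩

/-- affine maps -/
def afq (u : ℚ) (h : u ≠ 0) (v : ℚ) : Equiv.Perm ℚ :=
  ⟨fun x => u * x + v, fun y => (y - v) / u, fun x => by field_simp; ring,
    fun x => by field_simp; ring⟩
/-- affine action on the rationals -/
def ρq : GZ →* Equiv.Perm ℚ :=
  (hom (afq 3 (by simp) 0) (afq 1 (by simp) 1) (afq 1 (by simp) (-1))
    (Equiv.ext fun x => by simp [afq]; ring)).comp (MonoidHom.fst _ _)
/-- the base group -/
def HB : Subgroup GZ where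
  carrier := {g | ∃ n : ℤ, ∀ x, ρq g x = x + n}
  one_mem' := ⟨0, by simp⟩
  mul_mem' := by
    rintro g h ⟨m, a⟩ ⟨n, b⟩
    exact ⟨m + n, fun x => by simp [a, b]; ring⟩
  inv_mem' := by
    rintro g ⟨m, a⟩
    exact ⟨-m, fun x => by rw [map_inv, Equiv.Perm.inv_eq_iff_eq, a]; simp⟩
/-- the stable letter -/
def tt : GZ := (gn 0, 1)
lemma ρ_tt (x : ℚ) : ρq tt x = 3 * x := by simp [ρq, tt, hom_gn, afq]
lemma ρ_ti (x : ℚ) : (ρq tt)⁻¹ x = x / 3 := by rw [Equiv.Perm.inv_eq_iff_eq, ρ_tt]; ring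
/-- conjugation by it -/
def cj : HB →* HB := MonoidHom.mk' (fun h => ⟨tt * h.1 * tt⁻¹, by
    obtain ⟨n, a⟩ := h.2
    exact ⟨3 * n, fun x => by
      simp only [map_mul, map_inv, Equiv.Perm.mul_apply, ρ_tt, ρ_ti, a]; push_cast; ring⟩⟩)
  fun a b => Subtype.ext (by simp [mul_assoc])
lemma cj_inj : Function.Injective cj := fun a b e => Subtype.ext (by
  simpa [cj] using congrArg Subtype.val e)
lemma b_mem : ((gn 1, 1) : GZ) ∈ HB := ⟨1, fun x => by simp [ρq, hom_gn, afq]⟩
lemma cj_ns : ¬ Function.Surjective cj := fun h => by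
  obtain ⟨⟨g, n, a⟩, e⟩ := h ⟨_, b_mem⟩
  have := congrArg (fun u : HB => ρq u.1 0) e
  simp only [cj, MonoidHom.mk'_apply, map_mul, map_inv, Equiv.Perm.coe_mul, Function.comp, ρ_tt,
    ρ_ti, a] at this
  simp [ρq, hom_gn, afq] at this
  norm_cast at this
  omega

open HNNExtension in
theorem hnn : Nonempty (HNNExtension HB ⊤ cj.range
    (Subgroup.topEquiv.trans (MonoidHom.ofInjective cj_inj)) ≃* GZ) := by
  let ψ : (⊤ : Subgroup HB) ≃* cj.range := Subgroup.topEquiv.trans (MonoidHom.ofInjective cj_inj)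
  let Φ : HNNExtension HB ⊤ cj.range ψ →* GZ := HNNExtension.lift HB.subtype tt fun a =>
    (inv_mul_cancel_right _ _).symm
  have up : ∀ (n : ℕ) (h : HB), ∃ k : HB, (t ^ n * of h : HNNExtension HB ⊤ cj.range ψ) =
      of k * t ^ n := fun n => by
    induction n with
    | zero => exact fun h => ⟨h, by simp⟩
    | succ n ih =>
      intro h
      obtain ⟨k, e⟩ := ih (ψ ⟨h, trivial⟩)
      exact ⟨k, by rw [pow_succ, mul_assoc, t_mul_of (φ := ψ) ⟨h, trivial⟩, ← mul_assoc, e, mul_assoc]⟩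
  have nf : ∀ w : HNNExtension HB ⊤ cj.range ψ, ∃ (p q : ℕ) (h : HB), t ^ p * w = of h * t ^ q := by
    intro w
    induction w using HNNExtension.induction_on with
    | of g => exact ⟨0, 0, g, by simp⟩
    | t => exact ⟨0, 1, 1, by simp⟩
    | mul x y a b =>
      obtain ⟨p, q, h, e⟩ := a
      obtain ⟨p', q', h', e'⟩ := b
      obtain ⟨k, f⟩ := up p' h
      obtain ⟨k', f'⟩ := up q h'
      refine ⟨p' + p, q + q', k * k', ?_⟩
      rw [pow_add, mul_assoc, ← mul_assoc _ x, e, ← mul_assoc, ← mul_assoc, f, mul_assoc (of k),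
        pow_mul_comm, mul_assoc, mul_assoc, e', ← mul_assoc _ (of h'), f', map_mul, pow_add]
      simp only [mul_assoc]
    | inv x a =>
      obtain ⟨p, q, h, e⟩ := a
      exact ⟨q, p, h⁻¹, by rw [map_inv, eq_inv_mul_iff_mul_eq, ← mul_assoc, ← e]; simp⟩
  refine ⟨MulEquiv.ofBijective Φ ⟨(injective_iff_map_eq_one Φ).2 fun w e => ?_, fun g => ?_⟩⟩
  · obtain ⟨p, q, ⟨h, n, a⟩, f⟩ := nf w
    have k := congrArg Φ f
    simp only [map_mul, map_pow, e, mul_one, Φ, lift_t, lift_of, Subgroup.coe_subtype] at k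
    have pw : ∀ (m : ℕ) x, (ρq tt ^ m) x = 3 ^ m * x := fun m => by
      induction m with
      | zero => simp
      | succ m ih => intro x; rw [pow_succ, Equiv.Perm.mul_apply, ih, ρ_tt]; ring
    have k' : ∀ x : ℚ, 3 ^ p * x = 3 ^ q * x + n := fun x => by
      simpa [pw, a] using congrArg (fun u => ρq u x) k
    have : p = q := by
      have := k' 1
      rw [← (by simpa using k' 0 : (0 : ℚ) = n)] at this
      simpa using this
    subst this
    have : (⟨h, n, a⟩ : HB) = 1 := Subtype.ext (by simpa using k)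
    simpa [this] using f
  · have hm : ∀ u ∈ HB, u ∈ Φ.range := fun u h => ⟨of ⟨u, h⟩, by simp [Φ]⟩
    have := gen (Φ.range.comap (MonoidHom.inl _ _)) ⟨t, by simp [Φ, tt]⟩ (hm _ b_mem)
      (hm _ ⟨-1, fun x => by simp [ρq, hom_gn, afq]⟩) g.1
    have := Φ.range.mul_mem this (hm (1, g.2) ⟨0, fun x => by simp [ρq]⟩)
    simpa using this

end Pool.Agent.H3.PD3
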