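import Mathlib

set_option autoImplicit false

namespace Pool.Agent.H3.Pend

open Filter Topology intervalIntegral
open scoped Real

noncomputable def q (k x : ℝ) : ℝ := √(2 * k + Real.sin (π * x) ^ 2)
noncomputable def a (k : ℝ) : ℝ := ∫ x in (0 : ℝ)..1, q k x
noncomputable def v (k x : ℝ) : ℝ := ∫ y in (0 : ℝ)..x, (q k y - a k)

lemma q_cont (k : ℝ) : Continuous (q k) := by unfold q; fun_prop

lemma q_sq {k : ℝ} (hk : 0 ≤ k) (x : ℝ) : q k x ^ 2 = 2 * k + Real.sin (π * x) ^ 2 :=
  Real.sq_sqrt (by positivity)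

lemma q_nonneg (k x : ℝ) : 0 ≤ q k x := Real.sqrt_nonneg _

lemma q_per (k : ℝ) : Function.Periodic (q k) 1 := by
  intro x
  simp [q, mul_add, Real.sin_add_pi]

lemma v_deriv (k x : ℝ) : HasDerivAt (v k) (q k x - a k) x :=
  (((q_cont k).sub continuous_const).integral_hasStrictDerivAt 0 x).hasDerivAt

lemma v_deriv' (k : ℝ) : deriv (v k) = fun x => q k x - a k := funext fun x => (v_deriv k x).deriv

lemma v_c1 (k : ℝ) : ContDiff ℝ 1 (v k) :=
  contDiff_one_iff_deriv.mpr ⟨fun x => (v_deriv k x).differentiableAt, by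
    rw [v_deriv']; exact (q_cont k).sub continuous_const⟩

lemma v_per (k : ℝ) : Function.Periodic (v k) 1 := by
  intro x
  have hc : Continuous fun y => q k y - a k := (q_cont k).sub continuous_const
  have hp : Function.Periodic (fun y => q k y - a k) 1 := fun y => by simp only [q_per k y]
  have h1 := hp.intervalIntegral_add_eq x 0
  unfold v
  have h2 : ∫ x in (0 : ℝ)..1, (q k x - a k) = 0 := by
    rw [integral_sub ((q_cont k).intervalIntegrable _ _) (by simp), sub_eq_zero]
    simp [a]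
  rw [← integral_add_adjacent_intervals (b := x) (hc.intervalIntegrable _ _)
    (hc.intervalIntegrable _ _), h1, zero_add, h2, add_zero]

lemma q_le {k η : ℝ} (hk : 0 ≤ k) (hη : 0 ≤ η) (x : ℝ) :
    q k x ≤ q (k + η ^ 2 / 2) x ∧ q (k + η ^ 2 / 2) x ≤ q k x + η := by
  have h1 := q_sq hk x
  have h2 := q_sq (show 0 ≤ k + η ^ 2 / 2 by positivity) x
  have h3 := q_nonneg k x
  have h4 := q_nonneg (k + η ^ 2 / 2) x
  constructor
  · exact abs_le_of_sq_le_sq' (by nlinarith) h4 |>.2
  · exact abs_le_of_sq_le_sq' (by nlinarith) (by positivity) |>.2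

lemma a_close {η : ℝ} (hη : 0 ≤ η) : |a 0 - a (0 + η ^ 2 / 2)| ≤ η := by
  unfold a
  rw [← integral_sub ((q_cont _).intervalIntegrable _ _) ((q_cont _).intervalIntegrable _ _)]
  have := norm_integral_le_of_norm_le_const (a := 0) (b := 1) (C := η)
    (f := fun x => q 0 x - q (0 + η ^ 2 / 2) x) fun x _ => by
      have := q_le le_rfl hη x
      rw [Real.norm_eq_abs, abs_le]
      constructor <;> linarith
  simpa using this

/-- subsolutions coincide with the classical solution up to a constant -/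
lemma unique {k : ℝ} {w : ℝ → ℝ} (hc : Continuous w) (hp : Function.Periodic w 1)
    (h : ∀ φ : ℝ → ℝ, ContDiff ℝ 1 φ → ∀ x, IsLocalMax (w - φ) x → deriv φ x ≤ q k x - a k) :
    ∃ C, ∀ x, w x = v k x + C := by
  set g := w - v k with hg
  have gc : Continuous g := hc.sub (v_c1 k).continuous
  have gp : Function.Periodic g 1 := hp.sub (v_per k)
  have anti : ∀ x y, x < y → g y ≤ g x := by
    intro x y hxy
    by_contra hlt
    push Not at hlt
    set η := (g y - g x) / 2 with hη
    have η0 : 0 < η := by linarith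
    obtain ⟨K, hK0, hK⟩ : ∃ K : ℝ, 0 < K ∧ 0 < η * K := ⟨1, one_pos, by simpa⟩
    let e : ℝ → ℝ := fun s => η * Real.exp (K * (s - y))
    have ed : ∀ s, HasDerivAt e (η * (Real.exp (K * (s - y)) * (K * 1))) s := fun s =>
      (((hasDerivAt_id s).sub_const y).const_mul K).exp.const_mul η
    have ec : ContDiff ℝ 1 e := by simp only [e]; fun_prop
    obtain ⟨z, hz, hmax⟩ := (isCompact_Icc (a := x) (b := y + 1)).exists_isMaxOn
      ⟨x, le_rfl, by linarith⟩ (gc.sub ec.continuous).continuousOn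
    have h1 : (g - e) y ≤ (g - e) z := hmax ⟨hxy.le, by linarith⟩
    have h2 : (g - e) y = g y - η := by simp [e]
    have h3 : x < z := by
      refine lt_of_le_of_ne hz.1 fun hxz => ?_
      have : 0 < e x := by simp only [e]; positivity
      rw [← hxz, h2, Pi.sub_apply] at h1
      linarith
    have h4 : z < y + 1 := by
      refine lt_of_le_of_ne hz.2 fun hzy => ?_
      rw [hzy, h2, Pi.sub_apply, gp y] at h1
      have : 1 < Real.exp K := Real.one_lt_exp_iff.mpr hK0
      simp only [e, add_sub_cancel_left, mul_one] at h1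
      nlinarith
    have h5 : IsLocalMax (w - (v k + e)) z := by
      rw [← sub_sub]
      exact hmax.isLocalMax (Icc_mem_nhds h3 h4)
    have h6 := h (v k + e) ((v_c1 k).add ec) z h5
    rw [((v_deriv k z).add (ed z)).deriv] at h6
    have : 0 < η * (Real.exp (K * (z - y)) * (K * 1)) := by positivity
    linarith
  have anti' : Antitone g := fun x y h => h.eq_or_lt.elim (fun e => e ▸ le_rfl) (anti x y)
  refine ⟨g 0, fun x => ?_⟩
  obtain ⟨n, hn⟩ := exists_nat_ge |x|
  have h1 := gp.nat_mul n 0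
  have h2 := gp.nat_mul n x
  simp only [mul_one, zero_add] at h1 h2
  have h3 : g n ≤ g x := anti' (abs_le.mp hn).2
  have h4 : g (x + n) ≤ g 0 := anti' (by linarith [(abs_le.mp hn).1])
  have : g x = w x - v k x := rfl
  linarith

lemma flow {k : ℝ} (hk : 0 < k) (x : ℝ) (n : ℕ) : ∃ (t : ℝ) (γ : ℝ → ℝ),
    n ≤ t * √(2 * k + 1) ∧ 0 ≤ t ∧ γ 0 = x ∧ γ t = x + n ∧ ∀ s, HasDerivAt γ (q k (γ s)) s := by
  have qp : ∀ y, 0 < q k y := fun y => Real.sqrt_pos.mpr (by positivity)
  set M := √(2 * k + 1) with hM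
  have M0 : 0 < M := Real.sqrt_pos.mpr (by positivity)
  have qM : ∀ y, q k y ≤ M := fun y => Real.sqrt_le_sqrt (by linarith [Real.sin_sq_le_one (π * y)])
  have hc : Continuous fun y => (q k y)⁻¹ := (q_cont k).inv₀ fun y => (qp y).ne'
  let τ : ℝ → ℝ := fun y => ∫ s in x..y, (q k s)⁻¹
  have τd : ∀ y, HasDerivAt τ (q k y)⁻¹ y := fun y => (hc.integral_hasStrictDerivAt x y).hasDerivAt
  have τc : Continuous τ := continuous_iff_continuousAt.mpr fun y => (τd y).continuousAt
  have τm : StrictMono τ := strictMono_of_deriv_pos fun y => by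
    rw [(τd y).deriv]; exact inv_pos.mpr (qp y)
  have τ0 : τ x = 0 := by simp [τ]
  have hm : Monotone fun y => τ y - M⁻¹ * y := monotone_of_deriv_nonneg
    (fun y => ((τd y).sub ((hasDerivAt_id y).const_mul _)).differentiableAt) fun y => by
      have : HasDerivAt (fun y => τ y - M⁻¹ * y) ((q k y)⁻¹ - M⁻¹ * 1) y :=
        (τd y).sub ((hasDerivAt_id y).const_mul _)
      rw [this.deriv]
      have := inv_anti₀ (qp y) (qM y)
      linarith
  have τs : Function.Surjective τ := by
    refine τc.surjective ?_ ?_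
    · refine tendsto_atTop_mono' _ ?_ (tendsto_atTop_add_const_right _ (-(M⁻¹ * x))
        (tendsto_id.const_mul_atTop (inv_pos.mpr M0)))
      filter_upwards [eventually_ge_atTop x] with y hy
      have := hm hy
      simp only [τ0, id] at this ⊢
      linarith
    · refine tendsto_atBot_mono' _ ?_ (tendsto_atBot_add_const_right _ (-(M⁻¹ * x))
        (tendsto_id.const_mul_atBot (inv_pos.mpr M0)))
      filter_upwards [eventually_le_atBot x] with y hy
      have := hm hy
      simp only [τ0, id] at this ⊢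
      linarith
  let E := τm.orderIsoOfSurjective τ τs
  have h1 := hm (show x ≤ x + n by simp)
  simp only [τ0] at h1
  have h2 : M⁻¹ * n ≤ τ (x + n) := by linarith
  refine ⟨τ (x + n), E.symm, ?_, le_trans (by positivity) h2, τ0 ▸ E.symm_apply_apply x,
    E.symm_apply_apply _, fun s => ?_⟩
  · rwa [inv_mul_le_iff₀ M0, mul_comm] at h2
  · have := HasDerivAt.of_local_left_inverse E.symm.continuous.continuousAt (τd (E.symm s))
      (inv_pos.mpr (qp _)).ne' (Eventually.of_forall E.apply_symm_apply)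
    rwa [inv_inv] at this

lemma action {k t : ℝ} {γ : ℝ → ℝ} (hγ : ContDiff ℝ 1 γ) {n : ℤ} (h : γ t = γ 0 + n) :
    ∫ s in (0 : ℝ)..t, ((deriv γ s - q k (γ s)) ^ 2 / 2 + (q k (γ s) - a k) * deriv γ s)
      = ∫ s in (0 : ℝ)..t, (deriv γ s - q k (γ s)) ^ 2 / 2 := by
  have c1 := hγ.continuous
  have c2 := hγ.continuous_deriv_one
  have c3 := q_cont k
  rw [integral_add (Continuous.intervalIntegrable (by fun_prop) _ _)
    (Continuous.intervalIntegrable (by fun_prop) _ _),
    integral_eq_sub_of_hasDerivAt (f := fun s => v k (γ s))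
      (fun s _ => (v_deriv k (γ s)).comp s (hγ.differentiable_one s).hasDerivAt)
      (Continuous.intervalIntegrable (by fun_prop) _ _)]
  have := (v_per k).int_mul n (γ 0)
  rw [mul_one] at this
  simp [h, this]

lemma cheap {k : ℝ} (hk : 0 ≤ k) (x T ε : ℝ) (hε : 0 < ε) : ∃ t, T ≤ t ∧ ∃ γ : ℝ → ℝ,
    ContDiff ℝ 1 γ ∧ γ 0 = x ∧ (∃ n : ℤ, γ t = x + n) ∧
    ∫ s in (0 : ℝ)..t, (deriv γ s - q k (γ s)) ^ 2 / 2 ≤ ε := by
  obtain ⟨n, hn⟩ := exists_nat_ge (|T| * √(2 * k + 2))
  set η := min 1 (ε / (n + 1)) with hη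
  have η0 : 0 < η := lt_min one_pos (by positivity)
  have η1 : η ≤ 1 := min_le_left _ _
  have η2 : η * (n + 1) ≤ ε := (le_div_iff₀ (by positivity)).mp (min_le_right _ _)
  obtain ⟨t, γ, h1, h2, h3, h4, h5⟩ := flow (show 0 < k + η ^ 2 / 2 by positivity) x n
  have hd : deriv γ = fun s => q (k + η ^ 2 / 2) (γ s) := funext fun s => (h5 s).deriv
  have c1 : Continuous γ := continuous_iff_continuousAt.mpr fun s => (h5 s).continuousAt
  have c2 := q_cont (k + η ^ 2 / 2)
  have c3 := q_cont k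
  refine ⟨t, ?_, γ, contDiff_one_iff_deriv.mpr ⟨fun s => (h5 s).differentiableAt, by
    rw [hd]; fun_prop⟩, h3, ⟨n, by simpa using h4⟩, ?_⟩
  · have a1 : √(2 * (k + η ^ 2 / 2) + 1) ≤ √(2 * k + 2) := Real.sqrt_le_sqrt (by nlinarith)
    have a2 : 0 < √(2 * k + 2) := Real.sqrt_pos.mpr (by positivity)
    have a3 : |T| * √(2 * k + 2) ≤ t * √(2 * k + 2) := by nlinarith
    exact (le_abs_self T).trans (le_of_mul_le_mul_right a3 a2)
  · rw [hd]
    calc _ ≤ ∫ s in (0 : ℝ)..t, η * q (k + η ^ 2 / 2) (γ s) := by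
          refine integral_mono_on h2 (Continuous.intervalIntegrable (by fun_prop) _ _)
            (Continuous.intervalIntegrable (by fun_prop) _ _) fun s _ => ?_
          have := q_le hk η0.le (γ s)
          have := q_nonneg k (γ s)
          nlinarith
      _ = η * n := by
          rw [integral_const_mul, integral_eq_sub_of_hasDerivAt (fun s _ => h5 s)
            (Continuous.intervalIntegrable (by fun_prop) _ _), h3, h4]
          ring
      _ ≤ ε := by nlinarith

lemma jump {η : ℝ} (hη : 0 < η) : ∃ x, 0 < x ∧ x ≤ 1 / 2 ∧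
    x ≤ (q (0 + η ^ 2 / 2) 0 - q 0 0) - (q (0 + η ^ 2 / 2) x - q 0 x) := by
  set x := min (1 / 2) (η / 4) with hx
  have x0 : 0 < x := lt_min (by norm_num) (by positivity)
  have x1 : x ≤ 1 / 2 := min_le_left _ _
  have x2 : x ≤ η / 4 := min_le_right _ _
  have hp := Real.pi_pos
  have s1 : 2 * x ≤ Real.sin (π * x) := by
    have := Real.mul_le_sin (x := π * x) (by positivity) (by nlinarith)
    rwa [show 2 / π * (π * x) = 2 * x by field_simp] at this
  have s2 : Real.sin (π * x) ≤ η := (Real.sin_le (by positivity)).trans (by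
    nlinarith [Real.pi_le_four])
  refine ⟨x, x0, x1, ?_⟩
  have e1 : q (0 + η ^ 2 / 2) 0 = η := by
    rw [q, show 2 * (0 + η ^ 2 / 2) + Real.sin (π * 0) ^ 2 = η ^ 2 by simp; ring,
      Real.sqrt_sq hη.le]
  have e2 : q 0 0 = 0 := by simp [q]
  have e3 : q 0 x = Real.sin (π * x) := by
    rw [q, mul_zero, zero_add, Real.sqrt_sq (by linarith)]
  have e4 : q (0 + η ^ 2 / 2) x ≤ η + Real.sin (π * x) / 2 :=
    Real.sqrt_le_iff.mpr ⟨by linarith, by nlinarith⟩
  linarith

end Pool.Agent.H3.Pend
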