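import Mathlib

set_option autoImplicit false
open Finset Classical

namespace Pool.Agent.H3.Plane

structure Pl where
  W : Type
  [fin : Fintype W]
  ty : W → Bool
  A : W → W → Prop
  m : ℕ
  w0 : W
  hm : 1 ≤ m
  symm : ∀ a b, A a b → A b a
  tyA : ∀ a b, A a b → ty b = !ty a
  cardT : ∀ t, m ^ 2 ≤ #{w | ty w = t} ∧ #{w | ty w = t} ≤ 3 * m ^ 2
  cardN : ∀ a, m ≤ #{w | A a w} ∧ #{w | A a w} ≤ 3 * m
  ex : ∀ a b, ty a = ty b → ∃ c, A a c ∧ A b c
  un : ∀ a b c d, a ≠ b → A a c → A b c → A a d → A b d → c = d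

attribute [instance] Pl.fin

variable {V : Type} [Fintype V] (tv : V → Bool) (H : V → V → Prop)

structure Bip : Prop where
  symm : ∀ a b, H a b → H b a
  ty : ∀ a b, H a b → tv b = !tv a

noncomputable def Hom (X : Pl) (S : Finset V) : Finset (V → X.W) :=
  {f | (∀ v ∈ S, X.ty (f v) = tv v) ∧ (∀ u ∈ S, ∀ v ∈ S, H u v → X.A (f u) (f v)) ∧
    ∀ v, v ∉ S → f v = X.w0}

def Up (S : Finset V) (x : V) (k : ℕ) : Prop :=
  ∃ C, ∀ (X : Pl) (a : X.W), #{f ∈ Hom tv H X S | f x = a ∧ Set.InjOn f S} ≤ C * X.m ^ k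

def Lo (S : Finset V) (x : V) (k : ℕ) : Prop :=
  ∀ (X : Pl) (a : X.W), X.ty a = tv x → X.m ^ k ≤ #{f ∈ Hom tv H X S | f x = a}

def UpU (S : Finset V) (k : ℕ) : Prop :=
  ∃ C, ∀ X : Pl, #{f ∈ Hom tv H X S | Set.InjOn f S} ≤ C * X.m ^ k

def LoU (S : Finset V) (k : ℕ) : Prop := ∀ X : Pl, X.m ^ k ≤ #(Hom tv H X S)

variable {tv H}

lemma mem_Hom {X : Pl} {S : Finset V} {f : V → X.W} : f ∈ Hom tv H X S ↔
    (∀ v ∈ S, X.ty (f v) = tv v) ∧ (∀ u ∈ S, ∀ v ∈ S, H u v → X.A (f u) (f v)) ∧
    ∀ v, v ∉ S → f v = X.w0 := by simp [Hom]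

noncomputable def res (X : Pl) (S : Finset V) (g : V → X.W) : V → X.W :=
  fun v => if v ∈ S then g v else X.w0

omit [Fintype V] in
lemma res_of {X : Pl} {S : Finset V} {g : V → X.W} {v : V} (h : v ∈ S) : res X S g v = g v := by
  simp [res, h]

lemma res_mem {X : Pl} {S T : Finset V} (h : S ⊆ T) {g : V → X.W} (hg : g ∈ Hom tv H X T) :
    res X S g ∈ Hom tv H X S := by
  rw [mem_Hom] at hg ⊢
  refine ⟨fun v hv => by rw [res_of hv]; exact hg.1 v (h hv), fun u hu v hv e => ?_,
    fun v hv => by simp [res, hv]⟩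
  rw [res_of hu, res_of hv]
  exact hg.2.1 u (h hu) v (h hv) e

omit [Fintype V] in
lemma res_inj {X : Pl} {S T : Finset V} (h : S ⊆ T) {g : V → X.W} (hg : Set.InjOn g T) :
    Set.InjOn (res X S g) S := fun u hu v hv e => by
  rw [res_of hu, res_of hv] at e
  exact hg (h hu) (h hv) e

lemma Up.mono {S : Finset V} {x : V} {k k' : ℕ} (h : Up tv H S x k) (hk : k ≤ k') :
    Up tv H S x k' := by
  obtain ⟨C, hC⟩ := h
  exact ⟨C, fun X a => (hC X a).trans (Nat.mul_le_mul_left _ (Nat.pow_le_pow_right X.hm hk))⟩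

lemma ext_up (X : Pl) {S : Finset V} {v : V} {f : V → X.W} (hf : Set.InjOn f S) :
    #{w | X.ty w = tv v ∧ ∀ u ∈ S, H v u → X.A (f u) w} ≤ 3 * X.m ^ (2 - #{u ∈ S | H v u}) := by
  by_cases h2 : 1 < #{u ∈ S | H v u}
  · obtain ⟨a, ha, b, hb, hab⟩ := one_lt_card.1 h2
    rw [mem_filter] at ha hb
    refine (card_le_one.2 fun c hc d hd => ?_).trans (by
      have : 0 < X.m ^ (2 - #{u ∈ S | H v u}) := pow_pos X.hm _
      omega)
    simp only [mem_filter, mem_univ, true_and] at hc hd
    exact X.un _ _ _ _ (fun e => hab (hf ha.1 hb.1 e)) (hc.2 a ha.1 ha.2) (hc.2 b hb.1 hb.2)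
      (hd.2 a ha.1 ha.2) (hd.2 b hb.1 hb.2)
  · by_cases h1 : #{u ∈ S | H v u} = 1
    · obtain ⟨a, ha⟩ := card_pos.1 (h1 ▸ Nat.one_pos)
      rw [mem_filter] at ha
      rw [h1, pow_one]
      refine (card_le_card fun c hc => ?_).trans (X.cardN (f a)).2
      simp only [mem_filter, mem_univ, true_and] at hc ⊢
      exact hc.2 a ha.1 ha.2
    · rw [show #{u ∈ S | H v u} = 0 by omega]
      refine (card_le_card fun c hc => ?_).trans (X.cardT (tv v)).2
      simp only [mem_filter, mem_univ, true_and] at hc ⊢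
      exact hc.1

lemma ext_lo (hB : Bip tv H) (X : Pl) {S : Finset V} {v : V} {f : V → X.W}
    (hf : ∀ u ∈ S, X.ty (f u) = tv u) (hd : #{u ∈ S | H v u} ≤ 2) :
    X.m ^ (2 - #{u ∈ S | H v u}) ≤ #{w | X.ty w = tv v ∧ ∀ u ∈ S, H v u → X.A (f u) w} := by
  have tyk : ∀ a ∈ S, H v a → ∀ w, X.A (f a) w → X.ty w = tv v := fun a ha h w hw => by
    rw [X.tyA _ _ hw, hf a ha, hB.ty _ _ h]; simp
  by_cases h2 : #{u ∈ S | H v u} = 2
  · obtain ⟨a, b, -, hab⟩ := card_eq_two.1 h2
    have ha : a ∈ {u ∈ S | H v u} := by simp [hab]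
    have hb : b ∈ {u ∈ S | H v u} := by simp [hab]
    rw [mem_filter] at ha hb
    obtain ⟨c, h1, h3⟩ := X.ex (f a) (f b) (by rw [hf a ha.1, hf b hb.1, hB.ty _ _ ha.2, hB.ty _ _ hb.2])
    rw [h2]
    refine card_pos.2 ⟨c, ?_⟩
    simp only [mem_filter, mem_univ, true_and]
    refine ⟨tyk a ha.1 ha.2 c h1, fun u hu e => ?_⟩
    have : u ∈ ({a, b} : Finset V) := hab ▸ mem_filter.2 ⟨hu, e⟩
    rcases mem_insert.1 this with rfl | h
    · exact h1
    · rw [mem_singleton.1 h]; exact h3
  · by_cases h1 : #{u ∈ S | H v u} = 1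
    · obtain ⟨a, hab⟩ := card_eq_one.1 h1
      have ha : a ∈ {u ∈ S | H v u} := by simp [hab]
      rw [mem_filter] at ha
      rw [h1, pow_one]
      refine (X.cardN (f a)).1.trans (card_le_card fun c hc => ?_)
      simp only [mem_filter, mem_univ, true_and] at hc ⊢
      refine ⟨tyk a ha.1 ha.2 c hc, fun u hu e => ?_⟩
      have : u ∈ ({a} : Finset V) := hab ▸ mem_filter.2 ⟨hu, e⟩
      rw [mem_singleton.1 this]; exact hc
    · have h0 : #{u ∈ S | H v u} = 0 := by omega
      rw [h0]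
      refine (X.cardT (tv v)).1.trans (card_le_card fun c hc => ?_)
      simp only [mem_filter, mem_univ, true_and] at hc ⊢
      refine ⟨hc, fun u hu e => ?_⟩
      have : u ∈ (∅ : Finset V) := card_eq_zero.1 h0 ▸ mem_filter.2 ⟨hu, e⟩
      simp at this

lemma up_insert (hB : Bip tv H) {S : Finset V} {x v : V} {k : ℕ} (hx : x ∈ S) (h : Up tv H S x k) :
    Up tv H (insert v S) x (k + (2 - #{u ∈ S | H v u})) := by
  obtain ⟨C, hC⟩ := h
  refine ⟨3 * C, fun X a => ?_⟩
  refine (card_le_mul_card_image_of_maps_to (f := res X S)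
    (t := {f ∈ Hom tv H X S | f x = a ∧ Set.InjOn f S}) (fun g hg => ?_)
    (3 * X.m ^ (2 - #{u ∈ S | H v u})) fun f hf => ?_).trans ?_
  · rw [mem_filter] at hg ⊢
    exact ⟨res_mem (subset_insert _ _) hg.1, by rw [res_of hx, hg.2.1],
      res_inj (subset_insert _ _) hg.2.2⟩
  · refine (card_le_card_of_injOn (fun g => g v) (fun g hg => ?_) fun g hg g' hg' e => ?_).trans
      (ext_up (tv := tv) (H := H) (v := v) X (mem_filter.1 hf).2.2)
    · simp only [coe_filter, mem_filter, mem_Hom, Set.mem_setOf_eq, mem_univ, true_and] at hg ⊢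
      refine ⟨hg.1.1.1 v (mem_insert_self _ _), fun u hu e => ?_⟩
      rw [← hg.2, res_of hu]
      exact hg.1.1.2.1 u (mem_insert_of_mem hu) v (mem_insert_self _ _) (hB.symm _ _ e)
    · simp only [coe_filter, mem_filter, mem_Hom, Set.mem_setOf_eq] at hg hg'
      funext u
      by_cases hu : u ∈ S
      · rw [← res_of (g := g) hu, ← res_of (g := g') hu, hg.2, hg'.2]
      · by_cases huv : u = v
        · rw [huv]; exact e
        · rw [hg.1.1.2.2 u (by simp [hu, huv]), hg'.1.1.2.2 u (by simp [hu, huv])]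
  · calc _ ≤ 3 * X.m ^ (2 - #{u ∈ S | H v u}) * (C * X.m ^ k) := Nat.mul_le_mul_left _ (hC X a)
      _ = _ := by ring

lemma lo_insert (hB : Bip tv H) {S : Finset V} {x v : V} {k : ℕ} (hx : x ∈ S) (hv : v ∉ S)
    (hd : #{u ∈ S | H v u} ≤ 2) (h : Lo tv H S x k) :
    Lo tv H (insert v S) x (k + (2 - #{u ∈ S | H v u})) := by
  intro X a ha
  refine le_trans ?_ (mul_card_image_le_card_of_maps_to (f := res X S)
    (t := {f ∈ Hom tv H X S | f x = a}) (fun g hg => ?_)
    (X.m ^ (2 - #{u ∈ S | H v u})) fun f hf => ?_)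
  · rw [pow_add, mul_comm]
    exact Nat.mul_le_mul_left _ (h X a ha)
  · rw [mem_filter] at hg ⊢
    exact ⟨res_mem (subset_insert _ _) hg.1, by rw [res_of hx, hg.2]⟩
  · rw [mem_filter, mem_Hom] at hf
    refine (ext_lo hB X hf.1.1 hd).trans (card_le_card_of_injOn (fun w => Function.update f v w)
      (fun w hw => ?_) fun w _ w' _ e => by simpa using congrFun e v)
    have ne : ∀ u ∈ S, u ≠ v := fun u hu e => hv (e ▸ hu)
    simp only [coe_filter, mem_filter, mem_Hom, Set.mem_setOf_eq, mem_univ, true_and] at hw ⊢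
    refine ⟨⟨⟨fun u hu => ?_, fun u hu u' hu' e => ?_, fun u hu => ?_⟩, ?_⟩, ?_⟩
    · rcases mem_insert.1 hu with rfl | hu
      · simpa using hw.1
      · simpa [ne u hu] using hf.1.1 u hu
    · rcases mem_insert.1 hu' with h' | k' <;> rcases mem_insert.1 hu with h | k
      · simpa [h, h'] using hB.ty _ _ e
      · subst h'; simpa [ne u k] using hw.2 u k (hB.symm _ _ e)
      · subst h; simpa [ne u' k'] using X.symm _ _ (hw.2 u' k' e)
      · simpa [ne u k, ne u' k'] using hf.1.2.1 u k u' k' e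
    · rw [mem_insert, not_or] at hu
      simpa [hu.1] using hf.1.2.2 u hu.2
    · simpa [ne x hx] using hf.2
    · funext u
      by_cases hu : u ∈ S
      · simp [res, hu, ne u hu]
      · simp [res, hu, hf.1.2.2 u hu]

lemma up_sep {S T : Finset V} {x y : V} {k l : ℕ} (hx : x ∈ S) (hy : y ∈ S) (hy' : y ∈ T)
    (h : Up tv H S x k) (h' : Up tv H T y l) : Up tv H (S ∪ T) x (k + l) := by
  obtain ⟨C, hC⟩ := h
  obtain ⟨C', hC'⟩ := h'
  refine ⟨C' * C, fun X a => ?_⟩
  refine (card_le_mul_card_image_of_maps_to (f := res X S)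
    (t := {f ∈ Hom tv H X S | f x = a ∧ Set.InjOn f S}) (fun g hg => ?_)
    (C' * X.m ^ l) fun f _ => ?_).trans ?_
  · rw [mem_filter] at hg ⊢
    exact ⟨res_mem subset_union_left hg.1, by rw [res_of hx, hg.2.1],
      res_inj subset_union_left hg.2.2⟩
  · refine (card_le_card_of_injOn (res X T) (fun g hg => ?_) fun g hg g' hg' e => ?_).trans
      (hC' X (f y))
    · simp only [coe_filter, mem_filter, Set.mem_setOf_eq] at hg ⊢
      exact ⟨res_mem subset_union_right hg.1.1, by rw [res_of hy', ← hg.2, res_of hy],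
        res_inj subset_union_right hg.1.2.2⟩
    · simp only [coe_filter, mem_filter, mem_Hom, Set.mem_setOf_eq] at hg hg'
      funext u
      by_cases hu : u ∈ S
      · rw [← res_of (g := g) hu, ← res_of (g := g') hu, hg.2, hg'.2]
      · by_cases huv : u ∈ T
        · rw [← res_of (g := g) huv, ← res_of (g := g') huv, e]
        · rw [hg.1.1.2.2 u (by simp [hu, huv]), hg'.1.1.2.2 u (by simp [hu, huv])]
  · calc _ ≤ C' * X.m ^ l * (C * X.m ^ k) := Nat.mul_le_mul_left _ (hC X a)
      _ = _ := by ring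

lemma lo_sep {S T : Finset V} {x y : V} {k l : ℕ} (hx : x ∈ S) (hy : y ∈ S) (hy' : y ∈ T)
    (hi : ∀ z ∈ S, z ∈ T → z = y) (he : ∀ u ∈ S, ∀ v ∈ T, H u v ∨ H v u → u = y ∨ v = y)
    (h : Lo tv H S x k) (h' : Lo tv H T y l) : Lo tv H (S ∪ T) x (k + l) := by
  intro X a ha
  refine le_trans ?_ (mul_card_image_le_card_of_maps_to (f := res X S)
    (t := {f ∈ Hom tv H X S | f x = a}) (fun g hg => ?_) (X.m ^ l) fun f hf => ?_)
  · rw [pow_add, mul_comm]
    exact Nat.mul_le_mul_left _ (h X a ha)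
  · rw [mem_filter] at hg ⊢
    exact ⟨res_mem subset_union_left hg.1, by rw [res_of hx, hg.2]⟩
  · rw [mem_filter, mem_Hom] at hf
    have key : ∀ g : V → X.W, g y = f y → ∀ u ∈ T, (if u ∈ S then f u else g u) = g u := by
      intro g hg u hu
      split_ifs with h
      · rw [hi u h hu, hg]
      · rfl
    refine (h' X (f y) (hf.1.1 y hy)).trans (card_le_card_of_injOn
      (fun g u => if u ∈ S then f u else g u) (fun g hg => ?_) fun g hg g' hg' e => ?_)
    · simp only [coe_filter, mem_filter, mem_Hom, Set.mem_setOf_eq] at hg ⊢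
      refine ⟨⟨⟨fun u hu => ?_, fun u hu u' hu' e => ?_, fun u hu => ?_⟩, ?_⟩, ?_⟩
      · rcases mem_union.1 hu with hu | hu
        · simpa [hu] using hf.1.1 u hu
        · rw [key g hg.2 u hu]; exact hg.1.1 u hu
      · have c1 : u ∈ S → u' ∈ S → X.A (if u ∈ S then f u else g u) (if u' ∈ S then f u' else g u') :=
          fun a b => by simpa [a, b] using hf.1.2.1 u a u' b e
        have c2 : u ∈ T → u' ∈ T → X.A (if u ∈ S then f u else g u) (if u' ∈ S then f u' else g u') :=
          fun a b => by rw [key g hg.2 u a, key g hg.2 u' b]; exact hg.1.2.1 u a u' b e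
        rcases mem_union.1 hu with hu | hu <;> rcases mem_union.1 hu' with hu' | hu'
        · exact c1 hu hu'
        · rcases he u hu u' hu' (Or.inl e) with h | h
          · exact c2 (h ▸ hy') hu'
          · exact c1 hu (h ▸ hy)
        · rcases he u' hu' u hu (Or.inr e) with h | h
          · exact c2 hu (h ▸ hy')
          · exact c1 (h ▸ hy) hu'
        · exact c2 hu hu'
      · rw [mem_union, not_or] at hu
        simpa [hu.1] using hg.1.2.2 u hu.2
      · simpa [hx] using hf.2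
      · funext u
        by_cases hu : u ∈ S
        · simp [res, hu]
        · simp [res, hu, hf.1.2.2 u hu]
    · simp only [coe_filter, mem_Hom, Set.mem_setOf_eq] at hg hg'
      funext u
      by_cases hu : u ∈ T
      · rw [← key g hg.2 u hu, ← key g' hg'.2 u hu]
        exact congrFun e u
      · rw [hg.1.2.2 u hu, hg'.1.2.2 u hu]

lemma up_un {S : Finset V} {y : V} {k : ℕ} (hy : y ∈ S) (h : Up tv H S y k) :
    UpU tv H S (k + 2) := by
  obtain ⟨C, hC⟩ := h
  refine ⟨C * 3, fun X => ?_⟩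
  refine (card_le_mul_card_image_of_maps_to (f := fun f => f y) (t := {w | X.ty w = tv y})
    (fun g hg => ?_) (C * X.m ^ k) fun b _ => ?_).trans ?_
  · rw [mem_filter, mem_Hom] at hg
    simpa using hg.1.1 y hy
  · refine le_trans (card_le_card fun g hg => ?_) (hC X b)
    simp only [mem_filter] at hg ⊢
    tauto
  · calc _ ≤ C * X.m ^ k * (3 * X.m ^ 2) := Nat.mul_le_mul_left _ (X.cardT _).2
      _ = _ := by ring

lemma lo_un {S : Finset V} {y : V} {k : ℕ} (hy : y ∈ S) (h : Lo tv H S y k) :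
    LoU tv H S (k + 2) := by
  intro X
  refine le_trans ?_ (mul_card_image_le_card_of_maps_to (f := fun f => f y)
    (t := {w | X.ty w = tv y}) (fun g hg => ?_) (X.m ^ k) fun b hb => h X b (by simpa using hb))
  · rw [pow_add]
    exact Nat.mul_le_mul_left _ (X.cardT _).1
  · rw [mem_Hom] at hg
    simpa using hg.1 y hy

lemma up_iso {S : Finset V} {x : V} {k : ℕ} (h : UpU tv H S k) : Up tv H (insert x S) x k := by
  obtain ⟨C, hC⟩ := h
  refine ⟨C, fun X a => (card_le_card_of_injOn (res X S) (fun g hg => ?_)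
    fun g hg g' hg' e => ?_).trans (hC X)⟩
  · simp only [coe_filter, Set.mem_setOf_eq] at hg ⊢
    exact ⟨res_mem (subset_insert _ _) hg.1, res_inj (subset_insert _ _) hg.2.2⟩
  · simp only [coe_filter, mem_Hom, Set.mem_setOf_eq] at hg hg'
    funext u
    by_cases hu : u ∈ S
    · rw [← res_of (g := g) hu, ← res_of (g := g') hu, e]
    · by_cases huv : u = x
      · rw [huv, hg.2.1, hg'.2.1]
      · rw [hg.1.2.2 u (by simp [hu, huv]), hg'.1.2.2 u (by simp [hu, huv])]

lemma lo_iso (hB : Bip tv H) {S : Finset V} {x : V} {k : ℕ} (hx : x ∉ S)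
    (hi : ∀ u ∈ S, ¬ H x u) (h : LoU tv H S k) : Lo tv H (insert x S) x k := by
  intro X a ha
  have ne : ∀ u ∈ S, u ≠ x := fun u hu e => hx (e ▸ hu)
  refine (h X).trans (card_le_card_of_injOn (fun f => Function.update f x a) (fun f hf => ?_)
    fun f hf g hg e => ?_)
  · simp only [coe_filter, mem_coe, mem_Hom, Set.mem_setOf_eq] at hf ⊢
    refine ⟨⟨fun u hu => ?_, fun u hu u' hu' e => ?_, fun u hu => ?_⟩, by simp⟩
    · rcases mem_insert.1 hu with rfl | hu
      · simpa using ha
      · simpa [ne u hu] using hf.1 u hu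
    · rcases mem_insert.1 hu' with h' | k' <;> rcases mem_insert.1 hu with h | k
      · simpa [h, h'] using hB.ty _ _ e
      · subst h'; exact absurd (hB.symm _ _ e) (hi _ k)
      · subst h; exact absurd e (hi _ k')
      · simpa [ne u k, ne u' k'] using hf.2.1 u k u' k' e
    · rw [mem_insert, not_or] at hu
      simpa [hu.1] using hf.2.2 u hu.2
  · simp only [mem_coe, mem_Hom] at hf hg
    funext u
    by_cases hu : u = x
    · rw [hu, hf.2.2 x hx, hg.2.2 x hx]
    · simpa [hu] using congrFun e u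

lemma upU_empty : UpU tv H ∅ 0 := ⟨1, fun X => by
  simp only [pow_zero, mul_one]
  refine card_le_one.2 fun f hf g hg => ?_
  simp only [mem_filter, mem_Hom] at hf hg
  funext u
  rw [hf.1.2.2 u (by simp), hg.1.2.2 u (by simp)]⟩

lemma loU_empty : LoU tv H ∅ 0 := fun X => card_pos.2 ⟨fun _ => X.w0, by simp [mem_Hom]⟩

lemma up_order (hB : Bip tv H) (r : V → ℕ) (x : V) (S : Finset V) : x ∈ S → Set.InjOn r S →
    (∀ v ∈ S, r x ≤ r v) →
    Up tv H S x (∑ v ∈ S.erase x, (2 - #{u ∈ S | H v u ∧ r u < r v})) := by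
  induction S using Finset.induction_on_max_value r with
  | empty => simp
  | insert a s has hmax ih =>
    intro hx hi hm
    by_cases hxs : x ∈ s
    · have hax : a ≠ x := fun e => has (e ▸ hxs)
      have := up_insert hB (v := a) hxs (ih hxs (hi.mono (by simp)) fun v hv =>
        hm v (mem_insert_of_mem hv))
      rw [erase_insert_of_ne hax, sum_insert (by simp [has]), add_comm]
      have e1 : {u ∈ insert a s | H a u ∧ r u < r a} = {u ∈ s | H a u} := by
        ext u
        simp only [mem_filter, mem_insert]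
        constructor
        · rintro ⟨rfl | h, h1, h2⟩
          · omega
          · exact ⟨h, h1⟩
        · rintro ⟨h, h1⟩
          exact ⟨Or.inr h, h1, lt_of_le_of_ne (hmax u h) fun e =>
            has (hi (by simp [h]) (by simp) e ▸ h)⟩
      have e2 : ∀ v ∈ s.erase x, (2 - #{u ∈ insert a s | H v u ∧ r u < r v}) =
          (2 - #{u ∈ s | H v u ∧ r u < r v}) := by
        intro v hv
        have := hmax v (mem_of_mem_erase hv)
        rw [filter_insert, if_neg (by omega)]
      rwa [e1, sum_congr rfl e2]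
    · have hax : x = a := (mem_insert.1 hx).resolve_right hxs
      subst hax
      have : s = ∅ := eq_empty_of_forall_notMem fun z hz => hxs (by
        have := hi (show z ∈ (↑(insert x s) : Set V) by simp [hz]) (by simp)
          (le_antisymm (hmax z hz) (hm z (mem_insert_of_mem hz)))
        exact this ▸ hz)
      subst this
      simpa using up_iso (x := x) (upU_empty (tv := tv) (H := H))

lemma lo_star (hB : Bip tv H) {S : Finset V} {x : V} (hx : x ∈ S) (b : Bool) :
    Lo tv H S x #{v ∈ S | tv v ≠ b ∧ v ≠ x} := by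
  intro X a ha
  obtain ⟨c, hc, hca⟩ : ∃ c, X.ty c = b ∧ (tv x = b → c = a) ∧ (tv x ≠ b → X.A c a) := by
    by_cases h : tv x = b
    · exact ⟨a, ha.trans h, fun _ => rfl, fun h' => absurd h h'⟩
    · obtain ⟨c, hc, -⟩ := X.ex a a rfl
      refine ⟨c, ?_, fun h' => absurd h' h, fun _ => X.symm _ _ hc⟩
      rw [X.tyA _ _ hc, ha]
      revert h; cases tv x <;> cases b <;> simp
  let t : V → Finset X.W := fun v => if v ∈ S then
    (if tv v = b then {c} else if v = x then {a} else univ.filter (X.A c)) else {X.w0}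
  refine le_trans ?_ (card_le_card (s := Fintype.piFinset t) fun f hf => ?_)
  · rw [Fintype.card_piFinset, ← prod_const]
    refine (prod_le_prod' (g := fun v => #(t v)) fun v hv => ?_).trans
      (prod_le_prod_of_subset_of_one_le' (subset_univ _) fun v _ _ => ?_)
    · rw [mem_filter] at hv
      simpa [t, hv.1, hv.2.1, hv.2.2] using (X.cardN c).1
    · simp only [t]
      split_ifs
      · simp
      · simp
      · exact X.hm.trans (X.cardN c).1
      · simp
  · rw [Fintype.mem_piFinset] at hf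
    have k1 : ∀ v ∈ S, tv v = b → f v = c := fun v hv h => by simpa [t, hv, h] using hf v
    have k2 : ∀ v ∈ S, tv v ≠ b → X.A c (f v) := fun v hv h => by
      by_cases hvx : v = x
      · subst hvx
        have : f v = a := by simpa [t, hv, h] using hf v
        rw [this]; exact hca.2 h
      · simpa [t, hv, h, hvx] using hf v
    rw [mem_filter, mem_Hom]
    refine ⟨⟨fun v hv => ?_, fun u hu v hv e => ?_, fun v hv => by simpa [t, hv] using hf v⟩, ?_⟩
    · by_cases h : tv v = b
      · rw [k1 v hv h, hc, h]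
      · rw [X.tyA _ _ (k2 v hv h), hc]
        revert h; cases tv v <;> cases b <;> simp
    · have := hB.ty _ _ e
      by_cases h : tv u = b
      · rw [k1 u hu h]
        exact k2 v hv (by rw [this, h]; simp)
      · rw [k1 v hv (by rw [this]; revert h; cases tv u <;> cases b <;> simp)]
        exact X.symm _ _ (k2 u hu h)
    · by_cases h : tv x = b
      · rw [k1 x hx h, hca.1 h]
      · simpa [t, hx, h] using hf x

end Pool.Agent.H3.Plane
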