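import Mathlib
import Pool.Agent.H3.PlaneA

set_option autoImplicit false
open Finset Classical

namespace Pool.Agent.H3.Plane

variable {V : Type} [Fintype V] {tv : V → Bool} {H : V → V → Prop}

def Good (H : V → V → Prop) (S : Finset V) (x t : V) (T : Finset V) (r : V → ℕ) : Prop :=
  T ⊆ S ∧ x ∈ T ∧ t ∈ T ∧ Set.InjOn r T ∧ (∀ v ∈ T, r x ≤ r v ∧ r v ≤ r t) ∧
    ∀ v ∈ T, v ≠ x → v ≠ t → (∃ u ∈ T, H v u ∧ r u < r v) ∧ ∃ u ∈ T, H v u ∧ r v < r u

def Sep (H : V → V → Prop) (S : Finset V) (x : V) : Prop :=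
  ∃ (S1 S2 : Finset V) (y : V), S1 ∪ S2 = S ∧ S1 ⊂ S ∧ S2 ⊂ S ∧ x ∈ S1 ∧ y ∈ S1 ∧ y ∈ S2 ∧
    (∀ z ∈ S1, z ∈ S2 → z = y) ∧ ∀ u ∈ S1, ∀ v ∈ S2, H u v ∨ H v u → u = y ∨ v = y

omit [Fintype V] in
lemma ear (hB : Bip tv H) {S T : Finset V} {x t a b : V} {r : V → ℕ} (hG : Good H S x t T r)
    (ha : a ∈ T) (hb : b ∈ T) (hab : r a < r b) {n : ℕ} {p : ℕ → V}
    (hp : ∀ i ≤ n, p i ∈ S ∧ p i ∉ T) (hi : Set.InjOn p {i | i ≤ n})
    (he : ∀ i < n, H (p i) (p (i + 1))) (h0 : H (p 0) a) (hn : H (p n) b) :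
    ∃ T' r', T ⊂ T' ∧ Good H S x t T' r' := by
  obtain ⟨g1, g2, g3, g4, g5, g6⟩ := hG
  let K : V → ℕ := fun w => (n + 2) * r w
  have K1 : ∀ u v, r u < r v → K u + (n + 2) ≤ K v := fun u v h => by
    simpa [K, mul_add] using Nat.mul_le_mul_left (n + 2) (Nat.succ_le_of_lt h)
  have K2 : ∀ u v, r u ≤ r v → K u ≤ K v := fun u v h => Nat.mul_le_mul_left _ h
  let r' : V → ℕ := fun w => if h : ∃ i, i ≤ n ∧ p i = w then K a + 1 + h.choose else K w
  have rT : ∀ w ∈ T, r' w = K w := fun w hw => dif_neg fun ⟨i, h1, h2⟩ => (hp i h1).2 (h2 ▸ hw)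
  have rP : ∀ i ≤ n, r' (p i) = K a + 1 + i := fun i h => by
    have h' : ∃ j, j ≤ n ∧ p j = p i := ⟨i, h, rfl⟩
    simp only [r', dif_pos h']
    rw [hi h'.choose_spec.1 h h'.choose_spec.2]
  have mem : ∀ w, w ∈ T ∪ (range (n + 1)).image p ↔ w ∈ T ∨ ∃ i ≤ n, p i = w := by
    intro w; simp [Nat.lt_succ_iff]
  have kb := K1 a b hab
  refine ⟨T ∪ (range (n + 1)).image p, r', ⟨subset_union_left, fun h =>
    (hp 0 (Nat.zero_le _)).2 (h ((mem _).2 (Or.inr ⟨0, Nat.zero_le _, rfl⟩)))⟩, fun w hw => ?_,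
    (mem _).2 (Or.inl g2), (mem _).2 (Or.inl g3), fun u hu v hv e => ?_, fun v hv => ?_,
    fun v hv h1 h2 => ?_⟩
  · rcases (mem _).1 hw with h | ⟨i, h, rfl⟩
    · exact g1 h
    · exact (hp i h).1
  · have cross : ∀ w ∈ T, ∀ i ≤ n, K w ≠ K a + 1 + i := fun w _ i h => by
      rcases le_or_gt (r w) (r a) with h' | h'
      · have := K2 _ _ h'; omega
      · have := K1 _ _ h'; omega
    rcases (mem _).1 hu with h | ⟨i, h, rfl⟩ <;> rcases (mem _).1 hv with h' | ⟨j, h', rfl⟩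
    · rw [rT u h, rT v h'] at e
      exact g4 h h' (Nat.eq_of_mul_eq_mul_left (by omega) e)
    · rw [rT u h, rP j h'] at e
      exact absurd e (cross u h j h')
    · rw [rT v h', rP i h] at e
      exact absurd e.symm (cross v h' i h)
    · rw [rP i h, rP j h'] at e
      rw [show i = j by omega]
  · rw [rT x g2, rT t g3]
    rcases (mem _).1 hv with h | ⟨i, h, rfl⟩
    · rw [rT v h]
      exact ⟨K2 _ _ (g5 v h).1, K2 _ _ (g5 v h).2⟩
    · have a1 := K2 _ _ (g5 a ha).1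
      have a2 := K2 _ _ (g5 b hb).2
      rw [rP i h]; omega
  · rcases (mem _).1 hv with h | ⟨i, h, rfl⟩
    · obtain ⟨⟨u, a1, a2, a3⟩, ⟨w, b1, b2, b3⟩⟩ := g6 v h h1 h2
      have c1 := K1 _ _ a3
      have c2 := K1 _ _ b3
      exact ⟨⟨u, (mem _).2 (Or.inl a1), a2, by rw [rT u a1, rT v h]; omega⟩,
        ⟨w, (mem _).2 (Or.inl b1), b2, by rw [rT w b1, rT v h]; omega⟩⟩
    · constructor
      · rcases i with _ | i
        · exact ⟨a, (mem _).2 (Or.inl ha), h0, by rw [rT a ha, rP 0 h]; omega⟩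
        · exact ⟨p i, (mem _).2 (Or.inr ⟨i, by omega, rfl⟩), hB.symm _ _ (he i (by omega)),
            by rw [rP i (by omega), rP _ h]; omega⟩
      · rcases h.lt_or_eq with h' | rfl
        · exact ⟨p (i + 1), (mem _).2 (Or.inr ⟨i + 1, h', rfl⟩), he i h',
            by rw [rP i h, rP _ h']; omega⟩
        · exact ⟨b, (mem _).2 (Or.inl hb), hn, by rw [rT b hb, rP _ h]; omega⟩

lemma step (hB : Bip tv H) {S T : Finset V} {x t : V} {r : V → ℕ} (hxt : x ≠ t)
    (hG : Good H S x t T r) (hT : T ≠ S) : Sep H S x ∨ ∃ T' r', T ⊂ T' ∧ Good H S x t T' r' := by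
  obtain ⟨v0, h1, h2⟩ := exists_of_ssubset (hG.1.ssubset_of_ne hT)
  let G : SimpleGraph V :=
    { Adj := fun u v => H u v ∧ (u ∈ S ∧ u ∉ T) ∧ (v ∈ S ∧ v ∉ T)
      symm := ⟨fun u v h => ⟨hB.symm _ _ h.1, h.2.2, h.2.1⟩⟩
      loopless := ⟨fun u h => by simpa using hB.ty _ _ h.1⟩ }
  have hC : ∀ w, G.Reachable v0 w → w ∈ S ∧ w ∉ T := by
    intro w hw
    rw [SimpleGraph.reachable_iff_reflTransGen] at hw
    induction hw with
    | refl => exact ⟨h1, h2⟩
    | tail _ h _ => exact h.2.2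
  by_cases hN : ∃ a ∈ T, ∃ b ∈ T, r a < r b ∧ (∃ w, G.Reachable v0 w ∧ H w a) ∧
      ∃ w, G.Reachable v0 w ∧ H w b
  · obtain ⟨a, ha, b, hb, hab, ⟨a', a1, a2⟩, b', b1, b2⟩ := hN
    obtain ⟨q⟩ := a1.symm.trans b1
    refine Or.inr (ear hB hG ha hb hab (n := q.bypass.length) (p := q.bypass.getVert)
      (fun i _ => hC _ (a1.trans ⟨q.bypass.take i⟩)) q.bypass_isPath.getVert_injOn
      (fun i hi => (q.bypass.adj_getVert_succ hi).1) (by simpa using a2) (by simpa using b2))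
  · obtain ⟨y, hy, hy'⟩ : ∃ y ∈ T, ∀ a ∈ T, ∀ w, G.Reachable v0 w → H w a → a = y := by
      by_cases h : ∃ y ∈ T, ∃ w, G.Reachable v0 w ∧ H w y
      · obtain ⟨y, hy, hw⟩ := h
        refine ⟨y, hy, fun a ha w a1 a2 => hG.2.2.2.1 ha hy ?_⟩
        by_contra hne
        rcases lt_or_gt_of_ne hne with h | h
        · exact hN ⟨a, ha, y, hy, h, ⟨w, a1, a2⟩, hw⟩
        · exact hN ⟨y, hy, a, ha, h, hw, ⟨w, a1, a2⟩⟩
      · exact ⟨x, hG.2.1, fun a ha w a1 a2 => absurd ⟨a, ha, w, a1, a2⟩ h⟩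
    have nT : ∀ w ∈ T, ¬ G.Reachable v0 w := fun w hw h => (hC w h).2 hw
    have sub : insert y {w ∈ S | G.Reachable v0 w} ⊆ S :=
      insert_subset (hG.1 hy) (filter_subset _ _)
    refine Or.inl ⟨{w ∈ S | ¬ G.Reachable v0 w}, insert y {w ∈ S | G.Reachable v0 w}, y, ?_,
      ⟨filter_subset _ _, fun h => (mem_filter.1 (h h1)).2 SimpleGraph.Reachable.rfl⟩,
      ⟨sub, fun h => ?_⟩, mem_filter.2 ⟨hG.1 hG.2.1, nT _ hG.2.1⟩, mem_filter.2 ⟨hG.1 hy, nT _ hy⟩,
      mem_insert_self _ _, fun z a1 a2 => ?_, fun u a1 v a2 e => ?_⟩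
    · refine Subset.antisymm (union_subset (filter_subset _ _) sub) fun w hw => ?_
      by_cases h : G.Reachable v0 w <;> simp [hw, h]
    · have a1 := (mem_insert.1 (h (hG.1 hG.2.1))).resolve_right fun h' =>
        nT _ hG.2.1 (mem_filter.1 h').2
      have a2 := (mem_insert.1 (h (hG.1 hG.2.2.1))).resolve_right fun h' =>
        nT _ hG.2.2.1 (mem_filter.1 h').2
      exact hxt (a1.trans a2.symm)
    · exact (mem_insert.1 a2).resolve_right fun h => (mem_filter.1 a1).2 (mem_filter.1 h).2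
    · rcases mem_insert.1 a2 with h | h
      · exact Or.inr h
      · rw [mem_filter] at a1 h
        have e' : H v u := e.elim (hB.symm _ _) id
        by_cases hu : u ∈ T
        · exact Or.inl (hy' u hu v h.2 e')
        · exact absurd (h.2.trans (SimpleGraph.Adj.reachable ⟨e', hC v h.2, a1.1, hu⟩)) a1.2

lemma st_order (hB : Bip tv H) {S : Finset V} {x t : V} (hx : x ∈ S) (ht : t ∈ S) (hxt : x ≠ t) :
    Sep H S x ∨ ∃ r, Good H S x t S r := by
  by_contra hc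
  rw [not_or] at hc
  have key : ∀ n, ∃ T r, n ≤ #T ∧ Good H S x t T r := by
    intro n
    induction n with
    | zero =>
      refine ⟨{x, t}, fun v => if v = x then 0 else 1, Nat.zero_le _, by simp [insert_subset_iff, hx, ht],
        by simp, by simp, ?_, ?_, ?_⟩
      · intro u hu v hv e
        simp only [coe_insert, coe_singleton, Set.mem_insert_iff, Set.mem_singleton_iff] at hu hv
        rcases hu with rfl | rfl <;> rcases hv with rfl | rfl <;> simp_all [eq_comm]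
      · intro v _
        by_cases h : v = x <;> simp [h, hxt.symm]
      · intro v hv h1 h2
        simp [h1, h2] at hv
    | succ n ih =>
      obtain ⟨T, r, h1, h2⟩ := ih
      obtain ⟨T', r', h3, h4⟩ := (step hB hxt h2 (by
        rintro rfl; exact hc.2 ⟨r, h2⟩)).resolve_left hc.1
      exact ⟨T', r', Nat.succ_le_of_lt (h1.trans_lt (card_lt_card h3)), h4⟩
  obtain ⟨T, r, h1, h2⟩ := key (#S + 1)
  have := card_le_card h2.1
  omega

lemma dense_case (hB : Bip tv H) {S : Finset V} {x t : V} {r : V → ℕ} (hxt : H x t)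
    (hG : Good H S x t S r) (hd : ∀ v ∈ S, v ≠ x → 2 < #{u ∈ S | H v u}) :
    ∃ k, Up tv H S x k ∧ Lo tv H S x k := by
  obtain ⟨-, g2, g3, g4, g5, g6⟩ := hG
  let r2 : V → ℕ := fun w => if w = x then 0 else r t + 1 - r w
  have u1 := up_order hB r x S g2 g4 fun v hv => (g5 v hv).1
  have u2 := up_order hB r2 x S g2 (fun u hu v hv e => by
    have a1 := (g5 u hu).2
    have a2 := (g5 v hv).2
    simp only [r2] at e
    split_ifs at e with h1 h2 h2
    · rw [h1, h2]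
    · omega
    · omega
    · exact g4 hu hv (by omega)) fun v _ => by simp [r2]
  have hs : ∑ v ∈ S.erase x, (2 - #{u ∈ S | H v u ∧ r u < r v}) +
      ∑ v ∈ S.erase x, (2 - #{u ∈ S | H v u ∧ r2 u < r2 v}) ≤ #(S.erase x) := by
    rw [← sum_add_distrib, card_eq_sum_ones]
    refine sum_le_sum fun v hv => ?_
    obtain ⟨hvx, hv⟩ := mem_erase.1 hv
    have a0 := (g5 v hv).2
    have lt2 : ∀ u ∈ S, r v < r u → r2 u < r2 v := fun u hu h => by
      have := (g5 u hu).2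
      simp only [r2, if_neg hvx]
      split_ifs <;> omega
    have a1 : #{u ∈ S | H v u} ≤ #{u ∈ S | H v u ∧ r u < r v} + #{u ∈ S | H v u ∧ r v < r u} := by
      refine (card_le_card fun u hu => ?_).trans (card_union_le _ _)
      simp only [mem_filter, mem_union] at hu ⊢
      have : r u ≠ r v := fun e => by simpa [g4 hu.1 hv e] using hB.ty _ _ hu.2
      rcases lt_or_gt_of_ne this with h | h <;> simp [hu, h]
    have a2 : #{u ∈ S | H v u ∧ r v < r u} ≤ #{u ∈ S | H v u ∧ r2 u < r2 v} :=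
      card_le_card fun u hu => by
        rw [mem_filter] at hu ⊢
        exact ⟨hu.1, hu.2.1, lt2 u hu.1 hu.2.2⟩
    have a3 := hd v hv hvx
    by_cases hvt : v = t
    · subst hvt
      have b1 : #{u ∈ S | H v u ∧ r v < r u} = 0 := card_eq_zero.2 (filter_eq_empty_iff.2 fun u hu h => by
        have := (g5 u hu).2; omega)
      have b2 : 0 < #{u ∈ S | H v u ∧ r2 u < r2 v} := card_pos.2 ⟨x, mem_filter.2 ⟨g2,
        hB.symm _ _ hxt, by simp [r2, hvx]⟩⟩
      omega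
    · obtain ⟨⟨u, c1⟩, ⟨w, c2⟩⟩ := g6 v hv hvx hvt
      have b1 : 0 < #{u ∈ S | H v u ∧ r u < r v} := card_pos.2 ⟨u, mem_filter.2 c1⟩
      have b2 : 0 < #{u ∈ S | H v u ∧ r v < r u} := card_pos.2 ⟨w, mem_filter.2 c2⟩
      omega
  have l1 := lo_star hB g2 true
  have l2 := lo_star hB g2 false
  have hc : #(S.erase x) ≤ #{v ∈ S | tv v ≠ true ∧ v ≠ x} + #{v ∈ S | tv v ≠ false ∧ v ≠ x} := by
    refine (card_le_card fun u hu => ?_).trans (card_union_le _ _)
    simp only [mem_filter, mem_union, mem_erase] at hu ⊢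
    cases tv u <;> simp [hu]
  rcases le_total #{v ∈ S | tv v ≠ true ∧ v ≠ x} #{v ∈ S | tv v ≠ false ∧ v ≠ x} with h | h <;>
  rcases le_total (∑ v ∈ S.erase x, (2 - #{u ∈ S | H v u ∧ r u < r v}))
    (∑ v ∈ S.erase x, (2 - #{u ∈ S | H v u ∧ r2 u < r2 v})) with h' | h'
  · exact ⟨_, u1.mono (by omega), l2⟩
  · exact ⟨_, u2.mono (by omega), l2⟩
  · exact ⟨_, u1.mono (by omega), l1⟩
  · exact ⟨_, u2.mono (by omega), l1⟩

lemma rooted (hB : Bip tv H) (S : Finset V) : ∀ x ∈ S, ∃ k, Up tv H S x k ∧ Lo tv H S x k := by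
  induction S using Finset.strongInduction with
  | H S ih =>
    intro x hx
    by_cases h1 : ∃ v ∈ S, v ≠ x ∧ #{u ∈ S | H v u} ≤ 2
    · obtain ⟨v, hv, hvx, hd⟩ := h1
      have hx' : x ∈ S.erase v := mem_erase.2 ⟨hvx.symm, hx⟩
      obtain ⟨k, a1, a2⟩ := ih _ (erase_ssubset hv) x hx'
      have b1 := up_insert hB (v := v) hx' a1
      have b2 := lo_insert hB (v := v) hx' (notMem_erase _ _)
        ((card_le_card (filter_subset_filter _ (erase_subset _ _))).trans hd) a2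
      rw [insert_erase hv] at b1 b2
      exact ⟨_, b1, b2⟩
    · by_cases h2 : ∃ t ∈ S, H x t
      · obtain ⟨t, ht, hxt⟩ := h2
        rcases st_order hB hx ht (by rintro rfl; simpa using hB.ty _ _ hxt) with
          ⟨S1, S2, y, rfl, c1, c2, c3, c4, c5, c6, c7⟩ | ⟨r, hr⟩
        · obtain ⟨k, a1, a2⟩ := ih _ c1 x c3
          obtain ⟨l, b1, b2⟩ := ih _ c2 y c5
          exact ⟨_, up_sep c3 c4 c5 a1 b1, lo_sep c3 c4 c5 c6 c7 a2 b2⟩
        · exact dense_case hB hxt hr fun v hv hvx => not_le.1 fun h => h1 ⟨v, hv, hvx, h⟩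
      · obtain ⟨k, a1, a2⟩ : ∃ k, UpU tv H (S.erase x) k ∧ LoU tv H (S.erase x) k := by
          rcases (S.erase x).eq_empty_or_nonempty with h | ⟨y, hy⟩
          · rw [h]; exact ⟨0, upU_empty, loU_empty⟩
          · obtain ⟨k, a1, a2⟩ := ih _ (erase_ssubset hx) y hy
            exact ⟨_, up_un hy a1, lo_un hy a2⟩
        have b1 := up_iso (x := x) a1
        have b2 := lo_iso hB (notMem_erase x S) (fun u hu h => h2 ⟨u, mem_of_mem_erase hu, h⟩) a2
        rw [insert_erase hx] at b1 b2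
        exact ⟨_, b1, b2⟩

theorem total [Nonempty V] (hB : Bip tv H) : ∃ k C : ℕ, ∀ X : Pl,
    X.m ^ k ≤ #(Hom tv H X univ) ∧ #(Hom tv H X univ) ≤ C * X.m ^ k := by
  let Hq : (V → V) → V → V → Prop := fun q u w => ∃ u' w', q u' = u ∧ q w' = w ∧ H u' w'
  let Q : Finset (V → V) := {q | ∀ v, tv (q v) = tv v}
  have key : ∀ q : V → V, ∃ k, q ∈ Q → UpU tv (Hq q) (univ.image q) k ∧
      LoU tv (Hq q) (univ.image q) k := by
    intro q
    by_cases hq : q ∈ Q
    · have hq' : ∀ v, tv (q v) = tv v := by simpa [Q] using hq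
      have hB' : Bip tv (Hq q) := ⟨fun a b ⟨u, w, h1, h2, h3⟩ => ⟨w, u, h2, h1, hB.symm _ _ h3⟩,
        fun a b ⟨u, w, h1, h2, h3⟩ => by rw [← h1, ← h2, hq', hq', hB.ty _ _ h3]⟩
      have hy : q (Classical.arbitrary V) ∈ univ.image q := mem_image_of_mem _ (mem_univ _)
      obtain ⟨k, a1, a2⟩ := rooted hB' _ _ hy
      exact ⟨_, fun _ => ⟨up_un hy a1, lo_un hy a2⟩⟩
    · exact ⟨0, fun h => absurd h hq⟩
  choose k hk using key
  obtain ⟨q0, hq0, hmax⟩ := Q.exists_max_image k ⟨id, by simp [Q]⟩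
  have : ∀ q : V → V, ∃ C, q ∈ Q → ∀ X : Pl,
      #{f ∈ Hom tv (Hq q) X (univ.image q) | Set.InjOn f (univ.image q : Finset V)} ≤ C * X.m ^ k q0 := by
    intro q
    by_cases hq : q ∈ Q
    · obtain ⟨C, hC⟩ := (hk q hq).1
      exact ⟨C, fun _ X => (hC X).trans
        (Nat.mul_le_mul_left _ (Nat.pow_le_pow_right X.hm (hmax q hq)))⟩
    · exact ⟨0, fun h => absurd h hq⟩
  choose C hC using this
  have hm : ∀ (q : V → V) v, q v ∈ univ.image q := fun q v => mem_image_of_mem _ (mem_univ _)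
  refine ⟨k q0, ∑ q ∈ Q, C q, fun X => ⟨?_, ?_⟩⟩
  · have hq' : ∀ v, tv (q0 v) = tv v := by simpa [Q] using hq0
    refine ((hk q0 hq0).2 X).trans (card_le_card_of_injOn (fun g => g ∘ q0) (fun g hg => ?_)
      fun g hg g' hg' e => ?_)
    · simp only [mem_coe, mem_Hom] at hg ⊢
      exact ⟨fun v _ => (hg.1 _ (hm _ v)).trans (hq' v), fun u _ v _ e =>
        hg.2.1 _ (hm _ u) _ (hm _ v) ⟨u, v, rfl, rfl, e⟩, fun v hv => absurd (mem_univ v) hv⟩
    · simp only [mem_coe, mem_Hom] at hg hg'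
      funext u
      by_cases hu : u ∈ univ.image q0
      · obtain ⟨v, -, rfl⟩ := mem_image.1 hu
        exact congrFun e v
      · rw [hg.2.2 u hu, hg'.2.2 u hu]
  · have fq : ∀ (f : V → X.W) v, f (Function.invFun f (f v)) = f v := fun f v =>
      Function.invFun_eq ⟨v, rfl⟩
    rw [card_eq_sum_card_fiberwise (f := fun f v => Function.invFun f (f v)) (t := Q)
      (fun f hf => by
        simp only [mem_coe, mem_Hom] at hf
        simp only [Q, coe_filter, mem_univ, true_and, Set.mem_setOf_eq]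
        intro v
        rw [← hf.1 _ (mem_univ _), fq f v, hf.1 _ (mem_univ _)]), sum_mul]
    refine sum_le_sum fun q hq => le_trans (card_le_card_of_injOn (res X (univ.image q))
      (fun f hf => ?_) fun f hf g hg e => ?_) (hC q hq X)
    · simp only [coe_filter, Set.mem_setOf_eq, mem_Hom] at hf ⊢
      obtain ⟨⟨a1, a2, -⟩, rfl⟩ := hf
      refine ⟨⟨fun v hv => by rw [res_of hv]; exact a1 v (mem_univ _), ?_,
        fun v hv => if_neg hv⟩, fun u hu v hv e => ?_⟩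
      · rintro _ hu _ hv ⟨u, v, rfl, rfl, e⟩
        rw [res_of hu, res_of hv, fq f u, fq f v]
        exact a2 u (mem_univ _) v (mem_univ _) e
      · rw [res_of hu, res_of hv] at e
        obtain ⟨u, -, rfl⟩ := mem_image.1 hu
        obtain ⟨v, -, rfl⟩ := mem_image.1 hv
        rw [fq f u, fq f v] at e
        simp only [e]
    · simp only [coe_filter, Set.mem_setOf_eq] at hf hg
      funext v
      have := congrFun e (q v)
      rw [res_of (hm q v), res_of (hm q v)] at this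
      rw [← fq f v, ← fq g v, congrFun hf.2 v, congrFun hg.2 v, this]

end Pool.Agent.H3.Plane
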