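import Mathlib

set_option autoImplicit false
open scoped commutatorElement

namespace Pool.Agent.H3.Pro

section two
variable {B : Type} [Group B]

theorem two {H D : Subgroup B} {π : B} (hHD : H ≤ D) (hD : ∀ n ∈ D, π⁻¹ * n * π ∈ D)
    (hc : ∀ x ∈ H, ∀ n ∈ D, Commute x (π⁻¹ * n * π)) {c : B} (hcm : c ∈ ⁅H, H⁆) :
    ∃ n ∈ D, ∃ n' ∈ D, π ^ 2 * c = (π * (n'⁻¹ * π * n') * π⁻¹) * (n⁻¹ * π * n) := by
  let T : B → B → Prop := fun f r => f ∈ H ∧ r ∈ H ∧ ∃ n ∈ D, ∃ n' ∈ D,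
    (π⁻¹ * n⁻¹ * π * f * n) * (π⁻¹ * n'⁻¹ * π * r * n') = 1
  have e : ∀ x ∈ H, ∀ f ∈ H, ∀ n ∈ D, π⁻¹ * (f⁻¹ * (π⁻¹ * n * π))⁻¹ * π * (x * f) *
      (f⁻¹ * (π⁻¹ * n * π)) = x * (π⁻¹ * (π⁻¹ * n⁻¹ * π * f * n) * π) := by
    intro x hx f hf n hn
    have := (hc x hx _ (D.mul_mem (hD _ (D.inv_mem hn)) (hHD hf))).eq
    calc _ = (π⁻¹ * (π⁻¹ * n⁻¹ * π * f) * π * x) * (π⁻¹ * n * π) := by group
      _ = _ := by rw [← this]; group
  have step : ∀ x ∈ H, ∀ f r, T f r → T (x * f) (x⁻¹ * r) := by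
    rintro x hx f r ⟨hf, hr, n, hn, n', hn', h⟩
    refine ⟨H.mul_mem hx hf, H.mul_mem (H.inv_mem hx) hr, _,
      D.mul_mem (D.inv_mem (hHD hf)) (hD n hn), _, D.mul_mem (D.inv_mem (hHD hr)) (hD n' hn'), ?_⟩
    rw [e x hx f hf n hn, e _ (H.inv_mem hx) r hr n' hn']
    have := (hc x hx _ (D.mul_mem (D.mul_mem (hD _ (D.inv_mem hn)) (hHD hf)) hn)).eq
    rw [this]
    calc _ = π⁻¹ * ((π⁻¹ * n⁻¹ * π * f * n) * (π⁻¹ * n'⁻¹ * π * r * n')) * π := by group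
      _ = 1 := by rw [h]; group
  let K : Subgroup B :=
    { carrier := {c | ∀ f r, T f r → T f (c * r) ∧ T f (c⁻¹ * r)}
      one_mem' := fun f r h => by simpa using h
      mul_mem' := fun {a b} ha hb f r h => by
        rw [mul_inv_rev, mul_assoc, mul_assoc]
        exact ⟨(ha _ _ (hb _ _ h).1).1, (hb _ _ (ha _ _ h).2).2⟩
      inv_mem' := fun {a} ha f r h => by rw [inv_inv]; exact (ha f r h).symm }
  have g : ∀ a ∈ H, ∀ b ∈ H, ∀ f r, T f r → T f (⁅a, b⁆ * r) := by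
    intro a ha b hb f r h
    have := step _ (H.inv_mem ha) _ _ (step _ (H.inv_mem hb) _ _ (step _ (H.mul_mem hb ha) _ _ h))
    have e1 : a⁻¹ * (b⁻¹ * (b * a * f)) = f := by group
    have e2 : a⁻¹⁻¹ * (b⁻¹⁻¹ * ((b * a)⁻¹ * r)) = ⁅a, b⁆ * r := by
      rw [commutatorElement_def]; group
    rwa [e1, e2] at this
  have hK : ⁅H, H⁆ ≤ K := Subgroup.commutator_le.2 fun a ha b hb f r h =>
    ⟨g a ha b hb f r h, by rw [commutatorElement_inv]; exact g b hb a ha f r h⟩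
  obtain ⟨-, hr, n, hn, n', hn', h⟩ := (hK hcm 1 1
    ⟨H.one_mem, H.one_mem, 1, D.one_mem, 1, D.one_mem, by group⟩).2
  refine ⟨n, hn, n', hn', ?_⟩
  rw [mul_one] at hr
  have h2 := (hc _ hr _ (D.inv_mem hn')).eq
  have h3 : π⁻¹ * n⁻¹ * π * n = (c⁻¹ * (π⁻¹ * n'⁻¹ * π) * n')⁻¹ := by
    rw [h2]; apply eq_inv_of_mul_eq_one_left; rw [← h]; group
  calc π ^ 2 * c = π * n'⁻¹ * π * n' * (c⁻¹ * (π⁻¹ * n'⁻¹ * π) * n')⁻¹ := by
        rw [pow_two]; group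
    _ = _ := by rw [← h3]; group

end two

/-- order automorphisms of the line -/
abbrev A := ℝ ≃o ℝ

lemma ap (f g : A) (x : ℝ) : (f * g) x = f (g x) := rfl
lemma inv_ap (f : A) (x : ℝ) : f⁻¹ (f x) = x := f.symm_apply_apply x
lemma ap_inv (f : A) (x : ℝ) : f (f⁻¹ x) = x := f.apply_symm_apply x
lemma inv_eq {f : A} {x y : ℝ} (h : f x = y) : f⁻¹ y = x := by rw [← h, inv_ap]

/-- reflection -/
def kap : A →* A where
  toFun f := ⟨⟨fun x => -f (-x), fun x => -f⁻¹ (-x), fun x => by simp [inv_ap],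
    fun x => by simp [ap_inv]⟩, by intro a b; simp⟩
  map_one' := by ext x; simp
  map_mul' f g := by ext x; simp [ap]

lemma kap_ap (f : A) (x : ℝ) : kap f x = -f (-x) := rfl
@[simp] lemma kap_kap (f : A) : kap (kap f) = f := by ext x; simp [kap_ap]

lemma slope_pos {f : A} {a ε k : ℝ} (hε : 0 < ε)
    (h : ∀ x, a ≤ x → x ≤ a + ε → f x = f a + k * (x - a)) : 0 < k := by
  have h1 := h (a + ε) (by linarith) le_rfl
  have h2 := f.strictMono (show a < a + ε by linarith)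
  by_contra hk
  nlinarith [not_lt.1 hk]

/-- right-linear maps -/
def RL : Subgroup A where
  carrier := {f | ∀ a, ∃ ε > 0, ∃ k, ∀ x, a ≤ x → x ≤ a + ε → f x = f a + k * (x - a)}
  one_mem' := fun a => ⟨1, one_pos, 1, fun x _ _ => by simp⟩
  mul_mem' := by
    intro f g hf hg a
    obtain ⟨ε, hε, k, h⟩ := hg a
    obtain ⟨δ, hδ, l, h'⟩ := hf (g a)
    have hk := slope_pos hε h
    refine ⟨min ε (δ / k), by positivity, l * k, fun x h1 h2 => ?_⟩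
    have h3 : x - a ≤ δ / k := by linarith [min_le_right ε (δ / k)]
    rw [le_div_iff₀ hk] at h3
    rw [ap, ap, h x h1 (by linarith [min_le_left ε (δ / k)]), h' _ (by nlinarith) (by nlinarith)]
    ring
  inv_mem' := by
    intro f hf b
    obtain ⟨ε, hε, k, h⟩ := hf (f⁻¹ b)
    have hk := slope_pos hε h
    refine ⟨k * ε, by positivity, k⁻¹, fun y h1 h2 => inv_eq ?_⟩
    have h3 : k⁻¹ * (y - b) ≤ ε := by rw [inv_mul_le_iff₀ hk]; linarith
    have h4 : 0 ≤ k⁻¹ * (y - b) := mul_nonneg (by positivity) (by linarith)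
    rw [h _ (by linarith) (by linarith), ap_inv]; field_simp; ring

/-- maps fixing a set pointwise -/
def Fx (S : Set ℝ) : Subgroup A where
  carrier := {f | ∀ x ∈ S, f x = x}
  one_mem' := fun _ _ => rfl
  mul_mem' := fun {f g} hf hg x hx => by rw [ap, hg x hx, hf x hx]
  inv_mem' := fun {f} hf x hx => inv_eq (hf x hx)

/-- maps supported in an interval -/
def Sp (s t : ℝ) : Subgroup A := Fx {x | x ≤ s ∨ t ≤ x}

lemma Sp.mono {s t s' t' : ℝ} (h1 : s' ≤ s) (h2 : t ≤ t') : Sp s t ≤ Sp s' t' :=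
  fun _ hf x hx => hf x (hx.imp (fun h => h.trans h1) (fun h => h2.trans h))

lemma Sp.kap {s t : ℝ} {f : A} (h : f ∈ Sp s t) : kap f ∈ Sp (-t) (-s) := fun x hx => by
  rw [kap_ap, h (-x) (hx.symm.imp (fun h => by linarith) (fun h => by linarith)), neg_neg]

lemma Sp.conj {s t : ℝ} {f : A} (h : f ∈ Sp s t) (g : A) : g * f * g⁻¹ ∈ Sp (g s) (g t) := by
  intro x hx
  rw [ap, ap, h _ (hx.imp (fun h => by simpa [inv_ap] using g⁻¹.monotone h)
    (fun h => by simpa [inv_ap] using g⁻¹.monotone h)), ap_inv]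

/-- bounded support -/
def Bd : Subgroup A where
  carrier := {f | ∃ R, f ∈ Sp (-R) R}
  one_mem' := ⟨0, (Sp _ _).one_mem⟩
  mul_mem' := by
    rintro f g ⟨R, h⟩ ⟨S, h'⟩
    exact ⟨max R S, (Sp _ _).mul_mem (Sp.mono (by simp) (by simp) h)
      (Sp.mono (by simp) (by simp) h')⟩
  inv_mem' := fun ⟨R, h⟩ => ⟨R, (Sp _ _).inv_mem h⟩

/-- piecewise linear maps with bounded support -/
def Gam : Subgroup A := RL ⊓ RL.comap kap ⊓ Bd

lemma Gam.kap {f : A} (h : f ∈ Gam) : kap f ∈ Gam := by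
  obtain ⟨⟨h1, h2⟩, R, h3⟩ := h
  exact ⟨⟨h2, by simpa using h1⟩, R, by simpa using Sp.kap h3⟩

lemma Gam.bd {f : A} (h : f ∈ Gam) (c : ℝ) : ∃ R, c < R ∧ f ∈ Sp (-R) R := by
  obtain ⟨-, R, h⟩ := h
  exact ⟨max R (c + 1), lt_max_of_lt_right (by linarith), Sp.mono (by simp) (by simp) h⟩

lemma comm {f g : A} {t : ℝ} (hf : ∀ x, t ≤ x → f x = x) (hg : ∀ x, x ≤ t → g x = x) :
    Commute f g := by
  ext x
  rw [ap, ap]
  rcases le_total x t with h | h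
  · rw [hg x h, hg _ ((f.monotone h).trans (hf t le_rfl).le)]
  · rw [hf x h, hf _ ((hg t le_rfl).ge.trans (g.monotone h))]

lemma glue (f g : A) (a : ℝ) (h : f a = g a) :
    ∃ k : A, (∀ x, x ≤ a → k x = f x) ∧ ∀ x, a ≤ x → k x = g x := by
  classical
  refine ⟨StrictMono.orderIsoOfSurjective (fun x => if x ≤ a then f x else g x) ?_ ?_, ?_, ?_⟩
  · intro x y hxy
    dsimp only
    split_ifs with h1 h2 h2
    · exact f.strictMono hxy
    · exact (f.monotone h1).trans_lt (h ▸ g.strictMono (not_le.1 h2))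
    · exact absurd (hxy.le.trans h2) h1
    · exact g.strictMono hxy
  · intro y
    by_cases hy : y ≤ f a
    · exact ⟨f⁻¹ y, by
        have : f⁻¹ y ≤ a := by simpa [inv_ap] using f⁻¹.monotone hy
        simp [this, ap_inv]⟩
    · exact ⟨g⁻¹ y, by
        have : ¬ g⁻¹ y ≤ a := fun e => hy (by simpa [ap_inv, h] using g.monotone e)
        simp [this, ap_inv]⟩
  · intro x hx; simp [hx]
  · intro x hx
    rcases hx.eq_or_lt with rfl | hx
    · simp [h]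
    · simp [not_le.2 hx]

lemma RL.glue {f g k : A} {a : ℝ} (hf : f ∈ RL) (hg : g ∈ RL) (h1 : ∀ x, x ≤ a → k x = f x)
    (h2 : ∀ x, a ≤ x → k x = g x) : k ∈ RL := by
  intro b
  rcases lt_or_ge b a with h | h
  · obtain ⟨ε, hε, l, hl⟩ := hf b
    refine ⟨min ε (a - b), lt_min hε (by linarith), l, fun x h3 h4 => ?_⟩
    rw [h1 x (by linarith [min_le_right ε (a - b)]), h1 b h.le,
      hl x h3 (by linarith [min_le_left ε (a - b)])]
  · obtain ⟨ε, hε, l, hl⟩ := hg b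
    exact ⟨ε, hε, l, fun x h3 h4 => by rw [h2 x (h.trans h3), h2 b h, hl x h3 h4]⟩

/-- both-sided linear -/
def PL (f : A) : Prop := f ∈ RL ∧ kap f ∈ RL

lemma PL.glue {f g : A} {a : ℝ} (hf : PL f) (hg : PL g) (h : f a = g a) :
    ∃ k : A, PL k ∧ (∀ x, x ≤ a → k x = f x) ∧ ∀ x, a ≤ x → k x = g x := by
  obtain ⟨k, h1, h2⟩ := Pro.glue f g a h
  refine ⟨k, ⟨RL.glue hf.1 hg.1 h1 h2, RL.glue (a := -a) hg.2 hf.2 ?_ ?_⟩, h1, h2⟩
  · intro x hx; rw [kap_ap, kap_ap, h2 _ (by linarith)]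
  · intro x hx; rw [kap_ap, kap_ap, h1 _ (by linarith)]

lemma aff {a b c d : ℝ} (h1 : a < b) (h2 : c < d) : ∃ f : A, PL f ∧ f a = c ∧ f b = d := by
  have hk : 0 < (d - c) / (b - a) := div_pos (by linarith) (by linarith)
  let f : A := StrictMono.orderIsoOfSurjective (fun x => c + (d - c) / (b - a) * (x - a))
    (fun x y h => by dsimp only; nlinarith)
    (fun y => ⟨a + (y - c) / ((d - c) / (b - a)), by
      dsimp only; rw [add_sub_cancel_left, mul_div_cancel₀ _ hk.ne']; ring⟩)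
  have hf : ∀ x, f x = c + (d - c) / (b - a) * (x - a) := fun _ => rfl
  refine ⟨f, ⟨fun e => ⟨1, one_pos, (d - c) / (b - a), fun x _ _ => ?_⟩,
    fun e => ⟨1, one_pos, (d - c) / (b - a), fun x _ _ => ?_⟩⟩, by simp [hf], ?_⟩
  · rw [hf, hf]; ring
  · rw [kap_ap, kap_ap, hf, hf]; ring
  · have : b - a ≠ 0 := by linarith
    rw [hf]; field_simp; ring

lemma move {p q a c : ℝ} (h1 : p < a) (h2 : a < q) (h3 : p < c) (h4 : c < q) :
    ∃ g ∈ Gam, g ∈ Sp p q ∧ g a = c := by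
  have one : PL 1 := ⟨RL.one_mem, by simpa using RL.one_mem⟩
  obtain ⟨f1, a1, b1, c1⟩ := aff h1 h3
  obtain ⟨f2, a2, b2, c2⟩ := aff h2 h4
  obtain ⟨k1, d1, e1, g1⟩ := a2.glue one (a := q) c2
  obtain ⟨k2, d2, e2, g2⟩ := a1.glue d1 (a := a) (by rw [c1, e1 a h2.le, b2])
  obtain ⟨k3, d3, e3, g3⟩ := one.glue d2 (a := p) (by rw [e2 p h1.le, b1]; rfl)
  have hs : k3 ∈ Sp p q := by
    rintro x (hx | hx)
    · exact e3 x hx
    · rw [g3 x (by linarith), g2 x (by linarith), g1 x hx]; rfl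
  refine ⟨k3, ⟨d3, max |p| |q|, Sp.mono ?_ ?_ hs⟩, hs, by rw [g3 a h1.le, e2 a le_rfl, c1]⟩
  · linarith [le_max_left |p| |q|, neg_abs_le p]
  · exact le_max_of_le_right (le_abs_self q)

lemma trans1 (a c : ℝ) : ∃ g ∈ Gam, g a = c := by
  obtain ⟨g, h1, -, h2⟩ := move (p := min a c - 1) (q := max a c + 1) (a := a) (c := c)
    (by linarith [min_le_left a c]) (by linarith [le_max_left a c])
    (by linarith [min_le_right a c]) (by linarith [le_max_right a c])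
  exact ⟨g, h1, h2⟩

lemma ext1 {g : A} (hg : g ∈ Gam) {b c c' : ℝ} (h : b < c) (h' : g b < c') :
    ∃ k ∈ Gam, (∀ x, x ≤ b → k x = g x) ∧ k c = c' := by
  obtain ⟨m, h1, h2, h3⟩ := move (p := g b) (q := max (g c) c' + 1) (a := g c) (c := c')
    (g.strictMono h) (by linarith [le_max_left (g c) c']) h' (by linarith [le_max_right (g c) c'])
  exact ⟨m * g, Gam.mul_mem h1 hg, fun x hx => h2 _ (Or.inl (g.monotone hx)), h3⟩

lemma trans2 {a b a' b' : ℝ} (h : a < b) (h' : a' < b') : ∃ g ∈ Gam, g a = a' ∧ g b = b' := by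
  obtain ⟨g, h1, h2⟩ := trans1 a a'
  obtain ⟨k, h3, h4, h5⟩ := ext1 h1 h (h2 ▸ h')
  exact ⟨k, h3, by rw [h4 a le_rfl, h2], h5⟩

lemma trans3 {a b c a' b' c' : ℝ} (h : a < b) (h' : a' < b') (i : b < c) (i' : b' < c') :
    ∃ g ∈ Gam, g a = a' ∧ g b = b' ∧ g c = c' := by
  obtain ⟨g, h1, h2, h2'⟩ := trans2 h h'
  obtain ⟨k, h3, h4, h5⟩ := ext1 h1 i (h2' ▸ i')
  exact ⟨k, h3, by rw [h4 a h.le, h2], by rw [h4 b le_rfl, h2'], h5⟩

/-- the commutator subgroup -/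
def GG : Subgroup A := ⁅Gam, Gam⁆

lemma GG_le : GG ≤ Gam := Subgroup.commutator_le.2 fun a ha b hb => by
  rw [commutatorElement_def]
  exact Gam.mul_mem (Gam.mul_mem (Gam.mul_mem ha hb) (Gam.inv_mem ha)) (Gam.inv_mem hb)

lemma conj_G {f g : A} (hf : f ∈ Gam) (hg : g ∈ Gam) :
    ∃ k ∈ GG, k * f * k⁻¹ = g * f * g⁻¹ := by
  obtain ⟨R, -, h1⟩ := Gam.bd hf 0
  obtain ⟨S, hS, h2⟩ := Gam.bd hg R
  obtain ⟨h, h3, h4⟩ := trans1 (-S) S
  refine ⟨⁅g, h⁆, Subgroup.commutator_mem_commutator hg h3, ?_⟩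
  have h5 := Sp.conj ((Sp _ _).inv_mem h2) h
  rw [h4] at h5
  have := (comm (f := f) (t := S) (fun x hx => h1 x (Or.inr (by linarith)))
    (fun x hx => h5 x (Or.inl hx))).eq
  rw [commutatorElement_def]
  calc _ = g * ((h * g⁻¹ * h⁻¹) * f) * (h * g⁻¹ * h⁻¹)⁻¹ * g⁻¹ := by group
    _ = _ := by rw [← this]; group

theorem simple : IsSimpleGroup GG := by
  haveI : Nontrivial GG := by
    obtain ⟨a, a1, a2, a3⟩ := move (p := 0) (q := 3) (a := 1) (c := 2) (by norm_num) (by norm_num)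
      (by norm_num) (by norm_num)
    obtain ⟨b, b1, b2, b3⟩ := move (p := 1) (q := 4) (a := 2) (c := 3) (by norm_num) (by norm_num)
      (by norm_num) (by norm_num)
    refine ⟨⟨⁅a, b⁆, Subgroup.commutator_mem_commutator a1 b1⟩, 1, fun h => ?_⟩
    have h1 : a * b = b * a := commutatorElement_eq_one_iff_mul_comm.1 (congrArg Subtype.val h)
    have h2 := congrArg (fun f : A => f 1) h1
    simp only [ap] at h2
    rw [b2 1 (Or.inl le_rfl), a3, b3] at h2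
    norm_num at h2
  refine ⟨fun N hN => ?_⟩
  by_cases hb : N = ⊥
  · exact Or.inl hb
  right
  let M := N.map GG.subtype
  have hM : ∀ f ∈ M, ∀ g ∈ Gam, g * f * g⁻¹ ∈ M := by
    rintro _ ⟨f, hf, rfl⟩ g hg
    obtain ⟨k, hk, e⟩ := conj_G (GG_le f.2) hg
    exact ⟨_, hN.conj_mem f hf ⟨k, hk⟩, e⟩
  obtain ⟨f, hf, x, hx⟩ : ∃ f ∈ M, ∃ x, x < f x := by
    obtain ⟨⟨f, hf⟩, h1⟩ := (Subgroup.ne_bot_iff_exists_ne_one.1 hb)
    obtain ⟨x, hx⟩ : ∃ x, (f : A) x ≠ x := by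
      by_contra hc
      push Not at hc
      exact h1 (Subtype.ext (Subtype.ext (by ext x; exact hc x)))
    rcases lt_or_gt_of_ne hx with h | h
    · exact ⟨_, M.inv_mem ⟨f, hf, rfl⟩, x, by simpa [inv_ap] using (f : A)⁻¹.strictMono h⟩
    · exact ⟨_, ⟨f, hf, rfl⟩, x, h⟩
  have key : ∀ a ∈ Gam, ∀ b ∈ Gam, a ∈ Sp x (f x) → b ∈ Sp x (f x) → ⁅a, b⁆ ∈ M := by
    intro a ha b hb sa sb
    have c1 : a * f * a⁻¹ * f⁻¹ ∈ M := M.mul_mem (hM f hf a ha) (M.inv_mem hf)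
    have c2 := M.mul_mem c1 (hM _ (M.inv_mem c1) b hb)
    have s := Sp.conj ((Sp _ _).inv_mem sa) f
    have e := (comm (f := b) (t := f x) (fun y hy => sb y (Or.inr hy))
      (fun y hy => s y (Or.inl hy))).eq
    have : a * f * a⁻¹ * f⁻¹ * (b * (a * f * a⁻¹ * f⁻¹)⁻¹ * b⁻¹) = ⁅a, b⁆ := by
      rw [commutatorElement_def]
      calc _ = a * ((f * a⁻¹ * f⁻¹) * b) * (f * a⁻¹ * f⁻¹)⁻¹ * a⁻¹ * b⁻¹ := by group
        _ = _ := by rw [← e]; group
    rwa [this] at c2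
  have hle : GG ≤ M := Subgroup.commutator_le.2 fun a ha b hb => by
    obtain ⟨R, -, h1⟩ := Gam.bd ha 0
    obtain ⟨S, hS, h2⟩ := Gam.bd hb (max R 0)
    have hR := le_max_left R 0
    have h0 := le_max_right R 0
    obtain ⟨g, g1, g2, g3⟩ := trans2 (show -S < S by linarith) hx
    have := hM _ (key _ (Gam.mul_mem (Gam.mul_mem g1 ha) (Gam.inv_mem g1)) _
      (Gam.mul_mem (Gam.mul_mem g1 hb) (Gam.inv_mem g1))
      (by simpa [g2, g3] using Sp.conj (Sp.mono (s' := -S) (t' := S)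
            (by linarith) (by linarith) h1) g)
      (by simpa [g2, g3] using Sp.conj h2 g)) _ (Gam.inv_mem g1)
    have e : g⁻¹ * ⁅g * a * g⁻¹, g * b * g⁻¹⁆ * g⁻¹⁻¹ = ⁅a, b⁆ := by
      simp only [commutatorElement_def]; group
    rwa [e] at this
  rw [eq_top_iff]
  intro y _
  obtain ⟨z, hz, e⟩ := hle y.2
  rwa [← Subtype.ext e]

end Pool.Agent.H3.Pro
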