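import Pool.Agent.H3.ProA

set_option autoImplicit false
open scoped commutatorElement

namespace Pool.Agent.H3.Pro

/-- germ at the left end of the support -/
def LS (f : A) (a l : ℝ) : Prop :=
  (∀ x, x ≤ a → f x = x) ∧ ∃ ε > 0, ∀ x, a ≤ x → x ≤ a + ε → f x = a + l * (x - a)

lemma LS.pos {f : A} {a l : ℝ} (h : LS f a l) : 0 < l := by
  obtain ⟨h1, ε, hε, h2⟩ := h
  exact slope_pos (f := f) (a := a) hε (by rw [h1 a le_rfl]; exact h2)

lemma LS.mul {f g : A} {a l m : ℝ} (h : LS f a l) (h' : LS g a m) : LS (f * g) a (l * m) := by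
  have hm := h'.pos
  obtain ⟨h1, ε, hε, h2⟩ := h
  obtain ⟨h3, δ, hδ, h4⟩ := h'
  refine ⟨fun x hx => by rw [ap, h3 x hx, h1 x hx], min δ (ε / m), by positivity, fun x i j => ?_⟩
  have h5 : x - a ≤ ε / m := by linarith [min_le_right δ (ε / m)]
  rw [le_div_iff₀ hm] at h5
  rw [ap, h4 x i (by linarith [min_le_left δ (ε / m)]), h2 _ (by nlinarith) (by nlinarith)]
  ring

lemma LS.of_fix {g : A} {a b : ℝ} (h : a < b) (hg : ∀ x, x ≤ b → g x = x) : LS g a 1 :=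
  ⟨fun x hx => hg x (hx.trans h.le), b - a, by linarith, fun x _ j => by
    rw [hg x (by linarith)]; ring⟩

lemma LS.pow {f : A} {a l : ℝ} (h : LS f a l) (n : ℕ) : LS (f ^ n) a (l ^ n) := by
  induction n with
  | zero => simpa using LS.of_fix (g := 1) (lt_add_one a) (fun _ _ => rfl)
  | succ n ih => rw [pow_succ, pow_succ]; exact ih.mul h

lemma LS.inv {f : A} {a l : ℝ} (h : LS f a l) : LS f⁻¹ a l⁻¹ := by
  have hl := h.pos
  obtain ⟨h1, ε, hε, h2⟩ := h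
  refine ⟨fun x hx => inv_eq (h1 x hx), l * ε, by positivity, fun y i j => inv_eq ?_⟩
  have h3 : l⁻¹ * (y - a) ≤ ε := by rw [inv_mul_le_iff₀ hl]; linarith
  have h4 : 0 ≤ l⁻¹ * (y - a) := mul_nonneg (by positivity) (by linarith)
  rw [h2 _ (by linarith) (by linarith)]; field_simp; ring

lemma LS.conj {f g : A} {a l : ℝ} (h : LS f a l) (hg : g ∈ Gam) : LS (g * f * g⁻¹) (g a) l := by
  have hl := h.pos
  obtain ⟨h1, ε, hε, h2⟩ := h
  obtain ⟨δ, hδ, k, h3⟩ := hg.1.1 a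
  have hk := slope_pos hδ h3
  refine ⟨fun x hx => ?_, k * min ε (min δ (δ / l)), by positivity, fun y i j => ?_⟩
  · rw [ap, ap, h1 _ (by simpa [inv_ap] using g⁻¹.monotone hx), ap_inv]
  · set η := min ε (min δ (δ / l))
    have a1 : η ≤ ε := min_le_left _ _
    have a2 : η ≤ δ := (min_le_right _ _).trans (min_le_left _ _)
    have a3 : η * l ≤ δ := (le_div_iff₀ hl).1 ((min_le_right _ _).trans (min_le_right _ _))
    have b1 : k⁻¹ * (y - g a) ≤ η := by rw [inv_mul_le_iff₀ hk]; linarith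
    have b2 : 0 ≤ k⁻¹ * (y - g a) := mul_nonneg (by positivity) (by linarith)
    have e : g⁻¹ y = a + k⁻¹ * (y - g a) := inv_eq (by
      rw [h3 _ (by linarith) (by linarith)]; field_simp; ring)
    rw [ap, ap, e, h2 _ (by linarith) (by linarith), h3 _ (by nlinarith) (by nlinarith)]
    field_simp; ring

lemma exLS {f : A} (hf : f ∈ Gam) (h1 : f ≠ 1) : ∃ a l, l ≠ 1 ∧ LS f a l := by
  obtain ⟨R, -, hR⟩ := Gam.bd hf 0
  have hne : {x | f x ≠ x}.Nonempty := by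
    by_contra hc
    exact h1 (by ext x; by_contra e; exact hc ⟨x, e⟩)
  have hbd : BddBelow {x | f x ≠ x} := ⟨-R, fun x hx => by
    by_contra e; exact hx (hR x (Or.inl (not_le.1 e).le))⟩
  set a := sInf {x | f x ≠ x}
  have lt : ∀ x, x < a → f x = x := fun x hx => by
    by_contra e; exact absurd (csInf_le hbd e) (not_le.2 hx)
  have fa : f a = a := by
    rcases lt_trichotomy (f a) a with h | h | h
    · exact f.injective (lt _ h)
    · exact h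
    · have h2 : f⁻¹ a < a := by simpa [inv_ap] using f⁻¹.strictMono h
      have := lt _ h2
      rw [ap_inv] at this
      exact absurd this h2.ne'
  have le : ∀ x, x ≤ a → f x = x := fun x hx => hx.eq_or_lt.elim (fun e => e ▸ fa) (lt x)
  obtain ⟨ε, hε, l, hl⟩ := hf.1.1 a
  rw [fa] at hl
  refine ⟨a, l, ?_, le, ε, hε, hl⟩
  rintro rfl
  have : a + ε ≤ a := le_csInf hne fun x hx => by
    by_contra e
    rcases le_total x a with h | h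
    · exact hx (le x h)
    · exact hx (by rw [hl x h (not_le.1 e).le]; ring)
  linarith

lemma LS.mul' {f g : A} {a b l m : ℝ} (h : LS f a l) (h' : LS g b m) :
    ∃ c, LS (f * g) c l ∨ LS (f * g) c m ∨ LS (f * g) c (l * m) := by
  rcases lt_trichotomy a b with e | rfl | e
  · exact ⟨a, Or.inl (by simpa using h.mul (LS.of_fix e h'.1))⟩
  · exact ⟨a, Or.inr (Or.inr (h.mul h'))⟩
  · exact ⟨b, Or.inr (Or.inl (by simpa using (LS.of_fix e h.1).mul h'))⟩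

lemma LS.one {a l : ℝ} (h : LS 1 a l) : l = 1 := by
  obtain ⟨-, ε, hε, h2⟩ := h
  have := h2 (a + ε) (by linarith) le_rfl
  have e : (1 : A) (a + ε) = a + ε := rfl
  rw [e] at this
  exact mul_right_cancel₀ hε.ne' (by linarith)

lemma pw_up {g : A} {a : ℝ} (h : a ≤ g a) (n : ℕ) : a ≤ (g ^ n) a := by
  induction n with
  | zero => exact le_rfl
  | succ n ih => rw [pow_succ', ap]; exact h.trans (g.monotone ih)

lemma escape {g : A} {a b : ℝ} (hab : a ≤ b) (h : ∀ x, a ≤ x → x ≤ b → x < g x) :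
    ∃ N : ℕ, ∀ n, N ≤ n → b < (g ^ n) a := by
  have ha := (h a le_rfl hab).le
  obtain ⟨N, hN⟩ : ∃ N : ℕ, b < (g ^ N) a := by
    by_contra hc
    push Not at hc
    have hbd : BddAbove (Set.range fun n : ℕ => (g ^ n) a) := ⟨b, by rintro _ ⟨n, rfl⟩; exact hc n⟩
    set L := ⨆ n : ℕ, (g ^ n) a
    have h1 := h L ((pw_up ha 0).trans (le_ciSup hbd 0)) (ciSup_le hc)
    have h2 : g⁻¹ L < L := by simpa [inv_ap] using g⁻¹.strictMono h1
    obtain ⟨n, hn⟩ := exists_lt_of_lt_ciSup h2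
    have h3 : L < (g ^ (n + 1)) a := by simpa [pow_succ', ap, ap_inv] using g.strictMono hn
    exact absurd (le_ciSup hbd (n + 1)) (not_le.2 h3)
  refine ⟨N, fun n hn => hN.trans_le ?_⟩
  obtain ⟨d, rfl⟩ := Nat.exists_eq_add_of_le hn
  rw [pow_add, ap]; exact (g ^ N).monotone (pw_up ha d)

lemma nf {f : A} {a l : ℝ} (hf : f ∈ Gam) (h : LS f a l) : ∃ g ∈ Gam, LS (g * f * g⁻¹) (-2) l ∧
    g * f * g⁻¹ ∈ Sp (-2) 1 ∧ ∀ x, -2 < x → x ≤ 0 →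
      (1 < l → x < (g * f * g⁻¹) x) ∧ (l < 1 → (g * f * g⁻¹) x < x) := by
  obtain ⟨h1, ε, hε, h2⟩ := id h
  obtain ⟨R, hR, hs⟩ := Gam.bd hf (a + ε)
  obtain ⟨g, g1, g2, g3, g4⟩ := trans3 (a := a) (b := a + ε) (c := R) (a' := -2) (b' := 0)
    (c' := 1) (by linarith) (by norm_num) hR one_pos
  have hs' : f ∈ Sp a R := fun x hx => hx.elim (h1 x) (fun e => hs x (Or.inr e))
  refine ⟨g, g1, g2 ▸ h.conj g1, by simpa [g2, g4] using Sp.conj hs' g, fun x i j => ?_⟩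
  have i' : a < g⁻¹ x := by simpa [inv_eq g2] using g⁻¹.strictMono i
  have j' : g⁻¹ x ≤ a + ε := by simpa [inv_eq g3] using g⁻¹.monotone j
  rw [ap, ap, h2 _ i'.le j']
  constructor
  · intro hl
    have := g.strictMono (show g⁻¹ x < a + l * (g⁻¹ x - a) by nlinarith)
    rwa [ap_inv] at this
  · intro hl
    have := g.strictMono (show a + l * (g⁻¹ x - a) < g⁻¹ x by nlinarith)
    rwa [ap_inv] at this

lemma build {Q : Set A} (hQ : ∀ f ∈ Q, f ∈ Gam) (q1 : 1 ∈ Q) (q2 : ∀ f ∈ Q, ∀ g ∈ Q, f * g ∈ Q)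
    (q3 : ∀ f ∈ Q, ∀ g ∈ Gam, g * f * g⁻¹ ∈ Q) {f z : A} {a b l m : ℝ} (hf : f ∈ Q) (hz : z ∈ Q)
    (h1 : LS f a l) (h2 : LS (kap z) b m) (hl : 1 < l) (hm : m < 1) :
    ∃ N : ℕ, ∀ n, N ≤ n → ∃ p ∈ Q, p ∈ Sp (-2) 2 ∧ (∀ x, -2 < x → x < 2 → x < p x) ∧
      LS p (-2) (l ^ n) ∧ LS (kap p) (-2) (m ^ n) := by
  have qp : ∀ f ∈ Q, ∀ n : ℕ, f ^ n ∈ Q := by
    intro f hf n
    induction n with
    | zero => simpa using q1
    | succ n ih => rw [pow_succ]; exact q2 _ ih _ hf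
  obtain ⟨g, g1, g2, g3, g4⟩ := nf (hQ f hf) h1
  obtain ⟨k, k1, k2, k3, k4⟩ := nf (Gam.kap (hQ z hz)) h2
  have hF := q3 f hf g g1
  have hZ := q3 z hz _ (Gam.kap k1)
  have eZ : kap (kap k * z * (kap k)⁻¹) = k * kap z * k⁻¹ := by simp
  generalize g * f * g⁻¹ = F at *
  generalize kap k * z * (kap k)⁻¹ = Z at *
  rw [← eZ] at k2 k3 k4
  have sZ : Z ∈ Sp (-1) 2 := by simpa using Sp.kap k3
  have uF : ∀ x, -2 < x → x ≤ 0 → x < F x := fun x i j => (g4 x i j).1 hl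
  have uZ : ∀ x, 0 ≤ x → x < 2 → x < Z x := fun x i j => by
    have := (k4 (-x) (by linarith) (by linarith)).2 hm
    rw [kap_ap, neg_neg] at this; linarith
  obtain ⟨N1, n1⟩ := escape (g := F) (a := -1) (b := 0) (by norm_num)
    (fun x i j => uF x (by linarith) j)
  obtain ⟨N2, n2⟩ := escape (g := Z) (a := 0) (b := 1) (by norm_num)
    (fun x i j => uZ x i (by linarith))
  refine ⟨max (max N1 N2) 1, fun n hn => ?_⟩
  have m1 := n1 n (by omega)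
  have m2 := n2 n (by omega)
  have sF' := (Sp _ _).pow_mem g3 n
  have sZ' := (Sp _ _).pow_mem sZ n
  have st : ∀ (g : A) x, x < g x → x < (g ^ n) x := by
    intro g x hx
    obtain ⟨d, rfl⟩ : ∃ d, n = d + 1 := ⟨n - 1, by omega⟩
    rw [pow_succ', ap]; exact hx.trans_le (g.monotone (pw_up hx.le d))
  refine ⟨F ^ n * Z ^ n, q2 _ (qp _ hF n) _ (qp _ hZ n), (Sp _ _).mul_mem
    (Sp.mono le_rfl (by norm_num) sF') (Sp.mono (by norm_num) le_rfl sZ'), fun x i j => ?_, ?_, ?_⟩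
  · rw [ap]
    rcases le_total x (-1) with h | h
    · rw [sZ' x (Or.inl h)]; exact st F x (uF x i (by linarith))
    rcases le_total x 0 with h' | h'
    · have : (-1 : ℝ) ≤ (Z ^ n) x := by
        simpa [sZ' (-1) (Or.inl le_rfl)] using (Z ^ n).monotone h
      exact (h'.trans_lt m1).trans_le ((F ^ n).monotone this)
    have h3 : 1 ≤ (Z ^ n) x := m2.le.trans ((Z ^ n).monotone h')
    rw [sF' _ (Or.inr h3)]
    exact st Z x (uZ x h' j)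
  · simpa using (g2.pow n).mul (LS.of_fix (b := -1) (by norm_num) fun x hx => sZ' x (Or.inl hx))
  · rw [map_mul, map_pow kap Z]
    simpa using (LS.of_fix (b := -1) (by norm_num) fun x hx =>
      Sp.kap sF' x (Or.inl hx)).mul (k2.pow n)

lemma loc {u : A} (hu : u ∈ GG) : ∃ R, 0 < R ∧ ∀ g ∈ Gam, ∀ s t, s ≤ g (-R) → g R ≤ t →
    g * u * g⁻¹ ∈ ⁅Gam ⊓ Sp s t, Gam ⊓ Sp s t⁆ := by
  let K : Subgroup A :=
    { carrier := {u | ∃ R, 0 < R ∧ ∀ g ∈ Gam, ∀ s t, s ≤ g (-R) → g R ≤ t →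
        g * u * g⁻¹ ∈ ⁅Gam ⊓ Sp s t, Gam ⊓ Sp s t⁆}
      one_mem' := ⟨1, one_pos, fun g _ s t _ _ => by simp⟩
      inv_mem' := by
        rintro u ⟨R, h0, h⟩
        exact ⟨R, h0, fun g hg s t a b => by
          simpa [mul_assoc] using Subgroup.inv_mem _ (h g hg s t a b)⟩
      mul_mem' := by
        rintro u v ⟨R, h0, h⟩ ⟨S, -, h'⟩
        refine ⟨max R S, lt_max_of_lt_left h0, fun g hg s t a b => ?_⟩
        simpa [mul_assoc] using Subgroup.mul_mem _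
          (h g hg s t (a.trans (g.monotone (by simp))) ((g.monotone (by simp)).trans b))
          (h' g hg s t (a.trans (g.monotone (by simp))) ((g.monotone (by simp)).trans b)) }
  refine (Subgroup.commutator_le.2 fun a ha b hb => ?_ : GG ≤ K) hu
  obtain ⟨R, h0, h1⟩ := Gam.bd ha 0
  obtain ⟨S, hS, h2⟩ := Gam.bd hb R
  refine ⟨S, by linarith, fun g hg s t i j => ?_⟩
  have e : g * ⁅a, b⁆ * g⁻¹ = ⁅g * a * g⁻¹, g * b * g⁻¹⁆ := by
    simp only [commutatorElement_def]; group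
  rw [e]
  exact Subgroup.commutator_mem_commutator
    ⟨Gam.mul_mem (Gam.mul_mem hg ha) (Gam.inv_mem hg), Sp.mono i j (Sp.conj
      (Sp.mono (s' := -S) (t' := S) (by linarith) (by linarith) h1) g)⟩
    ⟨Gam.mul_mem (Gam.mul_mem hg hb) (Gam.inv_mem hg), Sp.mono i j (Sp.conj h2 g)⟩

lemma loc2 {u : A} (hu : u ∈ GG) {s a b t : ℝ} (h1 : s < a) (h2 : a < b) (h3 : b < t)
    (hs : u ∈ Sp a b) : u ∈ ⁅Gam ⊓ Sp s t, Gam ⊓ Sp s t⁆ := by
  obtain ⟨R0, -, h⟩ := loc hu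
  have h' : ∀ R, R0 ≤ R → ∀ g ∈ Gam, ∀ s t, s ≤ g (-R) → g R ≤ t →
      g * u * g⁻¹ ∈ ⁅Gam ⊓ Sp s t, Gam ⊓ Sp s t⁆ := fun R hR g hg s t i j =>
    h g hg s t (i.trans (g.monotone (by linarith))) ((g.monotone hR).trans j)
  set R := max R0 (max (-s) t)
  have r1 : -s ≤ R := (le_max_left _ _).trans (le_max_right _ _)
  have r2 : t ≤ R := (le_max_right _ _).trans (le_max_right _ _)
  obtain ⟨g, g1, g2, g3⟩ := move (p := -R - 1) (q := a) (a := -R) (c := s) (by linarith)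
    (by linarith) (by linarith) h1
  obtain ⟨k, k1, k2, k3⟩ := move (p := b) (q := R + 1) (a := R) (c := t) (by linarith)
    (by linarith) h3 (by linarith)
  have := h' R (le_max_left _ _) (g * k) (Gam.mul_mem g1 k1) s t
    (by rw [ap, k2 _ (Or.inl (by linarith)), g3])
    (by rw [ap, k3, g2 _ (Or.inr (by linarith))])
  have c1 := (comm (f := g) (g := u) (t := a) (fun x hx => g2 x (Or.inr hx))
    (fun x hx => hs x (Or.inl hx)))
  have c2 := (comm (f := u) (g := k) (t := b) (fun x hx => hs x (Or.inr hx))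
    (fun x hx => k2 x (Or.inl hx))).symm
  rwa [(c1.mul_left c2).eq, mul_inv_cancel_right] at this

theorem clash {P : Set A} (hP : ∀ f ∈ P, f ∈ GG) (p1 : 1 ∈ P) (p2 : ∀ f ∈ P, ∀ g ∈ P, f * g ∈ P)
    (p3 : ∀ f ∈ P, ∀ g ∈ Gam, g * f * g⁻¹ ∈ P) (p4 : ∀ f ∈ P, f⁻¹ ∈ P → f = 1)
    {f h z w : A} {a a' b b' l m : ℝ} (hf : f ∈ P) (hh : h ∈ P) (hz : z ∈ P) (hw : w ∈ P)
    (l1 : LS f a l) (l2 : LS h a' l⁻¹) (l3 : LS (kap z) b m) (l4 : LS (kap w) b' m⁻¹)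
    (hl : 1 < l) (hm : m < 1) : False := by
  obtain ⟨N1, n1⟩ := build (fun f hf => GG_le (hP f hf)) p1 p2 p3 hf hz l1 l3 hl hm
  obtain ⟨N2, n2⟩ := build (Q := {f | f⁻¹ ∈ P}) (f := h⁻¹) (z := w⁻¹) (a := a') (b := b')
    (fun f hf => by simpa using Gam.inv_mem (GG_le (hP _ hf))) (by simpa using p1)
    (fun f hf g hg => by simpa using p2 _ hg _ hf)
    (fun f hf g hg => by simpa [mul_assoc] using p3 _ hf g hg) (by simpa using hh)
    (by simpa using hw) (by simpa using l2.inv) (by simpa using l4.inv) hl hm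
  obtain ⟨p, hp, s1, up, a1, b1⟩ := n1 (max N1 N2) (le_max_left _ _)
  obtain ⟨r, hr, -, -, a2, b2⟩ := n2 (max N1 N2) (le_max_right _ _)
  have hr' : r⁻¹ ∈ P := hr
  have pG := GG_le (hP p hp)
  have one : ∀ {u : A}, LS u (-2) 1 → ∃ ε, 0 < ε ∧ ε < 1 ∧ ∀ x, x ≤ -2 + ε → u x = x := by
    rintro u ⟨c1, ε, hε, c2⟩
    refine ⟨min ε (1 / 2), by positivity, by linarith [min_le_right ε (1 / 2)], fun x hx => ?_⟩
    rcases le_total x (-2) with e | e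
    · exact c1 x e
    · rw [c2 x e (by linarith [min_le_left ε (1 / 2)])]; ring
  obtain ⟨ε, e0, e1, e2⟩ := one (u := p⁻¹ * r) (by
    have := a1.inv.mul a2; rwa [inv_mul_cancel₀ a1.pos.ne'] at this)
  obtain ⟨δ, d0, d1, d2⟩ := one (u := kap (p⁻¹ * r)) (by
    have := b1.inv.mul b2; rwa [inv_mul_cancel₀ b1.pos.ne', ← map_inv, ← map_mul] at this)
  set u := p⁻¹ * r with hu
  have uG : u ∈ GG := GG.mul_mem (GG.inv_mem (hP p hp)) (by simpa using GG.inv_mem (hP _ hr'))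
  have su : u ∈ Sp (-2 + ε) (2 - δ) := by
    rintro x (hx | hx)
    · exact e2 x hx
    · have := d2 (-x) (by linarith)
      rw [kap_ap, neg_neg] at this; linarith
  obtain ⟨M, hM⟩ := escape (g := p) (a := -2 + ε / 2) (b := 2 - δ / 2) (by linarith)
    (fun x i j => up x (by linarith) (by linarith))
  have hM' := hM (M + 1) (by omega)
  have pp : ∀ f ∈ P, ∀ n : ℕ, f ^ n ∈ P := by
    intro f hf n
    induction n with
    | zero => simpa using p1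
    | succ n ih => rw [pow_succ]; exact p2 _ ih _ hf
  have hπ := pp p hp (M + 1)
  have πG := Gam.pow_mem pG (M + 1)
  have fx : ∀ n ∈ Gam ⊓ Fx {x | 2 - δ / 2 ≤ x}, ∀ x, -2 + ε / 2 ≤ x →
      ((p ^ (M + 1))⁻¹ * n * p ^ (M + 1)) x = x := by
    intro n hn x hx
    rw [ap, ap, hn.2 _ (hM'.le.trans ((p ^ (M + 1)).monotone hx)), inv_ap]
  obtain ⟨n, hn, n', hn', e⟩ := two (H := Gam ⊓ Sp (-2 + ε / 2) (2 - δ / 2))
    (D := Gam ⊓ Fx {x | 2 - δ / 2 ≤ x}) (π := p ^ (M + 1)) (c := u ^ ((M + 1) * 2))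
    (fun x hx => ⟨hx.1, fun y hy => hx.2 y (Or.inr hy)⟩)
    (fun n hn => ⟨Gam.mul_mem (Gam.mul_mem (Gam.inv_mem πG) hn.1) πG,
      fun y hy => fx n hn y (by have : 2 - δ / 2 ≤ y := hy; linarith)⟩)
    (fun x hx n hn => (comm (fx n hn) (fun y hy => hx.2 y (Or.inl hy))).symm)
    (Subgroup.pow_mem _ (loc2 uG (by linarith) (by linarith) (by linarith) su) _)
  have i1 : p ^ ((M + 1) * 2) * u ^ ((M + 1) * 2) ∈ P := by
    rw [pow_mul p, e]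
    refine p2 _ (p3 _ ?_ _ πG) _ ?_
    · simpa using p3 _ hπ _ (Gam.inv_mem hn'.1)
    · simpa using p3 _ hπ _ (Gam.inv_mem hn.1)
  have i2 : ∀ k : ℕ, (p ^ k * u ^ k)⁻¹ ∈ P := by
    intro k
    induction k with
    | zero => simpa using p1
    | succ k ih =>
      have := p2 _ ih _ (p3 _ hr' _ (Gam.pow_mem pG k))
      have e : (p ^ k * u ^ k)⁻¹ * (p ^ k * r⁻¹ * (p ^ k)⁻¹) = (p ^ (k + 1) * u ^ (k + 1))⁻¹ := by
        have : r⁻¹ = u⁻¹ * p⁻¹ := by rw [hu]; group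
        rw [this]; group
      rwa [e] at this
  have i3 := congrArg (fun f : A => f (-2 + ε / 2)) (p4 _ i1 (i2 _))
  simp only [ap] at i3
  rw [(Sp _ _).pow_mem su _ _ (Or.inl (by linarith))] at i3
  have := hM ((M + 1) * 2) (by omega)
  rw [i3] at this
  have e : (1 : A) (-2 + ε / 2) = -2 + ε / 2 := rfl
  rw [e] at this; linarith

lemma cone {S : Set ℝ} (h0 : ∀ x ∈ S, 0 < x) (h1 : (1 : ℝ) ∉ S) (h2 : ∀ x ∈ S, ∀ y ∈ S, x * y ∈ S) :
    ∃ T, S ⊆ T ∧ (1 : ℝ) ∉ T ∧ (∀ x ∈ T, ∀ y ∈ T, x * y ∈ T) ∧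
      ∀ x, 0 < x → x ≠ 1 → x ∈ T ∨ x⁻¹ ∈ T := by
  obtain ⟨T, hT, hm⟩ := zorn_subset_nonempty
    {T : Set ℝ | (∀ x ∈ T, 0 < x) ∧ (1 : ℝ) ∉ T ∧ ∀ x ∈ T, ∀ y ∈ T, x * y ∈ T} (by
      intro c hc hch _
      refine ⟨⋃₀ c, ⟨?_, ?_, ?_⟩, fun s hs => Set.subset_sUnion_of_mem hs⟩
      · rintro x ⟨B, hB, hx⟩; exact (hc hB).1 x hx
      · rintro ⟨B, hB, hx⟩; exact (hc hB).2.1 hx
      · rintro x ⟨B, hB, hx⟩ y ⟨C, hC, hy⟩
        rcases hch.total hB hC with h | h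
        · exact ⟨C, hC, (hc hC).2.2 _ (h hx) _ hy⟩
        · exact ⟨B, hB, (hc hB).2.2 _ hx _ (h hy)⟩) S ⟨h0, h1, h2⟩
  obtain ⟨t0, t1, t2⟩ := hm.prop
  have key : ∀ x, 0 < x → x ≠ 1 → x ∉ T → ∃ n : ℕ, ∃ s ∈ T, s * x ^ n = 1 := by
    intro x hx hx1 hxT
    by_contra hc
    push Not at hc
    refine hxT (hm.le_of_ge (y := {y | ∃ n : ℕ, (0 < n ∧ y = x ^ n) ∨ ∃ s ∈ T, y = s * x ^ n})
      ⟨?_, ?_, ?_⟩ (fun s hs => ⟨0, Or.inr ⟨s, hs, by simp⟩⟩) ⟨1, Or.inl ⟨one_pos, by simp⟩⟩)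
    · rintro _ ⟨n, ⟨-, rfl⟩ | ⟨s, hs, rfl⟩⟩
      · positivity
      · have := t0 s hs; positivity
    · rintro ⟨n, ⟨hn, e⟩ | ⟨s, hs, e⟩⟩
      · exact hx1 ((pow_eq_one_iff_of_nonneg hx.le hn.ne').1 e.symm)
      · exact hc n s hs e.symm
    · rintro _ ⟨n, ⟨hn, rfl⟩ | ⟨s, hs, rfl⟩⟩ _ ⟨k, ⟨hk, rfl⟩ | ⟨t, ht, rfl⟩⟩
      · exact ⟨n + k, Or.inl ⟨by omega, by ring⟩⟩
      · exact ⟨n + k, Or.inr ⟨t, ht, by ring⟩⟩
      · exact ⟨n + k, Or.inr ⟨s, hs, by ring⟩⟩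
      · exact ⟨n + k, Or.inr ⟨_, t2 s hs t ht, by ring⟩⟩
  have pw : ∀ s ∈ T, ∀ n : ℕ, s ^ (n + 1) ∈ T := by
    intro s hs n
    induction n with
    | zero => simpa using hs
    | succ n ih => rw [pow_succ]; exact t2 _ ih _ hs
  refine ⟨T, hT, t1, t2, fun x hx hx1 => ?_⟩
  by_contra hc
  push Not at hc
  obtain ⟨n, s, hs, e1⟩ := key x hx hx1 hc.1
  obtain ⟨k, t, ht, e2⟩ := key x⁻¹ (by positivity) (by simpa using hx1) hc.2
  rcases n with _ | n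
  · exact t1 (by simpa [← show s = 1 by simpa using e1] using hs)
  rcases k with _ | k
  · exact t1 (by simpa [← show t = 1 by simpa using e2] using ht)
  have := t2 _ (pw s hs k) _ (pw t ht n)
  have e : s ^ (k + 1) * t ^ (n + 1) = (s * x ^ (n + 1)) ^ (k + 1) * (t * x⁻¹ ^ (k + 1)) ^ (n + 1) := by
    rw [mul_pow, mul_pow, ← pow_mul, ← pow_mul, mul_comm (k + 1), inv_pow]; field_simp
  rw [e, e1, e2] at this
  exact t1 (by simpa using this)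

/-- total cones -/
def Tot (P Q : Set A) : Prop := P ⊆ Q ∧ (∀ f ∈ Q, ∀ g ∈ Q, f * g ∈ Q) ∧
  (∀ f ∈ Q, ∀ g ∈ Gam, g * f * g⁻¹ ∈ Q) ∧ (∀ f ∈ Q, f⁻¹ ∈ Q → f = 1) ∧
  ∀ f ∈ Gam, f ∈ Q ∨ f⁻¹ ∈ Q

theorem side {P : Set A} (hP : ∀ f ∈ P, f ∈ Gam) (p2 : ∀ f ∈ P, ∀ g ∈ P, f * g ∈ P)
    (p3 : ∀ f ∈ P, ∀ g ∈ Gam, g * f * g⁻¹ ∈ P) :
    (∃ Q, Tot P Q) ∨ ∃ f ∈ P, ∃ h ∈ P, ∃ a a' l, 1 < l ∧ LS f a l ∧ LS h a' l⁻¹ := by
  by_cases hc : ∃ f ∈ P, ∃ h ∈ P, ∃ a a' l, l ≠ 1 ∧ LS f a l ∧ LS h a' l⁻¹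
  · right
    obtain ⟨f, hf, h, hh, a, a', l, h1, h2, h3⟩ := hc
    rcases lt_or_gt_of_ne h1 with e | e
    · exact ⟨h, hh, f, hf, a', a, l⁻¹, one_lt_inv_iff₀.2 ⟨h2.pos, e⟩, h3, by simpa using h2⟩
    · exact ⟨f, hf, h, hh, a, a', l, e, h2, h3⟩
  left
  obtain ⟨T, t0, t1, t2, t3⟩ := cone (S := {l | l ≠ 1 ∧ ∃ f ∈ P, ∃ a, LS f a l})
    (fun x ⟨_, f, _, a, h⟩ => h.pos) (fun h => h.1 rfl) (by
      rintro x ⟨x1, f, hf, a, h1⟩ y ⟨y1, g, hg, b, h2⟩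
      refine ⟨fun e => hc ⟨f, hf, g, hg, a, b, x, x1, h1, by
        rwa [← eq_inv_of_mul_eq_one_right e]⟩, ?_⟩
      obtain ⟨k, k1, k2⟩ := trans1 b a
      exact ⟨_, p2 _ hf _ (p3 g hg k k1), a, h1.mul (k2 ▸ h2.conj k1)⟩)
  have ml : ∀ f g : A, (∃ l ∈ T, ∃ a, LS f a l) → (∃ l ∈ T, ∃ a, LS g a l) →
      ∃ l ∈ T, ∃ a, LS (f * g) a l := by
    rintro f g ⟨l, hl, a, h1⟩ ⟨m, hm, b, h2⟩
    obtain ⟨c, h | h | h⟩ := h1.mul' h2
    · exact ⟨l, hl, c, h⟩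
    · exact ⟨m, hm, c, h⟩
    · exact ⟨_, t2 l hl m hm, c, h⟩
  refine ⟨{f | f = 1 ∨ ∃ l ∈ T, ∃ a, LS f a l}, fun f hf => ?_, ?_, ?_, ?_, fun f hf => ?_⟩
  · by_cases e : f = 1
    · exact Or.inl e
    · obtain ⟨a, l, h1, h2⟩ := exLS (hP f hf) e
      exact Or.inr ⟨l, t0 ⟨h1, f, hf, a, h2⟩, a, h2⟩
  · rintro f (rfl | hf) g hg
    · simpa using hg
    · rcases hg with rfl | hg
      · rw [mul_one]; exact Or.inr hf
      · exact Or.inr (ml f g hf hg)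
  · rintro f (rfl | ⟨l, hl, a, h⟩) g hg
    · exact Or.inl (by simp)
    · exact Or.inr ⟨l, hl, _, h.conj hg⟩
  · rintro f (rfl | hf) hg
    · rfl
    · rcases hg with h | hg
      · exact inv_eq_one.1 h
      · obtain ⟨l, hl, a, h⟩ := ml _ _ hf hg
        rw [mul_inv_cancel] at h
        exact absurd (h.one ▸ hl) t1
  · by_cases e : f = 1
    · exact Or.inl (Or.inl e)
    · obtain ⟨a, l, h1, h2⟩ := exLS hf e
      exact (t3 l h2.pos h1).imp (fun h => Or.inr ⟨l, h, a, h2⟩) (fun h => Or.inr ⟨_, h, a, h2.inv⟩)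

theorem main {P : Set A} (hP : ∀ f ∈ P, f ∈ GG) (p1 : 1 ∈ P) (p2 : ∀ f ∈ P, ∀ g ∈ P, f * g ∈ P)
    (p3 : ∀ f ∈ P, ∀ g ∈ GG, g * f * g⁻¹ ∈ P) (p4 : ∀ f ∈ P, f⁻¹ ∈ P → f = 1) :
    ∃ Q, Tot P Q := by
  have p3' : ∀ f ∈ P, ∀ g ∈ Gam, g * f * g⁻¹ ∈ P := fun f hf g hg => by
    obtain ⟨k, hk, e⟩ := conj_G (GG_le (hP f hf)) hg
    exact e ▸ p3 f hf k hk
  rcases side (fun f hf => GG_le (hP f hf)) p2 p3' with h | ⟨f, hf, h, hh, a, a', l, hl, l1, l2⟩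
  · exact h
  rcases side (P := {f | kap f ∈ P}) (fun f hf => by simpa using Gam.kap (GG_le (hP _ hf)))
    (fun f hf g hg => by simpa using p2 _ hf _ hg)
    (fun f hf g hg => by simpa using p3' _ hf _ (Gam.kap hg)) with
    ⟨Q, q1, q2, q3, q4, q5⟩ | ⟨w, hw, z, hz, b, b', m, hm, l3, l4⟩
  · refine ⟨{f | kap f ∈ Q}, fun f hf => q1 (by simpa using hf),
      fun f hf g hg => by simpa using q2 _ hf _ hg,
      fun f hf g hg => by simpa using q3 _ hf _ (Gam.kap hg),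
      fun f hf hg => ?_, fun f hf => by simpa using q5 _ (Gam.kap hf)⟩
    have := congrArg kap (q4 _ hf (by simpa using hg))
    simpa using this
  · exact (clash hP p1 p2 p3' p4 hf hh hz hw l1 l2 (b := b') (b' := b) (by simpa using l4)
      (by simpa using l3) hl (inv_lt_one_of_one_lt₀ hm)).elim

end Pool.Agent.H3.Pro
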