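import Mathlib

set_option autoImplicit false

open FirstOrder FirstOrder.Language Cardinal Filter

namespace Pool.Agent.H3.RN

universe u v

variable {L : FirstOrder.Language.{u, v}} {M : Type} [L.Structure M]

/-- every countable structure elementarily equivalent to `M` is isomorphic to `M` -/
def Cat (L : FirstOrder.Language.{u, v}) (M : Type) [L.Structure M] : Prop :=
  ∀ (N : Type) [L.Structure N] [Countable N], (N ≅[L] M) → Nonempty (M ≃[L] N)

theorem cat_of [Countable M] [Infinite M] (h : (ℵ₀ : Cardinal.{0}).Categorical (L.completeTheory M)) :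
    Cat L M := by
  intro N _ _ hN
  haveI : Infinite N := hN.symm.infinite
  haveI : N ⊨ L.completeTheory M := by
    rw [← hN.completeTheory_eq]; infer_instance
  exact h (Theory.ModelType.of _ M) (Theory.ModelType.of _ N) (Cardinal.mk_eq_aleph0 M)
    (Cardinal.mk_eq_aleph0 N)

theorem real [Countable L.Symbols] [Infinite M] (hc : Cat L M) {I α : Type} [Countable α]
    (U : Ultrafilter I) (v : I → α → M) :
    ∃ w : α → M, ∀ φ : L.Formula α, φ.Realize w ↔ ∀ᶠ i in (U : Filter I), φ.Realize (v i) := by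
  let N := (U : Filter I).Product (fun _ : I => M)
  let t : α → N := fun x => ((fun i => v i x : ∀ _ : I, M) : N)
  have hN : N ≅[L] M := by
    rw [elementarilyEquivalent_iff]
    intro φ
    rw [Ultraproduct.sentence_realize, eventually_const]
  haveI : Infinite N := hN.symm.infinite
  obtain ⟨S, hS, hcard⟩ := exists_elementarySubstructure_card_eq L (Set.range t) (ℵ₀ : Cardinal.{0}) le_rfl
    (by simpa using (Set.countable_range t).le_aleph0)
    (by rw [Cardinal.lift_aleph0, Cardinal.lift_le_aleph0]; exact Cardinal.mk_le_aleph0 (α := L.Symbols))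
    (by simp)
  haveI : Countable S := by
    rw [← Cardinal.mk_le_aleph0_iff]
    simpa using hcard.le
  obtain ⟨e⟩ := hc S (S.elementarilyEquivalent.trans hN)
  refine ⟨fun x => e.symm ⟨t x, hS ⟨x, rfl⟩⟩, fun φ => ?_⟩
  rw [← Ultraproduct.realize_formula_cast φ (fun x i => v i x)]
  have h1 := StrongHomClass.realize_formula e.symm φ (v := fun x => (⟨t x, hS ⟨x, rfl⟩⟩ : S))
  have h2 := S.subtype.map_formula φ (fun x => (⟨t x, hS ⟨x, rfl⟩⟩ : S))
  exact h1.trans h2.symm

/-- same type -/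
def Ty (L : FirstOrder.Language.{u, v}) {M : Type} [L.Structure M] {α : Type} (v w : α → M) : Prop :=
  ∀ φ : L.Formula α, φ.Realize v ↔ φ.Realize w

/-- isolated type -/
def Isol (L : FirstOrder.Language.{u, v}) {M : Type} [L.Structure M] {α : Type} (v : α → M) : Prop :=
  ∃ ψ : L.Formula α, ψ.Realize v ∧ ∀ w : α → M, ψ.Realize w → Ty L v w

theorem Ty.comp {α β : Type} {v w : α → M} (h : Ty L v w) (σ : β → α) : Ty L (v ∘ σ) (w ∘ σ) :=
  fun φ => by rw [← Formula.realize_relabel, ← Formula.realize_relabel]; exact h _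

theorem Ty.symm {α : Type} {v w : α → M} (h : Ty L v w) : Ty L w v := fun φ => (h φ).symm

theorem Ty.trans {α : Type} {v w z : α → M} (h : Ty L v w) (h' : Ty L w z) : Ty L v z :=
  fun φ => (h φ).trans (h' φ)

theorem Isol.comp {α β : Type} [Finite α] [Finite β] {v : α → M} (h : Isol L v) (σ : β → α) :
    Isol L (v ∘ σ) := by
  obtain ⟨ψ, h1, h2⟩ := h
  let χ : L.Formula (β ⊕ α) := ψ.relabel Sum.inr ⊓
    Formula.iInf fun i : β => (Term.var (Sum.inl i)).equal (Term.var (Sum.inr (σ i)))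
  have key : ∀ w : β → M, (χ.iExs α).Realize w ↔ ∃ z : α → M, ψ.Realize z ∧ w = z ∘ σ := by
    intro w
    simp [χ, Formula.realize_iExs, Formula.realize_relabel, funext_iff, Function.comp_def]
  refine ⟨χ.iExs α, (key _).2 ⟨v, h1, rfl⟩, fun w hw => ?_⟩
  obtain ⟨z, hz, rfl⟩ := (key w).1 hw
  exact (h2 z hz).comp σ

theorem dens [Countable L.Symbols] [Countable M] [Infinite M] (hc : Cat L M) {α : Type} [Finite α]
    (θ : L.Formula α) (v : α → M) (hv : θ.Realize v) : ∃ w : α → M, θ.Realize w ∧ Isol L w := by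
  by_contra hcon
  push Not at hcon
  obtain ⟨m, hm⟩ := exists_surjective_nat (α → M)
  let P : L.Formula α → Prop := fun η => (∃ z : α → M, η.Realize z) ∧
    ∀ z : α → M, η.Realize z → θ.Realize z
  have step : ∀ (k : ℕ) (η : {η // P η}), ∃ η' : {η // P η},
      (∀ z : α → M, η'.1.Realize z → η.1.Realize z) ∧ ¬ η'.1.Realize (m k) := by
    rintro k ⟨η, ⟨z, hz⟩, hη⟩
    have h1 := hcon z (hη z hz)
    unfold Isol Ty at h1
    push Not at h1
    obtain ⟨w, hw, φ, hφ⟩ := h1 η hz
    by_cases hk : φ.Realize (m k)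
    · refine ⟨⟨η ⊓ φ.not, ?_, fun y hy => hη y (Formula.realize_inf.1 hy).1⟩,
        fun y hy => (Formula.realize_inf.1 hy).1, by simp [hk]⟩
      rcases hφ with ⟨-, h⟩ | ⟨h, -⟩
      · exact ⟨w, by simp [hw, h]⟩
      · exact ⟨z, by simp [hz, h]⟩
    · refine ⟨⟨η ⊓ φ, ?_, fun y hy => hη y (Formula.realize_inf.1 hy).1⟩,
        fun y hy => (Formula.realize_inf.1 hy).1, by simp [hk]⟩
      rcases hφ with ⟨h, -⟩ | ⟨-, h⟩
      · exact ⟨z, by simp [hz, h]⟩
      · exact ⟨w, by simp [hw, h]⟩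
  choose nx h1 h2 using step
  let η : ℕ → {η // P η} := fun k => Nat.rec ⟨θ, ⟨v, hv⟩, fun _ h => h⟩ (fun k e => nx k e) k
  have hη : ∀ k, η (k + 1) = nx k (η k) := fun k => rfl
  have mono : ∀ k j, k ≤ j → ∀ z : α → M, (η j).1.Realize z → (η k).1.Realize z := by
    intro k j hkj
    induction j, hkj using Nat.le_induction with
    | base => exact fun _ h => h
    | succ j _ ih => exact fun z hz => ih z (h1 j (η j) z hz)
  choose z hz using fun k => (η k).2.1
  obtain ⟨w, hw⟩ := real hc (hyperfilter ℕ) z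
  obtain ⟨k, rfl⟩ := hm w
  refine h2 k (η k) ((hw _).2 ?_)
  refine Filter.Eventually.filter_mono hyperfilter_le_cofinite ?_
  rw [Nat.cofinite_eq_atTop]
  filter_upwards [eventually_ge_atTop (k + 1)] with j hj
  exact mono (k + 1) j hj _ (hz j)

/-- existential quantification of the last variable -/
noncomputable def exF {s : ℕ} (θ : L.Formula (Fin (s + 1))) : L.Formula (Fin s) :=
  (θ.relabel (Fin.lastCases (Sum.inr ()) Sum.inl : Fin (s + 1) → Fin s ⊕ Unit)).iExs Unit

theorem exF_iff {s : ℕ} (θ : L.Formula (Fin (s + 1))) (v : Fin s → M) :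
    (exF θ).Realize v ↔ ∃ b, θ.Realize (Fin.snoc v b : Fin (s + 1) → M) := by
  unfold exF
  rw [Formula.realize_iExs]
  have key : ∀ z : Unit → M, (Sum.elim v z ∘
      (Fin.lastCases (Sum.inr ()) Sum.inl : Fin (s + 1) → Fin s ⊕ Unit)) =
      (Fin.snoc v (z ()) : Fin (s + 1) → M) := by
    intro z
    funext i
    refine Fin.lastCases ?_ (fun j => ?_) i <;> simp
  simp only [Formula.realize_relabel, key]
  exact ⟨fun ⟨z, hz⟩ => ⟨_, hz⟩, fun ⟨b, hb⟩ => ⟨fun _ => b, hb⟩⟩

theorem forth {s : ℕ} {v w : Fin s → M} (h : Ty L v w) (c : M)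
    (hi : Isol L (Fin.snoc v c : Fin (s + 1) → M)) :
    ∃ b, Ty L (Fin.snoc v c : Fin (s + 1) → M) (Fin.snoc w b) := by
  obtain ⟨χ, h1, h2⟩ := hi
  obtain ⟨b, hb⟩ := (exF_iff χ w).1 ((h _).1 ((exF_iff χ v).2 ⟨c, h1⟩))
  exact ⟨b, h2 _ hb⟩

theorem Isol.of_ty {α : Type} {v w : α → M} (h : Isol L v) (h' : Ty L v w) : Isol L w := by
  obtain ⟨ψ, h1, h2⟩ := h
  exact ⟨ψ, (h' ψ).1 h1, fun z hz => h'.symm.trans (h2 z hz)⟩

theorem ext [Countable L.Symbols] [Countable M] [Infinite M] (hc : Cat L M) {s : ℕ}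
    {v : Fin s → M} (hv : Isol L v) (θ : L.Formula (Fin (s + 1))) (c : M)
    (hθ : θ.Realize (Fin.snoc v c : Fin (s + 1) → M)) :
    ∃ b, θ.Realize (Fin.snoc v b : Fin (s + 1) → M) ∧ Isol L (Fin.snoc v b : Fin (s + 1) → M) := by
  obtain ⟨ψ, h1, h2⟩ := hv
  obtain ⟨u, hu, hiu⟩ := dens hc (θ ⊓ ψ.relabel Fin.castSucc) (Fin.snoc v c) (by
    rw [Formula.realize_inf, Formula.realize_relabel]
    exact ⟨hθ, by simpa using h1⟩)
  rw [Formula.realize_inf, Formula.realize_relabel] at hu
  have hu' : (Fin.snoc (u ∘ Fin.castSucc) (u (Fin.last s)) : Fin (s + 1) → M) = u :=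
    Fin.snoc_init_self u
  obtain ⟨b, hb⟩ := forth (h2 _ hu.2).symm (u (Fin.last s)) (by rwa [hu'])
  rw [hu'] at hb
  exact ⟨b, (hb θ).1 hu.1, hiu.of_ty hb⟩

theorem tower (P : ∀ s : ℕ, (Fin s → M) → Prop) (Q : ∀ s : ℕ, (Fin s → M) → M → Prop)
    (h0 : P 0 Fin.elim0)
    (hs : ∀ s u, P s u → ∃ b, P (s + 1) (Fin.snoc u b : Fin (s + 1) → M) ∧ Q s u b) :
    ∃ a : ℕ → M, ∀ s, P s (fun i => a i) ∧ Q s (fun i => a i) (a s) := by
  choose nx h1 h2 using hs
  let st : ∀ s : ℕ, {u : Fin s → M // P s u} := fun s =>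
    Nat.rec ⟨Fin.elim0, h0⟩ (fun s u => ⟨Fin.snoc u.1 (nx s u.1 u.2), h1 s u.1 u.2⟩) s
  let a : ℕ → M := fun s => nx s (st s).1 (st s).2
  have key : ∀ s, (st s).1 = fun i : Fin s => a i := by
    intro s
    induction s with
    | zero => funext i; exact i.elim0
    | succ s ih =>
      have : (st (s + 1)).1 = Fin.snoc (st s).1 (a s) := rfl
      rw [this]
      funext i
      refine Fin.lastCases ?_ (fun j => ?_) i
      · simp
      · rw [Fin.snoc_castSucc, ih]; rfl
  refine ⟨a, fun s => ?_⟩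
  rw [← key s]
  exact ⟨(st s).2, h2 s _ _⟩

theorem isol_zero [Countable L.Symbols] [Countable M] [Infinite M] (hc : Cat L M) :
    Isol L (Fin.elim0 : Fin 0 → M) := by
  obtain ⟨w, -, hw⟩ := dens hc (⊤ : L.Formula (Fin 0)) Fin.elim0 (by simp)
  rwa [Subsingleton.elim w Fin.elim0] at hw

theorem exists_seq [Countable L.Symbols] [Countable M] [Infinite M] (hc : Cat L M) :
    ∃ a : ℕ → M, (∀ s, Isol L (fun i : Fin s => a i)) ∧
      ∀ (n : ℕ) (σ : Fin n → ℕ) (φ : L.Formula (Fin (n + 1))) (c : M),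
        φ.Realize (Fin.snoc (a ∘ σ) c : Fin (n + 1) → M) →
        ∃ m, φ.Realize (Fin.snoc (a ∘ σ) (a m) : Fin (n + 1) → M) := by
  haveI : Nonempty (Σ n : ℕ, (Fin n → ℕ) × L.Formula (Fin (n + 1))) := ⟨⟨0, Fin.elim0, ⊤⟩⟩
  obtain ⟨τ, hτ⟩ := exists_surjective_nat (Σ n : ℕ, (Fin n → ℕ) × L.Formula (Fin (n + 1)))
  let Q : ∀ s : ℕ, (Fin s → M) → M → Prop := fun s u b =>
    ∀ h : ∀ i, (τ (Nat.unpair s).1).2.1 i < s,
      (∃ c, (τ (Nat.unpair s).1).2.2.Realize
        (Fin.snoc (fun i => u ⟨(τ (Nat.unpair s).1).2.1 i, h i⟩) c : Fin (_ + 1) → M)) →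
      (τ (Nat.unpair s).1).2.2.Realize
        (Fin.snoc (fun i => u ⟨(τ (Nat.unpair s).1).2.1 i, h i⟩) b : Fin (_ + 1) → M)
  obtain ⟨a, ha⟩ := tower (fun s u => Isol L u) Q (isol_zero hc) (by
    intro s u hu
    simp only [Q]
    generalize τ (Nat.unpair s).1 = t
    obtain ⟨n, σ, φ⟩ := t
    by_cases hh : ∃ h : ∀ i, σ i < s, ∃ c, φ.Realize
        (Fin.snoc (fun i => u ⟨σ i, h i⟩) c : Fin (n + 1) → M)
    · obtain ⟨h, c, hc'⟩ := hh
      let g : Fin (n + 1) → Fin (s + 1) :=
        Fin.lastCases (Fin.last s) (fun i => Fin.castSucc ⟨σ i, h i⟩)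
      have key : ∀ b : M, (Fin.snoc u b : Fin (s + 1) → M) ∘ g =
          (Fin.snoc (fun i => u ⟨σ i, h i⟩) b : Fin (n + 1) → M) := by
        intro b
        funext i
        refine Fin.lastCases ?_ (fun j => ?_) i
        · simp [g]
        · simp only [g, Function.comp, Fin.lastCases_castSucc, Fin.snoc_castSucc]
      obtain ⟨b, hb1, hb2⟩ := ext hc hu (φ.relabel g) c (by
        rw [Formula.realize_relabel, key]; exact hc')
      rw [Formula.realize_relabel, key] at hb1
      exact ⟨b, hb2, fun _ _ => hb1⟩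
    · obtain ⟨b, -, hb2⟩ := ext hc hu ⊤ (Classical.arbitrary M) (by simp)
      exact ⟨b, hb2, fun h hc' => absurd ⟨h, hc'⟩ hh⟩)
  refine ⟨a, fun s => (ha s).1, fun n σ φ c hφ => ?_⟩
  obtain ⟨t, ht⟩ := hτ ⟨n, σ, φ⟩
  let s := Nat.pair t (Finset.univ.sup σ + 1)
  have hs : τ (Nat.unpair s).1 = ⟨n, σ, φ⟩ := by simp [s, ht]
  have h2 := (ha s).2
  simp only [Q] at h2
  rw [hs] at h2
  have hlt : ∀ i, σ i < s := fun i =>
    lt_of_lt_of_le (Nat.lt_succ_of_le (Finset.le_sup (f := σ) (Finset.mem_univ i)))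
      (Nat.right_le_pair _ _)
  exact ⟨s, h2 hlt ⟨c, hφ⟩⟩

/-- a countable model of a countably categorical theory is atomic -/
theorem atomic [Countable L.Symbols] [Countable M] [Infinite M] (hc : Cat L M) {α : Type}
    [Finite α] (v : α → M) : Isol L v := by
  obtain ⟨a, ha, htv⟩ := exists_seq hc
  let S : L.Substructure M :=
    { carrier := Set.range a
      fun_mem := by
        intro n F x hx
        choose σ hσ using hx
        obtain ⟨m, hm⟩ := htv n σ ((Term.func F fun i => Term.var (Fin.castSucc i)).equal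
          (Term.var (Fin.last n))) (Structure.funMap F x) (by
            have : a ∘ σ = x := funext hσ
            simp [this])
        have : a ∘ σ = x := funext hσ
        refine ⟨m, ?_⟩
        simpa [this, eq_comm] using hm }
  let E : L.ElementarySubstructure M := S.toElementarySubstructure (by
    intro n φ x c hφ
    choose σ hσ using fun i => (x i).2
    have hx : ((↑) ∘ x : Fin n → M) = a ∘ σ := funext fun i => (hσ i).symm
    have key : ∀ z : Fin (n + 1) → M,
        (φ.toFormula.relabel (Sum.elim Empty.elim id)).Realize z ↔ φ.Realize default z := by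
      intro z
      rw [Formula.realize_relabel, BoundedFormula.realize_toFormula]
      exact iff_of_eq (by congr 1; exact Subsingleton.elim _ _)
    rw [hx] at hφ ⊢
    obtain ⟨m, hm⟩ := htv n σ _ c ((key _).2 hφ)
    exact ⟨⟨a m, m, rfl⟩, (key _).1 hm⟩)
  obtain ⟨e⟩ := hc E E.elementarilyEquivalent
  have hty : Ty L (fun i => ((e (v i) : E) : M)) v := fun φ =>
    (E.subtype.map_formula φ (fun i => e (v i))).trans
      (StrongHomClass.realize_formula e φ (v := v))
  refine Isol.of_ty ?_ hty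
  have hmem : ∀ i, ∃ m, a m = ((e (v i) : E) : M) := fun i => (e (v i)).2
  choose σ hσ using hmem
  obtain ⟨s, hs⟩ : ∃ s, ∀ i, σ i < s := by
    obtain ⟨s, hs⟩ := (Set.finite_range σ).bddAbove
    exact ⟨s + 1, fun i => Nat.lt_succ_of_le (hs ⟨i, rfl⟩)⟩
  have := (ha s).comp (fun i => (⟨σ i, hs i⟩ : Fin s))
  convert this using 1
  funext i
  exact (hσ i).symm

/-- a type-preserving self-map of `M` is an injective endomorphism -/
theorem hom_of {g : M → M} (h : ∀ (n : ℕ) (x : Fin n → M), Ty L x (g ∘ x)) :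
    ∃ G : M →[L] M, (∀ y, G y = g y) ∧ Function.Injective G := by
  refine ⟨⟨g, fun {n} F x => ?_, fun {n} r x hr => ?_⟩, fun _ => rfl, fun y z hyz => ?_⟩
  · have := (h (n + 1) (Fin.snoc x (Structure.funMap F x))
      ((Term.func F fun i => Term.var (Fin.castSucc i)).equal (Term.var (Fin.last n)))).1 (by simp)
    simpa [eq_comm, Function.comp_def] using this
  · have := (h n x (r.formula fun i => Term.var i)).1 (by simpa using hr)
    simpa [Function.comp_def] using this
  · have := (h 2 ![y, z] ((Term.var 0).equal (Term.var 1))).2 (by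
      have h' : g y = g z := hyz
      simpa using h')
    simpa using this

theorem homog [Countable L.Symbols] [Countable M] [Infinite M] (hc : Cat L M) {n : ℕ}
    {v w : Fin n → M} (h : Ty L v w) :
    ∃ G : M →[L] M, Function.Injective G ∧ ∀ i, G (v i) = w i := by
  obtain ⟨e', he'⟩ := exists_surjective_nat M
  let e : ℕ → M := fun i => if hi : i < n then v ⟨i, hi⟩ else e' (i - n)
  obtain ⟨a, ha⟩ := tower
    (fun s u => Ty L (fun i : Fin s => e i) u ∧ ∀ i : Fin s, ∀ hi : (i : ℕ) < n, u i = w ⟨i, hi⟩)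
    (fun _ _ _ => True)
    ⟨fun φ => by rw [Subsingleton.elim (fun i : Fin 0 => e i) Fin.elim0], fun i => i.elim0⟩ (by
    rintro s u ⟨h1, h2⟩
    have hsn : (fun i : Fin (s + 1) => e i) = Fin.snoc (fun i : Fin s => e i) (e s) := by
      funext i
      refine Fin.lastCases ?_ (fun j => ?_) i <;> simp
    by_cases hs : s < n
    · refine ⟨w ⟨s, hs⟩, ⟨?_, fun i hi => ?_⟩, trivial⟩
      · have := h.comp (fun i : Fin (s + 1) => (⟨i, by omega⟩ : Fin n))
        convert this using 1
        · funext i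
          have : (i : ℕ) < n := by omega
          simp [e, this]
        · funext i
          refine Fin.lastCases ?_ (fun j => ?_) i
          · simp
          · simp only [Fin.snoc_castSucc, Function.comp]
            exact h2 j (by omega)
      · revert hi
        refine Fin.lastCases (fun hi => ?_) (fun j hi => ?_) i
        · simp
        · simp only [Fin.snoc_castSucc]
          exact h2 j hi
    · obtain ⟨b, hb⟩ := forth h1 (e s) (atomic hc _)
      refine ⟨b, ⟨by rw [hsn]; exact hb, fun i hi => ?_⟩, trivial⟩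
      revert hi
      refine Fin.lastCases (fun hi => ?_) (fun j hi => ?_) i
      · exact absurd hi (by simpa using hs)
      · simp only [Fin.snoc_castSucc]
        exact h2 j hi)
  have he : Function.Surjective e := fun y => by
    obtain ⟨j, rfl⟩ := he' y
    exact ⟨j + n, by simp [e]⟩
  choose r hr using he
  have hty : ∀ (k : ℕ) (σ : Fin k → ℕ), Ty L (e ∘ σ) (a ∘ σ) := by
    intro k σ
    obtain ⟨s, hs⟩ := (Set.finite_range σ).bddAbove
    exact (ha (s + 1)).1.1.comp (fun i => (⟨σ i, Nat.lt_succ_of_le (hs ⟨i, rfl⟩)⟩ : Fin (s + 1)))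
  obtain ⟨G, hG, hinj⟩ := hom_of (L := L) (g := fun y => a (r y)) (fun k x => by
    have := hty k (r ∘ x)
    have h2 : e ∘ r ∘ x = x := funext fun i => hr (x i)
    rw [h2] at this
    exact this)
  refine ⟨G, hinj, fun i => ?_⟩
  rw [hG]
  have h1 := (hty 2 ![r (v i), i] ((Term.var 0).equal (Term.var 1))).1 (by
    simp [hr, e])
  have h2 := (ha n).1.2 i i.2
  simp only [Formula.realize_equal, Term.realize_var, Function.comp, Matrix.cons_val_zero,
    Matrix.cons_val_one] at h1
  rw [h1]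
  exact h2

end Pool.Agent.H3.RN
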