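import Mathlib

namespace Pool.Agent.H3.Race

open Classical in
/-- probability that the first n letters of the source with law p form a word with property f -/
noncomputable def pr {s : ℕ} (p : Fin s → ℝ) (n : ℕ) (f : List (Fin s) → Prop) : ℝ :=
  ∑ w : Fin n → Fin s, if f (List.ofFn w) then ∏ i, p (w i) else 0

/-- P(tau_A > n) -/
noncomputable def surv {s : ℕ} (p : Fin s → ℝ) (A : List (Fin s)) (n : ℕ) : ℝ :=
  pr p n fun w => ¬ A <:+: w

/-- P(tau_A = n) -/
noncomputable def hit {s : ℕ} (p : Fin s → ℝ) (A : List (Fin s)) (n : ℕ) : ℝ :=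
  pr p n fun w => A <:+: w ∧ ¬ A <:+: w.dropLast

/-- P(tau_A < tau_B) + P(tau_A = tau_B) / 2 for independent sources -/
noncomputable def win {s : ℕ} (p : Fin s → ℝ) (A B : List (Fin s)) : ℝ :=
  ∑' n, hit p A n * (surv p B n + hit p B n / 2)

variable {s : ℕ} {p : Fin s → ℝ}

open Classical in
lemma pr_zero (f : List (Fin s) → Prop) : pr p 0 f = if f [] then 1 else 0 := by
  simp [pr]

lemma pr_succ (n : ℕ) (f : List (Fin s) → Prop) :
    pr p (n + 1) f = ∑ x, p x * pr p n fun w => f (x :: w) := by
  unfold pr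
  rw [← (Fin.consEquiv fun _ => Fin s).sum_comp, Fintype.sum_prod_type]
  refine Finset.sum_congr rfl fun x _ => ?_
  rw [Finset.mul_sum]
  refine Finset.sum_congr rfl fun w _ => ?_
  have : List.ofFn (Fin.cons x w : Fin (n + 1) → Fin s) = x :: List.ofFn w := by
    rw [List.ofFn_succ]; simp
  simp only [Fin.consEquiv, Equiv.coe_fn_mk, Fin.prod_univ_succ, Fin.cons_zero, Fin.cons_succ]
  by_cases h : f (x :: List.ofFn w)
  · rw [if_pos h, if_pos (this ▸ h)]
  · rw [if_neg h, if_neg (this ▸ h), mul_zero]

lemma pr_nonneg (hp : ∀ i, 0 ≤ p i) (n : ℕ) (f : List (Fin s) → Prop) : 0 ≤ pr p n f := by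
  refine Finset.sum_nonneg fun w _ => ?_
  split_ifs
  · exact Finset.prod_nonneg fun i _ => hp _
  · exact le_rfl

lemma pr_drop (h1 : ∑ i, p i = 1) (n : ℕ) : ∀ f : List (Fin s) → Prop,
    pr p (n + 1) (fun w => f w.dropLast) = pr p n f := by
  induction n with
  | zero =>
    intro f
    rw [pr_succ]
    have : ∀ x : Fin s, (pr p 0 fun w => f (x :: w).dropLast) = pr p 0 f := by
      intro x; rw [pr_zero, pr_zero]; rfl
    simp only [this]
    rw [← Finset.sum_mul, h1, one_mul]
  | succ n ih =>
    intro f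
    rw [pr_succ, pr_succ n f]
    refine Finset.sum_congr rfl fun x _ => ?_
    rw [← ih, pr_succ, pr_succ]
    rfl

lemma hit_zero {A : List (Fin s)} : hit p A 0 = 0 := by
  simp [hit, pr_zero]

lemma hit_succ (h1 : ∑ i, p i = 1) (A : List (Fin s)) (n : ℕ) :
    hit p A (n + 1) = surv p A n - surv p A (n + 1) := by
  unfold hit surv
  rw [← pr_drop h1 n]
  unfold pr
  rw [← Finset.sum_sub_distrib]
  refine Finset.sum_congr rfl fun w _ => ?_
  have : A <:+: (List.ofFn w).dropLast → A <:+: List.ofFn w :=
    fun h => h.trans (List.dropLast_prefix _).isInfix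
  by_cases h : A <:+: (List.ofFn w).dropLast
  · rw [if_neg (fun h' => h'.2 h), if_neg (not_not.2 h), if_neg (not_not.2 (this h)), sub_self]
  · by_cases h' : A <:+: List.ofFn w
    · rw [if_pos ⟨h', h⟩, if_pos h, if_neg (not_not.2 h'), sub_zero]
    · rw [if_neg (fun h'' => h' h''.1), if_pos h, if_pos h', sub_self]

lemma pr_false (n : ℕ) : pr p n (fun _ => False) = 0 := by simp [pr]

theorem recur (h1 : ∑ i, p i = 1) {a b : Fin s} (hab : a ≠ b) :
    surv p [a, b, a] 0 = 1 ∧ surv p [a, b, a] 1 = 1 ∧ surv p [a, b, a] 2 = 1 ∧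
    ∀ n, surv p [a, b, a] (n + 3) = surv p [a, b, a] (n + 2) - p a * p b * surv p [a, b, a] (n + 1)
      + p a * p b * (1 - p a) * surv p [a, b, a] n := by
  set T := surv p [a, b, a] with hT
  set U : ℕ → ℝ := fun n => pr p n fun w => ¬ [a, b, a] <:+: a :: w with hU
  set V : ℕ → ℝ := fun n => pr p n fun w => ¬ [a, b, a] <:+: a :: b :: w with hV
  have k1 : ∀ n x, x ≠ a → (pr p n fun w => ¬ [a, b, a] <:+: x :: w) = T n := by
    intro n x hx
    simp [hT, surv, List.infix_cons_iff, hx.symm]
  have e1 : ∀ n, T (n + 1) = T n + p a * (U n - T n) := by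
    intro n
    have : ∀ x, p x * (pr p n fun w => ¬ [a, b, a] <:+: x :: w)
        = p x * T n + if x = a then p a * (U n - T n) else 0 := by
      intro x
      by_cases hx : x = a
      · rw [if_pos hx, hx, hU]; ring
      · rw [if_neg hx, k1 n x hx, add_zero]
    rw [hT, surv, pr_succ, ← hT]
    simp only [this]
    rw [Finset.sum_add_distrib, ← Finset.sum_mul, h1]
    simp
  have e2 : ∀ n, U (n + 1) = T n + p a * (U n - T n) + p b * (V n - T n) := by
    intro n
    have : ∀ x, p x * (pr p n fun w => ¬ [a, b, a] <:+: a :: x :: w)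
        = p x * T n + (if x = a then p a * (U n - T n) else 0)
          + if x = b then p b * (V n - T n) else 0 := by
      intro x
      by_cases hx' : x = b
      · rw [if_pos hx', if_neg (hx' ▸ hab.symm), hx', hV]; ring
      have : (pr p n fun w => ¬ [a, b, a] <:+: a :: x :: w)
          = pr p n fun w => ¬ [a, b, a] <:+: x :: w := by
        congr 1; funext w
        rw [List.infix_cons_iff]
        simp [Ne.symm hx']
      rw [this, if_neg hx']
      by_cases hx : x = a
      · rw [if_pos hx, hx, hU]; ring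
      · rw [if_neg hx, k1 n x hx]; ring
    simp only [hU]
    rw [pr_succ]
    simp only [this]
    rw [Finset.sum_add_distrib, Finset.sum_add_distrib, ← Finset.sum_mul, h1]
    simp [hU]
  have e3 : ∀ n, V (n + 1) = T n - p a * T n := by
    intro n
    have : ∀ x, p x * (pr p n fun w => ¬ [a, b, a] <:+: a :: b :: x :: w)
        = p x * T n + (if x = a then - (p a * T n) else 0) := by
      intro x
      by_cases hx : x = a
      · have : (fun w => ¬ [a, b, a] <:+: a :: b :: x :: w) = fun _ => False := by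
          funext w
          rw [List.infix_cons_iff]
          simp [hx]
        rw [this, pr_false, if_pos hx, hx]; ring
      · have : (pr p n fun w => ¬ [a, b, a] <:+: a :: b :: x :: w)
            = pr p n fun w => ¬ [a, b, a] <:+: x :: w := by
          congr 1; funext w
          rw [List.infix_cons_iff, List.infix_cons_iff]
          simp [Ne.symm hx, hab]
        rw [this, if_neg hx, k1 n x hx, add_zero]
    simp only [hV]
    rw [pr_succ]
    simp only [this]
    rw [Finset.sum_add_distrib, ← Finset.sum_mul, h1]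
    simp; ring
  have z1 : T 0 = 1 := by simp [hT, surv, pr_zero]
  have z2 : U 0 = 1 := by simp [hU, pr_zero, List.infix_cons_iff]
  have z3 : V 0 = 1 := by simp [hV, pr_zero, List.infix_cons_iff]
  have o1 : T 1 = 1 := by rw [e1, z1, z2]; ring
  have o2 : U 1 = 1 := by rw [e2, z1, z2, z3]; ring
  refine ⟨z1, o1, by rw [e1, o1, o2]; ring, fun n => ?_⟩
  linear_combination e1 (n + 2) + p a * e2 (n + 1) + p a * p b * e3 n - p a * e1 (n + 1)

end Pool.Agent.H3.Race
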