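import Pool.Agent.H3.RaA

namespace Pool.Agent.H3.Race

def De (q r Q R : ℝ) : ℝ := (1)*R + (-1)*Q + (1)*r + (5)*r*R + (-4)*r*Q + (-2)*r*Q*R + (2)*r*Q^2 + (-5)*r^2*R^2 + (3)*r^2*Q*R + (1)*r^2*Q^2*R + (-1)*r^2*Q^3 + (1)*r^3*R^3 + (-1)*q + (-4)*q*R + (3)*q*Q + (-2)*q*r*R + (3)*q*r*R^2 + (-2)*q*r*Q*R + (1)*q*r*Q^2 + (-1)*q*r^2*Q*R^2 + (2)*q^2*R + (1)*q^2*Q*R + (-1)*q^2*Q^2 + (1)*q^2*r*R^2 + (-1)*q^3*R^2

def Nu (q r Q R : ℝ) : ℝ := (-1)*R + (1)*Q + (1)*r + (1)*r*Q + (2)*r*Q*R + (-2)*r*Q^2 + (-3)*r^2*Q*R + (1)*r^2*Q^2 + (-1)*r^2*Q^2*R + (1)*r^2*Q^3 + (1)*r^3*Q*R^2 + (-1)*q + (-1)*q*R + (-2)*q*r*R + (3)*q*r*R^2 + (-1)*q*r*Q^2 + (-1)*q*r^2*R^3 + (2)*q^2*R + (-1)*q^2*R^2 + (1)*q^2*Q*R + (1)*q^2*r*R^2 + (-1)*q^3*R^2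

structure Rec (T : ℕ → ℝ) (q r : ℝ) : Prop where
  nn : ∀ n, 0 ≤ T n
  anti : ∀ n, T (n + 1) ≤ T n
  z0 : T 0 = 1
  z1 : T 1 = 1
  z2 : T 2 = 1
  hq : 0 ≤ q
  hr : r < q
  step : ∀ n, T (n + 3) = T (n + 2) - q * T (n + 1) + r * T n

lemma Rec.le_one {T : ℕ → ℝ} {q r : ℝ} (h : Rec T q r) (n : ℕ) : T n ≤ 1 := by
  induction n with
  | zero => exact h.z0.le
  | succ n ih => exact (h.anti n).trans ih

lemma Rec.summable {T : ℕ → ℝ} {q r : ℝ} (h : Rec T q r) : Summable T := by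
  refine summable_of_sum_range_le (c := (1 + q) / (q - r)) h.nn fun N => ?_
  have e : (q - r) * ∑ i ∈ Finset.range N, T i = 1 + q - T (N + 2) - q * T N := by
    induction N with
    | zero => simp [h.z0, h.z2]
    | succ N ih => rw [Finset.sum_range_succ]; linear_combination ih + h.step N
  rw [le_div_iff₀ (sub_pos.2 h.hr), mul_comm, e]
  have := h.nn (N + 2)
  have := mul_nonneg h.hq (h.nn N)
  linarith

theorem key {T S : ℕ → ℝ} {q r Q R : ℝ} (h : Rec T q r) (g : Rec S Q R) :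
    De q r Q R * (2 * (∑' n, (T n - T (n + 1)) * (S (n + 1) + (S n - S (n + 1)) / 2)) - 1)
      = Nu q r Q R := by
  have sm : ∀ i j, Summable fun n => T (n + i) * S (n + j) := fun i j =>
    Summable.of_nonneg_of_le (fun n => mul_nonneg (h.nn _) (g.nn _))
      (fun n => mul_le_of_le_one_right (h.nn _) (g.le_one _))
      ((summable_nat_add_iff i).2 h.summable)
  set Y : ℕ → ℕ → ℝ := fun i j => ∑' n, T (n + i) * S (n + j) with hY
  have sh : ∀ i j, Y (i + 1) (j + 1) = Y i j - T i * S j := by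
    intro i j
    simp only [hY]
    rw [(sm i j).tsum_eq_zero_add]
    simp only [zero_add, add_assoc, add_comm 1]
    ring
  have ra : ∀ j, Y 3 j = Y 2 j - q * Y 1 j + r * Y 0 j := by
    intro j
    simp only [hY]
    rw [← tsum_mul_left, ← tsum_mul_left, ← (sm 2 j).tsum_sub ((sm 1 j).mul_left q),
      ← ((sm 2 j).sub ((sm 1 j).mul_left q)).tsum_add ((sm 0 j).mul_left r)]
    refine tsum_congr fun n => ?_
    rw [h.step n, add_zero]; ring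
  have rb : ∀ i, Y i 3 = Y i 2 - Q * Y i 1 + R * Y i 0 := by
    intro i
    simp only [hY]
    rw [← tsum_mul_left, ← tsum_mul_left, ← (sm i 2).tsum_sub ((sm i 1).mul_left Q),
      ← ((sm i 2).sub ((sm i 1).mul_left Q)).tsum_add ((sm i 0).mul_left R)]
    refine tsum_congr fun n => ?_
    rw [g.step n, add_zero]; ring
  have w : 2 * (∑' n, (T n - T (n + 1)) * (S (n + 1) + (S n - S (n + 1)) / 2))
      = Y 0 0 + Y 0 1 - Y 1 0 - Y 1 1 := by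
    simp only [hY]
    rw [← tsum_mul_left, ← (sm 0 0).tsum_add (sm 0 1),
      ← ((sm 0 0).add (sm 0 1)).tsum_sub (sm 1 0),
      ← (((sm 0 0).add (sm 0 1)).sub (sm 1 0)).tsum_sub (sm 1 1)]
    refine tsum_congr fun n => ?_
    simp only [add_zero]; ring
  have y11 : Y 1 1 = Y 0 0 - 1 := by rw [sh 0 0, h.z0, g.z0, mul_one]
  have y12 : Y 1 2 = Y 0 1 - 1 := by rw [sh 0 1, h.z0, g.z1, mul_one]
  have y21 : Y 2 1 = Y 1 0 - 1 := by rw [sh 1 0, h.z1, g.z0, mul_one]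
  have y22 : Y 2 2 = Y 0 0 - 2 := by rw [sh 1 1, h.z1, g.z1, y11]; ring
  have y13 : Y 1 3 = Y 0 2 - 1 := by rw [sh 0 2, h.z0, g.z2, mul_one]
  have y31 : Y 3 1 = Y 2 0 - 1 := by rw [sh 2 0, h.z2, g.z0, mul_one]
  have y23 : Y 2 3 = Y 0 1 - 2 := by rw [sh 1 2, h.z1, g.z2, y12]; ring
  have y32 : Y 3 2 = Y 1 0 - 2 := by rw [sh 2 1, h.z2, g.z1, y21]; ring
  have y33 : Y 3 3 = Y 0 0 - 3 := by rw [sh 2 2, h.z2, g.z2, y22]; ring
  have a1 := ra 1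
  have a2 := ra 2
  have a3 := ra 3
  have b1 := rb 1
  have b2 := rb 2
  rw [y31, y21, y11] at a1
  rw [y32, y22, y12] at a2
  rw [y33, y23, y13, rb 0] at a3
  rw [y13, y12, y11] at b1
  rw [y23, y22, y21] at b2
  rw [w, y11, De, Nu]
  linear_combination ((2)*r*R + (3)*r*R^2 + (-3)*r*Q*R + (-1)*r^2*R^2 + (-1)*r^2*R^3 + (1)*r^2*Q^2*R + (-2)*q*R + (-1)*q*R^2 + (1)*q*Q*R + (1)*q*r*R^2 + (-1)*q*r*Q*R + (1)*q^2*Q*R) * a1 + ((-1)*R + (1)*Q + (-1)*r + (-3)*r*R + (1)*r*R^2 + (2)*r*Q + (-2)*r*Q*R + (1)*r*Q^2 + (1)*r^2*R^2 + (-1)*r^2*Q*R + (1)*q + (2)*q*R + (-1)*q*Q + (1)*q*Q*R + (-1)*q*Q^2 + (1)*q*r*R + (1)*q*r*R^2 + (-1)*q^2*R + (-1)*q^2*R^2) * a2 + ((-1)*R + (1)*Q + (1)*r + (-1)*r*Q + (1)*r*Q*R + (-1)*r*Q^2 + (1)*r^2*Q*R + (-1)*q + (1)*q*R + (-1)*q*r*R + (-1)*q*r*R^2 + (1)*q^2*R) * a3 + ((-2)*r*R + (2)*r*Q + (-3)*r^2*R + (1)*r^2*R^2 + (1)*r^2*Q + (-1)*r^2*Q*R + (1)*r^3*R^2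 + (1)*q*R + (-1)*q*Q + (-1)*q*r + (3)*q*r*R + (-1)*q*r^2*Q*R + (1)*q^2 + (-1)*q^2*R + (1)*q^2*r*R + (-1)*q^3*R) * b1 + ((2)*r + (3)*r*R + (-3)*r*Q + (-1)*r^2*R + (-1)*r^2*R^2 + (1)*r^2*Q^2 + (-2)*q + (-1)*q*R + (1)*q*Q + (1)*q*r*R + (-1)*q*r*Q + (1)*q^2*Q) * b2

variable {s : ℕ} {p : Fin s → ℝ}

lemma rec_word (hp : ∀ i, 0 < p i) (h1 : ∑ i, p i = 1) {a b : Fin s} (hab : a ≠ b) :
    Rec (surv p [a, b, a]) (p a * p b) (p a * p b * (1 - p a)) := by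
  obtain ⟨z0, z1, z2, st⟩ := recur h1 hab
  refine ⟨fun n => pr_nonneg (fun i => (hp i).le) _ _, fun n => ?_, z0, z1, z2,
    (mul_pos (hp a) (hp b)).le, ?_, st⟩
  · have := hit_succ h1 [a, b, a] n
    have h0 : 0 ≤ hit p [a, b, a] (n + 1) := pr_nonneg (fun i => (hp i).le) _ _
    linarith
  · nlinarith [mul_pos (mul_pos (hp a) (hp b)) (hp a)]

theorem win_gt (hp : ∀ i, 0 < p i) (h1 : ∑ i, p i = 1) {a b c d : Fin s} (hab : a ≠ b)
    (hcd : c ≠ d)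
    (hD : De (p a * p b) (p a * p b * (1 - p a)) (p c * p d) (p c * p d * (1 - p c)) < 0)
    (hN : Nu (p a * p b) (p a * p b * (1 - p a)) (p c * p d) (p c * p d * (1 - p c)) < 0) :
    1 / 2 < win p [a, b, a] [c, d, c] := by
  have h := rec_word hp h1 hab
  have g := rec_word hp h1 hcd
  have k := key h g
  have sm : Summable fun n => hit p [a, b, a] (n + 1)
      * (surv p [c, d, c] (n + 1) + hit p [c, d, c] (n + 1) / 2) := by
    refine Summable.of_nonneg_of_le (fun n => ?_) (fun n => ?_) h.summable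
    · simp only [hit_succ h1]
      have := h.anti n; have := g.anti n; have := g.nn (n + 1)
      exact mul_nonneg (by linarith) (by linarith)
    · simp only [hit_succ h1]
      have := h.anti n; have := g.anti n; have := g.nn (n + 1); have := g.le_one n
      have := h.nn (n + 1)
      refine (mul_le_of_le_one_right (by linarith) (by linarith)).trans (by linarith)
  have e : win p [a, b, a] [c, d, c] = ∑' n, (surv p [a, b, a] n - surv p [a, b, a] (n + 1))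
      * (surv p [c, d, c] (n + 1) + (surv p [c, d, c] n - surv p [c, d, c] (n + 1)) / 2) := by
    rw [win, ((summable_nat_add_iff 1).1 sm).tsum_eq_zero_add, hit_zero, zero_mul, zero_add]
    simp only [hit_succ h1]
  rw [← e] at k
  by_contra hn
  have := mul_nonneg_of_nonpos_of_nonpos hD.le
    (show 2 * win p [a, b, a] [c, d, c] - 1 ≤ 0 by linarith [not_lt.1 hn])
  linarith

end Pool.Agent.H3.Race
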