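import Mathlib

set_option autoImplicit false
open scoped Pointwise

namespace Pool.Agent.H3.Retr

variable {G : Type} [Group G] [DecidableEq G] (σ : Finset G → G)

/-- `c` lies in the hull of `J` -/
def Hull (c : G) (J : Set G) : Prop :=
  ∃ U : Finset G, (U : Set G) ⊆ J ∧ ∀ V : Finset G, U ⊆ V → V.Nonempty → σ (insert c V) = σ V

variable {σ}

lemma Hull.mono {c : G} {J K : Set G} (h : Hull σ c J) (hJK : J ⊆ K) : Hull σ c K := by
  obtain ⟨U, h1, h2⟩ := h; exact ⟨U, h1.trans hJK, h2⟩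

lemma cancel (hm : ∀ X Y : Finset G, X.Nonempty → Y.Nonempty → σ (X * Y) = σ X * σ Y)
    {c k : G} {U : Finset G}
    (h1 : ∀ V : Finset G, U ∪ U * {k} ⊆ V → V.Nonempty → σ (insert c V) = σ V)
    (h2 : ∀ V : Finset G, U ∪ U * {k⁻¹} ⊆ V → V.Nonempty → σ (insert c V) = σ V) :
    ∀ V : Finset G, U ⊆ V → V.Nonempty → σ (insert c V) = σ V := by
  intro V hV hne
  set W := V * ({1, k} : Finset G) with hW
  have hk : ({1, k} : Finset G).Nonempty := ⟨1, by simp⟩
  have hWne : W.Nonempty := hne.mul hk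
  have m1 : ∀ v ∈ V, v ∈ W := fun v hv => by
    simpa using Finset.mul_mem_mul hv (show (1 : G) ∈ ({1, k} : Finset G) by simp)
  have m2 : ∀ v ∈ V, v * k ∈ W := fun v hv => Finset.mul_mem_mul hv (by simp)
  have e1 : insert c V * ({1, k} : Finset G) = insert c (insert (c * k) W) := by
    ext x
    simp only [hW, Finset.mem_mul, Finset.mem_insert, Finset.mem_singleton]
    constructor
    · rintro ⟨y, rfl | hy, z, hz, rfl⟩
      · rcases hz with rfl | rfl <;> simp
      · exact Or.inr (Or.inr ⟨y, hy, z, hz, rfl⟩)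
    · rintro (rfl | rfl | ⟨y, hy, z, hz, rfl⟩)
      · exact ⟨x, Or.inl rfl, 1, Or.inl rfl, mul_one _⟩
      · exact ⟨c, Or.inl rfl, k, Or.inr rfl, rfl⟩
      · exact ⟨y, Or.inr hy, z, hz, rfl⟩
  have e2 : σ (insert c (insert (c * k) W)) = σ (insert (c * k) W) := by
    refine h1 _ ?_ (Finset.insert_nonempty _ _)
    intro x hx
    refine Finset.mem_insert_of_mem ?_
    rcases Finset.mem_union.1 hx with hx | hx
    · exact m1 x (hV hx)
    · obtain ⟨y, hy, z, hz, rfl⟩ := Finset.mem_mul.1 hx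
      rw [Finset.mem_singleton.1 hz]; exact m2 y (hV hy)
  have e3 : σ (insert (c * k) W) = σ W := by
    have hne' : (W * {k⁻¹}).Nonempty := hWne.mul (Finset.singleton_nonempty _)
    have a := h2 (W * {k⁻¹}) (by
      intro x hx
      rcases Finset.mem_union.1 hx with hx | hx
      · simpa using Finset.mul_mem_mul (m2 x (hV hx)) (Finset.mem_singleton_self k⁻¹)
      · obtain ⟨y, hy, z, hz, rfl⟩ := Finset.mem_mul.1 hx
        exact Finset.mul_mem_mul (m1 y (hV hy)) hz) hne'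
    have b : insert (c * k) W * {k⁻¹} = insert c (W * {k⁻¹}) := by
      rw [Finset.insert_eq, Finset.union_mul, Finset.singleton_mul_singleton, Finset.insert_eq]
      simp
    rw [← b, hm _ _ (Finset.insert_nonempty _ _) (Finset.singleton_nonempty _),
      hm _ _ hWne (Finset.singleton_nonempty _)] at a
    exact mul_right_cancel a
  have := e2.trans e3
  rw [← e1, hW, hm _ _ (Finset.insert_nonempty _ _) hk, hm _ _ hne hk] at this
  exact mul_right_cancel this

theorem sep0 (hm : ∀ X Y : Finset G, X.Nonempty → Y.Nonempty → σ (X * Y) = σ X * σ Y)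
    {a c : G} (h : ¬ Hull σ c {a}) : ∃ r : G → G → Prop, (∀ x, r x x) ∧
      (∀ x y z, r x y → r y z → r x z) ∧ (∀ x y, r x y ∨ r y x) ∧
      (∀ s x y, r x y → r (s * x) (s * y)) ∧ ¬ r c a := by
  obtain ⟨J, hJ, hmax⟩ := zorn_subset_nonempty {J : Set G | ¬ Hull σ c J} (by
    intro C hC hch hne
    refine ⟨⋃₀ C, ?_, fun s hs => Set.subset_sUnion_of_mem hs⟩
    rintro ⟨U, h1, h2⟩
    obtain ⟨K, hK, hUK⟩ := hch.directedOn.exists_mem_subset_of_finset_subset_biUnion hne
      (f := id) (by simpa [Set.sUnion_eq_biUnion] using h1)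
    exact hC hK ⟨U, hUK, h2⟩) {a} h
  have out : ∀ d, d ∉ J → Hull σ c (insert d J) := by
    intro d hd
    by_contra hc
    exact hd (hmax.le_of_ge hc (Set.subset_insert d J) (Set.mem_insert d J))
  refine ⟨fun g h => ∀ s, s * h ∈ J → s * g ∈ J, fun _ _ h => h,
    fun x y z h1 h2 s hs => h1 s (h2 s hs), ?_, fun t x y h s hs => ?_, fun hr => ?_⟩
  · intro g h
    by_contra hc
    push Not at hc
    obtain ⟨⟨s, a1, a2⟩, ⟨t, b1, b2⟩⟩ := hc
    obtain ⟨U1, c1, d1⟩ := out _ a2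
    obtain ⟨U2, c2, d2⟩ := out _ b2
    let U : Finset G := insert (s * h) (insert (t * g) (U1.erase (s * g) ∪ U2.erase (t * h)))
    refine hmax.prop ⟨U, ?_, cancel hm (k := h⁻¹ * g) (fun V hV => d1 V (subset_trans ?_ hV))
      (fun V hV => d2 V (subset_trans ?_ hV))⟩
    · intro x hx
      simp only [U, Finset.coe_insert, Finset.coe_union, Finset.coe_erase, Set.mem_insert_iff,
        Set.mem_union, Set.mem_diff, Set.mem_singleton_iff] at hx
      rcases hx with rfl | rfl | ⟨e, f⟩ | ⟨e, f⟩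
      · exact a1
      · exact b1
      · exact (c1 e).resolve_left f
      · exact (c2 e).resolve_left f
    · intro x hx
      by_cases e : x = s * g
      · refine Finset.mem_union_right _ (Finset.mem_mul.2 ⟨s * h, by simp [U], _,
          Finset.mem_singleton_self _, ?_⟩)
        rw [e]; group
      · exact Finset.mem_union_left _ (by simp [U, e, hx])
    · intro x hx
      by_cases e : x = t * h
      · refine Finset.mem_union_right _ (Finset.mem_mul.2 ⟨t * g, by simp [U], _,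
          Finset.mem_singleton_self _, ?_⟩)
        rw [e]; group
      · exact Finset.mem_union_left _ (by simp [U, e, hx])
  · rw [← mul_assoc] at hs ⊢; exact h _ hs
  · have : c ∈ J := by simpa using hr 1 (by simpa using hJ rfl)
    exact hmax.prop ⟨{c}, by simpa using this, fun V hV _ => by
      rw [Finset.insert_eq_of_mem (hV (Finset.mem_singleton_self c))]⟩

theorem sep (h1 : ∀ g : G, σ {g} = g)
    (hm : ∀ X Y : Finset G, X.Nonempty → Y.Nonempty → σ (X * Y) = σ X * σ Y)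
    {a c : G} (h : a ≠ c) : ∃ r : G → G → Prop, (∀ x, r x x) ∧
      (∀ x y z, r x y → r y z → r x z) ∧ (∀ x y, r x y ∨ r y x) ∧
      (∀ s x y, r x y → r (s * x) (s * y)) ∧ ¬ (r c a ∧ r a c) := by
  have key : ∀ a c : G, Hull σ c {a} → σ {c, a} = a := by
    rintro a c ⟨U, e1, e2⟩
    rw [e2 {a} (fun x hx => Finset.mem_singleton.2 (e1 hx)) (Finset.singleton_nonempty _), h1]
  by_cases e : Hull σ c {a}
  · by_cases e' : Hull σ a {c}
    · exact absurd (by rw [← key a c e, Finset.pair_comm, key c a e']) h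
    · obtain ⟨r, r1, r2, r3, r4, r5⟩ := sep0 hm e'
      exact ⟨r, r1, r2, r3, r4, fun x => r5 x.2⟩
  · obtain ⟨r, r1, r2, r3, r4, r5⟩ := sep0 hm e
    exact ⟨r, r1, r2, r3, r4, fun x => r5 x.1⟩

omit [Group G] [DecidableEq G] in
lemma top (r : G → G → Prop) (r1 : ∀ x, r x x) (r2 : ∀ x y z, r x y → r y z → r x z)
    (r3 : ∀ x y, r x y ∨ r y x) (f : G → G) (X : Finset G) (h : X.Nonempty) :
    ∃ m ∈ X, ∀ x ∈ X, r (f x) (f m) := by
  classical
  induction h using Finset.Nonempty.cons_induction with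
  | singleton a => exact ⟨a, by simp, by simp [r1]⟩
  | cons a s ha hs ih =>
    obtain ⟨m, hm, h⟩ := ih
    rcases r3 (f a) (f m) with e | e
    · exact ⟨m, by simp [hm], by simpa using ⟨e, h⟩⟩
    · exact ⟨a, by simp, by simpa using ⟨r1 _, fun x hx => r2 _ _ _ (h x hx) e⟩⟩

theorem up (h1 : ∀ g : G, σ {g} = g)
    (hm : ∀ X Y : Finset G, X.Nonempty → Y.Nonempty → σ (X * Y) = σ X * σ Y) :
    UniqueProds G := by
  classical
  refine ⟨fun {X Y} hX hY => ?_⟩
  induction Y using Finset.strongInduction generalizing X with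
  | H Y ih =>
  by_cases hc : ∃ a ∈ Y, ∃ c ∈ Y, a ≠ c
  · obtain ⟨a, ha, c, hc, hac⟩ := hc
    obtain ⟨r, r1, r2, r3, r4, r5⟩ := sep h1 hm hac
    obtain ⟨m, hmY, hm'⟩ := top r r1 r2 r3 id Y hY
    obtain ⟨n, hnX, hn⟩ := top r r1 r2 r3 (fun x => x * m) X hX
    have hss : Y.filter (fun y => r m y) ⊂ Y := by
      refine Finset.filter_ssubset.2 ?_
      by_contra hq
      push Not at hq
      exact r5 ⟨r2 _ _ _ (hm' c hc) (hq a ha), r2 _ _ _ (hm' a ha) (hq c hc)⟩
    obtain ⟨x, hx, y, hy, hu⟩ := ih _ hss (X := X.filter fun x => r (n * m) (x * m))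
      ⟨n, by simp [hnX, r1]⟩ ⟨m, by simp [hmY, r1]⟩
    rw [Finset.mem_filter] at hx hy
    refine ⟨x, hx.1, y, hy.1, fun p q hp hq e => hu ?_ ?_ e⟩
    · have : r (n * m) (p * q) := e ▸ r2 _ _ _ hx.2 (r4 x _ _ hy.2)
      exact Finset.mem_filter.2 ⟨hp, r2 _ _ _ this (r4 p _ _ (hm' q hq))⟩
    · have : r (n * m) (p * q) := e ▸ r2 _ _ _ hx.2 (r4 x _ _ hy.2)
      refine Finset.mem_filter.2 ⟨hq, ?_⟩
      simpa using r4 p⁻¹ _ _ (r2 _ _ _ (hn p hp) this)
  · push Not at hc
    obtain ⟨x, hx⟩ := hX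
    obtain ⟨y, hy⟩ := hY
    refine ⟨x, hx, y, hy, fun p q _ hq e => ?_⟩
    have := hc q hq y hy
    subst this
    exact ⟨mul_right_cancel e, rfl⟩

end Pool.Agent.H3.Retr
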