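import Mathlib

open Filter Topology Set MeasureTheory
open scoped ENNReal

namespace Pool.Agent.H3.Rw

/-- position after t steps of the walk with increments w 0, w 1, ... started at the identity -/
def walk {G : Type} [Group G] (w : ℕ → G) : ℕ → G
  | 0 => 1
  | t + 1 => walk w t * w t

variable {G : Type} [Group G] [MeasurableSpace G] (μ : Measure G) [IsProbabilityMeasure μ]

lemma walk_meas [MeasurableMul₂ G] (t : ℕ) : Measurable fun w : ℕ → G => walk w t := by
  induction t with
  | zero => exact measurable_const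
  | succ t ih => exact ih.mul (measurable_pi_apply t)

omit [MeasurableSpace G] in
lemma walk_upd (w : ℕ → G) (t : ℕ) (y : G) : ∀ s, s ≤ t → walk (Function.update w t y) s = walk w s
  | 0, _ => rfl
  | s + 1, h => by
    rw [walk, walk, walk_upd w t y s (by omega), Function.update_of_ne (by omega)]

omit [Group G] in
lemma upd_mp (t : ℕ) : MeasurePreserving (fun p : (ℕ → G) × G => Function.update p.1 t p.2)
    ((Measure.infinitePi fun _ : ℕ => μ).prod μ) (Measure.infinitePi fun _ : ℕ => μ) := by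
  refine ⟨measurable_update', Measure.eq_infinitePi _ fun s A hA => ?_⟩
  rw [Measure.map_apply measurable_update' (MeasurableSet.pi s.countable_toSet fun i _ => hA i)]
  by_cases ht : t ∈ s
  · have : (fun p : (ℕ → G) × G => Function.update p.1 t p.2) ⁻¹' Set.pi s A
        = Set.pi (s.erase t) A ×ˢ A t := by
      ext ⟨w, y⟩
      simp only [mem_preimage, Set.mem_pi, Finset.mem_coe, mem_prod, Finset.mem_erase]
      refine ⟨fun h => ⟨fun i hi => ?_, by simpa using h t ht⟩, fun h i hi => ?_⟩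
      · simpa [Function.update_of_ne hi.1] using h i hi.2
      · by_cases hi' : i = t
        · subst hi'; simpa using h.2
        · simpa [Function.update_of_ne hi'] using h.1 i ⟨hi', hi⟩
    rw [this, Measure.prod_prod, Measure.infinitePi_pi _ fun i _ => hA i,
      Finset.prod_erase_mul _ _ ht]
  · have : (fun p : (ℕ → G) × G => Function.update p.1 t p.2) ⁻¹' Set.pi s A
        = Set.pi s A ×ˢ univ := by
      ext ⟨w, y⟩
      simp only [mem_preimage, Set.mem_pi, Finset.mem_coe, mem_prod, mem_univ, and_true]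
      refine forall₂_congr fun i hi => ?_
      rw [Function.update_of_ne (fun h : i = t => ht (h ▸ hi))]
    rw [this, Measure.prod_prod, Measure.infinitePi_pi _ fun i _ => hA i, measure_univ, mul_one]

lemma fub [MeasurableMul₂ G] (t : ℕ) {F : G × G → ℝ≥0∞} (hF : Measurable F) :
    ∫⁻ w, F (walk w t, w t) ∂(Measure.infinitePi fun _ : ℕ => μ)
      = ∫⁻ y, ∫⁻ w, F (walk w t, y) ∂(Measure.infinitePi fun _ : ℕ => μ) ∂μ := by
  have m : Measurable fun w : ℕ → G => F (walk w t, w t) :=
    hF.comp ((walk_meas t).prodMk (measurable_pi_apply t))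
  rw [← (upd_mp μ t).lintegral_comp m]
  refine (lintegral_prod_symm _ (m.comp (upd_mp μ t).measurable).aemeasurable).trans ?_
  simp only [Function.comp_def, walk_upd _ _ _ t le_rfl, Function.update_self]

variable {Φ : Type} [NormedAddCommGroup Φ] [NormedSpace ℝ Φ]

lemma min_le_add_min_aux {a b : ℝ≥0∞} : min 1 (a + b) ≤ min 1 a + min 1 b := by
  rcases le_total 1 a with h | h
  · rw [min_eq_left h]; exact (min_le_left _ _).trans le_self_add
  rcases le_total 1 b with h' | h'
  · rw [min_eq_left h']; exact (min_le_left _ _).trans le_add_self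
  rw [min_eq_right h, min_eq_right h']; exact min_le_right _ _

def Zs {Ω : Type} [MeasurableSpace Ω] (P : Measure Ω) (T : ℕ → Ω → Module.End ℝ Φ)
    (hT : ∀ t φ, Measurable fun ω => ‖T t ω φ‖ₑ) : Submodule ℝ Φ where
  carrier := {φ | Tendsto (fun t => ∫⁻ ω, min 1 ‖T t ω φ‖ₑ ∂P) atTop (𝓝 0)}
  zero_mem' := by simp
  add_mem' := by
    intro a b ha hb
    have := Tendsto.add ha hb
    rw [add_zero] at this
    refine tendsto_of_tendsto_of_tendsto_of_le_of_le tendsto_const_nhds this
      (fun _ => zero_le) fun t => ?_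
    beta_reduce
    rw [← lintegral_add_left (measurable_const.min (hT t a))]
    refine lintegral_mono fun ω => ?_
    rw [map_add]
    exact (min_le_min_left _ (enorm_add_le _ _)).trans min_le_add_min_aux
  smul_mem' := by
    intro c a ha
    have := ENNReal.Tendsto.const_mul (a := max 1 ‖c‖ₑ) ha (Or.inr (by simp))
    rw [mul_zero] at this
    refine tendsto_of_tendsto_of_tendsto_of_le_of_le tendsto_const_nhds this
      (fun _ => zero_le) fun t => ?_
    beta_reduce
    rw [← lintegral_const_mul _ (measurable_const.min (hT t a))]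
    refine lintegral_mono fun ω => ?_
    rw [map_smul, enorm_smul, mul_min, mul_one]
    exact min_le_min (le_max_left _ _) (mul_le_mul_left (le_max_right _ _) _)

lemma lemK [FiniteDimensional ℝ Φ] {Ω : Type} [MeasurableSpace Ω] (P : Measure Ω) [SFinite P]
    (T : ℕ → Ω → Module.End ℝ Φ) (hT : ∀ t φ, Measurable fun ω => ‖T t ω φ‖ₑ) (φ : G → Φ)
    (hm : ∀ t, Measurable fun y => ∫⁻ ω, min 1 ‖T t ω (φ y)‖ₑ ∂P)
    (h : Tendsto (fun t => ∫⁻ y, ∫⁻ ω, min 1 ‖T t ω (φ y)‖ₑ ∂P ∂μ) atTop (𝓝 0)) :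
    ∀ᵐ y ∂μ, φ y ∈ Zs P T hT := by
  obtain ⟨W, hW, hmin⟩ := (wellFounded_lt (α := Submodule ℝ Φ)).has_min
    {W | ∀ᵐ y ∂μ, φ y ∈ W} ⟨⊤, by simp⟩
  replace hW : ∀ᵐ y ∂μ, φ y ∈ W := hW
  have le : ∀ W' : Submodule ℝ Φ, (∀ᵐ y ∂μ, φ y ∈ W') → W ≤ W' := by
    intro W' h'
    by_contra hn
    exact hmin (W ⊓ W') (hW.and h') (inf_lt_left.2 hn)
  refine hW.mono fun y hy => tendsto_of_subseq_tendsto fun ns hns => ?_
  obtain ⟨ms, -, hms⟩ := extraction_forall_of_eventually
    (P := fun n k => ∫⁻ y, ∫⁻ ω, min 1 ‖T (ns k) ω (φ y)‖ₑ ∂P ∂μ < 2⁻¹ ^ n)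
    fun n => (h.comp hns).eventually (gt_mem_nhds (ENNReal.pow_pos (by simp) n))
  refine ⟨ms, le (Zs P (fun i => T (ns (ms i))) fun i => hT _) ?_ hy⟩
  have fin : ∫⁻ y, ∑' i, ∫⁻ ω, min 1 ‖T (ns (ms i)) ω (φ y)‖ₑ ∂P ∂μ ≠ ∞ := by
    rw [lintegral_tsum fun i => (hm _).aemeasurable]
    refine ne_top_of_le_ne_top ?_ (ENNReal.tsum_le_tsum fun i => (hms i).le)
    simp
  filter_upwards [ae_lt_top (Measurable.ennreal_tsum fun i => hm _) fin] with z hz
  exact ENNReal.tendsto_atTop_zero_of_tsum_ne_top hz.ne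

end Pool.Agent.H3.Rw
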