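import Pool.Agent.H3.RwA

open Filter Topology Set MeasureTheory
open scoped ENNReal

namespace Pool.Agent.H3.Rw

variable {G : Type} [Group G] [MeasurableSpace G] (μ : Measure G) [IsProbabilityMeasure μ]
  [MeasurableMul₂ G] {Φ : Type} [NormedAddCommGroup Φ] [NormedSpace ℝ Φ] [FiniteDimensional ℝ Φ]
  (ρ : G →* Module.End ℝ Φ)

lemma step (hT : ∀ t φ, Measurable fun w : ℕ → G => ‖ρ (walk w t) φ‖ₑ) (ψ : G → Φ)
    (hF : Measurable fun p : G × G => min 1 ‖ρ p.1 (ψ p.2)‖ₑ)
    (h : Tendsto (fun t => ∫⁻ w, min 1 ‖ρ (walk w t) (ψ (w t))‖ₑ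
      ∂(Measure.infinitePi fun _ : ℕ => μ)) atTop (𝓝 0)) :
    ∀ᵐ y ∂μ, ψ y ∈ Zs (Measure.infinitePi fun _ : ℕ => μ) (fun t w => ρ (walk w t)) hT := by
  refine lemK μ _ _ hT ψ (fun t => ?_) (h.congr fun t => fub μ t hF)
  exact (hF.comp (((walk_meas t).comp measurable_fst).prodMk measurable_snd)).lintegral_prod_left'

lemma zero_of_inv [MeasurableInv G] (hs : MeasurePreserving (fun g : G => g⁻¹) μ μ)
    (hT : ∀ t φ, Measurable fun w : ℕ → G => ‖ρ (walk w t) φ‖ₑ) (Z : Submodule ℝ Φ)
    (hZ : Z ≤ Zs (Measure.infinitePi fun _ : ℕ => μ) (fun t w => ρ (walk w t)) hT)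
    (hi : ∀ g, ∀ φ ∈ Z, ρ g φ ∈ Z) : Z = ⊥ := by
  by_contra hne
  haveI : Nontrivial Z := Submodule.nontrivial_iff_ne_bot.2 hne
  haveI : Nonempty (Fin (Module.finrank ℝ Z)) := ⟨⟨0, Module.finrank_pos⟩⟩
  set b := Module.finBasis ℝ Z
  let D : G → ℝ := fun g => LinearMap.det ((ρ g).restrict (hi g))
  have Dm : ∀ g h, D (g * h) = D g * D h := by
    intro g h
    simp only [D]
    rw [← map_mul]
    congr 1
    ext φ
    simp
  have D1 : D 1 = 1 := by
    simp only [D]
    rw [← map_one (LinearMap.det (M := Z) (A := ℝ))]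
    congr 1
    ext φ
    simp
  have Dw : ∀ (w : ℕ → G) t, D (walk (fun i => (w i)⁻¹) t) * D (walk w t) = 1 := by
    intro w t
    induction t with
    | zero => simp [walk, D1]
    | succ t ih =>
      have : D (w t)⁻¹ * D (w t) = 1 := by rw [← Dm, inv_mul_cancel, D1]
      rw [walk, walk, Dm, Dm, mul_mul_mul_comm, ih, this, mul_one]
  have hc : Continuous fun v : Fin (Module.finrank ℝ Z) → Z => b.det v := by
    simp only [Module.Basis.det_apply]
    refine Continuous.matrix_det (continuous_matrix fun i j => ?_)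
    simp only [Module.Basis.toMatrix_apply]
    exact (b.coord i).continuous_of_finiteDimensional.comp (continuous_apply j)
  obtain ⟨δ, hδ, hd⟩ := Metric.continuous_iff.1 hc 0 1 one_pos
  let S : G → ℝ≥0∞ := fun g => ∑ i, min 1 ‖ρ g (b i)‖ₑ
  have key : ∀ g, S g < min 1 (ENNReal.ofReal δ) → |D g| < 1 := by
    intro g hg
    have := hd (fun i => (ρ g).restrict (hi g) (b i)) ?_
    · rw [AlternatingMap.map_zero, Real.dist_eq, sub_zero] at this
      have e := b.det_comp ((ρ g).restrict (hi g)) b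
      rw [Module.Basis.det_self, mul_one] at e
      simp only [D]
      rw [← e]
      exact this
    · rw [dist_zero_right, pi_norm_lt_iff hδ]
      intro i
      have h1 : min 1 ‖ρ g (b i)‖ₑ < min 1 (ENNReal.ofReal δ) :=
        (Finset.single_le_sum (f := fun i => min 1 ‖ρ g (b i)‖ₑ) (fun _ _ => zero_le)
          (Finset.mem_univ i)).trans_lt hg
      have h2 : ‖ρ g (b i)‖ₑ < ENNReal.ofReal δ := lt_of_not_ge fun h => h1.not_ge (min_le_min_left _ h)
      rw [← ofReal_norm_eq_enorm, ENNReal.ofReal_lt_ofReal_iff hδ] at h2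
      exact h2
  have pw : ∀ (w : ℕ → G) t, min 1 (ENNReal.ofReal δ) ≤
      S (walk (fun i => (w i)⁻¹) t) + S (walk w t) := by
    intro w t
    by_contra hn
    rw [not_le] at hn
    have h1 := key _ (le_self_add.trans_lt hn)
    have h2 := key _ (le_add_self.trans_lt hn)
    have h3 := congrArg abs (Dw w t)
    rw [abs_mul, abs_one] at h3
    nlinarith [abs_nonneg (D (walk w t)), abs_nonneg (D (walk (fun i => (w i)⁻¹) t))]
  have mS : ∀ t, Measurable fun w : ℕ → G => S (walk w t) := fun t =>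
    Finset.measurable_sum _ fun i _ => measurable_const.min (hT t _)
  have mp : MeasurePreserving (fun (w : ℕ → G) i => (w i)⁻¹) (Measure.infinitePi fun _ : ℕ => μ)
      (Measure.infinitePi fun _ : ℕ => μ) := by
    refine ⟨measurable_pi_lambda _ fun i => (measurable_pi_apply i).inv, ?_⟩
    rw [Measure.infinitePi_map_pi (fun _ : ℕ => μ) (f := fun _ g => g⁻¹) fun _ => measurable_inv]
    simp only [hs.map_eq]
  have lim : Tendsto (fun t => ∫⁻ w, S (walk w t) ∂(Measure.infinitePi fun _ : ℕ => μ)) atTop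
      (𝓝 0) := by
    have := tendsto_finset_sum (Finset.univ : Finset (Fin (Module.finrank ℝ Z)))
      fun i _ => hZ (b i).2
    rw [Finset.sum_const_zero] at this
    refine this.congr fun t => ?_
    exact (lintegral_finset_sum _ fun i _ => measurable_const.min (hT t _)).symm
  have lim2 := lim.add lim
  rw [add_zero] at lim2
  have : min 1 (ENNReal.ofReal δ) ≤ 0 := ge_of_tendsto' lim2 fun t => by
    have := lintegral_mono (μ := Measure.infinitePi fun _ : ℕ => μ) fun w => pw w t
    rw [lintegral_const, measure_univ, mul_one, lintegral_add_right _ (mS t),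
      mp.lintegral_comp (mS t)] at this
    exact this
  simp [hδ, not_le.2 hδ] at this

theorem fixed [TopologicalSpace G] [IsTopologicalGroup G] [BorelSpace G]
    (hs : MeasurePreserving (fun g : G => g⁻¹) μ μ)
    (had : ∀ H : Subgroup G, IsClosed (H : Set G) → μ H = 1 → H = ⊤)
    (hc : ∀ φ, Continuous fun g => ρ g φ) (e : Φ)
    (he : ∀ᵐ w ∂(Measure.infinitePi fun _ : ℕ => μ),
      ∃ l, Tendsto (fun t => ρ (walk w t) e) atTop (𝓝 l)) (g : G) : ρ g e = e := by
  borelize Φ
  haveI := FiniteDimensional.proper_real Φ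
  have hT : ∀ t φ, Measurable fun w : ℕ → G => ‖ρ (walk w t) φ‖ₑ := fun t φ =>
    (hc φ).measurable.enorm.comp (walk_meas t)
  set Z := Zs (Measure.infinitePi fun _ : ℕ => μ) (fun t w => ρ (walk w t)) hT with hZ
  have mul : ∀ g y φ, ρ g (ρ y φ) = ρ (g * y) φ := fun g y φ => by simp
  have ha : ∀ᵐ y ∂μ, ρ y e - e ∈ Z := by
    have hF : Measurable fun p : G × G => min 1 ‖ρ p.1 (ρ p.2 e - e)‖ₑ := by
      simp only [map_sub, mul]
      exact measurable_const.min ((((hc e).measurable.comp measurable_mul).sub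
        ((hc e).measurable.comp measurable_fst)).enorm)
    refine step μ ρ hT _ hF ?_
    have := tendsto_lintegral_of_dominated_convergence (μ := Measure.infinitePi fun _ : ℕ => μ)
      (F := fun t w => min 1 ‖ρ (walk w t) (ρ (w t) e - e)‖ₑ) (f := fun _ => 0) (fun _ => 1)
      (fun t => hF.comp ((walk_meas t).prodMk (measurable_pi_apply t)))
      (fun t => Eventually.of_forall fun w => min_le_left _ _) (by simp) ?_
    · simpa using this
    filter_upwards [he] with w ⟨l, hl⟩
    have h1 := ((hl.comp (tendsto_add_atTop_nat 1)).sub hl).enorm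
    rw [sub_self, enorm_zero] at h1
    refine tendsto_of_tendsto_of_tendsto_of_le_of_le tendsto_const_nhds h1
      (fun _ => zero_le) fun t => ?_
    simp only [map_sub, mul]
    exact min_le_right _ _
  have hb1 : ∀ φ ∈ Z, ∀ᵐ y ∂μ, ρ y φ ∈ Z := by
    intro φ hφ
    refine step μ ρ hT _ ?_ ?_
    · simp only [mul]
      exact measurable_const.min ((hc φ).measurable.comp measurable_mul).enorm
    · simp only [mul]
      have hφ' : Tendsto (fun t => ∫⁻ w, min 1 ‖ρ (walk w t) φ‖ₑ
        ∂(Measure.infinitePi fun _ : ℕ => μ)) atTop (𝓝 0) := hφ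
      refine (hφ'.comp (tendsto_add_atTop_nat 1)).congr fun t => ?_
      simp only [Function.comp_apply, walk]
  have hb : ∀ᵐ y ∂μ, ∀ φ ∈ Z, ρ y φ ∈ Z := by
    have := ae_all_iff.2 fun i => hb1 _ (Module.finBasis ℝ Z i).2
    filter_upwards [this] with y hy φ hφ
    have e1 := congrArg Subtype.val ((Module.finBasis ℝ Z).sum_repr ⟨φ, hφ⟩)
    simp only [Submodule.coe_sum, Submodule.coe_smul] at e1
    rw [← e1, map_sum]
    exact Z.sum_mem fun i _ => by rw [map_smul]; exact Z.smul_mem _ (hy i)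
  have hb' : ∀ᵐ y ∂μ, ∀ φ ∈ Z, ρ y⁻¹ φ ∈ Z := hs.quasiMeasurePreserving.ae hb
  let H : Subgroup G :=
    { carrier := {g | (∀ φ ∈ Z, ρ g φ ∈ Z) ∧ (∀ φ ∈ Z, ρ g⁻¹ φ ∈ Z) ∧ ρ g e - e ∈ Z}
      one_mem' := by simp
      mul_mem' := by
        rintro a b ⟨a1, a2, a3⟩ ⟨b1, b2, b3⟩
        refine ⟨fun φ h => ?_, fun φ h => ?_, ?_⟩
        · rw [← mul]; exact a1 _ (b1 _ h)
        · rw [mul_inv_rev, ← mul]; exact b2 _ (a2 _ h)
        · have := Z.add_mem (a1 _ b3) a3
          rwa [map_sub, mul, sub_add_sub_cancel] at this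
      inv_mem' := by
        rintro a ⟨a1, a2, a3⟩
        refine ⟨a2, by simpa using a1, ?_⟩
        have := Z.neg_mem (a2 _ a3)
        rwa [map_sub, mul, inv_mul_cancel, map_one, neg_sub, Module.End.one_apply] at this }
  have cZ : IsClosed (Z : Set Φ) := Z.closed_of_finiteDimensional
  have cH : IsClosed (H : Set G) := by
    have c1 : IsClosed {g : G | ∀ φ ∈ Z, ρ g φ ∈ Z} := by
      simp only [setOf_forall]
      exact isClosed_iInter fun φ => isClosed_iInter fun _ => cZ.preimage (hc φ)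
    exact c1.inter ((c1.preimage continuous_inv).inter
      (cZ.preimage ((hc e).sub continuous_const)))
  have hH : H = ⊤ := by
    refine had H cH ((mem_ae_iff_prob_eq_one cH.measurableSet).1 ?_)
    filter_upwards [ha, hb, hb'] with y h1 h2 h3
    exact ⟨h2, h3, h1⟩
  have all : ∀ g, g ∈ H := fun g => hH ▸ Subgroup.mem_top g
  have z := zero_of_inv μ ρ hs hT Z le_rfl fun g => (all g).1
  have := (all g).2.2
  rwa [z, Submodule.mem_bot, sub_eq_zero] at this

end Pool.Agent.H3.Rw
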