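import Pool.Agent.H3.RwB

open Filter Topology Set MeasureTheory

namespace Pool.Agent.H3.Rw

lemma model {G : Type} [Group G] [TopologicalSpace G] [IsTopologicalGroup G] (f : G → ℝ) (hf : Continuous f)
    (hfin : FiniteDimensional ℝ (Submodule.span ℝ (range fun γ : G => fun x => f (γ⁻¹ * x)))) :
    ∃ (d : ℕ) (ρ : G →* Module.End ℝ (Fin d → ℝ)) (e : Fin d → ℝ), (∀ φ, Continuous fun g => ρ g φ) ∧
      (∃ (h : Fin d → G), ∀ g i, ρ g e i = f (h i * g)) ∧ ((∀ g, ρ g e = e) → ∀ g, f g = f 1) := by
  obtain ⟨s, hs, hsp, hli⟩ := exists_linearIndependent ℝ (range fun γ : G => fun x => f (γ⁻¹ * x))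
  set V := Submodule.span ℝ (range fun γ : G => fun x => f (γ⁻¹ * x)) with hV
  let b0 : Module.Basis s ℝ V := (Module.Basis.span hli).map
    (LinearEquiv.ofEq _ _ (by rw [Subtype.range_coe_subtype, setOf_mem_eq, hsp]))
  have hb0 : ∀ i, (b0 i : G → ℝ) = i := fun i => by simp [b0]
  haveI : Finite s := Module.Finite.finite_basis b0
  obtain ⟨d, ⟨q⟩⟩ := Finite.exists_equiv_fin s
  let b := b0.reindex q
  have hb : ∀ i, ∃ γ : G, ∀ x, (b i : G → ℝ) x = f (γ * x) := fun i => by
    obtain ⟨γ, hγ⟩ := hs (q.symm i).2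
    refine ⟨γ⁻¹, fun x => ?_⟩
    simp only [b, Module.Basis.reindex_apply, hb0, ← hγ]
  choose h hh using hb
  have inv : ∀ g : G, ∀ v ∈ V, LinearMap.funLeft ℝ ℝ (fun x => g * x) v ∈ V := by
    intro g v hv
    refine Submodule.span_induction (fun v hv => ?_) (by simp) (fun _ _ _ _ a b => by
      rw [map_add]; exact V.add_mem a b) (fun c _ _ a => by rw [map_smul]; exact V.smul_mem _ a) hv
    obtain ⟨γ, rfl⟩ := hv
    refine Submodule.subset_span ⟨g⁻¹ * γ, ?_⟩
    ext x
    simp [LinearMap.funLeft_apply, mul_assoc]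
  let L : G → Module.End ℝ V := fun g => (LinearMap.funLeft ℝ ℝ (fun x => g * x)).restrict (inv g)
  let M : G → Matrix (Fin d) (Fin d) ℝ := fun g => (LinearMap.toMatrix b b (L g)).transpose
  let ρ : G →* Module.End ℝ (Fin d → ℝ) :=
    { toFun := fun g => Matrix.toLin' (M g)
      map_one' := by
        have : L 1 = 1 := by ext v x; simp [L, LinearMap.funLeft_apply]
        simp [M, this, Module.End.one_eq_id]
      map_mul' := fun g g' => by
        have : L (g * g') = L g' * L g := by ext v x; simp [L, LinearMap.funLeft_apply, mul_assoc]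
        simp only [M]
        rw [this, LinearMap.toMatrix_mul, Matrix.transpose_mul, Matrix.toLin'_mul]
        rfl }
  let E : G → Fin d → ℝ := fun x i => (b i : G → ℝ) x
  have hE : ∀ g x, ρ g (E x) = E (g * x) := by
    intro g x
    ext i
    have := congrArg (fun v : V => (v : G → ℝ) x) (b.sum_repr (L g (b i)))
    simp only [Submodule.coe_sum, Submodule.coe_smul, Finset.sum_apply, Pi.smul_apply,
      smul_eq_mul] at this
    change (Matrix.toLin' (M g) (E x)) i = (L g (b i) : G → ℝ) x
    rw [← this]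
    simp [M, Matrix.mulVec, dotProduct, LinearMap.toMatrix_apply, E]
  have hsE : Submodule.span ℝ (range E) = ⊤ := by
    by_contra hne
    obtain ⟨φ, h0, hφ⟩ := Submodule.exists_le_ker_of_lt_top _ (lt_top_iff_ne_top.2 hne)
    have z : ∑ i, φ (fun j => if i = j then 1 else 0) • b i = 0 := by
      ext x
      have := hφ (Submodule.subset_span ⟨x, rfl⟩)
      rw [LinearMap.mem_ker, LinearMap.pi_apply_eq_sum_univ] at this
      simpa [E, mul_comm] using this
    have := Fintype.linearIndependent_iff.1 b.linearIndependent _ z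
    exact h0 (LinearMap.ext fun v => by rw [LinearMap.pi_apply_eq_sum_univ]; simp [this])
  refine ⟨d, ρ, E 1, fun φ => ?_, ⟨h, fun g i => by rw [hE, mul_one]; exact hh i g⟩, fun H g => ?_⟩
  · have : φ ∈ Submodule.span ℝ (range E) := hsE ▸ Submodule.mem_top
    refine Submodule.span_induction (p := fun φ _ => Continuous fun g => ρ g φ) ?_ ?_ ?_ ?_ this
    · rintro _ ⟨x, rfl⟩
      simp only [hE]
      refine continuous_pi fun i => ?_
      simp only [E, hh]
      fun_prop
    · simpa using continuous_const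
    · intro _ _ _ _ a b
      simp only [map_add]; exact a.add b
    · intro c _ _ a
      simp only [map_smul]; exact a.const_smul c
  · have hm : f ∈ V := Submodule.subset_span ⟨1, by simp⟩
    have e1 := congrArg Subtype.val (b.sum_repr ⟨f, hm⟩)
    simp only [Submodule.coe_sum, Submodule.coe_smul] at e1
    have := H g
    rw [hE, mul_one] at this
    have t : ∀ i, (b i : G → ℝ) g = (b i : G → ℝ) 1 := fun i => congrFun this i
    rw [← e1]
    simp [t]

theorem const_of_conv {G : Type} [Group G] [TopologicalSpace G] [IsTopologicalGroup G]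
    [MeasurableSpace G] [BorelSpace G] [MeasurableMul₂ G] (μ : Measure G) [IsProbabilityMeasure μ]
    (had : ∀ H : Subgroup G, IsClosed (H : Set G) → μ H = 1 → H = ⊤)
    (hsym : ∀ A : Set G, MeasurableSet A → μ A⁻¹ = μ A) (f : G → ℝ) (hf : Continuous f)
    (hconv : ∀ x : G, ∀ᵐ w ∂(Measure.infinitePi fun _ : ℕ => μ),
      ∃ l, Tendsto (fun t => f (x * walk w t)) atTop (𝓝 l))
    (hfin : FiniteDimensional ℝ (Submodule.span ℝ (range fun γ : G => fun x => f (γ⁻¹ * x))))
    (x y : G) : f x = f y := by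
  obtain ⟨d, ρ, e, hc, ⟨h, hh⟩, H⟩ := model f hf hfin
  have hs : MeasurePreserving (fun g : G => g⁻¹) μ μ :=
    ⟨measurable_inv, Measure.ext fun A hA => by
      rw [Measure.map_apply measurable_inv hA]; exact hsym A hA⟩
  have := H (fixed μ ρ hs had hc e ?_)
  · rw [this x, this y]
  filter_upwards [ae_all_iff.2 fun i => hconv (h i)] with w hw
  choose l hl using hw
  exact ⟨l, tendsto_pi_nhds.2 fun i => by simpa only [hh] using hl i⟩

end Pool.Agent.H3.Rw
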