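import Mathlib

open Filter Topology Set Metric
open scoped ENNReal

namespace Pool.Agent.H3.Sel

open Classical in
noncomputable def fi (p : ℕ → Prop) (d : ℕ) : ℕ := if h : ∃ j, p j then Nat.find h else d

lemma fi_eq (p : ℕ → Prop) (d m : ℕ) :
    fi p d = m ↔ (p m ∧ ∀ j, j < m → ¬ p j) ∨ ((∀ j, ¬ p j) ∧ d = m) := by
  classical
  unfold fi
  split_ifs with h
  · rw [Nat.find_eq_iff]
    refine ⟨Or.inl, fun h' => h'.resolve_right fun h'' => ?_⟩
    obtain ⟨j, hj⟩ := h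
    exact h''.1 j hj
  · push Not at h
    simp [h]

lemma fi_spec {p : ℕ → Prop} (d : ℕ) (h : ∃ j, p j) : p (fi p d) := by
  classical
  unfold fi
  rw [dif_pos h]
  exact Nat.find_spec h

lemma fi_or (p : ℕ → Prop) (d : ℕ) : p (fi p d) ∨ fi p d = d := by
  by_cases h : ∃ j, p j
  · exact Or.inl (fi_spec d h)
  · right; unfold fi; rw [dif_neg h]

lemma fi_meas {T : Type} [MeasurableSpace T] {p : T → ℕ → Prop} {d : T → ℕ}
    (hp : ∀ j, Measurable fun t => p t j) (hd : Measurable d) :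
    Measurable fun t => fi (p t) (d t) := by
  refine measurable_to_countable' fun m => ?_
  have : (fun t => fi (p t) (d t)) ⁻¹' {m}
      = {t | (p t m ∧ ∀ j, j < m → ¬ p t j) ∨ ((∀ j, ¬ p t j) ∧ d t = m)} := by
    ext t; exact fi_eq _ _ _
  rw [this, measurableSet_setOf]
  exact ((hp m).and (Measurable.forall fun j => measurable_const.imp (hp j).not)).or
    ((Measurable.forall fun j => (hp j).not).and
      (measurableSet_setOf.1 (hd (measurableSet_singleton m))))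

lemma fi_loc {T : Type} {F : Filter T} {p : T → ℕ → Prop} {d : T → ℕ} {q : ℕ → Prop} (e : ℕ)
    (h : ∃ j, q j) (hp : ∀ j, ∀ᶠ t in F, (p t j ↔ q j)) :
    ∀ᶠ t in F, fi (p t) (d t) = fi q e := by
  have h1 := (fi_eq q e _).1 rfl
  replace h1 := h1.resolve_right fun h' => h.elim fun j hj => h'.1 j hj
  filter_upwards [(eventually_all_finite (Set.finite_Iic (fi q e))).2 fun j _ => hp j] with t ht
  exact (fi_eq _ _ _).2 (Or.inl ⟨(ht _ (Set.mem_Iic.2 le_rfl)).2 h1.1,
    fun j hj h' => h1.2 j hj ((ht j (Set.mem_Iic.2 hj.le)).1 h')⟩)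

variable {E : Type} [MetricSpace E] [CompleteSpace E] (D : ℕ → E) (r : ℕ → ℝ)

noncomputable def sk : ℕ → (ℕ → ℝ≥0∞) → ℕ
  | 0, t => fi (fun j => t j < ENNReal.ofReal (r 0)) 0
  | k + 1, t => fi (fun j => dist (D (sk k t)) (D j) ≤ 4 / 2 / 2 ^ k ∧
      t j < ENNReal.ofReal (r (k + 1))) (sk k t)

lemma sk_meas (k : ℕ) : Measurable (sk D r k) := by
  induction k with
  | zero =>
    exact fi_meas (fun j => measurableSet_setOf.1
      (measurableSet_lt (measurable_pi_apply j) measurable_const)) measurable_const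
  | succ k ih =>
    refine fi_meas (fun j => Measurable.and ?_ (measurableSet_setOf.1
      (measurableSet_lt (measurable_pi_apply j) measurable_const))) ih
    exact (measurable_of_countable fun i : ℕ => dist (D i) (D j) ≤ 4 / 2 / 2 ^ k).comp ih

lemma sk_dist (t : ℕ → ℝ≥0∞) (k : ℕ) :
    dist (D (sk D r k t)) (D (sk D r (k + 1) t)) ≤ 4 / 2 / 2 ^ k := by
  rcases fi_or (fun j => dist (D (sk D r k t)) (D j) ≤ 4 / 2 / 2 ^ k ∧
      t j < ENNReal.ofReal (r (k + 1))) (sk D r k t) with h | h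
  · exact h.1
  · rw [sk, h, dist_self]; positivity

lemma ex_lim (t : ℕ → ℝ≥0∞) : ∃ a, Tendsto (fun k => D (sk D r k t)) atTop (𝓝 a) :=
  cauchySeq_tendsto_of_complete (cauchySeq_of_le_geometric_two (sk_dist D r t))

noncomputable def s (t : ℕ → ℝ≥0∞) : E := (ex_lim D r t).choose

lemma s_lim (t : ℕ → ℝ≥0∞) : Tendsto (fun k => D (sk D r k t)) atTop (𝓝 (s D r t)) :=
  (ex_lim D r t).choose_spec

lemma s_dist (t : ℕ → ℝ≥0∞) (k : ℕ) : dist (D (sk D r k t)) (s D r t) ≤ 4 / 2 ^ k :=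
  dist_le_of_le_geometric_two_of_tendsto (sk_dist D r t) (s_lim D r t) k

lemma s_meas [MeasurableSpace E] [BorelSpace E] : Measurable (s D r) :=
  measurable_of_tendsto_metrizable (fun k => (measurable_of_countable D).comp (sk_meas D r k))
    (tendsto_pi_nhds.2 (s_lim D r))

variable {D r}

lemma step (hD : DenseRange D) (h0 : ∀ k, 0 < r k) (h1 : ∀ k, r k ≤ 1 / 2 ^ k) {F : Set E}
    {x : E} {k : ℕ} (hx : infEDist x F < ENNReal.ofReal (r k)) :
    ∃ j, dist x (D j) ≤ 4 / 2 / 2 ^ k ∧ infEDist (D j) F < ENNReal.ofReal (r (k + 1)) := by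
  obtain ⟨y, hy, h⟩ := infEDist_lt_iff.1 hx
  obtain ⟨j, hj⟩ := hD.exists_dist_lt y (h0 (k + 1))
  rw [edist_lt_ofReal] at h
  refine ⟨j, ?_, infEDist_lt_iff.2 ⟨y, hy, by rwa [edist_lt_ofReal, dist_comm]⟩⟩
  have h2 := h1 k
  have h3 := h1 (k + 1)
  have h4 : (1 : ℝ) / 2 ^ (k + 1) ≤ 1 / 2 ^ k := by
    rw [pow_succ, ← div_div]; exact half_le_self (by positivity)
  have h5 : (4 : ℝ) / 2 / 2 ^ k = 1 / 2 ^ k + 1 / 2 ^ k := by ring
  linarith [dist_triangle x y (D j)]

lemma base (hD : DenseRange D) (h0 : ∀ k, 0 < r k) {F : Set E} (hF : F.Nonempty) :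
    ∃ j, infEDist (D j) F < ENNReal.ofReal (r 0) := by
  obtain ⟨y, hy⟩ := hF
  obtain ⟨j, hj⟩ := hD.exists_dist_lt y (h0 0)
  exact ⟨j, infEDist_lt_iff.2 ⟨y, hy, by rwa [edist_lt_ofReal, dist_comm]⟩⟩

lemma inv (hD : DenseRange D) (h0 : ∀ k, 0 < r k) (h1 : ∀ k, r k ≤ 1 / 2 ^ k) {F : Set E}
    (hF : F.Nonempty) (k : ℕ) :
    infEDist (D (sk D r k fun j => infEDist (D j) F)) F < ENNReal.ofReal (r k) := by
  induction k with
  | zero => exact fi_spec (p := fun j => infEDist (D j) F < ENNReal.ofReal (r 0)) 0 (base hD h0 hF)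
  | succ k ih => exact (fi_spec _ (step hD h0 h1 ih)).2

lemma geo (c : ℝ) : Tendsto (fun k : ℕ => c / 2 ^ k) atTop (𝓝 0) :=
  tendsto_const_nhds.div_atTop (tendsto_pow_atTop_atTop_of_one_lt one_lt_two)

theorem s_mem (hD : DenseRange D) (h0 : ∀ k, 0 < r k) (h1 : ∀ k, r k ≤ 1 / 2 ^ k) {F : Set E}
    (hF : F.Nonempty) (hc : IsClosed F) : s D r (fun j => infEDist (D j) F) ∈ F := by
  rw [mem_iff_infEDist_zero_of_closed hc]
  have l1 := ((continuous_infEDist (s := F)).tendsto _).comp (s_lim D r fun j => infEDist (D j) F)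
  have l2 : Tendsto (fun k : ℕ => ENNReal.ofReal (1 / 2 ^ k)) atTop (𝓝 0) := by
    simpa using ENNReal.tendsto_ofReal (geo 1)
  exact le_antisymm (le_of_tendsto_of_tendsto' l1 l2 fun k =>
    (inv hD h0 h1 hF k).le.trans (ENNReal.ofReal_le_ofReal (h1 k))) zero_le

theorem s_cont (hD : DenseRange D) (h0 : ∀ k, 0 < r k) (h1 : ∀ k, r k ≤ 1 / 2 ^ k) {F : Set E}
    (hF : F.Nonempty) (hn : ∀ j k, infEDist (D j) F ≠ ENNReal.ofReal (r k)) :
    ContinuousAt (s D r) fun j => infEDist (D j) F := by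
  set t : ℕ → ℝ≥0∞ := fun j => infEDist (D j) F with ht
  have l : ∀ j k, ∀ᶠ u in 𝓝 t, (u j < ENNReal.ofReal (r k) ↔ t j < ENNReal.ofReal (r k)) := by
    intro j k
    rcases (hn j k).lt_or_gt with h | h
    · filter_upwards [(continuous_apply j).continuousAt.eventually (gt_mem_nhds h)] with u hu
      exact iff_of_true hu h
    · filter_upwards [(continuous_apply j).continuousAt.eventually (lt_mem_nhds h)] with u hu
      exact iff_of_false (not_lt.2 hu.le) (not_lt.2 h.le)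
  have c : ∀ k, ∀ᶠ u in 𝓝 t, sk D r k u = sk D r k t := by
    intro k
    induction k with
    | zero => exact fi_loc 0 (base hD h0 hF) fun j => l j 0
    | succ k ih =>
      refine fi_loc _ (step hD h0 h1 (inv hD h0 h1 hF k)) fun j => ?_
      filter_upwards [ih, l j (k + 1)] with u h2 h3
      rw [h2, h3]
  refine Metric.tendsto_nhds.2 fun ε hε => ?_
  obtain ⟨k, hk⟩ := ((geo 4).eventually (gt_mem_nhds (half_pos hε))).exists
  filter_upwards [c k] with u hu
  have a1 := s_dist D r u k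
  have a2 := s_dist D r t k
  rw [hu] at a1
  linarith [dist_triangle_left (s D r u) (s D r t) (D (sk D r k t))]

end Pool.Agent.H3.Sel
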