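import Mathlib

open Complex Metric Set

namespace Pool.Agent.H3.Sg

lemma harn (u : ℂ → ℂ) (R : ℝ) (hR : 0 < R) (hd : DifferentiableOn ℂ u (ball 0 R))
    (hp : ∀ z ∈ ball (0:ℂ) R, 0 < (u z).re) (w : ℂ) (hw : w ∈ ball (0:ℂ) R) :
    |(u w).re - (u 0).re| ≤ ‖w‖ / R * ((u w).re + (u 0).re) := by
  have h0 : (0:ℂ) ∈ ball (0:ℂ) R := mem_ball_self hR
  have hne : ∀ z ∈ ball (0:ℂ) R, u z + (starRingEnd ℂ) (u 0) ≠ 0 := by
    intro z hz h
    have := congrArg Complex.re h
    simp at this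
    linarith [hp z hz, hp 0 h0]
  have hsq : ∀ z, ‖u z + (starRingEnd ℂ) (u 0)‖ ^ 2
      = ((u z).re + (u 0).re) ^ 2 + ((u z).im - (u 0).im) ^ 2 := by
    intro z; rw [Complex.sq_norm, Complex.normSq_apply]; simp; ring
  have hsq' : ∀ z, ‖u z - u 0‖ ^ 2 = ((u z).re - (u 0).re) ^ 2 + ((u z).im - (u 0).im) ^ 2 := by
    intro z; rw [Complex.sq_norm, Complex.normSq_apply]; simp; ring
  set ψ : ℂ → ℂ := fun z => (u z - u 0) / (u z + (starRingEnd ℂ) (u 0)) with hψ
  have hψd : DifferentiableOn ℂ ψ (ball 0 R) :=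
    (hd.sub_const _).div (hd.add_const _) hne
  have hψ0 : ψ 0 = 0 := by simp [hψ]
  have hm : MapsTo ψ (ball 0 R) (closedBall (ψ 0) 1) := by
    intro z hz
    rw [hψ0, mem_closedBall_zero_iff, hψ]
    simp only [norm_div]
    rw [div_le_one (norm_pos_iff.mpr (hne z hz)), ← sq_le_sq₀ (norm_nonneg _) (norm_nonneg _),
      hsq, hsq']
    nlinarith [mul_pos (hp z hz) (hp 0 h0)]
  have h1 := Complex.dist_le_div_mul_dist_of_mapsTo_ball hψd hm hw
  rw [hψ0, dist_zero_right, dist_zero_right, hψ] at h1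
  simp only [norm_div] at h1
  rw [div_le_iff₀ (norm_pos_iff.mpr (hne w hw))] at h1
  have ht : 1 / R * ‖w‖ = ‖w‖ / R := by ring
  rw [ht] at h1
  have ht0 : 0 ≤ ‖w‖ / R := by positivity
  have ht1 : ‖w‖ / R ≤ 1 := by
    rw [div_le_one hR]; exact (mem_ball_zero_iff.mp hw).le
  have h2 := pow_le_pow_left₀ (norm_nonneg _) h1 2
  rw [mul_pow, hsq, hsq'] at h2
  apply abs_le_of_sq_le_sq _ (mul_nonneg ht0 (by linarith [hp w hw, hp 0 h0]))
  have h3 : (‖w‖ / R) ^ 2 ≤ 1 := pow_le_one₀ ht0 ht1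
  nlinarith [sq_nonneg ((u w).im - (u 0).im)]

lemma bl_id (a z : ℂ) :
    ‖1 - (starRingEnd ℂ) a * z‖ ^ 2 - ‖z - a‖ ^ 2 = (1 - ‖a‖ ^ 2) * (1 - ‖z‖ ^ 2) := by
  simp only [Complex.sq_norm, Complex.normSq_apply]; simp; ring

lemma fac (z0 : ℂ) (hz0 : ‖z0‖ ≤ 9 / 10) (n : ℕ) : ∀ f : ℂ → ℂ, Differentiable ℂ f →
    (∀ z, ‖z‖ ≤ 1 → ‖f z‖ ≤ 1) → Real.exp (-(n:ℝ) / 500) < ‖f z0‖ →
    ∃ (l : List ℂ) (g : ℂ → ℂ), l.length ≤ n ∧ Differentiable ℂ g ∧
      (∀ z, ‖z‖ ≤ 1 → ‖g z‖ ≤ 1) ∧ (∀ z, ‖z‖ < 19 / 20 → g z ≠ 0) ∧ ‖f z0‖ ≤ ‖g z0‖ ∧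
      ∀ z, ‖z‖ ≤ 1 → ‖g z‖ * (l.map (fun a => ‖z - a‖ / 2)).prod ≤ ‖f z‖ := by
  induction n with
  | zero =>
    intro f _ hb h
    have := hb z0 (by linarith)
    simp at h; linarith
  | succ n ih =>
    intro f hf hb h
    by_cases hz : ∀ z, ‖z‖ < 19 / 20 → f z ≠ 0
    · exact ⟨[], f, by simp, hf, hb, hz, le_rfl, by simp⟩
    push Not at hz
    obtain ⟨a, ha, hfa⟩ := hz
    have hds : ∀ z, ‖f z‖ = ‖z - a‖ * ‖dslope f a z‖ := by
      intro z
      have := sub_smul_dslope f a z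
      rw [hfa, sub_zero, smul_eq_mul] at this
      rw [← this, norm_mul]
    have hdd : Differentiable ℂ (dslope f a) := by
      rw [← differentiableOn_univ] at hf ⊢
      exact (Complex.differentiableOn_dslope Filter.univ_mem).mpr hf
    set f1 : ℂ → ℂ := fun z => dslope f a z * (1 - (starRingEnd ℂ) a * z) with hf1
    have hf1d : Differentiable ℂ f1 := by
      apply hdd.mul; fun_prop
    have hb1 : ∀ z, ‖z‖ ≤ 1 → ‖f1 z‖ ≤ 1 := by
      intro z hz
      apply Complex.norm_le_of_forall_mem_frontier_norm_le (U := ball 0 1) isBounded_ball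
        hf1d.diffContOnCl
      · intro w hw
        rw [frontier_ball _ one_ne_zero, mem_sphere_zero_iff_norm] at hw
        have h1 := bl_id a w
        rw [hw] at h1
        have h2 : ‖1 - (starRingEnd ℂ) a * w‖ = ‖w - a‖ := by
          apply (sq_eq_sq₀ (norm_nonneg _) (norm_nonneg _)).mp; linarith
        simp only [hf1, norm_mul]
        rw [h2, mul_comm, ← hds]; exact hb w hw.le
      · rw [closure_ball _ one_ne_zero]; simpa using hz
    have h2le : ∀ z, ‖z‖ ≤ 1 → ‖1 - (starRingEnd ℂ) a * z‖ ≤ 2 := by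
      intro z hz
      have := norm_sub_le (1:ℂ) ((starRingEnd ℂ) a * z)
      rw [norm_mul, Complex.norm_conj, norm_one] at this
      nlinarith [norm_nonneg a, norm_nonneg z]
    have hk : ‖z0 - a‖ ≤ Real.exp (-1 / 500) * ‖1 - (starRingEnd ℂ) a * z0‖ := by
      have h1 := bl_id a z0
      have h2 := h2le z0 (by linarith)
      have h3 : (1:ℝ) - 1 / 500 ≤ Real.exp (-1 / 500) := by
        have := Real.add_one_le_exp (-1 / 500 : ℝ); linarith
      have h4 : 19 / 100 * (39 / 400) ≤ (1 - ‖a‖ ^ 2) * (1 - ‖z0‖ ^ 2) := by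
        rw [mul_comm]
        apply mul_le_mul <;> nlinarith [norm_nonneg a, norm_nonneg z0]
      refine le_trans ?_ (mul_le_mul_of_nonneg_right h3 (norm_nonneg _))
      rw [← sq_le_sq₀ (norm_nonneg _) (by positivity), mul_pow]
      nlinarith [norm_nonneg (1 - (starRingEnd ℂ) a * z0)]
    have hk2 : ‖f z0‖ ≤ Real.exp (-1 / 500) * ‖f1 z0‖ := by
      rw [hds, hf1]; simp only [norm_mul]
      nlinarith [norm_nonneg (dslope f a z0)]
    have hlt : Real.exp (-(n:ℝ) / 500) < ‖f1 z0‖ := by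
      have e : Real.exp (-((n + 1 : ℕ):ℝ) / 500) = Real.exp (-1 / 500) * Real.exp (-(n:ℝ) / 500) := by
        rw [← Real.exp_add]; push_cast; ring_nf
      rw [e] at h
      exact lt_of_mul_lt_mul_left (h.trans_le hk2) (Real.exp_pos _).le
    obtain ⟨l, g, hl, hg, hgb, hg0, hgz, hgl⟩ := ih f1 hf1d hb1 hlt
    refine ⟨a :: l, g, by simp; omega, hg, hgb, hg0, ?_, ?_⟩
    · have : Real.exp (-1 / 500) ≤ 1 := by rw [Real.exp_le_one_iff]; norm_num
      nlinarith [norm_nonneg (f1 z0)]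
    · intro z hz
      have h1 := hgl z hz
      have h2 := h2le z hz
      simp only [List.map_cons, List.prod_cons]
      rw [hds]
      simp only [hf1, norm_mul] at h1
      have h3 : ‖g z‖ * (l.map (fun a => ‖z - a‖ / 2)).prod ≤ ‖dslope f a z‖ * 2 :=
        h1.trans (mul_le_mul_of_nonneg_left h2 (norm_nonneg _))
      nlinarith [norm_nonneg (z - a)]

lemma jouk (l : List ℝ) : ∃ c ∈ Icc (0:ℝ) (1 / 20),
    (1 / 80 : ℝ) ^ l.length ≤ (l.map (fun a => |c - a|)).prod := by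
  set P : ℂ → ℂ := fun w => (l.map (fun a : ℝ => (1 / 80 : ℂ) * (w ^ 2 + 1) - (a - 1 / 40) * w)).prod
    with hP
  have hd : Differentiable ℂ P := by
    rw [hP]; clear hP P
    induction l with
    | nil => simp
    | cons a l ih =>
      simp only [List.map_cons, List.prod_cons]
      apply Differentiable.mul _ ih; fun_prop
  obtain ⟨w, hw, hmax⟩ := Complex.exists_mem_frontier_isMaxOn_norm (U := ball (0:ℂ) 1)
    isBounded_ball ⟨0, mem_ball_self one_pos⟩ hd.diffContOnCl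
  rw [frontier_ball _ one_ne_zero, mem_sphere_zero_iff_norm] at hw
  have h0 := hmax (subset_closure (mem_ball_self one_pos))
  simp only [mem_setOf_eq, Function.comp] at h0
  have hre := abs_le.mp ((Complex.abs_re_le_norm w).trans hw.le)
  refine ⟨(1 + w.re) / 40, ⟨by linarith, by linarith⟩, ?_⟩
  have e0 : ‖P 0‖ = (1 / 80 : ℝ) ^ l.length := by
    rw [hP]; clear h0 hmax hd hP P
    induction l with
    | nil => simp
    | cons a l ih =>
      simp only [List.map_cons, List.prod_cons, norm_mul, List.length_cons] at ih ⊢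
      rw [ih, pow_succ' (1 / 80 : ℝ)]; simp
  have hw2 : w ^ 2 + 1 = w * (2 * w.re : ℝ) := by
    have h1 := Complex.mul_conj w
    have h2 := Complex.add_conj w
    rw [Complex.normSq_eq_norm_sq, hw] at h1
    rw [← h2, mul_add, h1]; simp; ring
  have e1 : ‖P w‖ = (l.map (fun a => |(1 + w.re) / 40 - a|)).prod := by
    rw [hP]; clear h0 hmax hd e0 hP P
    induction l with
    | nil => simp
    | cons a l ih =>
      simp only [List.map_cons, List.prod_cons, norm_mul]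
      rw [ih]; congr 1
      have : (1 / 80 : ℂ) * (w ^ 2 + 1) - (a - 1 / 40) * w = w * (((1 + w.re) / 40 - a : ℝ) : ℂ) := by
        rw [hw2]; push_cast; ring
      rw [this, norm_mul, hw, one_mul, Complex.norm_real, Real.norm_eq_abs]
  rw [← e0, ← e1]; exact h0

lemma exlog (g : ℂ → ℂ) (hg : Differentiable ℂ g) (R : ℝ) (hR : 0 < R)
    (h0 : ∀ z, ‖z‖ < R → g z ≠ 0) :
    ∃ h : ℂ → ℂ, DifferentiableOn ℂ h (ball 0 R) ∧ ∀ z ∈ ball (0:ℂ) R, ‖g z‖ = Real.exp (h z).re := by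
  have hq : DifferentiableOn ℂ (fun z => deriv g z / g z) (ball 0 R) := by
    apply DifferentiableOn.div
    · exact (hg.contDiff (n := 2)).differentiable_deriv_two.differentiableOn
    · exact hg.differentiableOn
    · intro z hz; exact h0 z (mem_ball_zero_iff.mp hz)
  obtain ⟨h, hh0, hh⟩ := hq.isExactOn_ball.with_val_at 0 (Complex.log (g 0))
  refine ⟨h, fun z hz => (hh z hz).differentiableAt.differentiableWithinAt, ?_⟩
  have hc : ∀ z ∈ ball (0:ℂ) R, g z * cexp (-h z) = g 0 * cexp (-h 0) := by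
    intro z hz
    have hD : ∀ x ∈ ball (0:ℂ) R, HasDerivAt (fun z => g z * cexp (-h z)) 0 x := by
      intro x hx
      have h1 := ((hg x).hasDerivAt).mul (hh x hx).neg.cexp
      have hx0 := h0 x (mem_ball_zero_iff.mp hx)
      refine h1.congr_deriv ?_
      simp only [Pi.neg_apply]
      field_simp; ring
    apply (convex_ball (0:ℂ) R).is_const_of_fderivWithin_eq_zero (𝕜 := ℂ)
      (f := fun z => g z * cexp (-h z)) _ _ hz (mem_ball_self hR)
    · intro x hx; exact (hD x hx).differentiableAt.differentiableWithinAt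
    · intro x hx
      rw [fderivWithin_of_isOpen isOpen_ball hx, (hD x hx).hasFDerivAt.fderiv]; simp
  intro z hz
  have h1 := hc z hz
  rw [hh0, Complex.exp_neg (Complex.log _), Complex.exp_log (h0 0 (by simpa)),
    mul_inv_cancel₀ (h0 0 (by simpa)), Complex.exp_neg, mul_inv_eq_one₀ (Complex.exp_ne_zero _)] at h1
  rw [h1, Complex.norm_exp]

lemma line (f : ℂ → ℂ) (hf : Differentiable ℂ f) (hb : ∀ z, ‖z‖ ≤ 1 → ‖f z‖ ≤ 1) (z0 : ℂ)
    (hz0 : ‖z0‖ ≤ 9 / 10) (L : ℝ) (hL : 1 ≤ L) (hm : Real.exp (-L) ≤ ‖f z0‖) (e : ℝ)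
    (he : |e| ≤ 1) : ∃ c ∈ Icc (0:ℝ) (1 / 20), ∀ z : ℂ, ‖z‖ ≤ 3 / 10 → z.re + e * z.im = c →
      Real.exp (-(3200 * L)) ≤ ‖f z‖ := by
  have hn : Real.exp (-((⌊500 * L⌋₊ + 1 : ℕ):ℝ) / 500) < ‖f z0‖ := by
    refine lt_of_lt_of_le ?_ hm
    rw [Real.exp_lt_exp]
    have := Nat.lt_floor_add_one (500 * L)
    push_cast; linarith
  obtain ⟨l, g, hl, hg, hgb, hg0, hgz, hgl⟩ := fac z0 hz0 _ f hf hb hn
  obtain ⟨c, hc, hcl⟩ := jouk (l.map (fun a => a.re + e * a.im))
  refine ⟨c, hc, fun z hz hzc => ?_⟩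
  obtain ⟨h, hd, hh⟩ := exlog g hg (19 / 20) (by norm_num) hg0
  have hpos : ∀ w ∈ ball (0:ℂ) (19 / 20), 0 < (1 - h w).re := by
    intro w hw
    have h1 := hgb w (by have := mem_ball_zero_iff.mp hw; linarith)
    rw [hh w hw, Real.exp_le_one_iff] at h1
    simp; linarith
  have hz0b : z0 ∈ ball (0:ℂ) (19 / 20) := mem_ball_zero_iff.mpr (by linarith)
  have hzb : z ∈ ball (0:ℂ) (19 / 20) := mem_ball_zero_iff.mpr (by linarith)
  have h0b : (0:ℂ) ∈ ball (0:ℂ) (19 / 20) := mem_ball_self (by norm_num)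
  have hd' : DifferentiableOn ℂ (fun w => 1 - h w) (ball 0 (19 / 20)) := hd.const_sub 1
  have a1 := abs_le.mp (harn _ _ (by norm_num) hd' hpos z0 hz0b)
  have a2 := abs_le.mp (harn _ _ (by norm_num) hd' hpos z hzb)
  have p0 := hpos 0 h0b
  have p1 := hpos z0 hz0b
  have p2 := hpos z hzb
  have b1 : ‖z0‖ / (19 / 20) * ((1 - h z0).re + (1 - h 0).re)
      ≤ 18 / 19 * ((1 - h z0).re + (1 - h 0).re) := by
    apply mul_le_mul_of_nonneg_right _ (by linarith); rw [div_le_iff₀ (by norm_num)]; linarith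
  have b2 : ‖z‖ / (19 / 20) * ((1 - h z).re + (1 - h 0).re)
      ≤ 1 / 3 * ((1 - h z).re + (1 - h 0).re) := by
    apply mul_le_mul_of_nonneg_right _ (by linarith); rw [div_le_iff₀ (by norm_num)]; linarith
  have c1 : -L ≤ (h z0).re := by
    have := hm.trans hgz
    rwa [hh z0 hz0b, Real.exp_le_exp] at this
  have c2 : Real.exp (-(148 * L)) ≤ ‖g z‖ := by
    rw [hh z hzb, Real.exp_le_exp]
    simp only [sub_re, one_re] at *
    linarith [a1.1, a2.2]
  have c3 : (1 / 4 : ℝ) ^ l.length * ((l.map (fun a => a.re + e * a.im)).map (fun a => |c - a|)).prod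
      ≤ (l.map (fun a => ‖z - a‖ / 2)).prod := by
    clear hcl hgl hl
    induction l with
    | nil => simp
    | cons a l ih =>
      simp only [List.map_cons, List.prod_cons, List.length_cons, pow_succ']
      have q1 : |c - (a.re + e * a.im)| ≤ 2 * ‖z - a‖ := by
        have r1 := Complex.abs_re_le_norm (z - a)
        have r2 := Complex.abs_im_le_norm (z - a)
        have r3 : c - (a.re + e * a.im) = (z - a).re + e * (z - a).im := by
          rw [← hzc]; simp; ring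
        have r4 := abs_add_le (z - a).re (e * (z - a).im)
        rw [abs_mul] at r4
        rw [r3]; nlinarith [abs_nonneg (z - a).im]
      have q2 : 0 ≤ (1 / 4 : ℝ) ^ l.length *
          ((l.map (fun a => a.re + e * a.im)).map (fun a => |c - a|)).prod := by
        apply mul_nonneg (by positivity)
        apply List.prod_nonneg
        intro x hx
        obtain ⟨y, -, rfl⟩ := List.mem_map.mp hx
        exact abs_nonneg _
      calc _ = (1 / 4 * |c - (a.re + e * a.im)|) * ((1 / 4 : ℝ) ^ l.length *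
          ((l.map (fun a => a.re + e * a.im)).map (fun a => |c - a|)).prod) := by ring
        _ ≤ _ := mul_le_mul (by linarith) ih q2 (by positivity)
  have c4 : Real.exp (-(3006 * L)) ≤ (1 / 4 : ℝ) ^ l.length * (1 / 80) ^ l.length := by
    rw [← mul_pow]
    have e6 : Real.exp (-6) ≤ 1 / 4 * (1 / 80) := by
      rw [Real.exp_neg, inv_le_comm₀ (Real.exp_pos _) (by norm_num)]
      have h1 : Real.exp 6 = Real.exp 1 ^ 6 := by rw [← Real.exp_nat_mul]; norm_num
      have h2 : (2.7:ℝ) ^ 6 ≤ Real.exp 1 ^ 6 :=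
        pow_le_pow_left₀ (by norm_num) (by linarith [Real.exp_one_gt_d9]) 6
      rw [h1]; refine le_trans (by norm_num) h2
    refine le_trans ?_ (pow_le_pow_left₀ (Real.exp_pos _).le e6 _)
    rw [← Real.exp_nat_mul, Real.exp_le_exp]
    have h1 : (l.length : ℝ) ≤ (⌊500 * L⌋₊ + 1 : ℕ) := by exact_mod_cast hl
    have h2 := Nat.floor_le (show 0 ≤ 500 * L by linarith)
    push_cast at h1; linarith
  rw [List.length_map] at hcl
  have c5 : Real.exp (-(3006 * L)) ≤ (l.map (fun a => ‖z - a‖ / 2)).prod :=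
    c4.trans ((mul_le_mul_of_nonneg_left hcl (by positivity)).trans c3)
  refine le_trans ?_ (hgl z (by linarith))
  refine le_trans ?_ (mul_le_mul c2 c5 (Real.exp_pos _).le (norm_nonneg _))
  rw [← Real.exp_add, Real.exp_le_exp]; linarith

end Pool.Agent.H3.Sg
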