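import Mathlib

open Complex Metric Set

namespace Pool.Agent.H3.Sg

/-- degree of a closed loop on `[0, T]` avoiding `0`. -/
def Dg (T : ℝ) (ψ : ℝ → ℂ) (n : ℤ) : Prop :=
  ∃ l : ℝ → ℂ, ContinuousOn l (Icc 0 T) ∧ (∀ y ∈ Icc 0 T, cexp (l y) = ψ y) ∧
    l T - l 0 = n * (2 * Real.pi * I)

variable {T : ℝ}

lemma Dg.mul {ψ φ : ℝ → ℂ} {n m : ℤ} (h : Dg T ψ n) (k : Dg T φ m) :
    Dg T (fun y => ψ y * φ y) (n + m) := by
  obtain ⟨l, a, b, c⟩ := h
  obtain ⟨l', a', b', c'⟩ := k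
  refine ⟨fun y => l y + l' y, a.add a', fun y hy => by rw [Complex.exp_add, b y hy, b' y hy], ?_⟩
  push_cast; linear_combination c + c'

lemma Dg.const (c : ℂ) (hc : c ≠ 0) : Dg T (fun _ => c) 0 :=
  ⟨fun _ => Complex.log c, continuousOn_const, fun _ _ => Complex.exp_log hc, by simp⟩

lemma Dg.uniq (hT : 0 ≤ T) {ψ : ℝ → ℂ} {n m : ℤ} (h : Dg T ψ n) (k : Dg T ψ m) : n = m := by
  obtain ⟨l, a, b, c⟩ := h
  obtain ⟨l', a', b', c'⟩ := k
  have hpi : (2 * Real.pi * I : ℂ) ≠ 0 := Complex.two_pi_I_ne_zero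
  set g : ℝ → ℝ := fun y => ((l y - l' y) / (2 * Real.pi * I)).re with hg
  have hgc : ContinuousOn g (Icc 0 T) :=
    Complex.continuous_re.comp_continuousOn ((a.sub a').div_const _)
  have hi : ∀ y ∈ Icc 0 T, ∃ j : ℤ, g y = j := by
    intro y hy
    obtain ⟨j, hj⟩ := Complex.exp_eq_exp_iff_exists_int.mp ((b y hy).trans (b' y hy).symm)
    refine ⟨j, ?_⟩
    simp only [hg]
    rw [hj, add_sub_cancel_left, mul_div_assoc, div_self hpi]; simp
  have hd : g T - g 0 = n - m := by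
    simp only [hg]
    rw [← Complex.sub_re, ← sub_div]
    have : l T - l' T - (l 0 - l' 0) = ((n - m : ℤ) : ℂ) * (2 * Real.pi * I) := by
      push_cast; linear_combination c - c'
    rw [this, mul_div_assoc, div_self hpi]; simp
  obtain ⟨j0, h0⟩ := hi 0 ⟨le_rfl, hT⟩
  obtain ⟨j1, h1⟩ := hi T ⟨hT, le_rfl⟩
  have half : ∀ y ∈ Icc 0 T, ∀ j : ℤ, g y ≠ j + 1 / 2 := by
    intro y hy j e
    obtain ⟨i, hi⟩ := hi y hy
    have : ((2 * i : ℤ) : ℝ) = ((2 * j + 1 : ℤ) : ℝ) := by push_cast; linarith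
    have := Int.cast_injective this
    omega
  have : j0 = j1 := by
    rcases lt_trichotomy j0 j1 with hlt | heq | hlt
    · have hle : (j0:ℝ) + 1 ≤ j1 := by exact_mod_cast hlt
      obtain ⟨y, hy, e⟩ := intermediate_value_Icc hT hgc
        (show (j0:ℝ) + 1 / 2 ∈ Icc (g 0) (g T) from ⟨by linarith, by linarith⟩)
      exact absurd e (half y hy j0)
    · exact heq
    · have hle : (j1:ℝ) + 1 ≤ j0 := by exact_mod_cast hlt
      obtain ⟨y, hy, e⟩ := intermediate_value_Icc' hT hgc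
        (show (j1:ℝ) + 1 / 2 ∈ Icc (g T) (g 0) from ⟨by linarith, by linarith⟩)
      exact absurd e (half y hy j1)
  have h2 : (n:ℝ) = m := by rw [h0, h1, this] at hd; linarith
  exact_mod_cast h2

lemma Dg.rouche (hT : 0 ≤ T) {ψ φ : ℝ → ℂ} {n : ℤ} (h : Dg T φ n) (hc : ContinuousOn ψ (Icc 0 T))
    (h0 : ψ T = ψ 0) (hlt : ∀ y ∈ Icc 0 T, ‖ψ y - φ y‖ < ‖φ y‖) : Dg T ψ n := by
  obtain ⟨l, a, b, c⟩ := h
  have hφ : ∀ y ∈ Icc 0 T, φ y ≠ 0 := fun y hy => by rw [← b y hy]; exact Complex.exp_ne_zero _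
  have hs : ∀ y ∈ Icc 0 T, ψ y / cexp (l y) ∈ slitPlane := by
    intro y hy
    rw [b y hy]
    have : ψ y / φ y = 1 + (ψ y - φ y) / φ y := by field_simp [hφ y hy]; ring
    rw [this]
    apply Complex.mem_slitPlane_of_norm_lt_one
    rw [norm_div, div_lt_one (norm_pos_iff.mpr (hφ y hy))]; exact hlt y hy
  refine ⟨fun y => l y + Complex.log (ψ y / cexp (l y)), a.add ?_, fun y hy => ?_, ?_⟩
  · exact (hc.div a.cexp (fun y _ => Complex.exp_ne_zero _)).clog hs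
  · rw [Complex.exp_add, Complex.exp_log (slitPlane_ne_zero (hs y hy))]
    field_simp
  · have e : cexp (l T) = cexp (l 0) :=
      Complex.exp_eq_exp_iff_exists_int.mpr ⟨n, by linear_combination c⟩
    simp only [h0, e]; linear_combination c

lemma Dg.homot (hT : 0 ≤ T) (H : ℝ × ℝ → ℂ) {a b : ℝ} (hab : a ≤ b)
    (hc : ContinuousOn H (Icc a b ×ˢ Icc 0 T)) (h0 : ∀ t ∈ Icc a b, H (t, T) = H (t, 0))
    (hne : ∀ t ∈ Icc a b, ∀ y ∈ Icc 0 T, H (t, y) ≠ 0) {n : ℤ}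
    (h : Dg T (fun y => H (a, y)) n) : Dg T (fun y => H (b, y)) n := by
  have hK : IsCompact (Icc a b ×ˢ Icc (0:ℝ) T) := isCompact_Icc.prod isCompact_Icc
  obtain ⟨p, hp, hmin⟩ := hK.exists_isMinOn ⟨(a, 0), ⟨le_rfl, hab⟩, le_rfl, hT⟩ hc.norm
  have hμ : 0 < ‖H p‖ := norm_pos_iff.mpr (hne p.1 hp.1 p.2 hp.2)
  obtain ⟨δ, hδ, hu⟩ := Metric.uniformContinuousOn_iff.mp (hK.uniformContinuousOn_of_continuous hc)
    _ hμ
  have key : ∀ k : ℕ, ∀ t ∈ Icc a b, t ≤ a + k * (δ / 2) → Dg T (fun y => H (t, y)) n := by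
    intro k
    induction k with
    | zero =>
      intro t ht h1
      have : t = a := le_antisymm (by simpa using h1) ht.1
      rw [this]; exact h
    | succ k ih =>
      intro t ht h1
      have hk : (0:ℝ) ≤ k * (δ / 2) := by positivity
      have hm : max a (t - δ / 2) ∈ Icc a b := ⟨le_max_left _ _, max_le hab (by linarith [ht.2])⟩
      have h2 := ih _ hm (max_le (by linarith) (by push_cast at h1; linarith))
      apply h2.rouche hT
      · exact hc.comp (by fun_prop) (fun y hy => ⟨ht, hy⟩)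
      · exact h0 t ht
      · intro y hy
        have h3 := hu (t, y) ⟨ht, hy⟩ (max a (t - δ / 2), y) ⟨hm, hy⟩ (by
          rw [Prod.dist_eq, dist_self, Real.dist_eq]
          apply max_lt _ hδ
          have := le_max_right a (t - δ / 2)
          have : max a (t - δ / 2) ≤ t := max_le ht.1 (by linarith)
          rw [abs_lt]; constructor <;> linarith)
        rw [dist_eq_norm] at h3
        exact h3.trans_le (hmin (show (max a (t - δ / 2), y) ∈ _ from ⟨hm, hy⟩))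
  obtain ⟨k, hk⟩ := exists_nat_ge ((b - a) / (δ / 2))
  apply key k b ⟨hab, le_rfl⟩
  rw [div_le_iff₀ (by positivity)] at hk; linarith

/-- star shaped loop -/
noncomputable def gam (T : ℝ) (φ : ℝ → ℝ) (y : ℝ) : ℂ := cexp (φ y + (2 * Real.pi * y / T : ℝ) * I)

lemma norm_gam (φ : ℝ → ℝ) (y : ℝ) : ‖gam T φ y‖ = Real.exp (φ y) := by
  rw [gam, Complex.norm_exp]; simp

lemma gam_T (hT : 0 < T) {φ : ℝ → ℝ} (h0 : φ T = φ 0) : gam T φ T = gam T φ 0 := by
  unfold gam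
  apply Complex.exp_eq_exp_iff_exists_int.mpr ⟨1, ?_⟩
  rw [h0, mul_div_assoc, div_self hT.ne']; push_cast; ring

lemma cont_gam {φ : ℝ → ℝ} (hc : Continuous φ) : Continuous (gam T φ) := by
  unfold gam; fun_prop

lemma Dg.gam (hT : 0 < T) {φ : ℝ → ℝ} (hc : Continuous φ) (h0 : φ T = φ 0) :
    Dg T (gam T φ) 1 := by
  refine ⟨fun y => φ y + (2 * Real.pi * y / T : ℝ) * I, by fun_prop, fun y _ => rfl, ?_⟩
  simp only [h0, mul_div_assoc, div_self hT.ne']; push_cast; ring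

lemma gam_ray (hT : 0 < T) {φ : ℝ → ℝ} (h0 : φ T = φ 0) {y y' : ℝ} (hy : y ∈ Icc 0 T)
    (hy' : y' ∈ Icc 0 T) {r : ℝ} (hr : 0 < r) (e : gam T φ y = r * gam T φ y') : r = 1 := by
  have e1 : gam T φ y = cexp (Real.log r + (φ y' + (2 * Real.pi * y' / T : ℝ) * I)) := by
    rw [e, Complex.exp_add, ← Complex.ofReal_exp, Real.exp_log hr]; rfl
  obtain ⟨j, hj⟩ := Complex.exp_eq_exp_iff_exists_int.mp e1
  have hre := congrArg Complex.re hj
  have him := congrArg Complex.im hj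
  simp only [add_re, add_im, ofReal_re, ofReal_im, mul_re, mul_im, I_re, I_im, intCast_re,
    intCast_im, re_ofNat, im_ofNat] at hre him
  have h1 : y = y' + j * T := by
    have hp := Real.pi_pos
    have : 2 * Real.pi * y / T = 2 * Real.pi * y' / T + j * (2 * Real.pi) := by linarith
    field_simp at this; linarith
  have h2 : φ y = φ y' := by
    have b1 : (j:ℝ) * T ≤ 1 * T := by linarith [hy.2, hy'.1]
    have b2 : (-1:ℝ) * T ≤ j * T := by linarith [hy.1, hy'.2]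
    have c1 : j ≤ 1 := by exact_mod_cast le_of_mul_le_mul_right b1 hT
    have c2 : -1 ≤ j := by exact_mod_cast le_of_mul_le_mul_right b2 hT
    interval_cases j
    · have : y = 0 := by push_cast at h1; linarith [hy.1, hy'.2]
      have h3 : y' = T := by push_cast at h1; linarith
      rw [this, h3, h0]
    · rw [h1]; simp
    · have : y = T := by push_cast at h1; linarith [hy.2, hy'.1]
      have h3 : y' = 0 := by push_cast at h1; linarith
      rw [this, h3, h0]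
  have h3 : Real.log r = 0 := by linarith
  rw [← Real.exp_log hr, h3, Real.exp_zero]

lemma Dg.lin (hT : 0 < T) {φ : ℝ → ℝ} (hc : Continuous φ) (h0 : φ T = φ 0) (w : ℂ)
    (hw : ∀ y ∈ Icc 0 T, Sg.gam T φ y ≠ w) :
    ∃ n : ℤ, 0 ≤ n ∧ Dg T (fun y => Sg.gam T φ y - w) n := by
  have hg := cont_gam (T := T) hc
  by_cases hw0 : w = 0
  · exact ⟨1, zero_le_one, by simpa [hw0] using Dg.gam hT hc h0⟩
  obtain ⟨y', hy', ρ, hρ, hwy⟩ : ∃ y' ∈ Icc 0 T, ∃ ρ : ℝ, 0 < ρ ∧ w = ρ * Sg.gam T φ y' := by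
    have hp := Real.pi_pos
    have hm := toIcoMod_mem_Ico' Real.two_pi_pos w.arg
    obtain ⟨j, hj⟩ : ∃ j : ℤ, toIcoMod Real.two_pi_pos 0 w.arg = w.arg + j * (2 * Real.pi) :=
      ⟨-toIcoDiv Real.two_pi_pos 0 w.arg, by
        have := self_sub_toIcoDiv_zsmul Real.two_pi_pos 0 w.arg
        rw [zsmul_eq_mul] at this; push_cast; linarith⟩
    set θ := toIcoMod Real.two_pi_pos 0 w.arg
    refine ⟨θ * T / (2 * Real.pi), ⟨div_nonneg (mul_nonneg hm.1 hT.le) (by positivity), ?_⟩,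
      ‖w‖ * Real.exp (-φ (θ * T / (2 * Real.pi))), mul_pos (norm_pos_iff.mpr hw0) (Real.exp_pos _),
      ?_⟩
    · rw [div_le_iff₀ (by positivity)]; nlinarith [hm.2]
    · have e : 2 * Real.pi * (θ * T / (2 * Real.pi)) / T = θ := by field_simp
      unfold Sg.gam
      rw [e, Complex.ofReal_mul, Complex.ofReal_exp, mul_assoc, ← Complex.exp_add]
      have e2 : cexp (((-φ (θ * T / (2 * Real.pi)) : ℝ) : ℂ) +
          (φ (θ * T / (2 * Real.pi)) + θ * I)) = cexp (w.arg * I) :=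
        Complex.exp_eq_exp_iff_exists_int.mpr ⟨j, by rw [hj]; push_cast; ring⟩
      rw [e2, Complex.norm_mul_exp_arg_mul_I]
  have hρ1 : ρ ≠ 1 := by
    intro h; apply hw y' hy'; rw [hwy, h]; simp
  rcases lt_or_gt_of_ne hρ1 with hlt | hgt
  · refine ⟨1, zero_le_one, ?_⟩
    have := Dg.homot hT.le (fun p => Sg.gam T φ p.2 - p.1 * w) zero_le_one (by fun_prop)
      (fun t _ => by simp only [gam_T hT h0]) (fun t ht y hy h => ?_) (n := 1)
      (by simpa using Dg.gam hT hc h0)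
    · simpa using this
    · simp only [sub_eq_zero] at h
      rcases eq_or_lt_of_le ht.1 with h1 | h1
      · rw [← h1] at h; simp [Sg.gam] at h
      · have := gam_ray hT h0 hy hy' (mul_pos h1 hρ) (by rw [h, hwy]; push_cast; ring)
        nlinarith [ht.2]
  · refine ⟨0, le_rfl, ?_⟩
    have := Dg.homot hT.le (fun p => p.1 * Sg.gam T φ p.2 - w) zero_le_one (by fun_prop)
      (fun t _ => by simp only [gam_T hT h0]) (fun t ht y hy h => ?_) (n := 0)
      (by simpa using Dg.const (-w) (neg_ne_zero.mpr hw0))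
    · simpa using this
    · simp only [sub_eq_zero] at h
      rcases eq_or_lt_of_le ht.1 with h1 | h1
      · rw [← h1] at h; simp at h; exact hw0 h.symm
      · have ht0 : (t:ℂ) ≠ 0 := by exact_mod_cast h1.ne'
        have := gam_ray hT h0 hy hy' (div_pos hρ h1) (by
          rw [hwy] at h; push_cast; field_simp; linear_combination h)
        rw [div_eq_one_iff_eq h1.ne'] at this
        linarith [ht.2]

lemma Dg.poly (hT : 0 < T) {φ : ℝ → ℝ} (hc : Continuous φ) (h0 : φ T = φ 0) (d : ℕ) :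
    ∀ P : Polynomial ℂ, P.natDegree = d → (∀ y ∈ Icc 0 T, P.eval (Sg.gam T φ y) ≠ 0) →
    ∃ n : ℤ, 0 ≤ n ∧ Dg T (fun y => P.eval (Sg.gam T φ y)) n := by
  induction d with
  | zero =>
    intro P hP hne
    rw [Polynomial.eq_C_of_natDegree_eq_zero hP] at hne ⊢
    simp only [Polynomial.eval_C] at hne ⊢
    exact ⟨0, le_rfl, Dg.const _ (hne 0 ⟨le_rfl, hT.le⟩)⟩
  | succ d ih =>
    intro P hP hne
    have hP0 : P ≠ 0 := by rintro rfl; simp at hP
    obtain ⟨w, hw⟩ := Complex.exists_root (f := P) (by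
      rw [Polynomial.degree_eq_natDegree hP0, hP]; exact_mod_cast Nat.succ_pos d)
    obtain ⟨Q, rfl⟩ := Polynomial.dvd_iff_isRoot.mpr hw
    have hQ0 : Q ≠ 0 := by rintro rfl; simp at hP0
    rw [Polynomial.natDegree_mul (Polynomial.X_sub_C_ne_zero w) hQ0,
      Polynomial.natDegree_X_sub_C] at hP
    simp only [Polynomial.eval_mul, Polynomial.eval_sub, Polynomial.eval_X, Polynomial.eval_C,
      ne_eq, mul_eq_zero, not_or] at hne ⊢
    obtain ⟨n, hn, h1⟩ := ih Q (by omega) (fun y hy => (hne y hy).2)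
    obtain ⟨m, hm, h2⟩ := Dg.lin hT hc h0 w (fun y hy h => (hne y hy).1 (sub_eq_zero.mpr h))
    exact ⟨m + n, by omega, h2.mul h1⟩

/-- the winding number contradiction -/
lemma wind (hT : 0 < T) {φ : ℝ → ℝ} (hc : Continuous φ) (h0 : φ T = φ 0) (x : ℝ → ℂ → ℂ)
    (hx : ContinuousOn (fun p : ℝ × ℂ => x p.1 p.2) (Icc 1 2 ×ˢ univ)) (Q : Polynomial ℂ)
    (hQ : ∀ w, x 1 w = w * Q.eval w)
    (hne : ∀ t ∈ Icc (1:ℝ) 2, ∀ y ∈ Icc 0 T, x t (gam T φ y) ≠ 0)
    (hr : ∀ y ∈ Icc 0 T, ‖x 2 (gam T φ y) - x 1 (gam T φ y) * x 1 (gam T φ y)‖ <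
      ‖x 1 (gam T φ y) * x 1 (gam T φ y)‖) : False := by
  have hg := cont_gam (T := T) hc
  obtain ⟨n, hn, h1⟩ := Dg.poly hT hc h0 _ Q rfl (fun y hy h => by
    apply hne 1 ⟨le_rfl, one_le_two⟩ y hy; rw [hQ, h, mul_zero])
  have h2 : Dg T (fun y => x 1 (gam T φ y)) (1 + n) := by
    simpa only [hQ] using (Dg.gam hT hc h0).mul h1
  have hH : ContinuousOn (fun p : ℝ × ℝ => x p.1 (gam T φ p.2)) (Icc 1 2 ×ˢ Icc 0 T) :=
    hx.comp (f := fun p : ℝ × ℝ => (p.1, gam T φ p.2)) (by fun_prop) (fun p hp => ⟨hp.1, trivial⟩)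
  have h3 := Dg.homot hT.le (fun p => x p.1 (gam T φ p.2)) one_le_two hH
    (fun t _ => by simp only [gam_T hT h0]) hne h2
  have h4 : Dg T (fun y => x 2 (gam T φ y)) (1 + n + (1 + n)) := by
    apply (h2.mul h2).rouche hT.le _ (by simp only [gam_T hT h0]) hr
    exact hH.comp (f := fun y : ℝ => ((2:ℝ), y)) (by fun_prop)
      (fun y hy => ⟨⟨one_le_two, le_rfl⟩, hy⟩)
  have := h3.uniq hT.le h4
  omega

end Pool.Agent.H3.Sg
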