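import Mathlib
import Pool.Agent.H3.SgA
import Pool.Agent.H3.SgB

open Complex Metric Set MeasureTheory

namespace Pool.Agent.H3.Sg

variable {ι : Type}

noncomputable def ES (S : Finset ι) (r : ι → ℝ) (β : ι → ℂ) (s : ℂ) : ℂ :=
  ∑ p ∈ S, β p * cexp (-(r p) * s)

lemma ES_le (S : Finset ι) (r : ι → ℝ) (hr : ∀ p, 0 ≤ r p) (β : ι → ℂ) (s : ℂ) (hs : 0 ≤ s.re) :
    ‖ES S r β s‖ ≤ ∑ p ∈ S, ‖β p‖ := by
  refine (norm_sum_le _ _).trans (Finset.sum_le_sum fun p _ => ?_)
  rw [norm_mul, Complex.norm_exp]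
  apply mul_le_of_le_one_right (norm_nonneg _)
  rw [Real.exp_le_one_iff]; simp; exact mul_nonneg (hr p) hs

lemma gauss [DecidableEq ι] (S : Finset ι) (r : ι → ℝ) (hr : ∀ p, 0 ≤ r p) (β : ι → ℂ) (i0 : ι)
    (hi : i0 ∈ S) (hq : 0 < r i0) (σ : ℝ) (hσ : 0 < σ) (C c : ℝ) (hc : 0 < c)
    (hC : ∑ p ∈ S, ‖β p‖ ≤ C) (hcβ : c ≤ ‖β i0‖)
    (h1 : ∑ p ∈ S.erase i0, ‖β p‖ * Real.exp (-((r p - r i0) ^ 2 / (8 * r i0) * σ)) ≤ c / 2)
    (h2 : 2 * C * Real.exp (-(r i0 * σ)) ≤ c / 4) :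
    ∃ y : ℝ, |y| ≤ 2 * σ ∧ c / 8 * Real.exp (-(3 * r i0 * σ)) ≤ ‖ES S r β (σ + y * I)‖ := by
  by_contra hcon
  push Not at hcon
  set q := r i0 with hq0
  set b : ℝ := 2 * q / σ with hb
  have hb0 : 0 < b := by positivity
  have hbc : 0 < (b:ℂ).re := by simpa using hb0
  have hC0 : 0 ≤ C := le_trans (Finset.sum_nonneg fun p _ => norm_nonneg _) hC
  set W : ℝ := √(Real.pi / b) with hW
  have hW0 : 0 < W := Real.sqrt_pos.mpr (div_pos Real.pi_pos hb0)
  set J : ℂ := (Real.pi / b : ℂ) ^ (1 / 2 : ℂ) with hJ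
  have hJn : ‖J‖ = W := by
    rw [hJ, hW, ← Complex.ofReal_div, Complex.norm_cpow_eq_rpow_re_of_pos (div_pos Real.pi_pos hb0),
      Real.sqrt_eq_rpow]; simp
  set G : ℝ → ℂ := fun y => ES S r β (σ + y * I) * cexp (q * (σ + y * I) + b * (σ + y * I) ^ 2)
    with hG
  have hGe : ∀ y, G y = ∑ p ∈ S, β p * (Real.exp (-((r p - q) ^ 2 / (8 * q) * σ)) : ℝ) *
      cexp (-(b:ℂ) * (y + ((r p - q) / (2 * b) - σ : ℝ) * I) ^ 2) := by
    intro y
    simp only [hG, ES, Finset.sum_mul]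
    refine Finset.sum_congr rfl fun p _ => ?_
    rw [mul_assoc, mul_assoc, Complex.ofReal_exp, ← Complex.exp_add, ← Complex.exp_add]
    congr 2
    have e1 : (σ:ℂ) ≠ 0 := by exact_mod_cast hσ.ne'
    have e2 : (q:ℂ) ≠ 0 := by exact_mod_cast hq.ne'
    rw [hb]; push_cast; field_simp
    ring_nf
    simp only [I_sq, I_pow_three]; ring
  have hint : ∫ y, G y = (∑ p ∈ S, β p * (Real.exp (-((r p - q) ^ 2 / (8 * q) * σ)) : ℝ)) * J := by
    simp_rw [hGe]
    rw [integral_finset_sum _ (fun p _ =>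
      (GaussianFourier.integrable_cexp_neg_mul_sq_add_real_mul_I hbc _).const_mul _),
      Finset.sum_mul]
    refine Finset.sum_congr rfl fun p _ => ?_
    rw [integral_const_mul, GaussianFourier.integral_cexp_neg_mul_sq_add_real_mul_I hbc]
  have hlow : c / 2 * W ≤ ‖∫ y, G y‖ := by
    rw [hint, norm_mul, hJn]
    apply mul_le_mul_of_nonneg_right _ hW0.le
    rw [← Finset.add_sum_erase _ _ hi]
    have e : β i0 * (Real.exp (-((r i0 - q) ^ 2 / (8 * q) * σ)) : ℝ) = β i0 := by simp [hq0]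
    rw [e]
    have h3 : ‖∑ p ∈ S.erase i0, β p * (Real.exp (-((r p - q) ^ 2 / (8 * q) * σ)) : ℝ)‖ ≤ c / 2 := by
      refine le_trans ((norm_sum_le _ _).trans (le_of_eq ?_)) h1
      refine Finset.sum_congr rfl fun p _ => ?_
      rw [norm_mul, Complex.norm_real, Real.norm_eq_abs, abs_of_pos (Real.exp_pos _)]
    have h4 := norm_sub_norm_le (β i0) (-∑ p ∈ S.erase i0,
      β p * (Real.exp (-((r p - q) ^ 2 / (8 * q) * σ)) : ℝ))
    rw [sub_neg_eq_add, norm_neg] at h4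
    linarith
  have hup : ∀ y, ‖G y‖ ≤ c / 8 * Real.exp (-b * y ^ 2)
      + C * Real.exp (-(q * σ)) * Real.exp (-(b / 2) * y ^ 2) := by
    intro y
    have e : ‖cexp (q * (σ + y * I) + b * (σ + y * I) ^ 2)‖
        = Real.exp (3 * q * σ) * Real.exp (-b * y ^ 2) := by
      rw [Complex.norm_exp, ← Real.exp_add]; congr 1
      simp [pow_two]; rw [hb]; field_simp; ring
    simp only [hG, norm_mul, e]
    by_cases hy : |y| ≤ 2 * σ
    · have h3 := (hcon y hy).le
      have h4 : c / 8 * Real.exp (-(3 * q * σ)) * (Real.exp (3 * q * σ) * Real.exp (-b * y ^ 2))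
          = c / 8 * Real.exp (-b * y ^ 2) := by
        rw [Real.exp_neg]; field_simp
      have h5 := mul_le_mul_of_nonneg_right h3
        (show 0 ≤ Real.exp (3 * q * σ) * Real.exp (-b * y ^ 2) by positivity)
      have h6 : 0 ≤ C * Real.exp (-(q * σ)) * Real.exp (-(b / 2) * y ^ 2) := by positivity
      linarith
    · push Not at hy
      have h3 := (ES_le S r hr β (σ + y * I) (by simpa using hσ.le)).trans hC
      have h4 : Real.exp (3 * q * σ) * Real.exp (-b * y ^ 2)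
          ≤ Real.exp (-(q * σ)) * Real.exp (-(b / 2) * y ^ 2) := by
        rw [← Real.exp_add, ← Real.exp_add, Real.exp_le_exp]
        have h5 : (2 * σ) ^ 2 ≤ y ^ 2 := by
          rw [← sq_abs y]; exact pow_le_pow_left₀ (by linarith) hy.le 2
        have h6 : b / 2 * (2 * σ) ^ 2 = 4 * q * σ := by rw [hb]; field_simp; ring
        nlinarith
      have h5 := mul_le_mul h3 h4 (by positivity) hC0
      have h6 : 0 ≤ c / 8 * Real.exp (-b * y ^ 2) := by positivity
      linarith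
  have i1 := (integrable_exp_neg_mul_sq hb0).const_mul (c / 8)
  have i2 := (integrable_exp_neg_mul_sq (half_pos hb0)).const_mul (C * Real.exp (-(q * σ)))
  have h7 := norm_integral_le_of_norm_le (i1.add i2) (Filter.Eventually.of_forall hup)
  simp only [Pi.add_apply] at h7
  rw [integral_add i1 i2, integral_const_mul, integral_const_mul, integral_gaussian,
    integral_gaussian] at h7
  have h8 : √(Real.pi / (b / 2)) ≤ 2 * W := by
    rw [hW, Real.sqrt_le_iff]
    refine ⟨by positivity, ?_⟩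
    rw [mul_pow, Real.sq_sqrt (div_pos Real.pi_pos hb0).le]
    have : Real.pi / (b / 2) = 2 * (Real.pi / b) := by field_simp
    rw [this]; linarith [div_pos Real.pi_pos hb0]
  have h9 := mul_le_mul_of_nonneg_left h8 (show 0 ≤ C * Real.exp (-(q * σ)) by positivity)
  nlinarith

lemma win [DecidableEq ι] (S : Finset ι) (r : ι → ℝ) (hr : ∀ p, 0 ≤ r p) (β : ι → ℂ) (i0 : ι)
    (hi : i0 ∈ S) (hq : 0 < r i0) (σ : ℝ) (hσ : 0 < σ) (C c : ℝ) (hc : 0 < c) (hC1 : 0 < C)
    (hC : ∑ p ∈ S, ‖β p‖ ≤ C) (hcβ : c ≤ ‖β i0‖)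
    (h1 : ∑ p ∈ S.erase i0, ‖β p‖ * Real.exp (-((r p - r i0) ^ 2 / (8 * r i0) * σ)) ≤ c / 2)
    (h2 : 2 * C * Real.exp (-(r i0 * σ)) ≤ c / 4) (L : ℝ) (hL : 1 ≤ L)
    (hL2 : C * Real.exp (-L) ≤ c / 8 * Real.exp (-(3 * r i0 * σ))) (τ e : ℝ) (he : |e| ≤ 1) :
    ∃ d ∈ Icc (0:ℝ) (1 / 20), ∀ z : ℂ, ‖z‖ ≤ 3 / 10 → z.re + e * z.im = d →
      C * Real.exp (-(3200 * L)) ≤ ‖ES S r β (5 * σ * (1 + z) - τ * I)‖ := by
  have hn : ∀ p, ‖β p * cexp (r p * τ * I)‖ = ‖β p‖ := by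
    intro p; rw [norm_mul, Complex.norm_exp]; simp
  obtain ⟨y, hy, hy2⟩ := gauss S r hr (fun p => β p * cexp (r p * τ * I)) i0 hi hq σ hσ C c hc
    (by simpa only [hn] using hC) (by simpa only [hn] using hcβ) (by simpa only [hn] using h1) h2
  have hE : ∀ s, ES S r (fun p => β p * cexp (r p * τ * I)) s = ES S r β (s - τ * I) := by
    intro s; unfold ES
    refine Finset.sum_congr rfl fun p _ => ?_
    rw [mul_assoc, ← Complex.exp_add]; congr 2; ring
  have hnC : ‖(C:ℂ)‖ = C := by rw [Complex.norm_real, Real.norm_eq_abs, abs_of_pos hC1]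
  obtain ⟨d, hd, hd2⟩ := line (fun z => ES S r β (5 * σ * (1 + z) - τ * I) / C)
    (by unfold ES; fun_prop) (fun z hz => by
      rw [norm_div, hnC, div_le_one hC1]
      refine (ES_le S r hr β _ ?_).trans hC
      have := abs_le.mp ((Complex.abs_re_le_norm z).trans hz)
      simp; nlinarith [this.1])
    (((-4 / 5 : ℝ) : ℂ) + (y / (5 * σ) : ℝ) * I) (by
      rw [← sq_le_sq₀ (norm_nonneg _) (by norm_num), Complex.sq_norm, Complex.normSq_add_mul_I]
      have h3 : |y / (5 * σ)| ≤ 2 / 5 := by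
        rw [abs_div, abs_of_pos (show 0 < 5 * σ by linarith), div_le_iff₀ (by linarith)]; linarith
      have h4 := pow_le_pow_left₀ (abs_nonneg _) h3 2
      rw [sq_abs] at h4; linarith) L hL (by
      rw [norm_div, hnC, le_div_iff₀ hC1, mul_comm]
      refine hL2.trans (hy2.trans (le_of_eq ?_))
      rw [hE]; congr 3
      have e1 : (σ:ℂ) ≠ 0 := by exact_mod_cast hσ.ne'
      push_cast; field_simp; ring) e he
  refine ⟨d, hd, fun z hz hz2 => ?_⟩
  have := hd2 z hz hz2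
  rwa [norm_div, hnC, le_div_iff₀ hC1, mul_comm] at this

lemma zig (F : ℂ → ℂ) (σ T η : ℝ) (hT : 1 ≤ T) (hper : ∀ s, F (s - (5 * σ * T : ℝ) * I) = F s)
    (hw : ∀ τ e : ℝ, |e| ≤ 1 → ∃ d ∈ Icc (0:ℝ) (1 / 20), ∀ z : ℂ, ‖z‖ ≤ 3 / 10 →
      z.re + e * z.im = d → η ≤ ‖F (5 * σ * (1 + z) - τ * I)‖) :
    ∃ X : ℝ → ℝ, Continuous X ∧ X T = X 0 ∧ ∀ y ∈ Icc 0 T, -(1 / 10) ≤ X y ∧
      η ≤ ‖F (5 * σ * (1 + X y) - (5 * σ * y : ℝ) * I)‖ := by
  set M := ⌈5 * T⌉₊ with hM
  have hM1 : 5 * T ≤ M := Nat.le_ceil _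
  have hM2 : (M:ℝ) < 5 * T + 1 := Nat.ceil_lt_add_one (by linarith)
  have hM0 : (0:ℝ) < M := by linarith
  set D := T / M with hD
  have hD1 : D ≤ 1 / 5 := by rw [hD, div_le_iff₀ hM0]; linarith
  have hD2 : 1 / 10 ≤ D := by rw [hD, le_div_iff₀ hM0]; linarith
  have hMD : M * D = T := by rw [hD]; field_simp
  have key : ∀ e : ℝ, |e| ≤ 1 → ∃ d : ℕ → ℝ, d M = d 0 ∧ ∀ k, d k ∈ Icc (0:ℝ) (1 / 20) ∧
      ∀ z : ℂ, ‖z‖ ≤ 3 / 10 → z.re + e * z.im = d k →
        η ≤ ‖F (5 * σ * (1 + z) - (5 * σ * (k * D) : ℝ) * I)‖ := by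
    intro e he
    choose d hd hd2 using fun k : ℕ => hw (5 * σ * (k * D)) e he
    refine ⟨fun k => if k = M then d 0 else d k, by simp, fun k => ?_⟩
    by_cases hk : k = M
    · simp only [hk, if_true]
      refine ⟨hd 0, fun z hz hz2 => ?_⟩
      rw [hMD, hper]; simpa using hd2 0 z hz hz2
    · simp only [hk, if_false]; exact ⟨hd k, hd2 k⟩
  obtain ⟨c, hc0, hc⟩ := key 1 (by simp)
  obtain ⟨d, hd0, hd⟩ := key (-1) (by simp)
  have hne : (Finset.range (M + 1)).Nonempty := ⟨0, by simp⟩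
  set t : ℕ → ℝ → ℝ := fun k y => min (y - k * D + c k) (d k - (y - k * D)) with ht
  have hle : ∀ k, k ≤ M → ∀ y, t k y ≤ (Finset.range (M + 1)).sup' hne (fun k => t k y) :=
    fun k hk y => Finset.le_sup' (fun k => t k y) (Finset.mem_range.mpr (by omega))
  refine ⟨fun y => (Finset.range (M + 1)).sup' hne (fun k => t k y), ?_, ?_, ?_⟩
  · apply Continuous.finset_sup'_apply; intro k _; simp only [ht]; fun_prop
  · have a0 : 0 ≤ min (c 0) (d 0) := le_min (hc 0).1.1 (hd 0).1.1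
    have e1 : t M T = min (c 0) (d 0) := by simp [ht, hMD, hc0, hd0]
    have e2 : t 0 0 = min (c 0) (d 0) := by simp [ht]
    have f1 : (Finset.range (M + 1)).sup' hne (fun k => t k T) = min (c 0) (d 0) := by
      apply le_antisymm _ (e1 ▸ hle M le_rfl T)
      apply Finset.sup'_le
      intro k hk
      rcases eq_or_lt_of_le (Nat.lt_succ_iff.mp (Finset.mem_range.mp hk)) with h | h
      · rw [h, e1]
      · have h1 : (k:ℝ) + 1 ≤ M := by exact_mod_cast h
        refine (min_le_right _ _).trans (le_trans ?_ a0)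
        nlinarith [(hd k).1.2]
    have f2 : (Finset.range (M + 1)).sup' hne (fun k => t k 0) = min (c 0) (d 0) := by
      apply le_antisymm _ (e2 ▸ hle 0 (Nat.zero_le _) 0)
      apply Finset.sup'_le
      intro k _
      rcases Nat.eq_zero_or_pos k with h | h
      · rw [h, e2]
      · have h1 : (1:ℝ) ≤ k := by exact_mod_cast h
        refine (min_le_left _ _).trans (le_trans ?_ a0)
        nlinarith [(hc k).1.2]
    simp only [f1, f2]
  · intro y hy
    have hD0 : 0 < D := by linarith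
    have low : -(1 / 10) ≤ (Finset.range (M + 1)).sup' hne (fun k => t k y) := by
      have h0 : 0 ≤ y / D + 1 / 2 := by have := div_nonneg hy.1 hD0.le; linarith
      have h1 := Nat.floor_le h0
      have h2 := Nat.lt_floor_add_one (y / D + 1 / 2)
      set k := ⌊y / D + 1 / 2⌋₊
      have h3 : y / D ≤ M := by rw [div_le_iff₀ hD0, hMD]; exact hy.2
      have h4 : k ≤ M := by
        have : (k:ℝ) < M + 1 := by linarith
        exact Nat.lt_succ_iff.mp (by exact_mod_cast this)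
      refine le_trans ?_ (hle k h4 y)
      have h5 : y = y / D * D := by field_simp
      apply le_min <;> nlinarith [(hc k).1.1, (hd k).1.1]
    refine ⟨low, ?_⟩
    obtain ⟨k, -, hk⟩ := Finset.exists_mem_eq_sup' hne (fun k => t k y)
    simp only [hk] at low ⊢
    have l1 := low.trans (min_le_left _ _)
    have l2 := low.trans (min_le_right _ _)
    have l3 : t k y ≤ y - k * D + c k := min_le_left _ _
    have l4 : t k y ≤ d k - (y - k * D) := min_le_right _ _
    have hz : ‖((t k y : ℝ) : ℂ) + (-(y - k * D) : ℝ) * I‖ ≤ 3 / 10 := by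
      refine (Complex.norm_le_abs_re_add_abs_im _).trans ?_
      simp only [add_re, add_im, ofReal_re, ofReal_im, mul_re, mul_im, I_re, I_im]
      have b1 : |t k y| ≤ 1 / 10 := abs_le.mpr ⟨low, by linarith [(hc k).1.2, (hd k).1.2]⟩
      have b2 : |-(y - k * D)| ≤ 3 / 20 :=
        abs_le.mpr ⟨by linarith [(hd k).1.2], by linarith [(hc k).1.2]⟩
      simp only [mul_zero, mul_one, sub_zero, add_zero, zero_add]; linarith
    have he : (5 * σ * (1 + (((t k y : ℝ) : ℂ) + (-(y - k * D) : ℝ) * I)) -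
        (5 * σ * (k * D) : ℝ) * I : ℂ) = 5 * σ * (1 + (t k y : ℝ)) - (5 * σ * y : ℝ) * I := by
      push_cast; ring
    rw [← he]
    rcases min_choice (y - k * D + c k) (d k - (y - k * D)) with h | h
    · apply (hc k).2 _ hz
      have : t k y = y - k * D + c k := h
      simp; linarith
    · apply (hd k).2 _ hz
      have : t k y = d k - (y - k * D) := h
      simp; linarith

end Pool.Agent.H3.Sg
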