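import Mathlib
import Pool.Agent.H3.SgC

open Complex Metric Set Filter Topology

namespace Pool.Agent.H3.Sg

set_option maxHeartbeats 400000

abbrev QP := {q : ℚ // 0 < q}

def rq (q : QP) : ℝ := ((q : ℚ) : ℝ)

lemma rq_pos (q : QP) : 0 < rq q := by unfold rq; exact_mod_cast q.2

def addQ (pq : QP × QP) : QP := ⟨pq.1.1 + pq.2.1, add_pos pq.1.2 pq.2.2⟩

lemma rq_add (pq : QP × QP) : rq (addQ pq) = rq pq.1 + rq pq.2 := by simp [rq, addQ]

noncomputable def LT (u : QP → ℂ) (s : ℂ) : ℂ := ∑' q, u q * cexp (-(rq q) * s)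

lemma nrm_le (u : QP → ℂ) (s : ℂ) (hs : 0 ≤ s.re) (q : QP) :
    ‖u q * cexp (-(rq q) * s)‖ ≤ ‖u q‖ := by
  rw [norm_mul, Complex.norm_exp]
  apply mul_le_of_le_one_right (norm_nonneg _)
  rw [Real.exp_le_one_iff]; simp; exact mul_nonneg (rq_pos q).le hs

lemma sumLT {u : QP → ℂ} (hu : Summable fun q => ‖u q‖) (s : ℂ) (hs : 0 ≤ s.re) :
    Summable fun q => ‖u q * cexp (-(rq q) * s)‖ :=
  hu.of_nonneg_of_le (fun _ => norm_nonneg _) (nrm_le u s hs)

noncomputable def tail (S : Finset QP) (u : QP → ℂ) : ℝ := ∑' q : {q // q ∉ S}, ‖u q‖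

lemma LT_ES {u : QP → ℂ} (hu : Summable fun q => ‖u q‖) (S : Finset QP) (s : ℂ) (hs : 0 ≤ s.re) :
    ‖LT u s - ES S rq u s‖ ≤ tail S u := by
  have h := (sumLT hu s hs).of_norm.sum_add_tsum_compl (s := S)
  unfold LT ES
  rw [← h, add_sub_cancel_left]
  exact tsum_of_norm_bounded (hu.subtype _).hasSum (fun q => nrm_le u s hs q)

lemma LT_le {u : QP → ℂ} (hu : Summable fun q => ‖u q‖) (s : ℂ) (hs : 0 ≤ s.re) :
    ‖LT u s‖ ≤ ∑' q, ‖u q‖ := tsum_of_norm_bounded hu.hasSum (fun q => nrm_le u s hs q)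

noncomputable def tr (R : ℝ) (u : QP → ℂ) (q : QP) : ℂ := if rq q < R then u q else 0

lemma LT_mul (R : ℝ) (a b c : QP → ℂ) (ha : Summable fun q => ‖tr R a q‖)
    (hb : Summable fun q => ‖tr R b q‖)
    (hc : ∀ r : QP, c r = ∑' pq : QP × QP, if pq.1.1 + pq.2.1 = r.1 then a pq.1 * b pq.2 else 0)
    (s : ℂ) (hs : 0 ≤ s.re) :
    ‖LT (tr R c) s - LT (tr R a) s * LT (tr R b) s‖ ≤
      (∑' q, ‖tr R a q‖) * (∑' q, ‖tr R b q‖) * Real.exp (-(R * s.re)) := by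
  set g : QP × QP → ℂ := fun pq => tr R a pq.1 * cexp (-(rq pq.1) * s) *
    (tr R b pq.2 * cexp (-(rq pq.2) * s)) with hg
  have hgs : Summable fun pq => ‖g pq‖ :=
    Summable.mul_norm (f := fun q => tr R a q * cexp (-(rq q) * s))
      (g := fun q => tr R b q * cexp (-(rq q) * s)) (sumLT ha s hs) (sumLT hb s hs)
  set f : QP × QP → ℂ := fun pq => if rq (addQ pq) < R then g pq else 0 with hf
  have hfs : Summable f := by
    apply Summable.of_norm_bounded hgs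
    intro pq; simp only [hf]; split_ifs <;> simp
  have e1 : LT (tr R a) s * LT (tr R b) s = ∑' pq, g pq :=
    tsum_mul_tsum_of_summable_norm (f := fun q => tr R a q * cexp (-(rq q) * s))
      (g := fun q => tr R b q * cexp (-(rq q) * s)) (sumLT ha s hs) (sumLT hb s hs)
  have e2 : LT (tr R c) s = ∑' pq, f pq := by
    rw [← (hfs.hasSum.tsum_fiberwise addQ).tsum_eq]
    unfold LT
    refine tsum_congr fun r => ?_
    rw [tsum_subtype (addQ ⁻¹' {r}) f]
    by_cases hr : rq r < R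
    · simp only [tr, hr, if_true]
      rw [hc, ← tsum_mul_right]
      refine tsum_congr fun pq => ?_
      by_cases h : pq.1.1 + pq.2.1 = r.1
      · have h' : addQ pq = r := Subtype.ext h
        have h2 := rq_add pq
        rw [h'] at h2
        have p1 : rq pq.1 < R := by linarith [rq_pos pq.2]
        have p2 : rq pq.2 < R := by linarith [rq_pos pq.1]
        rw [indicator_of_mem (show pq ∈ addQ ⁻¹' {r} from h')]
        simp only [h, hf, hg, h', hr, if_true, tr, p1, p2]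
        rw [h2]; push_cast
        rw [neg_add, add_mul, Complex.exp_add]; ring
      · rw [indicator_of_notMem (show pq ∉ addQ ⁻¹' {r} from fun h' => h (congrArg Subtype.val h'))]
        simp [h]
    · simp only [tr, hr, if_false, zero_mul]
      symm
      rw [← tsum_zero (β := QP × QP)]
      refine tsum_congr fun pq => ?_
      by_cases h' : addQ pq = r
      · rw [indicator_of_mem (show pq ∈ addQ ⁻¹' {r} from h')]; simp [hf, h', hr]
      · rw [indicator_of_notMem (show pq ∉ addQ ⁻¹' {r} from h')]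
  rw [e1, e2, ← hfs.tsum_sub hgs.of_norm]
  have h3 := (ha.hasSum.mul hb.hasSum (ha.mul_of_nonneg hb (fun _ => norm_nonneg _)
    (fun _ => norm_nonneg _))).mul_right (Real.exp (-(R * s.re)))
  refine tsum_of_norm_bounded h3 fun pq => ?_
  simp only [hf]
  split_ifs with h
  · rw [sub_self, norm_zero]; positivity
  · rw [zero_sub, norm_neg]
    simp only [hg, norm_mul, Complex.norm_exp]
    have h4 : Real.exp ((-(rq pq.1 : ℂ) * s).re) * Real.exp ((-(rq pq.2 : ℂ) * s).re)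
        ≤ Real.exp (-(R * s.re)) := by
      rw [← Real.exp_add, Real.exp_le_exp]
      rw [rq_add] at h
      simp; nlinarith [not_lt.mp h]
    have h5 := mul_le_mul_of_nonneg_left h4
      (show 0 ≤ ‖tr R a pq.1‖ * ‖tr R b pq.2‖ by positivity)
    linarith

lemma tail_le {u v : QP → ℂ} (hu : Summable fun q => ‖u q‖) (hv : Summable fun q => ‖v q‖)
    (S : Finset QP) : tail S u ≤ tail S v + ∑' q, ‖u q - v q‖ := by
  have hd : Summable fun q => ‖u q - v q‖ :=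
    (hu.add hv).of_nonneg_of_le (fun _ => norm_nonneg _) (fun q => norm_sub_le _ _)
  have h1 : tail S u ≤ tail S v + ∑' q : {q // q ∉ S}, ‖u q - v q‖ := by
    unfold tail
    have s1 : Summable fun q : {q // q ∉ S} => ‖u q‖ := hu.subtype _
    have s2 : Summable fun q : {q // q ∉ S} => ‖v q‖ := hv.subtype _
    have s3 : Summable fun q : {q // q ∉ S} => ‖u q - v q‖ := hd.subtype _
    rw [← s2.tsum_add s3]
    exact s1.tsum_le_tsum (fun q => norm_le_norm_add_norm_sub' _ _) (s2.add s3)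
  have h2 : ∑' q : {q // q ∉ S}, ‖u q - v q‖ ≤ ∑' q, ‖u q - v q‖ :=
    hd.tsum_subtype_le _ {q | q ∉ S} (fun _ => norm_nonneg _)
  linarith

lemma tail_anti {u : QP → ℂ} (hu : Summable fun q => ‖u q‖) {S S' : Finset QP} (h : S ⊆ S') :
    tail S' u ≤ tail S u := by
  have h1 := hu.sum_add_tsum_compl (s := S)
  have h2 := hu.sum_add_tsum_compl (s := S')
  have h3 : ∑ q ∈ S, ‖u q‖ ≤ ∑ q ∈ S', ‖u q‖ :=
    Finset.sum_le_sum_of_subset_of_nonneg h (fun _ _ _ => norm_nonneg _)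
  have e1 : tail S u = ∑' q : ↑((S : Set QP)ᶜ), ‖u q‖ := rfl
  have e2 : tail S' u = ∑' q : ↑((S' : Set QP)ᶜ), ‖u q‖ := rfl
  linarith

lemma tight (u : ℝ → QP → ℂ) (hu : ∀ t ∈ Icc (1:ℝ) 3, Summable fun q => ‖u t q‖)
    (hc : ∀ t0 ∈ Icc (1:ℝ) 3, Tendsto (fun t => ∑' q, ‖u t q - u t0 q‖) (𝓝[Icc 1 3] t0) (𝓝 0))
    (ε : ℝ) (hε : 0 < ε) : ∃ S : Finset QP, ∀ t ∈ Icc (1:ℝ) 3, tail S (u t) ≤ ε := by
  have := (isCompact_Icc (a := (1:ℝ)) (b := 3)).induction_on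
    (p := fun K => ∃ S : Finset QP, ∀ t ∈ K, t ∈ Icc (1:ℝ) 3 → tail S (u t) ≤ ε)
    ⟨∅, by simp⟩ (fun s t hst ⟨S, h⟩ => ⟨S, fun x hx => h x (hst hx)⟩)
    (fun s t ⟨S, h⟩ ⟨S', h'⟩ => ⟨S ∪ S', fun x hx hx' => by
      rcases hx with hx | hx
      · exact (tail_anti (hu x hx') Finset.subset_union_left).trans (h x hx hx')
      · exact (tail_anti (hu x hx') Finset.subset_union_right).trans (h' x hx hx')⟩)
    (fun x hx => by
      obtain ⟨S, hS⟩ := ((tendsto_tsum_compl_atTop_zero (fun q => ‖u x q‖)).eventually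
        (gt_mem_nhds (half_pos hε))).exists
      refine ⟨_, (hc x hx).eventually (gt_mem_nhds (half_pos hε)), S, fun t ht ht' => ?_⟩
      have h1 := tail_le (hu t ht') (hu x hx) S
      have h2 : tail S (u x) < ε / 2 := hS
      have h3 : ∑' q, ‖u t q - u x q‖ < ε / 2 := ht
      linarith)
  obtain ⟨S, h⟩ := this
  exact ⟨S, fun t ht => h t ht ht⟩

lemma cont_pt (u : ℝ → QP → ℂ) (hu : ∀ t ∈ Icc (1:ℝ) 3, Summable fun q => ‖u t q‖)
    (hc : ∀ t0 ∈ Icc (1:ℝ) 3, Tendsto (fun t => ∑' q, ‖u t q - u t0 q‖) (𝓝[Icc 1 3] t0) (𝓝 0))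
    (p : QP) : ContinuousOn (fun t => u t p) (Icc 1 3) := by
  intro t0 h0
  rw [ContinuousWithinAt, tendsto_iff_norm_sub_tendsto_zero]
  refine squeeze_zero' (Eventually.of_forall fun _ => norm_nonneg _) ?_ (hc t0 h0)
  filter_upwards [self_mem_nhdsWithin] with t ht
  have hd : Summable fun q => ‖u t q - u t0 q‖ :=
    ((hu t ht).add (hu t0 h0)).of_nonneg_of_le (fun _ => norm_nonneg _) (fun q => norm_sub_le _ _)
  exact hd.le_tsum p (fun _ _ => norm_nonneg _)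

lemma bdd (u : ℝ → QP → ℂ) (hu : ∀ t ∈ Icc (1:ℝ) 3, Summable fun q => ‖u t q‖)
    (hc : ∀ t0 ∈ Icc (1:ℝ) 3, Tendsto (fun t => ∑' q, ‖u t q - u t0 q‖) (𝓝[Icc 1 3] t0) (𝓝 0)) :
    ∃ C, 1 ≤ C ∧ ∀ t ∈ Icc (1:ℝ) 3, ∑' q, ‖u t q‖ ≤ C := by
  obtain ⟨S, hS⟩ := tight u hu hc 1 one_pos
  obtain ⟨B, hB⟩ := (isCompact_Icc (a := (1:ℝ)) (b := 3)).bddAbove_image
    (f := fun t => ∑ q ∈ S, ‖u t q‖)
    (continuousOn_finset_sum _ fun q _ => (cont_pt u hu hc q).norm)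
  refine ⟨max 1 (B + 1), le_max_left _ _, fun t ht => le_trans ?_ (le_max_right _ _)⟩
  have h1 := (hu t ht).sum_add_tsum_compl (s := S)
  have e1 : tail S (u t) = ∑' q : ↑((S : Set QP)ᶜ), ‖u t q‖ := rfl
  have h2 : ∑ q ∈ S, ‖u t q‖ ≤ B := hB ⟨t, ht, rfl⟩
  linarith [hS t ht]

lemma den (S : Finset QP) (k : ℕ) (hk : 0 < k) : ∃ N : ℕ, k ≤ N ∧ ∃ n : QP → ℕ, ∀ p ∈ S,
    ((n p + 1 : ℕ) : ℝ) = rq p * N := by
  have hP : 0 < ∏ p ∈ S, p.1.den := Finset.prod_pos fun p _ => p.1.den_pos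
  refine ⟨(∏ p ∈ S, p.1.den) * k, Nat.le_mul_of_pos_left _ hP, ?_⟩
  have : ∀ p : QP, ∃ n : ℕ, p ∈ S → ((n + 1 : ℕ) : ℝ) = rq p * ((∏ p ∈ S, p.1.den) * k : ℕ) := by
    intro p
    by_cases hp : p ∈ S
    · obtain ⟨j, hj⟩ := Finset.dvd_prod_of_mem (fun p : QP => p.1.den) hp
      have hnum : 0 < p.1.num := Rat.num_pos.mpr p.2
      have e : ((p.1.num.toNat * j * k : ℕ) : ℝ) = rq p * ((∏ p ∈ S, p.1.den) * k : ℕ) := by
        rw [hj]
        have h1 : ((p.1.num.toNat : ℕ) : ℝ) = rq p * p.1.den := by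
          have h2 : ((p.1.num.toNat : ℕ) : ℤ) = p.1.num := Int.toNat_of_nonneg hnum.le
          have h3 : ((p.1.num.toNat : ℕ) : ℝ) = (p.1.num : ℝ) := by exact_mod_cast h2
          rw [h3, rq]; exact_mod_cast (Rat.mul_den_eq_num p.1).symm
        push_cast; rw [h1]; ring
      have hpos : 0 < p.1.num.toNat * j * k := by
        have : (0:ℝ) < ((p.1.num.toNat * j * k : ℕ) : ℝ) := by
          rw [e]; exact mul_pos (rq_pos p) (by exact_mod_cast Nat.mul_pos hP hk)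
        exact_mod_cast this
      exact ⟨p.1.num.toNat * j * k - 1, fun _ => by rw [Nat.sub_add_cancel hpos, e]⟩
    · exact ⟨0, fun h => absurd h hp⟩
  choose n hn using this
  exact ⟨n, hn⟩

end Pool.Agent.H3.Sg
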