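import Mathlib
import Pool.Agent.H3.SgD

open Complex Metric Set Filter Topology

namespace Pool.Agent.H3.Sg

set_option maxHeartbeats 800000

lemma ev_exp (k ε : ℝ) (hk : 0 < k) (hε : 0 < ε) :
    ∀ᶠ σ : ℝ in atTop, Real.exp (-(k * σ)) < ε := by
  have : Tendsto (fun σ : ℝ => Real.exp (-(k * σ))) atTop (𝓝 0) :=
    Real.tendsto_exp_neg_atTop_nhds_zero.comp (tendsto_id.const_mul_atTop hk)
  exact this.eventually (gt_mem_nhds hε)

lemma ev_sum {u : QP → ℂ} (hu : Summable fun q => ‖u q‖) (q0 : QP) (ε : ℝ) (hε : 0 < ε) :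
    ∀ᶠ σ : ℝ in atTop, ∀ S : Finset QP, ∑ p ∈ S.erase q0,
      ‖u p‖ * Real.exp (-((rq p - rq q0) ^ 2 / (8 * rq q0) * σ)) ≤ ε := by
  have hq := rq_pos q0
  have hb : ∀ᶠ σ : ℝ in atTop, ∀ p : QP, ‖if p = q0 then 0 else
      ‖u p‖ * Real.exp (-((rq p - rq q0) ^ 2 / (8 * rq q0) * σ))‖ ≤ ‖u p‖ := by
    filter_upwards [eventually_ge_atTop 0] with σ hσ p
    split_ifs
    · simp
    · rw [Real.norm_eq_abs, abs_of_nonneg (by positivity)]
      apply mul_le_of_le_one_right (norm_nonneg _)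
      rw [Real.exp_le_one_iff, neg_nonpos]; positivity
  have h := tendsto_tsum_of_dominated_convergence (𝓕 := atTop) (g := fun _ : QP => (0:ℝ))
    (f := fun (σ : ℝ) (p : QP) => if p = q0 then 0 else
      ‖u p‖ * Real.exp (-((rq p - rq q0) ^ 2 / (8 * rq q0) * σ))) hu (fun p => by
      split_ifs with hp
      · exact tendsto_const_nhds
      · have h1 : rq p - rq q0 ≠ 0 := by
          intro h; apply hp; apply Subtype.ext
          have := sub_eq_zero.mp h
          unfold rq at this; exact_mod_cast this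
        have h2 : 0 < (rq p - rq q0) ^ 2 / (8 * rq q0) := by positivity
        simpa using (Real.tendsto_exp_neg_atTop_nhds_zero.comp
          (tendsto_id.const_mul_atTop h2)).const_mul ‖u p‖) hb
  rw [tsum_zero] at h
  filter_upwards [h.eventually (gt_mem_nhds hε), hb] with σ h1 h2 S
  refine le_trans ?_ h1.le
  refine le_trans (le_of_eq ?_) ((Summable.of_norm_bounded hu h2).sum_le_tsum (S.erase q0)
    (fun p _ => by split_ifs <;> positivity))
  exact Finset.sum_congr rfl fun p hp => by rw [if_neg (Finset.ne_of_mem_erase hp)]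

theorem core (a : ℝ → QP → ℂ)
    (hs : ∀ R : ℝ, ∀ t ∈ Icc (1:ℝ) 3, Summable fun q => ‖tr R (a t) q‖)
    (hm : ∀ s ∈ Icc (1:ℝ) 2, ∀ t ∈ Icc (1:ℝ) 2, ∀ r : QP, a (s + t) r =
      ∑' pq : QP × QP, if pq.1.1 + pq.2.1 = r.1 then a s pq.1 * a t pq.2 else 0)
    (hc : ∀ R : ℝ, ∀ t0 ∈ Icc (1:ℝ) 3,
      Tendsto (fun t => ∑' q, ‖tr R (a t) q - tr R (a t0) q‖) (𝓝[Icc 1 3] t0) (𝓝 0))
    (q0 : QP) : a 3 q0 = 0 := by
  by_contra h0
  have hq := rq_pos q0
  set q := rq q0 with hqd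
  set R := 5000 * q with hR
  set u : ℝ → QP → ℂ := fun t => tr R (a t) with hu
  have hsu : ∀ t ∈ Icc (1:ℝ) 3, Summable fun q => ‖u t q‖ := hs R
  have h3 : (3:ℝ) ∈ Icc (1:ℝ) 3 := ⟨by norm_num, le_rfl⟩
  obtain ⟨C, hC1, hC⟩ := bdd u hsu (hc R)
  have hC0 : 0 < C := by linarith
  set c := ‖a 3 q0‖ with hcd
  have hc0 : 0 < c := norm_pos_iff.mpr h0
  have hcu : c ≤ ‖u 3 q0‖ := by
    have : rq q0 < R := by rw [hR]; linarith
    simp [hu, tr, this, hcd]
  set L0 := Real.log (8 * C / c) with hL0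
  obtain ⟨σ, ⟨e1, e2⟩, ⟨e3, e4⟩, e5⟩ := (((eventually_gt_atTop (0:ℝ)).and
    (ev_sum (hsu 3 h3) q0 (c / 2) (half_pos hc0))).and
    (((ev_exp q (c / (8 * C)) hq (by positivity)).and
    (ev_exp (800 * q) (Real.exp (-(6400 * L0)) / (8 * C ^ 2)) (by positivity) (by positivity))).and
    (eventually_ge_atTop ((1 - L0) / (3 * q))))).exists
  set L := 3 * q * σ + L0 with hL
  have hL1 : 1 ≤ L := by rw [div_le_iff₀ (by positivity)] at e5; linarith
  set θ := Real.exp (-(3200 * L)) with hθ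
  have hθ0 : 0 < θ := Real.exp_pos _
  have hθ1 : θ ≤ 1 := by rw [hθ, Real.exp_le_one_iff]; linarith
  have herr : C * C * Real.exp (-(R * (4 * σ))) < θ ^ 2 / 8 := by
    have x1 : θ ^ 2 = Real.exp (-(6400 * L0)) * Real.exp (-(19200 * q * σ)) := by
      rw [hθ, ← Real.exp_nat_mul, ← Real.exp_add, hL]; congr 1; push_cast; ring
    have x2 : Real.exp (-(R * (4 * σ))) = Real.exp (-(800 * q * σ)) * Real.exp (-(19200 * q * σ)) := by
      rw [← Real.exp_add, hR]; congr 1; ring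
    rw [lt_div_iff₀ (by positivity)] at e4
    rw [x1, x2]
    nlinarith [Real.exp_pos (-(19200 * q * σ))]
  obtain ⟨S0, hS0⟩ := tight u hsu (hc R) (θ ^ 2 / (24 * C)) (by positivity)
  set S := insert q0 S0 with hSd
  have hS : ∀ t ∈ Icc (1:ℝ) 3, tail S (u t) ≤ θ ^ 2 / (24 * C) := fun t ht =>
    (tail_anti (hsu t ht) (Finset.subset_insert _ _)).trans (hS0 t ht)
  have hSC : ∀ t ∈ Icc (1:ℝ) 3, ∑ p ∈ S, ‖u t p‖ ≤ C := fun t ht =>
    ((hsu t ht).sum_le_tsum S (fun _ _ => norm_nonneg _)).trans (hC t ht)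
  obtain ⟨N, hN, n, hn⟩ := den S ⌈5 * σ⌉₊ (Nat.ceil_pos.mpr (by linarith))
  have hN1 : 5 * σ ≤ N := (Nat.le_ceil _).trans (by exact_mod_cast hN)
  have hN0 : (0:ℝ) < N := by linarith
  set T := 2 * Real.pi * N / (5 * σ) with hT
  have hT1 : 1 ≤ T := by
    rw [hT, le_div_iff₀ (by linarith)]; nlinarith [Real.pi_gt_three]
  have hnc : ∀ p ∈ S, ((n p + 1 : ℕ) : ℂ) = (rq p : ℂ) * N := fun p hp => by
    exact_mod_cast hn p hp
  obtain ⟨X, hX, hX0, hXy⟩ := zig (ES S rq (u 3)) σ T (C * θ) hT1 (fun s => by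
      unfold ES
      refine Finset.sum_congr rfl fun p hp => ?_
      congr 1
      refine Complex.exp_eq_exp_iff_exists_int.mpr ⟨(n p + 1 : ℕ), ?_⟩
      have : 5 * σ * T = 2 * Real.pi * N := by rw [hT]; field_simp
      rw [this, Int.cast_natCast, hnc p hp]; push_cast; ring)
    (fun τ e he => win S rq (fun p => (rq_pos p).le) (u 3) q0 (Finset.mem_insert_self _ _) hq σ e1
      C c hc0 hC0 (hSC 3 h3) hcu (e2 S) (by
        rw [lt_div_iff₀ (by positivity)] at e3; linarith) L hL1 (by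
        rw [hL, neg_add, Real.exp_add, Real.exp_neg L0, hL0, Real.exp_log (by positivity)]
        apply le_of_eq; field_simp; congr 1; rw [hqd]; ring) τ e he)
  set sy : ℝ → ℂ := fun y => 5 * σ * (1 + X y) - (5 * σ * y : ℝ) * I with hsy
  set φ : ℝ → ℝ := fun y => -(5 * σ * (1 + X y)) / N with hφ
  set x : ℝ → ℂ → ℂ := fun t w => ∑ p ∈ S, u t p * w ^ (n p + 1) with hx
  have hxE : ∀ t y, x t (gam T φ y) = ES S rq (u t) (sy y) := by
    intro t y
    refine Finset.sum_congr rfl fun p hp => ?_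
    rw [gam, ← Complex.exp_nat_mul, hnc p hp]
    congr 2
    have z1 : (σ:ℂ) ≠ 0 := by exact_mod_cast e1.ne'
    have z2 : (N:ℂ) ≠ 0 := by exact_mod_cast hN0.ne'
    have z3 : (Real.pi:ℂ) ≠ 0 := by exact_mod_cast Real.pi_pos.ne'
    simp only [hφ, hsy, hT]; push_cast; field_simp; ring
  have hre : ∀ y ∈ Icc 0 T, 4 * σ ≤ (sy y).re := by
    intro y hy
    have := (hXy y hy).1
    simp [hsy]; nlinarith
  have happ : ∀ s ∈ Icc (1:ℝ) 2, ∀ t ∈ Icc (1:ℝ) 2, s + t ≤ 3 → ∀ y ∈ Icc 0 T,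
      ‖ES S rq (u (s + t)) (sy y) - ES S rq (u s) (sy y) * ES S rq (u t) (sy y)‖ < θ ^ 2 / 4 := by
    intro s hs' t ht' hst y hy
    have m1 : s ∈ Icc (1:ℝ) 3 := ⟨hs'.1, by linarith [hs'.2]⟩
    have m2 : t ∈ Icc (1:ℝ) 3 := ⟨ht'.1, by linarith [ht'.2]⟩
    have m3 : s + t ∈ Icc (1:ℝ) 3 := ⟨by linarith [hs'.1, ht'.1], hst⟩
    have r0 : 0 ≤ (sy y).re := by linarith [hre y hy]
    have b0 := LT_mul R (a s) (a t) (a (s + t)) (hsu s m1) (hsu t m2) (hm s hs' t ht') _ r0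
    have b1 := (LT_ES (hsu s m1) S _ r0).trans (hS s m1)
    have b2 := (LT_ES (hsu t m2) S _ r0).trans (hS t m2)
    have b3 := (LT_ES (hsu _ m3) S _ r0).trans (hS _ m3)
    have b4 := (LT_le (hsu s m1) _ r0).trans (hC s m1)
    have b5 := (ES_le S rq (fun p => (rq_pos p).le) (u t) _ r0).trans (hSC t m2)
    have b6 : (∑' q, ‖tr R (a s) q‖) * (∑' q, ‖tr R (a t) q‖) * Real.exp (-(R * (sy y).re))
        ≤ C * C * Real.exp (-(R * (4 * σ))) := by
      apply mul_le_mul (mul_le_mul (hC s m1) (hC t m2) (tsum_nonneg fun _ => norm_nonneg _) hC0.le)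
        _ (Real.exp_pos _).le (by positivity)
      rw [Real.exp_le_exp, neg_le_neg_iff]
      exact mul_le_mul_of_nonneg_left (hre y hy) (by positivity)
    have b7 := b0.trans b6
    change ‖LT (u (s + t)) _ - LT (u s) _ * LT (u t) _‖ ≤ _ at b7
    set A := LT (u s) (sy y)
    set B := LT (u t) (sy y)
    set D := LT (u (s + t)) (sy y)
    set A' := ES S rq (u s) (sy y)
    set B' := ES S rq (u t) (sy y)
    set D' := ES S rq (u (s + t)) (sy y)
    have id : D' - A' * B' = (D - A * B) - (D - D') + A * (B - B') + (A - A') * B' := by ring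
    have n1 := norm_add_le ((D - A * B) - (D - D') + A * (B - B')) ((A - A') * B')
    have n2 := norm_add_le ((D - A * B) - (D - D')) (A * (B - B'))
    have n3 := norm_sub_le (D - A * B) (D - D')
    rw [norm_mul] at n1 n2
    have n4 : ‖A‖ * ‖B - B'‖ ≤ C * (θ ^ 2 / (24 * C)) :=
      mul_le_mul b4 b2 (norm_nonneg _) hC0.le
    have n5 : ‖A - A'‖ * ‖B'‖ ≤ θ ^ 2 / (24 * C) * C :=
      mul_le_mul b1 b5 (norm_nonneg _) (by positivity)
    have n6 : C * (θ ^ 2 / (24 * C)) = θ ^ 2 / 24 := by field_simp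
    have n7 : θ ^ 2 / (24 * C) ≤ θ ^ 2 / 24 :=
      div_le_div_of_nonneg_left (by positivity) (by norm_num) (by linarith)
    rw [id]; linarith
  have hlow : ∀ t ∈ Icc (1:ℝ) 2, ∀ y ∈ Icc 0 T, θ / 2 ≤ ‖ES S rq (u t) (sy y)‖ := by
    intro t ht y hy
    have m2 : 3 - t ∈ Icc (1:ℝ) 2 := ⟨by linarith [ht.2], by linarith [ht.1]⟩
    have b1 := happ t ht _ m2 (by linarith) y hy
    rw [show t + (3 - t) = 3 by ring] at b1
    have b2 : C * θ ≤ ‖ES S rq (u 3) (sy y)‖ := (hXy y hy).2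
    have b5 := (ES_le S rq (fun p => (rq_pos p).le) (u (3 - t)) _
      (show 0 ≤ (sy y).re by linarith [hre y hy])).trans (hSC _ ⟨m2.1, by linarith [m2.2]⟩)
    have b3 := norm_le_norm_add_norm_sub' (ES S rq (u 3) (sy y))
      (ES S rq (u t) (sy y) * ES S rq (u (3 - t)) (sy y))
    rw [norm_mul] at b3
    have b4 := mul_le_mul_of_nonneg_left b5 (norm_nonneg (ES S rq (u t) (sy y)))
    have b6 : θ ^ 2 / 4 ≤ C * θ / 2 := by nlinarith
    have b7 : θ / 2 * C ≤ ‖ES S rq (u t) (sy y)‖ * C := by linarith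
    exact le_of_mul_le_mul_right b7 hC0
  refine wind (T := T) (by linarith) (φ := φ) (by simp only [hφ]; fun_prop)
    (by simp only [hφ, hX0]) x ?_ (∑ p ∈ S, Polynomial.C (u 1 p) * Polynomial.X ^ n p) ?_ ?_ ?_
  · simp only [hx]
    refine continuousOn_finset_sum _ fun p _ => ContinuousOn.mul ?_ (by fun_prop)
    exact (cont_pt u hsu (hc R) p).comp continuousOn_fst
      (fun z hz => ⟨hz.1.1, by linarith [hz.1.2]⟩)
  · intro w
    simp only [hx, Polynomial.eval_finset_sum, Finset.mul_sum, Polynomial.eval_mul,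
      Polynomial.eval_C, Polynomial.eval_pow, Polynomial.eval_X]
    exact Finset.sum_congr rfl fun p _ => by ring
  · intro t ht y hy
    rw [hxE, ← norm_pos_iff]; linarith [hlow t ht y hy]
  · intro y hy
    have o : (1:ℝ) ∈ Icc (1:ℝ) 2 := ⟨le_rfl, one_le_two⟩
    have b1 := happ 1 o 1 o (by norm_num) y hy
    rw [one_add_one_eq_two] at b1
    simp only [hxE, norm_mul]
    have b2 := hlow 1 o y hy
    nlinarith

lemma tr_le (R : ℝ) (u v : QP → ℂ) (q : QP) :
    ‖tr R u q - tr R v q‖ ≤ Real.exp (R ^ 2) * (‖u q - v q‖ * Real.exp (-rq q ^ 2)) := by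
  unfold tr
  split_ifs with h
  · have h1 : 1 ≤ Real.exp (R ^ 2) * Real.exp (-rq q ^ 2) := by
      rw [← Real.exp_add, Real.one_le_exp_iff]
      nlinarith [rq_pos q]
    nlinarith [norm_nonneg (u q - v q)]
  · rw [sub_self, norm_zero]; positivity

/-- every norm continuous semigroup in the weighted algebra vanishes -/
theorem zero (a : ℝ → QP → ℂ)
    (hs : ∀ t, 0 < t → Summable fun q => ‖a t q‖ * Real.exp (-rq q ^ 2))
    (hm : ∀ s t, 0 < s → 0 < t → ∀ r : QP, a (s + t) r =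
      ∑' pq : QP × QP, if pq.1.1 + pq.2.1 = r.1 then a s pq.1 * a t pq.2 else 0)
    (hc : ∀ t0, 0 < t0 →
      Tendsto (fun t => ∑' q, ‖a t q - a t0 q‖ * Real.exp (-rq q ^ 2)) (𝓝[Ioi 0] t0) (𝓝 0))
    (t : ℝ) (ht : 0 < t) (q : QP) : a t q = 0 := by
  have hp : ∀ s : ℝ, 1 ≤ s → 0 < s * (t / 3) := fun s h => by positivity
  have hd : ∀ s s', 0 < s → 0 < s' →
      Summable fun q => ‖a s q - a s' q‖ * Real.exp (-rq q ^ 2) := fun s s' h h' =>
    ((hs s h).add (hs s' h')).of_nonneg_of_le (fun _ => by positivity) (fun q => by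
      rw [← add_mul]; exact mul_le_mul_of_nonneg_right (norm_sub_le _ _) (Real.exp_pos _).le)
  have := core (fun s => a (s * (t / 3))) (fun R s h => ?_) (fun s h s' h' r => ?_)
    (fun R t0 h0 => ?_) q
  · simpa [show 3 * (t / 3) = t by ring] using this
  · refine ((hs _ (hp s h.1)).mul_left (Real.exp (R ^ 2))).of_nonneg_of_le
      (fun _ => norm_nonneg _) (fun q => ?_)
    simpa [tr] using tr_le R (a (s * (t / 3))) 0 q
  · rw [add_mul]; exact hm _ _ (hp s h.1) (hp s' h'.1) r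
  · have h1 : Tendsto (fun s : ℝ => s * (t / 3)) (𝓝[Icc 1 3] t0) (𝓝[Ioi 0] (t0 * (t / 3))) := by
      apply ContinuousWithinAt.tendsto_nhdsWithin (by fun_prop)
      intro s h; exact hp s h.1
    have h2 := ((hc _ (hp t0 h0.1)).comp h1).const_mul (Real.exp (R ^ 2))
    rw [mul_zero] at h2
    refine squeeze_zero' (Eventually.of_forall fun _ => tsum_nonneg fun _ => norm_nonneg _) ?_ h2
    filter_upwards [self_mem_nhdsWithin] with s h
    have h3 := (hd _ _ (hp s h.1) (hp t0 h0.1)).mul_left (Real.exp (R ^ 2))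
    simp only [Function.comp]
    rw [← tsum_mul_left]
    exact (h3.of_nonneg_of_le (fun _ => norm_nonneg _) (tr_le R _ _)).tsum_le_tsum (tr_le R _ _) h3

end Pool.Agent.H3.Sg
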