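import Mathlib
import Pool.Agent.H3.SgE

open Filter Topology Set

namespace Pool.Agent.H3.Sg

set_option maxHeartbeats 800000

noncomputable abbrev L1 := lp (fun _ : QP => ℂ) 1

lemma l1_has (x : L1) : HasSum (fun q => ‖x q‖) ‖x‖ := by
  simpa using lp.hasSum_norm (p := 1) (by simp) x

noncomputable def e1 (q : QP) : L1 := lp.single 1 q (1:ℂ)

lemma norm_e1 (q : QP) : ‖e1 q‖ = 1 := by rw [e1, lp.norm_single (by simp)]; simp

noncomputable def tw (pq : QP × QP) : ℂ := (Real.exp (-(2 * rq pq.1 * rq pq.2)) : ℝ)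

lemma norm_tw (pq : QP × QP) : ‖tw pq‖ ≤ 1 := by
  rw [tw, Complex.norm_real, Real.norm_eq_abs, abs_of_pos (Real.exp_pos _), Real.exp_le_one_iff,
    neg_nonpos]
  have := rq_pos pq.1; have := rq_pos pq.2; positivity

noncomputable def trm (x y : L1) (pq : QP × QP) : L1 := (x pq.1 * y pq.2 * tw pq) • e1 (addQ pq)

lemma trm_le (x y : L1) (pq : QP × QP) : ‖trm x y pq‖ ≤ ‖x pq.1‖ * ‖y pq.2‖ := by
  rw [trm, norm_smul, norm_e1, mul_one, norm_mul, norm_mul]
  exact mul_le_of_le_one_right (by positivity) (norm_tw pq)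

lemma has2 (x y : L1) : HasSum (fun pq : QP × QP => ‖x pq.1‖ * ‖y pq.2‖) (‖x‖ * ‖y‖) :=
  (l1_has x).mul (l1_has y) ((l1_has x).summable.mul_of_nonneg (l1_has y).summable
    (fun _ => norm_nonneg _) (fun _ => norm_nonneg _))

lemma trm_sum (x y : L1) : Summable (trm x y) :=
  Summable.of_norm_bounded (has2 x y).summable (trm_le x y)

noncomputable def ml (x y : L1) : L1 := ∑' pq, trm x y pq

lemma ml_le (x y : L1) : ‖ml x y‖ ≤ ‖x‖ * ‖y‖ := tsum_of_norm_bounded (has2 x y) (trm_le x y)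

lemma ml_comm (x y : L1) : ml x y = ml y x := by
  unfold ml
  rw [← (Equiv.prodComm QP QP).tsum_eq]
  refine tsum_congr fun pq => ?_
  have h1 : addQ (pq.2, pq.1) = addQ pq := Subtype.ext (add_comm _ _)
  have h2 : tw (pq.2, pq.1) = tw pq := by simp only [tw]; congr 3; ring
  change (x pq.2 * y pq.1 * tw (pq.2, pq.1)) • e1 (addQ (pq.2, pq.1)) = _
  rw [h1, h2, trm, mul_comm (x pq.2)]

lemma ml_add (x x' y : L1) : ml (x + x') y = ml x y + ml x' y := by
  unfold ml
  rw [← (trm_sum x y).tsum_add (trm_sum x' y)]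
  refine tsum_congr fun pq => ?_
  simp only [trm, lp.coeFn_add, Pi.add_apply, add_mul, add_smul]

lemma ml_smul (c : ℂ) (x y : L1) : ml (c • x) y = c • ml x y := by
  unfold ml
  rw [← (trm_sum x y).tsum_const_smul c]
  refine tsum_congr fun pq => ?_
  simp only [trm, lp.coeFn_smul, Pi.smul_apply, smul_eq_mul, smul_smul, mul_assoc]

noncomputable def mlL : L1 →L[ℂ] L1 →L[ℂ] L1 :=
  LinearMap.mkContinuous₂ (LinearMap.mk₂ ℂ ml ml_add ml_smul
    (fun x y y' => by rw [ml_comm, ml_add, ml_comm y, ml_comm y'])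
    (fun c x y => by rw [ml_comm, ml_smul, ml_comm])) 1 (fun x y => by simpa using ml_le x y)

lemma mlL_apply (x y : L1) : mlL x y = ml x y := rfl

lemma ml_e1 (p q : QP) : ml (e1 p) (e1 q) = tw (p, q) • e1 (addQ (p, q)) := by
  unfold ml
  rw [tsum_eq_single (p, q)]
  · simp [trm, e1]
  · intro pq h
    by_cases h1 : pq.1 = p
    · have h2 : pq.2 ≠ q := fun h2 => h (Prod.ext h1 h2)
      simp [trm, e1, Pi.single_eq_of_ne h2]
    · simp [trm, e1, Pi.single_eq_of_ne h1]

lemma ext1 {F : Type} [NormedAddCommGroup F] [NormedSpace ℂ F] (f g : L1 →L[ℂ] F)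
    (h : ∀ q, f (e1 q) = g (e1 q)) : f = g := by
  apply lp.ext_continuousLinearMap (by simp)
  intro q
  apply ContinuousLinearMap.ext_ring
  exact h q

lemma ml_assoc (x y z : L1) : ml (ml x y) z = ml x (ml y z) := by
  have h3 : ∀ p q r, ml (ml (e1 p) (e1 q)) (e1 r) = ml (e1 p) (ml (e1 q) (e1 r)) := by
    intro p q r
    rw [ml_e1, ml_e1, ml_smul, ml_comm (e1 p), ml_smul, ml_comm _ (e1 p), ml_e1, ml_e1, smul_smul,
      smul_smul]
    have a1 : addQ (addQ (p, q), r) = addQ (p, addQ (q, r)) := Subtype.ext (add_assoc _ _ _)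
    rw [a1]; congr 1
    simp only [tw, rq_add]
    rw [← Complex.ofReal_mul, ← Complex.ofReal_mul, ← Real.exp_add, ← Real.exp_add]
    congr 2; ring
  have h2 : ∀ p q z, ml (ml (e1 p) (e1 q)) z = ml (e1 p) (ml (e1 q) z) := fun p q z =>
    DFunLike.congr_fun (ext1 (mlL (ml (e1 p) (e1 q))) ((mlL (e1 p)).comp (mlL (e1 q))) (h3 p q)) z
  have h1 : ∀ p y z, ml (ml (e1 p) y) z = ml (e1 p) (ml y z) := fun p y z =>
    DFunLike.congr_fun (ext1 ((mlL.flip z).comp (mlL (e1 p))) ((mlL (e1 p)).comp (mlL.flip z))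
      (fun q => h2 p q z)) y
  exact DFunLike.congr_fun (ext1 ((mlL.flip z).comp (mlL.flip y)) (mlL.flip (ml y z))
    (fun p => h1 p y z)) x

lemma ml_apply (x y : L1) (r : QP) : ml x y r =
    ∑' pq : QP × QP, if pq.1.1 + pq.2.1 = r.1 then x pq.1 * y pq.2 * tw pq else 0 := by
  have h := (lp.evalCLM ℂ (fun _ : QP => ℂ) 1 r).map_tsum (trm_sum x y)
  refine h.trans (tsum_congr fun pq => ?_)
  change (trm x y pq) r = _
  simp only [trm, lp.coeFn_smul, Pi.smul_apply, smul_eq_mul, e1]
  split_ifs with h1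
  · have : addQ pq = r := Subtype.ext h1
    rw [this, lp.single_apply_self, mul_one]
  · rw [lp.single_apply_ne _ _ _ (fun h2 => h1 (congrArg Subtype.val h2).symm), mul_zero]

/-- the weighted algebra, in normalised coordinates -/
noncomputable def RA : Type := L1

noncomputable instance : NormedAddCommGroup RA := inferInstanceAs (NormedAddCommGroup L1)
noncomputable instance : NormedSpace ℂ RA := inferInstanceAs (NormedSpace ℂ L1)
instance : CompleteSpace RA := inferInstanceAs (CompleteSpace L1)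

noncomputable instance : NonUnitalNormedCommRing RA :=
  { (inferInstance : NormedAddCommGroup RA) with
    mul := ml
    left_distrib := fun x y z => (mlL x).map_add y z
    right_distrib := ml_add
    zero_mul := fun x => (mlL.flip x).map_zero
    mul_zero := fun x => (mlL x).map_zero
    mul_assoc := ml_assoc
    mul_comm := ml_comm
    norm_mul_le := ml_le }

instance : IsScalarTower ℂ RA RA := ⟨ml_smul⟩
instance : SMulCommClass ℂ RA RA := ⟨fun c x y => ((mlL x).map_smul c y).symm⟩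

theorem nosg (a : ℝ → RA) (hm : ∀ s t, 0 < s → 0 < t → a (s + t) = a s * a t)
    (hc : ContinuousOn a (Ioi 0)) (t : ℝ) (ht : 0 < t) : a t = 0 := by
  let b : ℝ → L1 := a
  have hn : ∀ (x : L1) q, ‖x q * (Real.exp (rq q ^ 2) : ℝ)‖ * Real.exp (-rq q ^ 2) = ‖x q‖ := by
    intro x q
    rw [norm_mul, Complex.norm_real, Real.norm_eq_abs, abs_of_pos (Real.exp_pos _), mul_assoc,
      ← Real.exp_add]; simp
  have := zero (fun t q => b t q * (Real.exp (rq q ^ 2) : ℝ))
    (fun t _ => by simpa only [hn] using (l1_has (b t)).summable) (fun s t hs ht r => by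
      have h : b (s + t) = ml (b s) (b t) := hm s t hs ht
      rw [h, ml_apply, ← tsum_mul_right]
      refine tsum_congr fun pq => ?_
      split_ifs with h1
      · have h2 := rq_add pq
        rw [show addQ pq = r from Subtype.ext h1] at h2
        have : tw pq * (Real.exp (rq r ^ 2) : ℝ)
            = (Real.exp (rq pq.1 ^ 2) : ℝ) * (Real.exp (rq pq.2 ^ 2) : ℝ) := by
          rw [tw, ← Complex.ofReal_mul, ← Complex.ofReal_mul, ← Real.exp_add, ← Real.exp_add, h2]
          congr 2; ring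
        linear_combination (b s pq.1 * b t pq.2) * this
      · simp) (fun t0 h0 => by
      have h1 : Tendsto (fun t => ‖b t - b t0‖) (𝓝[Ioi 0] t0) (𝓝 0) :=
        tendsto_iff_norm_sub_tendsto_zero.mp (hc t0 h0)
      refine h1.congr fun t => ?_
      rw [← (l1_has (b t - b t0)).tsum_eq]
      refine tsum_congr fun q => ?_
      rw [← hn, ← sub_mul]; rfl) t ht
  apply lp.ext (f := b t) (g := 0)
  funext q
  have h2 := this q
  have h3 : ((Real.exp (rq q ^ 2) : ℝ) : ℂ) ≠ 0 := by exact_mod_cast (Real.exp_pos _).ne'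
  simpa [h3] using h2

end Pool.Agent.H3.Sg
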