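import Mathlib
import Pool.Agent.H3.SgF

open Filter Topology Set

namespace Pool.Agent.H3.Sg

set_option maxHeartbeats 800000

noncomputable def eR (q : QP) : RA := e1 q

lemma norm_eR (q : QP) : ‖eR q‖ = 1 := norm_e1 q

lemma eR_mul (p q : QP) : eR p * eR q = tw (p, q) • eR (addQ (p, q)) := ml_e1 p q

lemma chi0 (ψ : RA →L[ℂ] ℂ) (h : ∀ x y, ψ (x * y) = ψ x * ψ y) : ψ = 0 := by
  refine ext1 (F := ℂ) ψ 0 fun q => ?_
  change ψ (eR q) = 0
  by_contra hz
  have hq := rq_pos q
  have key : ∀ n : ℕ, ∃ r : QP, rq r = (n + 1) * rq q ∧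
      ψ (eR q) ^ (n + 1) = (Real.exp (-(n * (n + 1) * rq q ^ 2)) : ℝ) * ψ (eR r) := by
    intro n
    induction n with
    | zero => exact ⟨q, by simp, by simp⟩
    | succ n ih =>
      obtain ⟨r, h1, h2⟩ := ih
      refine ⟨addQ (r, q), by rw [rq_add, h1]; push_cast; ring, ?_⟩
      rw [pow_succ, h2, mul_assoc, ← h, eR_mul, map_smul, smul_eq_mul, ← mul_assoc, tw,
        ← Complex.ofReal_mul, ← Real.exp_add]
      congr 3
      simp only [h1]; push_cast; ring
  have hz0 : 0 < ‖ψ (eR q)‖ := norm_pos_iff.mpr hz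
  obtain ⟨n, hn⟩ := exists_nat_ge ((‖ψ‖ + 1) / (‖ψ (eR q)‖ * rq q ^ 2))
  rw [div_le_iff₀ (by positivity)] at hn
  obtain ⟨r, -, h2⟩ := key n
  have h3 : (‖ψ (eR q)‖ * Real.exp (n * rq q ^ 2)) ^ (n + 1) ≤ ‖ψ‖ := by
    rw [mul_pow, ← norm_pow, h2, norm_mul, Complex.norm_real, Real.norm_eq_abs,
      abs_of_pos (Real.exp_pos _), ← Real.exp_nat_mul, mul_right_comm, ← Real.exp_add]
    have : -((n:ℝ) * (n + 1) * rq q ^ 2) + ((n + 1 : ℕ) : ℝ) * (n * rq q ^ 2) = 0 := by
      push_cast; ring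
    rw [this, Real.exp_zero, one_mul]
    simpa [norm_eR] using ψ.le_opNorm (eR r)
  have h4 : ‖ψ‖ + 1 ≤ ‖ψ (eR q)‖ * Real.exp (n * rq q ^ 2) := by
    have := Real.add_one_le_exp (n * rq q ^ 2)
    nlinarith
  have h5 := le_self_pow₀ (show 1 ≤ ‖ψ (eR q)‖ * Real.exp (n * rq q ^ 2) by
    linarith [norm_nonneg ψ]) (show n + 1 ≠ 0 by omega)
  linarith

lemma spec (x : RA) : spectrum ℂ (x : Unitization ℂ RA) ⊆ {0} := by
  letI : NormedCommRing (WithLp 1 (Unitization ℂ RA)) :=
    { WithLp.instUnitizationNormedRing with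
      mul_comm := fun a b => (WithLp.unitizationAlgEquiv ℂ).injective (by
        rw [map_mul, map_mul, mul_comm]) }
  intro z hz
  have h1 : z ∈ spectrum ℂ (WithLp.toLp 1 (x : Unitization ℂ RA)) := by
    rw [← AlgEquiv.spectrum_eq (WithLp.unitizationAlgEquiv (𝕜 := ℂ) (A := RA) ℂ)]; exact hz
  obtain ⟨f, hf⟩ := WeakDual.CharacterSpace.mem_spectrum_iff_exists.mp h1
  let ψ : RA →L[ℂ] ℂ :=
    { toFun := fun y => f (WithLp.toLp 1 (y : Unitization ℂ RA))
      map_add' := fun y y' => by rw [← map_add, Unitization.inr_add]; rfl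
      map_smul' := fun c y => by rw [Unitization.inr_smul]; exact map_smul f c _
      cont := (map_continuous f).comp WithLp.unitization_isometry_inr.continuous }
  have h2 := chi0 ψ (fun y y' => by
    change f _ = f _ * f _
    rw [← map_mul, Unitization.inr_mul]; rfl)
  have h3 : ψ x = 0 := by rw [h2]; rfl
  exact hf.symm.trans h3

lemma solv (r d : RA) (η : ℂ) (hη : η ≠ 0) : ∃ y : RA, η • y + r * y = d := by
  have h1 : η ∉ spectrum ℂ ((-r : RA) : Unitization ℂ RA) := fun h => hη (spec _ h)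
  rw [spectrum.notMem_iff] at h1
  obtain ⟨v, hv⟩ := h1.exists_right_inv
  refine ⟨v.fst • d + v.snd * d, Unitization.inr_injective (R := ℂ) ?_⟩
  have h2 : ((v.fst • d + v.snd * d : RA) : Unitization ℂ RA) = v * d := by
    conv_rhs => rw [← Unitization.inl_fst_add_inr_snd_eq v]
    rw [add_mul, Unitization.inl_mul_inr, Unitization.inr_add, Unitization.inr_mul]
  rw [Unitization.inr_add, Unitization.inr_smul, Unitization.inr_mul, h2,
    Algebra.smul_def (R := ℂ) (A := Unitization ℂ RA), ← add_mul, ← mul_assoc]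
  rw [Unitization.inr_neg, sub_neg_eq_add] at hv
  rw [hv, one_mul]

lemma divi (μ q : QP) (h : μ.1 < q.1) : ∃ d : RA, eR μ * d = eR q := by
  have ht : tw (μ, ⟨q.1 - μ.1, sub_pos.mpr h⟩) ≠ 0 := by
    unfold tw; exact_mod_cast (Real.exp_pos _).ne'
  refine ⟨(tw (μ, ⟨q.1 - μ.1, sub_pos.mpr h⟩))⁻¹ • eR ⟨q.1 - μ.1, sub_pos.mpr h⟩, ?_⟩
  rw [mul_smul_comm, eR_mul, smul_smul, inv_mul_cancel₀ ht, one_smul]
  congr 1; apply Subtype.ext; simp [addQ]

noncomputable def co (x : L1) (q : QP) : ℂ := x q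

lemma hasL (x : L1) : HasSum (fun q => co x q • e1 q) x := by
  have h := lp.hasSum_single (p := 1) (by simp) x
  have e : (fun q => co x q • e1 q) = fun q => (lp.single 1 q (x q) : L1) := by
    funext q
    rw [e1, ← lp.single_smul, smul_eq_mul, mul_one, co]
  rw [e]; exact h

lemma hasR (x : RA) : HasSum (fun q => co x q • eR q) x := hasL x

lemma small (S : Finset QP) : ∃ μ : QP, ∀ q ∈ S, μ.1 < q.1 := by
  induction S using Finset.induction_on with
  | empty => exact ⟨⟨1, one_pos⟩, by simp⟩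
  | insert a S _ ih =>
    obtain ⟨μ, h⟩ := ih
    refine ⟨⟨min μ.1 (a.1 / 2), lt_min μ.2 (half_pos a.2)⟩, fun q hq => ?_⟩
    rcases Finset.mem_insert.mp hq with rfl | hq
    · exact (min_le_right _ _).trans_lt (half_lt_self q.2)
    · exact (min_le_left _ _).trans_lt (h q hq)

lemma ex_a : ∃ a : RA, DenseRange (fun y => a * y) := by
  have hd := dense_iInter_of_isOpen
    (f := fun i : QP × ℕ => {a : RA | ∃ y, ‖eR i.1 - a * y‖ < 1 / ((i.2:ℝ) + 1)}) (fun i => by
      rw [setOf_exists]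
      exact isOpen_iUnion fun y => isOpen_lt (by fun_prop) continuous_const) (fun i => by
      rw [Metric.dense_iff]
      intro x ε hε
      obtain ⟨S, hS⟩ := ((hasR x).eventually (Metric.ball_mem_nhds x (half_pos hε))).exists
      obtain ⟨μ, hμ⟩ := small (insert i.1 S)
      obtain ⟨d, hd⟩ := divi μ i.1 (hμ _ (Finset.mem_insert_self _ _))
      have h1 : ∀ q, ∃ d : RA, q ∈ S → eR μ * d = eR q := fun q => by
        by_cases hq : q ∈ S
        · obtain ⟨d, h⟩ := divi μ q (hμ _ (Finset.mem_insert_of_mem hq)); exact ⟨d, fun _ => h⟩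
        · exact ⟨0, fun h => absurd h hq⟩
      choose g hg using h1
      set r : RA := ∑ q ∈ S, co x q • g q with hr
      have h2 : eR μ * r = ∑ q ∈ S, co x q • eR q := by
        rw [hr, Finset.mul_sum]
        exact Finset.sum_congr rfl fun q hq => by rw [mul_smul_comm, hg q hq]
      obtain ⟨y, hy⟩ := solv r d ((ε / 4 : ℝ) : ℂ) (by exact_mod_cast (show ε / 4 ≠ 0 by positivity))
      refine ⟨((ε / 4 : ℝ) : ℂ) • eR μ + eR μ * r, ?_, y, ?_⟩
      · rw [h2, Metric.mem_ball, dist_eq_norm, add_sub_assoc]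
        refine (norm_add_le _ _).trans_lt ?_
        rw [dist_eq_norm] at hS
        rw [norm_smul, norm_eR, Complex.norm_real, Real.norm_eq_abs, abs_of_pos (by positivity)]
        linarith
      · rw [add_mul, smul_mul_assoc, ← mul_smul_comm, mul_assoc, ← mul_add, hy, hd, sub_self,
          norm_zero]
        positivity)
  obtain ⟨a, ha⟩ := hd.nonempty
  refine ⟨a, fun x => ?_⟩
  let K : Submodule ℂ RA := (LinearMap.range (LinearMap.mul ℂ RA a)).topologicalClosure
  have h1 : ∀ q, eR q ∈ K := by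
    intro q
    change eR q ∈ closure _
    rw [Metric.mem_closure_iff]
    intro ε hε
    obtain ⟨k, hk⟩ := exists_nat_one_div_lt hε
    obtain ⟨y, hy⟩ := mem_iInter.mp ha (q, k)
    exact ⟨a * y, ⟨y, rfl⟩, by rw [dist_eq_norm]; exact hy.trans hk⟩
  have h2 : x ∈ K := (Submodule.isClosed_topologicalClosure _).mem_of_tendsto (hasR x)
    (Eventually.of_forall fun S => K.sum_mem fun q _ => K.smul_mem _ (h1 q))
  exact h2

end Pool.Agent.H3.Sg
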