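import Mathlib

set_option autoImplicit false
open Set Filter Equiv Topology

namespace Pool.Agent.H3.Sym

abbrev G := Equiv.Perm ℤ

def mv (g : G) : Set ℤ := {x | g x ≠ x}

def PN (g : ℕ → G) : Prop := ∀ x, ∀ᶠ n in atTop, g n x = x

lemma ext (f : ℤ → ℤ) (s : Set ℤ) (hf : InjOn f s) (h1 : sᶜ.Infinite) (h2 : (f '' s)ᶜ.Infinite) :
    ∃ k : G, ∀ x ∈ s, k x = f x := by
  let e : s ↪ ℤ := ⟨fun x => f x, fun x y h => Subtype.ext (hf x.2 y.2 h)⟩
  have hr : range e = f '' s := by ext y; simp [e]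
  have := h1.to_subtype
  have := h2.to_subtype
  obtain ⟨k, hk⟩ := Cardinal.extend_function e (by rw [hr]; exact nonempty_equiv_of_countable)
  exact ⟨k, fun x hx => hk ⟨x, hx⟩⟩

lemma into {B M : Set ℤ} (hB : Bᶜ.Infinite) (hM : M.Infinite) : ∃ k : G, ∀ x ∈ B, k x ∈ M := by
  let e := hM.natEmbedding
  obtain ⟨k, hk⟩ := ext (fun x => e (2 * Encodable.encode x)) B (fun x _ y _ h => by
    have := e.injective (Subtype.ext h)
    exact Encodable.encode_injective (by omega)) hB (by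
    refine infinite_of_injective_forall_mem (f := fun n : ℕ => (e (2 * n + 1) : ℤ)) (fun x y h => by
      have := e.injective (Subtype.ext h)
      omega) fun n => ?_
    rintro ⟨x, -, h⟩
    have := e.injective (Subtype.ext h)
    omega)
  exact ⟨k, fun x hx => by rw [hk x hx]; exact (e _).2⟩

lemma rec_seq {α : Type*} (P : ℕ → α → Prop) (r : α → α → Prop)
    (h : ∀ k (s : Finset α), ∃ y, P k y ∧ ∀ x ∈ s, r x y) :
    ∃ f : ℕ → α, (∀ n, P n (f n)) ∧ ∀ m n, m < n → r (f m) (f n) := by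
  classical
  choose F h1 h2 using h
  let T : ℕ → Finset α := fun n => Nat.rec ∅ (fun k s => insert (F k s) s) n
  refine ⟨fun n => F n (T n), fun n => h1 _ _, fun m n hmn => h2 _ _ _ ?_⟩
  induction hmn with
  | refl => exact Finset.mem_insert_self _ _
  | step _ ih => exact Finset.mem_insert_of_mem ih

lemma nb_finite {g : ℕ → G} (hg : PN g) (x : ℤ) :
    {y | y = x ∨ ∃ n, g n x = y ∨ g n y = x}.Finite := by
  obtain ⟨N, hN⟩ := eventually_atTop.1 (hg x)
  refine ((finite_singleton x).union (((finite_lt_nat N).image fun n => g n x).union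
    ((finite_lt_nat N).image fun n => (g n)⁻¹ x))).subset ?_
  rintro y (rfl | ⟨n, h⟩)
  · simp
  · by_cases hn : n < N
    · rcases h with h | h
      · exact Or.inr (Or.inl ⟨n, hn, h⟩)
      · exact Or.inr (Or.inr ⟨n, hn, by simp [← h]⟩)
    · have := hN n (by omega)
      rcases h with h | h
      · exact Or.inl (h ▸ this)
      · exact Or.inl ((g n).injective (h.trans this.symm))

lemma indep {ι : Type} [Countable ι] [Infinite ι] {g : ℕ → G} (hg : PN g) (S : ι → Set ℤ)
    (hS : ∀ i, (S i).Infinite) :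
    ∃ p : ι ↪ ℤ, (∀ i, p i ∈ S i) ∧ ∀ i j n, i ≠ j → g n (p i) ≠ p j := by
  obtain ⟨e⟩ : Nonempty (ι ≃ ℕ) := nonempty_equiv_of_countable
  obtain ⟨f, h1, h2⟩ := rec_seq (fun k y => y ∈ S (e.symm k))
    (fun x y => ¬ (y = x ∨ ∃ n, g n x = y ∨ g n y = x)) (fun k s => by
      obtain ⟨y, hy, hy'⟩ := (hS (e.symm k)).exists_notMem_finite
        (s.finite_toSet.biUnion fun x _ => nb_finite hg x)
      exact ⟨y, hy, fun x hx h => hy' (mem_biUnion hx h)⟩)
  have key : ∀ i j, i ≠ j → f (e i) ≠ f (e j) ∧ ∀ n, g n (f (e i)) ≠ f (e j) := by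
    intro i j hij
    rcases lt_or_gt_of_ne (e.injective.ne hij) with h | h
    · have := h2 _ _ h
      exact ⟨fun h => this (Or.inl h.symm), fun n h => this (Or.inr ⟨n, Or.inl h⟩)⟩
    · have := h2 _ _ h
      exact ⟨fun h => this (Or.inl h), fun n h => this (Or.inr ⟨n, Or.inr h⟩)⟩
  exact ⟨⟨fun i => f (e i), fun i j h => by_contra fun hij => (key i j hij).1 h⟩,
    fun i => by simpa using h1 (e i), fun i j n hij => (key i j hij).2 n⟩

lemma mv_apply {a : G} {x : ℤ} (h : x ∈ mv a) : a x ∈ mv a := fun h' => h (a.injective h')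

lemma conj_eq {a k k' : G} (h : ∀ x ∈ mv a, k x = k' x) : k * a * k⁻¹ = k' * a * k'⁻¹ := by
  have : ∀ x, (k'⁻¹ * k) (a x) = a ((k'⁻¹ * k) x) := by
    intro x
    by_cases hx : x ∈ mv a
    · simp [h x hx, h _ (mv_apply hx)]
    · have h1 : a x = x := not_not.1 hx
      have h2 : (k'⁻¹ * k) x ∉ mv a := fun h2 => hx (by
        have h3 := h _ h2
        simp only [Perm.coe_mul, Function.comp_apply, Perm.coe_inv, apply_symm_apply] at h3
        have h4 := k.injective h3
        simp only [Perm.coe_mul, Function.comp_apply, Perm.coe_inv] at h2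
        rwa [h4] at h2)
      rw [h1, not_not.1 h2]
  have h2 : k'⁻¹ * k * a = a * (k'⁻¹ * k) := Equiv.ext this
  calc k * a * k⁻¹ = k' * (k'⁻¹ * k * a) * k⁻¹ := by group
    _ = k' * a * k'⁻¹ := by rw [h2]; group

lemma mem_mv_conj {a k : G} {y : ℤ} : y ∈ mv (k * a * k⁻¹) ↔ k⁻¹ y ∈ mv a := by
  simp only [mv, mem_setOf_eq, Perm.coe_mul, Function.comp_apply, ne_eq]
  rw [← Perm.eq_inv_iff_eq]

lemma mv_conj_finite {a : G} (ha : (mv a).Finite) (k : G) : (mv (k * a * k⁻¹)).Finite :=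
  (ha.preimage (k⁻¹ : G).injective.injOn).subset fun _ h => mem_mv_conj.1 h

lemma swaps {x y b c : ℤ} (h : swap x y * swap b c ≠ swap b c * swap x y) :
    x = b ∨ x = c ∨ y = b ∨ y = c := by
  by_contra hc
  simp only [not_or] at hc
  apply h
  rw [mul_swap_eq_swap_mul (swap b c), swap_apply_of_ne_of_ne hc.1 hc.2.1,
    swap_apply_of_ne_of_ne hc.2.2.1 hc.2.2.2]

variable [TopologicalSpace G] [IsTopologicalGroup G]

lemma stab_nhds [T2Space G] (b : ℤ) : {g : G | g b = b} ∈ 𝓝 (1 : G) := by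
  have key : ∀ a c : ℤ, a ≠ b → c ≠ b → a ≠ c →
      ∀ᶠ g in 𝓝 (1 : G), g b = b ∨ g b = c ∨ g a = b ∨ g a = c := by
    intro a c h1 h2 h3
    have ho : IsOpen {g : G | g * swap b a * g⁻¹ * swap b c ≠ swap b c * (g * swap b a * g⁻¹)} :=
      isOpen_ne_fun (by fun_prop) (by fun_prop)
    filter_upwards [ho.mem_nhds (x := 1) (by
      intro h
      have := congrArg (fun g : G => g b) h
      simp [swap_apply_of_ne_of_ne h1 h3, swap_apply_of_ne_of_ne h2 h3.symm] at this
      exact h3 this.symm)] with g hg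
    rw [← swap_apply_apply] at hg
    exact swaps hg
  filter_upwards [key (b + 1) (b + 4) (by omega) (by omega) (by omega),
    key (b + 2) (b + 4) (by omega) (by omega) (by omega),
    key (b + 3) (b + 4) (by omega) (by omega) (by omega),
    key (b + 1) (b + 5) (by omega) (by omega) (by omega),
    key (b + 2) (b + 5) (by omega) (by omega) (by omega),
    key (b + 3) (b + 5) (by omega) (by omega) (by omega)] with g h1 h2 h3 h4 h5 h6
  have a1 : g (b + 1) ≠ g (b + 2) := g.injective.ne (by omega)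
  have a2 : g (b + 1) ≠ g (b + 3) := g.injective.ne (by omega)
  have a3 : g (b + 2) ≠ g (b + 3) := g.injective.ne (by omega)
  omega

lemma PN_of [T2Space G] {g : ℕ → G} (hg : Tendsto g atTop (𝓝 1)) : PN g := fun x => hg (stab_nhds x)

lemma tendsto_conj {g : ℕ → G} (hg : Tendsto g atTop (𝓝 1)) (k : G) :
    Tendsto (fun n => k * g n * k⁻¹) atTop (𝓝 1) := by
  simpa using (hg.const_mul k).mul_const k⁻¹

lemma glue0 [T2Space G] {a k : ℕ → G} (ha : Tendsto a atTop (𝓝 1)) (hf : ∀ n, (mv (a n)).Finite)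
    (hb : PN fun n => k n * a n * (k n)⁻¹) :
    ∃ φ : ℕ → ℕ, Tendsto (fun n => k (φ n) * a (φ n) * (k (φ n))⁻¹) atTop (𝓝 1) := by
  classical
  let C : ℕ → Set ℤ := fun n => mv (a n) ∪ mv (k n * a n * (k n)⁻¹)
  have hC : ∀ n, (C n).Finite := fun n => (hf n).union (mv_conj_finite (hf n) _)
  have hC' : ∀ x, ∀ᶠ n in atTop, x ∉ C n := fun x => by
    filter_upwards [PN_of ha x, hb x] with n h1 h2
    rintro (h | h)
    · exact h h1
    · exact h h2
  obtain ⟨f, h1, h2⟩ := exists_seq_of_forall_finset_exists (fun z : ℕ × ℤ => z.2 ∉ C z.1)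
    (fun z w => z.1 < w.1 ∧ Disjoint (C z.1) (C w.1) ∧ z.2 ∉ C w.1 ∧ w.2 ∉ C z.1 ∧ z.2 ≠ w.2)
    (fun s _ => by
      have e1 : ∀ᶠ n in atTop, ∀ z ∈ s, z.1 < n ∧ Disjoint (C z.1) (C n) ∧ z.2 ∉ C n := by
        refine (eventually_all_finset s).2 fun z _ => (eventually_gt_atTop _).and
          (Eventually.and ?_ (hC' _))
        filter_upwards [(eventually_all_finite (hC z.1)).2 fun x _ => hC' x] with n hn
        exact disjoint_left.2 hn
      obtain ⟨n, hn⟩ := e1.exists
      obtain ⟨y, hy⟩ := ((hC n).union ((s.finite_toSet.biUnion fun z _ => hC z.1).union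
        (s.finite_toSet.image Prod.snd))).exists_notMem
      simp only [mem_union, not_or] at hy
      exact ⟨(n, y), hy.1, fun z hz => ⟨(hn z hz).1, (hn z hz).2.1, (hn z hz).2.2,
        fun h => hy.2.1 (mem_biUnion hz h), fun h => hy.2.2 ⟨z, hz, h⟩⟩⟩)
  have hd : ∀ i j x, x ∈ C (f i).1 → x ∈ C (f j).1 → i = j := by
    intro i j x hi hj
    by_contra hij
    rcases lt_or_gt_of_ne hij with h | h
    · exact disjoint_left.1 (h2 _ _ h).2.1 hi hj
    · exact disjoint_left.1 (h2 _ _ h).2.1 hj hi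
  have hy : ∀ i j, (f i).2 ∉ C (f j).1 := by
    intro i j
    rcases lt_trichotomy i j with h | rfl | h
    · exact (h2 _ _ h).2.2.1
    · exact h1 i
    · exact (h2 _ _ h).2.2.2.1
  have hinj : Function.Injective fun i => (f i).2 := by
    intro i j h
    by_contra hij
    rcases lt_or_gt_of_ne hij with h' | h'
    · exact (h2 _ _ h').2.2.2.2 h
    · exact (h2 _ _ h').2.2.2.2 h.symm
  let F : ℤ → ℤ := fun x => if h : ∃ i, x ∈ mv (a (f i).1) then k (f h.choose).1 x else x
  have hF : ∀ i, ∀ x ∈ mv (a (f i).1), F x = k (f i).1 x := by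
    intro i x hx
    have h : ∃ i, x ∈ mv (a (f i).1) := ⟨i, hx⟩
    simp only [F, dif_pos h]
    rw [hd _ _ x (Or.inl h.choose_spec) (Or.inl hx)]
  have hFC : ∀ i, ∀ x ∈ mv (a (f i).1), F x ∈ C (f i).1 := fun i x hx =>
    Or.inr (mem_mv_conj.2 (by rw [hF i x hx]; simpa using hx))
  obtain ⟨K, hK⟩ := ext F (⋃ i, mv (a (f i).1)) (fun x hx y hy h => by
      obtain ⟨i, hi⟩ := mem_iUnion.1 hx
      obtain ⟨j, hj⟩ := mem_iUnion.1 hy
      obtain rfl := hd i j _ (hFC i x hi) (h ▸ hFC j y hj)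
      rw [hF i x hi, hF i y hj] at h
      exact (k _).injective h)
    (infinite_of_injective_forall_mem hinj fun i h => by
      obtain ⟨j, hj⟩ := mem_iUnion.1 h
      exact hy i j (Or.inl hj))
    (infinite_of_injective_forall_mem hinj fun i h => by
      obtain ⟨x, hx, h⟩ := h
      obtain ⟨j, hj⟩ := mem_iUnion.1 hx
      exact hy i j (h ▸ hFC j x hj))
  refine ⟨fun i => (f i).1, ?_⟩
  have hm : StrictMono fun i => (f i).1 := fun i j h => (h2 i j h).1
  refine (tendsto_conj (ha.comp hm.tendsto_atTop) K).congr fun i => conj_eq fun x hx => ?_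
  rw [hK x (mem_iUnion.2 ⟨i, hx⟩), hF i x hx]

lemma glue [T2Space G] {a k : ℕ → G} (ha : Tendsto a atTop (𝓝 1)) (hf : ∀ n, (mv (a n)).Finite)
    (hb : PN fun n => k n * a n * (k n)⁻¹) :
    Tendsto (fun n => k n * a n * (k n)⁻¹) atTop (𝓝 1) :=
  tendsto_of_subseq_tendsto fun ns hns =>
    glue0 (a := a ∘ ns) (k := k ∘ ns) (ha.comp hns) (fun _ => hf _) fun x => hns.eventually (hb x)

/-- Elements all of whose escaping conjugates tend to the identity. -/
def QQ : Subgroup G where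
  carrier := {a | ∀ k : ℕ → G, (∀ x y, ∀ᶠ n in atTop, k n x ≠ y) →
    Tendsto (fun n => k n * a * (k n)⁻¹) atTop (𝓝 1)}
  one_mem' := fun k _ => by simpa using tendsto_const_nhds
  mul_mem' := fun {a b} ha hb k hk => by
    simpa [mul_assoc] using (ha k hk).mul (hb k hk)
  inv_mem' := fun {a} ha k hk => by
    simpa [mul_assoc] using (ha k hk).inv

lemma Q_of [T2Space G] {a : G} (ha : (mv a).Finite) {j : ℕ → G}
    (hj : Tendsto (fun n => j n * a * (j n)⁻¹) atTop (𝓝 1)) : a ∈ QQ := by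
  intro k hk
  have e : ∀ n, k n * (j n)⁻¹ * (j n * a * (j n)⁻¹) * (k n * (j n)⁻¹)⁻¹ = k n * a * (k n)⁻¹ :=
    fun n => by group
  refine (glue (k := fun n => k n * (j n)⁻¹) hj (fun n => mv_conj_finite ha _) fun y => ?_).congr e
  filter_upwards [(eventually_all_finite ha).2 fun x _ => hk x y] with n hn
  rw [e]
  by_contra h
  exact hn _ (mem_mv_conj.1 h) (by simp)

lemma escape : ∀ x y : ℤ, ∀ᶠ n : ℕ in atTop, (Equiv.addRight (n : ℤ)) x ≠ y := fun x y => by
  filter_upwards [eventually_gt_atTop (y - x).toNat] with n hn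
  simp only [coe_addRight]
  omega

lemma fin_null [T2Space G] [FirstCountableTopology G] {h : ℕ → G} (h1 : ∀ n, h n ∈ QQ)
    (h2 : ∀ n, (mv (h n)).Finite) (h3 : PN h) : Tendsto h atTop (𝓝 1) := by
  obtain ⟨V, hV⟩ := (𝓝 (1 : G)).exists_antitone_basis
  choose m hm using fun n => ((h1 n _ escape).eventually (hV.mem n)).exists
  have e : ∀ n, (Equiv.addRight (m n : ℤ))⁻¹ * (Equiv.addRight (m n : ℤ) * h n *
      (Equiv.addRight (m n : ℤ))⁻¹) * (Equiv.addRight (m n : ℤ))⁻¹⁻¹ = h n := fun n => by group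
  refine (glue (k := fun n => (Equiv.addRight (m n : ℤ))⁻¹) (hV.tendsto hm)
    (fun n => mv_conj_finite (h2 n) _) fun y => ?_).congr e
  simpa only [e] using h3 y

end Pool.Agent.H3.Sym
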