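import Mathlib
import Pool.Agent.H3.SymA

set_option autoImplicit false
open Set Filter Equiv Topology

namespace Pool.Agent.H3.Sym

lemma transport {α : Type} (q : α ↪ ℤ) {w : G} (hw : mv w ⊆ range q) :
    ∃ o : Perm α, ∀ a, w (q a) = q (o a) := by
  have h : ∀ x, w x ∈ range q ↔ x ∈ range q := by
    intro x
    by_cases hx : x ∈ mv w
    · exact ⟨fun _ => hw hx, fun _ => hw (mv_apply hx)⟩
    · rw [not_not.1 hx]
  let e := Equiv.ofInjective q q.injective
  refine ⟨e.trans ((w.subtypePerm h).trans e.symm), fun a => ?_⟩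
  have := Equiv.apply_ofInjective_symm q.injective (w.subtypePerm h (e a))
  simp only [Equiv.trans_apply]
  rw [this]
  rfl

lemma inv_fix {s : G} {y : ℤ} (h : s y = y) : s⁻¹ y = y := by
  rw [Perm.inv_eq_iff_eq, h]

variable [TopologicalSpace G] [IsTopologicalGroup G] [T2Space G]

lemma localize {g : ℕ → G} (hg : Tendsto g atTop (𝓝 1)) (hi : ∀ n, (mv (g n)).Infinite)
    {U : Set G} (hU : U ∈ 𝓝 (1 : G)) {M : Set ℤ} (hM : M.Infinite) :
    ∃ t ∈ U, mv t ⊆ M ∧ (mv t).Infinite := by
  obtain ⟨p, h1, h2⟩ := indep (ι := (ℕ × ℕ × Bool) ⊕ ℕ) (PN_of hg)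
    (Sum.elim (fun z => mv (g z.1)) fun _ => univ) (by
      rintro (z | z)
      · exact hi _
      · exact infinite_univ)
  let σ : Perm ((ℕ × ℕ × Bool) ⊕ ℕ) := Function.Involutive.toPerm
    (Sum.map (fun z => (z.1, z.2.1, !z.2.2)) id) (by rintro (z | z) <;> simp)
  let s : G := σ.viaEmbedding p
  have s1 : ∀ i, s (p i) = p (σ i) := fun i => Perm.viaEmbedding_apply _ _ _
  have s2 : ∀ y, y ∉ range p → s y = y := fun y hy => Perm.viaEmbedding_apply_of_notMem _ _ _ hy
  let z : ℕ → G := fun n => s * g n * s⁻¹ * (g n)⁻¹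
  have hz : Tendsto z atTop (𝓝 1) := by simpa using (tendsto_conj hg s).mul hg.inv
  have z1 : ∀ n j, z n (p (Sum.inr j)) = p (Sum.inr j) := by
    intro n j
    have : s ((g n)⁻¹ (p (Sum.inr j))) = (g n)⁻¹ (p (Sum.inr j)) := by
      by_cases h : (g n)⁻¹ (p (Sum.inr j)) ∈ range p
      · obtain ⟨i, h⟩ := h
        have : i = Sum.inr j := by_contra fun hij => h2 i _ n hij (by simp [h])
        rw [← h, this, s1]; rfl
      · exact s2 _ h
    simp only [z, Perm.coe_mul, Function.comp_apply]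
    rw [inv_fix this]
    simp only [Perm.coe_inv, apply_symm_apply]
    rw [s1]; rfl
  have z2 : ∀ n j, g n (p (Sum.inl (n, j, true))) ∈ mv (z n) := by
    intro n j h
    have a1 : s (g n (p (Sum.inl (n, j, true)))) = g n (p (Sum.inl (n, j, true))) := by
      refine s2 _ ?_
      rintro ⟨i, h⟩
      have : Sum.inl (n, j, true) = i := by_contra fun hij => h2 _ i n hij h.symm
      subst this
      exact h1 (Sum.inl (n, j, true)) h.symm
    have a2 : s⁻¹ (p (Sum.inl (n, j, true))) = p (Sum.inl (n, j, false)) := by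
      rw [Perm.inv_eq_iff_eq, s1]; rfl
    simp only [z, Perm.coe_mul, Function.comp_apply] at h
    rw [show (g n)⁻¹ (g n (p (Sum.inl (n, j, true)))) = p (Sum.inl (n, j, true)) by simp, a2] at h
    have := p.injective ((g n).injective (s.injective (h.trans a1.symm)))
    simp at this
  obtain ⟨k, hk⟩ := into (B := (range fun j => p (Sum.inr j))ᶜ) (by
    rw [compl_compl]
    exact infinite_range_of_injective fun a b h => by simpa using h) hM
  obtain ⟨n, hn⟩ := ((tendsto_conj hz k).eventually hU).exists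
  refine ⟨_, hn, fun y hy => ?_, ?_⟩
  · have := hk (k⁻¹ y) (by
      rintro ⟨j, hj⟩
      have := mem_mv_conj.1 hy
      rw [← hj] at this
      exact this (z1 n j))
    simpa using this
  · refine infinite_of_injective_forall_mem (f := fun j : ℕ => k (g n (p (Sum.inl (n, j, true)))))
      (fun a b h => by simpa using h) fun j => mem_mv_conj.2 (by simpa using z2 n j)

variable [FirstCountableTopology G]

lemma tall {g : ℕ → G} (hg : Tendsto g atTop (𝓝 1)) (hi : ∀ n, (mv (g n)).Infinite)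
    {U : Set G} (hU : U ∈ 𝓝 (1 : G)) {D : Set ℤ} (hD : D.Infinite) :
    ∃ D' ⊆ D, D'.Infinite ∧ ∀ w : G, mv w ⊆ D' → w ∈ U := by
  obtain ⟨V, hV⟩ := (𝓝 (1 : G)).exists_antitone_basis
  let e : ℕ × ℕ → ℤ := fun z => hD.natEmbedding D (Nat.pair z.1 z.2)
  have he : Function.Injective e := fun a b h => by
    have := Nat.pair_eq_pair.1 ((hD.natEmbedding D).injective (Subtype.ext h))
    exact Prod.ext this.1 this.2
  choose t t1 t2 t3 using fun m => localize hg hi (hV.mem m) (M := range fun j => e (m, j))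
    (infinite_range_of_injective fun a b h => by simpa using he h)
  have ht := hV.tendsto t1
  obtain ⟨p, h1, h2⟩ := indep (ι := ℕ × ℤ × ℕ) (PN_of ht) (fun z => mv (t z.1)) fun z => t3 _
  by_contra hc
  have : ∀ m, ∃ w : G, mv w ⊆ range (fun j => p (m, 0, j)) ∧ w ∉ U := by
    intro m
    by_contra hm
    refine hc ⟨range fun j => p (m, 0, j), ?_, infinite_range_of_injective fun a b h => by
      simpa using h, fun w hw => by_contra fun h => hm ⟨w, hw, h⟩⟩
    rintro _ ⟨j, rfl⟩
    obtain ⟨i, hi⟩ := t2 m (h1 (m, 0, j))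
    simp only at hi ⊢
    rw [← hi]
    exact (hD.natEmbedding D _).2
  choose w w1 w2 using this
  choose o ho using fun m => transport ⟨fun j => p (m, 0, j), fun a b h => by simpa using h⟩ (w1 m)
  let u0 : Perm (ℕ × ℤ × ℕ) :=
    ⟨fun z => (z.1, z.2.1 + 1, z.2.2), fun z => (z.1, z.2.1 - 1, z.2.2), fun z => by simp,
      fun z => by simp⟩
  let v0 : Perm (ℕ × ℤ × ℕ) :=
    ⟨fun z => (z.1, z.2.1, if 0 ≤ z.2.1 then o z.1 z.2.2 else z.2.2),
      fun z => (z.1, z.2.1, if 0 ≤ z.2.1 then (o z.1).symm z.2.2 else z.2.2),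
      fun z => by by_cases h : 0 ≤ z.2.1 <;> simp [h], fun z => by by_cases h : 0 ≤ z.2.1 <;> simp [h]⟩
  let u : G := u0.viaEmbedding p
  let v : G := v0.viaEmbedding p
  have u1 : ∀ m i j, u (p (m, i, j)) = p (m, i + 1, j) := fun m i j => Perm.viaEmbedding_apply _ _ _
  have u2 : ∀ y, y ∉ range p → u y = y := fun y hy => Perm.viaEmbedding_apply_of_notMem _ _ _ hy
  have v1 : ∀ m i j, v (p (m, i, j)) = p (m, i, if 0 ≤ i then o m j else j) :=
    fun m i j => Perm.viaEmbedding_apply _ _ _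
  have v2 : ∀ y, y ∉ range p → v y = y := fun y hy => Perm.viaEmbedding_apply_of_notMem _ _ _ hy
  let c : ℕ → G := fun m => u * t m * u⁻¹ * (t m)⁻¹
  have hcT : Tendsto c atTop (𝓝 1) := by simpa using (tendsto_conj ht u).mul ht.inv
  have c1 : ∀ m m' i j, c m (p (m', i, j)) = p (m', if m' = m then i + 1 else i, j) := by
    intro m m' i j
    simp only [c, Perm.coe_mul, Function.comp_apply]
    split_ifs with h
    · subst h
      have : (t m')⁻¹ (p (m', i, j)) ∉ range p := by
        rintro ⟨z, hz⟩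
        have : z = (m', i, j) := by_contra fun hij => h2 z _ m' hij (by simp [hz])
        subst this
        apply h1 (m', i, j)
        conv_lhs => rw [hz]
        simp
      rw [inv_fix (u2 _ this)]
      simp only [Perm.coe_inv, apply_symm_apply]
      exact u1 _ _ _
    · have fx : ∀ i j, t m (p (m', i, j)) = p (m', i, j) := by
        intro i j
        by_contra hx
        obtain ⟨a, ha⟩ := t2 m hx
        obtain ⟨b, hb⟩ := t2 m' (h1 (m', i, j))
        have := he (ha.trans hb.symm)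
        exact h (congrArg Prod.fst this).symm
      have : u⁻¹ (p (m', i, j)) = p (m', i - 1, j) := by rw [Perm.inv_eq_iff_eq, u1]; simp
      rw [inv_fix (fx i j), this, fx, u1]; simp
  have w3 : ∀ m m' i j, w m (p (m', i, j)) = p (m', i, if m' = m ∧ i = 0 then o m j else j) := by
    intro m m' i j
    split_ifs with h
    · obtain ⟨rfl, rfl⟩ := h
      exact ho _ j
    · by_contra hx
      obtain ⟨a, ha⟩ := w1 m hx
      have := p.injective ha
      simp only [Prod.mk.injEq] at this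
      exact h ⟨this.1.symm, this.2.1.symm⟩
  have key : ∀ m, v * c m * v⁻¹ * (c m)⁻¹ = w m := by
    intro m
    have : w m * c m * v = v * c m := by
      ext x
      simp only [Perm.coe_mul, Function.comp_apply]
      by_cases hx : x ∈ range p
      · obtain ⟨⟨m', i, j⟩, rfl⟩ := hx
        rw [v1, c1, c1, w3, v1]
        by_cases h : m' = m
        · subst h
          by_cases h0 : 0 ≤ i
          · have a1 : ¬ i + 1 = 0 := by omega
            have a2 : 0 ≤ i + 1 := by omega
            simp [h0, a1, a2]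
          · by_cases a1 : i + 1 = 0
            · simp [h0, a1]
            · have a2 : ¬ 0 ≤ i + 1 := by omega
              simp [h0, a1, a2]
        · simp [h]
      · have : c m x ∉ range p := by
          rintro ⟨⟨m', i, j⟩, h⟩
          apply hx
          refine ⟨(m', if m' = m then i - 1 else i, j), (c m).injective ?_⟩
          rw [c1, ← h]
          by_cases h' : m' = m <;> simp [h']
        rw [v2 x hx, v2 _ this]
        by_contra h
        obtain ⟨a, ha⟩ := w1 m h
        exact this ⟨_, ha⟩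
    rw [← this]; group
  have hw : Tendsto w atTop (𝓝 1) := by
    have := (tendsto_conj hcT v).mul hcT.inv
    simpa only [key, inv_one, mul_one] using this
  obtain ⟨m, hm⟩ := (hw.eventually hU).exists
  exact w2 m hm

lemma coinf {g : ℕ → G} (hg : Tendsto g atTop (𝓝 1)) (hi : ∀ n, (mv (g n)).Infinite)
    {B : Set ℤ} (hB : Bᶜ.Infinite) {U : Set G} (hU : U ∈ 𝓝 (1 : G)) :
    ∃ F : Set ℤ, F.Finite ∧ ∀ w : G, mv w ⊆ B \ F → w ∈ U := by
  obtain ⟨V, hV⟩ := (𝓝 (1 : G)).exists_antitone_basis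
  choose nx n1 n2 n3 using fun (n : ℕ) (D : {D : Set ℤ // D.Infinite}) => tall hg hi (hV.mem n) D.2
  let D : ℕ → {D : Set ℤ // D.Infinite} := fun n =>
    Nat.rec ⟨univ, infinite_univ⟩ (fun k E => ⟨nx k E, n2 k E⟩) n
  have hD : Antitone fun n => (D n).1 := antitone_nat_of_succ_le fun n => n1 n (D n)
  obtain ⟨d, d1, d2⟩ := rec_seq (fun k y => y ∈ (D (k + 1)).1) (· ≠ ·) (fun k s => by
    obtain ⟨y, hy, hy'⟩ := (D (k + 1)).2.exists_notMem_finset s
    exact ⟨y, hy, fun x hx h => hy' (h ▸ hx)⟩)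
  have hd : Function.Injective d := fun a b h => by
    by_contra hab
    rcases lt_or_gt_of_ne hab with h' | h'
    · exact d2 _ _ h' h
    · exact d2 _ _ h' h.symm
  obtain ⟨k, hk⟩ := into hB (infinite_range_of_injective hd)
  have hc : Continuous fun x : G => k⁻¹ * x * k := by fun_prop
  obtain ⟨n, hn⟩ := hV.mem_iff.1 (hc.continuousAt.preimage_mem_nhds (x := 1) (by simpa using hU))
  refine ⟨(fun i => k⁻¹ (d i)) '' {i | i < n}, (finite_lt_nat n).image _, fun w hw => ?_⟩
  have := hn (n3 n (D n) (k * w * k⁻¹) fun y hy => by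
    obtain ⟨a1, a2⟩ := hw (mem_mv_conj.1 hy)
    obtain ⟨i, hi⟩ := hk _ a1
    simp only [Perm.coe_inv, apply_symm_apply] at hi
    have : n ≤ i := by_contra fun h => a2 ⟨i, not_le.1 h, by simp [hi]⟩
    exact hD (Nat.succ_le_succ this) (hi ▸ d1 i))
  simpa [mul_assoc] using this

lemma inf_null {g : ℕ → G} (hg : Tendsto g atTop (𝓝 1)) (hi : ∀ n, (mv (g n)).Infinite)
    {h : ℕ → G} (hh : PN h) : Tendsto h atTop (𝓝 1) := by
  classical
  intro U hU
  show ∀ᶠ n in atTop, h n ∈ U
  obtain ⟨W, hW, hWU⟩ := exists_nhds_one_split hU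
  obtain ⟨p, -, h2⟩ := indep (ι := ℕ × ℕ) hh (fun _ => univ) fun _ => infinite_univ
  have hinf : ∀ a, (range fun j => p (a, j)).Infinite := fun a =>
    infinite_range_of_injective fun a b h => by simpa using h
  obtain ⟨F1, f1, g1⟩ := coinf hg hi (B := (range fun j => p (2, j))ᶜ) (by simpa using hinf 2) hW
  obtain ⟨F2, f2, g2⟩ := coinf hg hi (B := (range fun j => p (0, j))ᶜ) (by simpa using hinf 0) hW
  filter_upwards [(eventually_all_finite (f1.union f2)).2 fun x _ => hh x] with n hn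
  let X := range fun j => p (0, j)
  let f : ℤ → ℤ := fun x => if x ∈ X then h n x else x
  have fF : ∀ x ∈ F1 ∪ F2, f x = h n x := fun x hx => by simp [f, hn x hx]
  have fX : ∀ x ∈ X, f x = h n x := fun x hx => by simp [f, hx]
  have fZ : ∀ j, f (p (2, j)) = p (2, j) := fun j => by simp [f, X]
  obtain ⟨k, hk⟩ := ext f (X ∪ (F1 ∪ F2) ∪ range fun j => p (2, j)) (by
      have a1 : ∀ x ∈ X ∪ (F1 ∪ F2), f x = h n x := fun x hx => hx.elim (fX x) (fF x)
      have a2 : ∀ x ∈ X ∪ (F1 ∪ F2), ∀ j, f x = p (2, j) → x = p (2, j) := by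
        rintro x (⟨i, rfl⟩ | hx) j e
        · exact absurd ((fX _ ⟨i, rfl⟩).symm.trans e) (h2 _ _ n (by simp))
        · rw [← e, fF x hx, hn x hx]
      rintro x (hx | ⟨i, rfl⟩) y (hy | ⟨j, rfl⟩) e
      · exact (h n).injective (by rw [← a1 x hx, ← a1 y hy, e])
      · exact a2 x hx j (e.trans (fZ j))
      · exact (a2 y hy i (e.symm.trans (fZ i))).symm
      · simpa only [fZ] using e)
    (((hinf 1).diff (f1.union f2)).mono (by
      rintro _ ⟨⟨j, rfl⟩, hj⟩ ((⟨i, h⟩ | h) | ⟨i, h⟩)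
      · simp at h
      · exact hj h
      · simp at h))
    (((hinf 1).diff (f1.union f2)).mono (by
      rintro _ ⟨⟨j, rfl⟩, hj⟩ ⟨x, ((⟨i, rfl⟩ | hx) | ⟨i, rfl⟩), e⟩
      · exact h2 _ _ n (by simp) ((fX _ ⟨i, rfl⟩).symm.trans e)
      · rw [fF x hx, hn x hx] at e
        exact hj (e ▸ hx)
      · rw [fZ] at e
        simp at e))
  have a1 := g1 k fun x hx => ⟨by
      rintro ⟨j, rfl⟩
      exact hx ((hk _ (Or.inr ⟨j, rfl⟩)).trans (fZ j)),
    fun h' => hx (by rw [hk x (Or.inl (Or.inr (Or.inl h'))), fF x (Or.inl h'), hn x (Or.inl h')])⟩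
  have a2 := g2 (k⁻¹ * h n) fun x hx => by
    have : ∀ x ∈ X ∪ (F1 ∪ F2), (k⁻¹ * h n) x = x := fun x hx => by
      rw [Perm.mul_apply, Perm.inv_eq_iff_eq, hk x (Or.inl hx), hx.elim (fX x) (fF x)]
    exact ⟨fun h' => hx (this x (Or.inl h')), fun h' => hx (this x (Or.inr (Or.inr h')))⟩
  simpa using hWU _ a1 _ a2

end Pool.Agent.H3.Sym
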