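import Mathlib
import Pool.Agent.H3.Amal

set_option autoImplicit false

namespace Pool.Agent.H3.UAdd

/-- value chain -/
abbrev Λ : Type := ℤ ×ₗ ℤ
/-- first coordinate -/
def tp : Λ →+ ℤ := ⟨⟨fun u => (ofLex u).1, rfl⟩, fun _ _ => rfl⟩
/-- second coordinate -/
def bt : Λ →+ ℤ := ⟨⟨fun u => (ofLex u).2, rfl⟩, fun _ _ => rfl⟩
/-- pairing -/
def mk (m n : ℤ) : Λ := toLex (m, n)
@[simp] lemma tp_mk (m n : ℤ) : tp (mk m n) = m := rfl
@[simp] lemma bt_mk (m n : ℤ) : bt (mk m n) = n := rfl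
lemma ext' {u v : Λ} (a : tp u = tp v) (b : bt u = bt v) : u = v := Prod.ext a b
lemma lt_iff {u v : Λ} : u < v ↔ tp u < tp v ∨ (tp u = tp v ∧ bt u < bt v) := Prod.Lex.lt_iff

lemma const_of_succ {α : Type} (c : ℤ → α) (h : ∀ n, c (n + 1) = c n) (n : ℤ) : c n = c 0 := by
  induction n using Int.induction_on with
  | zero => rfl
  | succ n ih => rw [h, ih]
  | pred n ih => rw [← ih, ← h]; simp

lemma ord (R : Λ → Λ) (m : StrictMono R) (s : Function.Surjective R) :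
    (∀ u v, tp u = tp v → R u - u = R v - v) ∧ ∀ u, tp (R u) = tp u + tp (R 0) := by
  have s1 : ∀ u, R (u + mk 0 1) = R u + mk 0 1 := fun u => by
    obtain ⟨w, e⟩ := s (R u + mk 0 1)
    have h1 : u < w := m.lt_iff_lt.1 (by rw [e, lt_iff]; simp)
    have h2 : R u < R (u + mk 0 1) := m (by rw [lt_iff]; simp)
    refine le_antisymm ((m.monotone (not_lt.1 fun k => ?_)).trans_eq e) (not_lt.1 fun k => ?_)
    · rw [lt_iff] at h1 k; simp at k; omega
    · rw [lt_iff] at h2 k; simp at k; omega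
  have s2 : ∀ u n, R (u + mk 0 n) = R u + mk 0 n := fun u n => by
    have := const_of_succ (fun n => R (u + mk 0 n) - mk 0 n) (fun n => by
      have e : mk 0 (n + 1) = mk 0 n + mk 0 1 := ext' (by simp) (by simp)
      rw [e, ← add_assoc, s1]; abel) n
    have z : mk 0 0 = 0 := rfl
    simp only [z, add_zero, sub_zero] at this
    rw [← this]; abel
  have s3 : ∀ u v, tp u = tp v → R u - u = R v - v := fun u v h => by
    have e : u = v + mk 0 (bt u - bt v) := ext' (by simp [h]) (by simp)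
    rw [e, s2]; abel
  have t1 : ∀ u v, tp u = tp v → tp (R u) = tp (R v) := fun u v h => by
    have := congrArg tp (s3 u v h)
    simp at this; omega
  have t2 : ∀ u v, tp u < tp v → tp (R u) < tp (R v) := fun u v h => by
    have := m (show u + mk 0 (bt (R v) - bt (R u)) < v by rw [lt_iff]; simp [h])
    rw [s2, lt_iff] at this
    simp at this; omega
  have t3 : ∀ n, tp (R (mk (n + 1) 0)) = tp (R (mk n 0)) + 1 := fun n => by
    obtain ⟨w, e⟩ := s (mk (tp (R (mk n 0)) + 1) 0)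
    have e' := congrArg tp e
    have a := t2 (mk n 0) (mk (n + 1) 0) (by simp)
    rw [tp_mk] at e'
    rcases lt_trichotomy (tp w) n with h | h | h
    · have := t2 w (mk n 0) h; omega
    · have := t1 w (mk n 0) h; omega
    · rcases (show tp w = n + 1 ∨ n + 1 < tp w by omega) with h | h
      · have := t1 w (mk (n + 1) 0) h; omega
      · have := t2 (mk (n + 1) 0) w h; omega
  refine ⟨s3, fun u => ?_⟩
  have := const_of_succ (fun n => tp (R (mk n 0)) - n) (fun n => by rw [t3]; ring) (tp u)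
  have z : mk 0 0 = 0 := rfl
  rw [t1 u (mk (tp u) 0) rfl]
  simp only [z] at this
  omega

/-- points -/
abbrev X : Type := {x : ℝ → Λ // 0 < tp (x 0) ∧ tp (x 1) = 0}
/-- linear forms -/
abbrev Fm : Type := ℝ →₀ ℤ
/-- evaluation -/
noncomputable def ev (x : X) : Fm →ₗ[ℤ] Λ := Finsupp.linearCombination ℤ x.1
lemma ev_congr {x y : X} {l : Fm} (h : ∀ j ∈ l.support, x.1 j = y.1 j) : ev x l = ev y l :=
  Finsupp.sum_congr fun j hj => show l j • x.1 j = l j • y.1 j by rw [h j hj]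
/-- same sign pattern -/
def E (F : Set Fm) (x y : X) : Prop := ∀ l ∈ F, SignType.sign (ev x l) = SignType.sign (ev y l)
/-- piecewise linear -/
def PL (f : X → Λ) : Prop :=
  ∃ F : Set Fm, F.Finite ∧ ∀ x, ∃ φ ∈ F, ∀ y, E F x y → f y = ev y φ

lemma two {f g : X → Λ} (hf : PL f) (hg : PL g) {k : X → Λ}
    (h : ∀ x φ ψ, ∃ χ ∈ ({φ, ψ, φ - ψ, 0} : Set Fm), ∀ y, f y = ev y φ → g y = ev y ψ →
      E {ψ, φ - ψ} x y → k y = ev y χ) : PL k := by
  obtain ⟨F, f1, f2⟩ := hf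
  obtain ⟨G, g1, g2⟩ := hg
  refine ⟨insert 0 (F ∪ G ∪ Set.image2 (· - ·) F G), ((f1.union g1).union (f1.image2 _ g1)).insert _,
    fun x => ?_⟩
  obtain ⟨φ, a, b⟩ := f2 x
  obtain ⟨ψ, c, d⟩ := g2 x
  obtain ⟨χ, e, e'⟩ := h x φ ψ
  have m1 : φ ∈ insert 0 (F ∪ G ∪ Set.image2 (· - ·) F G) := Or.inr (Or.inl (Or.inl a))
  have m2 : ψ ∈ insert 0 (F ∪ G ∪ Set.image2 (· - ·) F G) := Or.inr (Or.inl (Or.inr c))
  have m3 : φ - ψ ∈ insert 0 (F ∪ G ∪ Set.image2 (· - ·) F G) :=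
    Or.inr (Or.inr (Set.mem_image2_of_mem a c))
  refine ⟨χ, ?_, fun y hy => e' y (b y fun l hl => hy l (Or.inr (Or.inl (Or.inl hl))))
    (d y fun l hl => hy l (Or.inr (Or.inl (Or.inr hl)))) ?_⟩
  · rcases e with rfl | rfl | rfl | rfl
    exacts [m1, m2, m3, Or.inl rfl]
  · rintro l (rfl | rfl)
    exacts [hy _ m2, hy _ m3]

lemma PL.form (φ : Fm) : PL fun y => ev y φ :=
  ⟨{φ}, Set.finite_singleton _, fun _ => ⟨φ, rfl, fun _ _ => rfl⟩⟩
lemma PL.sub {f g : X → Λ} (hf : PL f) (hg : PL g) : PL (f - g) :=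
  two hf hg fun _ φ ψ => ⟨φ - ψ, by simp, fun y a b _ => by simp [a, b]⟩
lemma cmp {x y : X} {φ ψ : Fm} (h : E {ψ, φ - ψ} x y) :
    (ev x ψ ≤ ev x φ → ev y ψ ≤ ev y φ) ∧ (ev x φ ≤ ev x ψ → ev y φ ≤ ev y ψ) := by
  have := h (φ - ψ) (by simp)
  rw [(ev x).map_sub, (ev y).map_sub] at this
  exact ⟨fun k => sub_nonneg.1 (sign_nonneg_iff.1 (this ▸ sign_nonneg_iff.2 (sub_nonneg.2 k))),
    fun k => sub_nonpos.1 (sign_nonpos_iff.1 (this ▸ sign_nonpos_iff.2 (sub_nonpos.2 k)))⟩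
lemma PL.sup {f g : X → Λ} (hf : PL f) (hg : PL g) : PL (f ⊔ g) :=
  two hf hg fun x φ ψ => by
    rcases le_total (ev x ψ) (ev x φ) with k | k
    · exact ⟨φ, by simp, fun y a b c => by simp [a, b, (cmp c).1 k]⟩
    · exact ⟨ψ, by simp, fun y a b c => by simp [a, b, (cmp c).2 k]⟩
lemma PL.inf {f g : X → Λ} (hf : PL f) (hg : PL g) : PL (f ⊓ g) :=
  two hf hg fun x φ ψ => by
    rcases le_total (ev x ψ) (ev x φ) with k | k
    · exact ⟨ψ, by simp, fun y a b c => by simp [a, b, (cmp c).1 k]⟩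
    · exact ⟨φ, by simp, fun y a b c => by simp [a, b, (cmp c).2 k]⟩
lemma PL.cut {f g : X → Λ} (hf : PL f) (hg : PL g) : PL fun y => if g y = 0 then f y else 0 :=
  two hf hg fun x φ ψ => by
    have k : ∀ y, E {ψ, φ - ψ} x y → (ev x ψ = 0 ↔ ev y ψ = 0) := fun y c => by
      rw [← sign_eq_zero_iff, c ψ (by simp), sign_eq_zero_iff]
    by_cases e : ev x ψ = 0
    · exact ⟨φ, by simp, fun y a b c => by simp [a, b, (k y c).1 e]⟩
    · exact ⟨0, by simp, fun y a b c => by simp [b, mt (k y c).2 e]⟩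

lemma PL.supp {f : X → Λ} (hf : PL f) :
    ∃ S : Set ℝ, S.Finite ∧ ∀ x y : X, (∀ j ∈ S, x.1 j = y.1 j) → f x = f y := by
  obtain ⟨F, f1, f2⟩ := hf
  refine ⟨⋃ l ∈ F, (l.support : Set ℝ), f1.biUnion fun l _ => l.support.finite_toSet,
    fun x y h => ?_⟩
  have e : ∀ l ∈ F, ev x l = ev y l := fun l hl => ev_congr fun j hj =>
    h j (Set.mem_biUnion hl hj)
  obtain ⟨φ, a, b⟩ := f2 x
  rw [b x fun _ _ => rfl, b y fun l hl => by rw [e l hl], e φ a]

open Classical in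
/-- changing one coordinate -/
noncomputable def upd (x : X) (i : ℝ) (v : Λ) : X :=
  if h : i ≠ 0 ∧ i ≠ 1 then ⟨Function.update x.1 i v, by
    rw [Function.update_of_ne h.1.symm, Function.update_of_ne h.2.symm]; exact x.2⟩ else x

lemma upd_self (x : X) {i : ℝ} (h : i ≠ 0 ∧ i ≠ 1) (v : Λ) : (upd x i v).1 i = v := by
  simp [upd, h]
lemma upd_ne (x : X) {i j : ℝ} (h : j ≠ i) (v : Λ) : (upd x i v).1 j = x.1 j := by
  unfold upd; split_ifs
  · exact Function.update_of_ne h _ _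
  · rfl
lemma ev_single (x : X) (i : ℝ) : ev x (Finsupp.single i 1) = x.1 i := by simp [ev]
lemma ev_upd (x : X) {i : ℝ} (h : i ≠ 0 ∧ i ≠ 1) (v : Λ) (l : Fm) :
    ev (upd x i v) l = ev x (l.erase i) + l i • v := by
  conv_lhs => rw [← Finsupp.erase_add_single i l]
  rw [map_add]
  congr 1
  · exact ev_congr fun j hj => upd_ne x (fun e => by simp [e] at hj) v
  · simp [ev, upd_self x h]

/-- scaling the first coordinates -/
def σ (N : ℤ) : Λ →+ Λ := ⟨⟨fun u => mk (N * tp u) (bt u), ext' (by simp) (by simp)⟩,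
  fun _ _ => ext' (by simp [mul_add]) (by simp)⟩
lemma tp_σ (N : ℤ) (u : Λ) : tp (σ N u) = N * tp u := rfl
lemma bt_σ (N : ℤ) (u : Λ) : bt (σ N u) = bt u := rfl
/-- scaling a point -/
def sc (N : ℤ) (h : 0 < N) (x : X) : X := ⟨fun j => σ N (x.1 j),
  by rw [tp_σ]; exact mul_pos h x.2.1, by rw [tp_σ, x.2.2, mul_zero]⟩
lemma ev_sc (N : ℤ) (h : 0 < N) (x : X) (l : Fm) : ev (sc N h x) l = σ N (ev x l) :=
  (Finsupp.apply_linearCombination ℤ (σ N).toIntLinearMap x.1 l).symm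

lemma sign_eq {u v : Λ} (h : (0 < u ∧ 0 < v) ∨ (u < 0 ∧ v < 0) ∨ u = v) :
    SignType.sign u = SignType.sign v := by
  rcases h with h | h | h
  · rw [sign_pos h.1, sign_pos h.2]
  · rw [sign_neg h.1, sign_neg h.2]
  · rw [h]

lemma kill {f : X → Λ} (hf : PL f) {i : ℝ} (hi : i ≠ 0 ∧ i ≠ 1) (t : ∀ y, tp (f y) = 0)
    (d : ∀ y u v, tp u = tp v → f (upd y i u) = f (upd y i v))
    (z : ∀ y : X, f (upd y i 0) = 0) (x : X) : f x = 0 := by
  obtain ⟨F, f1, f2⟩ := hf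
  obtain ⟨N, N0, hN⟩ : ∃ N : ℤ, 0 < N ∧ ∀ l ∈ F, l i ≠ 0 → l i ∣ N := by
    refine ⟨∏ l ∈ f1.toFinset with l i ≠ 0, |l i|, Finset.prod_pos fun l hl =>
      abs_pos.2 (Finset.mem_filter.1 hl).2, fun l a b => (self_dvd_abs _).trans
      (Finset.dvd_prod_of_mem (fun l : Fm => |l i|) (by simp [a, b]))⟩
  have e1 : f x = f (sc N N0 x) := by
    obtain ⟨φ, a, b⟩ := f2 x
    refine ext' (by rw [t, t]) ?_
    rw [b x fun _ _ => rfl, b (sc N N0 x) fun l _ => sign_eq ?_, ev_sc, bt_σ]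
    simp only [ev_sc, lt_iff, tp_σ, bt_σ, map_zero]
    rcases lt_trichotomy (tp (ev x l)) 0 with h | h | h
    · exact Or.inr (Or.inl ⟨Or.inl h, Or.inl (mul_neg_of_pos_of_neg N0 h)⟩)
    · exact Or.inr (Or.inr (ext' (by rw [tp_σ, h, mul_zero]) rfl))
    · exact Or.inl ⟨Or.inl h, Or.inl (mul_pos N0 h)⟩
  obtain ⟨M, hM⟩ := (f1.image fun l => |bt (ev x (l.erase i))| + 1).bddAbove
  have st : ∀ u, f (upd (sc N N0 x) i (mk (u + 1) 0)) = f (upd (sc N N0 x) i (mk u 0)) := fun u => by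
    rw [d _ (mk (u + 1) 0) (mk (u + 1) (-M)) rfl, d _ (mk u 0) (mk u M) rfl]
    obtain ⟨φ, a, b⟩ := f2 (upd (sc N N0 x) i (mk u M))
    have k1 := b _ fun _ _ => rfl
    have k2 := b (upd (sc N N0 x) i (mk (u + 1) (-M))) fun l hl => sign_eq (by
      rw [ev_upd _ hi, ev_upd _ hi, ev_sc]
      by_cases c : l i = 0
      · simp [c]
      obtain ⟨r, hr⟩ := hN l hl c
      have hb := abs_le.1 (Int.le_of_lt_add_one (Int.lt_add_one_iff.2 le_rfl) :
        |bt (ev x (l.erase i))| ≤ |bt (ev x (l.erase i))|)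
      have hm : |bt (ev x (l.erase i))| + 1 ≤ M := hM ⟨l, hl, rfl⟩
      simp only [lt_iff, map_add, map_zsmul, tp_σ, bt_σ, tp_mk, bt_mk, map_zero, smul_eq_mul, hr]
      generalize tp (ev x (l.erase i)) = A at *
      generalize bt (ev x (l.erase i)) = B at *
      generalize |B| = B' at *
      generalize l i = β at *
      have e1 : β * r * A + β * u = β * (r * A + u) := by ring
      have e2 : β * r * A + β * (u + 1) = β * (r * A + u + 1) := by ring
      rw [e1, e2]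
      generalize r * A + u = s
      rcases lt_or_gt_of_ne c with h | h <;> rcases lt_trichotomy s 0 with k | k | k
      · refine Or.inl ⟨Or.inl (by nlinarith), ?_⟩
        rcases (show s + 1 = 0 ∨ s + 1 < 0 by omega) with q | q
        · exact Or.inr ⟨by rw [q]; simp, by nlinarith⟩
        · exact Or.inl (by nlinarith)
      · exact Or.inr (Or.inl ⟨Or.inr ⟨by rw [k]; simp, by nlinarith⟩, Or.inl (by nlinarith)⟩)
      · exact Or.inr (Or.inl ⟨Or.inl (by nlinarith), Or.inl (by nlinarith)⟩)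
      · refine Or.inr (Or.inl ⟨Or.inl (by nlinarith), ?_⟩)
        rcases (show s + 1 = 0 ∨ s + 1 < 0 by omega) with q | q
        · exact Or.inr ⟨by rw [q]; simp, by nlinarith⟩
        · exact Or.inl (by nlinarith)
      · exact Or.inl ⟨Or.inr ⟨by rw [k]; simp, by nlinarith⟩, Or.inl (by nlinarith)⟩
      · exact Or.inl ⟨Or.inl (by nlinarith), Or.inl (by nlinarith)⟩)
    have t1 := t (upd (sc N N0 x) i (mk u M))
    have t2 := t (upd (sc N N0 x) i (mk (u + 1) (-M)))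
    rw [k1, ev_upd _ hi] at t1
    rw [k2, ev_upd _ hi] at t2
    have c : φ i = 0 := by
      simp only [map_add, map_zsmul, tp_mk, smul_eq_mul] at t1 t2
      linear_combination t2 - t1
    rw [k1, k2, ev_upd _ hi, ev_upd _ hi, c, zero_smul, zero_smul]
  have e2 : upd (sc N N0 x) i ((sc N N0 x).1 i) = sc N N0 x := Subtype.ext (funext fun j => by
    by_cases c : j = i
    · rw [c, upd_self _ hi]
    · exact upd_ne _ c _)
  rw [e1, ← e2, d _ ((sc N N0 x).1 i) (mk (tp ((sc N N0 x).1 i)) 0) rfl,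
    const_of_succ (fun u => f (upd (sc N N0 x) i (mk u 0))) st]
  exact z _

end Pool.Agent.H3.UAdd
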