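import Mathlib
import Pool.Agent.H3.UAddA

set_option autoImplicit false

namespace Pool.Agent.H3.UAdd

lemma PL.zero : PL 0 := by
  have := PL.form 0
  simp only [map_zero] at this
  exact this

/-- the group -/
def GS : AddSubgroup (X → Λ) where
  carrier := {f | PL f}
  zero_mem' := PL.zero
  add_mem' := fun a b => by simpa using PL.sub a (PL.zero.sub b)
  neg_mem' := fun a => by simpa using PL.zero.sub a

/-- the group as a type -/
def GG : Type := GS
instance : AddCommGroup GG := inferInstanceAs (AddCommGroup GS)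
noncomputable instance : Lattice GG :=
  Subtype.lattice (P := fun f => f ∈ GS) (fun _ _ a b => PL.sup a b) fun _ _ a b => PL.inf a b
/-- underlying function -/
def GG.v (f : GG) : X → Λ := (f : GS).1
lemma pl (f : GG) : PL f.v := (f : GS).2
lemma gext {f g : GG} (h : ∀ y, f.v y = g.v y) : f = g := Subtype.ext (funext h)
lemma le_v {f g : GG} : f ≤ g ↔ ∀ y, f.v y ≤ g.v y := Iff.rfl
@[simp] lemma add_v (f g : GG) (y : X) : (f + g).v y = f.v y + g.v y := rfl
@[simp] lemma sub_v (f g : GG) (y : X) : (f - g).v y = f.v y - g.v y := rfl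
@[simp] lemma zero_v (y : X) : (0 : GG).v y = 0 := rfl
@[simp] lemma nsmul_v (n : ℕ) (f : GG) (y : X) : (n • f).v y = n • f.v y := rfl
@[simp] lemma zsmul_v (n : ℤ) (f : GG) (y : X) : (n • f).v y = n • f.v y := rfl
@[simp] lemma sup_v (f g : GG) (y : X) : (f ⊔ g).v y = max (f.v y) (g.v y) := rfl
@[simp] lemma inf_v (f g : GG) (y : X) : (f ⊓ g).v y = min (f.v y) (g.v y) := rfl
instance : AddLeftMono GG := ⟨fun f _ _ h y => add_le_add_right (h y) (f.v y)⟩
instance : AddRightMono GG := ⟨fun f _ _ h y => add_le_add_left (h y) (f.v y)⟩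
/-- coordinate function -/
noncomputable def gen (i : ℝ) : GG := ⟨fun y => ev y (Finsupp.single i 1), PL.form _⟩
@[simp] lemma gen_v (i : ℝ) (y : X) : (gen i).v y = y.1 i := ev_single y i

/-- the region can be cut out -/
def Cut (P : X → Prop) : Prop :=
  ∀ f : GG, ∃ g : GG, (∀ y, P y → g.v y = f.v y) ∧ ∀ y, ¬ P y → g.v y = 0
lemma Cut.compl {P : X → Prop} (h : Cut P) : Cut fun y => ¬ P y := fun f => by
  obtain ⟨g, a, b⟩ := h f
  exact ⟨f - g, fun y k => by simp [b y k], fun y k => by simp [a y (not_not.1 k)]⟩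
lemma cut_zero (d : GG) : Cut fun y => d.v y = 0 := fun f =>
  ⟨⟨_, (pl f).cut (pl d)⟩, fun _ k => if_pos k, fun _ k => if_neg k⟩
lemma Cut.two {P : X → Prop} (h : Cut P) (f : GG) : ∃ g k : GG, ∀ y,
    (P y ∧ g.v y = f.v y ∧ k.v y = 0) ∨ (¬ P y ∧ g.v y = 0 ∧ k.v y = f.v y) := by
  obtain ⟨g, a, b⟩ := h f
  refine ⟨g, f - g, fun y => ?_⟩
  by_cases c : P y
  · exact Or.inl ⟨c, a y c, by simp [a y c]⟩
  · exact Or.inr ⟨c, b y c, by simp [b y c]⟩

variable [Group GG] [MulLeftMono GG] [MulRightMono GG] (h1 : (1 : GG) = 0)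
include h1

lemma loc {P : X → Prop} (hP : Cut P) {w : GG} (w0 : 0 ≤ w) (wP : ∀ y, P y → w.v y = 0) (k : GG)
    (x : X) (hx : P x) : (w * k).v x = k.v x := by
  have w1 : 1 ≤ w := h1 ▸ w0
  have up : ∀ k, k.v x ≤ (w * k).v x := fun k => (le_mul_of_one_le_left' w1 : k ≤ w * k) x
  have b : ∀ p : GG, 0 ≤ p → (∀ y, P y → p.v y = 0) → (w * p).v x = 0 := fun p p0 pP => by
    obtain ⟨c, c1, c2⟩ := hP (w * p)
    have q : 0 ≤ w * p := p0.trans (le_mul_of_one_le_left' w1)
    have c0 : 0 ≤ c := le_v.2 fun y => by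
      by_cases e : P y
      · rw [c1 y e]; exact q y
      · rw [c2 y e]; rfl
    have d : ∀ u : GG, 0 ≤ u → (∀ y, P y → u.v y = 0) → u ⊓ c = 1 := fun u u0 uP => by
      rw [h1]
      refine gext fun y => ?_
      by_cases e : P y
      · rw [inf_v, uP y e]; exact min_eq_left (c0 y)
      · rw [inf_v, c2 y e]; exact min_eq_right (u0 y)
    have := EllP.inf_mul_le w1 (h1 ▸ p0) (h1 ▸ c0)
    rw [d w w0 wP, d p p0 pP, one_mul, h1] at this
    have := le_v.1 this x
    rw [inf_v, c1 x hx, min_self] at this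
    exact le_antisymm this (q x)
  have c : ∀ k : GG, 0 ≤ k → (w * k).v x = k.v x := fun k k0 => by
    obtain ⟨g, l, e⟩ := hP.two k
    have k0' : ∀ y, 0 ≤ k.v y := k0
    have e1 : k = g ⊔ l := gext fun y => by
      rcases e y with e | e <;> simp [e.2.1, e.2.2, k0' y]
    have e2 : w ⊓ g = 1 := by
      rw [h1]
      refine gext fun y => ?_
      have : 0 ≤ w.v y := w0 y
      rcases e y with e | e
      · simp [wP y e.1, e.2.1, k0' y]
      · simp [e.2.1, this]
    have e3 := b l (le_v.2 fun y => by rcases e y with e | e <;> simp [e.2.2, k0' y])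
      fun y a => by rcases e y with e | e; exacts [e.2.2, absurd a e.1]
    have e4 := ((e x).resolve_right fun e => e.1 hx).2.1
    conv_lhs => rw [e1, mul_sup, ← Amal.sup_eq_mul e2]
    simp [e3, e4, wP x hx, k0' x]
  have d : ∀ k : GG, k ≤ 0 → (w * k).v x = k.v x := fun k k0 => by
    obtain ⟨g, l, e⟩ := hP.two k
    have k0' : ∀ y, k.v y ≤ 0 := k0
    have w0' : ∀ y, 0 ≤ w.v y := w0
    have e1 : k = g ⊓ l := gext fun y => by
      rcases e y with e | e <;> simp [e.2.1, e.2.2, k0' y]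
    have e2 : w * g = w + g := by
      have r1 : (w + g) ⊔ 1 = w := by
        rw [h1]
        refine gext fun y => ?_
        rcases e y with e | e
        · simp [wP y e.1, e.2.1, k0' y]
        · simp [e.2.1, w0' y]
      have r2 : (w + g) ⊓ 1 = g := by
        rw [h1]
        refine gext fun y => ?_
        rcases e y with e | e
        · simp [wP y e.1, e.2.1, k0' y]
        · simp [e.2.1, w0' y]
      have : ∀ r : GG, (r ⊔ 1) * (r ⊓ 1) = r := fun r => by
        rw [← eq_mul_inv_iff_mul_eq, inv_inf, mul_sup]; simp [sup_comm]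
      have := this (w + g)
      rwa [r1, r2] at this
    have e4 := ((e x).resolve_right fun e => e.1 hx).2
    have e5 := up l
    conv_lhs => rw [e1, mul_inf, e2]
    rw [e4.2] at e5
    simp [e4.1, wP x hx, (k0' x).trans e5]
  have c' := c (k ⊔ 0) le_sup_right
  have d' := d (k ⊓ 0) inf_le_right
  rw [← h1, mul_sup, mul_one, h1] at c'
  rw [← h1, mul_inf, mul_one, h1] at d'
  simp only [sup_v, inf_v, wP x hx, zero_v] at c' d'
  have := max_add_min ((w * k).v x) 0
  rw [c', d', max_add_min] at this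
  simpa using this.symm

lemma la {g g' : GG} {x : X} (e : g.v x = g'.v x) (h : GG) : (g * h).v x = (g' * h).v x := by
  have key : ∀ g g' : GG, g ≤ g' → g.v x = g'.v x → (g * h).v x = (g' * h).v x := by
    intro g g' l e
    have w1 : 1 ≤ g' * g⁻¹ := le_mul_inv_iff_le.2 l
    have w0 : ∀ y, 0 ≤ (g' * g⁻¹).v y := (h1 ▸ w1 : (0 : GG) ≤ _)
    obtain ⟨c, c1, c2⟩ := cut_zero (g' - g) (g' * g⁻¹)
    have c0 : 0 ≤ c ∧ c ≤ g' * g⁻¹ := by
      constructor <;> refine le_v.2 fun y => ?_ <;> by_cases a : (g' - g).v y = 0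
      · rw [c1 y a]; exact w0 y
      · rw [c2 y a]; rfl
      · rw [c1 y a]
      · rw [c2 y a]; exact w0 y
    have : c * g = g := gext fun y => by
      by_cases a : (g' - g).v y = 0
      · refine le_antisymm ?_ ((le_mul_of_one_le_left' (h1 ▸ c0.1) : g ≤ c * g) y)
        have := le_v.1 (mul_le_mul_left c0.2 g) y
        rw [inv_mul_cancel_right] at this
        exact this.trans_eq (sub_eq_zero.1 a)
      · exact loc h1 (cut_zero (g' - g)).compl c0.1 c2 g y a
    have c3 : c = 0 := (mul_eq_right.1 this).trans h1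
    have := loc h1 (cut_zero (g' - g)) w0 (fun y a => by rw [← c1 y a, c3]; rfl) (g * h) x
      (by simp [e])
    rw [← this, ← mul_assoc, inv_mul_cancel_right]
  exact (key _ g inf_le_left (by simp [e])).symm.trans (key _ g' inf_le_right (by simp [e]))

lemma full (h : GG) (x : X) (s : ∀ u, ∃ g : GG, g.v x = u) :
    (∀ g g' : GG, tp (g.v x) = tp (g'.v x) → (g * h - g - h).v x = (g' * h - g' - h).v x) ∧
    ∀ g : GG, tp ((g * h - g - h).v x) = 0 := by
  choose L hL using s
  have e : ∀ g : GG, (L (g.v x) * h).v x = (g * h).v x := fun g => la h1 (hL _) h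
  obtain ⟨a, b⟩ := ord (fun u => (L u * h).v x) (fun u v k => by
    refine lt_of_le_of_ne ?_ fun q => k.ne ?_
    · exact (la h1 (g := L u ⊓ L v) (g' := L u) (x := x) (by simp [hL, k.le]) h).ge.trans
        ((mul_le_mul_left inf_le_right h : (L u ⊓ L v) * h ≤ _) x)
    · simpa [hL] using la h1 q h⁻¹) fun w => ⟨(L w * h⁻¹).v x, by simp [e, hL]⟩
  refine ⟨fun g g' k => ?_, fun g => ?_⟩
  · have := a _ _ k
    simp only [e] at this
    simp [this]
  · have := b (g.v x)
    have z := e 1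
    rw [one_mul, h1, zero_v] at z
    simp only [e, z] at this
    simp [this]

omit h1 [Group GG] [MulLeftMono GG] [MulRightMono GG] in
lemma fresh {S : Set ℝ} (h : S.Finite) : ∃ i, (i ≠ 0 ∧ i ≠ 1) ∧ i ∉ S := by
  obtain ⟨i, -, a⟩ := Set.infinite_univ.exists_notMem_finite ((h.insert 0).insert 1)
  simp only [Set.mem_insert_iff, not_or] at a
  exact ⟨i, ⟨a.2.1, a.1⟩, a.2.2⟩

omit h1 [Group GG] [MulLeftMono GG] [MulRightMono GG] in
lemma fill (a b c : GG) (x : X) : ∃ y : X, a.v y = a.v x ∧ b.v y = b.v x ∧ c.v y = c.v x ∧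
    ∀ u, ∃ g : GG, g.v y = u := by
  obtain ⟨A, a1, a2⟩ := (pl a).supp
  obtain ⟨B, b1, b2⟩ := (pl b).supp
  obtain ⟨C, c1, c2⟩ := (pl c).supp
  obtain ⟨i, i1, i2⟩ := fresh ((a1.union b1).union c1)
  obtain ⟨j, j1, j2⟩ := fresh (((a1.union b1).union c1).insert i)
  have e : ∀ k ∈ A ∪ B ∪ C, (upd (upd x i (mk 1 0)) j (mk 0 1)).1 k = x.1 k := fun k hk => by
    rw [upd_ne _ (fun q : k = j => j2 (Or.inr (q ▸ hk))), upd_ne _ fun q : k = i => i2 (q ▸ hk)]
  refine ⟨upd (upd x i (mk 1 0)) j (mk 0 1), a2 _ _ fun k q => e k (Or.inl (Or.inl q)),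
    b2 _ _ fun k q => e k (Or.inl (Or.inr q)), c2 _ _ fun k q => e k (Or.inr q),
    fun u => ⟨tp u • gen i + bt u • gen j, ?_⟩⟩
  rw [add_v, zsmul_v, zsmul_v, gen_v, gen_v, upd_self _ j1,
    upd_ne _ (fun q => j2 (Or.inl q.symm)), upd_self _ i1]
  exact ext' (by simp [-zsmul_eq_mul]) (by simp [-zsmul_eq_mul])

theorem uniq (g h : GG) : g * h = g + h := by
  have S1 : ∀ (g : GG) x, tp ((g * h - g - h).v x) = 0 := fun g x => by
    obtain ⟨y, a, -, -, s⟩ := fill (g * h - g - h) g g x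
    rw [← a]; exact (full h1 h y s).2 g
  have S2 : ∀ (g g' : GG) x, tp (g.v x) = tp (g'.v x) →
      (g * h - g - h).v x = (g' * h - g' - h).v x := fun g g' x k => by
    obtain ⟨y, a, b, c, s⟩ := fill (g * h - g - h) (g' * h - g' - h) (g - g') x
    rw [← a, ← b]
    refine (full h1 h y s).1 g g' (sub_eq_zero.1 ?_)
    rw [← map_sub, ← sub_v, c, sub_v, map_sub, k, sub_self]
  choose S s1 s2 using fun g : GG => (pl g).supp
  let T : Set ℝ := insert 0 (insert 1 (S g ∪ S (g * h - g - h)))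
  have T1 : T.Finite := (((s1 _).union (s1 _)).insert 1).insert 0
  let e := T1.infinite_compl.natEmbedding
  obtain ⟨j, j1⟩ : ∃ j, j ∉ insert 0 (insert 1 (⋃ n, S (gen (e n) * h - gen (e n) - h))) := by
    by_contra c
    push Not at c
    exact Cardinal.not_countable_real ((((Set.countable_iUnion fun n =>
      (s1 _).countable).insert 1).insert 0).mono fun j _ => c j)
  simp only [Set.mem_insert_iff, not_or, Set.mem_iUnion, not_exists] at j1
  obtain ⟨i, ⟨n, rfl⟩, i1⟩ := (Set.infinite_range_of_injective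
    (Subtype.val_injective.comp e.injective)).exists_notMem_finite
    ((s1 (gen j * h - gen j - h)).insert j)
  have i2 := (e n).2
  have j2 := j1.2.2 n
  simp only [T, Set.mem_compl_iff, Set.mem_insert_iff, not_or, Set.mem_union,
    Function.comp_apply] at i1 i2
  generalize (e n).1 = i at *
  have hi : i ≠ 0 ∧ i ≠ 1 := ⟨i2.1, i2.2.1⟩
  have fr : ∀ (f : GG) k, k ∉ S f → ∀ y v, f.v (upd y k v) = f.v y := fun f k a y v =>
    s2 f _ _ fun l b => upd_ne _ (fun q : l = k => a (q ▸ b)) _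
  have z := kill (pl (gen i * h - gen i - h)) hi (S1 _) (fun y u v k => by
    have q : ∀ w, tp w = tp u → (gen i * h - gen i - h).v (upd y i w) =
        (gen j * h - gen j - h).v (upd y j u) := fun w a => by
      rw [← fr _ j j2 _ u, S2 _ (gen j) _ (by
        rw [gen_v, gen_v, upd_self _ ⟨j1.1, j1.2.1⟩, upd_ne _ i1.1, upd_self _ hi, a])]
      refine s2 _ _ _ fun l b => ?_
      by_cases c : l = j
      · rw [c, upd_self _ ⟨j1.1, j1.2.1⟩, upd_self _ ⟨j1.1, j1.2.1⟩]
      · rw [upd_ne _ c, upd_ne _ c, upd_ne _ fun q : l = i => i1.2 (q ▸ b)]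
    rw [q u rfl, q v k.symm]) fun y => by
      rw [S2 _ 1 _ (by rw [gen_v, upd_self _ hi, h1, zero_v]), one_mul, h1]; simp
  refine gext fun x => ?_
  have := z (upd x i (g.v x))
  rw [S2 _ g _ (by rw [gen_v, upd_self _ hi, fr g i i2.2.2.1]), fr _ i i2.2.2.2, sub_v, sub_v,
    sub_sub, sub_eq_zero] at this
  exact this

end Pool.Agent.H3.UAdd
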