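import Mathlib

open Filter Topology Finset

namespace Pool.Agent.H3.Vs

def T : ℕ → ℕ
  | 0 => 0
  | j + 1 => T j + (j + 1)

lemma two_T (j : ℕ) : 2 * T j = j ^ 2 + j := by
  induction j with
  | zero => rfl
  | succ j ih => rw [T]; nlinarith

lemma le_T (j : ℕ) : j ≤ T j := by
  cases j with
  | zero => rfl
  | succ j => rw [T]; omega

noncomputable def po (q : ℝ) (m : ℕ) : ℝ := ∏ k ∈ range m, (1 - q ^ (k + 1))

variable {q : ℝ}

lemma fac_pos (h0 : 0 < q) (h1 : q < 1) (k : ℕ) : 0 < 1 - q ^ (k + 1) :=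
  sub_pos.2 (pow_lt_one₀ h0.le h1 (by omega))

lemma po_pos (h0 : 0 < q) (h1 : q < 1) (m : ℕ) : 0 < po q m :=
  prod_pos fun k _ => fac_pos h0 h1 k

lemma po_anti (h0 : 0 < q) (h1 : q < 1) : Antitone (po q) := by
  refine antitone_nat_of_succ_le fun m => ?_
  have := po_pos h0 h1 m
  unfold po at *
  rw [prod_range_succ]
  have : 0 < q ^ (m + 1) := by positivity
  nlinarith

lemma po_low (h0 : 0 < q) (h1 : q < 1) (m : ℕ) : Real.exp (-((1 - q)⁻¹ * (1 - q)⁻¹)) ≤ po q m := by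
  have hq : 0 < 1 - q := by linarith
  have key : ∀ m, Real.exp (-((1 - q)⁻¹ * ∑ k ∈ range m, q ^ k)) ≤ po q m := by
    intro m
    induction m with
    | zero => simp [po]
    | succ m ih =>
      unfold po at *
      rw [prod_range_succ, sum_range_succ, mul_add, neg_add, Real.exp_add]
      refine mul_le_mul ih ?_ (Real.exp_pos _).le (le_trans (Real.exp_pos _).le ih)
      have h2 := fac_pos h0 h1 m
      have h3 : q ^ (m + 1) ≤ q := by
        rw [pow_succ]; exact mul_le_of_le_one_left h0.le (pow_le_one₀ h0.le h1.le)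
      have h4 : q ^ (m + 1) ≤ q ^ m := by
        rw [pow_succ]; exact mul_le_of_le_one_right (by positivity) h1.le
      rw [Real.exp_neg, inv_le_comm₀ (Real.exp_pos _) h2]
      refine le_trans ?_ (Real.add_one_le_exp _)
      have h5 : (1 - q ^ (m + 1))⁻¹ = (1 - q ^ (m + 1))⁻¹ * q ^ (m + 1) + 1 := by
        field_simp; ring
      rw [h5]
      gcongr
  refine le_trans ?_ (key m)
  gcongr
  have := (hasSum_geometric_of_lt_one h0.le h1)
  exact sum_le_hasSum _ (fun k _ => by positivity) this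

noncomputable def PP (q : ℝ) : ℝ := ⨅ m, po q m

lemma po_bdd (h0 : 0 < q) (h1 : q < 1) : BddBelow (Set.range (po q)) :=
  ⟨0, by rintro _ ⟨m, rfl⟩; exact (po_pos h0 h1 m).le⟩

lemma PP_pos (h0 : 0 < q) (h1 : q < 1) : 0 < PP q :=
  lt_of_lt_of_le (Real.exp_pos _) (le_ciInf (po_low h0 h1))

lemma PP_le (h0 : 0 < q) (h1 : q < 1) (m : ℕ) : PP q ≤ po q m := ciInf_le (po_bdd h0 h1) m

lemma po_tend (h0 : 0 < q) (h1 : q < 1) : Tendsto (po q) atTop (𝓝 (PP q)) :=
  tendsto_atTop_ciInf (po_anti h0 h1) (po_bdd h0 h1)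

lemma PP_anti {r : ℝ} (h0 : 0 < q) (hqr : q ≤ r) (h1 : r < 1) : PP r ≤ PP q := by
  refine le_ciInf fun m => (PP_le (by linarith) h1 m).trans ?_
  unfold po
  refine prod_le_prod (fun k _ => (fac_pos (by linarith) h1 k).le) fun k _ => ?_
  gcongr

noncomputable def ip (q : ℝ) (m : ℤ) : ℝ := if 0 ≤ m then (po q m.toNat)⁻¹ else 0

lemma ip_nat (m : ℕ) : ip q m = (po q m)⁻¹ := by simp [ip]

lemma ip_step (h0 : 0 < q) (h1 : q < 1) (m : ℤ) : ip q m = (1 - q ^ (m + 1)) * ip q (m + 1) := by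
  rcases lt_trichotomy m (-1) with h | h | h
  · have h2 : ¬ (0 ≤ m) := by omega
    have h3 : ¬ (0 ≤ m + 1) := by omega
    simp [ip, h2, h3]
  · subst h; simp [ip]
  · obtain ⟨k, rfl⟩ := Int.eq_ofNat_of_zero_le (show 0 ≤ m by omega)
    have e : (k : ℤ) + 1 = ((k + 1 : ℕ) : ℤ) := by push_cast; ring
    rw [e, ip_nat, ip_nat, zpow_natCast]
    have h2 := (po_pos h0 h1 k).ne'
    have h3 := (fac_pos h0 h1 k).ne'
    unfold po at *
    rw [prod_range_succ]
    field_simp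

lemma ip_bd (h0 : 0 < q) (h1 : q < 1) (m : ℤ) : 0 ≤ ip q m ∧ ip q m ≤ (PP q)⁻¹ := by
  unfold ip
  split_ifs
  · exact ⟨(inv_pos.2 (po_pos h0 h1 _)).le, inv_anti₀ (PP_pos h0 h1) (PP_le h0 h1 _)⟩
  · exact ⟨le_rfl, (inv_pos.2 (PP_pos h0 h1)).le⟩

noncomputable def v (q : ℝ) (N r : ℕ) : ℝ := q ^ T r * (ip q (N - r) * ip q (N + r + 1))

lemma core (h0 : 0 < q) (h1 : q < 1) (a b : ℤ) :
    (1 - q ^ a * q ^ b) * (1 - q ^ a * q ^ b / q) * (ip q a * ip q b)
      = (1 + q ^ a * q ^ b / q) * (ip q (a - 1) * ip q (b - 1))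
        + q ^ a * (ip q a * ip q (b - 2)) + q ^ b * (ip q (a - 2) * ip q b) := by
  have e1 := ip_step h0 h1 (a - 1)
  have e2 := ip_step h0 h1 (a - 2)
  have e3 := ip_step h0 h1 (b - 1)
  have e4 := ip_step h0 h1 (b - 2)
  rw [show a - 2 + 1 = a - 1 by ring] at e2
  rw [show b - 2 + 1 = b - 1 by ring] at e4
  rw [sub_add_cancel] at e1 e3
  rw [zpow_sub_one₀ h0.ne'] at e2 e4
  rw [e2, e4, e1, e3]
  field_simp
  ring

lemma v_rec0 (h0 : 0 < q) (h1 : q < 1) (N : ℕ) :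
    (1 - q ^ (2 * N + 3)) * (1 - q ^ (2 * N + 2)) * v q (N + 1) 0
      = (1 + q ^ (2 * N + 2)) * v q N 0 + q ^ (N + 1) * v q N 0 + q ^ (N + 1) * v q N 1 := by
  have := core h0 h1 ((N + 1 : ℕ) : ℤ) ((N + 2 : ℕ) : ℤ)
  rw [zpow_natCast, zpow_natCast] at this
  have e1 : q ^ (N + 1) * q ^ (N + 2) = q ^ (2 * N + 3) := by ring
  have e2 : q ^ (2 * N + 3) / q = q ^ (2 * N + 2) := by field_simp; ring
  rw [e1, e2] at this
  simp only [v, T]
  push_cast at this ⊢
  rw [show (N : ℤ) + 1 - 1 = N - 0 by ring, show (N : ℤ) + 2 - 1 = N + 0 + 1 by ring,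
    show (N : ℤ) + 2 - 2 = N - 0 by ring, show (N : ℤ) + 1 - 2 = N - 1 by ring] at this
  rw [show (N : ℤ) + 1 - 0 = N + 1 by ring, show (N : ℤ) + 1 + 0 + 1 = N + 2 by ring,
    show (N : ℤ) + 1 + 1 = N + 2 by ring, show (N : ℤ) + 0 + 1 = N + 1 by ring] at *
  linear_combination this

lemma v_rec (h0 : 0 < q) (h1 : q < 1) (N r : ℕ) :
    (1 - q ^ (2 * N + 3)) * (1 - q ^ (2 * N + 2)) * v q (N + 1) (r + 1)
      = (1 + q ^ (2 * N + 2)) * v q N (r + 1) + q ^ (N + 1) * v q N r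
        + q ^ (N + 1) * v q N (r + 2) := by
  have := core h0 h1 ((N : ℤ) - r) ((N + r + 3 : ℕ) : ℤ)
  rw [zpow_natCast, zpow_sub₀ h0.ne', zpow_natCast, zpow_natCast] at this
  have e1 : q ^ N / q ^ r * q ^ (N + r + 3) = q ^ (2 * N + 3) := by field_simp; ring
  have e2 : q ^ (2 * N + 3) / q = q ^ (2 * N + 2) := by field_simp; ring
  rw [e1, e2] at this
  simp only [v, T]
  push_cast at this ⊢
  rw [show (N : ℤ) + 1 - (r + 1) = N - r by ring,
    show (N : ℤ) + 1 + (r + 1) + 1 = N + r + 3 by ring,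
    show (N : ℤ) - (r + 1) = N - r - 1 by ring,
    show (N : ℤ) + (r + 1) + 1 = N + r + 3 - 1 by ring,
    show (N : ℤ) + r + 1 = N + r + 3 - 2 by ring,
    show (N : ℤ) - (r + 2) = N - r - 2 by ring,
    show (N : ℤ) + (r + 2) + 1 = N + r + 3 by ring]
  have e3 : q ^ (T r + (r + 1)) * (q ^ N / q ^ r) = q ^ (N + 1) * q ^ T r := by
    field_simp; ring
  linear_combination q ^ (T r + (r + 1)) * this
    + (ip q (N - r) * ip q (N + r + 3 - 2)) * e3

lemma v_bd (h0 : 0 < q) (h1 : q < 1) (N r : ℕ) :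
    0 ≤ v q N r ∧ v q N r ≤ q ^ r * ((PP q)⁻¹ * (PP q)⁻¹) := by
  have a := ip_bd h0 h1 (N - r)
  have b := ip_bd h0 h1 (N + r + 1)
  have a1 := a.1
  have b1 := b.1
  refine ⟨by unfold v; positivity, ?_⟩
  unfold v
  refine mul_le_mul (pow_le_pow_of_le_one h0.le h1.le (le_T r))
    (mul_le_mul a.2 b.2 b1 (a1.trans a.2)) (by positivity) (by positivity)

lemma geo2 (h0 : 0 < q) (h1 : q < 1) (c : ℝ) :
    Summable fun r : ℕ => (2 * (r : ℝ) + 3) * (q ^ r * c) := by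
  have s1 := summable_pow_mul_geometric_of_norm_lt_one (R := ℝ) 1 (r := q)
    (by rwa [Real.norm_eq_abs, abs_of_pos h0])
  have s0 := summable_geometric_of_lt_one h0.le h1
  refine (((s1.mul_left 2).add (s0.mul_left 3)).mul_right c).congr fun r => ?_
  ring

lemma sm (h0 : 0 < q) (h1 : q < 1) (N : ℕ) (c : ℝ) (hc : |c| ≤ 3) :
    Summable fun r : ℕ => (-1 : ℝ) ^ r * (2 * r + c) * v q N r := by
  refine Summable.of_norm_bounded (geo2 h0 h1 ((PP q)⁻¹ * (PP q)⁻¹)) fun r => ?_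
  have := v_bd h0 h1 N r
  rw [norm_mul, norm_mul, norm_pow, norm_neg, norm_one, one_pow, one_mul, Real.norm_eq_abs,
    Real.norm_eq_abs, abs_of_nonneg this.1]
  refine mul_le_mul ?_ this.2 this.1 (by positivity)
  rw [abs_le] at hc ⊢
  have : (0 : ℝ) ≤ r := by positivity
  constructor <;> linarith

lemma hsc {f g : ℕ → ℝ} {a : ℝ} (h : HasSum f a) (e : ∀ r, g r = f r) : HasSum g a := by
  rw [funext e]; exact h

noncomputable def S (q : ℝ) (N : ℕ) : ℝ := ∑' r : ℕ, (-1 : ℝ) ^ r * (2 * r + 1) * v q N r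

lemma S_rec (h0 : 0 < q) (h1 : q < 1) (N : ℕ) :
    (1 - q ^ (2 * N + 3)) * (1 - q ^ (2 * N + 2)) * S q (N + 1)
      = (1 - q ^ (N + 1)) ^ 2 * S q N := by
  have s1 := (sm h0 h1 N 1 (by norm_num)).hasSum
  have s3 := (sm h0 h1 N 3 (by norm_num)).hasSum
  have sm1 := (sm h0 h1 N (-1) (by norm_num)).hasSum
  have t1 := (sm h0 h1 (N + 1) 1 (by norm_num)).hasSum
  have hsum : (∑' r : ℕ, (-1 : ℝ) ^ r * (2 * r + 3) * v q N r)
      + (∑' r : ℕ, (-1 : ℝ) ^ r * (2 * r + -1) * v q N r) = 2 * S q N :=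
    (s3.add sm1).unique (hsc (s1.mul_left 2) (by intro r; ring))
  rw [← hasSum_nat_add_iff' 1] at s1 t1
  rw [← hasSum_nat_add_iff' 2] at sm1
  have u := (t1.mul_left ((1 - q ^ (2 * N + 3)) * (1 - q ^ (2 * N + 2)))).unique
    (hsc (((s1.mul_left (1 + q ^ (2 * N + 2))).sub (s3.mul_left (q ^ (N + 1)))).sub
      (sm1.mul_left (q ^ (N + 1)))) (by
        intro r
        have := v_rec h0 h1 N r
        push_cast
        linear_combination ((-1 : ℝ) ^ (r + 1) * (2 * r + 3)) * this))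
  have r0 := v_rec0 h0 h1 N
  simp only [sum_range_succ, sum_range_zero] at u
  unfold S at *
  push_cast at u
  linear_combination u + r0 - q ^ (N + 1) * hsum

lemma S_eq (h0 : 0 < q) (h1 : q < 1) (N : ℕ) : S q N = po q N ^ 2 / po q (2 * N + 1) := by
  induction N with
  | zero =>
    unfold S
    rw [tsum_eq_single 0]
    · simp [v, T, ip, po]
    · intro r hr
      have : r = 0 ↔ False := by simp [hr]
      simp [v, ip, this]
  | succ N ih =>
    have h := S_rec h0 h1 N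
    have a := (fac_pos h0 h1 (2 * N + 2)).ne'
    have b := (fac_pos h0 h1 (2 * N + 1)).ne'
    have c := (po_pos h0 h1 (2 * N + 1)).ne'
    have e1 : po q (N + 1) = po q N * (1 - q ^ (N + 1)) := prod_range_succ _ _
    have e2 : po q (2 * (N + 1) + 1)
        = po q (2 * N + 1) * (1 - q ^ (2 * N + 1 + 1)) * (1 - q ^ (2 * N + 2 + 1)) := by
      unfold po
      rw [show 2 * (N + 1) + 1 = 2 * N + 1 + 1 + 1 by ring, prod_range_succ, prod_range_succ]
    rw [e1, e2, eq_div_iff (mul_ne_zero (mul_ne_zero c b) a)]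
    rw [ih] at h
    have h2 : (1 - q ^ (N + 1)) ^ 2 * (po q N ^ 2 / po q (2 * N + 1)) * po q (2 * N + 1)
        = (po q N * (1 - q ^ (N + 1))) ^ 2 := by field_simp
    rw [← h2, ← h]
    ring

noncomputable def a (q : ℝ) (j : ℕ) : ℝ := (2 * j + 1) * q ^ T j

theorem jacobi (h0 : 0 < q) (h1 : q < 1) :
    HasSum (fun j : ℕ => (-1 : ℝ) ^ j * a q j) (PP q ^ 3) := by
  have hP := PP_pos h0 h1
  have hinv : Tendsto (fun m => (po q m)⁻¹) atTop (𝓝 (PP q)⁻¹) := (po_tend h0 h1).inv₀ hP.ne'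
  have t1 : Tendsto (S q) atTop
      (𝓝 (∑' r : ℕ, (-1 : ℝ) ^ r * (2 * r + 1) * (q ^ T r * ((PP q)⁻¹ * (PP q)⁻¹)))) := by
    refine tendsto_tsum_of_dominated_convergence (geo2 h0 h1 ((PP q)⁻¹ * (PP q)⁻¹)) (fun r => ?_)
      (Eventually.of_forall fun N r => ?_)
    · refine Tendsto.const_mul _ (Tendsto.const_mul _ (Tendsto.mul ?_ ?_))
      · refine (hinv.comp (tendsto_sub_atTop_nat r)).congr' ?_
        filter_upwards [eventually_ge_atTop r] with N hN
        rw [Function.comp_apply, ← ip_nat, Nat.cast_sub hN]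
      · refine (hinv.comp (tendsto_add_atTop_nat (r + 1))).congr fun N => ?_
        rw [Function.comp_apply, ← ip_nat]; push_cast; rw [add_assoc]
    · have := v_bd h0 h1 N r
      rw [norm_mul, norm_mul, norm_pow, norm_neg, norm_one, one_pow, one_mul, Real.norm_eq_abs,
        Real.norm_eq_abs, abs_of_nonneg this.1, abs_of_nonneg (by positivity)]
      exact mul_le_mul (by linarith) this.2 this.1 (by positivity)
  have t2 : Tendsto (S q) atTop (𝓝 (PP q ^ 2 / PP q)) := by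
    have : Tendsto (fun N : ℕ => 2 * N + 1) atTop atTop :=
      tendsto_atTop_mono (fun N => by simp only [id]; omega) tendsto_id
    exact (((po_tend h0 h1).pow 2).div ((po_tend h0 h1).comp this) hP.ne').congr
      fun N => (S_eq h0 h1 N).symm
  have e := tendsto_nhds_unique t1 t2
  have hs : Summable fun j : ℕ => (-1 : ℝ) ^ j * a q j := by
    refine Summable.of_norm_bounded (geo2 h0 h1 1) fun r => ?_
    rw [norm_mul, norm_pow, norm_neg, norm_one, one_pow, one_mul, a, Real.norm_eq_abs,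
      abs_of_nonneg (by positivity), mul_one]
    exact mul_le_mul (by linarith) (pow_le_pow_of_le_one h0.le h1.le (le_T r)) (by positivity)
      (by positivity)
  have e2 := (hs.hasSum.mul_right ((PP q)⁻¹ * (PP q)⁻¹)).tsum_eq
  have e3 : (∑' j : ℕ, (-1 : ℝ) ^ j * a q j) * ((PP q)⁻¹ * (PP q)⁻¹) = PP q ^ 2 / PP q := by
    rw [← e, ← e2]; congr 1; funext r; unfold a; ring
  have e4 : ∑' j : ℕ, (-1 : ℝ) ^ j * a q j = PP q ^ 3 := by
    field_simp at e3; exact e3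
  rw [← e4]; exact hs.hasSum

end Pool.Agent.H3.Vs
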