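import Pool.Agent.H3.VsB

open Filter Topology Finset Polynomial

namespace Pool.Agent.H3.Vs

noncomputable def pp (n : ℕ) : ℝ[X] :=
  ∑ j ∈ range (n + 1), C ((-1 : ℝ) ^ j * (2 * j + 1)) * X ^ (j ^ 2 + j)

lemma pp_eval (n : ℕ) (x : ℝ) : (pp n).eval x = P n (x ^ 2) := by
  unfold pp P a
  rw [eval_finset_sum]
  refine sum_congr rfl fun j _ => ?_
  rw [eval_mul, eval_C, eval_pow, eval_X, ← pow_mul, two_T]; ring

lemma P_at0 (n : ℕ) : P n 0 = 1 := by
  unfold P
  rw [sum_eq_single 0]
  · simp [a, T]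
  · intro j _ hj
    have : T j ≠ 0 := by have := le_T j; omega
    simp [a, this]
  · simp

theorem even_case (m : ℕ) (x : ℝ) : 0 < (pp (2 * m)).eval x := by
  rw [pp_eval]
  by_cases hx : x = 0
  · subst hx; simp [P_at0]
  · exact even_pos m (by positivity)

theorem odd_case (m : ℕ) (hm : 1 ≤ m) :
    ∃ x : ℝ, 0 < x ∧ (pp (2 * m + 1)).roots = {x, -x} := by
  have hc := (P_diff (2 * m + 1)).continuous
  have h1 : P (2 * m + 1) 1 < 0 := odd_neg m hm one_pos fun h => lt_irrefl _ (A_lt h)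
  obtain ⟨r, hr, hr0⟩ : (0 : ℝ) ∈ P (2 * m + 1) '' Set.Ioo 0 1 :=
    intermediate_value_Ioo' zero_le_one hc.continuousOn ⟨h1, by rw [P_at0]; norm_num⟩
  have inA : ∀ q, 0 < q → P (2 * m + 1) q = 0 → q ∈ A (2 * m + 1) := by
    intro q h0 h
    by_contra hn
    exact (odd_neg m hm h0 hn).ne h
  have sa : StrictAntiOn (P (2 * m + 1)) (A (2 * m + 1)) :=
    strictAntiOn_of_deriv_neg (A_conv _) hc.continuousOn
      fun q hq => deriv_neg m (interior_subset hq)
  have uniq : ∀ q, 0 < q → P (2 * m + 1) q = 0 → q = r := fun q h0 h =>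
    sa.injOn (inA q h0 h) (inA r hr.1 hr0) (h.trans hr0.symm)
  have hne : pp (2 * m + 1) ≠ 0 := by
    intro h
    have := pp_eval (2 * m + 1) 0
    rw [h] at this
    simp [P_at0] at this
  have hs : 0 < Real.sqrt r := Real.sqrt_pos.2 hr.1
  have hsq : Real.sqrt r ^ 2 = r := Real.sq_sqrt hr.1.le
  have root : ∀ x, (pp (2 * m + 1)).IsRoot x ↔ x ^ 2 = r := by
    intro x
    rw [IsRoot.def, pp_eval]
    constructor
    · intro h
      by_cases hx : x = 0
      · subst hx; simp [P_at0] at h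
      · exact uniq _ (by positivity) h
    · intro h; rw [h, hr0]
  refine ⟨Real.sqrt r, hs, ?_⟩
  have nd : (pp (2 * m + 1)).roots.Nodup := by
    classical
    rw [Multiset.nodup_iff_count_le_one]
    intro x
    rw [count_roots]
    by_contra hn
    have h2 := (one_lt_rootMultiplicity_iff_isRoot hne).1 (not_le.1 hn)
    have hx := (root x).1 h2.1
    have d1 : HasDerivAt (fun y => P (2 * m + 1) (y ^ 2))
        (deriv (P (2 * m + 1)) (x ^ 2) * (2 * x)) x := by
      have := (P_diff (2 * m + 1) (x ^ 2)).hasDerivAt.comp x (hasDerivAt_pow 2 x)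
      simpa [Function.comp_def] using this
    have d2 := (pp (2 * m + 1)).hasDerivAt x
    simp only [pp_eval] at d2
    have d3 := d2.unique d1
    rw [h2.2.eq_zero, hx] at d3
    have d4 := deriv_neg m (inA r hr.1 hr0)
    have hx0 : x ≠ 0 := by
      rintro rfl
      have := hr.1
      rw [← hx] at this; simp at this
    rcases mul_eq_zero.1 d3.symm with h | h
    · exact d4.ne h
    · exact hx0 (by linarith)
  have nd2 : ({Real.sqrt r, -Real.sqrt r} : Multiset ℝ).Nodup := by
    simp only [Multiset.insert_eq_cons, Multiset.nodup_cons, Multiset.mem_singleton,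
      Multiset.nodup_singleton, and_true]
    intro h; linarith
  rw [Multiset.Nodup.ext nd nd2]
  intro x
  rw [mem_roots hne, root, ← hsq, sq_eq_sq_iff_eq_or_eq_neg]
  simp [hsq]

end Pool.Agent.H3.Vs
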