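import Mathlib

set_option autoImplicit false

namespace Pool.Agent.H3.WSeq

open Filter Topology

/-- a walk with steps of sup-size at most one visiting every rational finite vector often -/
lemma walk : ∃ y : ℕ → ℤ → ℝ, (∀ m j, |y (m + 1) j - y m j| ≤ 1) ∧ (∀ j, y 0 j = 0) ∧
    (∀ (m : ℕ) (j : ℤ), (m : ℤ) < |j| → y m j = 0) ∧
    ∀ (q : ℤ →₀ ℚ) (N : ℕ), ∃ m, N ≤ m ∧ ∀ j, y m j = q j := by
  classical
  obtain ⟨g, hg⟩ := exists_surjective_nat (ℤ →₀ ℚ)
  let ok : (ℤ →₀ ℚ) → ℕ → Prop := fun q b => ∀ j, |(q j : ℝ)| ≤ b ∧ ((b : ℤ) < |j| → q j = 0)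
  let p : ℕ → ℤ → ℝ := fun b j => if ok (g b.unpair.1) b then (g b.unpair.1 j : ℝ) / b else 0
  have hp : ∀ b j, |p b j| ≤ 1 := by
    intro b j
    simp only [p]
    split_ifs with h
    · rw [abs_div, Nat.abs_cast]
      exact div_le_one_of_le₀ (h j).1 (Nat.cast_nonneg b)
    · simp
  let τ : ℕ → ℤ := fun m => min ((m : ℤ) - m.sqrt * m.sqrt) (m.sqrt * m.sqrt + 2 * m.sqrt - m)
  refine ⟨fun m j => τ m * p m.sqrt j, fun m j => ?_, fun j => by simp [τ], fun m j h => ?_,
    fun q N => ?_⟩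
  · have a1 : m.sqrt * m.sqrt ≤ m := Nat.sqrt_le m
    have a2 : m < (m.sqrt + 1) * (m.sqrt + 1) := Nat.lt_succ_sqrt m
    rcases lt_or_ge (m + 1) ((m.sqrt + 1) * (m.sqrt + 1)) with h | h
    · have e : (m + 1).sqrt = m.sqrt := (Nat.eq_sqrt.mpr ⟨by omega, h⟩).symm
      have h1 : |τ (m + 1) - τ m| ≤ 1 := by
        simp only [τ, e]
        push_cast
        rw [abs_le]
        omega
      have h2 : |((τ (m + 1) : ℝ)) - τ m| ≤ 1 := by exact_mod_cast h1
      beta_reduce
      rw [e, ← sub_mul, abs_mul]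
      exact mul_le_one₀ h2 (abs_nonneg _) (hp _ _)
    · have e0 : m + 1 = (m.sqrt + 1) * (m.sqrt + 1) := by omega
      have e : (m + 1).sqrt = m.sqrt + 1 := by rw [e0, Nat.sqrt_eq]
      have e1 : (m : ℤ) + 1 = (m.sqrt + 1) * (m.sqrt + 1) := by exact_mod_cast e0
      have h1 : τ (m + 1) = 0 := by
        simp only [τ, e]
        push_cast
        rw [e1]
        omega
      have h2 : τ m = 0 := by
        simp only [τ]
        have : (m : ℤ) = m.sqrt * m.sqrt + 2 * m.sqrt := by linarith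
        omega
      simp [h1, h2]
  · have : p m.sqrt j = 0 := by
      simp only [p]
      split_ifs with h'
      · have h1 : (m.sqrt : ℤ) ≤ m := by exact_mod_cast Nat.sqrt_le_self m
        rw [(h' j).2 (by omega)]; simp
      · rfl
    simp [this]
  · obtain ⟨i, rfl⟩ := hg q
    obtain ⟨B, hB⟩ : ∃ B : ℕ, ∀ b, B ≤ b → ok (g i) b := by
      obtain ⟨B1, h1⟩ := ((g i).support.finite_toSet.image fun j => |(g i j : ℝ)|).bddAbove
      obtain ⟨B2, h2⟩ := ((g i).support.finite_toSet.image fun j : ℤ => |j|).bddAbove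
      refine ⟨max ⌈B1⌉₊ B2.toNat, fun b hb j => ?_⟩
      by_cases hj : j ∈ (g i).support
      · refine ⟨(h1 ⟨j, hj, rfl⟩).trans ((Nat.le_ceil _).trans ?_), fun h => ?_⟩
        · exact_mod_cast (le_max_left _ _).trans hb
        · have h3 : |j| ≤ B2 := h2 ⟨j, hj, rfl⟩
          have := (le_max_right _ _).trans hb
          omega
      · rw [Finsupp.notMem_support_iff.mp hj]; simp
    set b := Nat.pair i (B + N + 1) with hb
    have hb1 : B + N + 1 ≤ b := Nat.right_le_pair _ _
    have e : (b * b + b).sqrt = b := Nat.sqrt_add_eq b (by omega)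
    refine ⟨b * b + b, by omega, fun j => ?_⟩
    have h1 : τ (b * b + b) = b := by
      simp only [τ, e]
      push_cast
      omega
    have h2 : b.unpair.1 = i := by simp [hb]
    have h3 : (b : ℝ) ≠ 0 := by exact_mod_cast (by omega : b ≠ 0)
    simp only [h1, e, p, h2, if_pos (hB b (by omega))]
    push_cast
    field_simp

def N : ℕ → ℤ
  | 0 => 10
  | k + 1 => 3 * N k + 10 * k + 20

lemma N_ge (k : ℕ) : 10 * (k : ℤ) + 10 ≤ N k := by
  induction k with
  | zero => simp [N]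
  | succ k ih => simp only [N]; push_cast; omega

lemma gap {a b : ℕ} (h : a < b) : 3 * N a + 10 * b + 10 ≤ N b := by
  induction b, h using Nat.le_induction with
  | base => simp only [N]; push_cast; omega
  | succ k _ ih => have := N_ge k; simp only [N]; push_cast; omega

lemma uniq {k a k' a' : ℕ} {u u' : ℤ} (h : a < k) (h' : a' < k') (hu : |u| ≤ 2 * a + 3)
    (hu' : |u'| ≤ 2 * a' + 3) (e : N k - N a + u = N k' - N a' + u') : k = k' ∧ a = a' := by
  rw [abs_le] at hu hu'
  have g1 := gap h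
  have g2 := gap h'
  have n1 := N_ge a
  have n2 := N_ge a'
  have hk : k = k' := by
    rcases lt_trichotomy k k' with h1 | h1 | h1
    · have := gap h1; omega
    · exact h1
    · have := gap h1; omega
  subst hk
  refine ⟨rfl, ?_⟩
  rcases lt_trichotomy a a' with h1 | h1 | h1
  · have := gap h1; omega
  · exact h1
  · have := gap h1; omega

def P (n : ℤ) (m : ℕ) : Prop :=
  ∃ (k : ℕ) (u : ℤ), m + 3 ≤ k ∧ |u| ≤ 2 * (m + 1) ∧ n = N k - N (m + 1) + u

def G (i : ℤ) : Prop := 0 ≤ i ∧ ∀ m, ¬ P i m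

def δ (m : ℕ) : ℤ := N (m + 1) - N m

lemma G_of {k a : ℕ} {u : ℤ} (h : a < k) (hu : |u| ≤ 2 * a + 3) (h2 : k = a + 1 ∨ 2 * a < |u|) :
    G (N k - N a + u) := by
  refine ⟨?_, ?_⟩
  · have := gap h; have := N_ge a; rw [abs_le] at hu; omega
  · rintro m ⟨k', u', h1, h3, e⟩
    obtain ⟨rfl, rfl⟩ := uniq h (by omega : m + 1 < k') hu (by push_cast; omega) e
    have : u = u' := by omega
    subst this
    push_cast at h2
    omega

lemma G_zero : G 0 := by
  refine ⟨le_rfl, ?_⟩
  rintro m ⟨k, u, h1, h3, e⟩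
  have := gap (by omega : m + 1 < k)
  have := N_ge (m + 1)
  rw [abs_le] at h3
  push_cast at *
  omega

lemma G_δ (m : ℕ) : G (δ m) := by
  simpa [δ] using G_of (k := m + 1) (a := m) (u := 0) (by omega) (by simp; omega) (Or.inl rfl)

lemma G_start {n : ℤ} {m : ℕ} (h : P n m) (h' : ¬ P (n - 1) m) : G (n - 1) ∧ G (n - 1 + δ m) := by
  obtain ⟨k, u, h1, h2, rfl⟩ := h
  have hu : u = -(2 * (m + 1)) := by
    by_contra hc
    refine h' ⟨k, u - 1, h1, ?_, by ring⟩
    rw [abs_le] at h2 ⊢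
    omega
  have ha : |u - 1| = 2 * m + 3 := by rw [abs_of_neg (by omega)]; omega
  constructor
  · have := G_of (k := k) (a := m + 1) (u := u - 1) (by omega) (by push_cast; omega)
      (Or.inr (by push_cast; omega))
    rwa [← add_sub_assoc] at this
  · have := G_of (k := k) (a := m) (u := u - 1) (by omega) (by omega) (Or.inr (by omega))
    convert this using 1
    unfold δ
    ring

lemma P_pos {n : ℤ} {m : ℕ} (h : P n m) : 0 < n ∧ 0 < n + δ m := by
  obtain ⟨k, u, h1, h2, rfl⟩ := h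
  have := gap (by omega : m + 1 < k)
  have := gap (by omega : m < m + 1)
  have := N_ge (m + 1)
  have := N_ge m
  rw [abs_le] at h2
  unfold δ
  push_cast at *
  omega

end Pool.Agent.H3.WSeq
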