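import Pool.Agent.H3.WSeqA

set_option autoImplicit false

namespace Pool.Agent.H3.WSeq

open Filter Topology BoundedContinuousFunction Classical

abbrev Φ : Type := ℤ × ℕ × Bool

abbrev Z : Type := Φ →ᵇ ℝ

noncomputable def ι (v : ℤ → ℝ) : Φ → ℝ
  | (i, r, true) => if G i then (1 / 2) ^ r * v (i - r) else 0
  | (n, m, false) => if P n m then v n - v (n + δ m) else 0

def Rep (u : Z) (v : ℤ → ℝ) : Prop := ∀ φ, u φ = ι v φ

lemma ι_add (v w : ℤ → ℝ) (φ : Φ) : ι (v + w) φ = ι v φ + ι w φ := by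
  obtain ⟨i, r, _ | _⟩ := φ <;> simp only [ι, Pi.add_apply] <;> split_ifs <;> ring

lemma ι_smul (c : ℝ) (v : ℤ → ℝ) (φ : Φ) : ι (c • v) φ = c * ι v φ := by
  obtain ⟨i, r, _ | _⟩ := φ <;> simp only [ι, Pi.smul_apply, smul_eq_mul] <;> split_ifs <;> ring

lemma Rep.add {u u' : Z} {v v' : ℤ → ℝ} (h : Rep u v) (h' : Rep u' v') : Rep (u + u') (v + v') :=
  fun φ => by rw [ι_add, ← h, ← h']; rfl

lemma Rep.smul {u : Z} {v : ℤ → ℝ} (c : ℝ) (h : Rep u v) : Rep (c • u) (c • v) :=
  fun φ => by rw [ι_smul, ← h]; rfl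

lemma Rep.sub {u u' : Z} {v v' : ℤ → ℝ} (h : Rep u v) (h' : Rep u' v') :
    Rep (u - u') (v - v') := by
  intro φ
  rw [sub_eq_add_neg v, ← neg_one_smul ℝ v', ι_add, ι_smul, ← h, ← h', coe_sub, Pi.sub_apply]
  ring

lemma Rep.uniq {u u' : Z} {v : ℤ → ℝ} (h : Rep u v) (h' : Rep u' v) : u = u' :=
  BoundedContinuousFunction.ext fun φ => (h φ).trans (h' φ).symm

lemma ι_le {v : ℤ → ℝ} {C : ℝ} (h : ∀ j, |v j| ≤ C) (φ : Φ) : |ι v φ| ≤ 2 * C := by
  have h0 : 0 ≤ C := (abs_nonneg _).trans (h 0)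
  obtain ⟨i, r, _ | _⟩ := φ <;> simp only [ι] <;> split_ifs
  · linarith [abs_sub (v i) (v (i + δ r)), h i, h (i + δ r)]
  · simpa using h0
  · rw [abs_mul, abs_of_pos (by positivity)]
    have : (1 / 2 : ℝ) ^ r ≤ 1 := pow_le_one₀ (by norm_num) (by norm_num)
    nlinarith [h (i - r), abs_nonneg (v (i - r))]
  · simpa using h0

noncomputable def E (j : ℤ) : Z :=
  ofNormedAddCommGroupDiscrete (ι (Pi.single j 1)) (2 * 1) (ι_le fun i => by
    rw [Pi.single_apply]; split_ifs <;> simp)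

lemma rep_E (j : ℤ) : Rep (E j) (Pi.single j 1) := fun _ => rfl

noncomputable def Tf (u : Z) : Φ → ℝ
  | (i, r, true) => 2 * u (i, r + 1, true)
  | (n, m, false) => if P n m then (if P (n - 1) m then u (n - 1, m, false)
      else u (n - 1, 0, true) - u (n - 1 + δ m, 0, true)) else 0

lemma Tf_le (u : Z) (φ : Φ) : ‖Tf u φ‖ ≤ 2 * ‖u‖ := by
  have h : ∀ φ, |u φ| ≤ ‖u‖ := u.norm_coe_le_norm
  have h0 := norm_nonneg u
  obtain ⟨i, r, _ | _⟩ := φ <;> simp only [Tf, Real.norm_eq_abs]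
  · split_ifs
    · linarith [h (i - 1, r, false)]
    · linarith [abs_sub (u (i - 1, 0, true)) (u (i - 1 + δ r, 0, true)), h (i - 1, 0, true),
        h (i - 1 + δ r, 0, true)]
    · simpa using h0
  · rw [abs_mul, abs_two]; linarith [h (i, r + 1, true)]

noncomputable def T0 : Z →L[ℝ] Z :=
  LinearMap.mkContinuous
    { toFun := fun u => ofNormedAddCommGroupDiscrete (Tf u) _ (Tf_le u)
      map_add' := fun u u' => by
        ext ⟨i, r, _ | _⟩ <;> simp only [coe_ofNormedAddCommGroupDiscrete, Tf, coe_add,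
          Pi.add_apply]
        · split_ifs <;> ring
        · ring
      map_smul' := fun c u => by
        ext ⟨i, r, _ | _⟩ <;> simp only [coe_ofNormedAddCommGroupDiscrete, Tf, coe_smul,
          RingHom.id_apply, smul_eq_mul]
        · split_ifs <;> ring
        · ring } 2
    fun u => (norm_le (by positivity)).mpr (Tf_le u)

lemma T0_apply (u : Z) (φ : Φ) : T0 u φ = Tf u φ := rfl

lemma Rep.T {u : Z} {v : ℤ → ℝ} (h : Rep u v) : Rep (T0 u) (fun j => v (j - 1)) := by
  rintro ⟨i, r, _ | _⟩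
  · simp only [T0_apply, Tf, h _, ι]
    by_cases h1 : P i r
    · by_cases h2 : P (i - 1) r
      · simp only [h1, h2, if_true]; congr 2; ring
      · obtain ⟨h3, h4⟩ := G_start h1 h2
        simp only [h1, h2, h3, h4, if_true, if_false]
        simp
        congr 1; ring
    · simp [h1]
  · simp only [T0_apply, Tf, h _, ι]
    split_ifs
    · push_cast
      rw [pow_succ, show i - (r + 1) = i - r - 1 by ring]
      ring
    · simp

lemma Rep.Tpow {u : Z} {v : ℤ → ℝ} (h : Rep u v) (n : ℕ) :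
    Rep ((T0 ^ n) u) (fun j => v (j - n)) := by
  induction n with
  | zero => simpa using h
  | succ n ih =>
    rw [pow_succ']
    have e : (fun j => v (j - (n + 1 : ℕ))) = fun j => v (j - 1 - n) := by
      funext j; congr 1; push_cast; ring
    rw [e]
    exact ih.T

noncomputable def X : Submodule ℝ Z := (Submodule.span ℝ (Set.range E)).topologicalClosure

lemma E_mem (j : ℤ) : E j ∈ X :=
  Submodule.le_topologicalClosure _ (Submodule.subset_span ⟨j, rfl⟩)

lemma X_le (Y : Submodule ℝ Z) (hY : IsClosed (Y : Set Z)) (h : ∀ j, E j ∈ Y) : X ≤ Y :=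
  Submodule.topologicalClosure_minimal _ (Submodule.span_le.mpr (by
    rintro _ ⟨j, rfl⟩; exact h j)) hY

lemma X_closed : IsClosed (X : Set Z) := Submodule.isClosed_topologicalClosure _

lemma T_mem : ∀ u ∈ X, T0 u ∈ X := by
  refine X_le (X.comap T0.toLinearMap) (X_closed.preimage T0.continuous) fun j => ?_
  have : T0 (E j) = E (j + 1) := (rep_E j).T.uniq (by
    convert rep_E (j + 1) using 2 with i
    simp only [Pi.single_apply, sub_eq_iff_eq_add])
  change T0 (E j) ∈ X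
  rw [this]
  exact E_mem _

noncomputable def ev (φ : Φ) : Z →L[ℝ] ℝ := evalCLM ℝ φ

lemma ev_apply (φ : Φ) (u : Z) : ev φ u = u φ := rfl

lemma fun_eq (f g : Z →L[ℝ] ℝ) (h : ∀ j, f (E j) = g (E j)) (u : Z) (hu : u ∈ X) : f u = g u :=
  X_le (LinearMap.eqLocus f.toLinearMap g.toLinearMap) (isClosed_eq f.continuous g.continuous) h hu

lemma lower (n : ℕ) (u : Z) (hu : u ∈ X) (h : ‖u - E 0‖ < 1 / 4) : 1 / 2 ≤ ‖(T0 ^ n) u‖ := by
  have hc : ∀ φ, |u φ - ι (Pi.single 0 1) φ| < 1 / 4 := fun φ =>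
    ((u - E 0).norm_coe_le_norm φ).trans_lt h
  have h0 := hc (0, 0, true)
  simp only [ι, G_zero, if_true] at h0
  norm_num at h0
  rw [abs_lt] at h0
  by_cases hG : G n
  · have : (T0 ^ n) u (n, 0, true) = u (0, 0, true) := by
      refine fun_eq (ev (n, 0, true) ∘L (T0 ^ n)) (ev (0, 0, true)) (fun j => ?_) u hu
      simp only [ContinuousLinearMap.comp_apply, ev_apply]
      rw [(rep_E j).Tpow n, rep_E j]
      simp [ι, hG, G_zero]
    have h2 := ((T0 ^ n) u).norm_coe_le_norm (n, 0, true)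
    rw [this] at h2
    linarith [le_abs_self (u (0, 0, true)), Real.norm_eq_abs (u (0, 0, true))]
  · obtain ⟨m, hm⟩ : ∃ m, P n m := by
      by_contra hc
      exact hG ⟨by positivity, fun m hm => hc ⟨m, hm⟩⟩
    have : (T0 ^ n) u (n, m, false) = u (0, 0, true) - u (δ m, 0, true) := by
      refine fun_eq (ev (n, m, false) ∘L (T0 ^ n)) (ev (0, 0, true) - ev (δ m, 0, true))
        (fun j => ?_) u hu
      simp only [ContinuousLinearMap.comp_apply, ContinuousLinearMap.sub_apply, ev_apply]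
      rw [(rep_E j).Tpow n, rep_E j, rep_E j]
      simp [ι, hm, G_zero, G_δ]
    have h2 := ((T0 ^ n) u).norm_coe_le_norm (n, m, false)
    rw [this] at h2
    have h3 := hc (δ m, 0, true)
    have h4 : δ m ≠ 0 := by have := gap (Nat.lt_add_one m); have := N_ge m; unfold δ; omega
    simp only [ι, G_δ, if_true] at h3
    simp [h4] at h3
    rw [abs_lt] at h3
    linarith [le_abs_self (u (0, 0, true) - u (δ m, 0, true)),
      Real.norm_eq_abs (u (0, 0, true) - u (δ m, 0, true))]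

lemma rep_fin (s : Finset ℤ) (v : ℤ → ℝ) (h : ∀ j ∉ s, v j = 0) :
    Rep (∑ j ∈ s, v j • E j) v := by
  have h1 : ∀ t : Finset ℤ, Rep (∑ j ∈ t, v j • E j) (∑ j ∈ t, v j • Pi.single j 1) := by
    intro t
    induction t using Finset.induction_on with
    | empty => intro φ; simpa using (ι_smul 0 0 φ).symm
    | insert j t hj ih => rw [Finset.sum_insert hj, Finset.sum_insert hj]
                          exact ((rep_E j).smul _).add ih
  convert h1 s using 1
  funext i
  simp only [Finset.sum_apply, Pi.smul_apply, Pi.single_apply, smul_eq_mul, mul_ite, mul_one,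
    mul_zero, Finset.sum_ite_eq]
  split_ifs with hi
  · rfl
  · exact h i hi

lemma neg_le {v : ℤ → ℝ} {ε : ℝ} (hε : 0 ≤ ε)
    (h : ∀ j, v j = 0 ∨ (j < 0 ∧ |v j| ≤ ε * 2 ^ (-j).toNat)) (φ : Φ) : |ι v φ| ≤ ε := by
  obtain ⟨i, r, _ | _⟩ := φ <;> simp only [ι] <;> split_ifs with h1
  · obtain ⟨h2, h3⟩ := P_pos h1
    rw [(h i).resolve_right (fun h => by omega), (h _).resolve_right (fun h => by omega)]
    simpa using hε
  · simpa using hε
  · rcases h (i - r) with h2 | ⟨-, h2⟩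
    · simpa [h2] using hε
    · have h3 : (2 : ℝ) ^ (-(i - r)).toNat ≤ 2 ^ r :=
        pow_le_pow_right₀ (by norm_num) (by have := h1.1; omega)
      rw [abs_mul, abs_of_pos (by positivity), one_div, inv_pow, inv_mul_le_iff₀ (by positivity)]
      nlinarith
  · simpa using hε

end Pool.Agent.H3.WSeq
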