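import Pool.Agent.H3.WSeqB

set_option autoImplicit false

namespace Pool.Agent.H3.WSeq

open Filter Topology BoundedContinuousFunction Classical

structure Walk (y : ℕ → ℤ → ℝ) : Prop where
  step : ∀ m j, |y (m + 1) j - y m j| ≤ 1
  zero : ∀ j, y 0 j = 0
  supp : ∀ (m : ℕ) (j : ℤ), (m : ℤ) < |j| → y m j = 0

variable {y : ℕ → ℤ → ℝ}

lemma Walk.bd (h : Walk y) (m : ℕ) (j : ℤ) : |y m j| ≤ 2 ^ m := by
  induction m with
  | zero => simp [h.zero]
  | succ m ih =>
    have h1 := abs_sub_abs_le_abs_sub (y (m + 1) j) (y m j)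
    have h2 : (1 : ℝ) ≤ 2 ^ m := one_le_pow₀ (by norm_num)
    rw [pow_succ]
    linarith [h.step m j]

noncomputable def xx (y : ℕ → ℤ → ℝ) (j : ℤ) : ℝ :=
  if h : ∃ a : ℕ, |j + N a| ≤ a then y h.choose (j + N h.choose) else 0

lemma Walk.xw (h : Walk y) {a : ℕ} {j : ℤ} (hj : |j + N a| ≤ 2 * a + 3) :
    xx y j = y a (j + N a) := by
  unfold xx
  split_ifs with h1
  · have h2 := h1.choose_spec
    generalize h1.choose = b at h2
    rw [abs_le] at hj h2
    have := N_ge a
    have := N_ge b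
    rcases lt_trichotomy a b with h3 | rfl | h3
    · have := gap h3; omega
    · rfl
    · have := gap h3; omega
  · exact (h.supp _ _ (by by_contra hc; exact h1 ⟨a, by omega⟩)).symm

lemma x0 (y : ℕ → ℤ → ℝ) (j : ℤ) :
    xx y j = 0 ∨ ∃ a : ℕ, |j + N a| ≤ a ∧ xx y j = y a (j + N a) := by
  unfold xx
  split_ifs with h1
  · exact Or.inr ⟨_, h1.choose_spec, rfl⟩
  · exact Or.inl rfl

lemma Walk.small (h : Walk y) {a K : ℕ} {j : ℤ} (u : ℤ) (hj : (a : ℤ) + K ≤ -j) :
    |y a u| ≤ (1 / 2) ^ K * 2 ^ (-j).toNat := by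
  have h3 : (2 : ℝ) ^ (a + K) ≤ 2 ^ (-j).toNat := pow_le_pow_right₀ (by norm_num) (by omega)
  rw [one_div, inv_pow, le_inv_mul_iff₀ (by positivity)]
  rw [pow_add] at h3
  nlinarith [h.bd a u, pow_pos (two_pos (α := ℝ)) K]

lemma Walk.tail (h : Walk y) (K : ℕ) (φ : Φ) :
    |ι (fun j => if j < -(N K + K) then xx y j else 0) φ| ≤ (1 / 2) ^ K := by
  refine neg_le (by positivity) (fun j => ?_) φ
  split_ifs with h1
  · rcases x0 y j with h2 | ⟨a, h2, h3⟩
    · exact Or.inl h2
    · have := N_ge K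
      have := N_ge a
      rw [abs_le] at h2
      have ha : K < a := by
        rcases lt_trichotomy a K with h4 | h4 | h4
        · have := gap h4; omega
        · subst h4; omega
        · exact h4
      exact Or.inr ⟨by omega, h3 ▸ h.small _ (by omega)⟩
  · exact Or.inl rfl

lemma Walk.exists_x (h : Walk y) : ∃ u ∈ X, Rep u (xx y) := by
  have hb : ∀ φ, |ι (xx y) φ| ≤ (1 / 2) ^ 0 := neg_le (by positivity) fun j => by
    rcases x0 y j with h2 | ⟨a, h2, h3⟩
    · exact Or.inl h2
    · have := N_ge a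
      rw [abs_le] at h2
      exact Or.inr ⟨by omega, h3 ▸ h.small _ (by omega)⟩
  let u : Z := ofNormedAddCommGroupDiscrete (ι (xx y)) _ hb
  have hu : Rep u (xx y) := fun _ => rfl
  refine ⟨u, Metric.mem_closure_iff.mpr fun ε hε => ?_, hu⟩
  obtain ⟨K, hK⟩ := exists_pow_lt_of_lt_one hε (by norm_num : (1 / 2 : ℝ) < 1)
  let v : ℤ → ℝ := fun j => if j < -(N K + K) then 0 else xx y j
  have hv := rep_fin (Finset.Icc (-(N K + K)) 0) v (fun j hj => by
    simp only [v]
    split_ifs with h1
    · rfl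
    · rcases x0 y j with h2 | ⟨a, h2, -⟩
      · exact h2
      · have := N_ge a
        rw [abs_le] at h2
        simp only [Finset.mem_Icc] at hj
        omega)
  refine ⟨∑ j ∈ Finset.Icc (-(N K + K)) 0, v j • E j,
    Submodule.sum_mem _ fun j _ => Submodule.smul_mem _ (v j)
    (Submodule.subset_span ⟨j, rfl⟩), ?_⟩
  · rw [dist_eq_norm]
    refine lt_of_le_of_lt ((norm_le (by positivity)).mpr fun φ => ?_) hK
    rw [(hu.sub hv) φ]
    have e : xx y - v = fun j => if j < -(N K + K) then xx y j else 0 := by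
      funext j
      simp only [v, Pi.sub_apply]
      split_ifs <;> simp
    rw [e]
    exact h.tail K φ

noncomputable def past (y : ℕ → ℤ → ℝ) (K : ℕ) (j : ℤ) : ℝ :=
  if j < 0 then 0 else xx y (j - N K) - y K j

noncomputable def fut (y : ℕ → ℤ → ℝ) (K : ℕ) (j : ℤ) : ℝ :=
  if j < 0 then xx y (j - N K) - y K j else 0

lemma Walk.fut_le (h : Walk y) (K : ℕ) (φ : Φ) : |ι (fut y K) φ| ≤ (1 / 2) ^ K := by
  refine neg_le (by positivity) (fun j => ?_) φ
  unfold fut
  split_ifs with h1
  · by_cases h2 : |j| ≤ 2 * K + 3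
    · rw [h.xw (a := K) (by simpa using h2)]; simp
    · rw [h.supp K j (by omega), sub_zero]
      rcases x0 y (j - N K) with h2 | ⟨a, h3, h4⟩
      · exact Or.inl h2
      · have := N_ge K
        have := N_ge a
        rw [abs_le] at h2 h3
        have ha : K < a := by
          rcases lt_trichotomy a K with h4 | h4 | h4
          · have := gap h4; omega
          · subst h4; omega
          · exact h4
        have := gap ha
        exact Or.inr ⟨by omega, h4 ▸ h.small _ (by omega)⟩
  · exact Or.inl rfl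

lemma Walk.pw (h : Walk y) {K a : ℕ} {u : ℤ} (ha : a < K) (hu : |u| ≤ 2 * a + 3) :
    past y K (N K - N a + u) = y a u := by
  have := gap ha
  have := N_ge a
  have hu' := abs_le.mp hu
  unfold past
  rw [if_neg (by omega), h.supp K _ (by rw [lt_abs]; omega), h.xw (a := a) (by
    convert hu using 2; ring), sub_zero]
  congr 1
  ring

lemma Walk.p0 (h : Walk y) (K : ℕ) (j : ℤ) :
    past y K j = 0 ∨ ∃ (a : ℕ) (u : ℤ), a < K ∧ |u| ≤ a ∧ j = N K - N a + u := by
  unfold past
  split_ifs with h1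
  · exact Or.inl rfl
  by_cases h2 : |j| ≤ 2 * K + 3
  · rw [h.xw (a := K) (by simpa using h2)]; simp
  rw [h.supp K j (by omega), sub_zero]
  rcases x0 y (j - N K) with h2 | ⟨a, h3, -⟩
  · exact Or.inl h2
  · refine Or.inr ⟨a, _, ?_, h3, by ring⟩
    have := N_ge K
    have := N_ge a
    rw [abs_le] at h2 h3
    rcases lt_trichotomy a K with h4 | h4 | h4
    · exact h4
    · subst h4; omega
    · have := gap h4; omega

def key : Φ → ℤ
  | (i, r, true) => i - r
  | (n, _, false) => n

lemma window {k a : ℕ} {u : ℤ} (ha : a < k + 1) (hu : |u| ≤ 2 * a + 3) :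
    N k < N (k + 1) - N a + u ∧ N (k + 1) - N a + u ≤ N (k + 1) := by
  have := gap (Nat.lt_add_one k)
  have := N_ge a
  have := N_ge k
  rw [abs_le] at hu
  rcases Nat.lt_succ_iff_lt_or_eq.mp ha with h | rfl
  · have := gap h; omega
  · omega

lemma Walk.past_le (h : Walk y) (k : ℕ) {C : ℝ} (hC : ∀ j, |y (k + 1) j| ≤ C) (φ : Φ) :
    |ι (past y (k + 1)) φ| ≤ if N k < key φ ∧ key φ ≤ N (k + 1) then C + 1 else 0 := by
  have hC0 : 0 ≤ C := (abs_nonneg _).trans (hC 0)
  have h0 : 0 ≤ if N k < key φ ∧ key φ ≤ N (k + 1) then C + 1 else 0 := by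
    split_ifs <;> linarith
  obtain ⟨i, r, _ | _⟩ := φ
  · by_cases h1 : P i r
    swap
    · simpa [ι, h1] using h0
    simp only [ι, h1, if_true, key] at h0 ⊢
    obtain ⟨k', u, h2, h3, rfl⟩ := h1
    have e : N k' - N (r + 1) + u + δ r = N k' - N r + u := by unfold δ; ring
    rw [e]
    by_cases hk : k' = k + 1
    · subst hk
      rw [h.pw (by omega) (by push_cast; omega), h.pw (by omega) (by omega),
        if_pos (window (by omega) (by push_cast; omega))]
      linarith [h.step r u]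
    · rw [(h.p0 _ _).resolve_right, (h.p0 _ _).resolve_right]
      · simpa using h0
      · rintro ⟨a, u', h4, h5, h6⟩
        exact hk (uniq (by omega) h4 (by omega) (by omega) h6).1
      · rintro ⟨a, u', h4, h5, h6⟩
        exact hk (uniq (by omega) h4 (by push_cast; omega) (by omega) h6).1
  · by_cases h1 : G i
    swap
    · simpa [ι, h1] using h0
    simp only [ι, h1, if_true, key] at h0 ⊢
    rcases h.p0 (k + 1) (i - r) with h2 | ⟨a, u, h2, h3, h4⟩
    · simpa [h2] using h0
    rw [if_pos (show N k < i - r ∧ i - r ≤ N (k + 1) from h4 ▸ window h2 (by omega)), h4,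
      h.pw h2 (by omega), abs_mul, abs_of_pos (by positivity)]
    have hr : (1 / 2 : ℝ) ^ r ≤ 1 := pow_le_one₀ (by norm_num) (by norm_num)
    rcases Nat.lt_succ_iff_lt_or_eq.mp h2 with h5 | rfl
    · rcases a with _ | m
      · rw [h.zero]; simp; linarith
      · have hr2 : m + 1 ≤ r := by
          by_contra hc
          refine h1.2 m ⟨k + 1, u + r, by omega, ?_, by omega⟩
          rw [abs_le] at h3 ⊢
          push_cast at h3
          omega
        have h6 : (2 : ℝ) ^ (m + 1) ≤ 2 ^ r := pow_le_pow_right₀ (by norm_num) hr2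
        rw [one_div, inv_pow, inv_mul_le_iff₀ (by positivity)]
        nlinarith [h.bd (m + 1) u, pow_pos (two_pos (α := ℝ)) r]
    · have h6 := abs_sub_abs_le_abs_sub (y a u) (y (a + 1) u)
      rw [abs_sub_comm] at h6
      nlinarith [h.step a u, hC u, abs_nonneg (y a u)]

def XX : Type := X

noncomputable instance : NormedAddCommGroup XX := inferInstanceAs (NormedAddCommGroup X)
noncomputable instance : NormedSpace ℝ XX := inferInstanceAs (NormedSpace ℝ X)
instance : CompleteSpace XX := X_closed.completeSpace_coe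

noncomputable def inc : XX →ₗᵢ[ℝ] Z := X.subtypeₗᵢ

noncomputable def TX : XX →L[ℝ] XX :=
  LinearMap.mkContinuous (T0.toLinearMap.restrict T_mem) ‖T0‖ fun u => T0.le_opNorm (inc u)

lemma inc_pow (n : ℕ) (u : XX) : inc ((TX ^ n) u) = (T0 ^ n) (inc u) := by
  induction n with
  | zero => rfl
  | succ n ih => rw [pow_succ', pow_succ', ContinuousLinearMap.mul_apply,
      ContinuousLinearMap.mul_apply, ← ih]; rfl

lemma weak_null (u : ℕ → XX) (D : ℝ)
    (hD : ∀ n φ, ∑ k ∈ Finset.range n, |inc (u k) φ| ≤ D) (f : XX →L[ℝ] ℝ) :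
    Tendsto (fun k => f (u k)) atTop (𝓝 0) := by
  have hD0 : 0 ≤ D := by simpa using hD 0 (0, 0, true)
  refine Summable.tendsto_atTop_zero (Summable.of_abs (summable_of_sum_range_le
    (c := ‖f‖ * D) (fun _ => abs_nonneg _) fun n => ?_))
  have e : ∑ k ∈ Finset.range n, |f (u k)|
      = f (∑ k ∈ Finset.range n, (SignType.sign (f (u k)) : ℝ) • u k) := by
    simp only [map_sum, map_smul, smul_eq_mul, sign_mul_self]
  rw [e]
  refine (le_abs_self _).trans ((f.le_opNorm _).trans ?_)
  gcongr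
  rw [← inc.norm_map]
  refine (norm_le hD0).mpr fun φ => le_trans ?_ (hD n φ)
  simp only [map_sum, map_smul, coe_sum, Finset.sum_apply, coe_smul, smul_eq_mul]
  refine (norm_sum_le _ _).trans (Finset.sum_le_sum fun k _ => ?_)
  rw [norm_mul]
  refine mul_le_of_le_one_left (abs_nonneg _) ?_
  rcases SignType.sign (f (u k)) with _ | _ | _ <;> simp

lemma sum_window (n : ℕ) (t : ℤ) {C : ℝ} (hC : 0 ≤ C) :
    ∑ k ∈ Finset.range n, (if N k < t ∧ t ≤ N (k + 1) then C else 0) ≤ C := by
  rw [← Finset.sum_filter, Finset.sum_const, nsmul_eq_mul]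
  refine mul_le_of_le_one_left hC ?_
  norm_cast
  refine Finset.card_le_one.mpr fun a ha b hb => ?_
  simp only [Finset.mem_filter] at ha hb
  have mono : ∀ {a b : ℕ}, a < b → N (a + 1) ≤ N b := fun {a b} h => by
    rcases (Nat.succ_le_of_lt h).eq_or_lt with h1 | h1
    · rw [← h1]
    · have := gap h1; have := N_ge (a + 1); simp only [Nat.succ_eq_add_one] at *; omega
  rcases lt_trichotomy a b with h | h | h
  · have := mono h; omega
  · exact h
  · have := mono h; omega

end Pool.Agent.H3.WSeq
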