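import Mathlib

set_option autoImplicit false

namespace Pool.Agent.H3.Wab
open LaurentPolynomial

section gen
variable {G : Type} [Group G]

/-- weakly abelian cones -/
structure WA (P : Set G) : Prop where
  one : (1 : G) ∈ P
  mul : ∀ a ∈ P, ∀ b ∈ P, a * b ∈ P
  pure : ∀ a ∈ P, a⁻¹ ∈ P → a = 1
  conj : ∀ a ∈ P, ∀ x : G, x⁻¹ * a * x ∈ P
  wa : ∀ a ∈ P, ∀ x : G, (x⁻¹ * a * x)⁻¹ * a ^ 2 ∈ P

lemma zorn {P : Set G} (h : WA P) : ∃ Q, P ⊆ Q ∧ Maximal WA Q := by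
  refine zorn_subset_nonempty {Q | WA Q} ?_ P h
  intro c hc hch ⟨P0, h0⟩
  refine ⟨⋃₀ c, ⟨⟨P0, h0, (hc h0).one⟩, ?_, ?_, ?_, ?_⟩, fun s hs => Set.subset_sUnion_of_mem hs⟩
  · rintro a ⟨A, hA, ha⟩ b ⟨B, hB, hb⟩
    rcases hch.total hA hB with h | h
    · exact ⟨B, hB, (hc hB).mul _ (h ha) _ hb⟩
    · exact ⟨A, hA, (hc hA).mul _ ha _ (h hb)⟩
  · rintro a ⟨A, hA, ha⟩ ⟨B, hB, hb⟩
    rcases hch.total hA hB with h | h
    · exact (hc hB).pure _ (h ha) hb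
    · exact (hc hA).pure _ ha (h hb)
  · rintro a ⟨A, hA, ha⟩ x; exact ⟨A, hA, (hc hA).conj _ ha x⟩
  · rintro a ⟨A, hA, ha⟩ x; exact ⟨A, hA, (hc hA).wa _ ha x⟩

lemma maxl {P : Set G} (hP : Maximal WA P) (S : Set G) (h1 : ∀ a ∈ S, ∀ b ∈ S, a * b ∈ S)
    (h2 : ∀ a ∈ S, ∀ x : G, x⁻¹ * a * x ∈ S)
    (h3 : ∀ a ∈ S, ∀ y z : G, (y⁻¹ * a * y)⁻¹ * (z⁻¹ * a * z) * a ∈ S) {a : G} (ha : a ∈ S)
    (hn : a ∉ P) : ∃ p ∈ P, p⁻¹ ∈ S := by
  by_contra hc
  push Not at hc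
  have w := hP.prop
  let P' : Set G := {g | ∃ p ∈ P, g = p ∨ ∃ s ∈ S, g = p * s}
  have hW : WA P' := by
    refine ⟨⟨1, w.one, Or.inl rfl⟩, ?_, ?_, ?_, ?_⟩
    · rintro _ ⟨p, hp, rfl | ⟨s, hs, rfl⟩⟩ b ⟨q, hq, rfl | ⟨t, ht, rfl⟩⟩
      · exact ⟨_, w.mul _ hp _ hq, Or.inl rfl⟩
      · exact ⟨_, w.mul _ hp _ hq, Or.inr ⟨t, ht, by group⟩⟩
      · exact ⟨_, w.mul _ hp _ hq, Or.inr ⟨_, h2 s hs b, by group⟩⟩
      · exact ⟨_, w.mul _ hp _ hq, Or.inr ⟨_, h1 _ (h2 s hs q) t ht, by group⟩⟩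
    · rintro g ⟨p, hp, e1 | ⟨s, hs, e1⟩⟩ ⟨q, hq, e2 | ⟨t, ht, e2⟩⟩
      · exact w.pure _ (e1 ▸ hp) (e2 ▸ hq)
      · refine (hc _ (w.mul _ hp _ hq) ?_).elim
        have : (p * q)⁻¹ = t := by
          rw [← e1, ← inv_inv g, e2]; group
        rwa [this]
      · refine (hc _ (w.mul _ hq _ hp) ?_).elim
        have : (q * p)⁻¹ = s := by
          rw [← e2, e1]; group
        rwa [this]
      · refine (hc _ (w.mul _ hp _ hq) ?_).elim
        have : (p * q)⁻¹ = q⁻¹ * s * q * t := by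
          have e : q * t = s⁻¹ * p⁻¹ := by rw [← e2, e1]; group
          rw [mul_assoc, e]; group
        rw [this]; exact h1 _ (h2 s hs q) t ht
    · rintro _ ⟨p, hp, rfl | ⟨s, hs, rfl⟩⟩ x
      · exact ⟨_, w.conj _ hp x, Or.inl rfl⟩
      · exact ⟨_, w.conj _ hp x, Or.inr ⟨_, h2 s hs x, by group⟩⟩
    · rintro _ ⟨p, hp, rfl | ⟨s, hs, rfl⟩⟩ x
      · exact ⟨_, w.wa _ hp x, Or.inl rfl⟩
      · exact ⟨_, w.wa _ hp x, Or.inr ⟨_, h3 s hs (x * ((x⁻¹ * p * x)⁻¹ * p ^ 2)) p, by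
          simp only [pow_two]; group⟩⟩
  exact hn (hP.le_of_ge hW (fun p hp => ⟨p, hp, Or.inl rfl⟩) ⟨1, w.one, Or.inr ⟨a, ha, by simp⟩⟩)

lemma WA.pow {P : Set G} (w : WA P) {a : G} (ha : a ∈ P) (n : ℕ) : a ^ n ∈ P := by
  induction n with
  | zero => simpa using w.one
  | succ n ih => rw [pow_succ]; exact w.mul _ ih _ ha

end gen

section laurent

/-- Laurent polynomials -/
abbrev A := LaurentPolynomial ℤ

/-- augmentation -/
noncomputable def eps : A →+* ℤ := eval₂ (RingHom.id ℤ) 1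

@[simp] lemma eps_T (k : ℤ) : eps (T k) = 1 := by simp [eps, eval₂_T]

/-- the semiring of multipliers -/
noncomputable def S : Subsemiring A := Subsemiring.closure {f | ∃ k : ℤ, f = T k ∨ f = 2 - T k}

lemma T_mem (k : ℤ) : (T k : A) ∈ S := Subsemiring.subset_closure ⟨k, Or.inl rfl⟩
lemma T_mem' (k : ℤ) : (2 - T k : A) ∈ S := Subsemiring.subset_closure ⟨k, Or.inr rfl⟩

/-- saturation -/
noncomputable def Sat : Subsemiring A where
  carrier := {f | ∃ h ∈ S, 0 < eps h ∧ h * f ∈ S}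
  zero_mem' := ⟨1, S.one_mem, by simp, by simp⟩
  one_mem' := ⟨1, S.one_mem, by simp, by simp⟩
  add_mem' := by
    rintro f g ⟨h, h1, h2, h3⟩ ⟨k, k1, k2, k3⟩
    refine ⟨h * k, S.mul_mem h1 k1, by rw [map_mul]; positivity, ?_⟩
    have : h * k * (f + g) = k * (h * f) + h * (k * g) := by ring
    rw [this]; exact S.add_mem (S.mul_mem k1 h3) (S.mul_mem h1 k3)
  mul_mem' := by
    rintro f g ⟨h, h1, h2, h3⟩ ⟨k, k1, k2, k3⟩
    refine ⟨h * k, S.mul_mem h1 k1, by rw [map_mul]; positivity, ?_⟩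
    have : h * k * (f * g) = (h * f) * (k * g) := by ring
    rw [this]; exact S.mul_mem h3 k3

lemma S_le {f : A} (h : f ∈ S) : f ∈ Sat := ⟨1, S.one_mem, by simp, by simpa using h⟩

lemma half {f : A} (h : 2 * f ∈ Sat) : f ∈ Sat := by
  obtain ⟨k, k1, k2, k3⟩ := h
  refine ⟨k * 2, S.mul_mem k1 (by simpa using natCast_mem S 2), ?_, by rwa [mul_assoc]⟩
  rw [map_mul, map_ofNat]; positivity

lemma bern (n : ℕ) (k : ℤ) : ((n : A) + 1 - (n : A) * T k) ∈ Sat := by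
  rcases Nat.eq_zero_or_pos n with rfl | hn
  · simpa using Sat.one_mem
  refine ⟨∑ i ∈ Finset.range n, ((n : A) + 1) ^ i * ((n : A) * T k) ^ (n - 1 - i), ?_, ?_, ?_⟩
  · exact S.sum_mem fun i _ => S.mul_mem (S.pow_mem (S.add_mem (natCast_mem S n) S.one_mem) _)
      (S.pow_mem (S.mul_mem (natCast_mem S n) (T_mem k)) _)
  · rw [map_sum]
    refine Finset.sum_pos (fun i _ => ?_) ⟨0, by simpa using hn⟩
    simp only [map_mul, map_pow, map_add, map_natCast, map_one, eps_T]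
    positivity
  · rw [mul_comm, (Commute.all ((n : A) + 1) ((n : A) * T k)).mul_geom_sum₂]
    have h2 : 2 * n ^ n ≤ (n + 1) ^ n := by
      have h := pow_add_mul_le_add_pow (a := n) (b := 1) (Nat.zero_le _) (Nat.zero_le _) n
      obtain ⟨m, rfl⟩ : ∃ m, n = m + 1 := ⟨n - 1, by omega⟩
      simp only [Nat.add_sub_cancel, mul_one, Nat.cast_id] at h
      rw [← pow_succ'] at h; omega
    obtain ⟨d, hd⟩ := Nat.exists_eq_add_of_le h2
    have e : ((n : A) + 1) ^ n - ((n : A) * T k) ^ n = (d : A) + (n : A) ^ n * (2 - T (n * k)) := by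
      have : ((n : A) + 1) ^ n = 2 * (n : A) ^ n + d := by
        have := congrArg (Nat.cast : ℕ → A) hd
        simpa using this
      rw [this, mul_pow, T_pow]; ring
    rw [e]
    exact S.add_mem (natCast_mem S d) (S.mul_mem (S.pow_mem (natCast_mem S n) _) (T_mem' _))

lemma inf_small (f : A) : ∀ n : ℤ, 1 + (n : A) * (f - ((eps f : ℤ) : A)) ∈ Sat := by
  induction f using LaurentPolynomial.induction_on' with
  | add f g hf hg =>
    intro n
    apply half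
    have := Sat.add_mem (hf (2 * n)) (hg (2 * n))
    have e : 2 * (1 + (n : A) * (f + g - ((eps (f + g) : ℤ) : A))) =
        1 + ((2 * n : ℤ) : A) * (f - ((eps f : ℤ) : A)) +
      (1 + ((2 * n : ℤ) : A) * (g - ((eps g : ℤ) : A))) := by rw [map_add]; push_cast; ring
    rwa [e]
  | C_mul_T k a =>
    intro n
    have e : (1 : A) + (n : A) * (C a * T k - ((eps (C a * T k) : ℤ) : A)) =
        1 + ((n * a : ℤ) : A) * (T k - 1) := by
      rw [eq_intCast C a]; simp only [map_mul, map_intCast, eps_T]; push_cast; ring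
    rw [e]
    generalize n * a = m
    obtain ⟨j, rfl | rfl⟩ := Int.eq_nat_or_neg m
    · rcases j with _ | j
      · simpa using Sat.one_mem
      · have := Sat.mul_mem (S_le (T_mem k)) (bern j (-k))
        have e2 : (T k : A) * ((j : A) + 1 - (j : A) * T (-k)) = 1 + (((j + 1 : ℕ) : ℤ) : A) * (T k - 1) := by
          have : (T k : A) * T (-k) = 1 := by rw [← T_add]; simp
          push_cast; linear_combination (-(j : A)) * this
        rwa [e2] at this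
    · have e2 : (1 : A) + ((-(j : ℤ) : ℤ) : A) * (T k - 1) = (j : A) + 1 - (j : A) * T k := by
        push_cast; ring
      rw [e2]; exact bern j k

lemma sat {f : A} (h : 0 < eps f) : f ∈ Sat := by
  obtain ⟨d, hd⟩ := Int.eq_ofNat_of_zero_le (show 0 ≤ eps f - 1 by omega)
  have := Sat.add_mem (natCast_mem Sat d) (inf_small f 1)
  have e : (d : A) + (1 + ((1 : ℤ) : A) * (f - ((eps f : ℤ) : A))) = f := by
    have : ((eps f : ℤ) : A) = d + 1 := by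
      have : eps f = d + 1 := by omega
      rw [this]; push_cast; ring
    rw [this]; push_cast; ring
  rwa [e] at this

end laurent

section conc

/-- power series -/
abbrev W := PowerSeries ℚ

/-- residue -/
noncomputable abbrev chi : W →+* ℚ := PowerSeries.constantCoeff

lemma unit_of {w : W} (h : chi w ≠ 0) : IsUnit w :=
  PowerSeries.isUnit_iff_constantCoeff.2 (isUnit_iff_ne_zero.2 h)

/-- the multiplier -/
noncomputable def u : Wˣ := (unit_of (w := PowerSeries.X - 2) (by simp [map_ofNat])).unit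

lemma u_val : (u : W) = PowerSeries.X - 2 := rfl

/-- its powers -/
noncomputable def cc (k : ℤ) : W := ((u ^ k : Wˣ) : W)

lemma cc_add (k l : ℤ) : cc (k + l) = cc k * cc l := by simp [cc, zpow_add]
@[simp] lemma cc_zero : cc 0 = 1 := by simp [cc]
lemma cc_neg (k : ℤ) : cc (-k) * cc k = 1 := by rw [← cc_add]; simp
lemma cc_one : cc 1 = PowerSeries.X - 2 := by simp [cc, u_val]

lemma chi_cc (k : ℤ) : chi (cc k) = (-2) ^ k := by
  have h1 : chi (cc 1) = -2 := by simp [cc_one, map_ofNat]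
  induction k using Int.induction_on with
  | zero => simp
  | succ k ih => rw [cc_add, map_mul, ih, h1, zpow_add₀ (by norm_num)]; simp
  | pred k ih =>
    have : chi (cc (-(k : ℤ) - 1)) * chi (cc 1) = chi (cc (-k)) := by
      rw [← map_mul, ← cc_add]; simp
    rw [ih, h1] at this
    rw [zpow_sub₀ (by norm_num), ← this]; simp

/-- evaluation at the multiplier -/
noncomputable def e1 : A →+* W := eval₂ (Int.castRingHom W) u
/-- evaluation at its square -/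
noncomputable def e2 : A →+* W := eval₂ (Int.castRingHom W) (u ^ 2)

@[simp] lemma e1_T (k : ℤ) : e1 (T k) = cc k := by simp [e1, eval₂_T, cc]
@[simp] lemma e2_T (k : ℤ) : e2 (T k) = cc k * cc k := by
  simp only [e2, eval₂_T, cc, pow_two, mul_zpow, Units.val_mul]

lemma ev_ne (v : Wˣ) (q : Polynomial ℚ) (hv : (v : W) = (q : W)) (hq : q.eval 3 = 1) {f : A}
    (h : eps f ≠ 0) : eval₂ (Int.castRingHom W) v f ≠ 0 := by
  intro h0
  obtain ⟨n, p, hp⟩ := exists_T_pow f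
  have a1 : Polynomial.eval₂ (Int.castRingHom W) (v : W) p = 0 := by
    rw [← eval₂_toLaurent, hp, map_mul, h0, zero_mul]
  have a2 : Polynomial.eval₂ (Int.castRingHom W) (v : W) p =
      ((Polynomial.eval₂ (Int.castRingHom (Polynomial ℚ)) q p : Polynomial ℚ) : W) := by
    have := Polynomial.hom_eval₂ p (Int.castRingHom (Polynomial ℚ))
      (Polynomial.coeToPowerSeries.ringHom (R := ℚ)) q
    rw [Polynomial.coeToPowerSeries.ringHom_apply, Polynomial.coeToPowerSeries.ringHom_apply] at this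
    rw [this, hv]; congr 1; exact RingHom.ext_int _ _
  rw [a2, Polynomial.coe_eq_zero_iff] at a1
  have a3 := Polynomial.hom_eval₂ p (Int.castRingHom (Polynomial ℚ)) (Polynomial.evalRingHom 3) q
  rw [a1, map_zero, Polynomial.coe_evalRingHom, hq] at a3
  have a4 : eps (Polynomial.toLaurent p) = eps f := by rw [hp, map_mul, eps_T, mul_one]
  have a5 := Polynomial.hom_eval₂ p (RingHom.id ℤ) (Int.castRingHom ℚ) 1
  have a6 : eps (Polynomial.toLaurent p) = Polynomial.eval₂ (RingHom.id ℤ) 1 p := by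
    rw [eps, eval₂_toLaurent]; rfl
  rw [← a6, a4, map_one, RingHom.ext_int ((Int.castRingHom ℚ).comp (RingHom.id ℤ))
    ((Polynomial.evalRingHom 3).comp (Int.castRingHom (Polynomial ℚ))), ← a3] at a5
  exact h (by simpa using a5)

lemma e1_ne {f : A} (h : eps f ≠ 0) : e1 f ≠ 0 :=
  ev_ne u (Polynomial.X - Polynomial.C 2) (by
    rw [Polynomial.coe_sub, Polynomial.coe_X, Polynomial.coe_C]; rfl) (by norm_num) h

lemma e2_ne {f : A} (h : eps f ≠ 0) : e2 f ≠ 0 :=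
  ev_ne (u ^ 2) ((Polynomial.X - Polynomial.C 2) ^ 2) (by
    rw [Polynomial.coe_pow, Polynomial.coe_sub, Polynomial.coe_X, Polynomial.coe_C]; rfl)
    (by norm_num) h

lemma dvd_pi {w : W} (h : w ≠ 0) : ∃ n : ℕ, w ∣ e2 ((4 - T 1) ^ n) := by
  refine ⟨w.order.toNat, ?_⟩
  have e : e2 (4 - T 1) = PowerSeries.X * (4 - PowerSeries.X) := by
    rw [map_sub, e2_T, cc_one, map_ofNat]; ring
  rw [map_pow, e, mul_pow]
  refine Dvd.dvd.mul_right ?_ _
  conv_lhs => rw [← PowerSeries.X_pow_order_mul_divXPowOrder (f := w)]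
  exact (PowerSeries.isUnit_divided_by_X_pow_order h).mul_right_dvd.2 dvd_rfl

/-- Heisenberg group over power series extended by a dilation -/
@[ext] structure GG where
  x : W
  y : W
  z : W
  k : ℤ

noncomputable instance : Mul GG := ⟨fun g h => ⟨g.x + cc g.k * h.x, g.y + cc g.k * h.y,
  g.z + cc g.k * cc g.k * h.z + cc g.k * g.x * h.y, g.k + h.k⟩⟩
noncomputable instance : One GG := ⟨⟨0, 0, 0, 0⟩⟩
noncomputable instance : Inv GG := ⟨fun g => ⟨-(cc (-g.k) * g.x), -(cc (-g.k) * g.y),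
  cc (-g.k) * cc (-g.k) * (g.x * g.y - g.z), -g.k⟩⟩

@[simp] lemma mul_x (g h : GG) : (g * h).x = g.x + cc g.k * h.x := rfl
@[simp] lemma mul_y (g h : GG) : (g * h).y = g.y + cc g.k * h.y := rfl
@[simp] lemma mul_z (g h : GG) :
    (g * h).z = g.z + cc g.k * cc g.k * h.z + cc g.k * g.x * h.y := rfl
@[simp] lemma mul_k (g h : GG) : (g * h).k = g.k + h.k := rfl
@[simp] lemma one_x : (1 : GG).x = 0 := rfl
@[simp] lemma one_y : (1 : GG).y = 0 := rfl
@[simp] lemma one_z : (1 : GG).z = 0 := rfl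
@[simp] lemma one_k : (1 : GG).k = 0 := rfl
@[simp] lemma inv_x (g : GG) : g⁻¹.x = -(cc (-g.k) * g.x) := rfl
@[simp] lemma inv_y (g : GG) : g⁻¹.y = -(cc (-g.k) * g.y) := rfl
@[simp] lemma inv_z (g : GG) : g⁻¹.z = cc (-g.k) * cc (-g.k) * (g.x * g.y - g.z) := rfl
@[simp] lemma inv_k (g : GG) : g⁻¹.k = -g.k := rfl

noncomputable instance : Group GG := Group.ofLeftAxioms
  (fun a b c => by
    refine GG.ext ?_ ?_ ?_ ?_ <;> simp only [mul_x, mul_y, mul_z, mul_k, cc_add] <;> ring)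
  (fun a => by refine GG.ext ?_ ?_ ?_ ?_ <;> simp)
  (fun a => by refine GG.ext ?_ ?_ ?_ ?_ <;> simp; ring)

lemma pow_k (g : GG) (n : ℕ) : (g ^ n).k = n * g.k := by
  induction n with
  | zero => simp
  | succ n ih => rw [pow_succ, mul_k, ih]; push_cast; ring

lemma conj_eq (g h : GG) (hg : g.k = 0) : h⁻¹ * g * h = ⟨cc (-h.k) * g.x, cc (-h.k) * g.y,
    cc (-h.k) * cc (-h.k) * (g.z + g.x * h.y - h.x * g.y), 0⟩ := by
  refine GG.ext ?_ ?_ ?_ ?_ <;>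
    simp only [mul_x, mul_y, mul_z, mul_k, inv_x, inv_y, inv_z, inv_k, hg, add_zero] <;> ring

/-- `g` is the multiple of `a` by `φ` -/
def Rel (a : GG) (φ : A) (g : GG) : Prop :=
  g.k = 0 ∧ g.x = e1 φ * a.x ∧ g.y = e1 φ * a.y ∧ ∃ p q, g.z = e2 φ * a.z + p * a.x + q * a.y

lemma Rel.mul {a g h : GG} {φ ψ : A} (h1 : Rel a φ g) (h2 : Rel a ψ h) : Rel a (φ + ψ) (g * h) := by
  obtain ⟨k, x, y, p, q, z⟩ := h1
  obtain ⟨k', x', y', p', q', z'⟩ := h2
  refine ⟨by simp [k, k'], by simp [k, x, x', add_mul], by simp [k, y, y', add_mul],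
    p + p' + e1 φ * h.y, q + q', ?_⟩
  simp only [mul_z, k, cc_zero, z, z', x, map_add]; ring

lemma Rel.inv {a g : GG} {φ : A} (h1 : Rel a φ g) : Rel a (-φ) g⁻¹ := by
  obtain ⟨k, x, y, p, q, z⟩ := h1
  refine ⟨by simp [k], by simp [k, x], by simp [k, y], e1 φ * g.y - p, -q, ?_⟩
  simp only [inv_z, k, neg_zero, cc_zero, z, x, map_neg]; ring

lemma Rel.conj {a g : GG} {φ : A} (h1 : Rel a φ g) (h : GG) :
    Rel a (T (-h.k) * φ) (h⁻¹ * g * h) := by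
  obtain ⟨k, x, y, p, q, z⟩ := h1
  rw [conj_eq g h k]
  refine ⟨rfl, by simp only [x, map_mul, e1_T]; ring, by simp only [y, map_mul, e1_T]; ring,
    cc (-h.k) * cc (-h.k) * (p + e1 φ * h.y), cc (-h.k) * cc (-h.k) * (q - e1 φ * h.x), ?_⟩
  simp only [z, x, y, map_mul, e2_T]; ring

lemma app {P : Set GG} (w : WA P) (a : GG) {ψ : A} (hψ : ψ ∈ S) :
    ∀ φ g, g ∈ P → Rel a φ g → ∃ g' ∈ P, Rel a (ψ * φ) g' := by
  induction hψ using Subsemiring.closure_induction with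
  | mem f hf =>
    intro φ g hg hr
    obtain ⟨k, rfl | rfl⟩ := hf
    · exact ⟨_, w.conj g hg ⟨0, 0, 0, -k⟩, by simpa using hr.conj ⟨0, 0, 0, -k⟩⟩
    · refine ⟨_, w.wa g hg ⟨0, 0, 0, -k⟩, ?_⟩
      have := (hr.conj ⟨0, 0, 0, -k⟩).inv.mul (hr.mul hr)
      rw [pow_two]
      have e : (2 - T k) * φ = -(T (- -k) * φ) + (φ + φ) := by rw [neg_neg]; ring
      rw [e]; exact this
  | zero => intro φ g _ _; exact ⟨1, w.one, rfl, by simp, by simp, 0, 0, by simp⟩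
  | one => intro φ g hg hr; exact ⟨g, hg, by simpa using hr⟩
  | add f f' _ _ h1 h2 =>
    intro φ g hg hr
    obtain ⟨g1, a1, b1⟩ := h1 φ g hg hr
    obtain ⟨g2, a2, b2⟩ := h2 φ g hg hr
    exact ⟨_, w.mul _ a1 _ a2, by rw [add_mul]; exact b1.mul b2⟩
  | mul f f' _ _ h1 h2 =>
    intro φ g hg hr
    obtain ⟨g1, a1, b1⟩ := h2 φ g hg hr
    obtain ⟨g2, a2, b2⟩ := h1 _ g1 a1 b1
    exact ⟨g2, a2, by rwa [mul_assoc]⟩

lemma step1 {P : Set GG} (w : WA P) {a g h : GG} {σ σ' : A} (hg : g ∈ P) (hh : h ∈ P)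
    (r1 : Rel a σ g) (r2 : Rel a (-σ') h) (p1 : 0 < eps σ) (p2 : 0 < eps σ') :
    ∃ ψ, eps ψ ≠ 0 ∧ ∃ U ∈ P, ∃ V ∈ P, Rel a ψ U ∧ Rel a (-ψ) V := by
  obtain ⟨f, f1, f2, f3⟩ := sat p1
  obtain ⟨f', f1', f2', f3'⟩ := sat p2
  obtain ⟨U, hU, rU⟩ := app w a (S.mul_mem f1 f3') _ _ hg r1
  obtain ⟨V, hV, rV⟩ := app w a (S.mul_mem f1' f3) _ _ hh r2
  refine ⟨_, ?_, U, hU, V, hV, rU, ?_⟩
  · simp only [map_mul]; positivity
  · have e : -(f * (f' * σ') * σ) = f' * (f * σ) * -σ' := by ring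
    rwa [e]

lemma fin1 {a : GG} {ψ : A} (hψ : eps ψ ≠ 0) (ha : a.k = 0) (r : Rel a ψ 1) : a = 1 := by
  obtain ⟨-, x, y, p, q, z⟩ := r
  have hx : a.x = 0 := (mul_eq_zero.1 x.symm).resolve_left (e1_ne hψ)
  have hy : a.y = 0 := (mul_eq_zero.1 y.symm).resolve_left (e1_ne hψ)
  rw [hx, hy] at z
  have hz : a.z = 0 := (mul_eq_zero.1 (by simpa using z.symm)).resolve_left (e2_ne hψ)
  exact GG.ext hx hy hz ha

lemma kill {P : Set GG} (w : WA P) {a g h : GG} {σ σ' : A} (ha : a.k = 0) (hg : g ∈ P)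
    (hh : h ∈ P) (r1 : Rel a σ g) (r2 : Rel a (-σ') h) (p1 : 0 < eps σ) (p2 : 0 < eps σ') :
    a = 1 := by
  have cen : ∀ (ω : W) (σ' : A), 0 < eps σ' → (⟨0, 0, ω, 0⟩ : GG) ∈ P →
      (⟨0, 0, -(e2 σ' * ω), 0⟩ : GG) ∈ P → ω = 0 := by
    intro ω σ' hp h1 h2
    obtain ⟨ψ, hψ, U, hU, V, hV, rU, rV⟩ := step1 w (a := ⟨0, 0, ω, 0⟩) (σ := 1) h1 h2
      ⟨rfl, by simp, by simp, 0, 0, by simp⟩ ⟨rfl, by simp, by simp, 0, 0, by simp⟩ (by simp) hp
    have e : U⁻¹ = V := by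
      obtain ⟨k, x, y, p, q, z⟩ := rU
      obtain ⟨k', x', y', p', q', z'⟩ := rV
      refine GG.ext ?_ ?_ ?_ ?_ <;> simp [k, x, y, z, k', x', y', z']
    have := w.pure U hU (e ▸ hV)
    exact congrArg GG.z (fin1 hψ rfl (this ▸ rU))
  obtain ⟨ψ, hψ, U, hU, V, hV, rU, rV⟩ := step1 w hg hh r1 r2 p1 p2
  obtain ⟨-, -, -, p, q, hz⟩ := rU.mul rV
  simp only [add_neg_cancel, map_zero, zero_mul, zero_add] at hz
  obtain ⟨n, c, hc⟩ := dvd_pi (e1_ne hψ)
  have e0 : U * V = ⟨0, 0, (U * V).z, 0⟩ := by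
    obtain ⟨k, x, y, -⟩ := rU.mul rV
    exact GG.ext (by simpa using x) (by simpa using y) rfl k
  have hω : (U * V).z = 0 := by
    refine cen _ (2 * (4 - T 1) ^ n - 1) ?_ (e0 ▸ w.mul _ hU _ hV) ?_
    · simp only [map_sub, map_mul, map_pow, map_ofNat, eps_T, map_one]
      have : (1 : ℤ) ≤ (4 - 1) ^ n := one_le_pow₀ (by norm_num)
      omega
    · have hm := w.mul _ hU _ (w.conj V hV ⟨-(2 * c * q), 2 * c * p, 0, 0⟩)
      have e : U * ((⟨-(2 * c * q), 2 * c * p, 0, 0⟩ : GG)⁻¹ * V * ⟨-(2 * c * q), 2 * c * p, 0, 0⟩) =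
          ⟨0, 0, -(e2 (2 * (4 - T 1) ^ n - 1) * (U * V).z), 0⟩ := by
        obtain ⟨k, x, y, -⟩ := rU
        obtain ⟨k', x', y', -⟩ := rV
        rw [conj_eq V _ k', map_sub, map_mul, hc, map_one, map_ofNat]
        refine GG.ext (by simp [k, x, x']) (by simp [k, y, y']) ?_ (by simp [k])
        have hz' := hz
        simp only [mul_z, k, cc_zero, neg_zero, x, x', y', map_neg] at hz' ⊢
        linear_combination (2 * e1 ψ * c) * hz'
      rwa [e] at hm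
  have e : U⁻¹ = V := inv_eq_of_mul_eq_one_right (by rw [e0, hω]; rfl)
  exact fin1 hψ ha (w.pure U hU (e ▸ hV) ▸ rU)

lemma coset (g h : GG) (hk : g.k = h.k) (h0 : g.k ≠ 0) : ∃ n : GG, n⁻¹ * g * n = h := by
  have ne1 : ∀ j : ℤ, j ≠ 0 → ((-2 : ℚ) ^ j) * ((-2) ^ j) ≠ 1 := by
    intro j hj e
    rw [← mul_zpow] at e
    exact hj ((zpow_eq_one_iff_right₀ (by norm_num) (by norm_num)).1 e)
  obtain ⟨i1, h1⟩ := (unit_of (w := cc g.k - 1) (by
    rw [map_sub, chi_cc, map_one, sub_ne_zero]; intro e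
    exact ne1 _ h0 (by rw [e, mul_one]))).exists_right_inv
  obtain ⟨i2, h2⟩ := (unit_of (w := cc g.k * cc g.k - 1) (by
    rw [map_sub, map_mul, chi_cc, map_one, sub_ne_zero]; exact ne1 _ h0)).exists_right_inv
  let a := i1 * (h.x - g.x)
  let b := i1 * (h.y - g.y)
  refine ⟨⟨a, b, i2 * (h.z + a * h.y - g.z - cc g.k * g.x * b), 0⟩, ?_⟩
  rw [mul_assoc, inv_mul_eq_iff_eq_mul]
  refine GG.ext ?_ ?_ ?_ (by simp [hk])
  · simp only [mul_x, cc_zero, a]; linear_combination (h.x - g.x) * h1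
  · simp only [mul_y, cc_zero, b]; linear_combination (h.y - g.y) * h1
  · simp only [mul_z, cc_zero]
    linear_combination (h.z + a * h.y - g.z - cc g.k * g.x * b) * h2

theorem total {P : Set GG} (hP : Maximal WA P) (a : GG) : a ∈ P ∨ a⁻¹ ∈ P := by
  by_contra hc
  push Not at hc
  have w := hP.prop
  by_cases ha : a.k = 0
  · have key : ∀ b : GG, b.k = 0 → b ∉ P → ∀ φ0, Rel a φ0 b → ∀ e : ℤ, 0 < e * eps φ0 →
        ∃ p ∈ P, ∃ φ, 0 < e * eps φ ∧ Rel a (-φ) p := by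
      intro b _ hb φ0 r0 e he
      obtain ⟨p, hp, φ, h1, h2⟩ := maxl hP {g | ∃ φ, 0 < e * eps φ ∧ Rel a φ g}
        (by
          rintro _ ⟨φ, h1, h2⟩ _ ⟨ψ, h3, h4⟩
          exact ⟨_, by rw [map_add, mul_add]; positivity, h2.mul h4⟩)
        (by
          rintro _ ⟨φ, h1, h2⟩ x
          exact ⟨_, by simpa using h1, h2.conj x⟩)
        (by
          rintro _ ⟨φ, h1, h2⟩ y z
          exact ⟨_, by simpa using h1, ((h2.conj y).inv.mul (h2.conj z)).mul h2⟩)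
        ⟨φ0, he, r0⟩ hb
      exact ⟨p, hp, φ, h1, by simpa using h2.inv⟩
    have r : Rel a 1 a := ⟨ha, by simp, by simp, 0, 0, by simp⟩
    obtain ⟨p, hp, φ, h1, h2⟩ := key a ha hc.1 1 r 1 (by simp)
    obtain ⟨q, hq, ψ, h3, h4⟩ := key a⁻¹ (by simp [ha]) hc.2 _ r.inv (-1) (by simp)
    exact hc.1 (kill w ha hq hp h4 h2 (by simpa using h3) (by simpa using h1) ▸ w.one)
  · have key : ∀ b : GG, b.k ≠ 0 → b ∉ P → ∃ p ∈ P, p.k * b.k < 0 := by
      intro b hb0 hb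
      obtain ⟨p, hp, h⟩ := maxl hP {g | 0 < g.k * b.k}
        (by intro g hg h hh; simp only [Set.mem_setOf_eq, mul_k, add_mul] at *; positivity)
        (by intro g hg x; simpa using hg)
        (by intro g hg x y; simpa using hg)
        (a := b) (mul_self_pos.2 hb0) hb
      exact ⟨p, hp, by simpa using h⟩
    obtain ⟨p, hp, h1⟩ := key a ha hc.1
    obtain ⟨q, hq, h2⟩ := key a⁻¹ (by simpa using ha) hc.2
    simp only [inv_k, mul_neg, neg_lt_zero] at h2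
    have hp0 : p.k ≠ 0 := by rintro e; simp [e] at h1
    have hq0 : q.k ≠ 0 := by rintro e; simp [e] at h2
    have hne : (p ^ q.k.natAbs).k ≠ 0 := by rw [pow_k]; simp [hp0, hq0]
    obtain ⟨n, hn⟩ := coset (p ^ q.k.natAbs) (q ^ p.k.natAbs)⁻¹ (by
      rw [inv_k, pow_k, pow_k, Int.natCast_natAbs, Int.natCast_natAbs]
      rcases lt_or_gt_of_ne ha with h | h
      · rw [abs_of_neg (by nlinarith), abs_of_pos (by nlinarith)]; ring
      · rw [abs_of_pos (by nlinarith), abs_of_neg (by nlinarith)]; ring) hne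
    have h3 := w.pure _ (w.pow hq p.k.natAbs) (hn ▸ w.conj _ (w.pow hp _) n)
    have h4 := congrArg GG.k h3
    rw [pow_k] at h4
    simp [hp0, hq0] at h4

theorem wstar {P : Set GG} (h : WA P) : ∃ Q, P ⊆ Q ∧ WA Q ∧ ∀ a, a ∈ Q ∨ a⁻¹ ∈ Q := by
  obtain ⟨Q, h1, h2⟩ := zorn h
  exact ⟨Q, h1, h2.prop, total h2⟩

/-- the bad cone -/
def P0 : Set GG := {g | g = 1 ∨ (g.k = 0 ∧ chi g.x = 0 ∧ g.y = 0 ∧ 0 < chi g.z)}

lemma P0_mul : ∀ a ∈ P0, ∀ b ∈ P0, a * b ∈ P0 := by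
  rintro a (rfl | ⟨k, x, y, z⟩) b hb
  · simpa using hb
  rcases hb with rfl | ⟨k', x', y', z'⟩
  · rw [mul_one]; exact Or.inr ⟨k, x, y, z⟩
  · exact Or.inr ⟨by simp [k, k'], by simp [k, x, x'], by simp [k, y, y'], by
      simp only [mul_z, k, cc_zero, y', mul_zero, add_zero, one_mul, map_add]; positivity⟩

lemma P0_pure : ∀ a ∈ P0, a⁻¹ ∈ P0 → a = 1 := by
  rintro a (rfl | ⟨k, x, y, z⟩) hb
  · rfl
  rcases hb with h | ⟨-, -, -, z'⟩
  · exact inv_eq_one.1 h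
  · simp [k, y] at z'; linarith

lemma P0_conj : ∀ a ∈ P0, ∀ x : GG, x⁻¹ * a * x ∈ P0 := by
  rintro a (rfl | ⟨k, x, y, z⟩) g
  · exact Or.inl (by simp)
  · rw [conj_eq a g k]
    refine Or.inr ⟨rfl, by simp [x], by simp [y], ?_⟩
    simp only [map_mul, map_sub, map_add, x, y, chi_cc, zero_mul, mul_zero, map_zero, add_zero,
      sub_zero]
    exact mul_pos (mul_self_pos.2 (zpow_ne_zero _ (by norm_num))) z

theorem notO (Q : Set GG) (h0 : P0 ⊆ Q) (h1 : ∀ a ∈ Q, ∀ b ∈ Q, a * b ∈ Q)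
    (h2 : ∀ a ∈ Q, a⁻¹ ∈ Q → a = 1) (h3 : ∀ a ∈ Q, ∀ x : GG, x⁻¹ * a * x ∈ Q)
    (h4 : ∀ a, a ∈ Q ∨ a⁻¹ ∈ Q) : False := by
  have key : ∀ e : W, (⟨e, 0, 0, 0⟩ : GG) ∈ Q → e * e = 1 → False := by
    intro e he hee
    have m := h1 _ (h1 _ he _ (h3 _ he ⟨0, -e, 0, 0⟩)) _ (h3 _ he ⟨0, 0, 0, -1⟩)
    rw [conj_eq _ _ rfl, conj_eq _ _ rfl] at m
    have := h2 _ m (h0 (Or.inr ⟨by simp, by simp [chi_cc]; ring, by simp, by simp [hee]⟩))
    have := congrArg GG.z this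
    simp [hee] at this
  rcases h4 ⟨1, 0, 0, 0⟩ with h | h
  · exact key 1 h (by simp)
  · refine key (-1) ?_ (by simp)
    have e : (⟨1, 0, 0, 0⟩ : GG)⁻¹ = ⟨-1, 0, 0, 0⟩ := by refine GG.ext ?_ ?_ ?_ ?_ <;> simp
    rwa [e] at h

end conc

end Pool.Agent.H3.Wab
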